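import Pool.Agent.MP_fd3eaf_lc.Mg.Elem
import Pool.Agent.MP_fd3eaf_lc.ZD

-- part MP_fd3eaf_lc.Card
section

/-!
Cardinals, regular ordinals and clubs in the sense of the machine.
-/

set_option autoImplicit false

namespace Pool.Agent.MP_fd3eaf_lc

open Set Ordinal

/-- `C` is closed and unbounded in the initial segment `Λ`. -/
structure Clb (Λ C : Set On) : Prop where
  sub : C ⊆ Λ
  unb : ∀ x ∈ Λ, ∃ y ∈ C, x < y
  cls : ∀ γ ∈ Λ, 0 < γ → (∀ x < γ, ∃ y ∈ C, x < y ∧ y < γ) → γ ∈ C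

/-- Initial segments of uncountable cofinality. -/
def UC (Λ : Set On) : Prop :=
  IsLowerSet Λ ∧ ∀ x : ℕ → On, (∀ n, x n ∈ Λ) → ∃ y ∈ Λ, ∀ n, x n < y

theorem uc_univ : UC univ := by
  exact ⟨isLowerSet_univ, fun x _ => ⟨⨆ n, x n + 1, mem_univ _, Ordinal.lt_iSup_add_one x⟩⟩

theorem uc_ord {κ : Cardinal.{0}} (h1 : κ.IsRegular) (h2 : Cardinal.aleph0 < κ) :
    UC (Iio κ.ord) := by
  refine ⟨isLowerSet_Iio _, fun x hx => ⟨⨆ n, x n + 1, ?_, Ordinal.lt_iSup_add_one x⟩⟩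
  exact Ordinal.iSup_add_one_lt_of_lt_cof (by rwa [h1.cof_ord, Cardinal.mk_nat]) hx

/-- Closing under a step in countably many stages. -/
theorem carda_close {Λ : Set On} (h : UC Λ) (R : On → On → Prop)
    (hR : ∀ y ∈ Λ, ∃ z ∈ Λ, y < z ∧ R y z) {x : On} (hx : x ∈ Λ) :
    ∃ γ ∈ Λ, x < γ ∧ ∀ w < γ, ∃ y z, w < y ∧ z ≤ γ ∧ R y z := by
  choose! g h1 h2 h3 using hR
  have hm : ∀ n, g^[n] x ∈ Λ := fun n => by
    induction n with
    | zero => exact hx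
    | succ n ih => rw [Function.iterate_succ_apply']; exact h1 _ ih
  obtain ⟨b, hb, hb'⟩ := h.2 _ hm
  refine ⟨⨆ n, g^[n] x, h.1 (Ordinal.iSup_le fun n => (hb' n).le) hb,
    (h2 x hx).trans_le (Ordinal.le_iSup (fun n => g^[n] x) 1), fun w hw => ?_⟩
  obtain ⟨n, hn⟩ := Ordinal.lt_iSup_iff.1 hw
  refine ⟨g^[n] x, g (g^[n] x), hn, ?_, h3 _ (hm n)⟩
  rw [← Function.iterate_succ_apply' g]
  exact Ordinal.le_iSup (fun n => g^[n] x) (n + 1)

theorem Clb.iInter {Λ : Set On} (h : UC Λ) {C : ℕ → Set On} (hC : ∀ n, Clb Λ (C n)) :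
    Clb Λ (⋂ n, C n) := by
  refine ⟨(iInter_subset _ 0).trans (hC 0).sub, fun x hx => ?_, fun γ hγ h0 hl => ?_⟩
  · obtain ⟨γ, h1, h2, h3⟩ := carda_close h (fun y z => ∀ n, ∃ c ∈ C n, y < c ∧ c < z)
      (fun y hy => by
        choose c hc1 hc2 using fun n => (hC n).unb y hy
        obtain ⟨z, hz1, hz2⟩ := h.2 c fun n => (hC n).sub (hc1 n)
        exact ⟨z, hz1, (hc2 0).trans (hz2 0), fun n => ⟨c n, hc1 n, hc2 n, hz2 n⟩⟩) hx
    refine ⟨γ, mem_iInter.2 fun n => (hC n).cls γ h1 (zero_le.trans_lt h2) fun w hw => ?_, h2⟩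
    obtain ⟨y, z, a1, a2, a3⟩ := h3 w hw
    obtain ⟨c, b1, b2, b3⟩ := a3 n
    exact ⟨c, b1, a1.trans b2, b3.trans_le a2⟩
  · refine mem_iInter.2 fun n => (hC n).cls γ hγ h0 fun w hw => ?_
    obtain ⟨y, a1, a2⟩ := hl w hw
    exact ⟨y, mem_iInter.1 a1 n, a2⟩

theorem Clb.inter {Λ C C' : Set On} (h : UC Λ) (hC : Clb Λ C) (hC' : Clb Λ C') :
    Clb Λ (C ∩ C') := by
  have e : C ∩ C' = ⋂ n : ℕ, Nat.casesOn (motive := fun _ => Set On) n C fun _ => C' := by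
    ext x
    rw [mem_iInter]
    exact ⟨fun hx n => Nat.casesOn n hx.1 fun _ => hx.2, fun hx => ⟨hx 0, hx 1⟩⟩
  rw [e]
  exact Clb.iInter h fun n => Nat.casesOn n hC fun _ => hC'

theorem Clb.tail {Λ C : Set On} (hC : Clb Λ C) (hΛ : IsLowerSet Λ) {a : On} (ha : a ∈ Λ) :
    Clb Λ (C ∩ Ici a) := by
  refine ⟨inter_subset_left.trans hC.sub, fun x hx => ?_, fun γ hγ h0 hl => ⟨?_, ?_⟩⟩
  · obtain ⟨y, h1, h2⟩ := hC.unb (max x a) (by rcases max_choice x a with e | e <;> rwa [e])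
    exact ⟨y, ⟨h1, (max_lt_iff.1 h2).2.le⟩, (max_lt_iff.1 h2).1⟩
  · refine hC.cls γ hγ h0 fun w hw => ?_
    obtain ⟨y, a1, a2⟩ := hl w hw
    exact ⟨y, a1.1, a2⟩
  · obtain ⟨y, a1, _, a2⟩ := hl 0 h0
    exact (mem_Ici.1 a1.2).trans a2.le

theorem Clb.restrict {Λ C : Set On} (hC : Clb Λ C) (hΛ : IsLowerSet Λ) {γ : On} (h1 : Iio γ ⊆ Λ)
    (h2 : ∀ x < γ, ∃ y ∈ C, x < y ∧ y < γ) : Clb (Iio γ) (C ∩ Iio γ) := by
  refine ⟨inter_subset_right, fun x hx => ?_, fun δ hδ h0 hl => ⟨?_, hδ⟩⟩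
  · obtain ⟨y, a1, a2, a3⟩ := h2 x hx
    exact ⟨y, ⟨a1, a3⟩, a2⟩
  · refine hC.cls δ (h1 hδ) h0 fun w hw => ?_
    obtain ⟨y, a1, a2⟩ := hl w hw
    exact ⟨y, a1.1, a2⟩

/-- The preimage of a club that is contained in the range of an enumeration. -/
theorem Clb.preimage {C : Set On} {f : On → On} (hC : Clb univ C) (hf : StrictMono f)
    (h : C ⊆ range f) : Clb univ (f ⁻¹' C) := by
  refine ⟨subset_univ _, fun x _ => ?_, fun γ _ h0 hl => ?_⟩
  · obtain ⟨y, h1, h2⟩ := hC.unb (f x) (mem_univ _)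
    obtain ⟨z, rfl⟩ := h h1
    exact ⟨z, h1, hf.lt_iff_lt.1 h2⟩
  · have h1 : f γ ∈ {d | ∀ y < γ, f y < d} := fun y hy => hf hy
    have h2 : ∀ y < γ, f y < sInf {d | ∀ y < γ, f y < d} := csInf_mem ⟨_, h1⟩
    have h3 : sInf {d | ∀ y < γ, f y < d} ∈ C := by
      refine hC.cls _ (mem_univ _) (zero_le.trans_lt (h2 0 h0)) fun w hw => ?_
      have h4 : ¬ ∀ y < γ, f y < w := fun h4 => hw.not_ge (csInf_le' h4)
      push Not at h4
      obtain ⟨y, a1, a2⟩ := h4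
      obtain ⟨z, b1, b2, b3⟩ := hl y a1
      exact ⟨f z, b1, a2.trans_lt (hf b2), h2 z b3⟩
    obtain ⟨z, hz⟩ := h h3
    have h5 : z = γ := le_antisymm (hf.le_iff_le.1 (hz.trans_le (csInf_le' h1)))
      (le_of_not_gt fun hz' => (h2 z hz').ne hz)
    rw [mem_preimage, ← h5, hz]
    exact h3

theorem exists_seq {I : Set On} (h : ∀ x ∈ I, ∃ y ∈ I, x < y) {a : On} (ha : a ∈ I) :
    ∃ ι : ℕ → On, StrictMono ι ∧ ι 0 = a ∧ ∀ n, ι n ∈ I := by
  choose! g h1 h2 using h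
  have hm : ∀ n, g^[n] a ∈ I := fun n => by
    induction n with
    | zero => exact ha
    | succ n ih => rw [Function.iterate_succ_apply']; exact h1 _ ih
  refine ⟨fun n => g^[n] a, strictMono_nat_of_lt_succ fun n => ?_, rfl, hm⟩
  rw [Function.iterate_succ_apply']
  exact h2 _ (hm n)

theorem ElUp.clb {A Λ : Set On} (h : ElUp A Λ) : Clb Λ {l | l ∈ Λ ∧ TV A Λ (Iio l)} := by
  refine ⟨fun l hl => hl.1, fun x hx => ?_, fun γ hγ h0 hl => ⟨hγ, TV.limit h0 fun w hw => ?_⟩⟩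
  · obtain ⟨l, a1, a2, a3⟩ := h.2 x hx
    exact ⟨l, ⟨a1, a3⟩, a2⟩
  · obtain ⟨y, a1, a2, a3⟩ := hl w hw
    exact ⟨y, a2, a3.le, a1.2⟩

theorem carda_bound {κ : Cardinal.{0}} (h : κ.IsRegular) {β : Type 1} (f : β → On)
    (hβ : Cardinal.mk β < Cardinal.lift.{1} κ) : ∃ b < κ.ord, ∀ i, f i < κ.ord → f i < b := by
  classical
  have h1 : ∀ i, (if f i < κ.ord then f i else 0) < κ.ord := fun i => by
    split_ifs with e
    exacts [e, h.ord_pos]
  refine ⟨⨆ i, (if f i < κ.ord then f i else 0) + 1,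
    Ordinal.lift_iSup_add_one_lt_of_lt_cof ?_ h1, fun i hi => ?_⟩
  · rwa [← Ordinal.lift_cof, h.cof_ord, Cardinal.lift_uzero]
  · have h2 := le_ciSup (f := fun i => (if f i < κ.ord then f i else 0) + 1)
      ⟨κ.ord, forall_mem_range.2 fun j => Order.add_one_le_iff.2 (h1 j)⟩ i
    rw [if_pos hi] at h2
    exact Order.add_one_le_iff.1 h2

theorem carda_list {γ : On} (h0 : 0 < γ) (q : List On) (hq : ∀ a ∈ q, a < γ) :
    ∃ w < γ, ∀ a ∈ q, a ≤ w := by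
  induction q with
  | nil => exact ⟨0, h0, fun _ m => absurd m List.not_mem_nil⟩
  | cons b q ih =>
    obtain ⟨w, h1, h2⟩ := ih fun a ha => hq a (List.mem_cons_of_mem _ ha)
    refine ⟨max b w, max_lt (hq b List.mem_cons_self) h1, fun a ha => ?_⟩
    rcases List.mem_cons.1 ha with rfl | ha
    exacts [le_max_left _ _, le_max_of_le_right (h2 a ha)]

/-- The closure points of a finitary function with small values form a club. -/
theorem clb_closure {κ : Cardinal.{0}} (h1 : κ.IsRegular) (h2 : Cardinal.aleph0 < κ)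
    (F : List On → On) (hF : ∀ q, (∀ a ∈ q, a < κ.ord) → F q < κ.ord) :
    Clb (Iio κ.ord) {d | d < κ.ord ∧ 0 < d ∧ ∀ q, (∀ a ∈ q, a < d) → F q < d} := by
  refine ⟨fun d hd => hd.1, fun x hx => ?_, fun γ hγ h0 hl => ⟨hγ, h0, fun q hq => ?_⟩⟩
  · obtain ⟨γ, a1, a2, a3⟩ := carda_close (uc_ord h1 h2)
      (fun y z => ∀ q, (∀ a ∈ q, a < y) → F q < z) (fun y hy => by
        obtain ⟨b, b1, b2⟩ := carda_bound h1 (fun q : List (Iio y) => F (q.map Subtype.val)) (by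
          refine (Cardinal.mk_list_le_max _).trans_lt (max_lt ?_ ?_)
          · exact Cardinal.aleph0_lt_lift.2 h2
          · rw [Cardinal.mk_Iio_ordinal, Cardinal.lift_lt]
            exact Cardinal.lt_ord.1 hy)
        refine ⟨max (y + 1) b, max_lt ((Cardinal.isSuccLimit_ord h2.le).add_one_lt hy) b1,
          lt_max_of_lt_left (lt_add_one y), fun q hq => lt_max_of_lt_right ?_⟩
        have e : (q.attachWith (· ∈ Iio y) hq).map Subtype.val = q :=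
          List.attachWith_map_subtype_val hq
        have b3 := b2 (q.attachWith (· ∈ Iio y) hq)
        simp only [e] at b3
        exact b3 (hF q fun a ha => (hq a ha).trans hy)) hx
    refine ⟨γ, ⟨a1, zero_le.trans_lt a2, fun q hq => ?_⟩, a2⟩
    obtain ⟨w, b1, b2⟩ := carda_list (zero_le.trans_lt a2) q hq
    obtain ⟨y, z, c1, c2, c3⟩ := a3 w b1
    exact (c3 q fun a ha => (b2 a ha).trans_lt c1).trans_le c2
  · obtain ⟨w, b1, b2⟩ := carda_list h0 q hq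
    obtain ⟨y, c1, c2, c3⟩ := hl w b1
    exact (c1.2.2 q fun a ha => (b2 a ha).trans_lt c2).trans c3

/-- The function named by `s` maps `μ` onto `ζ`. -/
def Onto (A : Set On) (s μ ζ : On) : Prop := ∀ x < ζ, ∃ ξ < μ, sk A (ins s ξ) = x

/-- The function named by `s` maps `μ` cofinally into `δ`. -/
def Cof (A : Set On) (s μ δ : On) : Prop :=
  ∀ x < δ, ∃ ξ < μ, x ≤ sk A (ins s ξ) ∧ sk A (ins s ξ) < δ

/-- `θ` is a cardinal for the names in `Λ`. -/
def Card (A Λ : Set On) (θ : On) : Prop := ∀ s ∈ Λ, ∀ μ < θ, ¬ Onto A s μ θ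

/-- `δ` is regular for the names in `Λ`. -/
def Rgl (A Λ : Set On) (δ : On) : Prop := ∀ s ∈ Λ, ∀ μ < δ, ¬ Cof A s μ δ

instance MD.onto (B : Fam (Set On)) [MO B] (s t r : Fam On) [MT s] [MT t] [MT r] :
    MD fun A Λ v => Onto (B A Λ v) (s A Λ v) (t A Λ v) (r A Λ v) := by
  unfold Onto; infer_instance

instance MD.cof (B : Fam (Set On)) [MO B] (s t r : Fam On) [MT s] [MT t] [MT r] :
    MD fun A Λ v => Cof (B A Λ v) (s A Λ v) (t A Λ v) (r A Λ v) := by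
  unfold Cof; infer_instance

instance MD.card (B : Fam (Set On)) [MO B] (s : Fam On) [MT s] :
    MD fun A Λ v => Card (B A Λ v) Λ (s A Λ v) := by
  unfold Card; infer_instance

instance MD.rgl (B : Fam (Set On)) [MO B] (s : Fam On) [MT s] :
    MD fun A Λ v => Rgl (B A Λ v) Λ (s A Λ v) := by
  unfold Rgl; infer_instance

instance MD.clbExt (B : Fam (Set On)) [MO B] (s t : Fam On) [MT s] [MT t] :
    MD fun A Λ v => Clb (Iio (t A Λ v)) (ext (B A Λ v) (s A Λ v)) := by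
  refine MD.congr (P := fun A Λ v =>
    (∀ a, a < lev (s A Λ v) → a ∈ ext (B A Λ v) (s A Λ v) → a < t A Λ v) ∧
    (∀ x, x < t A Λ v → ∃ y, y < lev (s A Λ v) ∧ y ∈ ext (B A Λ v) (s A Λ v) ∧ x < y) ∧
    ∀ γ, γ < t A Λ v → 0 < γ →
      (∀ x, x < γ → ∃ y, y < γ ∧ y ∈ ext (B A Λ v) (s A Λ v) ∧ x < y) →
      γ ∈ ext (B A Λ v) (s A Λ v)) fun A Λ v _ _ => ⟨fun ⟨h1, h2, h3⟩ => ⟨?_, ?_, ?_⟩,
    fun ⟨h1, h2, h3⟩ => ⟨?_, ?_, ?_⟩⟩
  · exact fun a ha => h1 a ha.1 ha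
  · exact fun x hx => let ⟨y, _, a1, a2⟩ := h2 x hx; ⟨y, a1, a2⟩
  · exact fun γ hγ h0 hl => h3 γ hγ h0 fun x hx => let ⟨y, a1, a2, a3⟩ := hl x hx; ⟨y, a3, a1, a2⟩
  · exact fun a _ ha => h1 ha
  · exact fun x hx => let ⟨y, a1, a2⟩ := h2 x hx; ⟨y, a1.1, a1, a2⟩
  · exact fun γ hγ h0 hl => h3 γ hγ h0 fun x hx => let ⟨y, a1, a2, a3⟩ := hl x hx; ⟨y, a2, a3, a1⟩

theorem Onto.cof {A : Set On} {s μ ζ : On} (h : Onto A s μ ζ) : Cof A s μ ζ := by
  intro x hx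
  obtain ⟨ξ, h1, h2⟩ := h x hx
  exact ⟨ξ, h1, h2.ge, h2.trans_lt hx⟩

theorem Rgl.card {A Λ : Set On} {δ : On} (h : Rgl A Λ δ) : Card A Λ δ :=
  fun s hs μ hμ h' => h s hs μ hμ h'.cof

theorem Card.mono {A Λ Λ' : Set On} {θ : On} (h : Card A Λ θ) (h' : Λ' ⊆ Λ) : Card A Λ' θ :=
  fun s hs => h s (h' hs)

theorem Rgl.mono {A Λ Λ' : Set On} {θ : On} (h : Rgl A Λ θ) (h' : Λ' ⊆ Λ) : Rgl A Λ' θ :=
  fun s hs => h s (h' hs)

theorem card_ord (A : Set On) (κ : Cardinal.{0}) : Card A univ κ.ord := by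
  intro s _ μ hμ h
  have h1 : Iio κ.ord ⊆ (fun ξ => sk A (ins s ξ)) '' Iio μ := fun x hx => h x hx
  have h2 := (Cardinal.mk_le_mk_of_subset h1).trans Cardinal.mk_image_le
  rw [Cardinal.mk_Iio_ordinal, Cardinal.mk_Iio_ordinal, Cardinal.lift_le, Cardinal.card_ord] at h2
  exact (Cardinal.lt_ord.1 hμ).not_ge h2

theorem rgl_ord (A : Set On) {κ : Cardinal.{0}} (h : κ.IsRegular) : Rgl A univ κ.ord := by
  intro s _ μ hμ h'
  obtain ⟨b, h1, h2⟩ := carda_bound h (fun ξ : Iio μ => sk A (ins s ξ)) (by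
    rw [Cardinal.mk_Iio_ordinal, Cardinal.lift_lt]
    exact Cardinal.lt_ord.1 hμ)
  obtain ⟨ξ, a1, a2, a3⟩ := h' b h1
  exact (h2 ⟨ξ, a1⟩ a3).not_ge a2

theorem cardb_sk (A : Set On) {l : On} (hl : Nice (Iio l)) (k : ℕ) {q : List On}
    (hq : ∀ a ∈ q, a < l) : sk A (code ⟨l, fall (fneg k), l, q⟩) = lw A (Iio l) k q := by
  rw [← lw_eq_sk hl.isLev le_rfl hq]
  exact lw_congr hl.lower hl.zero_mem hq fun x hx => and_iff_left hx

/-- A definable function has a name. -/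
theorem exists_name (t : Fam On) [MT t] (A : Set On) {l : On} (hl : Nice (Iio l))
    (q : List On) (hq : ∀ a ∈ q, a < l) :
    ∃ s, lev s = l ∧ ∀ ξ < l, sk A (ins s ξ) = t A (Iio l) (lv (ξ :: q)) := by
  obtain ⟨k, hk⟩ := MT.exists_lw t
  have h1 : IsLev (Loc.mk l (fall (fneg k)) l q).l := hl.isLev
  have h2 : (Loc.mk l (fall (fneg k)) l q).Valid := ⟨le_rfl, hq⟩
  refine ⟨_, lev_code h1 h2, fun ξ hξ => ?_⟩
  have h3 : ∀ a ∈ ξ :: q, a < l := (machb_valid (k' := 0) h2 hξ).2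
  rw [ins_code h1 h2, cardb_sk A hl k h3, hk A _ _ hl h3]

/-- Definable functions are bounded below a regular ordinal. -/
theorem Rgl.bdd {A Λ : Set On} {δ μ l : On} (h : Rgl A Λ δ) (hΛ : Nice Λ) (t : Fam On) [MT t]
    (hl : Nice (Iio l)) (hl' : l ∈ Λ) (q : List On) (hq : ∀ a ∈ q, a < l) (hμ : μ < δ)
    (hμ' : μ ≤ l) : ∃ b < δ, ∀ ξ < μ, t A (Iio l) (lv (ξ :: q)) < δ →
      t A (Iio l) (lv (ξ :: q)) < b := by
  obtain ⟨s, h1, h2⟩ := exists_name t A hl q hq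
  have hs : s ∈ Λ := hΛ.lower (lt_nl s).le (by rw [← nl_lev, h1]; exact hΛ.nl_mem hl')
  by_contra hn
  refine h s hs μ hμ fun x hx => ?_
  by_contra hc
  refine hn ⟨x, hx, fun ξ hξ k => not_le.1 fun k' => hc ⟨ξ, hξ, ?_⟩⟩
  rw [h2 ξ (hξ.trans_le hμ')]
  exact ⟨k', k⟩

theorem cardb_list (L : List ℕ) : ML fun _ _ v => L.map (fun i => v (i + 2)) ++ par (v 0) := by
  induction L with
  | nil => exact ML.par fun _ _ v => v 0
  | cons i L ih => exact ML.cons (fun _ _ v => v (i + 2)) _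

theorem cardb_lv {q r : List On} (h : ∀ a ∈ q, a ∈ r) (i : ℕ) : ∃ j, lv r j = lv q i := by
  rcases lt_or_ge i q.length with k | k
  · obtain ⟨j, hj, e⟩ := List.getElem_of_mem (h _ (List.getElem_mem k))
    exact ⟨j, by rw [lv, lv, List.getD_eq_getElem _ _ hj, List.getD_eq_getElem _ _ k, e]⟩
  · exact ⟨r.length, by rw [lv, lv, List.getD_eq_default _ _ k, List.getD_eq_default _ _ le_rfl]⟩

/-- A least solution may be computed from any list that contains the parameters. -/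
theorem cardb_lw (A Λ : Set On) (k : ℕ) {q r : List On} (h : ∀ a ∈ q, a ∈ r) :
    ∃ k', lw A Λ k' r = lw A Λ k q := by
  choose g hg using cardb_lv h
  obtain ⟨k', hk⟩ := exists_ren k (up g)
  refine ⟨k', congrArg sInf (Set.ext fun ξ => and_congr_right fun _ => (hk A Λ _).trans ?_)⟩
  refine sat_irrel fun i _ => ?_
  cases i with
  | zero => rfl
  | succ i => exact hg i

/-- The definable closure of `μ` and finitely many points is enumerated by a name.  Hint: for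
`ξ = code ⟨nl μ, fall (fneg k), 0, q⟩` take `sk A` of `mov ξ l` with the elements of `P` inserted in
front (rename the variables of `k` first); this is a definable term at the level `nn l`. -/
theorem exists_enum (A : Set On) {l μ : On} (hl : Nice (Iio l)) (hμ : μ ≤ l) (P : List On)
    (hP : ∀ a ∈ P, a < l) : ∃ s, lev s = nn l ∧
      ∀ x ∈ Dcl A (Iio l) (Iio μ ∪ {a | a ∈ P}), ∃ ξ < nl (nl μ), sk A (ins s ξ) = x := by
  classical
  obtain ⟨hn, hl', -⟩ := nn_spec l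
  have := cardb_list (List.range P.length)
  obtain ⟨s, h1, h2⟩ := exists_name (fun A _ v => sk A (code ⟨v 1, fml (v 0), v 1,
    (List.range P.length).map (fun i => v (i + 2)) ++ par (v 0)⟩)) A hn (l :: P)
    fun a m => (List.mem_cons.1 m).elim (fun e => e ▸ hl') fun m => (hP a m).trans hl'
  refine ⟨s, h1, ?_⟩
  rintro x ⟨k, q, hq, rfl⟩
  have h3 : ∀ a ∈ q.filter (· < μ), a < μ := fun a m => by simpa using (List.mem_filter.1 m).2
  obtain ⟨k', hk⟩ := cardb_lw A (Iio l) k (q := q) (r := P ++ q.filter (· < μ)) fun a m =>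
    List.mem_append.2 ((hq a m).symm.imp id fun k => List.mem_filter.2 ⟨m, by simpa using k⟩)
  have v1 : IsLev (Loc.mk (nl μ) (fall (fneg k')) 0 (q.filter (· < μ))).l := isLev_nl μ
  have v2 : (Loc.mk (nl μ) (fall (fneg k')) 0 (q.filter (· < μ))).Valid :=
    ⟨zero_le, fun a m => (h3 a m).trans (lt_nl μ)⟩
  refine ⟨_, code_lt_nl ⟨nl μ, fall (fneg k'), 0, q.filter (· < μ)⟩, ?_⟩
  rw [h2 _ (hn.code_mem (hn.nl_mem (hμ.trans_lt hl'))), ← hk, ← cardb_sk A hl k' fun a m =>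
    (List.mem_append.1 m).elim (hP a) fun m => (h3 a m).trans_le hμ]
  simp only [lv_succ, lv_zero]
  rw [fml_code v1 v2, par_code v1 v2, ← (mdc_len P _).2 rfl]

/-- The oracle condenses for hulls that contain `e`. -/
def Down (A : Set On) (e : On) : Prop :=
  ∀ η H, IsLev η → Closed A (Iio η) H → Iio e ⊆ H → ∀ c < otp H η, col H η c ∈ A ↔ c ∈ A

theorem down_of_subset {A : Set On} {e : On} (h : A ⊆ Iio e) : Down A e := by
  intro η H _ _ he c _
  rcases lt_or_ge c e with k | k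
  · rw [col_fix he k]
  · exact iff_of_false (fun m => (h m).not_ge (k.trans col_strictMono.le_apply))
      fun m => (h m).not_ge k

theorem Down.elem {A H : Set On} {e η : On} (h : Down A e) (hη : Nice (Iio η))
    (hH : TV A (Iio η) H) (he : Iio e ⊆ H) : Elem A A (Iio (otp H η)) (Iio η) (col H η) :=
  (hH.elem_col hη).congr (fun x hx => h η H hη.isLev (hH.closed hη) he x hx)
    (fun _ _ => Iff.rfl) fun _ _ => rfl

theorem cardc_mem {Λ : Set On} (hΛ : Nice Λ) {s : On} (h : lev s ∈ Λ) : s ∈ Λ :=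
  hΛ.lower (lt_nl s).le (nl_lev s ▸ hΛ.nl_mem h)

section
variable {A Λ : Set On} {e θ : On}

/-- Small elementary submodels collapse below a cardinal. -/
theorem hull_lemma (hd : Down A e) (hΛ : ElUp A Λ) (hθ : Card A Λ θ) (hn : Nice (Iio θ))
    {μ l : On} (h1 : e ≤ μ) (h2 : μ < θ) (hl : Nice (Iio l)) (h3 : l ∈ Λ) (h4 : μ ≤ l)
    (P : List On) (hP : ∀ a ∈ P, a < l) :
    ∃ (l' : On) (f : On → On), l' < θ ∧ μ ≤ l' ∧ Elem A A (Iio l') (Iio l) f ∧
      (∀ x < μ, f x = x) ∧ ∀ a ∈ P, ∃ a' < l', f a' = a := by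
  have hY : Iio μ ∪ {a | a ∈ P} ⊆ Iio l := union_subset (Iio_subset_Iio h4) hP
  obtain ⟨H, hH⟩ : ∃ H, H = Dcl A (Iio l) (Iio μ ∪ {a | a ∈ P}) := ⟨_, rfl⟩
  have a1 : TV A (Iio l) H := hH ▸ dcl_tv hl hY
  have a2 : Iio μ ∪ {a | a ∈ P} ⊆ H := hH ▸ subset_dcl hl hY
  have a3 : Iio μ ⊆ H := subset_union_left.trans a2
  have a4 := hd.elem hl a1 ((Iio_subset_Iio h1).trans a3)
  have a5 : ∀ x < μ, col H l x = x := fun x hx => col_fix a3 hx
  have a6 : μ ≤ otp H l := le_of_forall_lt fun x hx =>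
    col_lt_iff.1 (by rw [a5 x hx]; exact hx.trans_le h4)
  have a7 : ∀ a ∈ P, ∃ a' < otp H l, col H l a' = a := fun a ha =>
    (col_image (H := H) (η := l)).ge ⟨a2 (Or.inr ha), hP a ha⟩
  refine ⟨otp H l, col H l, not_le.1 fun k => ?_, a6, a4, a5, a7⟩
  obtain ⟨Q, b1, b2⟩ : ∃ Q : List On, (∀ a ∈ Q, a < otp H l) ∧ Q.map (col H l) = P := by
    clear a1 a2 a3 a4 a5 a6 k hH hY hP
    induction P with
    | nil => exact ⟨[], by simp, rfl⟩
    | cons a P ih =>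
      obtain ⟨Q, b1, b2⟩ := ih fun b hb => a7 b (List.mem_cons_of_mem _ hb)
      obtain ⟨a', c1, c2⟩ := a7 a List.mem_cons_self
      exact ⟨a' :: Q, fun b hb => (List.mem_cons.1 hb).elim (fun e => e ▸ c1) (b1 b),
        by rw [List.map_cons, c2, b2]⟩
  obtain ⟨s, c1, c2⟩ := exists_enum A a4.nice a6 Q b1
  have b3 : col H l '' (Iio μ ∪ {a | a ∈ Q}) = Iio μ ∪ {a | a ∈ P} := by
    rw [image_union, ← b2]
    refine congrArg₂ _ (Set.ext fun x => ⟨?_, fun hx => ⟨x, hx, a5 x hx⟩⟩)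
      (Set.ext fun x => List.mem_map.symm)
    rintro ⟨y, hy, rfl⟩
    rwa [a5 y hy]
  refine hθ s (cardc_mem hΛ.1 (c1 ▸ hΛ.nn_mem (hΛ.1.lower otp_le h3))) (nl (nl μ))
    (hn.nl_mem (hn.nl_mem h2)) fun x hx => c2 x ?_
  have b4 : x < otp H l := hx.trans_le k
  have b5 : Iio μ ∪ {a | a ∈ Q} ⊆ Iio (otp H l) := union_subset (Iio_subset_Iio a6) b1
  rw [← a4.dcl b5 b4, b3, ← hH]
  exact condb_mem (col_lt_iff.2 b4)

theorem cardc_hull (hd : Down A e) (hΛ : ElUp A Λ) (hθ : Card A Λ θ) (hn : Nice (Iio θ))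
    (he : e < θ) {μ s : On} (h1 : μ < θ) (h2 : s ∈ Λ) (h3 : θ ∈ Λ) :
    ∃ (l l' s' : On) (f : On → On), l' < θ ∧ μ < l' ∧ s' < l' ∧ Elem A A (Iio l') (Iio l) f ∧
      (∀ x ≤ μ, f x = x) ∧ f s' = s := by
  have a1 : max s θ ∈ Λ := by
    rcases le_total s θ with k | k
    · rwa [max_eq_right k]
    · rwa [max_eq_left k]
  have a2 : max e μ + 1 < θ := hn.succ_mem (max_lt he h1)
  have a3 : μ < max e μ + 1 := (le_max_right e μ).trans_lt (lt_add_one _)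
  obtain ⟨b1, b2, -⟩ := nn_spec (max s θ)
  obtain ⟨l', f, c1, c2, c3, c4, c5⟩ := hull_lemma hd hΛ hθ hn
    ((le_max_left e μ).trans (lt_add_one _).le) a2 b1 (hΛ.nn_mem a1)
    (a2.le.trans ((le_max_right s θ).trans b2.le)) [s] fun a ha => by
      rw [List.mem_singleton.1 ha]
      exact (le_max_left s θ).trans_lt b2
  obtain ⟨s', d1, d2⟩ := c5 s List.mem_cons_self
  exact ⟨_, l', s', f, c1, a3.trans_le c2, d1, c3, fun x hx => c4 x (hx.trans_lt a3), d2⟩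

theorem gch (hd : Down A e) (hΛ : ElUp A Λ) (hθ : Card A Λ θ) (hn : Nice (Iio θ)) (he : e < θ)
    {μ s : On} (h1 : μ < θ) (h2 : s ∈ Λ) (h3 : θ ∈ Λ) :
    ∃ s' < θ, ext A s' = ext A s ∩ Iio μ := by
  obtain ⟨l, l', s', f, c1, c2, c3, c4, c5, c6⟩ := cardc_hull hd hΛ hθ hn he h1 h2 h3
  obtain ⟨t, d1, -, -, d2⟩ := MD.exists_ext (fun A _ v => v 0 ∈ ext A (v 1) ∧ v 0 < v 2) A c4.nice
    [s', μ] fun a ha => by
      rcases List.mem_pair.1 ha with rfl | rfl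
      exacts [c3, c2]
  refine ⟨t, cardc_mem hn (d1 ▸ c1), d2.trans (Set.ext fun x => ?_)⟩
  change x < l' ∧ x ∈ ext A s' ∧ x < μ ↔ x ∈ ext A s ∧ x < μ
  refine ⟨fun h => ⟨?_, h.2.2⟩, fun h => ⟨h.2.trans c2, ?_, h.2⟩⟩
  · rw [← c6, ← c5 x h.2.2.le]
    exact (c4.mem_ext c3 h.1).2 h.2.1
  · rw [← c4.mem_ext c3 (h.2.trans c2), c6, c5 x h.2.le]
    exact h.1

theorem card_up (hd : Down A e) (hΛ : ElUp A Λ) (hθ : Card A Λ θ) (hn : Nice (Iio θ))
    (he : e < θ) (h3 : θ ∈ Λ) {θ' : On} (h1 : θ' < θ) (h2 : Card A (Iio θ) θ') : Card A Λ θ' := by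
  intro s hs μ hμ h
  obtain ⟨l, l', s', f, c1, c2, c3, c4, c5, c6⟩ := cardc_hull hd hΛ hθ hn he h1 hs h3
  refine h2 s' (c3.trans c1) μ hμ ?_
  refine (c4.mdl (fun A _ v => Onto A (v 0) (v 1) (v 2)) [s', μ, θ'] fun a ha => ?_).2 ?_
  · simp only [List.mem_cons, List.not_mem_nil, or_false] at ha
    rcases ha with rfl | rfl | rfl
    exacts [c3, hμ.trans c2, c2]
  · change Onto A (f s') (f μ) (f θ')
    rwa [c6, c5 μ hμ.le, c5 θ' le_rfl]

end

/-- `y` is the supremum of the values below `δ` of `f` on `ζ`. -/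
def cardb_sup (f : On → On) (δ y ζ : On) : Prop :=
  (∀ ξ, ξ < ζ → f ξ < δ → f ξ ≤ y) ∧ ∀ z, z < y → ∃ ξ, ξ < ζ ∧ z < f ξ ∧ f ξ < δ

theorem cardb_clb {f : On → On} {μ δ : On} (hδ : Order.IsSuccLimit δ)
    (h : ∀ x < δ, ∃ ξ < μ, x ≤ f ξ ∧ f ξ < δ) :
    Clb (Iio δ) {y | y < δ ∧ ∃ ζ ≤ μ, cardb_sup f δ y ζ} ∧ ∀ E : On → On,
      StrictMonoOn E (Iic (μ + 1)) → ∃ i ≤ μ + 1,
        E i ∉ {y | y < δ ∧ ∃ ζ ≤ μ, cardb_sup f δ y ζ} := by
  have h1 : ∀ x < δ, ∃ ξ < μ, x ≤ f ξ ∧ f ξ < δ ∧ ∀ η < ξ, f η < δ → f η < x := fun x hx => by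
    obtain ⟨ξ, a, b⟩ := h x hx
    have m : ξ ∈ {ξ | x ≤ f ξ ∧ f ξ < δ} := b
    have m' := csInf_mem ⟨ξ, m⟩
    refine ⟨_, (csInf_le' m).trans_lt a, m'.1, m'.2, fun η c d => not_le.1 fun e => ?_⟩
    exact c.not_ge (csInf_le' ⟨e, d⟩)
  refine ⟨⟨fun y k => k.1, fun x hx => ?_, fun γ hγ _ k => ?_⟩, fun E hE => ?_⟩
  · obtain ⟨ξ, a, b, c, d⟩ := h1 _ (hδ.add_one_lt hx)
    refine ⟨f ξ, ⟨c, ξ + 1, Order.add_one_le_of_lt a, fun η e g => ?_,
      fun z e => ⟨ξ, lt_add_one ξ, e, c⟩⟩, (lt_add_one x).trans_le b⟩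
    rcases (Order.lt_add_one_iff.1 e).eq_or_lt with rfl | e
    · exact le_rfl
    · exact ((d η e g).trans_le b).le
  · obtain ⟨ξ, a, b, c, d⟩ := h1 γ hγ
    refine ⟨hγ, ξ, a.le, fun η e g => (d η e g).le, fun z e => ?_⟩
    obtain ⟨y, ⟨-, ζ, -, y1, y2⟩, y3, y4⟩ := k z e
    obtain ⟨η, e1, e2, e3⟩ := y2 z y3
    exact ⟨η, e1.trans_le (not_lt.1 fun g => (b.trans (y1 ξ g c)).not_gt y4), e2, e3⟩
  · by_contra hn
    have h2 : ∀ i ≤ μ + 1, ∃ ζ ≤ μ, cardb_sup f δ (E i) ζ := fun i hi => by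
      by_contra hc
      exact hn ⟨i, hi, fun k => hc k.2⟩
    have h3 : ∀ i, i ≤ μ + 1 → ∀ ζ, cardb_sup f δ (E i) ζ → i ≤ ζ := by
      intro i
      induction i using WellFoundedLT.induction with
      | ind i ih =>
        refine fun hi ζ k => not_lt.1 fun a => ?_
        have b := a.le.trans hi
        obtain ⟨ζ', -, k'⟩ := h2 ζ b
        obtain ⟨ξ, c, d, e⟩ := k.2 _ (hE b hi a)
        exact (k'.1 ξ (c.trans_le (ih ζ a b ζ' k')) e).not_gt d
    obtain ⟨ζ, a, b⟩ := h2 _ le_rfl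
    exact ((h3 _ le_rfl ζ b).trans a).not_gt (lt_add_one μ)

/-- A singular ordinal has a club of small order type.  Hint: with `f ξ = sk A (ins s ξ)` and
`g ζ = sup {f ξ | ξ < ζ, f ξ < δ}` take `{g ζ | ζ ≤ μ} ∩ δ`. -/
theorem clb_of_cof {A : Set On} {s μ δ : On} (hδ : Order.IsSuccLimit δ) (h : Cof A s μ δ) :
    ∃ s', Clb (Iio δ) (ext A s') ∧
      ∀ E : On → On, StrictMonoOn E (Iic (μ + 1)) → ∃ i ≤ μ + 1, E i ∉ ext A s' := by
  obtain ⟨hn, hl, -⟩ := nn_spec (max s (max μ δ))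
  have h1 : δ < nn (max s (max μ δ)) := ((le_max_right _ _).trans (le_max_right _ _)).trans_lt hl
  obtain ⟨s', -, -, -, he⟩ := MD.exists_ext (fun A _ v => v 0 < v 3 ∧ ∃ ζ, ζ ≤ v 2 ∧
      (∀ ξ, ξ < ζ → sk A (ins (v 1) ξ) < v 3 → sk A (ins (v 1) ξ) ≤ v 0) ∧
      ∀ z, z < v 0 → ∃ ξ, ξ < ζ ∧ z < sk A (ins (v 1) ξ) ∧ sk A (ins (v 1) ξ) < v 3)
    A hn [s, μ, δ] fun a m => by
      simp only [List.mem_cons, List.not_mem_nil, or_false] at m
      rcases m with rfl | rfl | rfl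
      exacts [(le_max_left _ _).trans_lt hl,
        ((le_max_left _ _).trans (le_max_right _ _)).trans_lt hl, h1]
  have he' : ext A s' = {y | y < δ ∧ ∃ ζ ≤ μ, cardb_sup (fun ξ => sk A (ins s ξ)) δ y ζ} := by
    rw [he]
    exact Set.ext fun y => ⟨fun k => k.2, fun k => ⟨k.1.trans h1, k⟩⟩
  exact ⟨s', he' ▸ cardb_clb hδ h⟩

end Pool.Agent.MP_fd3eaf_lc

end

-- part MP_fd3eaf_lc.TM
section

/-!
Transitive models and their hereditarily countable sets.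
-/

set_option autoImplicit false

namespace Pool.Agent.MP_fd3eaf_lc

open Set Ordinal Pool.Agent.Lib.Forcing

/-- Transitive models of ZFC. -/
structure TM (M : Set ZFSet.{0}) : Prop where
  tr : Tr M
  zfc : ZFC (EM M)

/-- Inductive sets of a transitive class contain all natural numbers. -/
theorem tma_ind {M : Set ZFSet.{0}} (h : Tr M) {w : M} (hw : Ind (EM M) w) (n : ℕ) :
    (n : On).toZFSet ∈ w.1 := by
  induction n with
  | zero =>
    obtain ⟨e, he, hew⟩ := hw.1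
    have : e.1 = ∅ := (ZFSet.eq_empty _).2 fun z hz => he ⟨z, h _ e.2 _ hz⟩ hz
    rw [Nat.cast_zero, toZFSet_zero, ← this]
    exact hew
  | succ n ih =>
    obtain ⟨y, hy, hyw⟩ := hw.2 ⟨_, h _ w.2 _ ih⟩ ih
    have : y.1 = insert (n : On).toZFSet (n : On).toZFSet := by
      ext z
      rw [ZFSet.mem_insert_iff]
      constructor
      · intro hz
        rcases (hy ⟨z, h _ y.2 _ hz⟩).1 hz with h1 | h1
        · exact Or.inr h1
        · exact Or.inl (congrArg Subtype.val h1)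
      · rintro (rfl | hz)
        · exact (hy ⟨_, h _ w.2 _ ih⟩).2 (Or.inr rfl)
        · exact (hy ⟨z, h _ (h _ w.2 _ ih) _ hz⟩).2 (Or.inl hz)
    rw [Nat.cast_succ, toZFSet_add_one, ← this]
    exact hyw

theorem tma_mem_omega {z : ZFSet.{0}} : z ∈ (ω : On).toZFSet ↔ ∃ n : ℕ, (n : On).toZFSet = z := by
  rw [mem_toZFSet_iff]
  constructor
  · rintro ⟨a, ha, rfl⟩
    obtain ⟨n, rfl⟩ := lt_omega0.1 ha
    exact ⟨n, rfl⟩
  · rintro ⟨n, rfl⟩
    exact ⟨n, natCast_lt_omega0 n, rfl⟩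

theorem tma_upair_self (x : ZFSet.{0}) : ({x, x} : ZFSet.{0}) = {x} := by
  ext z
  simp

/-- Zero or a successor. -/
def tmaS (a : ZFSet.{0}) : Prop := a = ∅ ∨ ∃ b, b ∈ a ∧ ∀ c, c ∈ a → c ∈ b ∨ c = b

theorem tmaS_nat (n : ℕ) : tmaS (n : On).toZFSet := by
  cases n with
  | zero => exact Or.inl (by simp)
  | succ n =>
    refine Or.inr ⟨(n : On).toZFSet, ?_, fun c hc => ?_⟩
    · rw [Nat.cast_succ, toZFSet_add_one]
      exact ZFSet.mem_insert _ _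
    · rw [Nat.cast_succ, toZFSet_add_one, ZFSet.mem_insert_iff] at hc
      exact hc.symm

theorem tmaS_omega : ¬ tmaS (ω : On).toZFSet := by
  rintro (h | ⟨b, hb, h⟩)
  · have : (0 : On).toZFSet ∈ (ω : On).toZFSet := toZFSet_mem_toZFSet_iff.2 omega0_pos
    rw [h] at this
    exact ZFSet.notMem_empty _ this
  · obtain ⟨n, rfl⟩ := tma_mem_omega.1 hb
    rcases h _ (tma_mem_omega.2 ⟨n + 1, rfl⟩) with h1 | h1
    · have := toZFSet_mem_toZFSet_iff.1 h1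
      have h2 : n + 1 < n := by exact_mod_cast this
      omega
    · have := toZFSet_injective h1
      have h2 : n + 1 = n := by exact_mod_cast this
      omega

theorem tma_omega_iff {z : ZFSet.{0}} :
    z ∈ (ω : On).toZFSet ↔ z.IsOrdinal ∧ tmaS z ∧ ∀ a, a ∈ z → tmaS a := by
  constructor
  · intro hz
    obtain ⟨n, rfl⟩ := tma_mem_omega.1 hz
    refine ⟨ZFSet.isOrdinal_toZFSet _, tmaS_nat n, fun a ha => ?_⟩
    obtain ⟨m, rfl⟩ := tma_mem_omega.1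
      ((ZFSet.isOrdinal_toZFSet ω).isTransitive.subset_of_mem hz ha)
    exact tmaS_nat m
  · rintro ⟨h1, h2, h3⟩
    rw [← h1.toZFSet_rank_eq] at h2 h3 ⊢
    rw [toZFSet_mem_toZFSet_iff]
    by_contra hc
    rcases (not_lt.1 hc).eq_or_lt with h | h
    · rw [← h] at h2
      exact tmaS_omega h2
    · exact tmaS_omega (h3 _ (toZFSet_mem_toZFSet_iff.2 h))

namespace TM

variable {M : Set ZFSet.{0}} {x y : ZFSet.{0}}

/-- Hint: `fml_bind`, `fml_ren` and `sat_sub`. -/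
theorem sep (h : TM M) (P : Set ZFSet.{0} → (ℕ → ZFSet.{0}) → Prop) [ZD false P]
    {v : ℕ → ZFSet.{0}} (hv : ∀ i, v i ∈ M) (hx : x ∈ M) :
    ∃ y ∈ M, ∀ z, z ∈ y ↔ z ∈ x ∧ P M (sc z v) := by
  obtain ⟨φ, -, hφ⟩ := ZD.ex (b := false) (P := P)
  obtain ⟨y, hy⟩ := h.zfc.sep φ (sc ⟨x, hx⟩ fun i => ⟨v i, hv i⟩) ⟨x, hx⟩
  have key : ∀ z : M, Lib.Forcing.Sat (EM M) φ
      (Function.update (sc (⟨x, hx⟩ : M) fun i => (⟨v i, hv i⟩ : M)) 0 z) ↔ P M (sc z.1 v) := by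
    intro z
    rw [sat_sub, ← hφ M _ h.tr (sc_mem z.2 hv)]
    have e : (fun i => (Function.update (sc (⟨x, hx⟩ : M) fun i => (⟨v i, hv i⟩ : M)) 0 z i).1) =
        sc z.1 v := by
      funext i
      cases i with
      | zero => simp
      | succ i => simp
    rw [e]
  refine ⟨y.1, y.2, fun z => ⟨fun hz => ?_, fun hz => ?_⟩⟩
  · have h1 := (hy ⟨z, h.tr _ y.2 _ hz⟩).1 hz
    exact ⟨h1.1, (key _).1 h1.2⟩
  · exact (hy ⟨z, h.tr _ hx _ hz.1⟩).2 ⟨hz.1, (key ⟨z, h.tr _ hx _ hz.1⟩).2 hz.2⟩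

theorem upair_mem (h : TM M) (hx : x ∈ M) (hy : y ∈ M) : ({x, y} : ZFSet.{0}) ∈ M := by
  obtain ⟨p, hp⟩ := h.zfc.pair ⟨x, hx⟩ ⟨y, hy⟩
  have e : p.1 = {x, y} := by
    ext z
    rw [ZFSet.mem_pair]
    constructor
    · intro hz
      exact ((hp ⟨z, h.tr _ p.2 _ hz⟩).1 hz).imp (congrArg Subtype.val) (congrArg Subtype.val)
    · rintro (rfl | rfl)
      · exact (hp ⟨z, hx⟩).2 (Or.inl rfl)
      · exact (hp ⟨z, hy⟩).2 (Or.inr rfl)
  rw [← e]
  exact p.2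

theorem pair_mem (h : TM M) (hx : x ∈ M) (hy : y ∈ M) : ZFSet.pair x y ∈ M := by
  have h1 := h.upair_mem hx hx
  rw [tma_upair_self] at h1
  exact h.upair_mem h1 (h.upair_mem hx hy)

theorem insert_mem (h : TM M) (hx : x ∈ M) (hy : y ∈ M) : insert x y ∈ M := by
  have h1 := h.upair_mem hx hx
  rw [tma_upair_self] at h1
  obtain ⟨u, hu⟩ := h.zfc.union ⟨_, h.upair_mem h1 hy⟩
  have e : u.1 = insert x y := by
    ext z
    rw [ZFSet.mem_insert_iff]
    constructor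
    · intro hz
      obtain ⟨a, ha, hza⟩ := (hu ⟨z, h.tr _ u.2 _ hz⟩).1 hz
      have hza' : z ∈ a.1 := hza
      rcases ZFSet.mem_pair.1 ha with h2 | h2
      · rw [h2] at hza'
        exact Or.inl (ZFSet.mem_singleton.1 hza')
      · rw [h2] at hza'
        exact Or.inr hza'
    · rintro (rfl | hz)
      · exact (hu ⟨z, hx⟩).2 ⟨⟨_, h1⟩, ZFSet.mem_pair.2 (Or.inl rfl), ZFSet.mem_singleton.2 rfl⟩
      · exact (hu ⟨z, h.tr _ hy _ hz⟩).2 ⟨⟨_, hy⟩, ZFSet.mem_pair.2 (Or.inr rfl), hz⟩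
  rw [← e]
  exact u.2

theorem inter_mem (h : TM M) (hx : x ∈ M) (hy : y ∈ M) : x ∩ y ∈ M := by
  obtain ⟨u, hu, h1⟩ := h.sep (fun _ v => v 0 ∈ v 1) (v := fun _ => y) (fun _ => hy) hx
  have e : u = x ∩ y := by
    ext z
    rw [ZFSet.mem_inter, h1]
    rfl
  rwa [← e]

theorem empty_mem (h : TM M) : (∅ : ZFSet.{0}) ∈ M := by
  obtain ⟨w, hw⟩ := h.zfc.inf
  have h1 := tma_ind h.tr hw 0
  rw [Nat.cast_zero, toZFSet_zero] at h1
  exact h.tr _ w.2 _ h1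

theorem omega_mem (h : TM M) : (ω : On).toZFSet ∈ M := by
  obtain ⟨w, hw⟩ := h.zfc.inf
  obtain ⟨u, hu, h1⟩ := h.sep (fun _ v => (v 0).IsOrdinal ∧
      (v 0 = ∅ ∨ ∃ b, b ∈ v 0 ∧ ∀ c, c ∈ v 0 → c ∈ b ∨ c = b) ∧
      ∀ a, a ∈ v 0 → (a = ∅ ∨ ∃ b, b ∈ a ∧ ∀ c, c ∈ a → c ∈ b ∨ c = b))
    (v := fun _ => w.1) (fun _ => w.2) w.2
  have e : u = (ω : On).toZFSet := by
    ext z
    rw [h1]
    constructor
    · exact fun hz => tma_omega_iff.2 hz.2
    · intro hz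
      refine ⟨?_, tma_omega_iff.1 hz⟩
      obtain ⟨n, rfl⟩ := tma_mem_omega.1 hz
      exact tma_ind h.tr hw n
  rwa [← e]

end TM

/-- `t` is a transitive set that includes `z` and `f` is an injection of `t` into `ω`. -/
def Wit (z t f : ZFSet.{0}) : Prop :=
  (∀ y ∈ t, ∀ x ∈ y, x ∈ t) ∧ (∀ x ∈ z, x ∈ t) ∧
    (∀ x ∈ t, ∃ n ∈ (ω : On).toZFSet, ZFSet.pair x n ∈ f) ∧
    ∀ x x' y y', ZFSet.pair x y ∈ f → ZFSet.pair x' y' ∈ f → (x = x' ↔ y = y')

/-- The sets that are hereditarily countable in `M`. -/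
def HH (M : Set ZFSet.{0}) : Set ZFSet.{0} := {z | z ∈ M ∧ ∃ t ∈ M, ∃ f ∈ M, Wit z t f}

theorem tr_HH {M : Set ZFSet.{0}} (h : Tr M) : Tr (HH M) := by
  rintro z ⟨hz, t, ht, f, hf, h1, h2, h3⟩ y hy
  exact ⟨h _ hz _ hy, t, ht, f, hf, h1, h1 y (h2 y hy), h3⟩

theorem HH_subset {M : Set ZFSet.{0}} {y z : ZFSet.{0}} (hy : y ∈ M) (hz : z ∈ HH M)
    (h : y ⊆ z) : y ∈ HH M := by
  obtain ⟨-, t, ht, f, hf, h1, h2, h3⟩ := hz
  exact ⟨hy, t, ht, f, hf, h1, fun x hx => h2 x (h hx), h3⟩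

theorem tma_ind_omega {M : Set ZFSet.{0}} (h : Tr M) (ho : (ω : On).toZFSet ∈ M) :
    Ind (EM M) ⟨_, ho⟩ := by
  constructor
  · have h0 : (∅ : ZFSet.{0}) ∈ (ω : On).toZFSet := tma_mem_omega.2 ⟨0, by simp⟩
    exact ⟨⟨∅, h _ ho _ h0⟩, fun z hz => ZFSet.notMem_empty _ hz, h0⟩
  · rintro ⟨x, hxM⟩ hx
    obtain ⟨n, rfl⟩ := tma_mem_omega.1 hx
    have h1 : ((n + 1 : ℕ) : On).toZFSet ∈ (ω : On).toZFSet := tma_mem_omega.2 ⟨n + 1, rfl⟩
    refine ⟨⟨_, h _ ho _ h1⟩, fun z => ?_, h1⟩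
    change z.1 ∈ ((n + 1 : ℕ) : On).toZFSet ↔ z.1 ∈ (n : On).toZFSet ∨ _
    rw [Nat.cast_succ, toZFSet_add_one, ZFSet.mem_insert_iff, or_comm, Subtype.ext_iff]

theorem tma_om {M : Set ZFSet.{0}} (h : Tr M) (ho : (ω : On).toZFSet ∈ M) (w : M) :
    Om (EM M) w ↔ w.1 = (ω : On).toZFSet := by
  constructor
  · rintro ⟨h1, h2⟩
    ext z
    constructor
    · exact fun hz => h2 _ (tma_ind_omega h ho) ⟨z, h _ w.2 _ hz⟩ hz
    · intro hz
      obtain ⟨n, rfl⟩ := tma_mem_omega.1 hz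
      exact tma_ind h h1 n
  · intro e
    obtain ⟨w, hw⟩ := w
    obtain rfl : w = (ω : On).toZFSet := e
    refine ⟨tma_ind_omega h hw, ?_⟩
    rintro v hv ⟨x, hxM⟩ hx
    obtain ⟨n, rfl⟩ := tma_mem_omega.1 hx
    exact tma_ind h hv n

theorem tma_up {M : Set ZFSet.{0}} (h : Tr M) (x y z : M) :
    (∀ t, EM M t z ↔ t = x ∨ t = y) ↔ z.1 = {x.1, y.1} := by
  constructor
  · intro hz
    ext t
    rw [ZFSet.mem_pair]
    constructor
    · intro ht
      exact ((hz ⟨t, h _ z.2 _ ht⟩).1 ht).imp (congrArg Subtype.val) (congrArg Subtype.val)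
    · rintro (rfl | rfl)
      · exact (hz x).2 (Or.inl rfl)
      · exact (hz y).2 (Or.inr rfl)
  · intro e t
    rw [EM, e, ZFSet.mem_pair, Subtype.ext_iff, Subtype.ext_iff]

theorem tma_sing {M : Set ZFSet.{0}} (h : Tr M) (x z : M) :
    (∀ t, EM M t z ↔ t = x) ↔ z.1 = {x.1} := by
  rw [← tma_upair_self, ← tma_up h]
  simp only [or_self]

theorem tma_pr {M : Set ZFSet.{0}} (h : Tr M)
    (hp : ∀ x ∈ M, ∀ y ∈ M, ({x, y} : ZFSet.{0}) ∈ M) (x y p : M) :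
    Pr (EM M) x y p ↔ p.1 = ZFSet.pair x.1 y.1 := by
  have h1 := hp _ x.2 _ x.2
  rw [tma_upair_self] at h1
  have h2 := tma_up h ⟨_, h1⟩ ⟨_, hp _ x.2 _ y.2⟩ p
  simp only [Pr, tma_up h, tma_sing h]
  simp only [Subtype.ext_iff] at h2
  exact h2

theorem tma_ap {M : Set ZFSet.{0}} (h : Tr M)
    (hp : ∀ x ∈ M, ∀ y ∈ M, ({x, y} : ZFSet.{0}) ∈ M) (f x y : M) :
    Ap (EM M) f x y ↔ ZFSet.pair x.1 y.1 ∈ f.1 := by
  constructor
  · rintro ⟨p, h1, h2⟩
    rw [← (tma_pr h hp x y p).1 h1]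
    exact h2
  · intro h1
    exact ⟨⟨_, h _ f.2 _ h1⟩, (tma_pr h hp x y _).2 rfl, h1⟩

theorem tma_pair_mem {M : Set ZFSet.{0}} (h : Tr M) {x y : ZFSet.{0}}
    (hp : ZFSet.pair x y ∈ M) : x ∈ M ∧ y ∈ M := by
  have h1 : ({x, y} : ZFSet.{0}) ∈ M := h _ hp _ (ZFSet.mem_pair.2 (Or.inr rfl))
  exact ⟨h _ h1 _ (ZFSet.mem_pair.2 (Or.inl rfl)), h _ h1 _ (ZFSet.mem_pair.2 (Or.inr rfl))⟩

/-- Absoluteness for transitive classes that are closed under pairs and contain `ω`. -/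
theorem hc_EM {M : Set ZFSet.{0}} (h : Tr M)
    (hp : ∀ x ∈ M, ∀ y ∈ M, ({x, y} : ZFSet.{0}) ∈ M) (ho : (ω : On).toZFSet ∈ M) (z : M) :
    HC (EM M) z ↔ z.1 ∈ HH M := by
  constructor
  · rintro ⟨t, h1, h2, w, hw, f, h3, h4⟩
    have e := (tma_om h ho w).1 hw
    refine ⟨z.2, t.1, t.2, f.1, f.2, fun y hy x hx => ?_, fun x hx => ?_, fun x hx => ?_,
      fun x x' y y' ha hb => ?_⟩
    · exact h1 ⟨y, h _ t.2 _ hy⟩ hy ⟨x, h _ (h _ t.2 _ hy) _ hx⟩ hx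
    · exact h2 ⟨x, h _ z.2 _ hx⟩ hx
    · obtain ⟨n, hn, hn2⟩ := h3 ⟨x, h _ t.2 _ hx⟩ hx
      exact ⟨n.1, e ▸ hn, (tma_ap h hp _ _ _).1 hn2⟩
    · have ma := tma_pair_mem h (h _ f.2 _ ha)
      have mb := tma_pair_mem h (h _ f.2 _ hb)
      have := h4 ⟨x, ma.1⟩ ⟨x', mb.1⟩ ⟨y, ma.2⟩ ⟨y', mb.2⟩ ((tma_ap h hp _ _ _).2 ha)
        ((tma_ap h hp _ _ _).2 hb)
      simpa only [Subtype.ext_iff] using this
  · rintro ⟨-, t, ht, f, hf, h1, h2, h3, h4⟩
    refine ⟨⟨t, ht⟩, fun y hy x hx => h1 y.1 hy x.1 hx, fun x hx => h2 x.1 hx, ⟨_, ho⟩,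
      (tma_om h ho _).2 rfl, ⟨f, hf⟩, fun x hx => ?_, fun x x' y y' ha hb => ?_⟩
    · obtain ⟨n, hn, hn2⟩ := h3 x.1 hx
      exact ⟨⟨n, h _ ho _ hn⟩, hn, (tma_ap h hp _ _ _).2 hn2⟩
    · have := h4 _ _ _ _ ((tma_ap h hp _ _ _).1 ha) ((tma_ap h hp _ _ _).1 hb)
      simpa only [Subtype.ext_iff] using this

/-- Hint: `hc_EM` for `univ` and `FO.transfer`. -/
theorem hc_univ (z : ZFSet.{0}) : HC Mem z ↔ z ∈ HH univ := by
  have h1 := hc_EM (M := univ) (fun _ _ _ _ => mem_univ _) (fun _ _ _ _ => mem_univ _)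
    (mem_univ _) ⟨z, mem_univ _⟩
  have h2 := FO.transfer (fun _ E v => HC E (v 0)) (E := EM univ) (E' := Mem) (j := Subtype.val)
    (fun φ v => by rw [sat_sub, sat_satIn]; rfl) (fun _ => ⟨z, mem_univ _⟩)
  exact h2.symm.trans h1

theorem tmb_cIio {c : On} : (Iio c).Countable ↔ c < omega 1 := by
  rw [← Cardinal.le_aleph0_iff_set_countable, Cardinal.mk_Iio_ordinal, Cardinal.lift_le_aleph0,
    ← Cardinal.ord_aleph, Cardinal.lt_ord, ← Cardinal.succ_aleph0, Order.lt_succ_iff]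

theorem tmb_cOrd {c : On} : {y | y ∈ c.toZFSet}.Countable ↔ c < omega 1 := by
  have e : {y | y ∈ c.toZFSet} = Ordinal.toZFSet '' Iio c := Ordinal.coe_toZFSet
  rw [e, ← tmb_cIio]
  exact ⟨fun h => countable_of_injective_of_countable_image Ordinal.toZFSet_injective.injOn h,
    fun h => h.image _⟩

theorem tmb_omega_lt : (ω : On) < omega 1 := Ordinal.omega0_lt_omega_one

theorem tmb_set {S : Set ZFSet.{0}} (h : S.Countable) : ∃ z : ZFSet.{0}, ∀ x, x ∈ z ↔ x ∈ S := by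
  have := h.to_subtype
  exact ⟨ZFSet.range (Subtype.val : S → ZFSet.{0}), fun x => by simp⟩

theorem tmb_wit_count {z t f : ZFSet.{0}} (h : Wit z t f) : {x | x ∈ t}.Countable := by
  obtain ⟨-, -, h3, h4⟩ := h
  choose! g h5 h6 using h3
  refine MapsTo.countable_of_injOn (f := g) (t := {y | y ∈ (ω : On).toZFSet}) h5
    (fun x hx x' hx' e => ?_) (tmb_cOrd.2 tmb_omega_lt)
  exact (h4 x x' _ _ (h6 x hx) (h6 x' hx')).2 e

theorem tmb_fun {z t : ZFSet.{0}} (hc : {x | x ∈ t}.Countable) (h1 : ∀ y ∈ t, ∀ x ∈ y, x ∈ t)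
    (h2 : ∀ x ∈ z, x ∈ t) : ∃ f, Wit z t f ∧
      ∀ p ∈ f, ∃ x ∈ t, ∃ n ∈ (ω : On).toZFSet, p = ZFSet.pair x n := by
  obtain ⟨g, hg⟩ := countable_iff_exists_injOn.1 hc
  refine ⟨ZFSet.pairSep (fun a b => b = ((g a : ℕ) : On).toZFSet) t (ω : On).toZFSet,
    ⟨h1, h2, fun x hx => ?_, fun x x' y y' hp hp' => ?_⟩, fun p hp => ?_⟩
  · have h3 : ((g x : ℕ) : On).toZFSet ∈ (ω : On).toZFSet :=
      Ordinal.toZFSet_mem_toZFSet_iff.2 (Ordinal.natCast_lt_omega0 _)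
    exact ⟨_, h3, ZFSet.mem_pairSep.2 ⟨x, hx, _, h3, rfl, rfl⟩⟩
  · obtain ⟨a, ha, b, -, e, rfl⟩ := ZFSet.mem_pairSep.1 hp
    obtain ⟨a', ha', b', -, e', rfl⟩ := ZFSet.mem_pairSep.1 hp'
    obtain ⟨rfl, rfl⟩ := ZFSet.pair_inj.1 e
    obtain ⟨rfl, rfl⟩ := ZFSet.pair_inj.1 e'
    refine ⟨fun e1 => by rw [e1], fun e1 => hg ha ha' ?_⟩
    exact_mod_cast Ordinal.toZFSet_injective e1
  · obtain ⟨a, ha, b, hb, e, -⟩ := ZFSet.mem_pairSep.1 hp
    exact ⟨a, ha, b, hb, e⟩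

/-- A set is hereditarily countable iff it is included in a countable transitive class. -/
theorem tmb_iff {z : ZFSet.{0}} :
    z ∈ HH univ ↔ ∃ T : Set ZFSet.{0}, T.Countable ∧ Tr T ∧ ∀ x ∈ z, x ∈ T := by
  constructor
  · rintro ⟨-, t, -, f, -, h⟩
    exact ⟨{x | x ∈ t}, tmb_wit_count h, h.1, h.2.1⟩
  · rintro ⟨T, h1, h2, h3⟩
    obtain ⟨t, ht⟩ := tmb_set h1
    obtain ⟨f, hf, -⟩ := tmb_fun (z := z) (t := t) (h1.mono fun x hx => (ht x).1 hx)
      (fun y hy x hx => (ht x).2 (h2 y ((ht y).1 hy) x hx)) fun x hx => (ht x).2 (h3 x hx)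
    exact ⟨mem_univ _, t, mem_univ _, f, mem_univ _, hf⟩

theorem tmb_mem {x z : ZFSet.{0}} (h : z ∈ HH univ) (hx : x ∈ z) : x ∈ HH univ := by
  obtain ⟨T, h1, h2, h3⟩ := tmb_iff.1 h
  exact tmb_iff.2 ⟨T, h1, h2, h2 x (h3 x hx)⟩

theorem countable_of_HH {z : ZFSet.{0}} (h : z ∈ HH univ) : {y | y ∈ z}.Countable := by
  obtain ⟨T, h1, -, h3⟩ := tmb_iff.1 h
  exact h1.mono h3

theorem HH_of_countable {z : ZFSet.{0}} (h1 : {y | y ∈ z}.Countable)
    (h2 : ∀ y ∈ z, y ∈ HH univ) : z ∈ HH univ := by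
  choose! T a1 a2 a3 using fun y hy => tmb_iff.1 (h2 y hy)
  refine tmb_iff.2 ⟨{y | y ∈ z} ∪ ⋃ y ∈ {y | y ∈ z}, T y, h1.union (h1.biUnion a1), ?_,
    fun x hx => Or.inl hx⟩
  rintro x (hx | hx) w hw
  · exact Or.inr (mem_biUnion hx (a3 x hx w hw))
  · obtain ⟨y, hy, hxy⟩ := mem_iUnion₂.1 hx
    exact Or.inr (mem_biUnion hy (a2 y hy x hxy w hw))

theorem ord_mem_HH {ξ : On} : ξ.toZFSet ∈ HH univ ↔ ξ < omega 1 := by
  refine ⟨fun h => tmb_cOrd.1 (countable_of_HH h), fun h => tmb_iff.2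
    ⟨{y | y ∈ ξ.toZFSet}, tmb_cOrd.2 h, fun x hx y hy => ?_, fun x hx => hx⟩⟩
  exact (ZFSet.isOrdinal_toZFSet ξ).isTransitive.mem_trans hy hx

theorem tmb_upair {x y : ZFSet.{0}} (hx : x ∈ HH univ) (hy : y ∈ HH univ) :
    ({x, y} : ZFSet.{0}) ∈ HH univ := by
  refine HH_of_countable (((countable_singleton y).insert x).mono fun w hw => ?_) fun w hw => ?_
  · exact ZFSet.mem_pair.1 hw
  · rcases ZFSet.mem_pair.1 hw with rfl | rfl
    exacts [hx, hy]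

theorem pair_mem_HH {x y : ZFSet.{0}} (hx : x ∈ HH univ) (hy : y ∈ HH univ) :
    ZFSet.pair x y ∈ HH univ := by
  have h := tmb_upair (tmb_upair hx hx) (tmb_upair hx hy)
  rwa [ZFSet.pair_eq_singleton] at h

/-- The witnesses may be taken hereditarily countable. -/
theorem exists_wit {z : ZFSet.{0}} (h : z ∈ HH univ) :
    ∃ t ∈ HH univ, ∃ f ∈ HH univ, Wit z t f := by
  obtain ⟨-, t, -, f0, -, h0⟩ := h
  have hc := tmb_wit_count h0
  have ht : t ∈ HH univ := tmb_iff.2 ⟨{x | x ∈ t}, hc, h0.1, fun x hx => hx⟩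
  obtain ⟨f, hf, hp⟩ := tmb_fun hc h0.1 h0.2.1
  refine ⟨t, ht, f, HH_of_countable ?_ fun p hpf => ?_, hf⟩
  · refine (hc.image2 (tmb_cOrd.2 tmb_omega_lt) ZFSet.pair).mono fun p hpf => ?_
    obtain ⟨x, hx, n, hn, e⟩ := hp p hpf
    exact ⟨x, hx, n, hn, e.symm⟩
  · obtain ⟨x, hx, n, hn, rfl⟩ := hp p hpf
    exact pair_mem_HH (tmb_mem ht hx) (tmb_mem (ord_mem_HH.2 tmb_omega_lt) hn)

theorem tmb_encZ : ∀ l : List ZFSet.{0}, (∀ a ∈ l, a ∈ HH univ) → encZ l ∈ HH univ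
  | [], _ => HH_of_countable (countable_empty.mono fun w hw => absurd hw (ZFSet.notMem_empty w))
      fun w hw => absurd hw (ZFSet.notMem_empty w)
  | [a], h => h a (List.mem_singleton_self a)
  | a :: b :: q, h => pair_mem_HH (h a List.mem_cons_self)
      (tmb_encZ (b :: q) fun c hc => h c (List.mem_cons_of_mem a hc))

theorem exists_enc_HH (S : Set (List On)) {L : On} (hL : L < omega 1)
    (h : ∀ q ∈ S, q ≠ [] ∧ ∀ a ∈ q, a < L) : ∃ r ∈ HH univ, dec r = S := by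
  obtain ⟨r, h1, h2⟩ := exists_enc S L h
  have := (tmb_cIio.2 hL).to_subtype
  have hS : S.Countable := by
    refine (countable_range (List.map (Subtype.val : Iio L → On))).mono fun q hq => ?_
    exact ⟨q.attachWith (· ∈ Iio L) (h q hq).2, List.attachWith_map_subtype_val _⟩
  refine ⟨r, HH_of_countable ((hS.image enc).mono fun z hz => ?_) fun z hz => ?_, h1⟩
  · obtain ⟨q, hq, e⟩ := h2 z hz
    exact ⟨q, hq, e.symm⟩
  · obtain ⟨q, hq, rfl⟩ := h2 z hz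
    refine tmb_encZ _ fun a ha => ?_
    obtain ⟨b, hb, rfl⟩ := List.mem_map.1 ha
    exact ord_mem_HH.2 (((h q hq).2 b hb).trans hL)

theorem zf_mem_HH (B : Set On) {L : On} (hL : L < omega 1) : zf B L ∈ HH univ := by
  obtain ⟨T, h1, h2, h3⟩ := tmb_iff.1 (ord_mem_HH.2 hL)
  exact tmb_iff.2 ⟨T, h1, h2, fun x hx => h3 x (zf_subset B L hx)⟩

theorem ods_bdd {r : ZFSet.{0}} (h : r ∈ HH univ) : ∃ g < omega 1, ods r ⊆ Iio g := by
  have hc : (insert 0 (ods r)).Countable :=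
    ((countable_of_HH h).preimage Ordinal.toZFSet_injective).insert 0
  obtain ⟨x, hx⟩ := hc.exists_eq_range (insert_nonempty _ _)
  have hu := uc_ord Cardinal.isRegular_aleph_one Cardinal.aleph0_lt_aleph_one
  rw [Cardinal.ord_aleph] at hu
  obtain ⟨g, hg, hg'⟩ := hu.2 x fun n => by
    have hn : x n ∈ insert 0 (ods r) := hx ▸ mem_range_self n
    rcases hn with e | hn
    · rw [e]
      exact Ordinal.omega_pos 1
    · exact ord_mem_HH.1 (tmb_mem h hn)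
  refine ⟨g, hg, fun a ha => ?_⟩
  have hn : a ∈ range x := hx ▸ mem_insert_of_mem 0 ha
  obtain ⟨n, rfl⟩ := hn
  exact hg' n

/-- Stationary sets. -/
def Stn (Λ S : Set On) : Prop := ∀ C, Clb Λ C → ∃ δ ∈ S, δ ∈ C

theorem club_iff {α : On} {C : ZFSet.{0}} :
    Club Mem α.toZFSet C ↔ C ⊆ α.toZFSet ∧ Clb (Iio α) (ods C) := by
  constructor
  · rintro ⟨h1, h2, h3⟩
    refine ⟨fun x hx => h1 x hx, fun a ha => Ordinal.toZFSet_mem_toZFSet_iff.1 (h1 _ ha),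
      fun a ha => ?_, fun γ hγ h0 hl => ?_⟩
    · obtain ⟨x, hx, hax⟩ := h2 a.toZFSet (Ordinal.toZFSet_mem_toZFSet_iff.2 ha)
      obtain ⟨b, -, rfl⟩ := Ordinal.mem_toZFSet_iff.1 (h1 x hx)
      exact ⟨b, hx, Ordinal.toZFSet_mem_toZFSet_iff.1 hax⟩
    · refine h3 γ.toZFSet (Ordinal.toZFSet_mem_toZFSet_iff.2 hγ)
        ⟨_, Ordinal.toZFSet_mem_toZFSet_iff.2 h0⟩ fun b hb => ?_
      obtain ⟨c, hc, rfl⟩ := Ordinal.mem_toZFSet_iff.1 hb
      obtain ⟨y, hy, h4, h5⟩ := hl c hc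
      exact ⟨y.toZFSet, hy, Ordinal.toZFSet_mem_toZFSet_iff.2 h4,
        Ordinal.toZFSet_mem_toZFSet_iff.2 h5⟩
  · rintro ⟨h1, h2⟩
    refine ⟨fun x hx => h1 hx, fun b hb => ?_, fun g hg h0 hl => ?_⟩
    · obtain ⟨c, hc, rfl⟩ := Ordinal.mem_toZFSet_iff.1 hb
      obtain ⟨y, hy, h4⟩ := h2.unb c hc
      exact ⟨y.toZFSet, hy, Ordinal.toZFSet_mem_toZFSet_iff.2 h4⟩
    · obtain ⟨γ, hγ, rfl⟩ := Ordinal.mem_toZFSet_iff.1 hg
      obtain ⟨b, hb⟩ := h0
      obtain ⟨c, hc, rfl⟩ := Ordinal.mem_toZFSet_iff.1 hb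
      refine h2.cls γ hγ (zero_le.trans_lt hc) fun a ha => ?_
      obtain ⟨x, hx, h4, h5⟩ := hl a.toZFSet (Ordinal.toZFSet_mem_toZFSet_iff.2 ha)
      obtain ⟨y, hy, rfl⟩ := Ordinal.mem_toZFSet_iff.1 h5
      exact ⟨y, hx, Ordinal.toZFSet_mem_toZFSet_iff.1 h4, hy⟩

theorem stat_iff {α : On} {S : ZFSet.{0}} :
    Stat Mem α.toZFSet S ↔ S ⊆ α.toZFSet ∧ Stn (Iio α) (ods S) := by
  constructor
  · rintro ⟨h1, h2⟩
    refine ⟨fun x hx => h1 x hx, fun C hC => ?_⟩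
    have e : ods (zf C α) = C := by rw [ods_zf, inter_eq_left.2 hC.sub]
    obtain ⟨x, hx, hxC⟩ := h2 (zf C α) (club_iff.2 ⟨zf_subset C α, e.symm ▸ hC⟩)
    obtain ⟨a, -, ha, rfl⟩ := mem_zf.1 hxC
    exact ⟨a, hx, ha⟩
  · rintro ⟨h1, h2⟩
    refine ⟨fun x hx => h1 hx, fun C hC => ?_⟩
    obtain ⟨δ, h3, h4⟩ := h2 _ (club_iff.1 hC).2
    exact ⟨δ.toZFSet, h3, h4⟩

theorem club_EM {M : Set ZFSet.{0}} (h : Tr M) (w C : M) :
    Club (EM M) w C ↔ Club Mem w.1 C.1 := by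
  constructor
  · rintro ⟨h1, h2, h3⟩
    refine ⟨fun x hx => h1 ⟨x, h _ C.2 x hx⟩ hx, fun b hb => ?_, fun g hg h0 hl => ?_⟩
    · obtain ⟨x, hx, hbx⟩ := h2 ⟨b, h _ w.2 b hb⟩ hb
      exact ⟨x.1, hx, hbx⟩
    · have hgM := h _ w.2 g hg
      obtain ⟨b, hb⟩ := h0
      refine h3 ⟨g, hgM⟩ hg ⟨⟨b, h _ hgM b hb⟩, hb⟩ fun c hc => ?_
      obtain ⟨x, hx, h4, h5⟩ := hl c.1 hc
      exact ⟨⟨x, h _ C.2 x hx⟩, hx, h4, h5⟩
  · rintro ⟨h1, h2, h3⟩
    refine ⟨fun x hx => h1 x.1 hx, fun b hb => ?_, fun g hg h0 hl => ?_⟩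
    · obtain ⟨x, hx, hbx⟩ := h2 b.1 hb
      exact ⟨⟨x, h _ C.2 x hx⟩, hx, hbx⟩
    · obtain ⟨b, hb⟩ := h0
      refine h3 g.1 hg ⟨b.1, hb⟩ fun c hc => ?_
      obtain ⟨x, hx, h4, h5⟩ := hl ⟨c, h _ g.2 c hc⟩ hc
      exact ⟨x.1, hx, h4, h5⟩

theorem Clb.stn {Λ C : Set On} (h : UC Λ) (h0 : Λ.Nonempty) (hC : Clb Λ C) : Stn Λ C := by
  intro D hD
  obtain ⟨x, hx⟩ := h0
  obtain ⟨y, hy, -⟩ := (hC.inter h hD).unb x hx
  exact ⟨y, hy.1, hy.2⟩

theorem Stn.inter {Λ S C : Set On} (h : UC Λ) (hS : Stn Λ S) (hC : Clb Λ C) :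
    Stn Λ (S ∩ C) := by
  intro D hD
  obtain ⟨y, h1, h2⟩ := hS _ (hC.inter h hD)
  exact ⟨y, ⟨h1, h2.1⟩, h2.2⟩

theorem uc_omega1 : UC (Iio (omega 1)) := by
  rw [← Cardinal.ord_aleph]
  exact uc_ord Cardinal.isRegular_aleph_one Cardinal.aleph0_lt_aleph_one

theorem nice_omega1 : Nice (Iio (omega 1)) := by
  rw [← Cardinal.ord_aleph]
  exact nice_ord Cardinal.aleph0_lt_aleph_one

theorem nn_lt_omega1 {c : On} (h : c < omega 1) : nn c < omega 1 := by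
  rw [← Cardinal.ord_aleph, Cardinal.lt_ord] at h ⊢
  exact (nn_spec c).2.2.trans_lt (max_lt h Cardinal.aleph0_lt_aleph_one)

theorem countable_Iio {c : On} : (Iio c).Countable ↔ c < omega 1 := by
  rw [← Cardinal.le_aleph0_iff_set_countable, Cardinal.mk_Iio_ordinal, Cardinal.lift_le_aleph0,
    ← Cardinal.ord_aleph, Cardinal.lt_ord, ← Cardinal.succ_aleph0, Order.lt_succ_iff]

theorem clb_limit : Clb (Iio (omega 1)) {δ | δ < omega 1 ∧ Order.IsSuccLimit δ} := by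
  refine ⟨fun d hd => hd.1, fun x hx => ⟨nn x, ⟨nn_lt_omega1 hx, (nn_spec x).1.isSuccLimit⟩,
    (nn_spec x).2.1⟩, fun γ hγ h0 hl => ⟨hγ, not_isMin_of_lt h0, ?_⟩⟩
  refine Order.isSuccPrelimit_of_succ_lt fun a k => ?_
  obtain ⟨y, -, a1, a2⟩ := hl a k
  exact (Order.succ_le_of_lt a1).trans_lt a2

theorem tmc_clb (G : On → On) (hG : ∀ c < omega 1, G c < omega 1) :
    Clb (Iio (omega 1)) {δ | δ < omega 1 ∧ 0 < δ ∧ ∀ c < δ, G c < δ} := by
  refine ⟨fun d hd => hd.1, fun x hx => ?_, fun γ hγ h0 hl => ⟨hγ, h0, fun c hc => ?_⟩⟩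
  · have h := clb_closure Cardinal.isRegular_aleph_one Cardinal.aleph0_lt_aleph_one
      (fun q => match q with
        | [] => 0
        | c :: _ => G c) (fun q hq => by
        rw [Cardinal.ord_aleph] at hq ⊢
        cases q with
        | nil => exact nice_omega1.zero_mem
        | cons c q => exact hG c (hq c List.mem_cons_self))
    rw [Cardinal.ord_aleph] at h
    obtain ⟨y, h1, h2⟩ := h.unb x hx
    exact ⟨y, ⟨h1.1, h1.2.1, fun c hc => h1.2.2 [c] fun a ha => List.mem_singleton.1 ha ▸ hc⟩, h2⟩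
  · obtain ⟨y, a1, a2, a3⟩ := hl c hc
    exact (a1.2.2 c a2).trans a3

/-- Closure points of `nn`. -/
theorem clb_nn : Clb (Iio (omega 1)) {δ | δ < omega 1 ∧ 0 < δ ∧ ∀ c < δ, nn c < δ} := by
  exact tmc_clb nn fun _ => nn_lt_omega1

theorem tmc_chain {X β : Type*} [LinearOrder β] (p : β → Prop) {b : β} (hb : p b)
    {t : β → Set X} (ht : Monotone t) (l : List X) (hl : ∀ a ∈ l, ∃ i, p i ∧ a ∈ t i) :
    ∃ i, p i ∧ ∀ a ∈ l, a ∈ t i := by
  induction l with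
  | nil => exact ⟨b, hb, fun _ m => absurd m List.not_mem_nil⟩
  | cons x l ih =>
    obtain ⟨i, h1, h2⟩ := ih fun a ha => hl a (List.mem_cons_of_mem _ ha)
    obtain ⟨j, h3, h4⟩ := hl x List.mem_cons_self
    refine ⟨max i j, by rcases max_choice i j with e | e <;> rwa [e], fun a ha => ?_⟩
    rcases List.mem_cons.1 ha with rfl | ha
    exacts [ht (le_max_right _ _) h4, ht (le_max_left _ _) (h2 a ha)]

theorem tmc_hull {X : Type*} (F : List X → Set X) (hF : ∀ l, (F l).Countable) {s : Set X}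
    (hs : s.Countable) : ∃ t, s ⊆ t ∧ t.Countable ∧ ∀ l, (∀ a ∈ l, a ∈ t) → F l ⊆ t := by
  let g : Set X → Set X := fun u => u ∪ ⋃ l : List u, F (l.map Subtype.val)
  have h1 : ∀ n, (g^[n] s).Countable := fun n => by
    induction n with
    | zero => exact hs
    | succ n ih =>
      rw [Function.iterate_succ_apply']
      have := ih.to_subtype
      exact ih.union (countable_iUnion fun _ => hF _)
  have h2 : Monotone fun n => g^[n] s := monotone_nat_of_le_succ fun n => by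
    rw [Function.iterate_succ_apply']
    exact subset_union_left
  refine ⟨⋃ n, g^[n] s, subset_iUnion (fun n => g^[n] s) 0, countable_iUnion h1, fun l hl => ?_⟩
  obtain ⟨n, -, hn⟩ := tmc_chain (fun _ : ℕ => True) (b := 0) trivial h2 l fun a ha =>
    (mem_iUnion.1 (hl a ha)).imp fun _ k => ⟨trivial, k⟩
  refine Subset.trans ?_ (subset_iUnion (fun n => g^[n] s) (n + 1))
  rw [Function.iterate_succ_apply']
  obtain ⟨q, rfl⟩ : ∃ q : List (g^[n] s : Set X), q.map Subtype.val = l := CanLift.prf l hn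
  exact (subset_iUnion (fun q : List (g^[n] s : Set X) => F (q.map Subtype.val)) q).trans
    subset_union_right

/-- Countable sets that are closed under a finitary operation and meet `ω₁` in a given stationary
set. -/
theorem exists_N {X : Type 1} (F : List X → Set X) (hF : ∀ l, (F l).Countable) (ι : On → X)
    (hι : Function.Injective ι) {St : Set On} (hSt : Stn (Iio (omega 1)) St) :
    ∃ (N : Set X) (α : On), α ∈ St ∧ α < omega 1 ∧ 0 < α ∧ N.Countable ∧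
      (∀ l, (∀ a ∈ l, a ∈ N) → F l ⊆ N) ∧ ∀ ξ < omega 1, ι ξ ∈ N ↔ ξ < α := by
  let cl : On → Set X := fun c =>
    {x | ∀ t, ι '' Iic c ⊆ t → (∀ l, (∀ a ∈ l, a ∈ t) → F l ⊆ t) → x ∈ t}
  have h1 : Monotone cl := fun c d hcd x hx t a1 a2 =>
    hx t ((image_mono (Iic_subset_Iic.2 hcd)).trans a1) a2
  have h2 : ∀ c l, (∀ a ∈ l, a ∈ cl c) → F l ⊆ cl c := fun c l hl x hx t a1 a2 =>
    a2 l (fun a ha => hl a ha t a1 a2) hx
  have h3 : ∀ c < omega 1, (cl c).Countable := fun c hc => by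
    have a : (Iic c).Countable := by
      rw [← Order.Iio_succ]
      exact countable_Iio.2 (nice_omega1.succ_mem hc)
    obtain ⟨t, a1, a2, a3⟩ := tmc_hull F hF (a.image ι)
    exact a2.mono fun x hx => hx t a1 a3
  have h4 : ∀ c < omega 1, ∃ g < omega 1, ∀ ξ < omega 1, ι ξ ∈ cl c → ξ < g := fun c hc => by
    have a : (ι ⁻¹' cl c ∩ Iio (omega 1)).Countable :=
      ((h3 c hc).preimage hι).mono inter_subset_left
    obtain ⟨f, hf⟩ := a.exists_eq_range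
      ⟨c, fun t a1 _ => a1 (mem_image_of_mem ι (mem_Iic.2 le_rfl)), hc⟩
    obtain ⟨g, b1, b2⟩ := uc_omega1.2 f fun n => (hf.ge (mem_range_self n)).2
    refine ⟨g, b1, fun ξ c1 c2 => ?_⟩
    obtain ⟨n, rfl⟩ := hf.le ⟨c2, c1⟩
    exact b2 n
  choose! G g1 g2 using h4
  obtain ⟨α, a1, a2, a3, a4⟩ := hSt _ (tmc_clb G g1)
  refine ⟨⋃ c ∈ Iio α, cl c, α, a1, a2, a3,
    (countable_Iio.2 a2).biUnion fun c hc => h3 c (lt_trans hc a2), fun l hl => ?_,
    fun ξ hξ => ⟨fun k => ?_, fun k => ?_⟩⟩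
  · obtain ⟨c, b1, b2⟩ := tmc_chain (· < α) a3 h1 l fun a ha => by
      obtain ⟨c, b1, b2⟩ := mem_iUnion₂.1 (hl a ha)
      exact ⟨c, b1, b2⟩
    exact (h2 c l b2).trans (subset_biUnion_of_mem (u := cl) b1)
  · obtain ⟨c, b1, b2⟩ := mem_iUnion₂.1 k
    exact (g2 c (lt_trans b1 a2) ξ hξ b2).trans (a4 c b1)
  · exact mem_biUnion (t := cl) k fun t b1 _ => b1 (mem_image_of_mem ι (mem_Iic.2 le_rfl))

end Pool.Agent.MP_fd3eaf_lc

end

-- part MP_fd3eaf_lc.MN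
section

/-!
Definable natural numbers and sets, pairing, tables, and the recursion clauses of the machine as a
definable predicate.
-/

set_option autoImplicit false

namespace Pool.Agent.MP_fd3eaf_lc

open Set Ordinal

open Classical in
/-- The natural number that corresponds to a finite ordinal. -/
noncomputable def toN (x : On) : ℕ := if h : x < ω then (lt_omega0.1 h).choose else 0

@[simp] theorem toN_nat (n : ℕ) : toN n = n := by
  have h : (n : On) < ω := natCast_lt_omega0 n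
  rw [toN, dif_pos h]
  exact (Nat.cast_injective (lt_omega0.1 h).choose_spec).symm

theorem nat_toN {x : On} (h : x < ω) : (toN x : On) = x := by
  obtain ⟨n, rfl⟩ := lt_omega0.1 h
  rw [toN_nat]

theorem mk_eta {k : ℕ} (h : k ≠ 0) : mk (tg k) (oa k) (ob k) (oc k) = k := by
  simp only [mk, tg, oa, ob, oc, if_neg h, Nat.pair_unpair]
  omega

theorem mk_ne_zero (t a b c : ℕ) : mk t a b c ≠ 0 := Nat.succ_ne_zero _

/-- A definable predicate only depends on the oracle inside `Λ`. -/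
theorem MD.or_congr (P : Set On → Set On → (ℕ → On) → Prop) [MD P] {A B Λ : Set On} {v : ℕ → On}
    (hΛ : Nice Λ) (hv : ∀ i, v i ∈ Λ) (h : ∀ x ∈ Λ, x ∈ A ↔ x ∈ B) : P A Λ v ↔ P B Λ v := by
  obtain ⟨k, hk⟩ := MD.ex (P := P)
  rw [← hk A Λ v hΛ hv, ← hk B Λ v hΛ hv]
  exact sat_congr hΛ.lower hv h

/-- Definable natural numbers. -/
class MN (n : Set On → Set On → (ℕ → On) → ℕ) : Prop where
  mt : MT fun A Λ v => (n A Λ v : On)

/-- Definable sets. -/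
class MS (B : Fam (Set On)) : Prop where
  df : MD fun A Λ v => v 0 ∈ B A Λ fun n => v (n + 1)

instance (priority := low) MT.ofMN (n : Set On → Set On → (ℕ → On) → ℕ) [h : MN n] :
    MT fun A Λ v => (n A Λ v : On) := h.mt

instance MT.ofNat (k : ℕ) [k.AtLeastTwo] : MT fun _ _ _ => (OfNat.ofNat k : On) := MT.nat k

section nat
variable (n m : Set On → Set On → (ℕ → On) → ℕ) [MN n] [MN m] (t : Fam On) [MT t]

instance (priority := low) MN.shift (g : ℕ → ℕ) : MN fun A Λ v => n A Λ fun i => v (g i) :=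
  ⟨MT.shift (fun A Λ v => (n A Λ v : On)) g⟩

instance (priority := low) MN.const (k : ℕ) : MN fun _ _ _ => k := ⟨MT.nat k⟩

instance MN.fml : MN fun A Λ v => fml (t A Λ v) := ⟨MT.fml t⟩

instance MN.toN : MN fun A Λ v => toN (t A Λ v) :=
  ⟨MT.congr (h := MT.ite (fun A Λ v => t A Λ v < ω) t (fun _ _ _ => 0) fun _ _ _ => Classical.dec _)
    fun _ _ _ _ _ => by
      split_ifs with h
      · exact (nat_toN h).symm
      · rw [MP_fd3eaf_lc.toN, dif_neg h, Nat.cast_zero]⟩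

theorem mna_fml (k : ℕ) : fml (code ⟨ω, k, 0, []⟩) = k :=
  fml_code (x := ⟨ω, k, 0, []⟩) isLev_omega ⟨zero_le, fun _ h => absurd h List.not_mem_nil⟩

theorem mna_code (k : Set On → Set On → (ℕ → On) → ℕ) [MN k] :
    MT fun A Λ v => code ⟨ω, k A Λ fun i => v (i + 1), 0, []⟩ :=
  MT.shift (h := MT.code (fun _ _ _ => ω) (fun _ _ _ => 0) k fun _ _ _ => []) _ (· + 1)

theorem mna_graph (k : Set On → Set On → (ℕ → On) → ℕ)
    (h : MD fun A Λ v => k A Λ (fun i => v (i + 1)) = fml (v 0)) : MN k := by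
  have : MD fun A Λ v => k A Λ (fun i => v (i + 1 + 1)) = fml (v 0) :=
    MD.rename (h := h) _ (up (· + 1))
  refine ⟨MT.of_graph _ (fun A Λ v x => ∃ y, y ∈ Λ ∧ (k A Λ v = fml y ∧ (fml y : On) = x))
    (fun _ _ _ hΛ _ => hΛ.nat_mem _) fun A Λ v hΛ _ x _ => ⟨?_, ?_⟩⟩
  · rintro ⟨y, -, h1, h2⟩
    rw [h1, h2]
  · rintro rfl
    exact ⟨_, hΛ.code_mem (x := ⟨ω, k A Λ v, 0, []⟩) hΛ.omega_mem, (mna_fml _).symm,
      congrArg _ (mna_fml _)⟩

/-- Hint: atom `13`; every natural number is `fml y` for `y = code ⟨ω, n, 0, []⟩ ∈ Λ`. -/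
instance MN.length : MN fun A Λ v => (par (t A Λ v)).length :=
  haveI : MD fun _ _ v => (par (v 0)).length = MP_fd3eaf_lc.fml (v 1) :=
    MD.congr (h := MD.atom 13 0 1 0 (by omega)) fun _ _ _ _ _ => by simp [Atom]
  mna_graph _ (MD.two (fun _ _ a b => (par a).length = MP_fd3eaf_lc.fml b)
    (fun A Λ v => t A Λ fun i => v (i + 1)) fun _ _ v => v 0)

instance MN.succ : MN fun A Λ v => n A Λ v + 1 :=
  ⟨MT.congr (h := MT.succ fun A Λ v => (n A Λ v : On)) fun _ _ _ _ _ => (Nat.cast_succ _).symm⟩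

/-- Hint: atom `14`. -/
instance MN.dc : MN fun A Λ v => dc (m A Λ v) (n A Λ v) :=
  haveI := mna_code n
  haveI := mna_code m
  haveI : MD fun _ _ v => MP_fd3eaf_lc.dc (MP_fd3eaf_lc.fml (v 2)) (MP_fd3eaf_lc.fml (v 0)) =
      MP_fd3eaf_lc.fml (v 1) :=
    MD.congr (h := MD.atom 14 0 1 2 (by omega)) fun _ _ _ _ _ => by simp [Atom]
  mna_graph _ (MD.congr (h := MD.three (fun _ _ x y z =>
      MP_fd3eaf_lc.dc (MP_fd3eaf_lc.fml z) (MP_fd3eaf_lc.fml x) = MP_fd3eaf_lc.fml y)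
    (fun A Λ v => code ⟨ω, n A Λ fun i => v (i + 1), 0, []⟩) (fun _ _ v => v 0)
    fun A Λ v => code ⟨ω, m A Λ fun i => v (i + 1), 0, []⟩) fun _ _ _ _ _ => by
      rw [mna_fml, mna_fml])

instance MN.tg : MN fun A Λ v => tg (n A Λ v) := MN.dc n fun _ _ _ => 0
instance MN.oa : MN fun A Λ v => oa (n A Λ v) := MN.dc n fun _ _ _ => 1
instance MN.ob : MN fun A Λ v => ob (n A Λ v) := MN.dc n fun _ _ _ => 2
instance MN.oc : MN fun A Λ v => oc (n A Λ v) := MN.dc n fun _ _ _ => 3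

instance MD.ltN : MD fun A Λ v => n A Λ v < m A Λ v :=
  MD.congr (P := fun A Λ v => (n A Λ v : On) < (m A Λ v : On)) fun _ _ _ _ _ => Nat.cast_lt

instance MD.leN : MD fun A Λ v => n A Λ v ≤ m A Λ v :=
  MD.congr (P := fun A Λ v => (n A Λ v : On) ≤ (m A Λ v : On)) fun _ _ _ _ _ => Nat.cast_le

instance MD.eqN : MD fun A Λ v => n A Λ v = m A Λ v :=
  MD.congr (P := fun A Λ v => (n A Λ v : On) = (m A Λ v : On)) fun _ _ _ _ _ => Nat.cast_inj

instance MD.neN : MD fun A Λ v => n A Λ v ≠ m A Λ v := MD.not fun A Λ v => n A Λ v = m A Λ v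

/-- Hint: atom `12`. -/
instance MT.lvN : MT fun A Λ v => lv (par (t A Λ v)) (n A Λ v) :=
  haveI := mna_code n
  haveI : MD fun _ _ v => lv (par (v 0)) (MP_fd3eaf_lc.fml (v 1)) = v 2 :=
    MD.congr (h := MD.atom 12 0 1 2 (by omega)) fun _ _ _ _ _ => by simp [Atom]
  MT.of_graph _ (fun A Λ v x => lv (par (t A Λ v)) (n A Λ v) = x)
    (h := MD.congr (h := MD.three (fun _ _ x y z => lv (par x) (MP_fd3eaf_lc.fml y) = z)
      (fun A Λ v => t A Λ fun i => v (i + 1))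
      (fun A Λ v => MP_fd3eaf_lc.code ⟨ω, n A Λ fun i => v (i + 1), 0, []⟩) fun _ _ v => v 0)
      fun _ _ _ _ _ => by rw [mna_fml])
    (fun A Λ v hΛ hv => lv_mem hΛ.zero_mem (mda_par_mem hΛ (MT.mem A Λ v hΛ hv)) _)
    fun _ _ _ _ _ _ _ => eq_comm

instance MN.fmk (a b : Set On → Set On → (ℕ → On) → ℕ) [MN a] [MN b] :
    MN fun A Λ v => MP_fd3eaf_lc.mk (n A Λ v) (m A Λ v) (a A Λ v) (b A Λ v) :=
  mna_graph _ (MD.congr (P := fun A Λ v => MP_fd3eaf_lc.fml (v 0) ≠ 0 ∧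
    n A Λ (fun i => v (i + 1)) = MP_fd3eaf_lc.tg (MP_fd3eaf_lc.fml (v 0)) ∧
    m A Λ (fun i => v (i + 1)) = MP_fd3eaf_lc.oa (MP_fd3eaf_lc.fml (v 0)) ∧
    a A Λ (fun i => v (i + 1)) = MP_fd3eaf_lc.ob (MP_fd3eaf_lc.fml (v 0)) ∧
    b A Λ (fun i => v (i + 1)) = MP_fd3eaf_lc.oc (MP_fd3eaf_lc.fml (v 0))) fun _ _ _ _ _ =>
    ⟨fun ⟨h0, h1, h2, h3, h4⟩ => by rw [h1, h2, h3, h4, mk_eta h0],
      fun h => by rw [← h]; simp [mk_ne_zero]⟩)

end nat

instance MD.allN (Q : Set On → Set On → (ℕ → On) → ℕ → Prop)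
    [h : MD fun A Λ v => Q A Λ (fun n => v (n + 1)) (toN (v 0))] :
    MD fun A Λ v => ∀ a : ℕ, Q A Λ v a :=
  MD.congr (P := fun A Λ v => ∀ a, a < ω → Q A Λ v (toN a)) fun _ _ _ _ _ =>
    ⟨fun h a => toN_nat a ▸ h a (natCast_lt_omega0 a), fun h _ _ => h _⟩

instance MD.exN (Q : Set On → Set On → (ℕ → On) → ℕ → Prop)
    [h : MD fun A Λ v => Q A Λ (fun n => v (n + 1)) (toN (v 0))] :
    MD fun A Λ v => ∃ a : ℕ, Q A Λ v a :=
  MD.congr (P := fun A Λ v => ∃ a, a < ω ∧ Q A Λ v (toN a)) fun _ _ _ _ _ =>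
    ⟨fun ⟨_, _, h⟩ => ⟨_, h⟩, fun ⟨a, h⟩ => ⟨a, natCast_lt_omega0 a, by rwa [toN_nat]⟩⟩

instance MD.memL (t : Fam On) [MT t] : MD fun A Λ v => t A Λ v ∈ Λ :=
  MD.congr (h := MD.tru) fun A Λ v hΛ hv => iff_of_true trivial (MT.mem A Λ v hΛ hv)

instance MD.memPar (s t : Fam On) [MT s] [MT t] : MD fun A Λ v => s A Λ v ∈ par (t A Λ v) :=
  MD.congr (P := fun A Λ v => ∃ i : ℕ, i < (par (t A Λ v)).length ∧
    lv (par (t A Λ v)) i = s A Λ v) fun _ _ _ _ _ => by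
      rw [List.mem_iff_getElem]
      exact exists_congr fun i => ⟨fun h => ⟨h.1, (List.getD_eq_getElem _ _ h.1).symm.trans h.2⟩,
        fun ⟨h1, h2⟩ => ⟨h1, (List.getD_eq_getElem _ _ h1).trans h2⟩⟩

instance MD.allPar (t : Fam On) [MT t] (Q : Set On → Set On → (ℕ → On) → On → Prop)
    [h : MD fun A Λ v => Q A Λ (fun n => v (n + 1)) (v 0)] :
    MD fun A Λ v => ∀ a, a ∈ par (t A Λ v) → Q A Λ v a :=
  MD.congr (P := fun A Λ v => ∀ a, a ∈ Λ → (a ∈ par (t A Λ v) → Q A Λ v a)) fun A Λ v hΛ hv =>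
    ⟨fun h a ha => h a (mda_par_mem hΛ (MT.mem A Λ v hΛ hv) a ha) ha, fun h a _ ha => h a ha⟩

section sets
variable (B C : Fam (Set On)) (s t : Fam On) [MT s] [MT t]

instance (priority := low) MS.ofMO [h : MO B] : MS B := ⟨h.or⟩

instance (priority := low) MS.shift [h : MS B] (g : ℕ → ℕ) :
    MS fun A Λ v => B A Λ fun n => v (g n) :=
  haveI := h.df
  ⟨MD.rename (fun A Λ v => v 0 ∈ B A Λ fun n => v (n + 1)) (up g)⟩

instance MD.memS [h : MS B] : MD fun A Λ v => t A Λ v ∈ B A Λ v :=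
  haveI := h.df
  MD.subst (fun A Λ v a => a ∈ B A Λ v) t

instance MD.notMemS [MS B] : MD fun A Λ v => t A Λ v ∉ B A Λ v :=
  MD.not fun A Λ v => t A Λ v ∈ B A Λ v

instance MS.setOf (Q : Set On → Set On → (ℕ → On) → On → Prop)
    [h : MD fun A Λ v => Q A Λ (fun n => v (n + 1)) (v 0)] : MS fun A Λ v => {x | Q A Λ v x} :=
  ⟨h⟩

instance MS.iio : MS fun A Λ v => Iio (t A Λ v) :=
  ⟨MD.lt (fun _ _ v => v 0) fun A Λ v => t A Λ fun n => v (n + 1)⟩

instance MS.inter [MS B] [MS C] : MS fun A Λ v => B A Λ v ∩ C A Λ v :=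
  ⟨MD.and (fun A Λ v => v 0 ∈ B A Λ fun n => v (n + 1))
    fun A Λ v => v 0 ∈ C A Λ fun n => v (n + 1)⟩

instance MS.ite [MS B] [MS C] (p : Prop) (d : Decidable p) :
    MS fun A Λ v => @ite _ p d (B A Λ v) (C A Λ v) := by
  by_cases h : p
  · simp only [if_pos h]; infer_instance
  · simp only [if_neg h]; infer_instance

instance MT.foS [MS B] : MT fun A Λ v => MP_fd3eaf_lc.fo (B A Λ v) (t A Λ v) :=
  MT.wit (fun A Λ v x => x ∈ B A Λ v) t

instance MT.inst : MT fun A Λ v => inst (s A Λ v) (t A Λ v) := by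
  unfold MP_fd3eaf_lc.inst; infer_instance

instance MT.rfm (n : Set On → Set On → (ℕ → On) → ℕ) [MN n] :
    MT fun A Λ v => rfm (s A Λ v) (n A Λ v) := by
  unfold MP_fd3eaf_lc.rfm; infer_instance

end sets

/-- The set named by `s`, computed from a table `P` of the machine. -/
def extP (P : Set On) (s : On) : Set On := {x | x < lev s ∧ ins s x ∈ P}

/-- The set of all true locations. -/
def TS (A : Set On) : Set On := {c | T A c}

theorem extP_TS (A : Set On) (s : On) : extP (TS A) s = ext A s := rfl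

theorem fo_TS (A : Set On) (c : On) : fo (TS A) c = sk A c := rfl

theorem extP_congr {P P' : Set On} {L s : On} (hL : IsLev L) (hs : s < L)
    (h : ∀ c < L, c ∈ P ↔ c ∈ P') : extP P s = extP P' s := by
  exact Set.ext fun x => and_congr_right fun _ =>
    h _ (code_lt_lev hL ((lev_le s).trans_lt hs))

instance MS.extP (B : Fam (Set On)) [MS B] (s : Fam On) [MT s] :
    MS fun A Λ v => extP (B A Λ v) (s A Λ v) := by
  unfold MP_fd3eaf_lc.extP; infer_instance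

instance MS.TS (B : Fam (Set On)) [h : MO B] : MS fun A Λ v => TS (B A Λ v) := ⟨h.tr⟩

instance MD.clb (B : Fam (Set On)) [MS B] (s t : Fam On) [MT s] [MT t] :
    MD fun A Λ v => Clb (Iio (t A Λ v)) (extP (B A Λ v) (s A Λ v)) := by
  refine MD.congr (P := fun A Λ v =>
    (∀ a, a < lev (s A Λ v) → a ∈ extP (B A Λ v) (s A Λ v) → a < t A Λ v) ∧
    (∀ x, x < t A Λ v → ∃ y, y < lev (s A Λ v) ∧ y ∈ extP (B A Λ v) (s A Λ v) ∧ x < y) ∧
    ∀ γ, γ < t A Λ v → 0 < γ →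
      (∀ x, x < γ → ∃ y, y < γ ∧ y ∈ extP (B A Λ v) (s A Λ v) ∧ x < y) →
      γ ∈ extP (B A Λ v) (s A Λ v)) fun A Λ v _ _ => ⟨fun ⟨h1, h2, h3⟩ => ⟨?_, ?_, ?_⟩,
    fun ⟨h1, h2, h3⟩ => ⟨?_, ?_, ?_⟩⟩
  · exact fun a ha => h1 a ha.1 ha
  · exact fun x hx => let ⟨y, _, a1, a2⟩ := h2 x hx; ⟨y, a1, a2⟩
  · exact fun γ hγ h0 hl => h3 γ hγ h0 fun x hx => let ⟨y, a1, a2, a3⟩ := hl x hx; ⟨y, a3, a1, a2⟩
  · exact fun a _ ha => h1 ha
  · exact fun x hx => let ⟨y, a1, a2⟩ := h2 x hx; ⟨y, a1.1, a1, a2⟩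
  · exact fun γ hγ h0 hl => h3 γ hγ h0 fun x hx => let ⟨y, a1, a2, a3⟩ := hl x hx; ⟨y, a2, a3, a1⟩

/-- `P` is the table of the machine with oracle `O` below `L`. -/
def IsT (O P : Set On) (L : On) : Prop :=
  ∀ c < L, (tg (fml c) = 9 → (c ∈ P ↔ rfm c (oa (fml c)) ∉ P)) ∧
    (tg (fml c) = 10 → (c ∈ P ↔ rfm c (oa (fml c)) ∈ P ∧ rfm c (ob (fml c)) ∈ P)) ∧
    (tg (fml c) = 11 → (c ∈ P ↔ ∀ ξ < lev c, inst c ξ ∈ P)) ∧
    (tg (fml c) ≠ 9 → tg (fml c) ≠ 10 → tg (fml c) ≠ 11 →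
      (c ∈ P ↔ Atom (O ∩ Iio (cut c)) (fun d => rct d (min (cut d) (cut c)) ∈ P) (tg (fml c))
        (lv (par c) (oa (fml c))) (lv (par c) (ob (fml c))) (lv (par c) (oc (fml c)))))

theorem isT_iff {O P : Set On} {L : On} : IsT O P L ↔ ∀ c < L, c ∈ P ↔ T O c := by
  refine ⟨fun h => T_unique (Λ := Iio L) (P := fun c => c ∈ P) (isLowerSet_Iio L)
    (fun c hc => (h c hc).1) (fun c hc => (h c hc).2.1) (fun c hc => (h c hc).2.2.1)
    fun c hc => (h c hc).2.2.2, fun h c hc => ?_⟩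
  have ih : ∀ d < c, d ∈ P ↔ T O d := fun d hd => h d (hd.trans hc)
  refine ⟨fun h1 => ?_, fun h2 => ?_, fun h3 => ?_, fun h1 h2 h3 => ?_⟩
  · rw [h c hc, T_neg h1, ih _ (rfm_lt (oa_lt (by omega)))]
  · rw [h c hc, T_and h2, ih _ (rfm_lt (oa_lt (by omega))), ih _ (rfm_lt (ob_lt (by omega)))]
  · rw [h c hc, T_all h3]
    exact forall₂_congr fun ξ _ => (ih _ (inst_lt ξ (by omega))).symm
  · rw [h c hc, T_atom h1 h2 h3]
    refine machb_atom fun h8 => (ih _ ((rct_le (min_le_left _ _)).trans_lt ?_)).symm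
    exact lv_mem (Λ := Iio c) (omega0_pos.trans_le (machb_omega' (by omega)))
      (fun a => par_lt) _

set_option synthInstance.maxSize 1024 in
instance MD.atomS (B : Fam (Set On)) [MS B] (Q : Set On → Set On → (ℕ → On) → On → Prop)
    [MD fun A Λ v => Q A Λ (fun n => v (n + 1)) (v 0)] (n : Set On → Set On → (ℕ → On) → ℕ) [MN n]
    (x y z : Fam On) [MT x] [MT y] [MT z] :
    MD fun A Λ v => Atom (B A Λ v) (Q A Λ v) (n A Λ v) (x A Λ v) (y A Λ v) (z A Λ v) := by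
  have := MD.subst Q x
  unfold Atom; infer_instance

set_option synthInstance.maxSize 1024 in
instance MD.isT (B C : Fam (Set On)) [MS B] [MS C] (t : Fam On) [MT t] :
    MD fun A Λ v => IsT (B A Λ v) (C A Λ v) (t A Λ v) := by
  unfold IsT; infer_instance

/-- Pairing. -/
noncomputable def pr (a b : On) : On := code ⟨nl (max a b), 0, 0, [a, b]⟩
noncomputable def p1 (c : On) : On := lv (par c) 0
noncomputable def p2 (c : On) : On := lv (par c) 1

theorem mnb_valid (a b : On) : (Loc.mk (nl (max a b)) 0 0 [a, b]).Valid := by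
  refine ⟨zero_le, fun x hx => ?_⟩
  rcases List.mem_pair.1 hx with rfl | rfl
  · exact (le_max_left _ _).trans_lt (lt_nl _)
  · exact (le_max_right _ _).trans_lt (lt_nl _)

theorem mnb_par (a b : On) : par (pr a b) = [a, b] := par_code (isLev_nl _) (mnb_valid a b)

@[simp] theorem p1_pr (a b : On) : p1 (pr a b) = a := by
  rw [p1, mnb_par]; rfl

@[simp] theorem p2_pr (a b : On) : p2 (pr a b) = b := by
  rw [p2, mnb_par]; rfl

@[simp] theorem pr_inj {a b a' b' : On} : pr a b = pr a' b' ↔ a = a' ∧ b = b' := by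
  refine ⟨fun h => ⟨?_, ?_⟩, fun h => by rw [h.1, h.2]⟩
  · rw [← p1_pr a b, h, p1_pr]
  · rw [← p2_pr a b, h, p2_pr]

theorem left_lt_pr (a b : On) : a < pr a b := by
  exact par_lt (by rw [mnb_par]; exact List.mem_pair.2 (Or.inl rfl))

theorem right_lt_pr (a b : On) : b < pr a b := by
  exact par_lt (by rw [mnb_par]; exact List.mem_pair.2 (Or.inr rfl))

theorem p1_le (c : On) : p1 c ≤ c := par_getD_le c 0

theorem p2_le (c : On) : p2 c ≤ c := par_getD_le c 1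

theorem Nice.pr_mem {Λ : Set On} (h : Nice Λ) {a b : On} (ha : a ∈ Λ) (hb : b ∈ Λ) :
    pr a b ∈ Λ := by
  refine h.code_mem (h.nl_mem ?_)
  rcases max_choice a b with e | e <;> rwa [e]

/-- Sections of a set of pairs. -/
def sec (B : Set On) (a : On) : Set On := {b | pr a b ∈ B}

/-- A function read off from a table. -/
noncomputable def fn (B : Set On) (L a : On) : On := sInf {z | z < L ∧ pr a z ∈ B}

/-- The table of a function. -/
def tabF (f : On → On) (L : On) : Set On := {c | ∃ a < L, f a < L ∧ c = pr a (f a)}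

/-- The table of a family of sets. -/
def tabS (B : On → Set On) (L : On) : Set On := {c | ∃ a < L, ∃ b < L, b ∈ B a ∧ c = pr a b}

/-- The join of two sets. -/
def jn (A B : Set On) : Set On := {c | (p1 c = 0 ∧ p2 c ∈ A) ∨ (p1 c = 1 ∧ p2 c ∈ B)}

theorem fn_tabF {f : On → On} {L a : On} (h1 : a < L) (h2 : f a < L) :
    fn (tabF f L) L a = f a := by
  have e : {z | z < L ∧ pr a z ∈ tabF f L} = {f a} := by
    refine Set.ext fun z => ⟨fun ⟨_, b, _, _, e⟩ => ?_, fun e => ?_⟩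
    · obtain ⟨rfl, rfl⟩ := pr_inj.1 e
      rfl
    · obtain rfl : z = f a := e
      exact ⟨h2, a, h1, h2, rfl⟩
  rw [fn, e, csInf_singleton]

theorem fn_lt {B : Set On} {L a : On} (h : 0 < L) : fn B L a < L := by
  rcases {z | z < L ∧ pr a z ∈ B}.eq_empty_or_nonempty with e | e
  · rwa [fn, e, Ordinal.sInf_empty]
  · exact (csInf_mem e).1

theorem sec_tabS {B : On → Set On} {L a : On} (h : a < L) : sec (tabS B L) a = B a ∩ Iio L := by
  refine Set.ext fun z => ⟨fun ⟨b, _, c, h1, h2, e⟩ => ?_, fun e => ⟨a, h, z, e.2, e.1, rfl⟩⟩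
  obtain ⟨rfl, rfl⟩ := pr_inj.1 e
  exact ⟨h2, h1⟩

theorem tabF_subset {f : On → On} {L : On} (h : Nice (Iio L)) : tabF f L ⊆ Iio L := by
  rintro _ ⟨a, h1, h2, rfl⟩
  exact h.pr_mem h1 h2

theorem tabS_subset {B : On → Set On} {L : On} (h : Nice (Iio L)) : tabS B L ⊆ Iio L := by
  rintro _ ⟨a, h1, b, h2, -, rfl⟩
  exact h.pr_mem h1 h2

@[simp] theorem sec_jn_zero (A B : Set On) : sec (jn A B) 0 = A := by
  ext x
  simp [sec, jn]

@[simp] theorem sec_jn_one (A B : Set On) : sec (jn A B) 1 = B := by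
  ext x
  simp [sec, jn]

theorem jn_congr {A A' B B' Λ : Set On} (hΛ : IsLowerSet Λ) (h1 : ∀ x ∈ Λ, x ∈ A ↔ x ∈ A')
    (h2 : ∀ x ∈ Λ, x ∈ B ↔ x ∈ B') : ∀ x ∈ Λ, x ∈ jn A B ↔ x ∈ jn A' B' := by
  intro x hx
  have h := hΛ (p2_le x) hx
  exact or_congr (and_congr_right fun _ => h1 _ h) (and_congr_right fun _ => h2 _ h)

theorem sec_inter {B : Set On} {L a : On} (h : Nice (Iio L)) (ha : a < L) :
    sec (B ∩ Iio L) a = sec B a ∩ Iio L := by
  exact Set.ext fun b => and_congr_right fun _ =>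
    ⟨fun c => (right_lt_pr a b).trans c, fun c => h.pr_mem ha c⟩

instance MT.pr (s t : Fam On) [MT s] [MT t] : MT fun A Λ v => pr (s A Λ v) (t A Λ v) := by
  unfold MP_fd3eaf_lc.pr; infer_instance

instance MT.p1 (t : Fam On) [MT t] : MT fun A Λ v => p1 (t A Λ v) := MT.lv_par t 0

instance MT.p2 (t : Fam On) [MT t] : MT fun A Λ v => p2 (t A Λ v) := MT.lv_par t 1

instance MS.sec (B : Fam (Set On)) [MS B] (t : Fam On) [MT t] :
    MS fun A Λ v => sec (B A Λ v) (t A Λ v) := by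
  unfold MP_fd3eaf_lc.sec; infer_instance

instance MS.jn (B C : Fam (Set On)) [MS B] [MS C] : MS fun A Λ v => jn (B A Λ v) (C A Λ v) := by
  unfold MP_fd3eaf_lc.jn; infer_instance

instance MT.fn (B : Fam (Set On)) [MS B] (s t : Fam On) [MT s] [MT t] :
    MT fun A Λ v => fn (B A Λ v) (s A Λ v) (t A Λ v) := by
  unfold MP_fd3eaf_lc.fn; infer_instance

example : MD fun A _ v => ∀ n : ℕ, ∀ x < v 0, ∃ m : ℕ, m < n + 1 ∧
    fn (sec A 2) (v 1) (pr x m) = lv (par x) (oa n) ∧ pr x n ∈ sec (sec A 1) (v 2) ∩ Iio (v 1) ∧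
      (mk 0 n (toN (fn (sec A 3) (v 1) x)) m : On) ∈ A := inferInstance

end Pool.Agent.MP_fd3eaf_lc

end

-- part MP_fd3eaf_lc.Ind
section

/-!
Indiscernibles for the machine.
-/

set_option autoImplicit false

namespace Pool.Agent.MP_fd3eaf_lc

open Set Ordinal

/-- A list followed by an infinite sequence. -/
def app : List On → (ℕ → On) → ℕ → On
  | [], ι => ι
  | a :: q, ι => cons a (app q ι)

@[simp] theorem app_nil (ι : ℕ → On) : app [] ι = ι := rfl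
@[simp] theorem app_cons (a : On) (q : List On) (ι : ℕ → On) :
    app (a :: q) ι = cons a (app q ι) := rfl

theorem app_lt {q : List On} {ι : ℕ → On} {i : ℕ} (h : i < q.length) : app q ι i = lv q i := by
  induction q generalizing i with
  | nil => exact absurd h (Nat.not_lt_zero _)
  | cons a q ih =>
    cases i with
    | zero => rfl
    | succ i => exact ih (Nat.lt_of_succ_lt_succ h)

theorem app_add (q : List On) (ι : ℕ → On) (i : ℕ) : app q ι (q.length + i) = ι i := by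
  induction q with
  | nil => simp
  | cons a q ih =>
    rw [List.length_cons, Nat.add_right_comm]
    exact ih

theorem app_mem {Λ : Set On} {q : List On} {ι : ℕ → On} (hq : ∀ a ∈ q, a ∈ Λ) (h : ∀ n, ι n ∈ Λ)
    (i : ℕ) : app q ι i ∈ Λ := by
  induction q generalizing i with
  | nil => exact h i
  | cons a q ih =>
    exact cons_mem (hq a List.mem_cons_self)
      (fun n => ih (fun b hb => hq b (List.mem_cons_of_mem a hb)) n) i

theorem comp_app (f : On → On) (q : List On) (ι : ℕ → On) :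
    f ∘ app q ι = app (q.map f) (f ∘ ι) := by
  induction q with
  | nil => rfl
  | cons a q ih => rw [app_cons, comp_cons, ih, List.map_cons, app_cons]

theorem app_append (q r : List On) (ι : ℕ → On) : app (q ++ r) ι = app q (app r ι) := by
  induction q with
  | nil => rfl
  | cons a q ih => rw [List.cons_append, app_cons, ih, app_cons]

theorem app_range (n : ℕ) (ι : ℕ → On) :
    app ((List.range n).map ι) (fun i => ι (n + i)) = ι := by
  funext i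
  rcases lt_or_ge i n with h | h
  · rw [app_lt (by simpa using h)]
    simp [lv, List.getD_eq_getElem?_getD, h]
  · obtain ⟨m, rfl⟩ := Nat.exists_eq_add_of_le h
    have := app_add ((List.range n).map ι) (fun i => ι (n + i)) m
    rwa [List.length_map, List.length_range] at this

theorem sat_app {A Λ : Set On} {k n : ℕ} {q : List On} {ι : ℕ → On} (h : k ≤ q.length + n) :
    Sat A Λ k (app q ι) ↔ Sat A Λ k (lv (q ++ (List.range n).map ι)) := by
  refine sat_irrel fun i hi => ?_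
  rw [← app_lt (ι := fun i => ι (n + i)) (by simpa using hi.trans_le h), app_append, app_range]

/-- `ι` is an increasing sequence in `I` above `q`. -/
structure Inc (I : Set On) (q : List On) (ι : ℕ → On) : Prop where
  mono : StrictMono ι
  mem : ∀ n, ι n ∈ I
  lt : ∀ a ∈ q, a < ι 0

/-- `I` is an unbounded set of strong indiscernibles of `(Λ; A)`. -/
structure Ind (A Λ I : Set On) : Prop where
  nice : Nice Λ
  sub : I ⊆ Λ
  unb : ∀ x ∈ Λ, ∃ ι ∈ I, x < ι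
  ind : ∀ k q ι ι', Inc I q ι → Inc I q ι' → Sat A Λ k (app q ι) → Sat A Λ k (app q ι')

/-- The indiscernibles generate `Λ` over `j`. -/
structure Cert (A Λ : Set On) (j : On) (I : Set On) : Prop extends Ind A Λ I where
  or : A ⊆ Iio j
  ge : ∀ ι ∈ I, j ≤ ι
  gen : Λ ⊆ Dcl A Λ (Iio j ∪ I)

namespace Ind
variable {A Λ I : Set On}

theorem exists_inc (h : Ind A Λ I) {q : List On} (hq : ∀ a ∈ q, a ∈ Λ) : ∃ ι, Inc I q ι := by
  have h1 : ∃ b ∈ Λ, ∀ a ∈ q, a ≤ b := by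
    induction q with
    | nil => exact ⟨0, h.nice.zero_mem, fun _ m => absurd m List.not_mem_nil⟩
    | cons c q ih =>
      obtain ⟨b, hb, h2⟩ := ih fun a m => hq a (List.mem_cons_of_mem c m)
      refine ⟨max c b, ?_, fun a m => (List.mem_cons.1 m).elim (fun e => e ▸ le_max_left _ _)
        fun m => (h2 a m).trans (le_max_right _ _)⟩
      rcases max_choice c b with e | e <;> rw [e]
      exacts [hq c List.mem_cons_self, hb]
  obtain ⟨b, hb, h2⟩ := h1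
  choose! g g1 g2 using h.unb
  have h3 : ∀ n : ℕ, (Nat.rec (g b) (fun _ x => g x) n : On) ∈ I := fun n => by
    induction n with
    | zero => exact g1 b hb
    | succ n ih => exact g1 _ (h.sub ih)
  exact ⟨fun n => Nat.rec (g b) (fun _ x => g x) n,
    strictMono_nat_of_lt_succ fun n => g2 _ (h.sub (h3 n)), h3,
    fun a m => (h2 a m).trans_lt (g2 b hb)⟩

theorem inda_mem {L : Set On} (hL : IsLowerSet L) (hI : I ⊆ L) {q : List On} {ι : ℕ → On}
    (h : Inc I q ι) (i : ℕ) : app q ι i ∈ L :=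
  app_mem (fun a m => hL (h.lt a m).le (hI (h.mem 0))) (fun n => hI (h.mem n)) i

theorem md (h : Ind A Λ I) (P : Set On → Set On → (ℕ → On) → Prop) [MD P] {q : List On}
    {ι ι' : ℕ → On} (h1 : Inc I q ι) (h2 : Inc I q ι') :
    P A Λ (app q ι) ↔ P A Λ (app q ι') := by
  obtain ⟨k, hk⟩ := MD.ex (P := P)
  rw [← hk A Λ _ h.nice (inda_mem h.nice.lower h.sub h1),
    ← hk A Λ _ h.nice (inda_mem h.nice.lower h.sub h2)]
  exact ⟨h.ind k q ι ι' h1 h2, h.ind k q ι' ι h2 h1⟩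

theorem inda_start (h : Ind A Λ I) {ι : On} (hι : ι ∈ I) {q : List On} (hq : ∀ a ∈ q, a < ι) :
    ∃ s, Inc I q s ∧ s 0 = ι := by
  obtain ⟨s, hs⟩ := h.exists_inc (q := [ι]) fun a m => List.mem_singleton.1 m ▸ h.sub hι
  refine ⟨cons ι s, ⟨strictMono_nat_of_lt_succ fun n => ?_, cons_mem hι hs.mem, hq⟩, rfl⟩
  cases n with
  | zero => exact hs.lt ι List.mem_cons_self
  | succ n => exact hs.mono (Nat.lt_succ_self n)

theorem inda_pos (h : Ind A Λ I) {ι : On} (hι : ι ∈ I) : 0 < ι := by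
  obtain ⟨s, hs, rfl⟩ := h.inda_start hι (q := []) fun _ m => absurd m List.not_mem_nil
  obtain ⟨s', hs'⟩ := h.exists_inc (q := [0]) fun a m =>
    List.mem_singleton.1 m ▸ h.nice.zero_mem
  exact (h.md (fun _ _ v => 0 < v 0) hs
    ⟨hs'.mono, hs'.mem, fun _ m => absurd m List.not_mem_nil⟩).2 (hs'.lt 0 List.mem_cons_self)

/-- Hint: if `x` is a solution take `ι' > x` in `I` and shift `∃ ξ < ι', ..` down to `ι`. -/
theorem tv (h : Ind A Λ I) {ι : On} (hι : ι ∈ I) : TV A Λ (Iio ι) := by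
  refine ⟨fun x hx => h.nice.lower (le_of_lt hx) (h.sub hι), fun k q hq ⟨x, hx, hs⟩ => ?_⟩
  have hq' : ∀ a ∈ (List.range k).map (lv q), a < ι := fun a m => by
    obtain ⟨i, -, rfl⟩ := List.mem_map.1 m
    exact lv_mem (Λ := Iio ι) (h.inda_pos hι) hq i
  have key : ∀ ξ s, Sat A Λ k (cons ξ (app ((List.range k).map (lv q)) s)) ↔
      Sat A Λ k (lv (ξ :: q)) := fun ξ s => sat_irrel fun i hi => by
    cases i with
    | zero => rfl
    | succ i =>
      have h1 : i < k := by omega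
      rw [cons_succ, lv_succ, app_lt (by simpa using h1)]
      simp [lv, List.getD_eq_getElem?_getD, h1]
  have top : ∀ s, app ((List.range k).map (lv q)) s k = s 0 := fun s => by
    have := app_add ((List.range k).map (lv q)) s 0
    rwa [List.length_map, List.length_range] at this
  obtain ⟨s, h1, rfl⟩ := h.inda_start hι hq'
  obtain ⟨s', h2⟩ := h.exists_inc (q := x :: (List.range k).map (lv q)) fun a m =>
    (List.mem_cons.1 m).elim (fun e => e ▸ hx) fun m =>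
      h.nice.lower (hq' a m).le (h.sub hι)
  have : MD fun A Λ v => Sat A Λ k (cons (v 0) fun n => v (n + 1)) :=
    MD.congr (h := MD.sat k) fun _ _ _ _ _ => sat_irrel fun i _ => by cases i <;> rfl
  obtain ⟨ξ, h3, h4⟩ := (h.md (fun A Λ v => ∃ ξ, ξ < v k ∧ Sat A Λ k (cons ξ v)) h1
    ⟨h2.mono, h2.mem, fun a m => h2.lt a (List.mem_cons_of_mem x m)⟩).2
    ⟨x, top s' ▸ h2.lt x List.mem_cons_self, (key x s').2 hs⟩
  exact ⟨ξ, top s ▸ h3, (key ξ s).1 h4⟩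

theorem mono (h : Ind A Λ I) {I' : Set On} (h1 : I' ⊆ I) (h2 : ∀ x ∈ Λ, ∃ ι ∈ I', x < ι) :
    Ind A Λ I' := by
  exact ⟨h.nice, h1.trans h.sub, h2, fun k q ι ι' a b => h.ind k q ι ι'
    ⟨a.mono, fun n => h1 (a.mem n), a.lt⟩ ⟨b.mono, fun n => h1 (b.mem n), b.lt⟩⟩

theorem inter_or (h : Ind A Λ I) {e : On} (he : ∀ ι ∈ I, e < ι) : Ind (A ∩ Iio e) Λ I := by
  refine ⟨h.nice, h.sub, h.unb, fun k q ι ι' a b => ?_⟩
  have ext : ∀ s, Inc I q s → Inc I (e :: q) s := fun s c => ⟨c.mono, c.mem, fun x m =>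
    (List.mem_cons.1 m).elim (fun e' => e' ▸ he _ (c.mem 0)) (c.lt x)⟩
  have := MD.satL k (fun A _ v => A ∩ Iio (v 0)) (fun i _ _ v => v (i + 1)) fun _ => MT.var _
  exact (h.md (fun A Λ v => Sat (A ∩ Iio (v 0)) Λ k fun i => v (i + 1)) (ext ι a) (ext ι' b)).1

theorem congr (h : Ind A Λ I) {B : Set On} (e : ∀ x ∈ Λ, x ∈ A ↔ x ∈ B) : Ind B Λ I := by
  refine ⟨h.nice, h.sub, h.unb, fun k q ι ι' a b => ?_⟩
  rw [← sat_congr h.nice.lower (inda_mem h.nice.lower h.sub a) e,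
    ← sat_congr h.nice.lower (inda_mem h.nice.lower h.sub b) e]
  exact h.ind k q ι ι' a b

/-- Restriction to a limit point. -/
theorem restrict (h : Ind A Λ I) {γ : On} (h0 : 0 < γ) (h1 : ∀ x < γ, ∃ ι ∈ I, x < ι ∧ ι < γ) :
    TV A Λ (Iio γ) ∧ Ind A (Iio γ) (I ∩ Iio γ) := by
  have t : TV A Λ (Iio γ) := TV.limit h0 fun x hx => by
    obtain ⟨ι, a, b, c⟩ := h1 x hx
    exact ⟨ι, b, c.le, h.tv a⟩
  refine ⟨t, t.nice h.nice (isLowerSet_Iio γ), inter_subset_right, fun x hx => ?_,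
    fun k q ι ι' a b => ?_⟩
  · obtain ⟨ι, a, b, c⟩ := h1 x hx
    exact ⟨ι, ⟨a, c⟩, b⟩
  · rw [t.sat h.nice (isLowerSet_Iio γ) (inda_mem (isLowerSet_Iio γ) inter_subset_right a),
      t.sat h.nice (isLowerSet_Iio γ) (inda_mem (isLowerSet_Iio γ) inter_subset_right b)]
    exact h.ind k q ι ι' ⟨a.mono, fun n => (a.mem n).1, a.lt⟩ ⟨b.mono, fun n => (b.mem n).1, b.lt⟩

/-- Renaming together with truncation. -/
theorem indb_ren (k n : ℕ) (g : ℕ → ℕ) : ∃ k', ∀ (A Λ : Set On) (v : ℕ → On), Nice Λ →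
    (∀ i, v i ∈ Λ) → (Sat A Λ k' v ↔ Sat A Λ k fun i => if i < n then v (g i) else 0) :=
  (MD.satL k (fun A _ _ => A) (fun i _ _ v => if i < n then v (g i) else 0) fun i => by
    by_cases h : i < n
    · exact MT.congr (h := MT.var (g i)) fun _ _ _ _ _ => (if_pos h).symm
    · exact MT.congr (h := MT.zero) fun _ _ _ _ _ => (if_neg h).symm).ex

theorem indb_left {p q : List On} {i : ℕ} (h : i < p.length) : lv (p ++ q) i = lv p i := by
  have := elemc_left p q i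
  rwa [if_pos h] at this

theorem indb_right {p q : List On} {i : ℕ} (h : p.length ≤ i) :
    lv (p ++ q) i = lv q (i - p.length) := by
  have := elemc_right p q (i - p.length)
  rwa [Nat.sub_add_cancel h] at this

theorem indb_out {p : List On} {i : ℕ} (h : p.length ≤ i) : lv p i = 0 := by
  have := indb_right (q := []) h
  rwa [List.append_nil, lv_nil] at this

theorem indb_lv_mem {p : List On} {i : ℕ} (h : i < p.length) : lv p i ∈ p := by
  induction p generalizing i with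
  | nil => exact absurd h (Nat.not_lt_zero _)
  | cons a p ih =>
    cases i with
    | zero => exact List.mem_cons_self
    | succ i => exact List.mem_cons_of_mem _ (ih (Nat.lt_of_succ_lt_succ h))

theorem indb_idx {p : List On} {a : On} (h : a ∈ p) : ∃ i < p.length, lv p i = a := by
  induction p with
  | nil => exact absurd h List.not_mem_nil
  | cons b p ih =>
    rcases List.mem_cons.1 h with e | e
    · exact ⟨0, Nat.succ_pos _, e.symm⟩
    · obtain ⟨i, h1, h2⟩ := ih e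
      exact ⟨i + 1, Nat.succ_lt_succ h1, h2⟩

theorem indb_map (f : On → On) {p : List On} {i : ℕ} (h : i < p.length) :
    lv (p.map f) i = f (lv p i) := by
  induction p generalizing i with
  | nil => exact absurd h (Nat.not_lt_zero _)
  | cons a p ih =>
    cases i with
    | zero => rfl
    | succ i => exact ih (Nat.lt_of_succ_lt_succ h)

theorem indb_sort (l : List On) : ∃ s : List On, s.Pairwise (· < ·) ∧ ∀ a, a ∈ s ↔ a ∈ l := by
  classical
  exact ⟨l.toFinset.sort, (Finset.sortedLT_sort _).pairwise, fun a => by simp⟩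

theorem indb_zero {r : List On} {τ : ℕ → On} {a : On} (h1 : ∀ b ∈ r, a < b) (h2 : a < τ 0) :
    a < app r τ 0 := by
  cases r with
  | nil => exact h2
  | cons b r => exact h1 b List.mem_cons_self

theorem indb_mono {r : List On} {τ : ℕ → On} (hr : r.Pairwise (· < ·)) (hτ : StrictMono τ)
    (h : ∀ a ∈ r, a < τ 0) : StrictMono (app r τ) := by
  induction r with
  | nil => exact hτ
  | cons a r ih =>
    obtain ⟨h1, h2⟩ := List.pairwise_cons.1 hr
    refine strictMono_nat_of_lt_succ fun n => ?_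
    cases n with
    | zero => exact indb_zero h1 (h a List.mem_cons_self)
    | succ n => exact ih h2 (fun b m => h b (List.mem_cons_of_mem _ m)) (Nat.lt_succ_self n)

theorem indb_swap (r q : List On) (τ : ℕ → On) : lv (r ++ q) = fun i =>
    if i < r.length + q.length then
      app q (app r τ) (if i < r.length then q.length + i else i - r.length) else 0 := by
  funext i
  split_ifs with h1 h2
  · rw [app_add, app_lt h2, indb_left h2]
  · rw [app_lt (by omega), indb_right (by omega)]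
  · exact indb_out (by rw [List.length_append]; omega)

theorem indb_fin (h : Ind A Λ I) (k : ℕ) (q r r' : List On) (h1 : r.length = r'.length)
    (h2 : r.Pairwise (· < ·)) (h3 : r'.Pairwise (· < ·)) (h4 : ∀ b ∈ r, b ∈ I ∧ ∀ a ∈ q, a < b)
    (h5 : ∀ b ∈ r', b ∈ I ∧ ∀ a ∈ q, a < b) (hq : ∀ a ∈ q, a ∈ Λ) :
    Sat A Λ k (lv (r ++ q)) ↔ Sat A Λ k (lv (r' ++ q)) := by
  have key : ∀ s : List On, s.Pairwise (· < ·) → (∀ b ∈ s, b ∈ I ∧ ∀ a ∈ q, a < b) →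
      ∃ τ, Inc I q (app s τ) := fun s hs hb => by
    obtain ⟨τ, hτ⟩ := h.exists_inc (q := s ++ q) fun a m =>
      (List.mem_append.1 m).elim (fun e => h.sub (hb a e).1) (hq a)
    exact ⟨τ, indb_mono hs hτ.mono fun a m => hτ.lt a (List.mem_append_left _ m),
      app_mem (fun a m => (hb a m).1) hτ.mem, fun a m =>
        indb_zero (fun b e => (hb b e).2 a m) (hτ.lt a (List.mem_append_right _ m))⟩
  obtain ⟨τ, hτ⟩ := key r h2 h4
  obtain ⟨τ', hτ'⟩ := key r' h3 h5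
  obtain ⟨k', hk⟩ := indb_ren k (r.length + q.length)
    fun i => if i < r.length then q.length + i else i - r.length
  rw [indb_swap r q τ, indb_swap r' q τ', ← h1,
    ← hk A Λ _ h.nice (app_mem hq fun n => h.sub (hτ.mem n)),
    ← hk A Λ _ h.nice (app_mem hq fun n => h.sub (hτ'.mem n))]
  exact ⟨h.ind _ _ _ _ hτ hτ', h.ind _ _ _ _ hτ' hτ⟩

/-- Indiscernibility for indices in any order.  Hint: sort the indices, rename the variables
(`exists_ren`) and extend both finite sequences inside `I`. -/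
theorem any (h : Ind A Λ I) (k : ℕ) (js q : List On) (ρ ρ' : On → On)
    (h1 : StrictMonoOn ρ {j | j ∈ js}) (h2 : StrictMonoOn ρ' {j | j ∈ js})
    (h3 : ∀ j ∈ js, ρ j ∈ I ∧ ∀ a ∈ q, a < ρ j) (h4 : ∀ j ∈ js, ρ' j ∈ I ∧ ∀ a ∈ q, a < ρ' j)
    (hq : ∀ a ∈ q, a ∈ Λ) :
    Sat A Λ k (lv (js.map ρ ++ q)) ↔ Sat A Λ k (lv (js.map ρ' ++ q)) := by
  obtain ⟨s, hs, hm⟩ := indb_sort js
  have : ∀ i, ∃ n, i < js.length → n < s.length ∧ lv s n = lv js i := fun i => by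
    by_cases hi : i < js.length
    · obtain ⟨n, hn⟩ := indb_idx ((hm _).2 (indb_lv_mem hi))
      exact ⟨n, fun _ => hn⟩
    · exact ⟨0, fun e => absurd e hi⟩
  choose g hg using this
  obtain ⟨k', hk⟩ := exists_ren k fun i => if i < js.length then g i else i - js.length + s.length
  have e : ∀ f : On → On, lv (js.map f ++ q) = lv (s.map f ++ q) ∘ fun i =>
      if i < js.length then g i else i - js.length + s.length := fun f => by
    funext i
    rw [Function.comp_apply]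
    split_ifs with hi
    · rw [indb_left (by rwa [List.length_map]), indb_left (by rw [List.length_map]; exact (hg i hi).1),
        indb_map f hi, indb_map f (hg i hi).1, (hg i hi).2]
    · rw [indb_right (by rw [List.length_map]; omega), indb_right (by rw [List.length_map]; omega),
        List.length_map, List.length_map, Nat.add_sub_cancel]
  have pw : ∀ f : On → On, StrictMonoOn f {j | j ∈ js} → (s.map f).Pairwise (· < ·) :=
    fun f hf => List.pairwise_map.2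
      (hs.imp_of_mem fun m m' l => hf ((hm _).1 m) ((hm _).1 m') l)
  rw [e ρ, e ρ', ← hk, ← hk]
  refine indb_fin h k' q _ _ (by rw [List.length_map, List.length_map]) (pw ρ h1) (pw ρ' h2)
    (fun b m => ?_) (fun b m => ?_) hq
  · obtain ⟨j, hj, rfl⟩ := List.mem_map.1 m
    exact h3 j ((hm j).1 hj)
  · obtain ⟨j, hj, rfl⟩ := List.mem_map.1 m
    exact h4 j ((hm j).1 hj)

/-- The finite form of indiscernibility. -/
theorem of_fin (h1 : Nice Λ) (h2 : I ⊆ Λ) (h3 : ∀ x ∈ Λ, ∃ ι ∈ I, x < ι)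
    (h4 : ∀ (k : ℕ) (q r r' : List On), r.length = r'.length → r.Pairwise (· < ·) →
      r'.Pairwise (· < ·) → (∀ b ∈ r, b ∈ I ∧ ∀ a ∈ q, a < b) →
      (∀ b ∈ r', b ∈ I ∧ ∀ a ∈ q, a < b) → (∀ a ∈ q, a ∈ Λ) →
      Sat A Λ k (lv (r ++ q)) → Sat A Λ k (lv (r' ++ q))) : Ind A Λ I := by
  refine ⟨h1, h2, h3, fun k q ι ι' hι hι' => ?_⟩
  obtain ⟨k', hk⟩ := exists_ren k fun i =>
    if i < q.length then k + i else if i < q.length + k then i - q.length else i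
  have e : ∀ r : List On, r.length = k → lv (q ++ r) = lv (r ++ q) ∘ fun i =>
      if i < q.length then k + i else if i < q.length + k then i - q.length else i :=
    fun r hr => by
      funext i
      rw [Function.comp_apply]
      split_ifs with a1 a2
      · rw [indb_left a1, indb_right (by omega), hr, Nat.add_sub_cancel_left]
      · rw [indb_right (by omega), indb_left (by omega)]
      · rw [indb_out (by rw [List.length_append]; omega),
          indb_out (by rw [List.length_append]; omega)]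
  have pw : ∀ τ, Inc I q τ → ((List.range k).map τ).Pairwise (· < ·) ∧
      ∀ b ∈ (List.range k).map τ, b ∈ I ∧ ∀ a ∈ q, a < b := fun τ hτ => by
    refine ⟨List.pairwise_map.2 (List.pairwise_lt_range.imp fun l => hτ.mono l), fun b m => ?_⟩
    obtain ⟨n, -, rfl⟩ := List.mem_map.1 m
    exact ⟨hτ.mem n, fun a m => (hτ.lt a m).trans_le (hτ.mono.monotone (Nat.zero_le n))⟩
  rw [sat_app (Nat.le_add_left k _), sat_app (Nat.le_add_left k _), e _ (by simp), e _ (by simp),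
    ← hk, ← hk]
  exact h4 k' q _ _ (by simp) (pw ι hι).1 (pw ι' hι').1 (pw ι hι).2 (pw ι' hι').2
    fun a m => h1.lower (hι.lt a m).le (h2 (hι.mem 0))

theorem fin (h : Ind A Λ I) (k : ℕ) (q r r' : List On) (h1 : r.length = r'.length)
    (h2 : r.Pairwise (· < ·)) (h3 : r'.Pairwise (· < ·)) (h4 : ∀ b ∈ r, b ∈ I ∧ ∀ a ∈ q, a < b)
    (h5 : ∀ b ∈ r', b ∈ I ∧ ∀ a ∈ q, a < b) (hq : ∀ a ∈ q, a ∈ Λ) :
    Sat A Λ k (lv (r ++ q)) ↔ Sat A Λ k (lv (r' ++ q)) := by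
  exact indb_fin h k q r r' h1 h2 h3 h4 h5 hq

end Ind

theorem indb_seq {I : Set On} (hne : I.Nonempty) (hm : ∀ x ∈ I, ∃ y ∈ I, x < y) {r : List On}
    (hr : ∀ a ∈ r, a ∈ I) : ∃ τ, Inc I r τ := by
  obtain ⟨x, hx, h⟩ : ∃ x ∈ I, ∀ a ∈ r, a < x := by
    induction r with
    | nil => exact hne.imp fun x hx => ⟨hx, fun _ m => absurd m List.not_mem_nil⟩
    | cons b r ih =>
      obtain ⟨x, hx, h⟩ := ih fun a m => hr a (List.mem_cons_of_mem _ m)
      obtain ⟨y, hy, l⟩ := hm b (hr b List.mem_cons_self)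
      rcases le_total x y with c | c
      · exact ⟨y, hy, fun a m =>
          (List.mem_cons.1 m).elim (fun e => e ▸ l) fun e => (h a e).trans_le c⟩
      · exact ⟨x, hx, fun a m => (List.mem_cons.1 m).elim (fun e => e ▸ l.trans_le c) (h a)⟩
  choose! f hf using hm
  have h1 : ∀ n : ℕ, f^[n] x ∈ I := fun n => by
    induction n with
    | zero => exact hx
    | succ n ih => rw [Function.iterate_succ_apply']; exact (hf _ ih).1
  exact ⟨fun n => f^[n] x, strictMono_nat_of_lt_succ fun n => by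
    rw [Function.iterate_succ_apply']; exact (hf _ (h1 n)).2, h1, h⟩

/-- Normal form of a definition from `Y` and elements of a set `I` without maximum. -/
theorem normal_form {A Λ Y I : Set On} (hΛ : Nice Λ) (hY : Y ⊆ Λ) (hI : I ⊆ Λ) (hne : I.Nonempty)
    (hm : ∀ x ∈ I, ∃ y ∈ I, x < y) {x : On} (hx : x ∈ Dcl A Λ (Y ∪ I)) :
    ∃ (k : ℕ) (q : List On) (ι : ℕ → On), (∀ a ∈ q, a ∈ Y) ∧ StrictMono ι ∧ (∀ n, ι n ∈ I) ∧
      ∀ ξ ∈ Λ, Sat A Λ k (app (ξ :: q) ι) ↔ ξ = x := by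
  classical
  obtain ⟨k, p, hp, rfl⟩ := hx
  obtain ⟨r, hr, hs⟩ := Ind.indb_sort (p.filter (· ∈ I))
  have hrI : ∀ a ∈ r, a ∈ I := fun a m => by simpa using (List.mem_filter.1 ((hs a).1 m)).2
  obtain ⟨τ, hτ⟩ := indb_seq hne hm hrI
  have hq : ∀ a ∈ p.filter (· ∈ Y), a ∈ Y := fun a m => by simpa using (List.mem_filter.1 m).2
  have hι : ∀ n, app r τ n ∈ I := app_mem hrI hτ.mem
  have : ∀ i, ∃ n, i < p.length → app (p.filter (· ∈ Y)) (app r τ) n = lv p i := fun i => by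
    by_cases hi : i < p.length
    · have m := Ind.indb_lv_mem hi
      rcases hp _ m with c | c
      · obtain ⟨n, a1, a2⟩ := Ind.indb_idx (p := p.filter (· ∈ Y))
          (List.mem_filter.2 ⟨m, by simpa using c⟩)
        exact ⟨n, fun _ => by rw [app_lt a1, a2]⟩
      · obtain ⟨n, a1, a2⟩ := Ind.indb_idx ((hs _).2 (List.mem_filter.2 ⟨m, by simpa using c⟩))
        exact ⟨_, fun _ => by rw [app_add, app_lt a1, a2]⟩
    · exact ⟨0, fun e => absurd e hi⟩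
  choose g hg using this
  obtain ⟨k1, h1⟩ := exists_lw_eq k
  obtain ⟨k2, h2⟩ := Ind.indb_ren k1 (p.length + 1) (up g)
  refine ⟨k2, p.filter (· ∈ Y), app r τ, hq, Ind.indb_mono hr hτ.mono hτ.lt, hι, fun ξ hξ => ?_⟩
  rw [h2 A Λ _ hΛ (app_mem (fun a m => (List.mem_cons.1 m).elim (fun e => e ▸ hξ)
      fun e => hY (hq a e)) fun n => hI (hι n)),
    ← h1 A Λ ξ p hΛ hξ fun a m => (hp a m).elim (fun c => hY c) fun c => hI c]
  refine sat_irrel fun i _ => ?_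
  cases i with
  | zero => rw [if_pos (Nat.succ_pos _)]; rfl
  | succ i =>
    split_ifs with a
    · exact hg i (Nat.lt_of_succ_lt_succ a)
    · exact (Ind.indb_out (p := p) (i := i) (by omega)).symm

namespace Cert
variable {A Λ I : Set On} {j : On}

theorem iio_subset (h : Cert A Λ j I) : Iio j ⊆ Λ := by
  obtain ⟨ι, h1, -⟩ := h.unb 0 h.nice.zero_mem
  exact fun x hx => h.nice.lower ((le_of_lt hx).trans (h.ge ι h1)) (h.sub h1)

theorem tail (h : Cert A Λ j I) {j' : On} (h1 : j ≤ j') (h2 : j' ∈ Λ) :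
    Cert A Λ j' (I ∩ Ici j') := by
  refine ⟨h.toInd.mono inter_subset_left fun x hx => ?_, h.or.trans (Iio_subset_Iio h1),
    fun ι hι => hι.2, h.gen.trans (dcl_mono ?_)⟩
  · obtain ⟨ι, a1, a2⟩ := h.unb (max x j') (by rcases max_choice x j' with e | e <;> rwa [e])
    exact ⟨ι, ⟨a1, (le_max_right _ _).trans a2.le⟩, (le_max_left _ _).trans_lt a2⟩
  · rintro x (hx | hx)
    · exact Or.inl (lt_of_lt_of_le hx h1)
    · exact (lt_or_ge x j').imp id fun a => ⟨hx, a⟩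

theorem indc_sat (k : ℕ) (g : ℕ → ℕ) :
    MD fun A Λ v => Sat A Λ k (cons (v 0) fun i => v (g i + 1)) :=
  MD.congr (h := MD.rename (fun A Λ v => Sat A Λ k v) (h := MD.sat k) (up g))
    fun _ _ _ _ _ => sat_irrel fun i _ => by cases i <;> rfl

theorem indc_zero (q : List On) (ι : ℕ → On) : app q ι q.length = ι 0 := app_add q ι 0

theorem indc_dcl {Y : Set On} {k : ℕ} {q : List On} {ι : ℕ → On} {x : On} (hx : x ∈ Λ)
    (h1 : x < ι 0) (h2 : ∀ ξ < ι 0, Sat A Λ k (app (ξ :: q) ι) ↔ ξ = x) (hq : ∀ a ∈ q, a ∈ Y)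
    (hι : ∀ n, ι n ∈ Y) : x ∈ Dcl A Λ Y := by
  have e : ∀ ξ, Sat A Λ k (app (ξ :: q) ι) ↔
      Sat A Λ k (lv (ξ :: (q ++ (List.range k).map ι))) := fun ξ =>
    sat_app (q := ξ :: q) (Nat.le_add_left _ _)
  obtain ⟨a1, -, a3⟩ := lw_spec hx ((e x).1 ((h2 x h1).2 rfl))
  refine ⟨k, q ++ (List.range k).map ι, fun a m => ?_, (h2 _ (a1.trans_lt h1)).1 ((e _).2 a3)⟩
  rcases List.mem_append.1 m with m | m
  · exact hq a m
  · obtain ⟨n, -, rfl⟩ := List.mem_map.1 m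
    exact hι n

theorem indc_bound {γ : On} (h0 : 0 < γ) {q : List On} (hq : ∀ a ∈ q, a < γ) :
    ∃ b < γ, ∀ a ∈ q, a ≤ b := by
  induction q with
  | nil => exact ⟨0, h0, fun _ m => absurd m List.not_mem_nil⟩
  | cons c q ih =>
    obtain ⟨b, h1, h2⟩ := ih fun a m => hq a (List.mem_cons_of_mem _ m)
    exact ⟨max b c, max_lt h1 (hq c List.mem_cons_self), fun a m => (List.mem_cons.1 m).elim
      (fun e => e ▸ le_max_right _ _) fun m => (h2 a m).trans (le_max_left _ _)⟩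

/-- Every element is defined from parameters in `j ∪ (I ∩ γ)` and any indiscernibles above it and
above `γ`. -/
theorem normal (h : Cert A Λ j I) {γ x : On} (hγ : γ ∈ Λ) (hx : x ∈ Λ)
    (hl : ∀ ι ∈ I, γ ≤ ι → x < ι) : ∃ (k : ℕ) (q : List On), (∀ a ∈ q, a < j ∨ (a ∈ I ∧ a < γ)) ∧
      ∀ ι, StrictMono ι → (∀ n, ι n ∈ I ∧ γ ≤ ι n) →
        ∀ ξ < ι 0, Sat A Λ k (app (ξ :: q) ι) ↔ ξ = x := by
  have ht : ∀ y ∈ Λ, γ ≤ y → ∃ ι ∈ I ∩ Ici γ, y < ι := fun y hy a => by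
    obtain ⟨ι, a1, a2⟩ := h.unb y hy
    exact ⟨ι, ⟨a1, a.trans a2.le⟩, a2⟩
  obtain ⟨k, q, ι₀, a1, a2, a3, a4⟩ := normal_form (A := A) (Y := Iio j ∪ I ∩ Iio γ)
    (I := I ∩ Ici γ) (x := x) h.nice
    (union_subset h.iio_subset (inter_subset_left.trans h.sub)) (inter_subset_left.trans h.sub)
    ((ht γ hγ le_rfl).imp fun _ a => a.1) (fun y hy => ht y (h.sub hy.1) hy.2)
    (dcl_mono (by
      rintro y (hy | hy)
      · exact Or.inl (Or.inl hy)
      · exact (lt_or_ge y γ).imp (fun a => Or.inr ⟨hy, a⟩) fun a => ⟨hy, a⟩) (h.gen hx))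
  have inc : ∀ ι, StrictMono ι → (∀ n, ι n ∈ I ∧ γ ≤ ι n) → Inc I (x :: q) ι := fun ι b1 b2 =>
    ⟨b1, fun n => (b2 n).1, fun a m => (List.mem_cons.1 m).elim
      (fun e => e ▸ hl _ (b2 0).1 (b2 0).2) fun m => (a1 a m).elim
        (fun c => lt_of_lt_of_le c (h.ge _ (b2 0).1)) fun c => lt_of_lt_of_le c.2 (b2 0).2⟩
  refine ⟨k, q, a1, fun ι b1 b2 => ?_⟩
  have := indc_sat k (· + 1)
  have key := h.toInd.md (fun A Λ v => ∀ ξ, ξ < v (q.length + 1) →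
    (Sat A Λ k (cons ξ fun i => v (i + 1)) ↔ ξ = v 0)) (inc ι₀ a2 a3) (inc ι b1 b2)
  simp only [app_cons, cons_succ, cons_zero, indc_zero] at key
  exact key.1 fun ξ hξ => a4 ξ (h.nice.lower hξ.le (h.sub (a3 0).1))

/-- An ordinal above `j` that is not an indiscernible is defined from smaller parameters and
larger indiscernibles. -/
theorem not_mem (h : Cert A Λ j I) {x : On} (hx : x ∈ Λ) (h1 : j ≤ x) (h2 : x ∉ I) :
    ∃ (k : ℕ) (q : List On), (∀ a ∈ q, a < j ∨ (a ∈ I ∧ a < x)) ∧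
      ∀ ι, Inc I [x] ι → ∀ ξ < ι 0, Sat A Λ k (app (ξ :: q) ι) ↔ ξ = x := by
  obtain ⟨k, q, a1, a2⟩ := h.normal hx hx fun ι b1 b2 => lt_of_le_of_ne b2 fun e => h2 (e ▸ b1)
  exact ⟨k, q, a1, fun ι hι => a2 ι hι.mono fun n => ⟨hι.mem n,
    (hι.lt x List.mem_cons_self).le.trans (hι.mono.monotone (Nat.zero_le n))⟩⟩

/-- Hint: let `γ ∉ I` be a limit of `I`, defined by `not_mem`; take `ι₀ ∈ I` between `q` and `γ`
and shift the statement that there is a solution below the first indiscernible. -/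
theorem clb (h : Cert A Λ j I) : Clb Λ I := by
  refine ⟨h.sub, h.unb, fun γ hγ h0 hl => by_contra fun hn => ?_⟩
  have hj : j ≤ γ := by
    obtain ⟨y, a1, -, a2⟩ := hl 0 h0
    exact (h.ge y a1).trans a2.le
  obtain ⟨k, q, a1, a2⟩ := h.not_mem hγ hj hn
  obtain ⟨b, b1, b2⟩ := indc_bound h0 (q := q) fun a m =>
    (a1 a m).elim (fun c => c.trans_le hj) fun c => c.2
  obtain ⟨ι₀, c1, c2, c3⟩ := hl b b1
  obtain ⟨ι, hι⟩ := h.toInd.exists_inc (q := [γ]) fun a m => by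
    rw [List.mem_singleton.1 m]; exact hγ
  have d0 : γ < ι 0 := hι.lt γ List.mem_cons_self
  have m' : StrictMono (cons ι₀ fun n => ι (n + 1)) := strictMono_nat_of_lt_succ fun n => by
    cases n with
    | zero => exact (c3.trans d0).trans (hι.mono (Nat.lt_succ_self 0))
    | succ n => exact hι.mono (Nat.lt_succ_self _)
  have i1 : ∀ r : List On, (∀ a ∈ r, a < ι₀) → Inc I r ι := fun r hr =>
    ⟨hι.mono, hι.mem, fun a m => (hr a m).trans (c3.trans d0)⟩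
  have i2 : ∀ r : List On, (∀ a ∈ r, a < ι₀) → Inc I r (cons ι₀ fun n => ι (n + 1)) :=
    fun r hr => ⟨m', cons_mem c1 fun n => hι.mem _, hr⟩
  have hq : ∀ a ∈ q, a < ι₀ := fun a m => (b2 a m).trans_lt c2
  have : MD fun A Λ v => Sat A Λ k (cons (v 0) fun i => v (i + 1)) := indc_sat k id
  have key := h.toInd.md (fun A Λ v => ∃ ξ, ξ < v q.length ∧ Sat A Λ k (cons ξ v))
    (i1 q hq) (i2 q hq)
  simp only [indc_zero, cons_zero] at key
  obtain ⟨ξ, e1, e2⟩ := key.1 ⟨γ, d0, (a2 ι hι γ d0).2 rfl⟩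
  have hr : ∀ a ∈ ξ :: q, a < ι₀ := fun a m => (List.mem_cons.1 m).elim (fun e => e ▸ e1) (hq a)
  exact (e1.trans c3).ne ((a2 ι hι ξ (e1.trans (c3.trans d0))).1
    (h.ind k (ξ :: q) _ _ (i2 _ hr) (i1 _ hr) e2))

theorem restrict (h : Cert A Λ j I) {γ : On} (h0 : 0 < γ)
    (h1 : ∀ x < γ, ∃ ι ∈ I, x < ι ∧ ι < γ) : Cert A (Iio γ) j (I ∩ Iio γ) := by
  obtain ⟨a1, a2⟩ := h.toInd.restrict h0 h1
  refine ⟨a2, h.or, fun ι hι => h.ge ι hι.1, fun x hx => ?_⟩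
  obtain ⟨ι₁, b1, b2, b3⟩ := h1 x hx
  rw [a1.dcl h.nice (isLowerSet_Iio γ)
    (union_subset (Iio_subset_Iio ((h.ge _ b1).trans b3.le)) inter_subset_right)]
  obtain ⟨k, q, c1, c2⟩ := h.normal (h.sub b1) (a1.sub hx) fun ι _ d => b2.trans_le d
  obtain ⟨ι, hι⟩ := a2.exists_inc (q := [ι₁]) fun a m => by
    rw [List.mem_singleton.1 m]; exact b3
  have d0 : ι₁ < ι 0 := hι.lt ι₁ List.mem_cons_self
  exact indc_dcl (a1.sub hx) (b2.trans d0) (c2 ι hι.mono fun n => ⟨(hι.mem n).1,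
    d0.le.trans (hι.mono.monotone (Nat.zero_le n))⟩)
    (fun a m => (c1 a m).imp id fun c => ⟨c.1, c.2.trans b3⟩) fun n => Or.inr (hι.mem n)

/-- A certificate is elementary in its extensions. -/
theorem tv_ext (h : Cert A Λ j I) {Λ' I' : Set On} (h' : Ind A Λ' I') (h1 : I ⊆ I') :
    TV A Λ' Λ := by
  refine ⟨fun x hx => ?_, fun k q hq hs => ?_⟩
  · obtain ⟨ι, a1, a2⟩ := h.unb x hx
    exact h'.nice.lower a2.le (h'.sub (h1 a1))
  · obtain ⟨ι, hι⟩ := h.toInd.exists_inc hq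
    obtain ⟨ξ, a1, a2⟩ := (h'.tv (h1 (hι.mem 0))).wit k q hι.lt hs
    exact ⟨ξ, h.nice.lower (le_of_lt a1) (h.sub (hι.mem 0)), a2⟩

theorem indd_lv (ρ : On → On) {l : List On} {a : On} (h : a ∈ l) :
    ∃ n, lv l n = a ∧ lv (l.map ρ) n = ρ a := by
  induction l with
  | nil => exact absurd h List.not_mem_nil
  | cons b l ih =>
    rcases List.mem_cons.1 h with e | m
    · exact ⟨0, e.symm, by rw [e]; rfl⟩
    · obtain ⟨n, h1, h2⟩ := ih m
      exact ⟨n + 1, h1, h2⟩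

theorem indd_list (h : Cert A Λ j I) {Λ₁ I₁ : Set On} (h1 : Cert A Λ₁ j I₁) (e1 : I ⊆ I₁) (k : ℕ)
    {js q : List On} {ρ σ : On → On} (m1 : StrictMonoOn ρ {y | y ∈ js})
    (m2 : StrictMonoOn σ {y | y ∈ js}) (hρ : ∀ y ∈ js, ρ y ∈ I₁) (hσ : ∀ y ∈ js, σ y ∈ I)
    (hq : ∀ a ∈ q, a < j) :
    Sat A Λ₁ k (lv (js.map ρ ++ q)) ↔ Sat A Λ k (lv (js.map σ ++ q)) := by
  rw [h1.toInd.any k js q ρ σ m1 m2
    (fun y m => ⟨hρ y m, fun a ha => (hq a ha).trans_le (h1.ge _ (hρ y m))⟩)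
    (fun y m => ⟨e1 (hσ y m), fun a ha => (hq a ha).trans_le (h.ge _ (hσ y m))⟩)
    fun a ha => h1.iio_subset (hq a ha)]
  refine ((h.tv_ext h1.toInd e1).sat h1.nice h.nice.lower (lv_mem h.nice.zero_mem ?_)).symm
  intro a ha
  rcases List.mem_append.1 ha with m | m
  · obtain ⟨y, m', rfl⟩ := List.mem_map.1 m
    exact h.sub (hσ y m')
  · exact h.iio_subset (hq a m)

theorem indd_sat (h : Cert A Λ j I) {Λ₁ Λ₂ I₁ I₂ : Set On} (h1 : Cert A Λ₁ j I₁)
    (h2 : Cert A Λ₂ j I₂) (e1 : I ⊆ I₁) (e2 : I ⊆ I₂) {S : Set On} {ρ : On → On} (hS : S ⊆ I₁)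
    (hm : StrictMonoOn ρ S) (hρ : ∀ y ∈ S, ρ y ∈ I₂) (hj : ∀ y < j, ρ y = y) (k : ℕ) {v : ℕ → On}
    (hv : ∀ i, v i < j ∨ v i ∈ S) : Sat A Λ₁ k v ↔ Sat A Λ₂ k (ρ ∘ v) := by
  classical
  obtain ⟨ι, hι⟩ := h.toInd.exists_inc (q := []) fun a m => absurd m List.not_mem_nil
  obtain ⟨js, hjs⟩ : ∃ js : List On, ∀ y, y ∈ js ↔ y ∈ (List.range k).map v ∧ y ∈ S :=
    ⟨((List.range k).map v).filter (· ∈ S), fun y => by simp [List.mem_filter]⟩
  obtain ⟨q, hq⟩ : ∃ q : List On, ∀ y, y ∈ q ↔ y ∈ (List.range k).map v ∧ y < j :=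
    ⟨((List.range k).map v).filter (· < j), fun y => by simp [List.mem_filter]⟩
  have hσ : StrictMonoOn (fun y => ι (js.toFinset.filter (· < y)).card) {y | y ∈ js} := by
    intro y hy z _ hyz
    refine hι.mono (Finset.card_lt_card ⟨fun w hw => ?_, fun hs => ?_⟩)
    · exact Finset.mem_filter.2 ⟨(Finset.mem_filter.1 hw).1, (Finset.mem_filter.1 hw).2.trans hyz⟩
    · exact lt_irrefl y
        (Finset.mem_filter.1 (hs (Finset.mem_filter.2 ⟨List.mem_toFinset.2 hy, hyz⟩))).2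
  have hg : ∀ i, ∃ n, i < k → lv (js ++ q) n = v i ∧ lv ((js ++ q).map ρ) n = ρ (v i) := by
    intro i
    by_cases hi : i < k
    · have m : v i ∈ (List.range k).map v := List.mem_map_of_mem (List.mem_range.2 hi)
      obtain ⟨n, hn⟩ := indd_lv ρ (l := js ++ q) (a := v i) (List.mem_append.2
        ((hv i).elim (fun a => Or.inr ((hq _).2 ⟨m, a⟩)) fun a => Or.inl ((hjs _).2 ⟨m, a⟩)))
      exact ⟨n, fun _ => hn⟩
    · exact ⟨0, fun a => absurd a hi⟩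
  choose g hg using hg
  obtain ⟨k', hk⟩ := exists_ren k g
  have a1 := indd_list h h1 e1 k' (js := js) (q := q) (ρ := id) (fun _ _ _ _ a => a) hσ
    (fun y m => hS ((hjs y).1 m).2) (fun y _ => hι.mem _) fun a m => ((hq a).1 m).2
  have a2 := indd_list h h2 e2 k' (js := js) (q := q) (ρ := ρ)
    (hm.mono fun y m => ((hjs y).1 m).2) hσ
    (fun y m => hρ y ((hjs y).1 m).2) (fun y _ => hι.mem _) fun a m => ((hq a).1 m).2
  have e : js.map ρ ++ q = (js ++ q).map ρ := by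
    rw [List.map_append]
    congr 1
    exact ((List.map_congr_left fun a m => hj a ((hq a).1 m).2).trans (List.map_id q)).symm
  rw [List.map_id] at a1
  rw [e] at a2
  have a3 := a1.trans a2.symm
  rw [hk, hk] at a3
  exact (sat_irrel fun i hi => (hg i hi).1.symm).trans
    (a3.trans (sat_irrel fun i hi => (hg i hi).2))

theorem indd_md (h : Cert A Λ j I) {Λ₁ Λ₂ I₁ I₂ : Set On} (h1 : Cert A Λ₁ j I₁)
    (h2 : Cert A Λ₂ j I₂) (e1 : I ⊆ I₁) (e2 : I ⊆ I₂) {S : Set On} {ρ : On → On} (hS : S ⊆ I₁)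
    (hm : StrictMonoOn ρ S) (hρ : ∀ y ∈ S, ρ y ∈ I₂) (hj : ∀ y < j, ρ y = y)
    (P : Set On → Set On → (ℕ → On) → Prop) [MD P] {v : ℕ → On}
    (hv : ∀ i, v i < j ∨ v i ∈ S) : P A Λ₁ v ↔ P A Λ₂ (ρ ∘ v) := by
  obtain ⟨k, hk⟩ := MD.ex (P := P)
  rw [← hk A Λ₁ v h1.nice fun i => (hv i).elim (fun a => h1.iio_subset a) fun a => h1.sub (hS a),
    ← hk A Λ₂ (ρ ∘ v) h2.nice fun i => (hv i).elim
      (fun a => mem_of_eq_of_mem (hj _ a) (h2.iio_subset a)) fun a => h2.sub (hρ _ a)]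
  exact indd_sat h h1 h2 e1 e2 hS hm hρ hj k hv

theorem indd_ren (k a : ℕ) (g : ℕ → ℕ) :
    MD fun A Λ v => Sat A Λ k (cons (v a) fun i => v (g i)) :=
  MD.congr (h := MD.rename (fun A Λ v => Sat A Λ k v) (h := MD.sat k)
    fun n => n.casesOn a g) fun _ _ _ _ _ => sat_irrel fun i _ => by cases i <;> rfl

theorem indd_step (h : Cert A Λ j I) {Λ₁ Λ₂ I₁ I₂ : Set On} (h1 : Cert A Λ₁ j I₁)
    (h2 : Cert A Λ₂ j I₂) (e1 : I ⊆ I₁) (e2 : I ⊆ I₂) {x : On} (x1 : x ∈ I₁) (x2 : x ∈ Λ₂)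
    (ih : ∀ y < x, y ∈ I₂ → y ∈ I₁) : x ∈ I₂ := by
  classical
  by_contra hx
  obtain ⟨ι, hι⟩ := h2.toInd.exists_inc (q := [x]) fun a m => List.mem_singleton.1 m ▸ x2
  obtain ⟨κ, hκ⟩ := h1.toInd.exists_inc (q := [x]) fun a m => List.mem_singleton.1 m ▸ h1.sub x1
  have hι0 : ∀ n, x < ι n := fun n =>
    (hι.lt x (List.mem_singleton_self x)).trans_le (hι.mono.monotone (Nat.zero_le n))
  have hκm : StrictMono (cons x κ) := strictMono_nat_of_lt_succ fun n => by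
    cases n with
    | zero => exact hκ.lt x (List.mem_singleton_self x)
    | succ n => exact hκ.mono (Nat.lt_succ_self n)
  have hκ0 : ∀ n, x ≤ cons x κ n := fun n => hκm.monotone (Nat.zero_le n)
  have hκI : ∀ n, cons x κ n ∈ I₁ := fun n => by
    cases n with
    | zero => exact x1
    | succ n => exact hκ.mem n
  obtain ⟨ρ, r1, r2⟩ : ∃ ρ : On → On, (∀ y < x, ρ y = y) ∧ ∀ n, ρ (ι n) = cons x κ n :=
    ⟨fun y => if y < x then y else cons x κ (Function.invFun ι y), fun y hy => if_pos hy,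
      fun n => by
        simp only [if_neg (hι0 n).not_gt]
        rw [Function.leftInverse_invFun hι.mono.injective n]⟩
  have T := fun (P : Set On → Set On → (ℕ → On) → Prop) [MD P] (v : ℕ → On) =>
    indd_md h h2 h1 e2 e1 (S := (I₂ ∩ Iio x) ∪ range ι) (ρ := ρ) ?_ ?_ ?_
      (fun y hy => r1 y (hy.trans_le (h1.ge x x1))) P (v := v)
  rotate_left
  · rintro y (hy | ⟨n, rfl⟩)
    · exact hy.1
    · exact hι.mem n
  · rintro y (hy | ⟨n, rfl⟩) z (hz | ⟨m, rfl⟩) hyz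
    · rwa [r1 y hy.2, r1 z hz.2]
    · rw [r1 y hy.2, r2]
      exact lt_of_lt_of_le hy.2 (hκ0 m)
    · exact absurd (hyz.trans hz.2) (hι0 n).not_gt
    · rw [r2, r2]
      exact hκm (hι.mono.lt_iff_lt.1 hyz)
  · rintro y (hy | ⟨n, rfl⟩)
    · rw [r1 y hy.2]
      exact ih y hy.2 hy.1
    · rw [r2]
      exact hκI n
  have hd : ∀ z, ∃ (k : ℕ) (v : ℕ → On), z ≤ x → v 0 = ι 0 ∧
      (∀ i, v i < j ∨ v i ∈ (I₂ ∩ Iio x) ∪ range ι) ∧
      ∀ ξ < ι 0, Sat A Λ₂ k (cons ξ fun i => v (i + 1)) ↔ ξ = z := by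
    intro z
    by_cases hz : z ≤ x
    · obtain ⟨k, q, a1, a2⟩ := h2.normal (γ := x) (x := z) x2 (h2.nice.lower hz x2)
        fun y m a => hz.trans_lt (lt_of_le_of_ne a fun e => hx (e ▸ m))
      refine ⟨k, cons (ι 0) (app q ι), fun _ => ⟨rfl, ?_,
        a2 ι hι.mono fun n => ⟨hι.mem n, (hι0 n).le⟩⟩⟩
      rintro (_ | i)
      · exact Or.inr (Or.inr ⟨0, rfl⟩)
      · exact app_mem (Λ := {y | y < j ∨ y ∈ (I₂ ∩ Iio x) ∪ range ι})
          (fun a m => (a1 a m).imp id fun b => Or.inl b) (fun n => Or.inr (Or.inr ⟨n, rfl⟩)) i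
    · exact ⟨0, fun _ => 0, fun a => absurd a hz⟩
  choose k v hd using hd
  have hF : ∀ z, ∃ ξ, z ≤ x → ξ < x ∧ Sat A Λ₁ (k z) (cons ξ fun i => ρ (v z (i + 1))) := by
    intro z
    by_cases hz : z ≤ x
    · obtain ⟨a1, a2, a3⟩ := hd z hz
      have := indd_ren (k z) 0 fun i => i + 2
      obtain ⟨ξ, b1, b2⟩ := (T (fun A Λ w => ∃ ξ, ξ < w 0 ∧
        Sat A Λ (k z) (cons ξ fun i => w (i + 1))) (v z) a2).1
          ⟨z, a1 ▸ hz.trans_lt (hι0 0), (a3 z (hz.trans_lt (hι0 0))).2 rfl⟩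
      refine ⟨ξ, fun _ => ⟨?_, b2⟩⟩
      rwa [Function.comp_apply, a1, r2] at b1
    · exact ⟨0, fun a => absurd a hz⟩
  choose F hF using hF
  have hm : ∀ z z', z < z' → z' ≤ x → F z < F z' := by
    intro z z' hz hz'
    obtain ⟨a1, a2, a3⟩ := hd z (hz.le.trans hz')
    obtain ⟨b1, b2, b3⟩ := hd z' hz'
    obtain ⟨w, w1, w2⟩ : ∃ w : ℕ → On, (∀ i, w (2 * i) = v z i) ∧ ∀ i, w (2 * i + 1) = v z' i :=
      ⟨fun n => if n % 2 = 0 then v z (n / 2) else v z' (n / 2),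
        fun i => by simp, fun i => by
          have e1 : (2 * i + 1) % 2 ≠ 0 := by omega
          have e2 : (2 * i + 1) / 2 = i := by omega
          simp only [if_neg e1, e2]⟩
    have hw : ∀ i, w i < j ∨ w i ∈ (I₂ ∩ Iio x) ∪ range ι := by
      intro i
      rcases Nat.even_or_odd' i with ⟨n, rfl | rfl⟩
      · rw [w1]
        exact a2 n
      · rw [w2]
        exact b2 n
    have w0 : w 0 = ι 0 := (w1 0).trans a1
    have := indd_ren (k z) 1 fun i => 2 * (i + 1) + 2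
    have := indd_ren (k z') 0 fun i => 2 * (i + 1) + 1 + 2
    have c := (T (fun A Λ w => ∀ ξ, ξ < w 0 → ∀ ξ', ξ' < w 0 →
      Sat A Λ (k z) (cons ξ fun i => w (2 * (i + 1))) →
      Sat A Λ (k z') (cons ξ' fun i => w (2 * (i + 1) + 1)) → ξ < ξ') w hw).1 (by
        intro ξ c1 ξ' c2 c3 c4
        simp only [w1] at c3
        simp only [w2] at c4
        rw [(a3 ξ (w0 ▸ c1)).1 c3, (b3 ξ' (w0 ▸ c2)).1 c4]
        exact hz)
    simp only [Function.comp_apply, w0, w1, w2, r2, cons_zero] at c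
    exact c _ (hF z (hz.le.trans hz')).1 _ (hF z' hz').1 (hF z (hz.le.trans hz')).2 (hF z' hz').2
  have hle : ∀ z, z ≤ x → z ≤ F z := by
    intro z
    induction z using WellFoundedLT.induction with
    | _ z ih' =>
      intro hz
      by_contra hn
      have hn := not_le.1 hn
      exact (ih' _ hn (hn.le.trans hz)).not_gt (hm _ _ hn hz)
  exact (hle x le_rfl).not_gt (hF x le_rfl).1

/-- Uniqueness of extensions.  Hint: strong induction; if `I₁` and `I₂` agree below `γ` and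
`ι₁, ι₂` are their next elements, `normal` gives an order isomorphism of `Iio ι₁` onto `Iio ι₂`:
both structures have the same theory of indiscernibles over `j` (by `tv_ext` and `Ind.any`). -/
theorem unique (h : Cert A Λ j I) {Λ₁ Λ₂ I₁ I₂ : Set On} (h1 : Cert A Λ₁ j I₁)
    (h2 : Cert A Λ₂ j I₂) (e1 : I ⊆ I₁) (e2 : I ⊆ I₂) {x : On} (x1 : x ∈ Λ₁) (x2 : x ∈ Λ₂) :
    x ∈ I₁ ↔ x ∈ I₂ := by
  induction x using WellFoundedLT.induction with
  | _ x ih =>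
    have a := fun y (hy : y < x) => ih y hy (h1.nice.lower hy.le x1) (h2.nice.lower hy.le x2)
    exact ⟨fun m => indd_step h h1 h2 e1 e2 m x2 fun y hy => (a y hy).2,
      fun m => indd_step h h2 h1 e2 e1 m x1 fun y hy => (a y hy).1⟩

/-- The union of extensions of a certificate. -/
theorem iUnion (h : Cert A Λ j I) {ι : Sort*} [Nonempty ι] {Ls Is : ι → Set On}
    (h1 : ∀ i, Cert A (Ls i) j (Is i)) (h2 : ∀ i, I ⊆ Is i) :
    Cert A (⋃ i, Ls i) j (⋃ i, Is i) := by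
  have hE : ∀ i, ∀ a ∈ ⋃ i, Is i, a ∈ Ls i → a ∈ Is i := by
    intro i a ha m
    obtain ⟨i', m'⟩ := mem_iUnion.1 ha
    exact (h.unique (h1 i') (h1 i) (h2 i') (h2 i) ((h1 i').sub m') m).1 m'
  have hq : ∀ q : List On, (∀ a ∈ q, a ∈ ⋃ i, Ls i) → ∃ i, ∀ a ∈ q, a ∈ Ls i := by
    intro q hq
    induction q with
    | nil => exact ⟨Classical.arbitrary ι, fun a m => absurd m List.not_mem_nil⟩
    | cons b q ih =>
      obtain ⟨i, hi⟩ := ih fun a m => hq a (List.mem_cons_of_mem _ m)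
      obtain ⟨i', hi'⟩ := mem_iUnion.1 (hq b List.mem_cons_self)
      rcases (h1 i).nice.lower.total (h1 i').nice.lower with s | s
      · exact ⟨i', fun a m => (List.mem_cons.1 m).elim (fun e => e ▸ hi') fun m => s (hi a m)⟩
      · exact ⟨i, fun a m => (List.mem_cons.1 m).elim (fun e => e ▸ s hi') (hi a)⟩
  have hs : (⋃ i, Is i) ⊆ ⋃ i, Ls i := iUnion_mono fun i => (h1 i).sub
  have hu : ∀ x ∈ ⋃ i, Ls i, ∃ l ∈ ⋃ i, Is i, x < l := by
    intro x hx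
    obtain ⟨i, m⟩ := mem_iUnion.1 hx
    obtain ⟨l, a1, a2⟩ := (h1 i).unb x m
    exact ⟨l, mem_iUnion.2 ⟨i, a1⟩, a2⟩
  obtain ⟨hN, hT⟩ := tv_chain (A := A) (isLowerSet_iUnion fun i => (h1 i).nice.lower) hs hu
    (fun l m => by
      obtain ⟨i, m⟩ := mem_iUnion.1 m
      exact ((h1 i).toInd.tv m).nice (h1 i).nice (isLowerSet_Iio l))
    (fun l m l' m' a => by
      obtain ⟨i, m'⟩ := mem_iUnion.1 m'
      have b := hE i l m ((h1 i).nice.lower a.le ((h1 i).sub m'))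
      have c := ((h1 i).toInd.tv m').inter (h1 i).nice (isLowerSet_Iio l') ((h1 i).toInd.tv b)
      rwa [Iio_inter_Iio, min_eq_left a.le] at c)
    ((h1 (Classical.arbitrary ι)).nice.ne.mono (subset_iUnion Ls _))
  have hV : ∀ i, TV A (⋃ i, Ls i) (Ls i) := by
    refine fun i => ⟨subset_iUnion Ls i, fun k q a b => ?_⟩
    obtain ⟨κ, hκ⟩ := (h1 i).toInd.exists_inc a
    obtain ⟨ξ, c1, c2⟩ := (hT (κ 0) (mem_iUnion.2 ⟨i, hκ.mem 0⟩)).wit k q hκ.lt b
    exact ⟨ξ, (h1 i).nice.lower (le_of_lt c1) ((h1 i).sub (hκ.mem 0)), c2⟩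
  refine ⟨Ind.of_fin hN hs hu fun k q r r' a1 a2 a3 a4 a5 a6 a7 => ?_, h.or, fun x m => ?_,
    fun x m => ?_⟩
  · obtain ⟨i, hi⟩ := hq (r ++ (r' ++ q)) fun a m => (List.mem_append.1 m).elim
      (fun m => hs (a4 a m).1) fun m => (List.mem_append.1 m).elim (fun m => hs (a5 a m).1) (a6 a)
    have b1 : ∀ a ∈ r, a ∈ Ls i := fun a m => hi a (by simp [m])
    have b2 : ∀ a ∈ r', a ∈ Ls i := fun a m => hi a (by simp [m])
    have b3 : ∀ a ∈ q, a ∈ Ls i := fun a m => hi a (by simp [m])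
    have s := fun (r : List On) (b : ∀ a ∈ r, a ∈ Ls i) => (hV i).sat hN (h1 i).nice.lower (k := k)
      (lv_mem (q := r ++ q) (h1 i).nice.zero_mem
        fun a m => (List.mem_append.1 m).elim (b a) (b3 a))
    rw [← s r b1] at a7
    rw [← s r' b2]
    exact ((h1 i).toInd.fin k q r r' a1 a2 a3 (fun b m => ⟨hE i b (a4 b m).1 (b1 b m), (a4 b m).2⟩)
      (fun b m => ⟨hE i b (a5 b m).1 (b2 b m), (a5 b m).2⟩) b3).1 a7
  · obtain ⟨i, m⟩ := mem_iUnion.1 m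
    exact (h1 i).ge x m
  · obtain ⟨i, m⟩ := mem_iUnion.1 m
    have a := (h1 i).gen m
    rw [(hV i).dcl hN (h1 i).nice.lower (union_subset (h1 i).iio_subset (h1 i).sub)] at a
    exact dcl_mono (union_subset_union_right _ (subset_iUnion Is i)) a

/-- The least indiscernible above `μ ≥ j` is reached by definitions from `μ`.  Hence a nice
cardinal is a limit of indiscernibles, if the definitions are available to names in `Λ'`. -/
theorem below (h : Cert A univ j I) {μ x : On} (h1 : j ≤ μ) (h2 : ∀ ι ∈ I, μ ≤ ι → x < ι) :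
    ∃ (k : ℕ) (q : List On), (∀ a ∈ q, a < μ) ∧
      ∀ ι, Inc I [x, μ] ι → ∀ ξ < ι 0, Sat A univ k (app (ξ :: q) ι) ↔ ξ = x := by
  obtain ⟨k, q, a1, a2⟩ := h.normal (mem_univ μ) (mem_univ x) h2
  exact ⟨k, q, fun a m => (a1 a m).elim (fun c => c.trans_le h1) fun c => c.2,
    fun ι hι => a2 ι hι.mono fun n => ⟨hι.mem n,
      (hι.lt μ (by simp)).le.trans (hι.mono.monotone (Nat.zero_le n))⟩⟩

end Cert

/-- Uncountable cardinals are limits of generating indiscernibles (count with `Cert.below`). -/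
theorem Cert.ord {A I : Set On} {j : On} (h : Cert A univ j I) {κ : Cardinal.{0}}
    (h1 : Cardinal.aleph0 < κ) (h2 : j < κ.ord) : ∀ x < κ.ord, ∃ ι ∈ I, x < ι ∧ ι < κ.ord := by
  intro x hx
  by_contra hn
  have hμ : max j (x + 1) < κ.ord := max_lt h2 ((Cardinal.isSuccLimit_ord h1.le).add_one_lt hx)
  obtain ⟨ι, hι⟩ := h.toInd.exists_inc (q := [κ.ord]) fun a _ => mem_univ a
  have d0 : κ.ord < ι 0 := hι.lt _ List.mem_cons_self
  have hs : Iio κ.ord ⊆ Dcl A univ (Iio (max j (x + 1)) ∪ range ι) := fun y hy => by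
    obtain ⟨k, q, a1, a2⟩ := h.below (x := y) (le_max_left j (x + 1)) fun l b1 b2 =>
      lt_of_lt_of_le hy (not_lt.1 fun c =>
        hn ⟨l, b1, (lt_add_one x).trans_le ((le_max_right _ _).trans b2), c⟩)
    refine Cert.indc_dcl (mem_univ y) (lt_trans hy d0) (a2 ι ⟨hι.mono, hι.mem, fun a m => ?_⟩)
      (fun a m => Or.inl (a1 a m)) fun n => Or.inr ⟨n, rfl⟩
    simp only [List.mem_cons, List.not_mem_nil, or_false] at m
    rcases m with rfl | rfl
    exacts [lt_trans hy d0, hμ.trans d0]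
  have c1 := (Cardinal.mk_le_mk_of_subset hs).trans card_dcl
  have c2 : Cardinal.aleph0.{1} < Cardinal.lift.{1} κ := Cardinal.aleph0_lt_lift.2 h1
  rw [Cardinal.mk_Iio_ordinal, Cardinal.card_ord] at c1
  refine c1.not_gt (max_lt ((Cardinal.mk_union_le _ _).trans_lt
    (Cardinal.add_lt_of_lt c2.le ?_ ?_)) c2)
  · rw [Cardinal.mk_Iio_ordinal]
    exact Cardinal.lift_lt.2 (Cardinal.lt_ord.1 hμ)
  · exact (Cardinal.le_aleph0_iff_set_countable.2 (countable_range ι)).trans_lt c2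

end Pool.Agent.MP_fd3eaf_lc

end
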