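import Pool.Agent.MP_fd3eaf_lc.Mg.Ind

-- part MP_fd3eaf_lc.Sharp
section

/-!
Sharps for oracles and the oracle `SS` that records the theories of all indiscernibles.
-/

set_option autoImplicit false

namespace Pool.Agent.MP_fd3eaf_lc

open Set Ordinal

/-- The formula `k` holds of `q` and club many indiscernibles. -/
def Sh (A : Set On) (k : ℕ) (q : List On) : Prop :=
  ∃ I, Clb univ I ∧ ∀ ι : ℕ → On, StrictMono ι → (∀ n, ι n ∈ I) → Sat A univ k (app q ι)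

def HasSharp (A : Set On) : Prop := ∃ I, Clb univ I ∧ Ind A univ I

theorem sh_iff {A I : Set On} (h1 : Clb univ I) (h2 : Ind A univ I) {k : ℕ} {q : List On}
    {ι : ℕ → On} (h : Inc I q ι) : Sh A k q ↔ Sat A univ k (app q ι) := by
  refine ⟨fun ⟨J, hJ, hs⟩ => ?_, fun hs => ⟨I ∩ Ici (ι 0), h1.tail isLowerSet_univ (mem_univ _),
    fun ι' a1 a2 => h2.ind k q ι ι' h ⟨a1, fun n => (a2 n).1, fun a m =>
      (h.lt a m).trans_le (a2 0).2⟩ hs⟩⟩
  obtain ⟨ι', a⟩ := (h2.mono inter_subset_left (h1.inter uc_univ hJ).unb).exists_inc (q := q)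
    fun _ _ => mem_univ _
  exact h2.ind k q ι' ι ⟨a.mono, fun n => (a.mem n).1, a.lt⟩ h (hs ι' a.mono fun n => (a.mem n).2)

theorem HasSharp.inter {A : Set On} (h : HasSharp A) (e : On) : HasSharp (A ∩ Iio e) := by
  obtain ⟨I, h1, h2⟩ := h
  have h3 := h1.tail isLowerSet_univ (mem_univ (e + 1))
  exact ⟨_, h3, (h2.mono inter_subset_left h3.unb).inter_or fun ι hι =>
    (lt_add_one e).trans_le hι.2⟩

/-- Collapsing the hull of `Y` and a club of indiscernibles. -/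
theorem sharpa_col {A I Y : Set On} (h1 : Clb univ I) (h2 : Ind A univ I) :
    ∃ f : On → On, StrictMono f ∧ range f = Dcl A univ (Y ∪ I) ∧ Elem (f ⁻¹' A) A univ univ f ∧
      Clb univ (f ⁻¹' I) ∧ Ind (f ⁻¹' A) univ (f ⁻¹' I) := by
  have hs : Y ∪ I ⊆ Dcl A univ (Y ∪ I) := subset_dcl nice_univ (subset_univ _)
  have hu : ¬ BddAbove (Dcl A univ (Y ∪ I)) := fun ⟨b, hb⟩ => by
    obtain ⟨y, a1, a2⟩ := h1.unb b (mem_univ _)
    exact a2.not_ge (hb (hs (Or.inr a1)))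
  have hf := enumOrd_strictMono hu
  have hr := range_enumOrd hu
  have he := (dcl_tv (A := A) nice_univ (subset_univ (Y ∪ I))).elem nice_univ isLowerSet_univ
    (hf.strictMonoOn _) (image_univ.trans hr)
  have hc := h1.preimage hf (by rw [hr]; exact subset_union_right.trans hs)
  refine ⟨_, hf, hr, he, hc, nice_univ, subset_univ _, hc.unb, fun k q ι ι' a b hs => ?_⟩
  have key : ∀ κ, Inc (enumOrd (Dcl A univ (Y ∪ I)) ⁻¹' I) q κ →
      Inc I (q.map (enumOrd (Dcl A univ (Y ∪ I)))) (enumOrd (Dcl A univ (Y ∪ I)) ∘ κ) :=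
    fun κ c => ⟨hf.comp c.mono, c.mem, fun x m => by
      obtain ⟨y, m', rfl⟩ := List.mem_map.1 m
      exact hf (c.lt y m')⟩
  rw [he.sat k _ fun _ => mem_univ _, comp_app] at hs ⊢
  exact h2.ind k _ _ _ (key ι a) (key ι' b) hs

/-- The part of an enumeration below `l`. -/
theorem sharpa_below {f : On → On} (hf : StrictMono f) {Y : Set On} {l : On}
    (h : range f ∩ Iio l = Y) :
    (∀ x < otp Y l, f x = col Y l x) ∧ ∀ x, otp Y l ≤ x → l ≤ f x := by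
  have h1 : l ≤ f (sInf {x | l ≤ f x}) := csInf_mem (s := {x | l ≤ f x}) ⟨l, hf.le_apply⟩
  have h2 : f '' Iio (sInf {x | l ≤ f x}) = Y := by
    rw [← h]
    refine Set.ext fun y => ⟨?_, ?_⟩
    · rintro ⟨x, hx, rfl⟩
      exact ⟨mem_range_self x, mem_Iio.2 (lt_of_not_ge fun a =>
        (mem_Iio.1 hx).not_ge (csInf_le' (s := {x | l ≤ f x}) a))⟩
    · rintro ⟨⟨x, rfl⟩, hx⟩
      exact ⟨x, hf.lt_iff_lt.1 ((mem_Iio.1 hx).trans_le h1), rfl⟩
  obtain ⟨e, h3⟩ := eq_col (η := l) (hf.strictMonoOn _) h2 (h ▸ inter_subset_right)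
  rw [← e]
  exact ⟨h3, fun x hx => h1.trans (hf.monotone hx)⟩

/-- Generating indiscernibles.  Hint: collapse `Dcl A univ (Iio e ∪ (I ∩ Ici e))` with
`enumOrd` (`TV.elem`, `Clb.preimage`, `Elem.dcl`). -/
theorem HasSharp.cert {A : Set On} (h : HasSharp A) {e : On} (he : A ⊆ Iio e) :
    ∃ I, Cert A univ e I := by
  obtain ⟨I, h1, h2⟩ := h
  have h3 := h1.tail isLowerSet_univ (mem_univ e)
  obtain ⟨f, a1, a2, a3, a4, a5⟩ := sharpa_col (Y := Iio e) h3 (h2.mono inter_subset_left h3.unb)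
  have hs : Iio e ∪ I ∩ Ici e ⊆ range f := a2 ▸ subset_dcl nice_univ (subset_univ _)
  have fix : ∀ x < e, f x = x := fun x => by
    induction x using WellFoundedLT.induction with
    | ind x ih =>
      intro hx
      obtain ⟨y, hy⟩ := hs (Or.inl hx)
      have : y = x := le_antisymm (a1.le_apply.trans_eq hy) (le_of_not_gt fun a =>
        a.ne ((ih y a (a.trans hx)).symm.trans hy))
      rwa [this] at hy
  have eA : f ⁻¹' A = A := Set.ext fun x => by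
    rcases lt_or_ge x e with a | a
    · rw [mem_preimage, fix x a]
    · exact iff_of_false (fun m => (he m).not_ge (a.trans a1.le_apply)) fun m => (he m).not_ge a
  rw [eA] at a3 a5
  refine ⟨_, a5, he, fun ι hι => le_of_not_gt fun a => a.not_ge (fix ι a ▸ hι.2), fun x _ => ?_⟩
  refine (a3.dcl (subset_univ _) (mem_univ x)).1 (dcl_mono ?_ (a2 ▸ mem_range_self x))
  rintro y (hy | hy)
  · exact ⟨y, Or.inl hy, fix y hy⟩
  · obtain ⟨z, rfl⟩ := hs (Or.inr hy)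
    exact ⟨z, Or.inr hy, rfl⟩

theorem Cert.hasSharp {A I : Set On} {j : On} (h : Cert A univ j I) : HasSharp A :=
  ⟨I, h.clb, h.toInd⟩

/-- Sharps condense.  Hint: `H = Dcl A univ (Y ∪ (I ∩ Ici l))` has `H ∩ Iio l = Y`
(`normal_form`, `sh_iff`); collapse `H`; the enumeration of `H` extends `col Y l` below
`otp Y l`. -/
theorem sh_transfer {A Y : Set On} {l : On} (h : HasSharp A) (hA : A ⊆ Iio l) (hY : Y ⊆ Iio l)
    (hc : ∀ k q, (∀ a ∈ q, a ∈ Y) → (∃ ξ < l, Sh A k (ξ :: q)) → ∃ ξ ∈ Y, Sh A k (ξ :: q))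
    (k : ℕ) (q : List On) (hq : ∀ a ∈ q, a < otp Y l) :
    Sh (col Y l ⁻¹' A) k q ↔ Sh A k (q.map (col Y l)) := by
  obtain ⟨I, h1, h2⟩ := h
  have h3 := h1.tail isLowerSet_univ (mem_univ l)
  have h4 := h2.mono inter_subset_left h3.unb
  obtain ⟨f, a1, a2, a3, a4, a5⟩ := sharpa_col (Y := Y) h3 h4
  have hH : range f ∩ Iio l = Y := by
    rw [a2]
    refine Subset.antisymm (fun x hx => ?_) (subset_inter
      (subset_union_left.trans (subset_dcl nice_univ (subset_univ _))) hY)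
    obtain ⟨y, hy, -⟩ := h3.unb 0 (mem_univ _)
    obtain ⟨k, q, ι, b1, b2, b3, b4⟩ := normal_form nice_univ (subset_univ Y) (subset_univ _)
      ⟨y, hy⟩ (fun z _ => h3.unb z (mem_univ _)) hx.1
    have inc : ∀ ξ < l, Inc (I ∩ Ici l) (ξ :: q) ι := fun ξ hξ => ⟨b2, b3, fun a m =>
      ((List.mem_cons.1 m).elim (fun e => e ▸ hξ) fun m' => hY (b1 a m')).trans_le (b3 0).2⟩
    obtain ⟨ξ, c1, c2⟩ := hc k q b1 ⟨x, hx.2, (sh_iff h3 h4 (inc x hx.2)).2
      ((b4 x (mem_univ _)).2 rfl)⟩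
    exact (b4 ξ (mem_univ _)).1 ((sh_iff h3 h4 (inc ξ (hY c1))).1 c2) ▸ c1
  obtain ⟨b1, b2⟩ := sharpa_below a1 hH
  have eA : col Y l ⁻¹' A = f ⁻¹' A := Set.ext fun x => by
    rcases lt_or_ge x (otp Y l) with a | a
    · rw [mem_preimage, mem_preimage, b1 x a]
    · exact iff_of_false (fun m => a.not_gt (col_lt_iff.1 (hA m))) fun m => (hA m).not_ge (b2 x a)
  have eq : q.map (col Y l) = q.map f := List.map_congr_left fun a m => (b1 a (hq a m)).symm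
  obtain ⟨ι, c⟩ := a5.exists_inc (q := q) fun _ _ => mem_univ _
  have c' : Inc (I ∩ Ici l) (q.map f) (f ∘ ι) := ⟨a1.comp c.mono, c.mem, fun x m => by
    obtain ⟨y, m', rfl⟩ := List.mem_map.1 m
    exact a1 (c.lt y m')⟩
  rw [eA, eq, sh_iff a4 a5 c, sh_iff h3 h4 c', a3.sat k _ fun _ => mem_univ _, comp_app]

/-- The recursion for `SS`. -/
noncomputable def SF : On → Prop :=
  (wellFounded_lt (α := On)).fix fun c ih =>
    ω ≤ c ∧ Sh {d | ∃ h : d < c, d < cut c ∧ ih d h} (fml c) (par c)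

/-- The oracle of sharps. -/
def SS : Set On := {c | SF c}

theorem mem_SS {c : On} : c ∈ SS ↔ ω ≤ c ∧ Sh (SS ∩ Iio (cut c)) (fml c) (par c) := by
  change SF c ↔ _
  rw [SF, WellFounded.fix_eq]
  refine and_congr_right fun _ => iff_of_eq (congrArg (fun X => Sh X (fml c) (par c)) ?_)
  exact Set.ext fun d => ⟨fun ⟨_, a, b⟩ => ⟨b, a⟩, fun ⟨a, b⟩ =>
    ⟨lt_of_lt_of_le b (cut_le c), b, a⟩⟩

theorem code_mem_SS {l e : On} {k : ℕ} {q : List On} (h1 : IsLev l)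
    (h2 : (Loc.mk l k e q).Valid) : code ⟨l, k, e, q⟩ ∈ SS ↔ Sh (SS ∩ Iio e) k q := by
  rw [mem_SS, fml_code h1 h2, cut_code h1 h2, par_code h1 h2]
  exact and_iff_right (omega_le_code h1 h2)

/-- A set that satisfies the recursion below `β` is `SS`. -/
theorem SS_unique {X : Set On} {β : On}
    (h : ∀ c < β, (∀ d < cut c, d ∈ X ↔ d ∈ SS) →
      (c ∈ X ↔ ω ≤ c ∧ Sh (SS ∩ Iio (cut c)) (fml c) (par c))) : ∀ c < β, c ∈ X ↔ c ∈ SS := by
  intro c
  induction c using WellFoundedLT.induction with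
  | ind c ih =>
    intro hc
    rw [mem_SS]
    exact h c hc fun d hd => ih d (hd.trans_le (cut_le c)) ((hd.trans_le (cut_le c)).trans hc)

def AllSharp : Prop := ∀ e, HasSharp (SS ∩ Iio e)

theorem sh_fneg {A : Set On} (h : HasSharp A) {k : ℕ} {q : List On} :
    Sh A (fneg k) q ↔ ¬ Sh A k q := by
  obtain ⟨I, h1, h2⟩ := h
  obtain ⟨ι, hι⟩ := h2.exists_inc (q := q) fun _ _ => mem_univ _
  rw [sh_iff h1 h2 hι, sh_iff h1 h2 hι, sat_fneg]

/-- The oracle Skolem function finds least solutions. -/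
theorem fo_SS (h : AllSharp) {l e : On} {k : ℕ} {q : List On} (h1 : IsLev l) (he : e ≤ l)
    (hq : ∀ a ∈ q, a < l) :
    fo SS (code ⟨l, fall (fneg k), e, q⟩) = sInf {ξ | ξ < l ∧ Sh (SS ∩ Iio e) k (ξ :: q)} := by
  have hv : (Loc.mk l (fall (fneg k)) e q).Valid := ⟨he, hq⟩
  rw [fo, wit_code h1 hv]
  refine congrArg sInf (Set.ext fun ξ => and_congr_right fun hξ => ?_)
  rw [code_mem_SS h1 (machb_valid hv hξ), sh_fneg (h e), not_not]

/-- Condensation of `SS`.  Hint: strong induction on `c`; with `f = col H η`, `l = lev (f c)`,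
`e = cut (f c)` apply `sh_transfer` to `SS ∩ Iio e` and `Y = H ∩ Iio l` (closed by `fo_SS`,
`Closed.code`; `eq_col` identifies `col Y l` with `f` below `lev c`). -/
theorem down_SS (h : AllSharp) : Down SS 0 := by
  intro η H hη hH _ c
  induction c using WellFoundedLT.induction with
  | ind c ih =>
    intro hc
    have hE := cond_col hH
    have hm : StrictMono (col H η) := col_strictMono
    rcases lt_or_ge c ω with hω | hω
    · exact iff_of_false (fun m => hω.not_ge ((hE.omega_le hc).1 (mem_SS.1 m).1))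
        fun m => hω.not_ge (mem_SS.1 m).1
    have hω' : ω ≤ col H η c := (hE.omega_le hc).2 hω
    have hl : lev c < otp H η := (lev_le c).trans_lt hc
    have hL : IsLev (col H η (lev c)) := (hE.isLev hl).2 (isLev_lev hω)
    have hlη : col H η (lev c) < η := col_lt_iff.2 hl
    have hel : col H η (cut c) ≤ col H η (lev c) := hm.monotone (cut_le_lev c)
    have him : col H η '' Iio (lev c) = H ∩ Iio (col H η (lev c)) := by
      refine Set.ext fun y => ⟨?_, fun ⟨a, b⟩ => ?_⟩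
      · rintro ⟨x, hx, rfl⟩
        exact ⟨condb_mem ((hm hx).trans hlη), hm hx⟩
      · obtain ⟨x, -, rfl⟩ : y ∈ col H η '' Iio (otp H η) := col_image.ge ⟨a, lt_trans b hlη⟩
        exact ⟨x, hm.lt_iff_lt.1 b, rfl⟩
    obtain ⟨e1, e2⟩ := eq_col (η := col H η (lev c)) (hm.strictMonoOn _) him inter_subset_right
    have key := sh_transfer (Y := H ∩ Iio (col H η (lev c))) (h (col H η (cut c)))
      (fun x hx => lt_of_lt_of_le hx.2 hel) inter_subset_right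
      (fun k q hq hx => by
        have a1 := csInf_mem (s := {ξ | ξ < col H η (lev c) ∧
          Sh (SS ∩ Iio (col H η (cut c))) k (ξ :: q)}) hx
        refine ⟨_, ⟨?_, a1.1⟩, a1.2⟩
        rw [← fo_SS h hL hel fun a m => (hq a m).2]
        exact hH.fo _ (hH.code (isLowerSet_Iio η) (condb_mem hlη) (condb_mem (hel.trans_lt hlη))
          (fun a m => (hq a m).1) (code_lt_lev hη hlη)))
      (fml c) (par c) fun a m => e1 ▸ par_lt_lev m
    have e3 : col (H ∩ Iio (col H η (lev c))) (col H η (lev c)) ⁻¹' (SS ∩ Iio (col H η (cut c))) =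
        SS ∩ Iio (cut c) := by
      refine Set.ext fun x => ?_
      rcases lt_or_ge x (lev c) with a | a
      · rw [mem_preimage, ← e2 x a, mem_inter_iff, mem_inter_iff, mem_Iio, mem_Iio, hm.lt_iff_lt]
        exact and_congr_left fun b =>
          ih x (b.trans_le (cut_le c)) ((b.trans_le (cut_le c)).trans hc)
      · exact iff_of_false (fun m => a.not_gt (e1 ▸ col_lt_iff.1 (lt_of_lt_of_le m.2 hel)))
          fun m => a.not_gt (lt_of_lt_of_le m.2 (cut_le_lev c))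
    rw [e3, ← List.map_congr_left fun a m => e2 a (par_lt_lev m)] at key
    rw [mem_SS, mem_SS (c := c), and_iff_right hω, and_iff_right hω', key, hE.fml hc,
      hE.cut hc ((cut_le c).trans_lt hc),
      hE.par (DCl.of_lower (isLowerSet_Iio _) (zero_le.trans_lt hc)) hc]

/-- The oracle in the two modes. -/
noncomputable def Orc (sh : Bool) (o : Set On) : Set On := if sh then SS else o

/-- Condensation in both modes. -/
theorem orc_elem {sh : Bool} (h : sh = true → AllSharp) {o H : Set On} {η : On}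
    (hη : Nice (Iio η)) (hH : TV (Orc sh o) (Iio η) H) {o' : Set On}
    (ho : ∀ x < otp H η, x ∈ o' ↔ col H η x ∈ o) :
    Elem (Orc sh o') (Orc sh o) (Iio (otp H η)) (Iio η) (col H η) := by
  refine (hH.elem_col hη).congr (fun x hx => ?_) (fun _ _ => Iff.rfl) fun _ _ => rfl
  cases sh with
  | false => exact (ho x hx).symm
  | true =>
    exact down_SS (h rfl) η H hη.isLev (hH.closed hη)
      (fun _ k => (not_lt_zero (mem_Iio.1 k)).elim) x hx

theorem sharpc_inc {I : Set On} {θ : On} {ι : ℕ → On} (h : Inc I [θ] ι) {q : List On}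
    (hq : ∀ a ∈ q, a < θ) : Inc I q ι :=
  ⟨h.mono, h.mem, fun a m => (hq a m).trans (h.lt θ List.mem_cons_self)⟩

theorem sharpc_cons {θ ξ : On} {q : List On} (h : ξ < θ) (hq : ∀ a ∈ q, a < θ) :
    ∀ a ∈ ξ :: q, a < θ := fun a m => (List.mem_cons.1 m).elim (fun e => e ▸ h) (hq a)

theorem sharpc_app (q : List On) (j : On) (ι : ℕ → On) (i : ℕ) :
    app q (cons j ι) (if i < q.length then i else i + 1) = app q ι i := by
  induction q generalizing i with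
  | nil => rfl
  | cons a q ih =>
    cases i with
    | zero => rfl
    | succ i =>
      have := ih i
      by_cases h : i < q.length
      · rw [if_pos h] at this
        rw [if_pos (show i + 1 < (a :: q).length from Nat.succ_lt_succ h)]
        exact this
      · rw [if_neg h] at this
        rw [if_neg (show ¬ i + 1 < (a :: q).length from fun k => h (Nat.lt_of_succ_lt_succ k))]
        exact this

/-- Solutions are reflected below an indiscernible. -/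
theorem sharpc_down {A I : Set On} (h1 : Clb univ I) (h2 : Ind A univ I) {k : ℕ} {q : List On}
    {j ξ : On} (hj : j ∈ I) (hq : ∀ a ∈ q, a < j) (h : Sh A k (ξ :: q)) :
    ∃ ξ' < j, Sh A k (ξ' :: q) := by
  obtain ⟨j', a1, a2⟩ := h2.unb (max j ξ) trivial
  obtain ⟨ι, hι⟩ := h2.exists_inc (q := [j']) fun _ _ => trivial
  have a3 : j < j' := (le_max_left _ _).trans_lt a2
  have a4 : ξ < j' := (le_max_right _ _).trans_lt a2
  have key : ∀ x ∈ I, x ≤ j' → (∀ a ∈ q, a < x) → Inc I q (cons x ι) := fun x hx hx' hq' =>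
    ⟨strictMono_nat_of_lt_succ fun n => by
      cases n with
      | zero => exact hx'.trans_lt (hι.lt j' List.mem_cons_self)
      | succ n => exact hι.mono (Nat.lt_succ_self n),
    fun n => by
      cases n with
      | zero => exact hx
      | succ n => exact hι.mem n, hq'⟩
  have : MD fun A Λ v => Sat A Λ k
      (cons (v 0) fun i => v ((if i < q.length then i else i + 1) + 1)) :=
    MD.congr (h := MD.rename (h := MD.sat k) _ (up fun i => if i < q.length then i else i + 1))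
      fun _ _ _ _ _ => sat_irrel fun i _ => by cases i <;> rfl
  have e := h2.md (fun A Λ v => ∃ a, a < v q.length ∧
    Sat A Λ k (cons a fun i => v (if i < q.length then i else i + 1)))
    (key j' a1 le_rfl fun a m => (hq a m).trans a3) (key j hj a3.le hq)
  have e0 : ∀ x, app q (cons x ι) q.length = x := fun x => app_add q (cons x ι) 0
  simp only [sharpc_app, e0] at e
  obtain ⟨ξ', b1, b2⟩ := e.1
    ⟨ξ, a4, (sh_iff h1 h2 (sharpc_inc hι (sharpc_cons a4 fun a m => (hq a m).trans a3))).1 h⟩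
  exact ⟨ξ', b1, (sh_iff h1 h2
    (sharpc_inc hι (sharpc_cons (b1.trans a3) fun a m => (hq a m).trans a3))).2 b2⟩

/-- A nice cardinal of the machine with oracle `SS` is a limit of the generating indiscernibles
of `SS ∩ e`.  Hint: otherwise every `x < θ` is `fo SS (code ⟨θ, fall (fneg k), e, q⟩)` with
`q ⊆ μ` (`Cert.below`, `fo_SS`), so lies in `Dcl SS (Iio (nn θ)) (Iio μ ∪ {θ, e})`; use
`exists_enum`. -/
theorem Cert.card (h : AllSharp) {I Λ : Set On} {e θ : On} (hI : Cert (SS ∩ Iio e) univ e I)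
    (hΛ : ElUp SS Λ) (h1 : θ ∈ Λ) (h2 : Nice (Iio θ)) (h3 : Card SS Λ θ) (h4 : e < θ) :
    ∀ x < θ, ∃ ι ∈ I, x < ι ∧ ι < θ := by
  intro x0 hx0
  by_contra hn
  have hμ : max e (x0 + 1) < θ := max_lt h4 (h2.succ_mem hx0)
  have hμ' : ∀ ι ∈ I, max e (x0 + 1) ≤ ι → θ ≤ ι := fun ι hι k => not_lt.1 fun k' =>
    hn ⟨ι, hι, (lt_add_one x0).trans_le ((le_max_right _ _).trans k), k'⟩
  have he : e ≤ max e (x0 + 1) := le_max_left _ _
  generalize max e (x0 + 1) = μ at hμ hμ' he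
  obtain ⟨a1, a2, -⟩ := nn_spec θ
  have hP : ∀ a ∈ [θ, e], a < nn θ :=
    sharpc_cons a2 (sharpc_cons (h4.trans a2) fun _ m => absurd m List.not_mem_nil)
  have hY : Iio μ ∪ {a | a ∈ [θ, e]} ⊆ Iio (nn θ) :=
    union_subset (Iio_subset_Iio (hμ.trans a2).le) hP
  obtain ⟨s, b1, b2⟩ := exists_enum SS a1 (hμ.trans a2).le [θ, e] hP
  have hc := (dcl_tv (A := SS) a1 hY).closed a1
  have hs := subset_dcl (A := SS) a1 hY
  obtain ⟨ι, hι⟩ := hI.toInd.exists_inc (q := [θ]) fun _ _ => trivial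
  refine h3 s (cardc_mem hΛ.1 (b1 ▸ hΛ.nn_mem (hΛ.nn_mem h1))) (nl (nl μ))
    (h2.nl_mem (h2.nl_mem hμ)) fun x hx => b2 x ?_
  obtain ⟨k, q, c1, c2⟩ := hI.below (x := x) he fun ι hι k => hx.trans_le (hμ' ι hι k)
  have hq : ∀ a ∈ q, a < θ := fun a m => (c1 a m).trans hμ
  have c3 := c2 ι (sharpc_inc hι (sharpc_cons hx (sharpc_cons hμ
    fun _ m => absurd m List.not_mem_nil)))
  have c4 : {ξ | ξ < θ ∧ Sh (SS ∩ Iio e) k (ξ :: q)} = {x} := by
    have c5 : ∀ ξ < θ, Sh (SS ∩ Iio e) k (ξ :: q) ↔ ξ = x := fun ξ hξ =>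
      (sh_iff hI.clb hI.toInd (sharpc_inc hι (sharpc_cons hξ hq))).trans
        (c3 ξ (hξ.trans (hι.lt θ List.mem_cons_self)))
    exact Set.ext fun ξ => ⟨fun m => (c5 ξ m.1).1 m.2, fun m => m ▸ ⟨hx, (c5 x hx).2 rfl⟩⟩
  have c6 := fo_SS h (k := k) h2.isLev h4.le hq
  rw [c4, csInf_singleton] at c6
  rw [← c6]
  exact hc.fo _ (hc.code a1.lower (x := ⟨θ, fall (fneg k), e, q⟩) (hs (Or.inr (by simp)))
    (hs (Or.inr (by simp))) (fun a m => hs (Or.inl (c1 a m))) (a1.code_mem a2))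

/-- A club subset of the generating indiscernibles below `θ` has a name.  Hint: take the levels
`ι` with `e < ι < θ` and `fo SS (rct (mov c θ) e) < ι` for all `c` with `lev c = ι`; use
`Cert.not_mem` for the inclusion in `I`, and `Ind.tv`, `sh_iff` for `I ∩ (e, θ) ⊆` the set. -/
theorem Cert.exists_name (h : AllSharp) {I : Set On} {e θ : On}
    (hI : Cert (SS ∩ Iio e) univ e I) (h1 : ∀ x < θ, ∃ ι ∈ I, x < ι ∧ ι < θ) (h4 : e < θ) :
    ∃ s, lev s = nn θ ∧ Clb (Iio θ) (ext SS s) ∧ ext SS s ⊆ I := by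
  have hθ : Nice (Iio θ) := (hI.toInd.restrict (zero_le.trans_lt h4) h1).2.nice
  obtain ⟨a1, a2, -⟩ := nn_spec θ
  obtain ⟨s, b1, -, -, b2⟩ := MD.exists_ext (fun A _ v => v 0 < v 1 ∧ v 2 < v 0 ∧ IsLev (v 0) ∧
    ∀ c, c < v 1 → lev c = v 0 → ∀ ξ, ξ < v 1 → code ⟨v 1, fml c, v 2, ξ :: par c⟩ ∈ A →
      ∃ ξ', ξ' < v 0 ∧ code ⟨v 1, fml c, v 2, ξ' :: par c⟩ ∈ A) SS a1 [θ, e]
    (sharpc_cons a2 (sharpc_cons (h4.trans a2) fun _ m => absurd m List.not_mem_nil))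
  have hm : ∀ {k : ℕ} {q : List On}, (∀ a ∈ q, a < θ) →
      (code ⟨θ, k, e, q⟩ ∈ SS ↔ Sh (SS ∩ Iio e) k q) := fun hq =>
    code_mem_SS hθ.isLev ⟨h4.le, hq⟩
  have key : ext SS s = I ∩ Iio θ ∩ Ici (e + 1) := by
    rw [b2]
    refine Set.ext fun x => ⟨?_, ?_⟩
    · rintro ⟨-, c1, c2, c3, c4⟩
      change x < θ at c1
      change e < x at c2
      change IsLev x at c3
      refine ⟨⟨by_contra fun hx => ?_, c1⟩, Order.add_one_le_of_lt c2⟩
      obtain ⟨k, q, d1, d2⟩ := hI.not_mem trivial c2.le hx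
      have hq : ∀ a ∈ q, a < x := fun a m => (d1 a m).elim (fun k => k.trans c2) fun k => k.2
      have hq' : ∀ a ∈ q, a < θ := fun a m => (hq a m).trans c1
      obtain ⟨ι, hι⟩ := hI.toInd.exists_inc (q := [θ]) fun _ _ => trivial
      have d3 := d2 ι (sharpc_inc hι (sharpc_cons c1 fun _ m => absurd m List.not_mem_nil))
      have d4 : ∀ ξ < θ, code ⟨θ, k, e, ξ :: q⟩ ∈ SS ↔ ξ = x := fun ξ hξ =>
        (hm (sharpc_cons hξ hq')).trans
          ((sh_iff hI.clb hI.toInd (sharpc_inc hι (sharpc_cons hξ hq'))).trans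
            (d3 ξ (hξ.trans (hι.lt θ List.mem_cons_self))))
      have v2 : (Loc.mk x k 0 q).Valid := ⟨zero_le, hq⟩
      have d5 := c4 (code ⟨x, k, 0, q⟩) (hθ.code_mem c1) (lev_code c3 v2) x c1
      rw [fml_code c3 v2, par_code c3 v2] at d5
      obtain ⟨ξ, d6, d7⟩ := d5 ((d4 x c1).2 rfl)
      exact d6.ne ((d4 ξ (lt_trans d6 c1)).1 d7)
    · rintro ⟨⟨c1, c2⟩, c3⟩
      refine ⟨lt_trans c2 a2, c2, (lt_add_one e).trans_le c3,
        ((hI.toInd.tv c1).nice nice_univ (isLowerSet_Iio x)).isLev, fun c _ d1 ξ d2 d3 => ?_⟩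
      have hq : ∀ a ∈ par c, a < x := fun a m => (par_lt_lev m).trans_eq d1
      have hq' : ∀ a ∈ par c, a < θ := fun a m => (hq a m).trans c2
      obtain ⟨ξ', d4, d5⟩ := sharpc_down hI.clb hI.toInd c1 hq ((hm (sharpc_cons d2 hq')).1 d3)
      exact ⟨ξ', d4, (hm (sharpc_cons (d4.trans c2) hq')).2 d5⟩
  refine ⟨s, b1, ?_, ?_⟩
  · rw [key]
    exact (hI.clb.restrict isLowerSet_univ (subset_univ _) h1).tail hθ.lower (hθ.succ_mem h4)
  · rw [key]
    exact fun x hx => hx.1.1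

end Pool.Agent.MP_fd3eaf_lc

end

-- part MP_fd3eaf_lc.Run
section

/-!
Runs: a relation `Z` codes a preorder (and marks) on the tokens `(η, m)`; at stage `ξ` the tokens
with `η < ξ` are collapsed, and a club that is eventually disjoint from the trace gives a ladder.
-/

set_option autoImplicit false

namespace Pool.Agent.MP_fd3eaf_lc

open Set Ordinal

abbrev Zt : Type 1 := On → On → ℕ → Prop

abbrev Ht : Type 1 := On → ℕ → On

def ZAg (Z Z' : Zt) (ξ : On) : Prop := ∀ η < ξ, ∀ η' < ξ, ∀ n : ℕ, Z η η' n ↔ Z' η η' n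

def HAg (h h' : Ht) (ξ : On) : Prop := ∀ η < ξ, ∀ m : ℕ, h η m = h' η m

/-- `h` collapses the preorder on the tokens below `ξ` onto `τ`. -/
structure IsCol (Z : Zt) (ξ : On) (h : Ht) (τ : On) : Prop where
  ord : ∀ η < ξ, ∀ η' < ξ, ∀ m m' : ℕ, Z η η' (mk 0 m m' 0) ↔ h η m < h η' m'
  lt : ∀ η < ξ, ∀ m : ℕ, h η m < τ
  onto : ∀ z < τ, ∃ η < ξ, ∃ m : ℕ, h η m = z

/-- The marked ordinals. -/
def mrk (Z : Zt) (ξ : On) (h : Ht) : Set On :=
  {z | ∃ η < ξ, ∃ m : ℕ, Z η η (mk 1 m 0 0) ∧ h η m = z}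

/-- The trace. -/
noncomputable def trc (h : Ht) (τ η : On) : On :=
  sInf {z | z < τ + 1 ∧ ∀ η' < η, ∀ m : ℕ, h η' m < z}

/-- Every row has an element above the earlier rows. -/
def Rows (ξ : On) (h : Ht) : Prop := ∀ η < ξ, ∃ m : ℕ, ∀ η' < η, ∀ m' : ℕ, h η' m' < h η m

/-- `C` is eventually disjoint from the trace. -/
def Off (C : Set On) (h : Ht) (τ ξ : On) : Prop := ∃ η₀ < ξ, ∀ η < ξ, η₀ ≤ η → trc h τ η ∉ C

/-- `s` names a club that is eventually disjoint from the trace. -/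
def Fnd (P : Set On) (h : Ht) (τ ξ s : On) : Prop :=
  Clb (Iio τ) (extP P s) ∧ Off (extP P s) h τ ξ

/-- The ladder. -/
def Lad (C : Set On) (h : Ht) (τ ξ : On) (J : ℕ → On) : Prop :=
  J 0 = sInf {η₀ | η₀ < ξ ∧ ∀ η < ξ, η₀ ≤ η → trc h τ η ∉ C} ∧
    ∀ n : ℕ, J (n + 1) = sInf {η | η < ξ ∧ J n < η ∧
      ∃ c < τ, c ∈ C ∧ trc h τ η ≤ c ∧ c < trc h τ (η + 1)}

section col

variable {Z Z' : Zt} {ξ τ τ' : On} {h h' : Ht} {C : Set On} {J J' : ℕ → On}

theorem ZAg.mono (e : ZAg Z Z' ξ) {η : On} (hη : η ≤ ξ) : ZAg Z Z' η := by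
  exact fun a ha b hb n => e a (ha.trans_le hη) b (hb.trans_le hη) n

theorem ZAg.symm (e : ZAg Z Z' ξ) : ZAg Z' Z ξ := by
  exact fun a ha b hb n => (e a ha b hb n).symm

theorem runa_le (c : IsCol Z ξ h τ) (c' : IsCol Z' ξ h' τ') (e : ZAg Z Z' ξ) (z : On) :
    ∀ η < ξ, ∀ m : ℕ, h η m = z → z ≤ h' η m := by
  induction z using WellFoundedLT.induction with
  | ind z ih =>
    intro η hη m hz
    refine le_of_forall_lt fun w hw => ?_
    obtain ⟨η', hη', m', h1⟩ := c.onto w (hw.trans (hz ▸ c.lt η hη m))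
    refine (ih w hw η' hη' m' h1).trans_lt ?_
    rw [← c'.ord η' hη' η hη m' m, ← e η' hη' η hη, c.ord η' hη' η hη m' m, h1, hz]
    exact hw

theorem IsCol.unique (c : IsCol Z ξ h τ) (c' : IsCol Z' ξ h' τ') (e : ZAg Z Z' ξ) :
    τ = τ' ∧ HAg h h' ξ := by
  have hh : HAg h h' ξ := fun η hη m =>
    le_antisymm (runa_le c c' e _ η hη m rfl) (runa_le c' c e.symm _ η hη m rfl)
  refine ⟨le_antisymm (le_of_forall_lt fun z hz => ?_) (le_of_forall_lt fun z hz => ?_), hh⟩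
  · obtain ⟨η, hη, m, rfl⟩ := c.onto z hz
    rw [hh η hη m]
    exact c'.lt η hη m
  · obtain ⟨η, hη, m, rfl⟩ := c'.onto z hz
    rw [← hh η hη m]
    exact c.lt η hη m

theorem IsCol.congr (c : IsCol Z ξ h τ) (e : ZAg Z Z' ξ) (e' : HAg h h' ξ) :
    IsCol Z' ξ h' τ := by
  refine ⟨fun η hη η' hη' m m' => ?_, fun η hη m => ?_, fun z hz => ?_⟩
  · rw [← e η hη η' hη', ← e' η hη, ← e' η' hη']
    exact c.ord η hη η' hη' m m'
  · rw [← e' η hη]
    exact c.lt η hη m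
  · obtain ⟨η, hη, m, h1⟩ := c.onto z hz
    exact ⟨η, hη, m, (e' η hη m).symm.trans h1⟩

theorem IsCol.lt_omega1 (c : IsCol Z ξ h τ) (hξ : ξ < omega 1) : τ < omega 1 := by
  rw [← countable_Iio] at hξ ⊢
  refine ((hξ.prod (countable_univ (α := ℕ))).image fun p => h p.1 p.2).mono fun z hz => ?_
  obtain ⟨η, hη, m, h1⟩ := c.onto z hz
  exact ⟨(η, m), ⟨hη, mem_univ _⟩, h1⟩

theorem mrk_congr (e : ZAg Z Z' ξ) (e' : HAg h h' ξ) : mrk Z ξ h = mrk Z' ξ h' := by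
  ext z
  constructor
  · rintro ⟨η, hη, m, h1, h2⟩
    exact ⟨η, hη, m, (e η hη η hη _).1 h1, (e' η hη m).symm.trans h2⟩
  · rintro ⟨η, hη, m, h1, h2⟩
    exact ⟨η, hη, m, (e η hη η hη _).2 h1, (e' η hη m).trans h2⟩

theorem IsCol.mrk_subset (c : IsCol Z ξ h τ) : mrk Z ξ h ⊆ Iio τ := by
  rintro z ⟨η, hη, m, -, rfl⟩
  exact c.lt η hη m

theorem trc_congr (e : HAg h h' ξ) {η : On} (hη : η ≤ ξ) : trc h τ η = trc h' τ η := by
  unfold trc
  congr 1
  ext z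
  refine and_congr_right fun _ => forall_congr' fun η' => forall_congr' fun h1 =>
    forall_congr' fun m => ?_
  rw [e η' (h1.trans_le hη) m]

theorem runa_trc_mem (c : IsCol Z ξ h τ) {η : On} (hη : η ≤ ξ) :
    trc h τ η < τ + 1 ∧ ∀ η' < η, ∀ m : ℕ, h η' m < trc h τ η :=
  csInf_mem (s := {z | z < τ + 1 ∧ ∀ η' < η, ∀ m : ℕ, h η' m < z})
    ⟨τ, lt_add_one τ, fun η' h1 m => c.lt η' (h1.trans_le hη) m⟩

theorem IsCol.lt_trc (c : IsCol Z ξ h τ) {η z : On} (hη : η ≤ ξ) :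
    z < trc h τ η ↔ ∃ η' < η, ∃ m, z ≤ h η' m := by
  have hm := runa_trc_mem c hη
  constructor
  · intro hz
    by_contra hn
    push Not at hn
    exact hz.not_ge (csInf_le' ⟨hz.trans hm.1, hn⟩)
  · rintro ⟨η', h1, m, h2⟩
    exact h2.trans_lt (hm.2 η' h1 m)

theorem IsCol.trc_lt (c : IsCol Z ξ h τ) (r : Rows ξ h) {η : On} (hη : η < ξ) :
    trc h τ η < τ ∧ trc h τ η < trc h τ (η + 1) := by
  obtain ⟨m, hm⟩ := r η hη
  have h1 : trc h τ η ≤ h η m := csInf_le' ⟨(c.lt η hη m).trans (lt_add_one τ), hm⟩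
  exact ⟨h1.trans_lt (c.lt η hη m),
    (c.lt_trc (Order.add_one_le_of_lt hη)).2 ⟨η, lt_add_one η, m, h1⟩⟩

theorem Off.congr (o : Off C h τ ξ) (e : HAg h h' ξ) : Off C h' τ ξ := by
  obtain ⟨η₀, h0, h1⟩ := o
  refine ⟨η₀, h0, fun η hη h2 => ?_⟩
  rw [← trc_congr e hη.le]
  exact h1 η hη h2

theorem Fnd.congr {P P' : Set On} {s : On} (f : Fnd P h τ ξ s) (e : HAg h h' ξ)
    (e' : extP P s = extP P' s) : Fnd P' h' τ ξ s := by
  unfold Fnd
  rw [← e']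
  exact ⟨f.1, f.2.congr e⟩

theorem Lad.congr (l : Lad C h τ ξ J) (e : HAg h h' ξ) (hξ : Order.IsSuccLimit ξ)
    (e' : ∀ n, J n = J' n) : Lad C h' τ ξ J' := by
  refine ⟨?_, fun n => ?_⟩
  · rw [← e' 0, l.1]
    congr 1
    ext η₀
    refine and_congr_right fun _ => forall_congr' fun η => forall_congr' fun h1 => ?_
    rw [trc_congr e h1.le]
  · rw [← e' (n + 1), ← e' n, l.2 n]
    congr 1
    ext η
    refine and_congr_right fun h1 => ?_
    rw [trc_congr e h1.le, trc_congr e (hξ.add_one_lt h1).le]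

theorem exists_lad (C : Set On) (h : Ht) (τ ξ : On) : ∃ J, Lad C h τ ξ J := by
  exact ⟨fun n => Nat.rec (sInf {η₀ | η₀ < ξ ∧ ∀ η < ξ, η₀ ≤ η → trc h τ η ∉ C})
    (fun _ j => sInf {η | η < ξ ∧ j < η ∧
      ∃ c < τ, c ∈ C ∧ trc h τ η ≤ c ∧ c < trc h τ (η + 1)}) n, rfl, fun _ => rfl⟩

theorem Lad.unique (l : Lad C h τ ξ J) (l' : Lad C h τ ξ J') (n : ℕ) : J n = J' n := by
  induction n with
  | zero => rw [l.1, l'.1]
  | succ n ih => rw [l.2 n, l'.2 n, ih]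

theorem runa_trc_mono (c : IsCol Z ξ h τ) {η η' : On} (h1 : η ≤ η') (h2 : η' ≤ ξ) :
    trc h τ η ≤ trc h τ η' := by
  refine le_of_forall_lt fun z hz => ?_
  obtain ⟨a, ha, m, hm⟩ := (c.lt_trc (h1.trans h2)).1 hz
  exact (c.lt_trc h2).2 ⟨a, ha.trans_le h1, m, hm⟩

theorem runa_intv (c : IsCol Z ξ h τ) {y : On} (hy : y < τ) :
    ∃ η < ξ, trc h τ η ≤ y ∧ y < trc h τ (η + 1) := by
  have hne : {η | η < ξ ∧ y < trc h τ (η + 1)}.Nonempty := by
    obtain ⟨η, hη, m, h1⟩ := c.onto y hy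
    exact ⟨η, hη, (c.lt_trc (Order.add_one_le_of_lt hη)).2 ⟨η, lt_add_one η, m, h1.ge⟩⟩
  obtain ⟨a1, a2⟩ := csInf_mem hne
  refine ⟨_, a1, le_of_not_gt fun hn => ?_, a2⟩
  obtain ⟨η', b1, m, b2⟩ := (c.lt_trc a1.le).1 hn
  exact b1.not_ge (csInf_le' ⟨b1.trans a1, (c.lt_trc (Order.add_one_le_of_lt
    (b1.trans a1))).2 ⟨η', lt_add_one η', m, b2⟩⟩)

theorem runa_unb (c : IsCol Z ξ h τ) (r : Rows ξ h) (hξ : Order.IsSuccLimit ξ)
    (hC : Clb (Iio τ) C) {j : On} (hj : j < ξ) :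
    ∃ η, η < ξ ∧ j < η ∧ ∃ y < τ, y ∈ C ∧ trc h τ η ≤ y ∧ y < trc h τ (η + 1) := by
  obtain ⟨y, a1, a2⟩ := hC.unb _ (c.trc_lt r (hξ.add_one_lt hj)).1
  obtain ⟨η, b1, b2, b3⟩ := runa_intv c (hC.sub a1)
  refine ⟨η, b1, lt_of_not_ge fun hn => ?_, y, hC.sub a1, a1, b2, b3⟩
  exact (a2.trans b3).not_ge (runa_trc_mono c (add_le_add_left hn 1) (hξ.add_one_lt hj).le)

/-- Hint: every `c < τ` lies in some interval of the trace; a limit `η < ξ` of the `J n` would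
have `trc h τ η ∈ C`. -/
theorem Lad.cof (l : Lad C h τ ξ J) (c : IsCol Z ξ h τ) (r : Rows ξ h)
    (hξ : Order.IsSuccLimit ξ) (hC : Clb (Iio τ) C) (o : Off C h τ ξ) :
    StrictMono J ∧ (∀ n, J n < ξ) ∧ ∀ η < ξ, ∃ n, η < J n := by
  have h0 : J 0 < ξ ∧ ∀ η < ξ, J 0 ≤ η → trc h τ η ∉ C := by
    rw [l.1]
    exact csInf_mem (s := {η₀ | η₀ < ξ ∧ ∀ η < ξ, η₀ ≤ η → trc h τ η ∉ C}) o
  have hs : ∀ n, J n < ξ → J (n + 1) < ξ ∧ J n < J (n + 1) ∧
      ∃ y < τ, y ∈ C ∧ trc h τ (J (n + 1)) ≤ y ∧ y < trc h τ (J (n + 1) + 1) := fun n hn => by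
    rw [l.2 n]
    exact csInf_mem (s := {η | η < ξ ∧ J n < η ∧
      ∃ c < τ, c ∈ C ∧ trc h τ η ≤ c ∧ c < trc h τ (η + 1)}) (runa_unb c r hξ hC hn)
  have hlt : ∀ n, J n < ξ := fun n => by
    induction n with
    | zero => exact h0.1
    | succ n ih => exact (hs n ih).1
  have hm : StrictMono J := strictMono_nat_of_lt_succ fun n => (hs n (hlt n)).2.1
  refine ⟨hm, hlt, fun η hη => by_contra fun hn => ?_⟩
  push Not at hn
  have b1 : ∀ n, J n ≤ ⨆ n, J n := fun n => Ordinal.le_iSup J n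
  have b2 : ⨆ n, J n < ξ := (Ordinal.iSup_le hn).trans_lt hη
  have b3 : ∀ n, J n + 1 ≤ ⨆ n, J n := fun n =>
    (Order.add_one_le_of_lt (hm (Nat.lt_succ_self n))).trans (b1 _)
  refine h0.2 _ b2 (b1 0) (hC.cls _ (c.trc_lt r b2).1 ?_ fun x hx => ?_)
  · exact (zero_le.trans_lt (c.trc_lt r h0.1).2).trans_le (runa_trc_mono c (b3 0) b2.le)
  · obtain ⟨η', a1, m, a2⟩ := (c.lt_trc b2.le).1 hx
    obtain ⟨n, a3⟩ := Ordinal.lt_iSup_iff.1 a1
    obtain ⟨a4, a5, y, -, a6, a7, a8⟩ := hs n (hlt n)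
    exact ⟨y, a6, ((c.lt_trc a4.le).2 ⟨η', a3.trans a5, m, a2⟩).trans_le a7,
      a8.trans_le (runa_trc_mono c (b3 _) b2.le)⟩

theorem IsCol.not_off (c : IsCol Z (omega 1) h τ) (r : Rows (omega 1) h) (hC : Clb (Iio τ) C) :
    ¬ Off C h τ (omega 1) := by
  intro o
  obtain ⟨J, l⟩ := exists_lad C h τ (omega 1)
  obtain ⟨-, a1, a2⟩ := l.cof c r (Cardinal.isSuccLimit_omega 1) hC o
  obtain ⟨y, b1, b2⟩ := uc_omega1.2 J a1
  obtain ⟨n, hn⟩ := a2 y b1
  exact hn.not_gt (b2 n)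

/-- The direct limit.  Hint: the rank function of the well-founded order of the tokens. -/
theorem exists_col_limit {H : On → Ht} {U : On → On}
    (c : ∀ ξ < omega 1, IsCol Z ξ (H ξ) (U ξ)) (r : ∀ ξ < omega 1, Rows ξ (H ξ)) :
    ∃ h τ, IsCol Z (omega 1) h τ ∧ Rows (omega 1) h := by
  have hl := Cardinal.isSuccLimit_omega (1 : On)
  obtain ⟨ι, o, g, ho, hg, hog⟩ : ∃ (ι : Type) (o : ι → On) (g : On → ι), (∀ a, o a < omega 1) ∧
      (∀ η < omega 1, o (g η) = η) ∧ ∀ a, g (o a) = a :=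
    ⟨(omega 1).ToType, fun a => (ToType.mk.symm a).1,
      fun η => ToType.mk (if k : η < omega 1 then ⟨η, k⟩ else ⟨0, hl.pos⟩),
      fun a => (ToType.mk.symm a).2, fun η k => by simp [k], fun a =>
        (congrArg _ (dif_pos (ToType.mk.symm a).2)).trans (ToType.mk.apply_symm_apply a)⟩
  have hb : ∀ f : ℕ → ι × ℕ, ∃ ξ < omega 1, ∀ n, o (f n).1 < ξ := fun f =>
    ⟨_, hl.succ_lt (Ordinal.iSup_lt_omega_one fun n => ho (f n).1), fun n =>
      Order.lt_succ_of_le (Ordinal.le_iSup (fun n => o (f n).1) n)⟩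
  let s : ι × ℕ → ι × ℕ → Prop := fun a b => Z (o a.1) (o b.1) (mk 0 a.2 b.2 0)
  have : IsWellFounded _ s := ⟨wellFounded_iff_isEmpty_descending_chain.2 ⟨fun ⟨f, hf⟩ => by
    obtain ⟨ξ, h1, h2⟩ := hb f
    exact (wellFounded_iff_isEmpty_descending_chain.1 (wellFounded_lt (α := On))).false
      ⟨fun n => H ξ (o (f n).1) (f n).2, fun n => ((c ξ h1).ord _ (h2 _) _ (h2 _) _ _).1 (hf n)⟩⟩⟩
  have key : ∀ a b, s a b ↔ IsWellFounded.rank s a < IsWellFounded.rank s b := fun a b =>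
    ⟨IsWellFounded.rank_lt_of_rel, fun k => by
      by_contra hn
      refine k.not_ge ?_
      rw [IsWellFounded.rank_eq s b]
      refine Ordinal.iSup_le fun x => Order.succ_le_of_lt (IsWellFounded.rank_lt_of_rel ?_)
      obtain ⟨ξ, h1, h2⟩ := hb fun n => if n = 0 then a else if n = 1 then b else x.1
      exact ((c ξ h1).ord _ (h2 2) _ (h2 0) _ _).2
        ((((c ξ h1).ord _ (h2 2) _ (h2 1) _ _).1 x.2).trans_le
          (not_lt.1 fun k' => hn (((c ξ h1).ord _ (h2 0) _ (h2 1) _ _).2 k')))⟩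
  have hord : ∀ η < omega 1, ∀ η' < omega 1, ∀ m m' : ℕ, Z η η' (mk 0 m m' 0) ↔
      IsWellFounded.rank s (g η, m) < IsWellFounded.rank s (g η', m') := fun η k η' k' m m' => by
    rw [← key]
    simp only [s, hg η k, hg η' k']
  refine ⟨fun η m => IsWellFounded.rank s (g η, m), ⨆ a, Order.succ (IsWellFounded.rank s a),
    ⟨hord, fun η _ m => Ordinal.lt_iSup_iff.2 ⟨_, Order.lt_succ _⟩, fun z hz => ?_⟩, fun η k => ?_⟩
  · obtain ⟨a, ha⟩ := Ordinal.lt_iSup_iff.1 hz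
    obtain ⟨b, hb⟩ := IsWellFounded.mem_range_rank_of_le (Order.le_of_lt_succ ha)
    exact ⟨o b.1, ho _, b.2, by rw [hog]; exact hb⟩
  · obtain ⟨m, hm⟩ := r _ (hl.succ_lt k) η (Order.lt_succ η)
    exact ⟨m, fun η' k' m' => (hord _ (k'.trans k) _ k _ _).1
      (((c _ (hl.succ_lt k)).ord _ (k'.trans (Order.lt_succ η)) _ (Order.lt_succ η) _ _).2
        (hm η' k' m'))⟩

end col

/-- The data of a run. -/
structure Rn where
  H : On → Ht
  U : On → On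
  S : On → On
  J : On → ℕ → On
  r : On → ℕ → Prop

structure Stage (Z : Zt) (R : Rn) (ξ : On) (h : Ht) (τ : On) : Prop where
  col : IsCol Z ξ h τ
  rows : Rows ξ h
  ge : 0 < ξ → ξ ≤ h 0 0
  lim : Order.IsSuccLimit ξ → Order.IsSuccLimit (h 0 0)
  fix : ∀ η < ξ, ∀ η' < η, ∀ m : ℕ, R.H η η' m < R.H η 0 0 → h η' m = R.H η η' m

/-- The recursion for the reals. -/
def RCl (R : Rn) (η : On) : Prop :=
  ∀ i : ℕ, R.r η i ↔
    (∃ η' < η, η = η' + 1 ∧ (i = 0 ∨ ∃ i' : ℕ, i = i' + 1 ∧ R.r η' i')) ∨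
      (Order.IsSuccLimit η ∧ i ≠ 0 ∧ R.r (R.J η (oa i)) (ob i))

structure One (Z : Zt) (R : Rn) (P : Set On) (η : On) : Prop where
  stage : Stage Z R η (R.H η) (R.U η)
  fnd : Order.IsSuccLimit η → Fnd P (R.H η) (R.U η) η (R.S η)
  least : Order.IsSuccLimit η → ∀ s < R.S η, ¬ Fnd P (R.H η) (R.U η) η s
  lad : Order.IsSuccLimit η → Lad (extP P (R.S η)) (R.H η) (R.U η) η (R.J η)
  rcl : RCl R η

/-- The true table at a stage. -/
noncomputable def PS (sh : Bool) (Z : Zt) (ξ : On) (h : Ht) : Set On := TS (Orc sh (mrk Z ξ h))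

/-- The run is correct below `ξ`. -/
def Pre (sh : Bool) (Z : Zt) (R : Rn) (ξ : On) : Prop :=
  ∀ η < ξ, One Z R (PS sh Z η (R.H η)) η

def Cnt (R : Rn) (ξ : On) : Prop := ∀ η < ξ, Order.IsSuccLimit η → R.S η < omega 1

structure Agree (R R' : Rn) (ξ : On) : Prop where
  H : ∀ η < ξ, HAg (R.H η) (R'.H η) η
  U : ∀ η < ξ, R.U η = R'.U η
  S : ∀ η < ξ, Order.IsSuccLimit η → R.S η = R'.S η
  J : ∀ η < ξ, Order.IsSuccLimit η → ∀ n, R.J η n = R'.J η n
  r : ∀ η < ξ, ∀ i, R.r η i ↔ R'.r η i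

section run

variable {sh : Bool} {Z Z' : Zt} {R R' R'' : Rn} {ξ τ : On} {h h' : Ht}

theorem runc_symm (e : HAg h h' ξ) : HAg h' h ξ := fun η hη m => (e η hη m).symm

theorem Agree.mono (e : Agree R R' ξ) {η : On} (hη : η ≤ ξ) : Agree R R' η := by
  exact ⟨fun a h => e.H a (h.trans_le hη), fun a h => e.U a (h.trans_le hη),
    fun a h => e.S a (h.trans_le hη), fun a h => e.J a (h.trans_le hη),
    fun a h => e.r a (h.trans_le hη)⟩

theorem Agree.symm (e : Agree R R' ξ) : Agree R' R ξ := by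
  exact ⟨fun a h => runc_symm (e.H a h), fun a h => (e.U a h).symm,
    fun a h l => (e.S a h l).symm, fun a h l n => (e.J a h l n).symm,
    fun a h i => (e.r a h i).symm⟩

theorem Agree.trans (e : Agree R R' ξ) (e' : Agree R' R'' ξ) : Agree R R'' ξ := by
  exact ⟨fun a h η hη m => (e.H a h η hη m).trans (e'.H a h η hη m),
    fun a h => (e.U a h).trans (e'.U a h), fun a h l => (e.S a h l).trans (e'.S a h l),
    fun a h l n => (e.J a h l n).trans (e'.J a h l n), fun a h i => (e.r a h i).trans (e'.r a h i)⟩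

theorem PS_congr (e : ZAg Z Z' ξ) (e' : HAg h h' ξ) : PS sh Z ξ h = PS sh Z' ξ h' := by
  rw [PS, PS, mrk_congr e e']

theorem Stage.congr (s : Stage Z R ξ h τ) (e : ZAg Z Z' ξ) (e' : HAg h h' ξ)
    (e'' : Agree R R' ξ) : Stage Z' R' ξ h' τ := by
  refine ⟨s.col.congr e e', fun η hη => ?_, fun h0 => e' 0 h0 0 ▸ s.ge h0,
    fun l => e' 0 l.bot_lt 0 ▸ s.lim l, fun η hη η' hη' m hm => ?_⟩
  · obtain ⟨m, hm⟩ := s.rows η hη
    exact ⟨m, fun η' hη' m' => e' η hη m ▸ e' η' (hη'.trans hη) m' ▸ hm η' hη' m'⟩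
  · rw [← e''.H η hη η' hη', ← e''.H η hη 0 (zero_le.trans_lt hη')] at hm
    rw [← e''.H η hη η' hη', ← e' η' (hη'.trans hη), s.fix η hη η' hη' m hm]

theorem runc_cof {P : Set On} (o : One Z R P ξ) (l : Order.IsSuccLimit ξ) :
    StrictMono (R.J ξ) ∧ (∀ n, R.J ξ n < ξ) ∧ ∀ η' < ξ, ∃ n, η' < R.J ξ n :=
  (o.lad l).cof o.stage.col o.stage.rows l (o.fnd l).1 (o.fnd l).2

/-- The right side of the recursion only depends on earlier reals and on the ladder. -/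
theorem runc_rhs {r r' : On → ℕ → Prop} {J J' : ℕ → On}
    (hJ : Order.IsSuccLimit ξ → ∀ n, J n = J' n) (hlt : Order.IsSuccLimit ξ → ∀ n, J n < ξ)
    (hr : ∀ η < ξ, ∀ i, r η i ↔ r' η i) (i : ℕ) :
    ((∃ η' < ξ, ξ = η' + 1 ∧ (i = 0 ∨ ∃ i' : ℕ, i = i' + 1 ∧ r η' i')) ∨
      (Order.IsSuccLimit ξ ∧ i ≠ 0 ∧ r (J (oa i)) (ob i))) ↔
    ((∃ η' < ξ, ξ = η' + 1 ∧ (i = 0 ∨ ∃ i' : ℕ, i = i' + 1 ∧ r' η' i')) ∨
      (Order.IsSuccLimit ξ ∧ i ≠ 0 ∧ r' (J' (oa i)) (ob i))) := by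
  refine or_congr (exists_congr fun η => and_congr_right fun hη => and_congr_right fun _ =>
    or_congr_right (exists_congr fun i' => and_congr_right fun _ => hr η hη i'))
    (and_congr_right fun l => and_congr_right fun _ => ?_)
  rw [← hJ l]
  exact hr _ (hlt l _) _

theorem runc_rcl (c : RCl R ξ) (hJ : Order.IsSuccLimit ξ → ∀ n, R.J ξ n = R'.J ξ n)
    (hlt : Order.IsSuccLimit ξ → ∀ n, R.J ξ n < ξ) (h0 : ∀ i, R.r ξ i ↔ R'.r ξ i)
    (hr : ∀ η < ξ, ∀ i, R.r η i ↔ R'.r η i) : RCl R' ξ :=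
  fun i => (h0 i).symm.trans ((c i).trans (runc_rhs hJ hlt hr i))

/-- The table only matters below a level that bounds the name. -/
theorem One.congr {P P' : Set On} {L : On} (o : One Z R P ξ) (e : ZAg Z Z' ξ)
    (e' : Agree R R' (ξ + 1)) (hL : IsLev L) (h1 : Order.IsSuccLimit ξ → R.S ξ < L)
    (h2 : ∀ c < L, c ∈ P ↔ c ∈ P') : One Z' R' P' ξ := by
  have hξ : ξ < ξ + 1 := lt_add_one ξ
  have eH := e'.H ξ hξ
  refine ⟨e'.U ξ hξ ▸ o.stage.congr e eH (e'.mono hξ.le), fun l => ?_, fun l s hs f => ?_,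
    fun l => ?_, runc_rcl o.rcl (e'.J ξ hξ) (fun l => (runc_cof o l).2.1) (e'.r ξ hξ)
      fun η hη => e'.r η (hη.trans hξ)⟩
  · rw [← e'.U ξ hξ, ← e'.S ξ hξ l]
    exact (o.fnd l).congr eH (extP_congr hL (h1 l) h2)
  · rw [← e'.S ξ hξ l] at hs
    rw [← e'.U ξ hξ] at f
    exact o.least l s hs (f.congr (runc_symm eH) (extP_congr hL (hs.trans (h1 l)) h2).symm)
  · rw [← e'.U ξ hξ, ← e'.S ξ hξ l, ← extP_congr hL (h1 l) h2]
    exact (o.lad l).congr eH l (e'.J ξ hξ l)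

theorem Pre.mono (p : Pre sh Z R ξ) {η : On} (hη : η ≤ ξ) : Pre sh Z R η := by
  exact fun a h => p a (h.trans_le hη)

theorem Cnt.mono (p : Cnt R ξ) {η : On} (hη : η ≤ ξ) : Cnt R η := by
  exact fun a h => p a (h.trans_le hη)

theorem Cnt.congr (p : Cnt R ξ) (e : Agree R R' ξ) : Cnt R' ξ := by
  exact fun a h l => e.S a h l ▸ p a h l

theorem Pre.congr (p : Pre sh Z R ξ) (e : ∀ β < ξ, ZAg Z Z' β) (e' : Agree R R' ξ) :
    Pre sh Z' R' ξ := by
  intro η hη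
  obtain ⟨L, hL, h1⟩ := exists_lev (R.S η)
  rw [← PS_congr (e η hη) (e'.H η hη)]
  exact (p η hη).congr (e η hη) (e'.mono (Order.add_one_le_of_lt hη)) hL (fun _ => h1)
    fun _ _ => Iff.rfl

theorem Pre.lad (p : Pre sh Z R ξ) {η : On} (h1 : η < ξ) (h2 : Order.IsSuccLimit η) :
    StrictMono (R.J η) ∧ (∀ n, R.J η n < η) ∧ ∀ η' < η, ∃ n, η' < R.J η n := by
  exact runc_cof (p η h1) h2

theorem Pre.unique (p : Pre sh Z R ξ) (p' : Pre sh Z' R' ξ)
    (e : ∀ β < ξ, (∀ η < β, ∀ i, R.r η i ↔ R'.r η i) → ZAg Z Z' β) : Agree R R' ξ := by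
  have key : ∀ β < ξ, HAg (R.H β) (R'.H β) β ∧ R.U β = R'.U β ∧
      (Order.IsSuccLimit β → R.S β = R'.S β) ∧
      (Order.IsSuccLimit β → ∀ n, R.J β n = R'.J β n) ∧ ∀ i, R.r β i ↔ R'.r β i := by
    intro β
    induction β using WellFoundedLT.induction with
    | ind β ih =>
      intro hβ
      have hr : ∀ η < β, ∀ i, R.r η i ↔ R'.r η i := fun η hη => (ih η hη (hη.trans hβ)).2.2.2.2
      have o := p β hβ
      have o' := p' β hβ
      obtain ⟨eU, eH⟩ := o.stage.col.unique o'.stage.col (e β hβ hr)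
      rw [← PS_congr (e β hβ hr) eH] at o'
      have eS : Order.IsSuccLimit β → R.S β = R'.S β := fun l => by
        refine le_antisymm (not_lt.1 fun hlt => o.least l _ hlt ?_)
          (not_lt.1 fun hlt => o'.least l _ hlt ?_)
        · exact eU ▸ (o'.fnd l).congr (runc_symm eH) rfl
        · exact eU ▸ (o.fnd l).congr eH rfl
      have eJ : Order.IsSuccLimit β → ∀ n, R.J β n = R'.J β n := fun l => by
        have h1 := o'.lad l
        rw [← eU, ← eS l] at h1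
        exact ((o.lad l).congr eH l fun _ => rfl).unique h1
      exact ⟨eH, eU, eS, eJ, fun i => (o.rcl i).trans
        ((runc_rhs eJ (fun l => (runc_cof o l).2.1) hr i).trans (o'.rcl i).symm)⟩
  exact ⟨fun β h => (key β h).1, fun β h => (key β h).2.1, fun β h => (key β h).2.2.1,
    fun β h => (key β h).2.2.2.1, fun β h => (key β h).2.2.2.2⟩

theorem runb_succ {β : On} (k : RCl R (β + 1)) (i : ℕ) :
    R.r (β + 1) i ↔ i = 0 ∨ ∃ i' : ℕ, i = i' + 1 ∧ R.r β i' := by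
  refine (k i).trans ⟨?_, fun h => Or.inl ⟨β, lt_add_one β, rfl, h⟩⟩
  rintro (⟨η, -, h1, h2⟩ | h)
  · rwa [Order.succ_injective h1]
  · exact absurd h.1 (Order.not_isSuccLimit_succ β)

theorem runb_lim {β : On} (k : RCl R β) (hβ : Order.IsSuccLimit β) (i : ℕ) :
    R.r β i ↔ i ≠ 0 ∧ R.r (R.J β (oa i)) (ob i) := by
  refine (k i).trans ⟨?_, fun h => Or.inr ⟨hβ, h⟩⟩
  rintro (⟨η, -, rfl, -⟩ | h)
  · exact absurd hβ (Order.not_isSuccLimit_succ η)
  · exact h.2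

theorem runb_zero (k : RCl R 0) (i : ℕ) : ¬ R.r 0 i := by
  rw [k i]
  rintro (⟨η, h, -⟩ | h)
  · exact absurd h not_lt_bot
  · exact h.1.pos.false

theorem runb_ne (p : Pre sh Z R ξ) {η : On} (h1 : η < ξ) (h0 : η ≠ 0) : ∃ i, R.r η i := by
  induction η using WellFoundedLT.induction with
  | _ η ih =>
  rcases zero_or_succ_or_isSuccLimit η with h | ⟨β, rfl⟩ | h
  · exact absurd h h0
  · exact ⟨0, (runb_succ (p _ h1).rcl 0).2 (Or.inl rfl)⟩
  · obtain ⟨h2, h3, -⟩ := p.lad h1 h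
    obtain ⟨i, hi⟩ := ih _ (h3 1) ((h3 1).trans h1) (h2 zero_lt_one).ne_bot
    exact ⟨mk 0 1 i 0, (runb_lim (p _ h1).rcl h _).2 ⟨mk_ne_zero _ _ _ _, by simpa using hi⟩⟩

/-- The reals are pairwise different.  Hint: `r η` is nonempty for `η > 0`; induction on `η`. -/
theorem Pre.r_inj (p : Pre sh Z R ξ) {η η' : On} (h1 : η < ξ) (h2 : η' < ξ)
    (e : ∀ i, R.r η i ↔ R.r η' i) : η = η' := by
  induction η using WellFoundedLT.induction generalizing η' with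
  | _ η ih =>
  have k := (p _ h1).rcl
  have k' := (p _ h2).rcl
  have z : ∀ {a b : On}, a < ξ → b < ξ → (∀ i, R.r a i ↔ R.r b i) → a = 0 → b = 0 := by
    rintro _ b ha hb e rfl
    by_contra h
    obtain ⟨i, hi⟩ := runb_ne p hb h
    exact runb_zero (p _ ha).rcl i ((e i).2 hi)
  rcases zero_or_succ_or_isSuccLimit η with h | ⟨β, rfl⟩ | h
  · rw [h, z h1 h2 e h]
  · rcases zero_or_succ_or_isSuccLimit η' with h' | ⟨β', rfl⟩ | h'
    · rw [h', z h2 h1 (fun i => (e i).symm) h']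
    · refine congrArg _ (ih β (Order.lt_succ β) ((Order.lt_succ β).trans h1)
        ((Order.lt_succ β').trans h2) fun i => ?_)
      simpa using (runb_succ k (i + 1)).symm.trans ((e _).trans (runb_succ k' (i + 1)))
    · exact absurd rfl ((runb_lim k' h' 0).1 ((e 0).1 ((runb_succ k 0).2 (Or.inl rfl)))).1
  · rcases zero_or_succ_or_isSuccLimit η' with h' | ⟨β', rfl⟩ | h'
    · rw [h', z h2 h1 (fun i => (e i).symm) h']
    · exact absurd rfl ((runb_lim k h 0).1 ((e 0).2 ((runb_succ k' 0).2 (Or.inl rfl)))).1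
    · obtain ⟨-, h3, h4⟩ := p.lad h1 h
      obtain ⟨-, h5, h6⟩ := p.lad h2 h'
      have h7 : ∀ n, R.J η n = R.J η' n := fun n =>
        ih _ (h3 n) ((h3 n).trans h1) ((h5 n).trans h2) fun i => by
          simpa [mk_ne_zero] using (runb_lim k h (mk 0 n i 0)).symm.trans
            ((e _).trans (runb_lim k' h' _))
      refine le_antisymm (not_lt.1 fun l => ?_) (not_lt.1 fun l => ?_)
      · obtain ⟨n, hn⟩ := h4 _ l
        exact hn.not_gt (h7 n ▸ h5 n)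
      · obtain ⟨n, hn⟩ := h6 _ l
        exact hn.not_gt (h7 n ▸ h3 n)

theorem Pre.step (p : Pre sh Z R ξ) (s : Stage Z R ξ h τ) {b : On}
    (f : Order.IsSuccLimit ξ → ∃ s < b, Fnd (PS sh Z ξ h) h τ ξ s) :
    ∃ R', Agree R R' ξ ∧ Pre sh Z R' (ξ + 1) ∧ R'.H ξ = h ∧ R'.U ξ = τ ∧
      (Order.IsSuccLimit ξ → R'.S ξ < b) := by
  obtain ⟨s₀, h1⟩ : ∃ s₀, Order.IsSuccLimit ξ → s₀ < b ∧ Fnd (PS sh Z ξ h) h τ ξ s₀ ∧
      ∀ s < s₀, ¬ Fnd (PS sh Z ξ h) h τ ξ s := by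
    refine ⟨sInf {s | Fnd (PS sh Z ξ h) h τ ξ s}, fun l => ?_⟩
    obtain ⟨s₁, h1, h2⟩ := f l
    exact ⟨(csInf_le' (s := {s | Fnd (PS sh Z ξ h) h τ ξ s}) h2).trans_lt h1,
      csInf_mem (s := {s | Fnd (PS sh Z ξ h) h τ ξ s}) ⟨s₁, h2⟩,
      fun s hs => notMem_of_lt_csInf' (s := {s | Fnd (PS sh Z ξ h) h τ ξ s}) hs⟩
  obtain ⟨J₀, h2⟩ := exists_lad (extP (PS sh Z ξ h) s₀) h τ ξ
  obtain ⟨R', e, eH, eU, eS, eJ, er⟩ : ∃ R', Agree R R' ξ ∧ R'.H ξ = h ∧ R'.U ξ = τ ∧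
      R'.S ξ = s₀ ∧ R'.J ξ = J₀ ∧ ∀ i, R'.r ξ i ↔
        (∃ η' < ξ, ξ = η' + 1 ∧ (i = 0 ∨ ∃ i' : ℕ, i = i' + 1 ∧ R.r η' i')) ∨
          (Order.IsSuccLimit ξ ∧ i ≠ 0 ∧ R.r (J₀ (oa i)) (ob i)) := by
    refine ⟨⟨Function.update R.H ξ h, Function.update R.U ξ τ, Function.update R.S ξ s₀,
      Function.update R.J ξ J₀, Function.update R.r ξ fun i =>
        (∃ η' < ξ, ξ = η' + 1 ∧ (i = 0 ∨ ∃ i' : ℕ, i = i' + 1 ∧ R.r η' i')) ∨
          (Order.IsSuccLimit ξ ∧ i ≠ 0 ∧ R.r (J₀ (oa i)) (ob i))⟩,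
      ⟨fun η hη _ _ _ => ?_, fun η hη => ?_, fun η hη _ => ?_, fun η hη _ _ => ?_,
        fun η hη _ => ?_⟩, Function.update_self .., Function.update_self ..,
      Function.update_self .., Function.update_self ..,
      fun i => by simp only [Function.update_self]⟩ <;>
      simp only [Function.update_of_ne hη.ne]
  refine ⟨R', e, fun η hη => ?_, eH, eU, fun l => eS ▸ (h1 l).1⟩
  rcases (Order.lt_add_one_iff.1 hη).lt_or_eq with h3 | rfl
  · exact p.congr (fun _ _ _ _ _ _ _ => Iff.rfl) e η h3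
  · subst eH eU eS eJ
    refine ⟨s.congr (fun _ _ _ _ _ => Iff.rfl) (fun _ _ _ => rfl) e, fun l => (h1 l).2.1,
      fun l => (h1 l).2.2, fun _ => h2, fun i => (er i).trans (runc_rhs (fun _ _ => rfl)
        (fun l => (h2.cof s.col s.rows l (h1 l).2.1.1 (h1 l).2.1.2).2.1) e.r i)⟩

/-- Runs for the stages below `ξ` are put together. -/
theorem exists_glue (Rs : On → Rn) (e : ∀ β < ξ, ∀ β' < β, Agree (Rs β') (Rs β) (β' + 1)) :
    ∃ R, ∀ β < ξ, Agree (Rs β) R (β + 1) := by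
  have k : ∀ β < ξ, ∀ η < β + 1, Agree (Rs β) (Rs η) (η + 1) := fun β hβ η hη => by
    rcases (Order.le_of_lt_add_one hη).eq_or_lt with rfl | h
    · exact ⟨fun _ _ _ _ _ => rfl, fun _ _ => rfl, fun _ _ _ => rfl, fun _ _ _ _ => rfl,
        fun _ _ _ => Iff.rfl⟩
    · exact (e β hβ η h).symm
  exact ⟨⟨fun η => (Rs η).H η, fun η => (Rs η).U η, fun η => (Rs η).S η, fun η => (Rs η).J η,
    fun η => (Rs η).r η⟩, fun β hβ => ⟨fun η hη => (k β hβ η hη).H η (lt_add_one η),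
      fun η hη => (k β hβ η hη).U η (lt_add_one η), fun η hη => (k β hβ η hη).S η (lt_add_one η),
      fun η hη => (k β hβ η hη).J η (lt_add_one η), fun η hη => (k β hβ η hη).r η (lt_add_one η)⟩⟩

theorem Pre.of_glue (hp : ∀ β < ξ, ∃ Z' R', Pre sh Z' R' (β + 1) ∧ ZAg Z' Z β ∧
    Agree R' R (β + 1)) : Pre sh Z R ξ := by
  intro β hβ
  obtain ⟨Z', R', p, e, e'⟩ := hp β hβ
  exact p.congr (fun _ h => e.mono (Order.le_of_lt_add_one h)) e' β (lt_add_one β)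

theorem runb_le {η τ' : On} (c : IsCol Z η h' τ') (c' : IsCol Z ξ h τ) (hη : η ≤ ξ) {β : On}
    (hβ : β < η) (m : ℕ) : h' β m ≤ h β m := by
  induction k : h' β m using WellFoundedLT.induction generalizing β m with
  | _ z ih =>
  subst k
  refine not_lt.1 fun l => ?_
  obtain ⟨γ, h1, n, h2⟩ := c.onto _ (l.trans (c.lt β hβ m))
  rw [← h2] at l
  exact (ih _ l h1 n rfl).not_gt (h2 ▸ (c'.ord _ (h1.trans_le hη) _ (hβ.trans_le hη) _ _).1
    ((c.ord _ h1 _ hβ _ _).2 l))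

theorem Stage.alpha_le (p : Pre sh Z R ξ) (s : Stage Z R ξ h τ) {η : On} (h0 : 0 < η)
    (h1 : η < ξ) : R.H η 0 0 ≤ h 0 0 := by
  exact runb_le (p η h1).stage.col s.col h1.le h0 0

theorem Stage.alpha_lim (p : Pre sh Z R ξ) (s : Stage Z R ξ h τ) (hξ : Order.IsSuccLimit ξ)
    {z : On} (hz : z < h 0 0) : ∃ η, 0 < η ∧ η < ξ ∧ z < R.H η 0 0 := by
  obtain ⟨β, h1, m, rfl⟩ := s.col.onto z (hz.trans (s.col.lt 0 hξ.pos 0))
  have h2 := hξ.succ_lt h1
  have h3 := Order.lt_succ β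
  have h4 := ((p _ h2).stage.col.ord _ h3 _ h3.bot_lt _ _).1 ((s.col.ord _ h1 _ hξ.pos _ _).2 hz)
  exact ⟨_, h3.bot_lt, h2, (s.fix _ h2 β h3 m h4).trans_lt h4⟩

end run

end Pool.Agent.MP_fd3eaf_lc

end

-- part MP_fd3eaf_lc.Psi
section

/-!
Runs of reals, the statement that is forced, and the descent argument.
-/

set_option autoImplicit false

namespace Pool.Agent.MP_fd3eaf_lc

open Set Ordinal

/-- `c` codes `n` and initial segments of the reals `a` and `b`. -/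
def Node (a b : ℕ → Prop) (n : ℕ) (c : On) : Prop :=
  lev c = ω ∧ cut c = 0 ∧ fml c = n ∧ ∀ i : ℕ, i < (par c).length → lv (par c) i < 4 ∧
    (a i ↔ lv (par c) i = 1 ∨ lv (par c) i = 3) ∧ (b i ↔ lv (par c) i = 2 ∨ lv (par c) i = 3)

/-- Almost disjoint coding. -/
def Zx (x : Set On) (r : On → ℕ → Prop) : Zt := fun η η' n =>
  ∀ N : ℕ, ∃ c < nl ω, c ∈ x ∧ Node (r η) (r η') n c ∧ N ≤ (par c).length

theorem exists_node (a b : ℕ → Prop) (n N : ℕ) :
    ∃ c < nl ω, Node a b n c ∧ (par c).length = N := by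
  classical
  let f : ℕ → ℕ := fun i => if a i then (if b i then 3 else 1) else (if b i then 2 else 0)
  have hv : (Loc.mk ω n 0 ((List.range N).map fun i => (f i : On))).Valid := by
    refine ⟨zero_le, fun x hx => ?_⟩
    obtain ⟨i, -, rfl⟩ := List.mem_map.1 hx
    exact natCast_lt_omega0 _
  have hp := par_code isLev_omega hv
  refine ⟨_, code_lt_nl ⟨ω, n, 0, (List.range N).map fun i => (f i : On)⟩,
    ⟨lev_code isLev_omega hv, cut_code isLev_omega hv, fml_code isLev_omega hv, fun i hi => ?_⟩,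
    by rw [hp, List.length_map, List.length_range]⟩
  rw [hp, List.length_map, List.length_range] at hi
  have e : lv ((List.range N).map fun i => (f i : On)) i = f i := by
    rw [lv, List.getD_eq_getElem _ _ (by simpa using hi)]
    simp
  rw [hp]
  dsimp only
  rw [e]
  have h4 : ((f i : On) < 4 ↔ f i < 4) := Nat.cast_lt (α := On) (n := 4)
  have h1 : ((f i : On) = 1 ↔ f i = 1) := Nat.cast_eq_one
  have h2 : ((f i : On) = 2 ↔ f i = 2) := Nat.cast_inj (R := On) (n := 2)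
  have h3 : ((f i : On) = 3 ↔ f i = 3) := Nat.cast_inj (R := On) (n := 3)
  rw [h4, h1, h2, h3]
  by_cases ha : a i <;> by_cases hb : b i <;> simp [f, ha, hb]

theorem Node.congr {a b a' b' : ℕ → Prop} {n : ℕ} {c : On} (h : Node a b n c)
    (h1 : ∀ i, a i ↔ a' i) (h2 : ∀ i, b i ↔ b' i) : Node a' b' n c := by
  exact ⟨h.1, h.2.1, h.2.2.1, fun i hi => let k := h.2.2.2 i hi
    ⟨k.1, (h1 i).symm.trans k.2.1, (h2 i).symm.trans k.2.2⟩⟩

theorem node_ad {a b a' b' : ℕ → Prop} {n n' : ℕ}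
    (h : ¬ ((∀ i, a i ↔ a' i) ∧ (∀ i, b i ↔ b' i) ∧ n = n')) :
    ∃ N, ∀ c, Node a b n c → Node a' b' n' c → (par c).length < N := by
  by_contra hn
  have key : ∀ N, ∃ c, Node a b n c ∧ Node a' b' n' c ∧ N ≤ (par c).length := fun N => by
    by_contra k
    exact hn ⟨N, fun c h1 h2 => not_le.1 fun m => k ⟨c, h1, h2, m⟩⟩
  refine h ⟨fun i => ?_, fun i => ?_, ?_⟩
  · obtain ⟨c, h1, h2, h3⟩ := key (i + 1)
    exact (h1.2.2.2 i h3).2.1.trans (h2.2.2.2 i h3).2.1.symm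
  · obtain ⟨c, h1, h2, h3⟩ := key (i + 1)
    exact (h1.2.2.2 i h3).2.2.trans (h2.2.2.2 i h3).2.2.symm
  · obtain ⟨c, h1, h2, -⟩ := key 0
    exact h1.2.2.1.symm.trans h2.2.2.1

theorem zx_congr {x : Set On} {r r' : On → ℕ → Prop} {ξ : On}
    (h : ∀ η < ξ, ∀ i, r η i ↔ r' η i) : ZAg (Zx x r) (Zx x r') ξ := by
  intro η hη η' hη' n
  refine forall_congr' fun N => exists_congr fun c => and_congr_right fun _ =>
    and_congr_right fun _ => and_congr_left fun _ => ?_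
  exact ⟨fun k => k.congr (h η hη) (h η' hη'),
    fun k => k.congr (fun i => (h η hη i).symm) fun i => (h η' hη' i).symm⟩

/-- The run of the real `x`. -/
def XPre (sh : Bool) (x : Set On) (R : Rn) (ξ : On) : Prop :=
  Pre sh (Zx x R.r) R ξ ∧ Cnt R ξ

def FoundAt (sh : Bool) (y : Set On) (β s : On) : Prop :=
  ∃ R h τ, XPre sh y R β ∧ Stage (Zx y R.r) R β h τ ∧ Fnd (PS sh (Zx y R.r) β h) h τ β s

def Total (sh : Bool) (y : Set On) : Prop := ∃ R, XPre sh y R (omega 1)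

/-- `Onto`, computed from a table. -/
def OntoP (P : Set On) (s μ ζ : On) : Prop := ∀ x < ζ, ∃ ξ < μ, fo P (ins s ξ) = x

theorem ontoP_TS {A : Set On} {s μ ζ : On} : OntoP (TS A) s μ ζ ↔ Onto A s μ ζ := by
  exact Iff.rfl

theorem ontoP_congr {P P' : Set On} {L s μ ζ : On} (hL : IsLev L) (hs : s < L)
    (h : ∀ c < L, c ∈ P ↔ c ∈ P') : OntoP P s μ ζ ↔ OntoP P' s μ ζ := by
  refine forall₂_congr fun x _ => exists_congr fun ξ => and_congr_right fun _ => ?_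
  have k : ins s ξ < L := code_lt_lev hL ((lev_le s).trans_lt hs)
  rw [fo_congr (B := P') fun c hc => h c (hc.trans k)]

/-- `c` is a true location of the formula `k` with parameter `a` at a nice level. -/
def Loc1 (k : ℕ) (a : On) (P : Set On) (c : On) : Prop :=
  Nice (Iio (lev c)) ∧ a < lev c ∧ c = code ⟨lev c, k, lev c, [a]⟩ ∧ c ∈ P

/-- The requirements at a limit stage. -/
structure Con (sh use : Bool) (y : Set On) (k : ℕ) (a : On) (P : Set On) (ξ : On) (h : Ht)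
    (τ : On) : Prop where
  loc : Loc1 k a P (h 0 1)
  card : ∀ s₀ < omega 1, (∀ s < s₀, ¬ Fnd P h τ ξ s) →
    ∀ μ < lev (h 0 1), ¬ OntoP P s₀ μ (lev (h 0 1))
  nf : use = true → ∀ s₀ < omega 1, (∀ s < s₀, ¬ Fnd P h τ ξ s) → ¬ FoundAt sh y (h 0 0) s₀

theorem Con.congr {sh use : Bool} {y : Set On} {k : ℕ} {a : On} {P : Set On} {ξ τ : On}
    {h h' : Ht} (c : Con sh use y k a P ξ h τ) (h0 : 0 < ξ) (e : HAg h h' ξ) :
    Con sh use y k a P ξ h' τ := by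
  have e1 : ∀ s₀, (∀ s < s₀, ¬ Fnd P h' τ ξ s) → ∀ s < s₀, ¬ Fnd P h τ ξ s :=
    fun s₀ k s hs f => k s hs (f.congr e rfl)
  refine ⟨e 0 h0 1 ▸ c.loc, fun s₀ hs k => ?_, fun hu s₀ hs k => ?_⟩
  · rw [← e 0 h0 1]
    exact c.card s₀ hs (e1 s₀ k)
  · rw [← e 0 h0 0]
    exact c.nf hu s₀ hs (e1 s₀ k)

/-- The statement about `x`. -/
structure Psi (sh use : Bool) (x y : Set On) (k : ℕ) (a : On) : Prop where
  step : ∀ ξ < omega 1, ∀ R, XPre sh x R ξ → ∃ h τ, Stage (Zx x R.r) R ξ h τ ∧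
    (sh = false → Order.IsSuccLimit ξ → ∃ s < omega 1, Fnd (PS sh (Zx x R.r) ξ h) h τ ξ s)
  con : ∀ ξ < omega 1, Order.IsSuccLimit ξ → ∀ R h τ, XPre sh x R ξ →
    Stage (Zx x R.r) R ξ h τ → Con sh use y k a (PS sh (Zx x R.r) ξ h) ξ h τ

section

variable {sh use : Bool} {x y : Set On} {k : ℕ} {a ξ τ : On} {R R' : Rn} {h : Ht}

theorem XPre.mono (p : XPre sh x R ξ) {η : On} (hη : η ≤ ξ) : XPre sh x R η := by
  exact ⟨p.1.mono hη, p.2.mono hη⟩

theorem XPre.unique (p : XPre sh x R ξ) (p' : XPre sh x R' ξ) : Agree R R' ξ := by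
  exact p.1.unique p'.1 fun _ _ e => zx_congr e

theorem XPre.congr (p : XPre sh x R ξ) (e : Agree R R' ξ) : XPre sh x R' ξ := by
  exact ⟨p.1.congr (fun _ hβ => zx_congr fun η hη => e.r η (hη.trans hβ)) e, p.2.congr e⟩

theorem XPre.step (p : XPre sh x R ξ) (s : Stage (Zx x R.r) R ξ h τ)
    (f : Order.IsSuccLimit ξ → ∃ s < omega 1, Fnd (PS sh (Zx x R.r) ξ h) h τ ξ s) :
    ∃ R', XPre sh x R' (ξ + 1) := by
  obtain ⟨R', e, p', -, -, hS⟩ := p.1.step s f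
  refine ⟨R', p'.congr (fun β hβ => zx_congr fun η hη =>
    e.r η (hη.trans_le (Order.lt_add_one_iff.1 hβ))) ⟨fun _ _ _ _ _ => rfl, fun _ _ => rfl,
      fun _ _ _ => rfl, fun _ _ _ _ => rfl, fun _ _ _ => Iff.rfl⟩, fun η hη hl => ?_⟩
  rcases (Order.lt_add_one_iff.1 hη).lt_or_eq with k | rfl
  · exact p.2.congr e η k hl
  · exact hS hl

theorem XPre.glue (hp : ∀ β < ξ, ∃ R, XPre sh x R (β + 1)) : ∃ R, XPre sh x R ξ := by
  have : Nonempty Rn := ⟨⟨fun _ _ _ => 0, id, id, fun _ _ => 0, fun _ _ => True⟩⟩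
  choose! Rs hR using hp
  obtain ⟨R, e⟩ := exists_glue (ξ := ξ) Rs fun β hβ β' hβ' =>
    (hR β' (hβ'.trans hβ)).unique ((hR β hβ).mono (add_le_add_left hβ'.le 1))
  exact ⟨R, fun η hη => ((hR η hη).congr (e η hη)).1 η (lt_add_one η),
    fun η hη => ((hR η hη).congr (e η hη)).2 η (lt_add_one η)⟩

/-- Finding at a stage of a longer run. -/
theorem XPre.foundAt (p : XPre sh y R ξ) {β s : On} (hβ : β < ξ) : FoundAt sh y β s ↔
    Fnd (PS sh (Zx y R.r) β (R.H β)) (R.H β) (R.U β) β s := by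
  have st := (p.1 β hβ).stage
  refine ⟨?_, fun f => ⟨R, _, _, p.mono hβ.le, st, f⟩⟩
  rintro ⟨R', h, τ, p', st', f⟩
  have e : ZAg (Zx y R'.r) (Zx y R.r) β := zx_congr (p'.unique (p.mono hβ.le)).r
  obtain ⟨rfl, e'⟩ := st'.col.unique st.col e
  exact f.congr e' (by rw [PS_congr e e'])

theorem psib_total (hs : ∀ ξ < omega 1, ∀ R, XPre sh x R ξ → ∃ h τ, Stage (Zx x R.r) R ξ h τ ∧
    (Order.IsSuccLimit ξ → ∃ s < omega 1, Fnd (PS sh (Zx x R.r) ξ h) h τ ξ s)) : Total sh x := by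
  refine XPre.glue fun β => ?_
  induction β using WellFoundedLT.induction with
  | ind β ih =>
    intro hβ
    obtain ⟨R, p⟩ := XPre.glue fun γ hγ => ih γ hγ (hγ.trans hβ)
    obtain ⟨h, τ, s, f⟩ := hs β hβ R p
    exact p.step s f

theorem psib_found (p : XPre sh y R (omega 1)) {β : On} (hβ : β < omega 1)
    (hl : Order.IsSuccLimit β) : R.S β < omega 1 ∧ FoundAt sh y β (R.S β) :=
  ⟨p.2 β hβ hl, (p.foundAt hβ).2 ((p.1 β hβ).fnd hl)⟩

theorem psib_lt {Z : Zt} (s : Stage Z R ξ h τ) (h0 : 0 < ξ) (hξ : ξ < omega 1) (m : ℕ) :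
    h 0 m < omega 1 :=
  (s.col.lt 0 h0 m).trans (s.col.lt_omega1 hξ)

theorem Psi.total_or (hψ : Psi sh use x y k a) : Total sh x ∨ ∃ ξ < omega 1, ∃ R h τ,
    Order.IsSuccLimit ξ ∧ XPre sh x R ξ ∧ Stage (Zx x R.r) R ξ h τ ∧
      ∀ s < omega 1, ¬ Fnd (PS sh (Zx x R.r) ξ h) h τ ξ s := by
  refine or_iff_not_imp_right.2 fun hn => psib_total fun ξ hξ R p => ?_
  obtain ⟨h, τ, s, -⟩ := hψ.step ξ hξ R p
  refine ⟨h, τ, s, fun hl => by_contra fun hc => hn ⟨ξ, hξ, R, h, τ, hl, p, s, ?_⟩⟩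
  exact fun s h1 h2 => hc ⟨s, h1, h2⟩

theorem Psi.total_false (hψ : Psi false use x y k a) : Total false x := by
  exact psib_total fun ξ hξ R p => let ⟨h, τ, s, f⟩ := hψ.step ξ hξ R p; ⟨h, τ, s, f rfl⟩

theorem Psi.total_use (hψ : Psi sh true x y k a) (hy : Total sh y) : Total sh x := by
  refine hψ.total_or.resolve_right ?_
  rintro ⟨ξ, hξ, R, h, τ, hl, p, s, hn⟩
  obtain ⟨R', p'⟩ := hy
  obtain ⟨h1, h2⟩ := psib_found p' (psib_lt s hl.bot_lt hξ 0) (s.lim hl)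
  exact (hψ.con ξ hξ hl R h τ p s).nf rfl _ h1 (fun s hs => hn s (hs.trans h1)) h2

/-- Hint: take a limit `ξ < ω₁` that is closed under all `η ↦ (R n).H η 0 0`; then
`(R n).H ξ 0 0 = ξ` and `(R (n+1)).S ξ < (R n).S ξ`. -/
theorem no_chain (x : ℕ → Set On) (h0 : Total sh (x 0))
    (hψ : ∀ n, Psi sh true (x (n + 1)) (x n) k a) : False := by
  have ht : ∀ n, Total sh (x n) := fun n => Nat.rec h0 (fun n ih => (hψ n).total_use ih) n
  choose R p using ht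
  have hC := (Clb.iInter uc_omega1 fun n => tmc_clb (fun η => if 0 < η then (R n).H η 0 0 else 0)
    fun η hη => by
      split_ifs with h1
      exacts [psib_lt ((p n).1 η hη).stage h1 hη 0, nice_omega1.zero_mem]).inter uc_omega1 clb_limit
  obtain ⟨ξ, ⟨h1, hξ, hl⟩, -⟩ := hC.unb 0 nice_omega1.zero_mem
  have hfix : ∀ n, (R n).H ξ 0 0 = ξ := fun n => by
    have s := ((p n).1 ξ hξ).stage
    refine le_antisymm (le_of_forall_lt fun z hz => ?_) (s.ge hl.bot_lt)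
    obtain ⟨η, a1, a2, a3⟩ := s.alpha_lim ((p n).1.mono hξ.le) hl hz
    have a4 := (mem_iInter.1 h1 n).2.2 η a2
    rw [if_pos a1] at a4
    exact a3.trans a4
  have hlt : ∀ n, (R (n + 1)).S ξ < (R n).S ξ := fun n => by
    have o := (p (n + 1)).1 ξ hξ
    obtain ⟨a1, a2⟩ := psib_found (p n) hξ hl
    have c := ((hψ n).con ξ hξ hl _ _ _ ((p (n + 1)).mono hξ.le) o.stage).nf rfl _ a1
    rw [hfix] at c
    exact not_le.1 fun a3 => c (fun s hs => o.least hl s (hs.trans_le a3)) a2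
  obtain ⟨n, hn⟩ := WellFounded.not_rel_apply_succ (r := (· < ·)) fun n => (R n).S ξ
  exact hn (hlt n)

theorem Psi.refl (hψ : Psi true use x y k a) (hx : ¬ Total true x) :
    ∃ θ < omega 1, a < θ ∧ Nice (Iio θ) ∧ Card SS (Iio (omega 1)) θ ∧
      Sat SS (Iio θ) k (lv [a]) := by
  obtain ⟨ξ, hξ, R, h, τ, hl, p, s, hn⟩ := hψ.total_or.resolve_left hx
  have c := hψ.con ξ hξ hl R h τ p s
  have e : PS true (Zx x R.r) ξ h = TS SS := rfl
  rw [e] at c hn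
  obtain ⟨a1, a2, a3, a4⟩ := c.loc
  refine ⟨lev (h 0 1), (lev_le _).trans_lt (psib_lt s hl.bot_lt hξ 1), a2, a1,
    fun s₀ h1 μ h2 h3 => c.card s₀ h1 (fun s hs => hn s (hs.trans h1)) μ h2 (ontoP_TS.2 h3), ?_⟩
  rw [a3] at a4
  exact (T_code_lev (isLev_lev ((le_of_lt a1.omega_mem).trans (lev_le _)))
    fun b hb => List.mem_singleton.1 hb ▸ a2).1 a4

end

end Pool.Agent.MP_fd3eaf_lc

end

-- part MP_fd3eaf_lc.Poset
section

/-!
The first forcing: countable approximations to a surjection of `ω₁ × ω` onto `τ` whose runs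
succeed at every stage.
-/

set_option autoImplicit false

namespace Pool.Agent.MP_fd3eaf_lc

open Set Ordinal

/-- The parameters of the forcing. -/
structure Par where
  sh : Bool
  use : Bool
  A : Set On
  e : On
  τ : Cardinal.{0}
  θ : On
  k : ℕ
  a : On
  y : Set On

structure Par.Ok (S : Par) : Prop where
  sharp : S.sh = true → AllSharp
  sub : S.A ⊆ Iio S.e
  e_lt : S.e < S.τ.ord
  reg : S.τ.IsRegular
  big : Cardinal.aleph 1 < S.τ
  sing : Stn (Iio S.τ.ord) {δ | ¬ Rgl (Orc S.sh S.A) univ δ}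
  ge : omega 1 ≤ S.θ
  lt : S.θ < S.τ.ord
  nice : Nice (Iio S.θ)
  card : Card (Orc S.sh S.A) univ S.θ
  sat : Sat (Orc S.sh S.A) (Iio S.θ) S.k (lv [S.a])
  a_lt : S.a < omega 1
  tot : S.use = true → Total S.sh S.y

/-- The relation that is given by a function on the tokens. -/
def Zg (g : Ht) (A : Set On) : Zt := fun η η' n =>
  (tg n = 0 ∧ g η (oa n) < g η' (ob n)) ∨ (tg n = 1 ∧ g η (oa n) ∈ A)

theorem zg_ord {g : Ht} {A : Set On} {η η' : On} {m m' : ℕ} :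
    Zg g A η η' (mk 0 m m' 0) ↔ g η m < g η' m' := by
  simp [Zg]

theorem zg_mrk {g : Ht} {A : Set On} {η : On} {m : ℕ} :
    Zg g A η η (mk 1 m 0 0) ↔ g η m ∈ A := by
  simp [Zg]

theorem zg_congr {g g' : Ht} {A : Set On} {ξ : On} (h : HAg g g' ξ) :
    ZAg (Zg g A) (Zg g' A) ξ := by
  intro η hη η' hη' n
  simp only [Zg, h η hη, h η' hη']

theorem isCol_zg {g h : Ht} {A : Set On} {ξ τ : On} {f : On → On} (h1 : StrictMonoOn f (Iio τ))
    (h2 : ∀ η < ξ, ∀ m, h η m < τ ∧ f (h η m) = g η m)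
    (h3 : ∀ z < τ, ∃ η < ξ, ∃ m, h η m = z) : IsCol (Zg g A) ξ h τ := by
  refine ⟨fun η hη η' hη' m m' => ?_, fun η hη m => (h2 η hη m).1, h3⟩
  rw [zg_ord, ← (h2 η hη m).2, ← (h2 η' hη' m').2]
  exact h1.lt_iff_lt (h2 η hη m).1 (h2 η' hη' m').1

/-- The collapse exists and fixes an initial segment of the range. -/
theorem exists_isCol (g : Ht) (A : Set On) (ξ : On) : ∃ h τ, IsCol (Zg g A) ξ h τ ∧
    ∀ η < ξ, ∀ m, (∀ z < g η m, ∃ η' < ξ, ∃ m', g η' m' = z) → h η m = g η m := by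
  obtain ⟨B, hB⟩ : ∃ B, ∀ η < ξ, ∀ m, g η m < B :=
    ⟨⨆ t : Iio ξ × ℕ, g t.1 t.2 + 1, fun η hη m =>
      Ordinal.lt_iSup_add_one (fun t : Iio ξ × ℕ => g t.1 t.2) (⟨η, hη⟩, m)⟩
  obtain ⟨X, hX⟩ : ∃ X : Set On, ∀ z, z ∈ X ↔ ∃ η < ξ, ∃ m, g η m = z :=
    ⟨{z | ∃ η < ξ, ∃ m, g η m = z}, fun _ => Iff.rfl⟩
  have hex : ∀ η < ξ, ∀ m, ∃ x < otp X B, col X B x = g η m := fun η hη m =>
    (col_image (H := X) (η := B)).ge ⟨(hX _).2 ⟨η, hη, m, rfl⟩, hB η hη m⟩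
  choose! h h1 h2 using hex
  refine ⟨h, otp X B, isCol_zg (col_strictMono.strictMonoOn _)
    (fun η hη m => ⟨h1 η hη m, h2 η hη m⟩) fun z hz => ?_, fun η hη m hz => ?_⟩
  · obtain ⟨η, hη, m, e⟩ := (hX _).1 (condb_mem (col_lt_iff.2 hz))
    exact ⟨η, hη, m, col_strictMono.injective ((h2 η hη m).trans e)⟩
  · refine col_strictMono.injective ((h2 η hη m).trans
      (col_fix (μ := g η m + 1) (fun z hz' => (hX z).2 ?_) (lt_add_one _)).symm)
    rcases (Order.lt_add_one_iff.1 (mem_Iio.1 hz')).eq_or_lt with rfl | hz'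
    · exact ⟨η, hη, m, rfl⟩
    · exact hz z hz'

structure Cnd where
  len : On
  g : Ht
  R : Rn

structure Cnd.Ok (S : Par) (p : Cnd) : Prop where
  pos : 0 < p.len
  lt : p.len < omega 1
  pre : Pre S.sh (Zg p.g S.A) p.R (p.len + 1)
  cnt : Cnt p.R (p.len + 1)
  ran : ∀ η < p.len, ∀ m, p.g η m < S.τ.ord
  g0 : p.g 0 0 = omega 1
  g1 : p.g 0 1 = code ⟨S.θ, S.k, S.θ, [S.a]⟩
  ini : ∀ η < p.len, ∀ m, p.g η m < omega 1 → p.R.H p.len η m = p.g η m
  con : ∀ ξ ≤ p.len, Order.IsSuccLimit ξ →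
    Con S.sh S.use S.y S.k S.a (PS S.sh (Zg p.g S.A) ξ (p.R.H ξ)) ξ (p.R.H ξ) (p.R.U ξ)

/-- The conditions. -/
def P1 (S : Par) : Type 1 := {p : Cnd // p.Ok S}

instance (S : Par) : Preorder (P1 S) where
  le q p := p.1.len ≤ q.1.len ∧ HAg p.1.g q.1.g p.1.len
  le_refl _ := ⟨le_rfl, fun _ _ _ => rfl⟩
  le_trans _ _ _ h h' := ⟨h'.1.trans h.1, fun η hη m =>
    (h'.2 η hη m).trans (h.2 η (hη.trans_le h'.1) m)⟩

namespace P1

variable {S : Par} {p q : P1 S}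

theorem le_def : q ≤ p ↔ p.1.len ≤ q.1.len ∧ HAg p.1.g q.1.g p.1.len := Iff.rfl

/-- The part of the range below `ω₁`. -/
noncomputable def al (p : P1 S) : On := p.1.R.H p.1.len 0 0

theorem posa_stage (p : P1 S) {ξ : On} (h : ξ ≤ p.1.len) :
    Stage (Zg p.1.g S.A) p.1.R ξ (p.1.R.H ξ) (p.1.R.U ξ) :=
  (p.2.pre ξ (Order.lt_add_one_iff.2 h)).stage

theorem posa_lt (p : P1 S) {ξ η η' : On} (h : ξ ≤ p.1.len) (h1 : η < ξ) (h2 : η' < ξ) (m m' : ℕ) :
    p.1.R.H ξ η m < p.1.R.H ξ η' m' ↔ p.1.g η m < p.1.g η' m' :=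
  ((p.posa_stage h).col.ord η h1 η' h2 m m').symm.trans zg_ord

theorem agree (h : q ≤ p) : Agree p.1.R q.1.R (p.1.len + 1) := by
  exact p.2.pre.unique (q.2.pre.mono (add_le_add_left h.1 1)) fun β hβ _ =>
    (zg_congr h.2).mono (Order.lt_add_one_iff.1 hβ)

theorem lt_al {z : On} : z < p.al ↔ z < omega 1 ∧ ∃ η < p.1.len, ∃ m, p.1.g η m = z := by
  have c := (p.posa_stage le_rfl).col
  constructor
  · intro hz
    obtain ⟨η, hη, m, rfl⟩ := c.onto z (hz.trans (c.lt 0 p.2.pos 0))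
    have h1 := (p.posa_lt le_rfl hη p.2.pos m 0).1 hz
    rw [p.2.g0] at h1
    rw [p.2.ini η hη m h1]
    exact ⟨h1, η, hη, m, rfl⟩
  · rintro ⟨h1, η, hη, m, rfl⟩
    rw [← p.2.ini η hη m h1]
    exact (p.posa_lt le_rfl hη p.2.pos m 0).2 (h1.trans_eq p.2.g0.symm)

theorem al_lt (p : P1 S) : p.al < omega 1 := by
  have c := (p.posa_stage le_rfl).col
  exact (c.lt 0 p.2.pos 0).trans (c.lt_omega1 p.2.lt)

theorem len_le_al (p : P1 S) : p.1.len ≤ p.al := by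
  exact (p.posa_stage le_rfl).ge p.2.pos

theorem al_mono (h : q ≤ p) : p.al ≤ q.al := by
  refine le_of_forall_lt fun z hz => ?_
  obtain ⟨h1, η, hη, m, e⟩ := lt_al.1 hz
  exact lt_al.2 ⟨h1, η, hη.trans_le h.1, m, (h.2 η hη m).symm.trans e⟩

theorem rows (p : P1 S) : Rows p.1.len p.1.g := by
  intro η hη
  obtain ⟨m, hm⟩ := (p.posa_stage le_rfl).rows η hη
  exact ⟨m, fun η' h' m' => (p.posa_lt le_rfl (h'.trans hη) hη m' m).1 (hm η' h' m')⟩

/-- The collapses of all earlier stages fix the countable values. -/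
theorem ini' (p : P1 S) {ξ η : On} (h1 : ξ ≤ p.1.len) (h2 : η < ξ) {m : ℕ}
    (h3 : p.1.g η m < omega 1) : p.1.R.H ξ η m = p.1.g η m := by
  rcases h1.eq_or_lt with rfl | h4
  · exact p.2.ini η h2 m h3
  · have h5 := (p.posa_lt h1 h2 (zero_le.trans_lt h2) m 0).2 (h3.trans_eq p.2.g0.symm)
    rw [← (p.posa_stage le_rfl).fix ξ h4 η h2 m h5]
    exact p.2.ini η (h2.trans h4) m h3

theorem posb_nolim (ξ : On) : ¬ Order.IsSuccLimit (ξ + 1) := fun k =>
  (k.add_one_lt (lt_add_one ξ)).false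

theorem posb_omega_lt (h : S.Ok) : omega 1 < S.τ.ord := h.ge.trans_lt h.lt

/-- `g 0 0 = ω₁`, `g 0 1` as required, all other values `0`. -/
theorem nonempty (h : S.Ok) : Nonempty (P1 S) := by
  let c : On := code ⟨S.θ, S.k, S.θ, [S.a]⟩
  have c1 : omega 1 ≤ c := h.ge.trans (le_code (x := ⟨S.θ, S.k, S.θ, [S.a]⟩) h.nice.isLev
    ⟨le_rfl, fun a ha => by
      rw [List.mem_singleton.1 ha]
      exact h.a_lt.trans_le h.ge⟩)
  have c2 : c < S.τ.ord :=
    (nice_ord (Cardinal.aleph0_lt_aleph_one.trans h.big)).code_mem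
      (x := ⟨S.θ, S.k, S.θ, [S.a]⟩) h.lt
  let g : Ht := fun _ m => if m = 0 then omega 1 else if m = 1 then c else 0
  let R0 : Rn := ⟨fun _ _ _ => 0, fun _ => 0, fun _ => 0, fun _ _ => 0, fun _ _ => False⟩
  have p0 : Pre S.sh (Zg g S.A) R0 0 := fun η hη => absurd hη (not_lt.2 zero_le)
  have s0 : Stage (Zg g S.A) R0 0 (fun _ _ => 0) 0 :=
    ⟨⟨fun η hη => absurd hη (not_lt.2 zero_le), fun η hη => absurd hη (not_lt.2 zero_le),
      fun η hη => absurd hη (not_lt.2 zero_le)⟩, fun η hη => absurd hη (not_lt.2 zero_le),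
      fun k => absurd k (lt_irrefl _), fun k => absurd k.bot_lt (lt_irrefl _),
      fun η hη => absurd hη (not_lt.2 zero_le)⟩
  obtain ⟨R1, -, p1, -⟩ := p0.step s0 (b := 0) fun k => absurd k.bot_lt (lt_irrefl _)
  obtain ⟨f, τ', hc, hf⟩ := exists_isCol g S.A (0 + 1)
  have z0 : (0 : On) < 0 + 1 := lt_add_one 0
  have s1 : Stage (Zg g S.A) R1 (0 + 1) f τ' := by
    refine ⟨hc, fun η hη => ⟨0, fun η' k => ?_⟩, fun _ => Order.add_one_le_iff.2 ?_,
      fun k => absurd k (posb_nolim 0), fun η hη η' k => ?_⟩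
    · exact absurd (k.trans_le (Order.lt_add_one_iff.1 hη)) (not_lt.2 zero_le)
    · refine zero_le.trans_lt ((hc.ord 0 z0 0 z0 2 0).1 (zg_ord.2 ?_))
      exact omega_pos 1
    · exact absurd (k.trans_le (Order.lt_add_one_iff.1 hη)) (not_lt.2 zero_le)
  obtain ⟨R2, -, p2, e2, -⟩ := p1.step s1 (b := 0) fun k => absurd k (posb_nolim 0)
  have nl1 : ∀ ξ ≤ (0 : On) + 1, ¬ Order.IsSuccLimit ξ := fun ξ a k =>
    (k.add_one_lt k.bot_lt).not_ge a
  have g3 : ∀ η m, g η m = omega 1 ∨ g η m = c ∨ g η m = 0 := fun η m => by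
    simp only [g]
    split_ifs <;> simp
  refine ⟨⟨⟨0 + 1, g, R2⟩, z0, (Cardinal.isSuccLimit_omega 1).add_one_lt (omega_pos 1), p2,
    fun η hη k => absurd k (nl1 η (Order.lt_add_one_iff.1 hη)), fun η _ m => ?_, rfl, rfl,
    fun η hη m k => ?_, fun ξ a k => absurd k (nl1 ξ a)⟩⟩
  · change g η m < _
    rcases g3 η m with e | e | e <;> rw [e]
    exacts [posb_omega_lt h, c2, (omega_pos 1).trans (posb_omega_lt h)]
  · change R2.H (0 + 1) η m = g η m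
    rw [e2]
    refine hf η hη m fun z hz => ?_
    change g η m < omega 1 at k
    rcases g3 η m with e | e | e <;> rw [e] at k hz
    exacts [absurd k (lt_irrefl _), absurd k c1.not_gt, absurd hz (not_lt.2 zero_le)]

theorem posb_refl (R : Rn) (ξ : On) : Agree R R ξ :=
  ⟨fun _ _ _ _ _ => rfl, fun _ _ => rfl, fun _ _ _ => rfl, fun _ _ _ _ => rfl,
    fun _ _ _ => Iff.rfl⟩

/-- Adding one row. -/
theorem posb_ext (p : P1 S) (row : ℕ → On) (h1 : ∀ m, row m < S.τ.ord)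
    (h2 : ∃ m, ∀ η < p.1.len, ∀ m', p.1.g η m' < row m)
    (h3 : ∀ m, row m < omega 1 → ∀ z < row m, ∃ m', row m' = z)
    (h4 : ∃ m, row m = p.1.len) :
    ∃ q ≤ p, q.1.len = p.1.len + 1 ∧ ∀ m, q.1.g p.1.len m = row m := by
  classical
  have ok := p.2
  let g : Ht := fun η m => if η = p.1.len then row m else p.1.g η m
  have ga : HAg p.1.g g p.1.len := fun η hη m => (if_neg hη.ne).symm
  have gb : ∀ m, g p.1.len m = row m := fun m => if_pos rfl
  have za : ZAg (Zg p.1.g S.A) (Zg g S.A) p.1.len := zg_congr ga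
  have hL : p.1.len < p.1.len + 1 := lt_add_one _
  obtain ⟨f, τ', hc, hf⟩ := exists_isCol g S.A (p.1.len + 1)
  have hi : ∀ η < p.1.len + 1, ∀ m, g η m < omega 1 → f η m = g η m := by
    refine fun η hη m k => hf η hη m fun z hz => ?_
    rcases (Order.lt_add_one_iff.1 hη).lt_or_eq with e | e
    · rw [← ga η e m] at k hz
      obtain ⟨-, η', a, m', b⟩ := lt_al.1 (hz.trans ((lt_al (p := p)).2 ⟨k, η, e, m, rfl⟩))
      exact ⟨η', a.trans hL, m', (ga η' a m').symm.trans b⟩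
    · subst e
      rw [gb] at k hz
      obtain ⟨m', b⟩ := h3 m k z hz
      exact ⟨_, hL, m', (gb m').trans b⟩
  have ho : ∀ η < p.1.len + 1, ∀ η' < p.1.len + 1, ∀ m m', g η m < g η' m' → f η m < f η' m' :=
    fun η a η' b m m' k => (hc.ord η a η' b m m').1 (zg_ord.2 k)
  have g0 : g 0 0 = omega 1 := (ga 0 ok.pos 0).symm.trans ok.g0
  have st : Stage (Zg g S.A) p.1.R (p.1.len + 1) f τ' := by
    refine ⟨hc, fun η hη => ?_, fun _ => Order.add_one_le_iff.2 ?_,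
      fun k => absurd k (posb_nolim _), fun η hη η' k m a => ?_⟩
    · rcases (Order.lt_add_one_iff.1 hη).lt_or_eq with e | e
      · obtain ⟨m, hm⟩ := p.rows η e
        refine ⟨m, fun η' a m' => ho η' (a.trans hη) η hη m' m ?_⟩
        rw [← ga η e, ← ga η' (a.trans e)]
        exact hm η' a m'
      · subst e
        obtain ⟨m, hm⟩ := h2
        refine ⟨m, fun η' a m' => ho η' (a.trans hη) _ hη m' m ?_⟩
        rw [gb, ← ga η' a]
        exact hm η' a m'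
    · obtain ⟨m, hm⟩ := h4
      have a : g p.1.len m = p.1.len := (gb m).trans hm
      have b := ho _ hL 0 (ok.pos.trans hL) m 0 (by rw [a, g0]; exact ok.lt)
      rwa [hi _ hL m (by rw [a]; exact ok.lt), a] at b
    · have b : p.1.g η' m < omega 1 := ok.g0 ▸ zg_ord.1
        (((ok.pre η hη).stage.col.ord η' k 0 (zero_le.trans_lt k) m 0).2 a)
      have c := Order.lt_add_one_iff.1 hη
      rw [p.ini' c k b, hi η' (k.trans hη) m (ga η' (k.trans_le c) m ▸ b),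
        ga η' (k.trans_le c) m]
  have pr : Pre S.sh (Zg g S.A) p.1.R (p.1.len + 1) :=
    ok.pre.congr (fun β hβ => za.mono (Order.lt_add_one_iff.1 hβ)) (posb_refl _ _)
  obtain ⟨R', ag, pr', e1, -⟩ := pr.step st (b := 0) fun k => absurd k (posb_nolim _)
  have lm : ∀ ξ ≤ p.1.len + 1, Order.IsSuccLimit ξ → ξ < p.1.len + 1 := fun ξ a k =>
    a.lt_of_ne fun e => posb_nolim _ (e ▸ k)
  refine ⟨⟨⟨p.1.len + 1, g, R'⟩, ok.pos.trans hL,
    (Cardinal.isSuccLimit_omega 1).add_one_lt ok.lt, pr',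
    fun η hη k => ok.cnt.congr ag η (lm η (Order.lt_add_one_iff.1 hη) k) k, fun η hη m => ?_, g0,
    (ga 0 ok.pos 1).symm.trans ok.g1, fun η hη m k => ?_, fun ξ a k => ?_⟩, ⟨hL.le, ga⟩, rfl, gb⟩
  · change g η m < _
    rcases (Order.lt_add_one_iff.1 hη).lt_or_eq with e | e
    · rw [← ga η e]
      exact ok.ran η e m
    · rw [e, gb]
      exact h1 m
  · change R'.H (p.1.len + 1) η m = g η m
    rw [e1]
    exact hi η hη m k
  · have b := lm ξ a k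
    have c := Order.lt_add_one_iff.1 b
    change Con S.sh S.use S.y S.k S.a (PS S.sh (Zg g S.A) ξ (R'.H ξ)) ξ (R'.H ξ) (R'.U ξ)
    rw [← PS_congr (za.mono c) (ag.H ξ b), ← ag.U ξ b]
    exact (ok.con ξ c k).congr k.bot_lt (ag.H ξ b)

theorem posb_countable {β : On} (hβ : β < omega 1) : (Iio β).Countable := by
  rw [← Cardinal.le_aleph0_iff_set_countable, Cardinal.mk_Iio_ordinal, Cardinal.lift_le_aleph0,
    ← Cardinal.lt_aleph_one_iff]
  exact Cardinal.lt_omega_iff_card_lt.1 hβ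

theorem posb_above (h : S.Ok) (p : P1 S) :
    ∃ u < S.τ.ord, ∀ η < p.1.len, ∀ m, p.1.g η m < u := by
  have : Countable (Iio p.1.len) := (posb_countable p.2.lt).to_subtype
  refine ⟨⨆ i : Iio p.1.len × ℕ, p.1.g i.1 i.2 + 1,
    lift_iSup_add_one_lt_of_lt_cof ?_ fun i => p.2.ran _ i.1.2 _, fun η hη m =>
    Ordinal.lt_iSup_add_one (fun i : Iio p.1.len × ℕ => p.1.g i.1 i.2) (⟨η, hη⟩, m)⟩
  rw [← lift_cof, h.reg.cof_ord]
  refine (Cardinal.lift_le_aleph0.2 Cardinal.mk_le_aleph0).trans_lt ?_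
  exact Cardinal.aleph0_lt_lift.2 (Cardinal.aleph0_lt_aleph_one.trans h.big)

/-- The new row lists `x`, `γ`, an ordinal above the old range and all ordinals below a
countable `β > len` that bounds those of `x, γ` that are countable. -/
theorem exists_add (h : S.Ok) (p : P1 S) {x γ : On} (hx : x < S.τ.ord) (hγ : γ < S.τ.ord) :
    ∃ q ≤ p, q.1.len = p.1.len + 1 ∧ (∃ m, q.1.g p.1.len m = x) ∧ ∃ m, q.1.g p.1.len m = γ := by
  obtain ⟨u, u1, u2⟩ := posb_above h p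
  have u3 : omega 1 < u := p.2.g0 ▸ u2 0 p.2.pos 0
  have bd : ∀ (a y : On), a < omega 1 → ∃ b < omega 1, a < b ∧ (y < omega 1 → y < b) := by
    intro a y ha
    have l := Cardinal.isSuccLimit_omega 1
    rcases lt_or_ge y (omega 1) with k | k
    · exact ⟨max a y + 1, l.add_one_lt (max_lt ha k), (le_max_left _ _).trans_lt (lt_add_one _),
        fun _ => (le_max_right _ _).trans_lt (lt_add_one _)⟩
    · exact ⟨a + 1, l.add_one_lt ha, lt_add_one _, fun j => absurd j k.not_gt⟩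
  obtain ⟨b, b1, b2, b3⟩ := bd p.1.len x p.2.lt
  obtain ⟨β, c1, c2, c3⟩ := bd b γ b1
  have tc : (insert x (insert γ (insert u (Iio β)))).Countable :=
    (((posb_countable c1).insert _).insert _).insert _
  obtain ⟨row, hr⟩ := tc.exists_eq_range ⟨x, mem_insert _ _⟩
  have r1 : ∀ m, row m = x ∨ row m = γ ∨ row m = u ∨ row m < β := fun m =>
    (hr ▸ mem_range_self m : row m ∈ insert x (insert γ (insert u (Iio β))))
  have r2 : ∀ z, z = x ∨ z = γ ∨ z = u ∨ z < β → ∃ m, row m = z := fun z hz =>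
    (hr ▸ (hz : z ∈ insert x (insert γ (insert u (Iio β)))) : z ∈ range row)
  refine (posb_ext p row (fun m => ?_) ?_ (fun m k z hz => ?_)
    (r2 _ (Or.inr (Or.inr (Or.inr (b2.trans c2)))))).imp fun q hq => ⟨hq.1, hq.2.1,
      (r2 x (Or.inl rfl)).imp fun m e => (hq.2.2 m).trans e,
      (r2 γ (Or.inr (Or.inl rfl))).imp fun m e => (hq.2.2 m).trans e⟩
  · rcases r1 m with e | e | e | e
    exacts [e ▸ hx, e ▸ hγ, e ▸ u1, e.trans (c1.trans (posb_omega_lt h))]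
  · obtain ⟨m, e⟩ := r2 u (Or.inr (Or.inr (Or.inl rfl)))
    exact ⟨m, e ▸ u2⟩
  · refine r2 z (Or.inr (Or.inr (Or.inr (hz.trans ?_))))
    rcases r1 m with e | e | e | e
    · rw [e] at k ⊢
      exact (b3 k).trans c2
    · rw [e] at k ⊢
      exact c3 k
    · exact absurd (e ▸ k) u3.not_gt
    · exact e

theorem exists_al (h : S.Ok) (p : P1 S) {β : On} (hβ : β < omega 1) : ∃ q ≤ p, β < q.al := by
  have b := hβ.trans (posb_omega_lt h)
  obtain ⟨q, q1, q2, ⟨m, e⟩, -⟩ := exists_add h p b b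
  exact ⟨q, q1, lt_al.2 ⟨hβ, p.1.len, q2 ▸ lt_add_one _, m, e⟩⟩

end P1

end Pool.Agent.MP_fd3eaf_lc

end

-- part MP_fd3eaf_lc.Master
section

/-!
Master conditions.
-/

set_option autoImplicit false

namespace Pool.Agent.MP_fd3eaf_lc

open Set Ordinal

theorem masa_col {τ : Cardinal.{0}} (h1 : τ.IsRegular) {D : Set On} (hD : Clb (Iio τ.ord) D)
    {x i : On} (hx : x < τ.ord) (hi : i < τ.ord) : col (D ∩ Ioi x) τ.ord i < τ.ord := by
  induction i using WellFoundedLT.induction with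
  | ind i ih =>
    obtain ⟨b, b1, b2⟩ := carda_bound h1 (fun j : Iio i => col (D ∩ Ioi x) τ.ord j) (by
      rw [Cardinal.mk_Iio_ordinal, Cardinal.lift_lt]
      exact Cardinal.lt_ord.1 hi)
    obtain ⟨y, c1, c2⟩ := hD.unb (max x b) (max_lt hx b1)
    refine lt_of_le_of_lt (enumOrd_le_of_forall_lt (Or.inl ⟨c1, (max_lt_iff.1 c2).1⟩)
      fun j hj => ?_) (hD.sub c1)
    exact (b2 ⟨j, hj⟩ (ih j hj (hj.trans hi))).trans (max_lt_iff.1 c2).2

/-- A singular `δ` with a named club that leaves room for closure points.  Hint: `D` = closure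
points of `F` (`clb_closure`), `D'` = closure points of `[x, i] ↦ enumOrd (D ∩ Ioi x ∪ Ici τ.ord) i`;
take a singular limit `δ ∈ D'` above `b` and use `clb_of_cof`. -/
theorem exists_gap {O : Set On} {τ : Cardinal.{0}} (h1 : τ.IsRegular) (h2 : Cardinal.aleph0 < τ)
    (h3 : Stn (Iio τ.ord) {δ | ¬ Rgl O univ δ}) (F : List On → On)
    (hF : ∀ q, (∀ a ∈ q, a < τ.ord) → F q < τ.ord) {b : On} (hb : b < τ.ord) :
    ∃ δ < τ.ord, ∃ s, b < δ ∧ Clb (Iio δ) (ext O s) ∧ ∀ x < δ, ∃ γ δ', x < δ' ∧ γ < δ' ∧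
      δ' < δ ∧ (∀ q, (∀ a ∈ q, a < δ') → F q < δ') ∧ ∀ c ∈ ext O s, γ < c → δ' < c := by
  have hD := clb_closure h1 h2 F hF
  have hlim := Cardinal.isSuccLimit_ord h2.le
  have hD' := clb_closure h1 h2 (fun q => col ({d | d < τ.ord ∧ 0 < d ∧
      ∀ q, (∀ a ∈ q, a < d) → F q < d} ∩ Ioi (lv q 0)) τ.ord (lv q 1)) fun q hq =>
    masa_col h1 hD (lv_mem (Λ := Iio τ.ord) h1.ord_pos hq 0)
      (lv_mem (Λ := Iio τ.ord) h1.ord_pos hq 1)
  obtain ⟨δ, a1, ⟨a2, a3, a4⟩, a5⟩ := h3 _ (hD'.tail (isLowerSet_Iio _) (hlim.add_one_lt hb))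
  have a6 : ∀ x < δ, ∀ i < δ, col ({d | d < τ.ord ∧ 0 < d ∧
      ∀ q, (∀ a ∈ q, a < d) → F q < d} ∩ Ioi x) τ.ord i < δ := fun x hx i hi =>
    a4 [x, i] fun a m => by
      rcases List.mem_pair.1 m with rfl | rfl
      exacts [hx, hi]
  have a7 : Order.IsSuccLimit δ := (mda_limit δ).2 ⟨a3, fun x hx =>
    (Order.add_one_le_of_lt (condb_mem ((a6 x hx 0 a3).trans a2)).2).trans_lt (a6 x hx 0 a3)⟩
  have a8 : ∃ s, ∃ μ < δ, Cof O s μ δ := by
    by_contra k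
    exact a1 fun s _ μ hμ c => k ⟨s, μ, hμ, c⟩
  obtain ⟨s, μ, hμ, c⟩ := a8
  obtain ⟨s', b1, b2⟩ := clb_of_cof a7 c
  refine ⟨δ, a2, s', (lt_add_one b).trans_le a5, b1, fun x hx => ?_⟩
  obtain ⟨i, b3, b4⟩ := b2 (col ({d | d < τ.ord ∧ 0 < d ∧
      ∀ q, (∀ a ∈ q, a < d) → F q < d} ∩ Ioi x) τ.ord) (col_strictMono.strictMonoOn _)
  have b5 := a6 x hx i (b3.trans_lt (a7.add_one_lt hμ))
  obtain ⟨⟨-, b6, b7⟩, b8⟩ := condb_mem (b5.trans a2)
  have b9 : ¬ ∀ γ < _, ∃ y ∈ ext O s', γ < y ∧ y < _ := fun k => b4 (b1.cls _ b5 b6 k)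
  push Not at b9
  obtain ⟨γ, c1, c2⟩ := b9
  exact ⟨γ, _, b8, c1, b5, b7, fun y hy k => lt_of_le_of_ne (c2 y hy k) fun e => b4 (e ▸ hy)⟩

theorem exists_tvF (O : Set On) {l : On} (hl : Nice (Iio l)) :
    ∃ F : List On → Set On, (∀ q, (F q).Countable) ∧ ∀ N : Set On,
      (∀ q, (∀ a ∈ q, a ∈ N) → F q ⊆ N) → TV O (Iio l) (N ∩ Iio l) := by
  exact ⟨fun q => range fun k => lw O (Iio l) k q, fun _ => countable_range _, fun N hN =>
    TV.of_lw inter_subset_right fun k q hq =>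
      ⟨hN q (fun a m => (hq a m).1) ⟨k, rfl⟩, lw_mem hl k q⟩⟩

/-- The trace of a collapse. -/
theorem col_trc {Z Z' : Zt} {ξ ξ' τ τ' l η : On} {h h' : Ht} {H : Set On} (c : IsCol Z ξ h τ)
    (c' : IsCol Z' ξ' h' τ') (h1 : η ≤ ξ) (h2 : η ≤ ξ')
    (h3 : ∀ η' < η, ∀ m, col H l (h η' m) = h' η' m) (h4 : trc h' τ' η ∈ H) :
    col H l (trc h τ η) = trc h' τ' η := by
  obtain ⟨a, ha⟩ := enumOrd_surjective (condb_unb (H := H) (η := l)) (Or.inl h4)
  change col H l a = _ at ha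
  rw [← ha]
  refine congrArg _ (le_antisymm (not_lt.1 fun k => ?_) (not_lt.1 fun k => ?_))
  · obtain ⟨η', b1, m, b2⟩ := (c.lt_trc h1).1 k
    refine ((c'.lt_trc h2).2 ⟨η', b1, m, le_rfl⟩).not_ge ?_
    rw [← ha, ← h3 η' b1 m]
    exact col_strictMono.monotone b2
  · obtain ⟨η', b1, m, b2⟩ := (c'.lt_trc h2).1 ((col_strictMono k).trans_eq ha)
    rw [← h3 η' b1 m, col_strictMono.le_iff_le] at b2
    exact ((c.lt_trc h1).2 ⟨η', b1, m, b2⟩).false

/-- A total run is not found by names in the collapse of a hull.  Hint: `exists_col_limit` gives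
`h, τ`; let `b = τ`, `O = Orc sh (mrk Z ω₁ h)`.  Close under `exists_tvF O`, `τ`, `η ↦ h η m`,
`η ↦ trc h τ η`, least rows of elements and of marks, and `[s, η₀] ↦` an `η ∈ [η₀, ω₁)` with
`trc h τ η ∈ ext O s` (`IsCol.not_off`); use `orc_elem`, `XPre.foundAt`, `IsCol.unique`. -/
theorem exists_nf {sh : Bool} (hs : sh = true → AllSharp) {y : Set On} (hy : Total sh y) :
    ∃ b : On, ∀ l, b < l → Nice (Iio l) → ∃ F : List On → Set On, (∀ q, (F q).Countable) ∧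
      ∀ (N : Set On) (α : On), (∀ q, (∀ a ∈ q, a ∈ N) → F q ⊆ N) → α < omega 1 →
        (∀ ξ < omega 1, ξ ∈ N ↔ ξ < α) → ∀ s < otp (N ∩ Iio l) l, ¬ FoundAt sh y α s := by
  obtain ⟨R, hR⟩ := hy
  obtain ⟨h, τ, hc, hr⟩ := exists_col_limit (Z := Zx y R.r) (H := R.H) (U := R.U)
    (fun ξ hξ => (hR.1 ξ hξ).stage.col) fun ξ hξ => (hR.1 ξ hξ).stage.rows
  refine ⟨τ, fun l hτ hl => ?_⟩
  obtain ⟨F0, hF0, hF1⟩ := exists_tvF (Orc sh (mrk (Zx y R.r) (omega 1) h)) hl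
  have e1 : ∀ z : On, ∃ η, z < τ → η < omega 1 ∧ ∃ m, h η m = z := fun z => by
    by_cases hz : z < τ
    · obtain ⟨η, a, b⟩ := hc.onto z hz
      exact ⟨η, fun _ => ⟨a, b⟩⟩
    · exact ⟨0, fun k => absurd k hz⟩
  have e2 : ∀ z : On, ∃ η, z ∈ mrk (Zx y R.r) (omega 1) h →
      η < omega 1 ∧ ∃ m, Zx y R.r η η (mk 1 m 0 0) ∧ h η m = z := fun z => by
    by_cases hz : z ∈ mrk (Zx y R.r) (omega 1) h
    · obtain ⟨η, a, b⟩ := hz
      exact ⟨η, fun _ => ⟨a, b⟩⟩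
    · exact ⟨0, fun k => absurd k hz⟩
  have e3 : ∀ s η₀ : On, ∃ η, Clb (Iio τ) (ext (Orc sh (mrk (Zx y R.r) (omega 1) h)) s) →
      η₀ < omega 1 → η < omega 1 ∧ η₀ ≤ η ∧
        trc h τ η ∈ ext (Orc sh (mrk (Zx y R.r) (omega 1) h)) s := fun s η₀ => by
    by_contra k
    refine k ⟨0, fun a b => absurd ⟨η₀, b, fun η a1 a2 a3 => k ⟨η, fun _ _ => ⟨a1, a2, a3⟩⟩⟩
      (hc.not_off hr a)⟩
  choose row hrow using e1
  choose mrow hmrow using e2
  choose w hw using e3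
  refine ⟨fun q => F0 q ∪ (range (h (lv q 0)) ∪
      {τ, trc h τ (lv q 0), row (lv q 0), mrow (lv q 0), w (lv q 0) (lv q 1)}),
    fun q => (hF0 q).union ((countable_range _).union (Set.toFinite _).countable),
    fun N α hN hα hNα s hs' hf => ?_⟩
  have tv := hF1 N fun q hq => subset_union_left.trans (hN q hq)
  have cl : ∀ a ∈ N, ∀ b ∈ N, (∀ m, h a m ∈ N) ∧ τ ∈ N ∧ trc h τ a ∈ N ∧ row a ∈ N ∧
      mrow a ∈ N ∧ w a b ∈ N := fun a ha b hb => by
    have k := subset_union_right.trans (hN [a, b] fun x hx => by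
      rcases List.mem_pair.1 hx with rfl | rfl
      · exact ha
      · exact hb)
    exact ⟨fun m => k (Or.inl ⟨m, rfl⟩), k (Or.inr (by simp)), k (Or.inr (by simp [lv])),
      k (Or.inr (by simp [lv])), k (Or.inr (by simp [lv])), k (Or.inr (by simp [lv]))⟩
  obtain ⟨f1, η₀, f2, f3⟩ := (hR.foundAt hα).1 hf
  have inN : ∀ η < α, η ∈ N := fun η hη => (hNα η (hη.trans hα)).2 hη
  have pre : ∀ z ∈ N, z < l → ∃ x, col (N ∩ Iio l) l x = z := fun z a b => by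
    obtain ⟨x, _, e⟩ := (col_image (H := N ∩ Iio l) (η := l)).ge ⟨⟨a, b⟩, b⟩
    exact ⟨x, e⟩
  have mono := col_strictMono (H := N ∩ Iio l) (η := l)
  obtain ⟨τ', hτ'⟩ := pre τ (cl η₀ (inN _ f2) η₀ (inN _ f2)).2.1 hτ
  have e4 : ∀ η m, ∃ x, η < α → col (N ∩ Iio l) l x = h η m := fun η m => by
    by_cases hη : η < α
    · obtain ⟨x, e⟩ := pre _ ((cl η (inN _ hη) η (inN _ hη)).1 m)
        ((hc.lt η (hη.trans hα) m).trans hτ)
      exact ⟨x, fun _ => e⟩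
    · exact ⟨0, fun k => absurd k hη⟩
  choose h' hh' using e4
  have c' : IsCol (Zx y R.r) α h' τ' := by
    refine ⟨fun η a η' b m m' => ?_, fun η a m => ?_, fun z hz => ?_⟩
    · rw [hc.ord η (a.trans hα) η' (b.trans hα), ← hh' η m a, ← hh' η' m' b, mono.lt_iff_lt]
    · rw [← mono.lt_iff_lt, hh' η m a, hτ']
      exact hc.lt η (a.trans hα) m
    · have a1 : col (N ∩ Iio l) l z < τ := hτ' ▸ mono hz
      have a2 := (condb_mem (a1.trans hτ)).1
      obtain ⟨a3, m, a4⟩ := hrow _ a1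
      have a5 := (hNα _ a3).1 (cl _ a2 _ a2).2.2.2.1
      exact ⟨_, a5, m, mono.injective ((hh' _ m a5).trans a4)⟩
  have cR := (hR.1 α hα).stage.col
  obtain ⟨u1, u2⟩ := c'.unique cR fun _ _ _ _ _ => Iff.rfl
  have hH : ∀ η < α, ∀ m, col (N ∩ Iio l) l (R.H α η m) = h η m := fun η a m =>
    u2 η a m ▸ hh' η m a
  have el := orc_elem hs hl tv (o' := mrk (Zx y R.r) α (R.H α)) fun x hx => by
    refine ⟨fun ⟨η, a, m, b, c⟩ => ⟨η, a.trans hα, m, b, by rw [← c, hH η a m]⟩, fun k => ?_⟩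
    have a2 := (condb_mem (col_lt_iff.2 hx)).1
    obtain ⟨a3, m, a4, a5⟩ := hmrow _ k
    have a6 := (hNα _ a3).1 (cl _ a2 _ a2).2.2.2.2.1
    exact ⟨_, a6, m, a4, mono.injective ((hH _ a6 m).trans a5)⟩
  have hU : col (N ∩ Iio l) l (R.U α) = τ := u1 ▸ hτ'
  have hU' : R.U α < otp (N ∩ Iio l) l := col_lt_iff.1 (hU.trans_lt hτ)
  have md := MD.clbExt (fun A _ _ => A) (fun _ _ v => v 0) fun _ _ v => v 1
  have k1 : Clb (Iio τ) (ext (Orc sh (mrk (Zx y R.r) (omega 1) h)) (col (N ∩ Iio l) l s)) := by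
    have := (el.md (fun A _ v => Clb (Iio (v 1)) (ext A (v 0))) (v := cons s fun _ => R.U α)
      (cons_mem hs' fun _ => hU')).1 f1
    rw [← hU]
    exact this
  have sN := (condb_mem (col_lt_iff.2 hs')).1
  obtain ⟨b1, b2, b3⟩ := hw _ η₀ k1 (f2.trans hα)
  have b4 := (hNα _ b1).1 (cl _ sN _ (inN _ f2)).2.2.2.2.2
  have b5 := (hc.trc_lt hr b1).1.trans hτ
  have b6 := col_trc (H := N ∩ Iio l) (l := l) cR hc b4.le b1.le
    (fun η' a m => hH η' (a.trans b4) m) ⟨(cl _ (inN _ b4) _ (inN _ b4)).2.2.1, b5⟩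
  refine f3 _ b4 b2 ((el.mem_ext hs' (col_lt_iff.1 (b6.trans_lt b5))).1 ?_)
  rw [b6]
  exact b3

namespace P1

variable {S : Par}

/-- Recursion that reads two entries of a list at a time. -/
def masa_rec {α β : Type*} (b : β) (f : α → α → β → β) : List α → β
  | x :: y :: w => f x y (masa_rec b f w)
  | _ => b

theorem exists_word (h : S.Ok) (p : P1 S) (Dn : On → P1 S → Prop)
    (hD : ∀ i < omega 1, ∀ r, ∃ r' ≤ r, Dn i r') : ∃ W : List On → P1 S, W [] = p ∧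
      ∀ x γ w, x < S.τ.ord → γ < S.τ.ord → W (x :: γ :: w) ≤ W w ∧
        (W w).1.len < (W (x :: γ :: w)).1.len ∧
        (∃ m, (W (x :: γ :: w)).1.g (W w).1.len m = x) ∧
        (∃ m, (W (x :: γ :: w)).1.g (W w).1.len m = γ) ∧
        (x < omega 1 → Dn x (W (x :: γ :: w))) := by
  have key : ∀ (x γ : On) (r : P1 S), ∃ r' : P1 S, x < S.τ.ord → γ < S.τ.ord → r' ≤ r ∧
      r.1.len < r'.1.len ∧ (∃ m, r'.1.g r.1.len m = x) ∧ (∃ m, r'.1.g r.1.len m = γ) ∧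
      (x < omega 1 → Dn x r') := by
    intro x γ r
    by_cases hx : x < S.τ.ord ∧ γ < S.τ.ord
    · obtain ⟨q, a1, a2, ⟨m, a3⟩, m', a4⟩ := exists_add h r hx.1 hx.2
      have a5 : r.1.len < q.1.len := (lt_add_one _).trans_eq a2.symm
      have a6 : ∃ r' ≤ q, x < omega 1 → Dn x r' := by
        by_cases k : x < omega 1
        · obtain ⟨r', b1, b2⟩ := hD x k q
          exact ⟨r', b1, fun _ => b2⟩
        · exact ⟨q, le_rfl, fun k' => absurd k' k⟩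
      obtain ⟨r', b1, b2⟩ := a6
      exact ⟨r', fun _ _ => ⟨b1.trans a1, a5.trans_le b1.1, ⟨m, (b1.2 _ a5 m).symm.trans a3⟩,
        ⟨m', (b1.2 _ a5 m').symm.trans a4⟩, b2⟩⟩
    · exact ⟨r, fun a b => absurd ⟨a, b⟩ hx⟩
  choose f hf using key
  exact ⟨masa_rec p f, rfl, fun x γ w => hf x γ (masa_rec p f w)⟩

/-- The union of a chain, without the last stage. -/
theorem exists_union (p : ℕ → P1 S) (h1 : ∀ n, p (n + 1) ≤ p n)
    (h2 : ∀ n, (p n).1.len < (p (n + 1)).1.len) : ∃ (ξ : On) (g : Ht) (R : Rn),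
      Order.IsSuccLimit ξ ∧ ξ < omega 1 ∧ (∀ n, (p n).1.len < ξ) ∧
      (∀ η < ξ, ∃ n, η < (p n).1.len) ∧ (∀ n, HAg (p n).1.g g (p n).1.len) ∧
      (∀ n, Agree (p n).1.R R ((p n).1.len + 1)) ∧ Pre S.sh (Zg g S.A) R ξ ∧ Cnt R ξ := by
  have an : Antitone p := antitone_nat_of_succ_le h1
  have a1 : ∀ n, (p n).1.len < ⨆ n, (p n).1.len := fun n =>
    (h2 n).trans_le (Ordinal.le_iSup (fun n => (p n).1.len) (n + 1))
  have a2 : ∀ η < ⨆ n, (p n).1.len, ∃ n, η < (p n).1.len := fun η k => Ordinal.lt_iSup_iff.1 k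
  have a3 : (⨆ n, (p n).1.len) < omega 1 := by
    obtain ⟨b, hb, k⟩ := uc_omega1.2 (fun n => (p n).1.len) fun n => (p n).2.lt
    exact lt_of_le_of_lt (Ordinal.iSup_le fun n => (k n).le) hb
  generalize (⨆ n, (p n).1.len) = ξ at a1 a2 a3
  have a4 := a2
  choose! N hN using a4
  have eg : ∀ n m η, η < (p n).1.len → η < (p m).1.len → ∀ i, (p n).1.g η i = (p m).1.g η i :=
    fun n m η k k' i => (le_total n m).elim (fun e => (an e).2 η k i)
      fun e => ((an e).2 η k' i).symm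
  have eR : ∀ n m β, β ≤ (p n).1.len → β ≤ (p m).1.len → Agree (p n).1.R (p m).1.R (β + 1) :=
    fun n m β k k' => (le_total n m).elim
      (fun e => (agree (an e)).mono (add_le_add_left k 1))
      fun e => ((agree (an e)).mono (add_le_add_left k' 1)).symm
  obtain ⟨R, hR⟩ := exists_glue (ξ := ξ) (fun β => (p (N β)).1.R) fun β k β' k' =>
    eR _ _ _ (hN β' (k'.trans k)).le (k'.trans (hN β k)).le
  have hg : ∀ n, HAg (p n).1.g (fun η => (p (N η)).1.g η) (p n).1.len := fun n η k i =>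
    eg _ _ η k (hN η (k.trans (a1 n))) i
  refine ⟨ξ, fun η => (p (N η)).1.g η, R, (mda_limit ξ).2 ⟨zero_le.trans_lt (a1 0), fun y k => ?_⟩,
    a3, a1, a2, hg, fun n => (eR _ _ _ le_rfl (hN _ (a1 n)).le).trans (hR _ (a1 n)),
    Pre.of_glue fun β k => ⟨_, _, (p (N β)).2.pre.mono (add_le_add_left (hN β k).le 1),
      (zg_congr (hg _)).mono (hN β k).le, hR β k⟩, fun η k l => ?_⟩
  · exact (Order.add_one_le_of_lt (hN y k)).trans_lt (a1 _)
  · rw [← (hR η k).S η (lt_add_one η) l]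
    exact (p (N η)).2.cnt η ((hN η k).trans (lt_add_one _)) l

/-- The last stage.  Hint: `h η m` and `τ'` are the preimages of `g η m` and `δ` under `col H l`,
which is elementary by `orc_elem` for `mrk (Zg g S.A) ξ h`; `col H l α = ω₁`; the preimage of `s`
is found; names below the least found one are below `otp H l`. -/
theorem last_stage (hS : S.Ok) {ξ l δ s α : On} {g : Ht} {H : Set On}
    (hξ : Order.IsSuccLimit ξ) (hl : Nice (Iio l)) (hH : TV (Orc S.sh S.A) (Iio l) H)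
    (hc : H.Countable) (h1 : δ ∈ H) (h2 : s ∈ H) (h3 : S.e ≤ δ)
    (h4 : ∀ z, (z ∈ H ∧ z < δ) ↔ ∃ η < ξ, ∃ m, g η m = z)
    (h5 : ∀ z < omega 1, z ∈ H ↔ z < α) (h6 : α < omega 1) (h7 : S.a < α)
    (g0 : g 0 0 = omega 1) (g1 : g 0 1 = code ⟨S.θ, S.k, S.θ, [S.a]⟩)
    (h8 : Clb (Iio δ) (ext (Orc S.sh S.A) s))
    (h9 : ∃ η₀ < ξ, ∀ η < ξ, η₀ ≤ η → ∃ γ, ∃ δ' ∈ H, (∃ η' < η, ∃ m, γ ≤ g η' m) ∧
      (∀ η' < η, ∀ m, g η' m < δ') ∧ ∀ c ∈ ext (Orc S.sh S.A) s, γ < c → δ' < c)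
    (h10 : S.use = true → ∀ s₀ < otp H l, ¬ FoundAt S.sh S.y α s₀) :
    ∃ h τ', IsCol (Zg g S.A) ξ h τ' ∧ h 0 0 = α ∧
      (∀ η < ξ, ∀ m, g η m < omega 1 → h η m = g η m) ∧
      (∃ s' < omega 1, Fnd (PS S.sh (Zg g S.A) ξ h) h τ' ξ s') ∧
      Con S.sh S.use S.y S.k S.a (PS S.sh (Zg g S.A) ξ h) ξ h τ' := by
  have mono : StrictMono (col H l) := col_strictMono
  have inv : ∀ z, ∃ x, z ∈ H → x < otp H l ∧ col H l x = z := fun z => by
    by_cases hz : z ∈ H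
    · obtain ⟨x, a1, a2⟩ : z ∈ col H l '' Iio (otp H l) := col_image.symm ▸ ⟨hz, hH.sub hz⟩
      exact ⟨x, fun _ => ⟨a1, a2⟩⟩
    · exact ⟨0, fun k => absurd k hz⟩
  choose u hu using inv
  have fm : ∀ x < otp H l, col H l x ∈ H := fun x hx => condb_mem (col_lt_iff.2 hx)
  have gm : ∀ η < ξ, ∀ m, g η m ∈ H ∧ g η m < δ := fun η hη m => (h4 _).2 ⟨η, hη, m, rfl⟩
  have ρ1 : otp H l < omega 1 := countable_Iio.1
    (countable_of_injective_of_countable_image mono.injective.injOn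
      (col_image.symm ▸ hc.mono inter_subset_left))
  have fix : ∀ x < α, col H l x = x := fun x hx =>
    col_fix (fun z hz => (h5 z (lt_trans hz h6)).2 hz) hx
  have p0 : 0 < ξ := hξ.bot_lt
  obtain ⟨t1, t2⟩ := hu δ h1
  obtain ⟨s1, s2⟩ := hu s h2
  have hh : ∀ η < ξ, ∀ m, u (g η m) < u δ ∧ col H l (u (g η m)) = g η m := fun η hη m =>
    ⟨mono.lt_iff_lt.1 (by rw [(hu _ (gm η hη m).1).2, t2]; exact (gm η hη m).2),
      (hu _ (gm η hη m).1).2⟩
  have on : ∀ z < otp H l, col H l z < δ → ∃ η < ξ, ∃ m, u (g η m) = z ∧ g η m = col H l z :=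
    fun z hz k => by
      obtain ⟨η, a1, m, a2⟩ := (h4 _).1 ⟨fm z hz, k⟩
      exact ⟨η, a1, m, mono.injective ((hh η a1 m).2.trans a2), a2⟩
  have c : IsCol (Zg g S.A) ξ (fun η m => u (g η m)) (u δ) :=
    isCol_zg (mono.strictMonoOn _) hh fun z hz => by
      obtain ⟨η, a1, m, a2, -⟩ := on z (hz.trans t1) (t2 ▸ mono hz)
      exact ⟨η, a1, m, a2⟩
  have e0 : u (g 0 0) = α := by
    obtain ⟨a1, a2⟩ := hh 0 p0 0
    rw [g0] at a1 a2 ⊢
    refine le_antisymm (not_lt.1 fun k => ?_) (le_of_forall_lt fun x hx => ?_)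
    · exact ((h5 _ (a2 ▸ mono k)).1 (fm α (k.trans (a1.trans t1)))).not_ge mono.le_apply
    · exact mono.lt_iff_lt.1 (by rw [fix x hx, a2]; exact hx.trans h6)
  have E : Elem (Orc S.sh (mrk (Zg g S.A) ξ fun η m => u (g η m))) (Orc S.sh S.A)
      (Iio (otp H l)) (Iio l) (col H l) := orc_elem hS.sharp hl hH fun x hx => by
    constructor
    · rintro ⟨η, a1, m, a2, rfl⟩
      rw [(hh η a1 m).2]
      exact zg_mrk.1 a2
    · intro k
      obtain ⟨η, a1, m, a2, a3⟩ := on x hx (lt_of_lt_of_le (hS.sub k) h3)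
      exact ⟨η, a1, m, zg_mrk.2 (a3 ▸ k), a2⟩
  have cl : Clb (Iio (u δ)) (ext (Orc S.sh (mrk (Zg g S.A) ξ fun η m => u (g η m))) (u s)) := by
    refine (E.md (fun A _ v => Clb (Iio (v 0)) (ext A (v 1))) (v := cons (u δ) fun _ => u s)
      (cons_mem t1 fun _ => s1)).2 ?_
    change Clb (Iio (col H l (u δ))) (ext _ (col H l (u s)))
    rw [t2, s2]
    exact h8
  have F : Fnd (PS S.sh (Zg g S.A) ξ fun η m => u (g η m)) (fun η m => u (g η m)) (u δ) ξ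
      (u s) := by
    obtain ⟨η₀, a1, a2⟩ := h9
    refine ⟨cl, η₀, a1, fun η b1 b2 k => ?_⟩
    obtain ⟨γ, δ', d1, ⟨η', d2, m, d3⟩, d4, d5⟩ := a2 η b1 b2
    have k1 := (E.mem_ext s1 (lt_trans (cl.sub k) t1)).2 k
    rw [s2] at k1
    have k2 := mono ((c.lt_trc b1.le).2 ⟨η', d2, m, le_rfl⟩)
    rw [(hh η' (d2.trans b1) m).2] at k2
    have k3 := d5 _ k1 (d3.trans_lt k2)
    rw [← (hu δ' d1).2, mono.lt_iff_lt] at k3
    obtain ⟨η'', f1, m', f2⟩ := (c.lt_trc b1.le).1 k3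
    have k4 := mono.monotone f2
    rw [(hu δ' d1).2, (hh η'' (f1.trans b1) m').2] at k4
    exact (d4 η'' f1 m').not_ge k4
  have aθ : ∀ a ∈ [S.a], a < S.θ := fun a m => List.mem_singleton.1 m ▸ hS.a_lt.trans_le hS.ge
  have c1 : u (g 0 1) < otp H l := (hh 0 p0 1).1.trans t1
  have c2 : col H l (u (g 0 1)) = code ⟨S.θ, S.k, S.θ, [S.a]⟩ := (hh 0 p0 1).2.trans g1
  have c3 : lev (code ⟨S.θ, S.k, S.θ, [S.a]⟩) = S.θ := lev_code hS.nice.isLev ⟨le_rfl, aθ⟩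
  have c4 : col H l (lev (u (g 0 1))) = S.θ :=
    (E.mt (fun _ _ v => lev (v 0)) (v := fun _ => u (g 0 1)) fun _ => c1).trans
      ((congrArg lev c2).trans c3)
  have c5 : lev (u (g 0 1)) < otp H l := (lev_le _).trans_lt c1
  have c6 : S.a < lev (u (g 0 1)) :=
    mono.lt_iff_lt.1 (by rw [fix _ h7, c4]; exact aθ _ List.mem_cons_self)
  have lt : ∀ s₀, (∀ s' < s₀, ¬ Fnd (PS S.sh (Zg g S.A) ξ fun η m => u (g η m))
      (fun η m => u (g η m)) (u δ) ξ s') → s₀ < otp H l := fun s₀ k =>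
    (not_lt.1 fun k' => k _ k' F).trans_lt s1
  refine ⟨fun η m => u (g η m), u δ, c, e0, fun η hη m k => ?_, ⟨u s, s1.trans ρ1, F⟩,
    ⟨?_, c6, ?_, ?_⟩, fun s₀ _ k μ hμ o => ?_, fun k s₀ _ k' => ?_⟩
  · exact mono.injective ((hh η hη m).2.trans (fix _ ((h5 _ k).1 (gm η hη m).1)).symm)
  · refine (E.md (fun _ _ v => Nice (Iio (v 0))) (v := fun _ => lev (u (g 0 1)))
      fun _ => c5).2 ?_
    change Nice (Iio (col H l (lev (u (g 0 1)))))
    rw [c4]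
    exact hS.nice
  · refine (E.md (fun _ _ v => v 0 = code ⟨lev (v 0), S.k, lev (v 0), [v 1]⟩)
      (v := cons (u (g 0 1)) fun _ => S.a) (cons_mem c1 fun _ => c6.trans c5)).2 ?_
    change col H l (u (g 0 1)) = code ⟨lev (col H l (u (g 0 1))), S.k,
      lev (col H l (u (g 0 1))), [col H l S.a]⟩
    rw [c2, c3, fix _ h7]
  · refine (E.md (fun A _ v => T A (v 0)) (v := fun _ => u (g 0 1)) fun _ => c1).2 ?_
    change T _ (col H l (u (g 0 1)))
    rw [c2]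
    exact (T_code_lev hS.nice.isLev aθ).2 hS.sat
  · have o' := (E.md (fun A _ v => Onto A (v 0) (v 1) (v 2))
      (v := cons s₀ (cons μ fun _ => lev (u (g 0 1))))
      (cons_mem (lt s₀ k) (cons_mem (lt_trans hμ c5) fun _ => c5))).1 (ontoP_TS.1 o)
    change Onto _ (col H l s₀) (col H l μ) (col H l (lev (u (g 0 1)))) at o'
    rw [c4] at o'
    exact hS.card _ trivial _ (c4 ▸ mono hμ) o'
  · rw [e0]
    exact h10 k s₀ (lt s₀ k')

/-- A lower bound of a chain from the data of the last stage. -/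
theorem exists_bound (p : ℕ → P1 S) {ξ τ' : On} {g h : Ht} {R : Rn}
    (h1 : Order.IsSuccLimit ξ) (h2 : ξ < omega 1) (h3 : ∀ n, (p n).1.len < ξ)
    (h4 : ∀ η < ξ, ∃ n, η < (p n).1.len) (h5 : ∀ n, HAg (p n).1.g g (p n).1.len)
    (h6 : ∀ n, Agree (p n).1.R R ((p n).1.len + 1)) (h7 : Pre S.sh (Zg g S.A) R ξ)
    (h8 : Cnt R ξ) (c1 : IsCol (Zg g S.A) ξ h τ') (c2 : Order.IsSuccLimit (h 0 0))
    (c3 : ∀ η < ξ, ∀ m, g η m < omega 1 → h η m = g η m)
    (c4 : ∃ s' < omega 1, Fnd (PS S.sh (Zg g S.A) ξ h) h τ' ξ s')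
    (c5 : Con S.sh S.use S.y S.k S.a (PS S.sh (Zg g S.A) ξ h) ξ h τ') :
    ∃ q : P1 S, (∀ n, q ≤ p n) ∧ q.al = h 0 0 := by
  have x0 : 0 < ξ := zero_le.trans_lt (h3 0)
  have g0 : g 0 0 = omega 1 := (h5 0 0 (p 0).2.pos 0).symm.trans (p 0).2.g0
  have g1 : g 0 1 = code ⟨S.θ, S.k, S.θ, [S.a]⟩ := (h5 0 0 (p 0).2.pos 1).symm.trans (p 0).2.g1
  have ho : ∀ η < ξ, ∀ η' < ξ, ∀ m m', g η m < g η' m' ↔ h η m < h η' m' :=
    fun η k η' k' m m' => zg_ord.symm.trans (c1.ord η k η' k' m m')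
  have st : Stage (Zg g S.A) R ξ h τ' := by
    refine ⟨c1, fun η k => ?_, fun _ => le_of_forall_lt fun z k => ?_, fun _ => c2,
      fun η k η' k' m e => ?_⟩
    · obtain ⟨n, hn⟩ := h4 η k
      obtain ⟨m, hm⟩ := (p n).rows η hn
      refine ⟨m, fun η' k' m' => (ho η' (k'.trans k) η k m' m).1 ?_⟩
      rw [← h5 n η hn, ← h5 n η' (k'.trans hn)]
      exact hm η' k' m'
    · obtain ⟨n, hn⟩ := h4 z k
      obtain ⟨a1, η, a2, m, a3⟩ := lt_al.1 (hn.trans_le (p n).len_le_al)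
      rw [h5 n η a2] at a3
      have a4 := a2.trans (h3 n)
      rw [← a3, ← g0] at a1
      rw [← a3, ← c3 η a4 m (g0 ▸ a1)]
      exact (ho η a4 0 x0 m 0).1 a1
    · obtain ⟨n, hn⟩ := h4 η k
      have a1 : g η' m < omega 1 := g0 ▸ zg_ord.1
        (((h7 η k).stage.col.ord η' k' 0 (zero_le.trans_lt k') m 0).2 e)
      rw [c3 η' (k'.trans k) m a1, ← (h6 n).H η (hn.trans (lt_add_one _)) η' k' m,
        ← h5 n η' (k'.trans hn)]
      exact ((p n).ini' hn.le k' (by rwa [h5 n η' (k'.trans hn)])).symm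
  obtain ⟨R', b1, b2, b3, b4, b5⟩ := h7.step st fun _ => c4
  refine ⟨⟨⟨ξ, g, R'⟩, x0, h2, b2, fun η k l => ?_, fun η k m => ?_, g0, g1, fun η k m e => ?_,
    fun η k l => ?_⟩, fun n => ⟨(h3 n).le, h5 n⟩, congrFun (congrFun b3 0) 0⟩
  · rcases (Order.lt_add_one_iff.1 k).lt_or_eq with e | rfl
    · exact h8.congr b1 η e l
    · exact b5 l
  · obtain ⟨n, hn⟩ := h4 η k
    exact (h5 n η hn m).symm.trans_lt ((p n).2.ran η hn m)
  · exact (congrFun (congrFun b3 η) m).trans (c3 η k m e)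
  · rcases k.lt_or_eq with e | e
    · obtain ⟨n, hn⟩ := h4 η e
      have a1 : Agree (p n).1.R R' (η + 1) :=
        ((h6 n).mono (add_le_add_left hn.le 1)).trans (b1.mono (Order.add_one_le_of_lt e))
      have a2 := a1.H η (lt_add_one η)
      have a3 := ((p n).2.con η hn.le l).congr l.pos a2
      rw [PS_congr ((zg_congr (h5 n)).mono hn.le) a2, a1.U η (lt_add_one η)] at a3
      exact a3
    · subst e
      simpa only [b3, b4] using c5

theorem mastere_bound (h : S.Ok) (p : P1 S) :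
    ∃ b < S.τ.ord, ∀ η < p.1.len, ∀ m, p.1.g η m < b := by
  have hc : (Iio p.1.len ×ˢ (univ : Set ℕ)).Countable :=
    (countable_Iio.2 p.2.lt).prod countable_univ
  obtain ⟨f, hf⟩ := hc.exists_eq_range ⟨(0, 0), p.2.pos, mem_univ _⟩
  obtain ⟨b, h1, h2⟩ := (uc_ord h.reg (Cardinal.aleph0_lt_aleph_one.trans h.big)).2
    (fun n => p.1.g (f n).1 (f n).2) fun n => p.2.ran _ (hf.ge (mem_range_self n)).1 _
  refine ⟨b, h1, fun η hη m => ?_⟩
  obtain ⟨n, hn⟩ := hf.le (show (η, m) ∈ _ from ⟨hη, mem_univ _⟩)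
  have := h2 n
  rwa [hn] at this

theorem mastere_nf (h : S.Ok) : ∃ b : On, ∀ l, b < l → Nice (Iio l) →
    ∃ F : List On → Set On, (∀ q, (F q).Countable) ∧
      ∀ (N : Set On) (α : On), (∀ q, (∀ a ∈ q, a ∈ N) → F q ⊆ N) → α < omega 1 →
        (∀ ξ < omega 1, ξ ∈ N ↔ ξ < α) → S.use = true →
          ∀ s < otp (N ∩ Iio l) l, ¬ FoundAt S.sh S.y α s := by
  by_cases hu : S.use = true
  · obtain ⟨b, hb⟩ := exists_nf h.sharp (h.tot hu)
    refine ⟨b, fun l h1 h2 => ?_⟩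
    obtain ⟨F, h3, h4⟩ := hb l h1 h2
    exact ⟨F, h3, fun N α a1 a2 a3 _ => h4 N α a1 a2 a3⟩
  · exact ⟨0, fun _ _ _ => ⟨fun _ => ∅, fun _ => countable_empty,
      fun _ _ _ _ _ k => absurd k hu⟩⟩

theorem mastere_step {f : ℕ → On} {η : On} (h0 : f 0 < η) (h1 : ∃ n, η < f n) :
    ∃ n, f n < η ∧ η ≤ f (n + 1) := by
  by_contra hc
  push Not at hc
  obtain ⟨n, hn⟩ := h1
  refine hn.not_gt ?_
  clear hn
  induction n with
  | zero => exact h0
  | succ n ih => exact hc n ih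

/-- The master lemma. -/
theorem master (h : S.Ok) (p : P1 S) (Dn : On → P1 S → Prop)
    (hD : ∀ i < omega 1, ∀ r, ∃ r' ≤ r, Dn i r') {St : Set On} (hSt : Stn (Iio (omega 1)) St) :
    ∃ q ≤ p, q.al ∈ St ∧ ∀ i < q.al, ∃ r, q ≤ r ∧ Dn i r := by
  obtain ⟨W, W0, hW⟩ := exists_word h p Dn hD
  choose F F1 F2 using fun w => mastere_bound h (W w)
  have hω : omega 1 < S.τ.ord := by
    rw [← Cardinal.ord_aleph]
    exact Cardinal.ord_lt_ord.2 h.big
  obtain ⟨δ, d1, s, d2, d3, d4⟩ := exists_gap h.reg (Cardinal.aleph0_lt_aleph_one.trans h.big)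
    h.sing F (fun q _ => F1 q) (max_lt h.e_lt hω)
  have d5 : omega 1 < δ := (le_max_right _ _).trans_lt d2
  have d0 : (0 : On) < δ := zero_le.trans_lt d5
  have d6 : ∀ q : List On, (∀ a ∈ q, a < δ) → ∃ γ δ', (∀ a ∈ q, a < δ') ∧ γ < δ' ∧ δ' < δ ∧
      (∀ q, (∀ a ∈ q, a < δ') → F q < δ') ∧
      ∀ c ∈ ext (Orc S.sh S.A) s, γ < c → δ' < c := fun q hq => by
    obtain ⟨x, a1, a2⟩ := carda_list d0 q hq
    obtain ⟨γ, δ', b1, b2⟩ := d4 x a1
    exact ⟨γ, δ', fun a ha => (a2 a ha).trans_lt b1, b2⟩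
  choose! Γ Δ e1 e2 e3 e4 e5 using d6
  obtain ⟨b, hb⟩ := mastere_nf h
  obtain ⟨l1, l2, -⟩ := nn_spec (max b (max δ s))
  generalize nn (max b (max δ s)) = l at l1 l2
  have l3 : δ < l := ((le_max_left _ _).trans (le_max_right _ _)).trans_lt l2
  have l4 : s < l := ((le_max_right _ _).trans (le_max_right _ _)).trans_lt l2
  obtain ⟨Fn, n1, n2⟩ := hb l ((le_max_left _ _).trans_lt l2) l1
  obtain ⟨Ft, t1, t2⟩ := exists_tvF (Orc S.sh S.A) l1
  obtain ⟨N, α, ⟨a1, -, a2⟩, a3, a4, a5, a6, a7⟩ := exists_N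
    (fun q => Fn q ∪ Ft q ∪ {δ, s, S.a, Γ q, Δ q} ∪
      (fun t : On × ℕ => (W q).1.g t.1 t.2) '' (Iio (W q).1.len ×ˢ (univ : Set ℕ)))
    (fun q => (((n1 q).union (t1 q)).union (toFinite _).countable).union
      (((countable_Iio.2 (W q).2.lt).prod countable_univ).image _))
    id Function.injective_id (hSt.inter uc_omega1 clb_limit)
  have c1 : ∀ q, (∀ a ∈ q, a ∈ N) → Fn q ⊆ N := fun q hq z hz =>
    a6 q hq (Or.inl (Or.inl (Or.inl hz)))
  have c2 : ∀ q, (∀ a ∈ q, a ∈ N) → Ft q ⊆ N := fun q hq z hz =>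
    a6 q hq (Or.inl (Or.inl (Or.inr hz)))
  have c3 : ∀ q, (∀ a ∈ q, a ∈ N) → δ ∈ N ∧ s ∈ N ∧ S.a ∈ N ∧ Γ q ∈ N ∧ Δ q ∈ N :=
    fun q hq => by
      refine ⟨?_, ?_, ?_, ?_, ?_⟩ <;> exact a6 q hq (Or.inl (Or.inr (by simp)))
  have c4 : ∀ q, (∀ a ∈ q, a ∈ N) → ∀ η < (W q).1.len, ∀ m, (W q).1.g η m ∈ N :=
    fun q hq η hη m => a6 q hq (Or.inr ⟨(η, m), ⟨hη, mem_univ _⟩, rfl⟩)
  obtain ⟨c5, c6, c7, -⟩ := c3 [] fun _ k => absurd k List.not_mem_nil
  obtain ⟨x, hx⟩ := (a5.mono (inter_subset_left (t := Iio δ))).exists_eq_range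
    ⟨0, (a7 0 (zero_le.trans_lt a3)).2 a4, d0⟩
  have x1 : ∀ n, x n ∈ N ∧ x n < δ := fun n => hx.ge (mem_range_self n)
  let w : ℕ → List On := fun n => Nat.rec [] (fun n u => x n :: Γ (x n :: u) :: u) n
  have w1 : ∀ n, w (n + 1) = x n :: Γ (x n :: w n) :: w n := fun _ => rfl
  have w2 : ∀ n, ∀ a ∈ w n, a ∈ N ∧ a < δ := fun n => by
    induction n with
    | zero => exact fun _ k => absurd k List.not_mem_nil
    | succ n ih =>
      have k : ∀ a ∈ x n :: w n, a ∈ N ∧ a < δ := List.forall_mem_cons.2 ⟨x1 n, ih⟩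
      rw [w1]
      exact List.forall_mem_cons.2 ⟨x1 n, List.forall_mem_cons.2
        ⟨⟨(c3 _ fun a ha => (k a ha).1).2.2.2.1,
          (e2 _ fun a ha => (k a ha).2).trans (e3 _ fun a ha => (k a ha).2)⟩, ih⟩⟩
  have w3 : ∀ n, ∀ a ∈ x n :: w n, a < δ := fun n =>
    List.forall_mem_cons.2 ⟨(x1 n).2, fun a ha => (w2 n a ha).2⟩
  have w4 : ∀ n, ∀ a ∈ x n :: w n, a ∈ N := fun n =>
    List.forall_mem_cons.2 ⟨(x1 n).1, fun a ha => (w2 n a ha).1⟩
  have w5 : ∀ n, F (w (n + 1)) < Δ (x n :: w n) := fun n => by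
    refine e4 _ (w3 n) _ ?_
    rw [w1]
    exact List.forall_mem_cons.2 ⟨e1 _ (w3 n) _ List.mem_cons_self, List.forall_mem_cons.2
      ⟨e2 _ (w3 n), fun a ha => e1 _ (w3 n) _ (List.mem_cons_of_mem _ ha)⟩⟩
  have w6 := fun n => hW (x n) (Γ (x n :: w n)) (w n) ((x1 n).2.trans d1)
    (((e2 _ (w3 n)).trans (e3 _ (w3 n))).trans d1)
  simp only [← w1] at w6
  obtain ⟨ξ, g, R, u1, u2, u3, u4, u5, u6, u7, u8⟩ := exists_union (fun n => W (w n))
    (fun n => (w6 n).1) fun n => (w6 n).2.1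
  have v1 : ∀ n, ∀ η < (W (w (n + 1))).1.len, ∀ m, g η m < Δ (x n :: w n) := fun n η hη m => by
    rw [← u5 (n + 1) η hη m]
    exact (F2 _ η hη m).trans (w5 n)
  have v2 : ∀ z, (z ∈ N ∩ Iio l ∧ z < δ) ↔ ∃ η < ξ, ∃ m, g η m = z := fun z => by
    constructor
    · rintro ⟨b1, b2⟩
      obtain ⟨n, rfl⟩ := hx.le ⟨b1.1, b2⟩
      obtain ⟨m, hm⟩ := (w6 n).2.2.1
      exact ⟨_, u3 n, m, (u5 (n + 1) _ (w6 n).2.1 m).symm.trans hm⟩
    · rintro ⟨η, hη, m, rfl⟩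
      obtain ⟨n, hn⟩ := u4 η hη
      have b1 : g η m < δ := (v1 n η (hn.trans (w6 n).2.1) m).trans (e3 _ (w3 n))
      refine ⟨⟨?_, b1.trans l3⟩, b1⟩
      rw [← u5 n η hn m]
      exact c4 _ (fun a ha => (w2 n a ha).1) η hn m
  obtain ⟨k, τ', k1, k2, k3, k4, k5⟩ := last_stage h (α := α) u1 l1 (t2 N c2)
    (a5.mono inter_subset_left) ⟨c5, l3⟩ ⟨c6, l4⟩ ((le_max_left _ _).trans d2.le) v2
    (fun z hz => ⟨fun k => (a7 z hz).1 k.1, fun k => ⟨(a7 z hz).2 k, (hz.trans d5).trans l3⟩⟩)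
    a3 ((a7 _ h.a_lt).1 c7) ((u5 0 0 (W (w 0)).2.pos 0).symm.trans (W (w 0)).2.g0)
    ((u5 0 0 (W (w 0)).2.pos 1).symm.trans (W (w 0)).2.g1) d3
    ⟨(W (w 0)).1.len + 1, u1.add_one_lt (u3 0), fun η b1 b2 => by
      obtain ⟨n, b3, b4⟩ := mastere_step (f := fun n => (W (w n)).1.len)
        ((lt_add_one _).trans_le b2) (u4 η b1)
      obtain ⟨m, hm⟩ := (w6 n).2.2.2.1
      exact ⟨Γ (x n :: w n), Δ (x n :: w n),
        ⟨(c3 _ (w4 n)).2.2.2.2, (e3 _ (w3 n)).trans l3⟩,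
        ⟨_, b3, m, ((u5 (n + 1) _ (w6 n).2.1 m).symm.trans hm).ge⟩,
        fun η' b5 m' => v1 n η' (b5.trans_le b4) m', e5 _ (w3 n)⟩⟩
    (n2 N α c1 a3 a7)
  obtain ⟨q, q1, q2⟩ := exists_bound (fun n => W (w n)) u1 u2 u3 u4 u5 u6 u7 u8 k1
    (k2 ▸ a2) k3 k4 k5
  rw [k2] at q2
  refine ⟨q, W0 ▸ q1 0, q2 ▸ a1, fun i hi => ?_⟩
  rw [q2] at hi
  obtain ⟨n, rfl⟩ := hx.le ⟨(a7 i (hi.trans a3)).2 hi, (hi.trans a3).trans d5⟩
  exact ⟨_, q1 (n + 1), (w6 n).2.2.2.2 (hi.trans a3)⟩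

/-- Hint: strong induction on `β`; `exists_al`, `master` and `exists_add`. -/
theorem exists_len (h : S.Ok) {β : On} (hβ : β < omega 1) (p : P1 S) :
    ∃ q ≤ p, β < q.1.len := by
  induction β using WellFoundedLT.induction generalizing p with
  | ind β ih =>
    obtain ⟨p', a1, a2⟩ := exists_al h p hβ
    obtain ⟨q, b1, -, b2⟩ := master h p' (fun i r => i < β → i < r.1.len) (fun i hi r => by
      by_cases k : i < β
      · obtain ⟨r', c1, c2⟩ := ih i k hi r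
        exact ⟨r', c1, fun _ => c2⟩
      · exact ⟨r, le_rfl, fun k' => absurd k' k⟩) (St := univ) fun C hC => by
      obtain ⟨y, c1, -⟩ := hC.unb 0 (zero_le.trans_lt hβ)
      exact ⟨y, mem_univ _, c1⟩
    have b3 : β ≤ q.1.len := le_of_forall_lt fun i hi => by
      obtain ⟨r, c1, c2⟩ := b2 i ((hi.trans a2).trans_le (al_mono b1))
      exact (c2 hi).trans_le c1.1
    obtain ⟨q', c1, c2, -⟩ := exists_add h q h.reg.ord_pos h.reg.ord_pos
    exact ⟨q', (c1.trans b1).trans a1, b3.trans_lt ((lt_add_one _).trans_eq c2.symm)⟩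

end P1

end Pool.Agent.MP_fd3eaf_lc

end
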