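import Pool.Agent.MP_fd3eaf_lc.Mg.Mat
import Pool.Agent.MP_fd3eaf_lc.Mg.Ind
import Pool.Agent.Lib.PosetForcing.Basic
import Pool.Agent.MP_fd3eaf_lc.Mg.Master

-- part MP_fd3eaf_lc.Coded
section

/-!
Soundness and completeness of the tables.
-/

set_option autoImplicit false

namespace Pool.Agent.MP_fd3eaf_lc

open Set Ordinal

section run

variable {sh use : Bool} {k : ℕ} {x y X B C : Set On} {L ξ τ w a : On} {R : Rn} {h : Ht}

theorem POk.iff (hX : sh = true → ∀ c < L, c ∈ X ↔ c ∈ SS) : POk sh x X B L ξ ↔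
    ∀ c < L, c ∈ pT B ξ ↔ c ∈ PS sh (Zx x (rnT B L).r) ξ ((rnT B L).H ξ) := by
  refine isT_iff.trans (forall₂_congr fun c hc => iff_congr Iff.rfl ?_)
  cases sh
  · exact Iff.rfl
  · exact T_congr fun z hz => hX rfl z ((hz.trans_le (cut_le c)).trans hc)

theorem codeda_refl (R : Rn) (ξ : On) : Agree R R ξ :=
  ⟨fun _ _ _ _ _ => rfl, fun _ _ => rfl, fun _ _ _ => rfl, fun _ _ _ _ => rfl,
    fun _ _ _ => Iff.rfl⟩

theorem PreT.sound (hX : sh = true → ∀ c < L, c ∈ X ↔ c ∈ SS) (h1 : Nice (Iio L))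
    (h2 : L < omega 1) (p : PreT sh x X B L ξ) : XPre sh x (rnT B L) ξ := by
  refine ⟨fun η hη => (p η hη).1.congr (fun _ _ _ _ _ => Iff.rfl) (codeda_refl _ _) h1.isLev
    (fun _ => fn_lt h1.zero_mem) ((POk.iff hX).1 (p η hη).2), fun η _ _ => ?_⟩
  exact (fn_lt h1.zero_mem).trans h2

theorem codeda_sec (hL : Nice (Iio L)) (F : On → Set On) (hF : ∀ η, F η ⊆ Iio L) :
    ∃ B ⊆ Iio L, ∀ η < L, sec B η = F η :=
  ⟨tabS F L, tabS_subset hL, fun η hη => (sec_tabS hη).trans (inter_eq_left.2 (hF η))⟩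

theorem codeda_nat (hL : Nice (Iio L)) {B0 B1 B2 B3 B4 B5 : Set On} (s0 : B0 ⊆ Iio L)
    (s1 : B1 ⊆ Iio L) (s2 : B2 ⊆ Iio L) (s3 : B3 ⊆ Iio L) (s4 : B4 ⊆ Iio L) (s5 : B5 ⊆ Iio L) :
    ∃ B ⊆ Iio L, sec B 0 = B0 ∧ sec B 1 = B1 ∧ sec B 2 = B2 ∧ sec B 3 = B3 ∧
      sec B 4 = B4 ∧ sec B 5 = B5 := by
  let G : ℕ → Set On := fun n => match n with
    | 0 => B0
    | 1 => B1
    | 2 => B2
    | 3 => B3
    | 4 => B4
    | _ => B5
  have hG : ∀ n, G n ⊆ Iio L := fun n => match n with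
    | 0 => s0
    | 1 => s1
    | 2 => s2
    | 3 => s3
    | 4 => s4
    | _ + 5 => s5
  obtain ⟨B, h1, h2⟩ := codeda_sec hL (fun η => G (toN η)) fun _ => hG _
  have h3 : ∀ n : ℕ, sec B n = G n := fun n => by rw [h2 n (hL.nat_mem n), toN_nat]
  exact ⟨B, h1, Nat.cast_zero (R := On) ▸ h3 0, Nat.cast_one (R := On) ▸ h3 1, h3 2, h3 3, h3 4,
    h3 5⟩

theorem codeda_hT (hL : Nice (Iio L)) (h : Ht) :
    ∃ B ⊆ Iio L, ∀ η < L, ∀ m, h η m < L → hT B L η m = h η m := by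
  obtain ⟨B, h1, h2⟩ := codeda_sec hL (fun η => tabF (fun m => h η (toN m)) L)
    fun _ => tabF_subset hL
  refine ⟨B, h1, fun η hη m hm => ?_⟩
  rw [hT, h2 η hη, fn_tabF (hL.nat_mem m) (by rwa [toN_nat]), toN_nat]

theorem codeda_bd (G : On → On) (h1 : ξ < omega 1) (h2 : ∀ η < ξ, G η < omega 1) :
    ∃ b < omega 1, ξ < b ∧ ∀ η < ξ, G η < b := by
  classical
  obtain ⟨b, hb, k⟩ := (tmc_clb (fun η => if η < ξ then G η else η) fun c hc => by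
    split_ifs with k
    exacts [h2 c k, hc]).unb ξ h1
  refine ⟨b, hb.1, k, fun η hη => ?_⟩
  have := hb.2.2 η (hη.trans k)
  rwa [if_pos hη] at this

/-- Tables for a run together with arbitrary data for the last stage.  Hint: `tabS`, `tabF`; bound
`ξ`, `τ`, the values of `h`, and `R.U η`, `R.S η` for `η < ξ`; the values `R.J η n` and `R.S η` only
matter for limit `η`. -/
theorem exists_tables (p : XPre sh x R ξ) (h1 : ξ < omega 1) (h2 : τ < omega 1)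
    (h3 : ∀ η < ξ, ∀ m, h η m < τ + 1) : ∃ b < omega 1, ∀ L, b < L → Nice (Iio L) →
      ∃ B ⊆ Iio L, Agree R (rnT B L) ξ ∧ HAg h ((rnT B L).H ξ) ξ ∧ (rnT B L).U ξ = τ ∧
        ∀ X : Set On, (sh = true → ∀ c < L, c ∈ X ↔ c ∈ SS) →
          PreT sh x X B L ξ ∧ POk sh x X B L ξ := by
  classical
  obtain ⟨b₁, a1, a2, a3⟩ := codeda_bd R.U h1 fun η hη =>
    (p.1 η hη).stage.col.lt_omega1 (hη.trans h1)
  obtain ⟨b₂, a4, -, a5⟩ := codeda_bd (fun η => if Order.IsSuccLimit η then R.S η else η) h1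
    fun η hη => by
      split_ifs with k
      exacts [p.2 η hη k, hη.trans h1]
  refine ⟨max (max b₁ b₂) τ, max_lt (max_lt a1 a4) h2, fun L hb hL => ?_⟩
  have l1 : b₁ < L := ((le_max_left _ _).trans (le_max_left _ _)).trans_lt hb
  have l2 : b₂ < L := ((le_max_right _ _).trans (le_max_left _ _)).trans_lt hb
  have l3 : τ < L := (le_max_right _ _).trans_lt hb
  have l4 : ξ < L := a2.trans l1
  choose tH t1 t2 using codeda_hT hL
  obtain ⟨H, e1, e2⟩ : ∃ H : On → Ht, H ξ = h ∧ ∀ η < ξ, H η = R.H η :=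
    ⟨fun η => if η < ξ then R.H η else h, if_neg (lt_irrefl ξ), fun η hη => if_pos hη⟩
  obtain ⟨U, e3, e4⟩ : ∃ U : On → On, U ξ = τ ∧ ∀ η < ξ, U η = R.U η :=
    ⟨fun η => if η < ξ then R.U η else τ, if_neg (lt_irrefl ξ), fun η hη => if_pos hη⟩
  obtain ⟨B0, s0, r0⟩ := codeda_sec hL (fun η => tH (H η)) fun _ => t1 _
  obtain ⟨B4, s4, r4⟩ := codeda_sec hL (fun η => {c | ∃ i : ℕ, c = i ∧ R.r η i})
    fun _ _ ⟨i, k, _⟩ => k ▸ hL.nat_mem i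
  obtain ⟨B5, s5, r5⟩ := codeda_sec hL (fun η => PS sh (Zx x R.r) η (H η) ∩ Iio L)
    fun _ => inter_subset_right
  obtain ⟨B, hB, q0, q1, q2, q3, q4, q5⟩ :=
    codeda_nat hL s0 (tabF_subset (f := U) hL) (tabF_subset (f := R.S) hL) (t1 R.J) s4 s5
  have hH : ∀ η ≤ ξ, HAg (H η) ((rnT B L).H η) η := fun η hη η' hη' m => by
    show _ = hT (sec (sec B 0) η) L η' m
    rw [q0, r0 η (hη.trans_lt l4)]
    refine (t2 _ η' ((hη'.trans_le hη).trans l4) m ?_).symm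
    rcases hη.lt_or_eq with k | rfl
    · rw [e2 η k]
      exact (((p.1 η k).stage.col.lt η' hη' m).trans (a3 η k)).trans l1
    · rw [e1]
      exact (Order.lt_add_one_iff.1 (h3 η' hη' m)).trans_lt l3
  have ag : Agree R (rnT B L) ξ := by
    refine ⟨fun η hη => e2 η hη ▸ hH η hη.le, fun η hη => ?_, fun η hη k => ?_,
      fun η hη k n => ?_, fun η hη i => ?_⟩
    · show _ = fn (sec B 1) L η
      rw [q1, fn_tabF (hη.trans l4) ((e4 η hη).trans_lt ((a3 η hη).trans l1)), e4 η hη]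
    · show _ = fn (sec B 2) L η
      have := a5 η hη
      rw [if_pos k] at this
      rw [q2, fn_tabF (hη.trans l4) (this.trans l2)]
    · show _ = hT (sec B 3) L η n
      rw [q3, t2 _ η (hη.trans l4) n ((((p.1.lad hη k).2.1 n).trans hη).trans l4)]
    · show _ ↔ (i : On) ∈ sec (sec B 4) η
      rw [q4, r4 η (hη.trans l4)]
      exact ⟨fun k => ⟨i, rfl, k⟩, fun ⟨j, k1, k2⟩ => Nat.cast_injective (R := On) k1 ▸ k2⟩
  have hP : ∀ η ≤ ξ, ∀ c < L,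
      c ∈ pT B η ↔ c ∈ PS sh (Zx x (rnT B L).r) η ((rnT B L).H η) := fun η hη c hc => by
    rw [pT, q5, r5 η (hη.trans_lt l4),
      PS_congr (zx_congr fun η' hη' => ag.r η' (hη'.trans_le hη)) (hH η hη)]
    exact and_iff_left hc
  refine ⟨B, hB, ag, e1 ▸ hH ξ le_rfl, ?_, fun X hX => ⟨fun η hη => ⟨?_, ?_⟩, ?_⟩⟩
  · show fn (sec B 1) L ξ = τ
    rw [q1, fn_tabF l4 (e3.trans_lt l3), e3]
  · exact ((p.congr ag).1 η hη).congr (fun _ _ _ _ _ => Iff.rfl) (codeda_refl _ _) hL.isLev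
      (fun _ => fn_lt hL.zero_mem) fun c hc => (hP η hη.le c hc).symm
  · exact (POk.iff hX).2 (hP η hη.le)
  · exact (POk.iff hX).2 (hP ξ le_rfl)

/-- The data for the witness of a step. -/
def StepD (O : Set On) (h : Ht) (ξ τ s : On) (w : On) (C : Set On) : Prop :=
  w < omega 1 ∧ C ⊆ Iio w ∧ Nice (Iio w) ∧ τ < w ∧ s < w ∧ HAg h (hT (sec C 0) w) ξ ∧
    ∀ c < w, c ∈ sec C 1 ↔ T O c

theorem exists_stepD (O : Set On) {s : On} (h1 : ξ < omega 1) (h2 : τ < omega 1)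
    (h3 : s < omega 1) (h4 : ∀ η < ξ, ∀ m, h η m < τ) : ∃ w C, StepD O h ξ τ s w C := by
  obtain ⟨hw, hb, -⟩ := nn_spec (max (max ξ τ) s)
  have l1 := ((le_max_left _ _).trans (le_max_left _ _)).trans_lt hb
  have l2 := ((le_max_right _ _).trans (le_max_left _ _)).trans_lt hb
  obtain ⟨B, b1, b2⟩ := codeda_hT hw h
  obtain ⟨C, hC, q0, q1, -⟩ := codeda_nat hw b1 (inter_subset_right (s := TS O)) b1 b1 b1 b1
  refine ⟨_, C, nn_lt_omega1 (max_lt (max_lt h1 h2) h3), hC, hw, l2,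
    (le_max_right _ _).trans_lt hb, fun η hη m => ?_, fun c hc => ?_⟩
  · rw [q0, b2 η (hη.trans l1) m ((h4 η hη m).trans l2)]
  · rw [q1]
    exact and_iff_left hc

/-- The conclusion of the matrix from a true run. -/
theorem mat_core {B' : Set On} {s s₀ : On} (hX : sh = true → ∀ c < L, c ∈ X ↔ c ∈ SS)
    (h1 : Nice (Iio L)) (h2 : L < omega 1) (p : PreT sh x X B L ξ) (p' : XPre sh x R (ξ + 1))
    (hc : Order.IsSuccLimit ξ →
      Con sh use y k a (PS sh (Zx x R.r) ξ (R.H ξ)) ξ (R.H ξ) (R.U ξ))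
    (hs : Order.IsSuccLimit ξ → s = R.S ξ)
    (hd : StepD (mrk (Zx x R.r) ξ (R.H ξ)) (R.H ξ) ξ (R.U ξ) s w C) :
    StepT sh x B C L ξ w ∧
      (Order.IsSuccLimit ξ → StT sh x X B L ξ → ConT sh use k y X B B' a L ξ s₀) := by
  have e : Agree R (rnT B L) ξ := (p'.mono (lt_add_one ξ).le).unique (p.sound hX h1 h2)
  have eZ : ZAg (Zx x R.r) (Zx x (rnT B L).r) ξ := zx_congr e.r
  have o := p'.1 ξ (lt_add_one ξ)
  obtain ⟨-, -, d1, d2, d3, d4, d5⟩ := hd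
  refine ⟨⟨R.U ξ, d2, o.stage.congr eZ d4 e, fun k l => ⟨d1, s, d3, isT_iff.2 ?_, ?_⟩⟩,
    fun l st => ?_⟩
  · rwa [← mrk_congr eZ d4]
  · subst k
    rw [hs l] at d3 ⊢
    exact (o.fnd l).congr d4 (extP_congr d1.isLev d3 fun c hc => (d5 c hc).symm)
  obtain ⟨eU, eH⟩ := o.stage.col.unique st.1.col eZ
  have c := (hc l).congr l.bot_lt eH
  rw [PS_congr eZ eH, eU] at c
  have hP := (POk.iff hX).1 st.2
  refine ⟨⟨c.loc.1, c.loc.2.1, c.loc.2.2.1, (hP _ (fn_lt h1.zero_mem)).2 c.loc.2.2.2⟩,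
    fun a1 a2 => ?_⟩
  have a3 : ∀ t < s₀, ¬ Fnd (PS sh (Zx x (rnT B L).r) ξ ((rnT B L).H ξ)) ((rnT B L).H ξ)
      ((rnT B L).U ξ) ξ t := fun t ht f =>
    a2 t ht (f.congr (fun _ _ _ => rfl) (extP_congr h1.isLev (ht.trans a1) hP).symm)
  refine ⟨fun μ hμ k => c.card s₀ (a1.trans h2) a3 μ hμ ((ontoP_congr h1.isLev a1 hP).1 k),
    fun hu q st' f => c.nf hu s₀ (a1.trans h2) a3 ⟨rnT B' L, _, _, q.sound hX h1 h2, st'.1, ?_⟩⟩
  exact f.congr (fun _ _ _ => rfl) (extP_congr h1.isLev a1 ((POk.iff hX).1 st'.2))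

end run

theorem codc_lim {A I : Set On} {j : On} (h : Cert A univ j I) (hj : j < omega 1) :
    ∃ l, l < omega 1 ∧ j < l ∧ ∀ x < l, ∃ ι ∈ I, x < ι ∧ ι < l := by
  have h1 := h.ord Cardinal.aleph0_lt_aleph_one (hj.trans_eq (Cardinal.ord_aleph 1).symm)
  rw [Cardinal.ord_aleph] at h1
  obtain ⟨l, a1, a2, a3⟩ := carda_close uc_omega1 (fun y z => ∃ ι ∈ I, y < ι ∧ ι < z)
    (fun y hy => by
      obtain ⟨ι, b1, b2, b3⟩ := h1 y hy
      exact ⟨ι + 1, nice_omega1.succ_mem b3, b2.trans (lt_add_one ι), ι, b1, b2,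
        lt_add_one ι⟩) hj
  refine ⟨l, a1, a2, fun x hx => ?_⟩
  obtain ⟨y, z, b1, b2, ι, b3, b4, b5⟩ := a3 x hx
  exact ⟨ι, b3, b1.trans b4, b5.trans_le b2⟩

theorem codc_app {A I : Set On} {l j c d : On} (h : Cert A (Iio l) j I) (hc : c < j)
    (hd : lev d = l) (a : AppT I c d) :
    ∃ ι, Inc I (par c) ι ∧ ∀ i < fml c, lv (par d) i = app (par c) ι i := by
  obtain ⟨a1, a2, a3, a4⟩ := a
  obtain ⟨τ, hτ⟩ := h.toInd.exists_inc (q := par d) fun x m => (par_lt_lev m).trans_eq hd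
  have hm : ∀ n, (if (par c).length + n < (par d).length then lv (par d) ((par c).length + n)
      else τ n) ∈ I := fun n => by
    split_ifs with k
    exacts [(a4 _ (Nat.le_add_right _ _) k).1, hτ.mem n]
  refine ⟨fun n => if (par c).length + n < (par d).length then lv (par d) ((par c).length + n)
    else τ n, ⟨strictMono_nat_of_lt_succ fun n => ?_, hm, fun x m =>
      ((par_lt m).trans hc).trans_le (h.ge _ (hm 0))⟩, fun i hi => ?_⟩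
  · split_ifs with k k' k'
    · exact (a4 _ (Nat.le_add_right _ _) k').2 _ (Nat.le_add_right _ _) (by omega)
    · exact (hτ.lt _ (Ind.indb_lv_mem k)).trans (hτ.mono (Nat.succ_pos n))
    · omega
    · exact hτ.mono (Nat.lt_succ_self n)
  · rcases lt_or_ge i (par c).length with k | k
    · rw [app_lt k, a3 i k]
    · obtain ⟨n, rfl⟩ := Nat.exists_eq_add_of_le k
      rw [app_add, if_pos (hi.trans_le a2)]

theorem codc_sh {I : Set On} {l j c : On} (h : Cert (SS ∩ Iio (cut c)) univ j I) (hl : j < l)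
    (hI : ∀ x < l, ∃ ι ∈ I, x < ι ∧ ι < l) (hc : c < j) :
    Sh (SS ∩ Iio (cut c)) (fml c) (par c) ↔ ∃ d < nl l, lev d = l ∧ cut d = cut c ∧
      fml d = fml c ∧ AppT (I ∩ Iio l) c d ∧ T SS d := by
  have h0 : 0 < l := zero_le.trans_lt hl
  have h1 := h.restrict h0 hI
  have h2 := (h.toInd.restrict h0 hI).1
  have key : ∀ ι, Inc (I ∩ Iio l) (par c) ι → (Sh (SS ∩ Iio (cut c)) (fml c) (par c) ↔
      Sat (SS ∩ Iio (cut c)) (Iio l) (fml c) (app (par c) ι)) := fun ι hι => by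
    rw [h2.sat nice_univ (isLowerSet_Iio l) (Ind.inda_mem (isLowerSet_Iio l) inter_subset_right hι)]
    exact sh_iff h.clb h.toInd ⟨hι.mono, fun n => (hι.mem n).1, hι.lt⟩
  have hq : ∀ a ∈ par c, a < l := fun a m => ((par_lt m).trans hc).trans hl
  constructor
  · intro hs
    obtain ⟨ι, hι⟩ := h1.toInd.exists_inc hq
    have hL := h1.nice.isLev
    have hv : (Loc.mk l (fml c) (cut c) (par c ++ (List.range (fml c)).map ι)).Valid := by
      refine ⟨(cut_le c).trans (hc.trans hl).le, fun a m => (List.mem_append.1 m).elim (hq a)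
        fun m' => ?_⟩
      obtain ⟨i, -, rfl⟩ := List.mem_map.1 m'
      exact (hι.mem i).2
    have e : ∀ i, (par c).length ≤ i → i < (par c ++ (List.range (fml c)).map ι).length →
        lv (par c ++ (List.range (fml c)).map ι) i = ι (i - (par c).length) := fun i k k' => by
      rw [List.length_append, List.length_map, List.length_range] at k'
      rw [Ind.indb_right k, taba_lv_range, if_pos (by omega)]
    refine ⟨_, code_lt_nl ⟨l, fml c, cut c, par c ++ (List.range (fml c)).map ι⟩, lev_code hL hv,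
      cut_code hL hv, fml_code hL hv, ?_, ?_⟩
    · rw [AppT, par_code hL hv]
      refine ⟨by simp, by simp, fun i hi => Ind.indb_left hi, fun i k k' => ?_⟩
      rw [e i k k']
      refine ⟨hι.mem _, fun i' m m' => ?_⟩
      rw [e i' m (m'.trans k')]
      exact hι.mono (by omega)
    · rw [T_code hL hv, ← sat_app (Nat.le_add_left _ _)]
      exact (key ι hι).1 hs
  · rintro ⟨d, -, a1, a2, a3, a4, a5⟩
    obtain ⟨ι, hι, b⟩ := codc_app h1 hc a1 a4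
    rw [T_iff, a1, a2, a3, sat_irrel b] at a5
    exact (key ι hι).2 a5

/-- True certificates.  Hint: for `e < L₀` take `Cert (SS ∩ Iio e) univ L₀ (I e)`
(`HasSharp.cert`) and a countable limit point `lam e` of `I e` (`Cert.ord`, `Cert.clb`,
`uc_omega1`), `Cert.restrict`; `certT_iff`, `mem_SS`, `sh_iff`, `Ind.restrict`; a refutation
contradicts `Cert.unique` and `tokLt_wf`. -/
theorem exists_xok (hs : AllSharp) {L₀ : On} (h1 : L₀ < omega 1) :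
    ∃ L₁ < omega 1, ∃ B ⊆ Iio L₁, XOk B L₀ L₁ ∧ (∀ c < L₀, c ∈ sec B 0 ↔ c ∈ SS) ∧
      ∀ C w, ¬ Refut B C L₀ L₁ w := by
  have hc : ∀ e, ∃ I lam, e < L₀ → Cert (SS ∩ Iio e) univ L₀ I ∧ lam < omega 1 ∧ L₀ < lam ∧
      ∀ x < lam, ∃ ι ∈ I, x < ι ∧ ι < lam := fun e => by
    by_cases he : e < L₀
    · obtain ⟨I, hI⟩ := (hs e).cert (e := L₀) fun x hx => lt_trans hx.2 he
      obtain ⟨lam, a⟩ := codc_lim hI h1
      exact ⟨I, lam, fun _ => ⟨hI, a⟩⟩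
    · exact ⟨∅, 0, fun k => absurd k he⟩
  choose I lam hc using hc
  obtain ⟨b, b1, b2⟩ := carda_bound Cardinal.isRegular_aleph_one (fun e : Iio L₀ => lam e) (by
    rw [Cardinal.mk_Iio_ordinal, Cardinal.lift_lt]
    exact Cardinal.lt_ord.1 (h1.trans_eq (Cardinal.ord_aleph 1).symm))
  rw [Cardinal.ord_aleph] at b1 b2
  obtain ⟨n1, n2, -⟩ := nn_spec (max b L₀)
  have n3 := nn_lt_omega1 (max_lt b1 h1)
  generalize nn (max b L₀) = L₁ at n1 n2 n3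
  have n4 : L₀ < L₁ := (le_max_right _ _).trans_lt n2
  have n5 : ∀ e < L₀, lam e < L₁ := fun e he =>
    (b2 ⟨e, he⟩ (hc e he).2.1).trans ((le_max_left _ _).trans_lt n2)
  obtain ⟨B, hB, e0, e1, e2, e3⟩ : ∃ B ⊆ Iio L₁, sec B 0 = SS ∩ Iio L₁ ∧
      sec B 1 = TS SS ∩ Iio L₁ ∧ sec B 2 = tabF lam L₁ ∧ sec B 3 = tabS I L₁ := by
    refine ⟨jn4 SS (TS SS) (tabF lam L₁) (tabS I L₁) ∩ Iio L₁, inter_subset_right, ?_, ?_, ?_, ?_⟩
    · rw [sec_inter n1 n1.zero_mem, sec_jn4_0]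
    · rw [sec_inter n1 (by simpa using taba_nat n1.lim 1), sec_jn4_1]
    · rw [sec_inter (a := 2) n1 (taba_nat n1.lim 2), sec_jn4_2, inter_eq_left.2 (tabF_subset n1)]
    · rw [sec_inter (a := 3) n1 (taba_nat n1.lim 3), sec_jn4_3, inter_eq_left.2 (tabS_subset n1)]
  have e4 : ∀ e < L₀, lamT B L₁ e = lam e := fun e he => by
    rw [lamT, e2, fn_tabF (he.trans n4) (n5 e he)]
  have e5 : ∀ e < L₀, indT B L₁ e = I e ∩ Iio (lam e) := fun e he => by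
    rw [indT, e3, e4 e he, sec_tabS (he.trans n4), inter_assoc,
      inter_eq_right.2 (Iio_subset_Iio (n5 e he).le)]
  have e6 : ∀ e < L₀, ∀ c < nl (lam e), c ∈ sec B 1 ↔ T SS c := fun e he c k => by
    rw [e1]
    exact and_iff_left (lt_trans k (n1.nl_mem (n5 e he)))
  have e7 : ∀ e < L₀, Cert (SS ∩ Iio e) (Iio (lam e)) L₀ (I e ∩ Iio (lam e)) := fun e he =>
    (hc e he).1.restrict (zero_le.trans_lt (hc e he).2.2.1) (hc e he).2.2.2
  have e8 : ∀ c < L₀, c ∈ sec B 0 ↔ c ∈ SS := fun c k => by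
    rw [e0]
    exact and_iff_left (lt_trans k n4)
  refine ⟨L₁, n3, B, hB, ⟨n1, n4, isT_iff.2 fun c k => ?_, fun e he => ?_, fun c k => ?_⟩, e8,
    fun C w ⟨e, he, l, _, r1, r2, r3, ⟨t, r4⟩, r5⟩ => ?_⟩
  · rw [e0, e1]
    exact (and_iff_left k).trans (T_congr fun x hx =>
      (and_iff_left (lt_trans (hx.trans_le (cut_le c)) k)).symm)
  · rw [e4 e he, e5 e he]
    exact (certT_iff (e6 e he) inter_subset_right).2 ⟨he.le, e7 e he⟩
  · have he : cut c < L₀ := (cut_le c).trans_lt k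
    rw [e8 c k, e4 _ he, e5 _ he, mem_SS]
    refine and_congr_right fun _ => ?_
    rw [codc_sh (hc _ he).1 (hc _ he).2.2.1 (hc _ he).2.2.2 k]
    exact exists_congr fun d => and_congr_right fun hd => by rw [e6 _ he d hd]
  · have f0 : sec B 0 ∩ Iio e = SS ∩ Iio e := by
      rw [e0, inter_assoc, inter_eq_right.2 (Iio_subset_Iio (he.trans n4).le)]
    rw [f0, isT_iff] at r1
    have f1 := ((certT_iff r1 inter_subset_right).1 r2).2
    rw [inter_assoc, inter_self] at f1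
    rw [e5 e he] at r3
    have f2 : sec C 1 ∩ Iio l ⊆ I e := fun x hx =>
      ((e7 e he).unique f1 (hc e he).1 (fun z hz => r3 z (lt_trans hz.2 (n5 e he)) hz)
        inter_subset_left hx.2 (mem_univ x)).1 hx
    obtain ⟨m, m1, m2⟩ := (tokLt_wf f1 inter_subset_right he.le (hc e he).1.toInd f2).has_min
      {t | t < w ∧ t ∈ sec C 2} ⟨t, r4⟩
    obtain ⟨s, s1, s2, s3⟩ := r5 m m1.1 m1.2
    exact m2 s ⟨s1, s2⟩ ((TokLt.congr r1).1 s3)

/-- The clause for the elements of `sec B 0`. -/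
theorem XOk.mem {B : Set On} {L₀ L₁ c : On} (h : XOk B L₀ L₁) (hc : c < L₀) :
    Cert (sec B 0 ∩ Iio (cut c)) (Iio (lamT B L₁ (cut c))) L₀ (indT B L₁ (cut c)) ∧
      ∀ ι, Inc (indT B L₁ (cut c)) (par c) ι → (c ∈ sec B 0 ↔ ω ≤ c ∧
        Sat (sec B 0 ∩ Iio (cut c)) (Iio (lamT B L₁ (cut c))) (fml c) (app (par c) ι)) := by
  obtain ⟨h1, h2, h3, h4, h5⟩ := h
  have he : cut c < L₀ := (cut_le c).trans_lt hc
  have hl : lamT B L₁ (cut c) < L₁ := fn_lt (zero_le.trans_lt h2)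
  have hP : ∀ d < nl (lamT B L₁ (cut c)), d ∈ sec B 1 ↔ T (sec B 0) d := fun d hd =>
    isT_iff.1 h3 d (hd.trans (h1.nl_mem hl))
  have hC := ((certT_iff hP inter_subset_right).1 (h4 _ he)).2
  refine ⟨hC, fun ι hι => (h5 c hc).trans (and_congr_right fun _ => ?_)⟩
  change Cert _ _ _ (indT B L₁ (cut c)) at hC
  generalize indT B L₁ (cut c) = I at hC hι
  generalize lamT B L₁ (cut c) = l at hC hP
  have hj : L₀ < l := Cl.clC_lt hC
  have hq : ∀ a ∈ par c, a < L₀ := fun a m => (par_lt m).trans hc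
  constructor
  · rintro ⟨d, a1, a2, a3, a4, ⟨b1, b2, b3, b4⟩, a5⟩
    rw [hP d a1, T_iff, a2, a3, a4] at a5
    obtain ⟨τ, hτ⟩ := hC.toInd.exists_inc (q := par d) fun a m => (par_lt_lev m).trans_eq a2
    have hm : ∀ n, app (par d) τ ((par c).length + n) ∈ I := by
      intro n
      rcases lt_or_ge ((par c).length + n) (par d).length with k | k
      · rw [app_lt k]
        exact (b4 _ (Nat.le_add_right _ _) k).1
      · obtain ⟨m, e⟩ := Nat.exists_eq_add_of_le k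
        rw [e, app_add]
        exact hτ.mem m
    have hι' : Inc I (par c) fun n => app (par d) τ ((par c).length + n) := by
      refine ⟨strictMono_nat_of_lt_succ fun n => ?_, hm, fun a m =>
        (hq a m).trans_le (hC.ge _ (hm 0))⟩
      rcases lt_or_ge ((par c).length + n) (par d).length with k | k
      · rw [app_lt k]
        rcases lt_or_ge ((par c).length + (n + 1)) (par d).length with k' | k'
        · rw [app_lt k']
          exact (b4 _ (Nat.le_add_right _ _) k').2 _ (Nat.le_add_right _ _) (by omega)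
        · rw [show (par c).length + (n + 1) = (par d).length + 0 by omega, app_add]
          exact hτ.lt _ (Ind.indb_lv_mem k)
      · obtain ⟨m, e⟩ := Nat.exists_eq_add_of_le k
        rw [show (par c).length + (n + 1) = (par d).length + (m + 1) by omega, e, app_add, app_add]
        exact hτ.mono (Nat.lt_succ_self m)
    refine hC.ind _ _ _ _ hι' hι ((sat_irrel fun i hi => ?_).1 a5)
    rw [← app_lt (ι := τ) (hi.trans_le b2)]
    rcases lt_or_ge i (par c).length with k | k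
    · rw [app_lt k, app_lt (k.trans_le b1), b3 i k]
    · obtain ⟨m, rfl⟩ := Nat.exists_eq_add_of_le k
      rw [app_add]
  · intro hs
    have hL : IsLev l := hC.nice.isLev
    have hv : (Loc.mk l (fml c) (cut c) (par c ++ (List.range (fml c)).map ι)).Valid := by
      refine ⟨(he.trans hj).le, fun a m => ?_⟩
      rcases List.mem_append.1 m with m | m
      · exact (hq a m).trans hj
      · obtain ⟨n, -, rfl⟩ := List.mem_map.1 m
        exact hC.sub (hι.mem n)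
    have hd := code_lt_nl (Loc.mk l (fml c) (cut c) (par c ++ (List.range (fml c)).map ι))
    refine ⟨_, hd, lev_code hL hv, cut_code hL hv, fml_code hL hv, ?_, ?_⟩
    · have hr : ∀ i, (par c).length ≤ i → i < (par c).length + fml c →
          lv (par c ++ (List.range (fml c)).map ι) i = ι (i - (par c).length) := fun i k k' => by
        rw [Ind.indb_right k, taba_lv_range, if_pos (by omega)]
      rw [AppT, par_code hL hv]
      simp only [List.length_append, List.length_map, List.length_range]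
      refine ⟨Nat.le_add_right _ _, Nat.le_add_left _ _, fun i k => Ind.indb_left k,
        fun i k k' => ⟨?_, fun i' m m' => ?_⟩⟩
      · rw [hr i k k']
        exact hι.mem _
      · rw [hr i k k', hr i' m (m'.trans k')]
        exact hι.mono (by omega)
    · rw [hP _ hd, T_code hL hv]
      exact (sat_app (Nat.le_add_left _ _)).1 hs

/-- Unrefuted certificates are correct.  Hint: `SS_unique`, `XOk.mem`, `Cl.cert_club`,
`Cert.clb`, `Clb.tail`, `Cl.inter_Ici`, `sh_of_cert`; a failure of the hypothesis of `cert_club`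
gives a refutation `C = jn4 (TS A ∩ Iio α) I' (Z ∩ Iio L) ∅ ∩ Iio α`. -/
theorem Cl.xok_sound {α : On} {R : Set (Set On)} (h : Cl α R)
    (hst : ∀ e j, e ≤ j → j < α → ∃ I, Cert (SS ∩ Iio e) univ j I ∧
      ∀ C ∈ R, Clb (Iio α) C → ∃ δ ∈ C, δ ∈ I)
    {B : Set On} (hB : B ∈ R) {L₀ L₁ : On} (h1 : L₁ < α) (h2 : XOk B L₀ L₁)
    (h3 : ∀ w < α, ∀ C ∈ R, ¬ Refut B C L₀ L₁ w) : ∀ c < L₀, c ∈ sec B 0 ↔ c ∈ SS := by
  refine SS_unique fun c hc ih => ?_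
  have hn := h.nice
  obtain ⟨hC, hm⟩ := h2.mem hc
  have he : cut c < L₀ := (cut_le c).trans_lt hc
  have hL : L₀ < α := h2.2.1.trans h1
  have hl : lamT B L₁ (cut c) < α := (fn_lt (zero_le.trans_lt h2.2.1)).trans h1
  have hA : sec B 0 ∩ Iio (cut c) ∈ R := h.inter_Iio (h.sec_mem hB 0) _
  have hI : indT B L₁ (cut c) ∈ R := h.inter_Iio (h.sec_mem (h.sec_mem hB 3) _) _
  have eA : sec B 0 ∩ Iio (cut c) = SS ∩ Iio (cut c) :=
    Set.ext fun d => and_congr_left fun k => ih d k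
  obtain ⟨I', a1, a2, a3⟩ := h.cert_club hA hI inter_subset_right he.le hl hC
    fun l' b1 I' b2 b3 b4 Z b5 L b6 b7 b8 => by
      have hC' := h.jn4_mem (h.ts_mem hA) b2 (h.inter_Iio b5 L) h.empty_mem
      have hw : max l' L + 1 < α := hn.succ_mem (max_lt b1 b6)
      have hw' : L < max l' L + 1 := (le_max_right _ _).trans_lt (lt_add_one _)
      refine h3 _ hw _ hC' ⟨cut c, he, l', (le_max_left _ _).trans_lt (lt_add_one _), ?_⟩
      have n1 : (1 : On) < α := by simpa using hn.nat_mem 1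
      have n2 : (2 : On) < α := hn.nat_mem 2
      rw [sec_inter hn h.pos, sec_inter hn n1, sec_inter hn n2, sec_jn4_0, sec_jn4_1, sec_jn4_2,
        inter_eq_left.2 (h.sub I' b2), inter_eq_left.2 b3.sub, inter_assoc, inter_self]
      have hT : ∀ d < nl l', d ∈ TS (sec B 0 ∩ Iio (cut c)) ∩ Iio α ↔
          T (sec B 0 ∩ Iio (cut c)) d := fun d k => and_iff_left (k.trans (hn.nl_mem b1))
      refine ⟨isT_iff.2 hT, (certT_iff hT b3.sub).2 ⟨he.le, ?_⟩, fun z _ m => b4 m, ?_,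
        fun t _ m => ?_⟩
      · rwa [inter_assoc, inter_self]
      · obtain ⟨t, k1, k2⟩ := b7
        exact ⟨t, k1.trans hw', ⟨k2, k1⟩, k1.trans b6⟩
      · obtain ⟨s, k1, k2, k3⟩ := b8 t m.1.2 m.1.1
        exact ⟨s, k1.trans hw', ⟨⟨k2, k1⟩, k1.trans b6⟩, (TokLt.congr hT).2 k3⟩
  obtain ⟨I₀, c1, c2⟩ := hst (cut c) L₀ he.le hL
  obtain ⟨ι, hι⟩ := hC.toInd.exists_inc (q := par c) fun a m =>
    ((par_lt m).trans hc).trans (Cl.clC_lt hC)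
  rw [hm ι hι, ← eA]
  refine and_congr_right fun _ => (sh_of_cert hC a2 a3 c1.clb (eA ▸ c1.toInd)
    (fun γ hγ => ?_) hι).symm
  obtain ⟨δ, d1, d2⟩ := c2 _ (h.inter_Ici a1 (γ + 1)) (a2.clb.tail hn.lower (hn.succ_mem hγ))
  exact ⟨δ, d1.1, d2, (lt_add_one γ).trans_le d1.2⟩

/-- Packing of the arguments. -/
theorem mat'_of_mat {sh use : Bool} {k : ℕ} {x y : Set On} {a : On}
    (h : ∀ o < omega 1, ∀ B, (∃ g < omega 1, B ⊆ Iio g) →
      ∃ w < omega 1, ∃ C, Mat sh use k x y B C o a w)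
    {B₀ B₁ B₂ : Set On} {ξ s₀ L₀ L₁ g : On} (hg : g < omega 1) (h0 : B₀ ⊆ Iio g)
    (h1 : B₁ ⊆ Iio g) (h2 : B₂ ⊆ Iio g) (h3 : ξ < omega 1) (h4 : s₀ < omega 1)
    (h5 : L₀ < omega 1) (h6 : L₁ < omega 1) :
    ∃ w < omega 1, ∃ C, Mat' sh use k x y B₀ B₁ B₂ C ξ s₀ L₀ L₁ a w := by
  obtain ⟨n1, n2, -⟩ := nn_spec g
  obtain ⟨l, l1, l2, l3⟩ := nice_omega1.up (max (max ξ s₀) (max L₀ L₁))
    (max_lt (max_lt h3 h4) (max_lt h5 h6))
  simp only [max_lt_iff] at l3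
  have hv : (Loc.mk l 0 0 [ξ, s₀, L₀, L₁]).Valid := ⟨zero_le, fun z hz => by
    simp only [List.mem_cons, List.not_mem_nil, or_false] at hz
    rcases hz with rfl | rfl | rfl | rfl
    exacts [l3.1.1, l3.1.2, l3.2.1, l3.2.2]⟩
  have hp := par_code (x := ⟨l, 0, 0, [ξ, s₀, L₀, L₁]⟩) l2 hv
  obtain ⟨w, hw, C, hC⟩ := h (code ⟨l, 0, 0, [ξ, s₀, L₀, L₁]⟩) (nice_omega1.code_mem l1)
    (jn4 B₀ B₁ B₂ ∅ ∩ Iio (nn g)) ⟨nn g, nn_lt_omega1 hg, inter_subset_right⟩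
  have hs : ∀ {A : Set On}, A ⊆ Iio g → A ∩ Iio (nn g) = A := fun hA =>
    inter_eq_left.2 (hA.trans (Iio_subset_Iio n2.le))
  have k1 : (1 : On) < nn g := by simpa using n1.nat_mem 1
  have k2 : (2 : On) < nn g := by simpa using n1.nat_mem 2
  rw [Mat, hp, sec_inter n1 n1.zero_mem, sec_inter n1 k1, sec_inter n1 k2, sec_jn4_0, sec_jn4_1,
    sec_jn4_2, hs h0, hs h1, hs h2] at hC
  exact ⟨w, hw, C, hC⟩

theorem codede_core {sh use : Bool} {k : ℕ} {x y : Set On} {a : On} (hs : sh = true → AllSharp)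
    (h : ∀ o < omega 1, ∀ B, (∃ g < omega 1, B ⊆ Iio g) →
      ∃ w < omega 1, ∃ C, Mat sh use k x y B C o a w) {L : On} (h1 : Nice (Iio L))
    (h2 : L < omega 1) : ∃ X : Set On, (sh = true → ∀ c < L, c ∈ X ↔ c ∈ SS) ∧
      ∀ B ⊆ Iio L, ∀ B' ⊆ Iio L, ∀ ξ < L, ∀ s₀ < omega 1, PreT sh x X B L ξ →
        ∃ w < omega 1, ∃ C, StepT sh x B C L ξ w ∧
          (Order.IsSuccLimit ξ → StT sh x X B L ξ → ConT sh use k y X B B' a L ξ s₀) := by
  obtain ⟨L₁, a1, B₀, a2, a3⟩ : ∃ L₁ < omega 1, ∃ B₀ ⊆ Iio L₁, sh = true → XOk B₀ L L₁ ∧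
      (∀ c < L, c ∈ sec B₀ 0 ↔ c ∈ SS) ∧ ∀ C w, ¬ Refut B₀ C L L₁ w := by
    cases sh with
    | false => exact ⟨L, h2, ∅, empty_subset _, fun e => absurd e Bool.false_ne_true⟩
    | true =>
      obtain ⟨L₁, a1, B₀, a2, a3⟩ := exists_xok (hs rfl) h2
      exact ⟨L₁, a1, B₀, a2, fun _ => a3⟩
  refine ⟨sec B₀ 0, fun e => (a3 e).2.1, fun B hB B' hB' ξ hξ s₀ hs₀ p => ?_⟩
  obtain ⟨w, hw, C, m⟩ := mat'_of_mat h (max_lt h2 a1)
    (a2.trans (Iio_subset_Iio (le_max_right _ _)))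
    (hB.trans (Iio_subset_Iio (le_max_left _ _))) (hB'.trans (Iio_subset_Iio (le_max_left _ _)))
    (hξ.trans h2) hs₀ h2 a1
  rcases m (fun e => (a3 e).1) h1 hξ p with ⟨e, r⟩ | r
  · exact absurd r ((a3 e).2.2 C w)
  · exact ⟨w, hw, C, r⟩

theorem codede_tab {sh : Bool} {x : Set On} {R : Rn} {ξ τ : On} {h : Ht} (p : XPre sh x R ξ)
    (s : Stage (Zx x R.r) R ξ h τ) (h1 : ξ < omega 1) : ∃ b < omega 1, ∀ L, b < L →
      Nice (Iio L) → ∃ B ⊆ Iio L, HAg h ((rnT B L).H ξ) ξ ∧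
        ∀ X : Set On, (sh = true → ∀ c < L, c ∈ X ↔ c ∈ SS) →
          PreT sh x X B L ξ ∧ StT sh x X B L ξ ∧
          (∀ c < L, c ∈ pT B ξ ↔ c ∈ PS sh (Zx x R.r) ξ h) ∧
          ∀ s < L, Fnd (pT B ξ) ((rnT B L).H ξ) ((rnT B L).U ξ) ξ s ↔
            Fnd (PS sh (Zx x R.r) ξ h) h τ ξ s := by
  obtain ⟨b, a1, a2⟩ := exists_tables p h1 (s.col.lt_omega1 h1)
    fun η hη m => (s.col.lt η hη m).trans (lt_add_one τ)
  refine ⟨b, a1, fun L hL hn => ?_⟩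
  obtain ⟨B, b1, b2, b3, b4, b5⟩ := a2 L hL hn
  refine ⟨B, b1, b3, fun X hX => ?_⟩
  obtain ⟨c1, c2⟩ := b5 X hX
  have z : ZAg (Zx x R.r) (Zx x (rnT B L).r) ξ := zx_congr b2.r
  have e : ∀ c < L, c ∈ pT B ξ ↔ c ∈ PS sh (Zx x R.r) ξ h := by
    rw [PS_congr z b3]
    exact (POk.iff hX).1 c2
  refine ⟨c1, ⟨b4.symm ▸ s.congr z b3 b2, c2⟩, e, fun t ht => ?_⟩
  rw [b4]
  exact ⟨fun f => f.congr (runc_symm b3) (extP_congr hn.isLev ht e),
    fun f => f.congr b3 (extP_congr hn.isLev ht e).symm⟩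

/-- Completeness. -/
theorem psi_of_mat {sh use : Bool} {k : ℕ} {x y : Set On} {a : On} (hs : sh = true → AllSharp)
    (h : ∀ o < omega 1, ∀ B, (∃ g < omega 1, B ⊆ Iio g) →
      ∃ w < omega 1, ∃ C, Mat sh use k x y B C o a w) : Psi sh use x y k a := by
  refine ⟨fun ξ hξ R p => ?_, fun ξ hξ hl R g τ p st => ?_⟩
  · obtain ⟨b, a1, a2⟩ := exists_tables (h := fun _ _ => 0) (τ := 0) p hξ
      (zero_le.trans_lt hξ) fun _ _ _ => lt_add_one 0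
    obtain ⟨n1, n2, -⟩ := nn_spec (max b ξ)
    obtain ⟨B, b1, b2, -, -, b5⟩ := a2 _ ((le_max_left _ _).trans_lt n2) n1
    obtain ⟨X, c1, c2⟩ := codede_core hs h n1 (nn_lt_omega1 (max_lt a1 hξ))
    obtain ⟨w, hw, C, ⟨τ, -, d1, d2⟩, -⟩ := c2 B b1 B b1 ξ ((le_max_right _ _).trans_lt n2) ξ hξ
      (b5 X c1).1
    have z := zx_congr (x := x) b2.symm.r
    refine ⟨_, τ, d1.congr z (fun _ _ _ => rfl) b2.symm, fun e l => ?_⟩
    obtain ⟨f1, s, f2, f3, f4⟩ := d2 e l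
    subst e
    refine ⟨s, f2.trans hw, f4.congr (fun _ _ _ => rfl) (extP_congr f1.isLev f2 ?_)⟩
    rw [← PS_congr z fun _ _ _ => rfl]
    exact isT_iff.1 f3
  · have t1 : τ < omega 1 := st.col.lt_omega1 hξ
    obtain ⟨b, a1, a2⟩ := codede_tab p st hξ
    have main : ∀ s₀ < omega 1, ∀ b' < omega 1, ∃ L, b' < L ∧ s₀ < L ∧ τ < L ∧ Nice (Iio L) ∧
        ∃ X B : Set On, (sh = true → ∀ c < L, c ∈ X ↔ c ∈ SS) ∧
          (∀ m, (rnT B L).H ξ 0 m = g 0 m) ∧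
          (∀ c < L, c ∈ pT B ξ ↔ c ∈ PS sh (Zx x R.r) ξ g) ∧
          ((∀ s < s₀, ¬ Fnd (PS sh (Zx x R.r) ξ g) g τ ξ s) →
            ∀ s < s₀, ¬ Fnd (pT B ξ) ((rnT B L).H ξ) ((rnT B L).U ξ) ξ s) ∧
          ∀ B' ⊆ Iio L, ConT sh use k y X B B' a L ξ s₀ := fun s₀ h1 b' h2 => by
      obtain ⟨n1, n2, -⟩ := nn_spec (max (max b b') (max (max s₀ τ) ξ))
      simp only [max_lt_iff] at n2
      obtain ⟨⟨n2, n3⟩, ⟨n4, n5⟩, n6⟩ := n2
      obtain ⟨B, b1, b2, b3⟩ := a2 _ n2 n1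
      obtain ⟨X, c1, c2⟩ := codede_core hs h n1
        (nn_lt_omega1 (max_lt (max_lt a1 h2) (max_lt (max_lt h1 t1) hξ)))
      obtain ⟨d1, d2, d3, d4⟩ := b3 X c1
      refine ⟨_, n3, n4, n5, n1, X, B, c1, fun m => (b2 0 hl.bot_lt m).symm, d3,
        fun k s hs f => k s hs ((d4 s (hs.trans n4)).1 f), fun B' hB' => ?_⟩
      obtain ⟨w, -, C, -, r⟩ := c2 B b1 B' hB' ξ n6 s₀ h1 d1
      exact r hl d2
    refine ⟨?_, fun s₀ h1 h2 μ hμ o => ?_, ?_⟩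
    · obtain ⟨L, -, -, n1, -, X, B, -, b1, b2, -, b4⟩ := main ξ hξ ξ hξ
      obtain ⟨c1, c2, c3, c4⟩ := (b4 ∅ (empty_subset _)).1
      rw [b1] at c1 c2 c3 c4
      exact ⟨c1, c2, c3, (b2 _ ((st.col.lt 0 hl.bot_lt 1).trans n1)).1 c4⟩
    · obtain ⟨L, -, n1, -, n2, X, B, -, b1, b2, b3, b4⟩ := main s₀ h1 ξ hξ
      have c := ((b4 ∅ (empty_subset _)).2 n1 (b3 h2)).1
      rw [b1] at c
      exact c μ hμ ((ontoP_congr n2.isLev n1 b2).2 o)
    · rintro e s₀ h1 h2 ⟨R', g', τ', p', st', f⟩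
      obtain ⟨b', a3, a4⟩ := codede_tab p' st' ((st.col.lt 0 hl.bot_lt 0).trans t1)
      obtain ⟨L, n0, n1, -, n2, X, B, b0, b1, -, b3, b4⟩ := main s₀ h1 b' a3
      obtain ⟨B', c1, -, c2⟩ := a4 L n0 n2
      obtain ⟨d1, d2, -, d4⟩ := c2 X b0
      have c := ((b4 B' c1).2 n1 (b3 h2)).2 e
      rw [b1] at c
      exact c d1 d2 ((d4 s₀ n1).2 f)

end Pool.Agent.MP_fd3eaf_lc

end

-- part MP_fd3eaf_lc.Gen
section

/-!
Preservation of stationary sets from a combinatorial property, and countable transitive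
elementary submodels of a generic extension.
-/

set_option autoImplicit false

namespace Pool.Agent.MP_fd3eaf_lc

open Set Ordinal Pool.Agent.Lib.Forcing Pool.Agent.Lib.PosetForcing

section ck

variable {B : Type} [CompleteBooleanAlgebra B]

theorem gena_top {a b : PSet.{0}} (h : PSet.Equiv a b) : (⊤ : B) ≤ Nm.eqv (chk a) (chk b) := by
  induction a generalizing b with
  | mk ι A ih =>
    cases b with
    | mk κ C =>
      refine Nm.le_eqv (fun i => ?_) fun j => ?_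
      · obtain ⟨j, hj⟩ := h.1 i
        exact Nm.le_mem (y := chk ⟨κ, C⟩) j le_top (le_top.trans (ih i hj))
      · obtain ⟨i, hi⟩ := h.2 j
        refine Nm.le_mem (y := chk ⟨ι, A⟩) i le_top (le_top.trans ?_)
        rw [Nm.eqv_symm]
        exact ih i hi

theorem gena_chk (U : Ult B) (a b : PSet.{0}) :
    U.cl (chk a) = U.cl (chk b) ↔ PSet.Equiv a b := by
  refine ⟨fun h => ?_, fun h => U.cl_eq.2 (U.mono (gena_top h) U.top)⟩
  induction a generalizing b U with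
  | mk ι A ih =>
    cases b with
    | mk κ C =>
      refine ⟨fun i => ?_, fun j => ?_⟩
      · exact mem_elim (chk ⟨κ, C⟩)
          (fun V z => z = V.cl (chk (A i)) → ∃ j, PSet.Equiv (A i) (C j))
          (fun V j _ e => ⟨j, ih i V (C j) e.symm⟩) U _
          (h ▸ U.E_intro (chk ⟨ι, A⟩) i U.top) rfl
      · exact mem_elim (chk ⟨ι, A⟩)
          (fun V z => z = V.cl (chk (C j)) → ∃ i, PSet.Equiv (A i) (C j))
          (fun V i _ e => ⟨i, ih i V (C j) e⟩) U _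
          (h ▸ U.E_intro (chk ⟨κ, C⟩) j U.top) rfl

theorem cl_chk (U : Ult B) (a : PSet.{0}) : U.cl (chk a) = ck U (ZFSet.mk a) := by
  exact (gena_chk U a _).2 (ZFSet.eq.1 (Quotient.out_eq (ZFSet.mk a)).symm)

theorem ck_inj (U : Ult B) {x y : ZFSet.{0}} : ck U x = ck U y ↔ x = y := by
  refine ⟨fun h => ?_, fun h => h ▸ rfl⟩
  rw [← Quotient.out_eq x, ← Quotient.out_eq y]
  exact ZFSet.eq.2 ((gena_chk U _ _).1 h)

theorem gena_elim (b : PSet.{0}) (Q : ∀ U : Ult B, U.M → Prop)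
    [∀ x, Rep (fun U => Q U (U.cl x))] (h : ∀ U, ∀ x ∈ ZFSet.mk b, Q U (ck U x)) (U : Ult B)
    (a : U.M) (ha : U.E a (U.cl (chk b))) : Q U a := by
  cases b with
  | mk κ C =>
    refine mem_elim (chk ⟨κ, C⟩) Q (fun V j _ => ?_) U a ha
    have e := h V (ZFSet.mk (C j)) (ZFSet.mk_mem_iff.2 (PSet.func_mem ⟨κ, C⟩ j))
    rw [← cl_chk] at e
    exact e

theorem gena_intro (U : Ult B) (b : PSet.{0}) {x : ZFSet.{0}} (h : x ∈ ZFSet.mk b) :
    U.E (ck U x) (U.cl (chk b)) := by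
  induction x using Quotient.inductionOn with
  | h a =>
    cases b with
    | mk κ C =>
      obtain ⟨j, hj⟩ : ∃ j, PSet.Equiv a (C j) := h
      have e : ck U (Quotient.mk _ a) = U.cl (chk (C j)) :=
        (cl_chk U a).symm.trans ((gena_chk U _ _).2 hj)
      rw [e]
      exact U.E_intro (chk ⟨κ, C⟩) j U.top

theorem ck_mem (U : Ult B) {x y : ZFSet.{0}} : U.E (ck U x) (ck U y) ↔ x ∈ y := by
  refine ⟨fun h => ?_, fun h => ?_⟩
  · refine gena_elim y.out (fun (V : Ult B) z => z = V.cl (chk x.out) → x ∈ y)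
      (fun V z hz e => ?_) U _ h rfl
    rw [← (ck_inj V (x := z) (y := x)).1 e, ← Quotient.out_eq y]
    exact hz
  · refine gena_intro U y.out ?_
    rw [← Quotient.out_eq y] at h
    exact h

theorem ck_elim (y : ZFSet.{0}) (Q : ∀ U : Ult B, U.M → Prop)
    [∀ x, Rep (fun U => Q U (U.cl x))] (h : ∀ U, ∀ x ∈ y, Q U (ck U x)) (U : Ult B) (a : U.M)
    (ha : U.E a (ck U y)) : Q U a := by
  exact gena_elim y.out Q (fun V x hx => h V x (Quotient.out_eq y ▸ hx)) U a ha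

/-- An ultrafilter through a decreasing chain. -/
theorem exists_ult_chain (a : ℕ → B) (h1 : Antitone a) (h2 : ∀ n, a n ≠ ⊥) :
    ∃ U : Ult B, ∀ n, U.P (a n) := by
  let J : Order.Ideal B :=
    { carrier := {x | ∃ n, x ≤ (a n)ᶜ}
      lower' := fun x y hxy ⟨n, hn⟩ => ⟨n, hxy.trans hn⟩
      nonempty' := ⟨⊥, 0, bot_le⟩
      directed' := fun x ⟨m, hm⟩ y ⟨n, hn⟩ => ⟨(a (max m n))ᶜ, ⟨_, le_rfl⟩,
        hm.trans (compl_le_compl (h1 (le_max_left m n))),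
        hn.trans (compl_le_compl (h1 (le_max_right m n)))⟩ }
  have h3 : J.IsProper := by
    rw [Order.Ideal.isProper_iff_top_notMem]
    rintro ⟨n, hn⟩
    exact h2 n (by simpa using hn)
  obtain ⟨I, hI, hmax⟩ := h3.exists_le_maximal
  have hp : I.IsPrime := inferInstance
  have htop : ⊤ ∉ I := Order.Ideal.IsProper.top_notMem hmax.toIsProper
  have hc : ∀ x, xᶜ ∈ I → x ∉ I := fun x h1 h2 => htop (by simpa using Order.Ideal.sup_mem h2 h1)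
  refine ⟨⟨fun x => x ∉ I, fun x y => ⟨fun h => ?_, fun h h' => ?_⟩, fun x => ⟨fun h h' => ?_, ?_⟩⟩,
    fun n => hc _ (hI ⟨n, le_rfl⟩)⟩
  · exact ⟨fun hx => h (I.lower inf_le_left hx), fun hy => h (I.lower inf_le_right hy)⟩
  · exact (hp.mem_or_mem h').elim h.1 h.2
  · exact hp.mem_or_compl_mem.elim h' h
  · exact fun h h' => h (hc x h')

end ck

/-- The combinatorial form of the preservation of stationary sets. -/
def SP.{u} (Q : Type u) [Preorder Q] : Prop :=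
  ∀ Dec : Q → On → Prop, (∀ p r γ, r ≤ p → Dec p γ → Dec r γ) →
    (∀ p, ∀ γ < omega 1, ∃ r ≤ p, ∃ γ', γ < γ' ∧ γ' < omega 1 ∧ Dec r γ') →
    ∀ St, Stn (Iio (omega 1)) St → ∀ p, ∃ δ ∈ St, ∃ r ≤ p, 0 < δ ∧ δ < omega 1 ∧
      ∀ γ < δ, ∀ r' ≤ r, ∃ r'' ≤ r', ∃ γ', γ < γ' ∧ γ' < δ ∧ Dec r'' γ'

instance gena_rep_club {B : Type} [CompleteBooleanAlgebra B] (w c : Nm B) :
    Rep (fun U : Ult B => Club U.E (U.cl w) (U.cl c)) := by
  unfold Club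
  infer_instance

/-- A forced existential statement over a ground-model set is densely witnessed. -/
theorem gena_dec {P : Type} [Preorder P] (y : ZFSet.{0}) (Φ : ∀ U : Ult (RO P), U.M → Prop)
    [hΦ : ∀ x, Rep (fun U => Φ U (U.cl x))] {q : P}
    (h : Fo q fun U => ∃ a, U.E a (ck U y) ∧ Φ U a) :
    ∃ r ≤ q, ∃ x ∈ y, Fo r fun U => Φ U (ck U x) := by
  by_contra h0
  obtain ⟨U, hU⟩ := exists_ult q
  obtain ⟨a, h1, h2⟩ := h U hU
  refine ck_elim y (fun V a => V.P (io q) → ¬ Φ V a) (fun V x hx h4 h5 => ?_) U a h1 hU h2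
  obtain ⟨r, h6, h7⟩ := exists_fo (fun U => Φ U (U.cl (chk x.out))) h4 h5
  exact h0 ⟨r, h6, x, hx, h7⟩

/-- Hint: for a name `C` let `Dec p γ` say that `p` forces `Club ω₁ C → γ ∈ C`; use `stat_iff`,
`decide`, `dec_ex`, `ck_elim`, `Fo.of_dense`, `all_of_dense`. -/
theorem SP.statPres {P : Type} [Preorder P] (h : SP P) : StatPres (RO P) := by
  intro S hS U
  obtain ⟨h1, h2⟩ := stat_iff.1 hS
  obtain ⟨w, hw⟩ : ∃ w : ZFSet.{0}, w = (omega 1).toZFSet := ⟨_, rfl⟩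
  have hm : ∀ (V : Ult (RO P)) {γ : On}, γ < omega 1 → V.E (ck V γ.toZFSet) (ck V w) :=
    fun V γ hγ => (ck_mem V).2 (hw ▸ toZFSet_mem_toZFSet_iff.2 hγ)
  rw [← hw] at h1 ⊢
  refine ⟨ck_elim S (fun V z => V.E z (V.cl (chk w.out)))
    (fun V x hx => (ck_mem V).2 (h1 hx)) U, fun C => ?_⟩
  obtain ⟨c, rfl⟩ := U.cl_surj C
  refine all_of_dense (fun V => Club V.E (V.cl (chk w.out)) (V.cl c) →
    ∃ x, V.E x (V.cl (chk S.out)) ∧ V.E x (V.cl c)) (fun q => ?_) U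
  obtain ⟨δ, d1, r, d2, d3, d4, d5⟩ := h (fun p γ => Fo p fun V =>
    Club V.E (V.cl (chk w.out)) (V.cl c) → V.E (ck V γ.toZFSet) (V.cl c))
    (fun p r γ hr hp => hp.mono hr) (fun p γ hγ => by
      obtain ⟨r, hr, e | e⟩ := decide (fun V => Club V.E (V.cl (chk w.out)) (V.cl c)) p
      · obtain ⟨r', hr', x, hx, e'⟩ := gena_dec w
          (fun V z => V.E z (V.cl c) ∧ V.E (V.cl (chk γ.toZFSet.out)) z) (q := r) fun V hV => by
            obtain ⟨z, z1, z2⟩ := (e V hV).2.1 _ (hm V hγ)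
            exact ⟨z, (e V hV).1 z z1, z1, z2⟩
        obtain ⟨γ', g1, rfl⟩ := mem_toZFSet_iff.1 (hw ▸ hx)
        obtain ⟨V, hV⟩ := e'.elim
        exact ⟨r', hr'.trans hr, γ', toZFSet_mem_toZFSet_iff.1 ((ck_mem V).1 hV.2), g1,
          fun W hW _ => (e' W hW).1⟩
      · exact ⟨r, hr, Order.succ γ, Order.lt_succ γ, (Cardinal.isSuccLimit_omega 1).succ_lt hγ,
          fun V hV hc => (e V hV hc).elim⟩) (ods S) h2 q
  refine ⟨r, d2, fun V hV hc => ⟨ck V δ.toZFSet, (ck_mem V).2 d1, hc.2.2 _ (hm V d4)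
    ⟨ck V (0 : On).toZFSet, (ck_mem V).2 (toZFSet_mem_toZFSet_iff.2 d3)⟩ fun b hb => ?_⟩⟩
  refine ck_elim δ.toZFSet (fun W b => W.P (io r) → Club W.E (W.cl (chk w.out)) (W.cl c) →
    ∃ x, W.E x (W.cl c) ∧ W.E b x ∧ W.E x (W.cl (chk δ.toZFSet.out))) (fun W x hx => ?_)
    V b hb hV hc
  obtain ⟨γ, g1, rfl⟩ := mem_toZFSet_iff.1 hx
  refine Fo.of_dense (fun W => Club W.E (W.cl (chk w.out)) (W.cl c) → ∃ x, W.E x (W.cl c) ∧
    W.E (W.cl (chk γ.toZFSet.out)) x ∧ W.E x (W.cl (chk δ.toZFSet.out))) (fun r' hr' => ?_) W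
  obtain ⟨r'', k1, γ', k2, k3, k4⟩ := d5 γ g1 r' hr'
  exact ⟨r'', k1, fun X hX hc => ⟨ck X γ'.toZFSet, k4 X hX hc,
    (ck_mem X).2 (toZFSet_mem_toZFSet_iff.2 k2), (ck_mem X).2 (toZFSet_mem_toZFSet_iff.2 k3)⟩⟩

/-- Passage to a small skeleton. -/
theorem SP.skel {Q : Type 1} [Preorder Q] (h : SP Q) {ι : Type} (s : ι → Q)
    (hs : ∀ p, ∃ i, s i ≤ p ∧ p ≤ s i) : @SP ι (Preorder.lift s) := by
  intro Dec h1 h2 St hSt i
  obtain ⟨δ, d1, r, d2, d3, d4, d5⟩ := h (fun q γ => ∃ k, q ≤ s k ∧ Dec k γ)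
    (fun p r γ hr ⟨k, k1, k2⟩ => ⟨k, hr.trans k1, k2⟩) (fun p γ hγ => by
      obtain ⟨k, k1, -⟩ := hs p
      obtain ⟨m, m1, γ', m2, m3, m4⟩ := h2 k γ hγ
      exact ⟨s m, le_trans m1 k1, γ', m2, m3, m, le_rfl, m4⟩) St hSt (s i)
  obtain ⟨j, j1, -⟩ := hs r
  refine ⟨δ, d1, j, j1.trans d2, d3, d4, fun γ hγ r' hr' => ?_⟩
  obtain ⟨r'', k1, γ', k2, k3, k, k4, k5⟩ := d5 γ hγ (s r') (le_trans hr' j1)
  obtain ⟨m, m1, -⟩ := hs r''
  exact ⟨m, m1.trans k1, γ', k2, k3, h1 k m γ' (m1.trans k4) k5⟩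

theorem exists_skel {Q K : Type 1} [Preorder Q] [Small.{0} K] (φ : Q → K)
    (h : ∀ p p', φ p = φ p' → p ≤ p') : ∃ (ι : Type) (s : ι → Q), ∀ p, ∃ i, s i ≤ p ∧ p ≤ s i := by
  refine ⟨{k : Shrink.{0} K // ∃ p, equivShrink K (φ p) = k}, fun k => k.2.choose, fun p => ?_⟩
  have e : ∃ p', equivShrink K (φ p') = equivShrink K (φ p) := ⟨p, rfl⟩
  have e' := (equivShrink K).injective e.choose_spec
  exact ⟨⟨_, e⟩, h _ _ e', h _ _ e'.symm⟩

section collapse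

variable {B : Type} [CompleteBooleanAlgebra B]

/-- The collapse of a set of names. -/
noncomputable def clp (U : Ult B) (N : Set (Nm B)) : Nm B → ZFSet.{0}
  | ⟨_, A, a⟩ => ZFSet.range fun i : {i // A i ∈ N ∧ U.P (a i)} => clp U N (A i.1)

theorem mem_clp {U : Ult B} {N : Set (Nm B)} {x : Nm B} {z : ZFSet.{0}} :
    z ∈ clp U N x ↔ ∃ i, x.fn i ∈ N ∧ U.P (x.val i) ∧ clp U N (x.fn i) = z := by
  obtain ⟨ι, A, a⟩ := x
  rw [clp, ZFSet.mem_range]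
  exact ⟨fun ⟨i, hi⟩ => ⟨i.1, i.2.1, i.2.2, hi⟩, fun ⟨i, h1, h2, h3⟩ => ⟨⟨i, h1, h2⟩, h3⟩⟩

/-- `U` is generic for `N`, and `N` has witnesses. -/
structure GenFor (U : Ult B) (N : Set (Nm B)) : Prop where
  mem : ∀ x ∈ N, ∀ y ∈ N, U.E (U.cl y) (U.cl x) →
    ∃ i, x.fn i ∈ N ∧ U.P (x.val i) ∧ U.cl y = U.cl (x.fn i)
  wit : ∀ (φ : Fml) (v : ℕ → Nm B), (∀ i, v i ∈ N) →
    (∃ a, Lib.Forcing.Sat U.E φ (sc a fun i => U.cl (v i))) →
    ∃ x ∈ N, Lib.Forcing.Sat U.E φ (sc (U.cl x) fun i => U.cl (v i))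

variable {U : Ult B} {N : Set (Nm B)}

/-- Hint: induction on `x`, generalising `y`; a witness for `cl x ≠ cl y` exists in `N`. -/
theorem GenFor.clp_eq (h : GenFor U N) {x y : Nm B} (hx : x ∈ N) (hy : y ∈ N) :
    clp U N x = clp U N y ↔ U.cl x = U.cl y := by
  induction x generalizing y with
  | mk ι A a ih =>
    constructor
    · intro e
      by_contra hne
      have hv : ∀ n, sc (⟨ι, A, a⟩ : Nm B) (fun _ => y) n ∈ N := sc_mem hx fun _ => hy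
      have hs : ∀ c : U.M, Lib.Forcing.Sat U.E
          (.neg (.and (.neg (.and (.mem 0 1) (.neg (.mem 0 2))))
            (.neg (.and (.mem 0 2) (.neg (.mem 0 1))))))
          (sc c fun i => U.cl (sc (⟨ι, A, a⟩ : Nm B) (fun _ => y) i)) ↔
          ¬ (U.E c (U.cl ⟨ι, A, a⟩) ↔ U.E c (U.cl y)) := by
        intro c
        simp only [Lib.Forcing.Sat, sc]
        tauto
      have hex : ∃ c, ¬ (U.E c (U.cl ⟨ι, A, a⟩) ↔ U.E c (U.cl y)) := by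
        by_contra h0
        exact hne (U.ext' _ _ fun c => by
          by_contra h1
          exact h0 ⟨c, h1⟩)
      obtain ⟨z, hz, hz'⟩ := h.wit _ _ hv (hex.imp fun c hc => (hs c).2 hc)
      refine (hs _).1 hz' ⟨fun h1 => ?_, fun h1 => ?_⟩
      · obtain ⟨i, h2, h3, h4⟩ := h.mem _ hx z hz h1
        have h5 : clp U N (A i) ∈ clp U N y := e ▸ mem_clp.2 ⟨i, h2, h3, rfl⟩
        obtain ⟨j, h6, h7, h8⟩ := mem_clp.1 h5
        rw [h4, (ih i h2 h6).1 h8.symm]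
        exact U.E_intro y j h7
      · obtain ⟨j, h2, h3, h4⟩ := h.mem _ hy z hz h1
        have h5 : clp U N (y.fn j) ∈ clp U N ⟨ι, A, a⟩ := e ▸ mem_clp.2 ⟨j, h2, h3, rfl⟩
        obtain ⟨i, h6, h7, h8⟩ := mem_clp.1 h5
        rw [h4, ← (ih i h6 h2).1 h8]
        exact U.E_intro ⟨ι, A, a⟩ i h7
    · intro e
      refine ZFSet.ext fun z => ⟨fun hz => ?_, fun hz => ?_⟩
      · obtain ⟨i, h1, h2, rfl⟩ := mem_clp.1 hz
        obtain ⟨j, h3, h4, h5⟩ := h.mem y hy _ h1 (e ▸ U.E_intro ⟨ι, A, a⟩ i h2)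
        exact mem_clp.2 ⟨j, h3, h4, ((ih i h1 h3).2 h5).symm⟩
      · obtain ⟨j, h1, h2, rfl⟩ := mem_clp.1 hz
        obtain ⟨i, h3, h4, h5⟩ := h.mem _ hx _ h1 (e ▸ U.E_intro y j h2)
        exact mem_clp.2 ⟨i, h3, h4, (ih i h3 h1).2 h5.symm⟩

theorem GenFor.clp_mem (h : GenFor U N) {x y : Nm B} (hx : x ∈ N) (hy : y ∈ N) :
    clp U N y ∈ clp U N x ↔ U.E (U.cl y) (U.cl x) := by
  rw [mem_clp]
  constructor
  · rintro ⟨i, h1, h2, h3⟩
    rw [← (h.clp_eq h1 hy).1 h3]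
    exact U.E_intro x i h2
  · intro h0
    obtain ⟨i, h1, h2, h3⟩ := h.mem x hx y hy h0
    exact ⟨i, h1, h2, (h.clp_eq h1 hy).2 h3.symm⟩

theorem tr_clp : Tr (clp U N '' N) := by
  rintro _ ⟨x, -, rfl⟩ z hz
  obtain ⟨i, h1, -, h2⟩ := mem_clp.1 hz
  exact ⟨_, h1, h2⟩

/-- Moving a bound variable to the position `0`. -/
theorem genb_front (φ : Fml) (i : ℕ) : ∃ ψ : Fml, ∀ {M : Type 1} (E : M → M → Prop) (a : M)
    (v : ℕ → M), Lib.Forcing.Sat E ψ (sc a v) ↔ Lib.Forcing.Sat E φ (Function.update v i a) := by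
  obtain ⟨ψ, -, -, hψ⟩ := fml_ren φ fun n => if n = i then 0 else n + 1
  refine ⟨ψ, fun E a v => ?_⟩
  rw [sat_satIn, sat_satIn, hψ]
  have : (sc a v ∘ fun n => if n = i then 0 else n + 1) = Function.update v i a := by
    funext n
    by_cases hn : n = i
    · subst hn
      simp
    · simp [hn]
  rw [this]

theorem GenFor.elem (h : GenFor U N) : ∃ j : (clp U N '' N) → U.M,
    (∀ x (hx : x ∈ N), j ⟨clp U N x, mem_image_of_mem _ hx⟩ = U.cl x) ∧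
    ∀ φ v, Lib.Forcing.Sat (EM (clp U N '' N)) φ v ↔ Lib.Forcing.Sat U.E φ (j ∘ v) := by
  have hp : ∀ z : (clp U N '' N), ∃ x ∈ N, clp U N x = z.1 := fun z => z.2
  choose p hp1 hp2 using hp
  have hj : ∀ x (hx : x ∈ N), U.cl (p ⟨clp U N x, mem_image_of_mem _ hx⟩) = U.cl x :=
    fun x hx => (h.clp_eq (hp1 _) hx).1 (hp2 _)
  refine ⟨fun z => U.cl (p z), hj, fun φ => ?_⟩
  induction φ with
  | mem i k =>
    intro v
    change (v i).1 ∈ (v k).1 ↔ U.E (U.cl (p (v i))) (U.cl (p (v k)))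
    rw [← h.clp_mem (hp1 _) (hp1 _), hp2, hp2]
  | eq i k =>
    intro v
    change v i = v k ↔ U.cl (p (v i)) = U.cl (p (v k))
    rw [← h.clp_eq (hp1 _) (hp1 _), hp2, hp2, Subtype.ext_iff]
  | neg φ ih => exact fun v => not_congr (ih v)
  | and φ ψ ih1 ih2 => exact fun v => and_congr (ih1 v) (ih2 v)
  | all i φ ih =>
    intro v
    change (∀ a, Lib.Forcing.Sat _ φ (Function.update v i a)) ↔
      ∀ a, Lib.Forcing.Sat U.E φ (Function.update ((fun z => U.cl (p z)) ∘ v) i a)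
    constructor
    · intro h1 a
      by_contra h2
      obtain ⟨ψ, hψ⟩ := genb_front (.neg φ) i
      obtain ⟨x, hx, h3⟩ := h.wit ψ (fun n => p (v n)) (fun n => hp1 _) ⟨a, (hψ _ _ _).2 h2⟩
      refine (hψ _ _ _).1 h3 ?_
      have h4 := (ih _).1 (h1 ⟨clp U N x, mem_image_of_mem _ hx⟩)
      rw [Function.comp_update] at h4
      simp only [hj x hx] at h4
      exact h4
    · intro h1 a
      rw [ih, Function.comp_update]
      exact h1 _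

theorem genb_chk_fn (a : PSet.{0}) (i : (chk a : Nm B).ι) :
    ∃ b, b ∈ a ∧ (chk a : Nm B).fn i = chk b := by
  obtain ⟨ι, A⟩ := a
  exact ⟨A i, PSet.func_mem ⟨ι, A⟩ i, rfl⟩

/-- Canonical names of sets whose transitive closure is named in `N`. -/
theorem GenFor.clp_chk (h : GenFor U N) {S : Set ZFSet.{0}} (hS : Tr S)
    (hN : ∀ z ∈ S, chk z.out ∈ N) : ∀ z ∈ S, clp U N (chk z.out) = z := by
  intro z
  induction z using ZFSet.inductionOn with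
  | h z ih =>
    intro hz
    refine ZFSet.ext fun w => ⟨fun hw => ?_, fun hw => ?_⟩
    · obtain ⟨i, h1, -, rfl⟩ := mem_clp.1 hw
      obtain ⟨b, h2, h3⟩ := genb_chk_fn (B := B) z.out i
      have h4 : ZFSet.mk b ∈ z := by
        rw [← ZFSet.mk_out z]
        exact h2
      have h5 := hS z hz _ h4
      have h6 : clp U N ((chk z.out : Nm B).fn i) = clp U N (chk (ZFSet.mk b).out) := by
        rw [h.clp_eq h1 (hN _ h5), h3, cl_chk]
        rfl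
      rw [h6, ih _ h4 h5]
      exact h4
    · have h5 := hS z hz _ hw
      have h6 := (h.clp_mem (hN z hz) (hN w h5)).2 ((ck_mem U).2 hw)
      rwa [ih w hw h5] at h6

end collapse

/-- A countable transitive model `M` with an elementary embedding into a generic extension. -/
structure GM {P : Type} [Preorder P] (Fz : P → On → Set ZFSet.{0}) (dn nm : On → P → Prop)
    (g : On) (U : Ult (RO P)) (M : Set ZFSet.{0}) (j : M → U.M) (α : On) (G : Set P) : Prop where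
  tr : Tr M
  elem : ∀ φ v, Lib.Forcing.Sat (EM M) φ v ↔ Lib.Forcing.Sat U.E φ (j ∘ v)
  lt : α < omega 1
  glt : g < α
  ne : G.Nonempty
  compat : ∀ p ∈ G, ∀ q ∈ G, ∃ r, r ≤ p ∧ r ≤ q
  dense : ∀ i < α, (∀ p, ∃ r ≤ p, dn i r) → ∃ p ∈ G, dn i p
  hc : ∀ p ∈ G, ∀ i < α, ∀ z ∈ Fz p i, z ∈ HH univ → ∃ h : z ∈ M, j ⟨z, h⟩ = ck U z
  ord : ∀ p ∈ G, ∀ i < α, ∀ ξ < omega 1, ξ.toZFSet ∈ Fz p i → ξ < α
  sub : ∀ p ∈ G, ∀ i < α, ∀ z ∈ Fz p i, z ⊆ (omega 1).toZFSet →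
    ∃ h : z ∩ α.toZFSet ∈ M, j ⟨_, h⟩ = ck U z
  gen : zf {c | ∃ p ∈ G, nm c p} g ∈ M

/-- The three-sorted form of `exists_N`. -/
theorem genc_N {A : Type 1} {P : Type} (a₀ : A) (p₀ : P) {g : On} (hg : g < omega 1)
    (FA : List A → P → On → Set A) (FP : List A → P → On → Set P) (FL : List A → Set On)
    (h1 : ∀ l p i, (FA l p i).Countable) (h2 : ∀ l p i, (FP l p i).Countable)
    (h3 : ∀ l, (FL l).Countable) :
    ∃ (N : Set A) (C : Set P) (α : On), N.Countable ∧ C.Countable ∧ p₀ ∈ C ∧ α < omega 1 ∧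
      g < α ∧ a₀ ∈ N ∧ ∀ l, (∀ a ∈ l, a ∈ N) → ∀ p ∈ C, ∀ i < α,
        FA l p i ⊆ N ∧ FP l p i ⊆ C ∧ ∀ ξ ∈ FL l, ξ < omega 1 → ξ < α := by
  let jp : P → A ⊕ ULift.{1} P ⊕ On := fun p => Sum.inr (Sum.inl ⟨p⟩)
  let jo : On → A ⊕ ULift.{1} P ⊕ On := fun i => Sum.inr (Sum.inr i)
  have hp : Function.Injective jp := fun p q h => by simpa [jp] using h
  have ho : Function.Injective jo := fun p q h => by simpa [jo] using h
  let en : List A × P × On → List (A ⊕ ULift.{1} P ⊕ On) :=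
    fun t => jp t.2.1 :: jo t.2.2 :: t.1.map Sum.inl
  have hen : Function.Injective en := by
    rintro ⟨l, p, i⟩ ⟨l', p', i'⟩ h
    simp only [en, List.cons.injEq] at h
    rw [hp h.1, ho h.2.1, List.map_injective_iff.2 Sum.inl_injective h.2.2]
  have : Nonempty (List A × P × On) := ⟨([], p₀, g)⟩
  let dc := Function.invFun en
  have hdc : ∀ t, dc (en t) = t := Function.leftInverse_invFun hen
  obtain ⟨N, α, -, h4, -, h5, h6, h7⟩ := exists_N (fun l => {Sum.inl a₀, jp p₀, jo g} ∪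
      (Sum.inl '' FA (dc l).1 (dc l).2.1 (dc l).2.2 ∪ (jp '' FP (dc l).1 (dc l).2.1 (dc l).2.2 ∪
      jo '' FL (dc l).1)))
    (fun l => (Set.toFinite _).countable.union (((h1 _ _ _).image _).union
      (((h2 _ _ _).image _).union ((h3 _).image _)))) jo ho (clb_limit.stn uc_omega1 nice_omega1.ne)
  have h8 := h6 [] (by simp)
  refine ⟨Sum.inl ⁻¹' N, jp ⁻¹' N, α, h5.preimage Sum.inl_injective, h5.preimage hp,
    h8 (Or.inl (by simp)), h4, (h7 g hg).1 (h8 (Or.inl (by simp))), h8 (Or.inl (by simp)),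
    fun l hl p hC i hi => ?_⟩
  have h9 := h6 (en (l, p, i)) (by
    intro a ha
    simp only [en, List.mem_cons, List.mem_map] at ha
    rcases ha with rfl | rfl | ⟨b, hb, rfl⟩
    · exact hC
    · exact (h7 i (hi.trans h4)).2 hi
    · exact hl b hb)
  simp only [hdc] at h9
  exact ⟨fun a ha => h9 (Or.inr (Or.inl ⟨a, ha, rfl⟩)),
    fun a ha => h9 (Or.inr (Or.inr (Or.inl ⟨a, ha, rfl⟩))),
    fun ξ ha h => (h7 ξ h).1 (h9 (Or.inr (Or.inr (Or.inr ⟨ξ, ha, rfl⟩))))⟩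

/-- A code of a formula. -/
def genc_code : Fml → ℕ
  | .mem i j => Nat.pair 0 (Nat.pair i j)
  | .eq i j => Nat.pair 1 (Nat.pair i j)
  | .neg φ => Nat.pair 2 (genc_code φ)
  | .and φ ψ => Nat.pair 3 (Nat.pair (genc_code φ) (genc_code ψ))
  | .all i φ => Nat.pair 4 (Nat.pair i (genc_code φ))

theorem genc_fml_ctble : Countable Fml := by
  refine ⟨genc_code, fun φ => ?_⟩
  induction φ with
  | mem i j => rintro (_ | _ | _ | _ | _) h <;> simp_all [genc_code]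
  | eq i j => rintro (_ | _ | _ | _ | _) h <;> simp_all [genc_code]
  | neg φ ih =>
    rintro (_ | _ | _ | _ | _) h <;> simp [genc_code] at h
    rw [ih h]
  | and φ ψ ih1 ih2 =>
    rintro (_ | _ | _ | _ | _) h <;> simp [genc_code] at h
    rw [ih1 h.1, ih2 h.2]
  | all i φ ih =>
    rintro (_ | _ | _ | _ | _) h <;> simp [genc_code] at h
    rw [h.1, ih h.2]

theorem genc_wit {B : Type} [CompleteBooleanAlgebra B] (φ : Fml) (v : ℕ → Nm B) :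
    ∃ x : Nm B, ∀ U : Ult B, (∃ a, Lib.Forcing.Sat U.E φ (sc a fun i => U.cl (v i))) →
      Lib.Forcing.Sat U.E φ (sc (U.cl x) fun i => U.cl (v i)) := by
  refine @exists_witness B _ (fun U a => Lib.Forcing.Sat U.E φ (sc a fun i => U.cl (v i)))
    fun x => @Rep.congr _ _ _ _ (rep_sat φ (sc x v)) fun U => ?_
  have : (fun n => U.cl (sc x v n)) = sc (U.cl x) fun i => U.cl (v i) := by
    funext n
    cases n <;> rfl
  rw [this]

theorem genc_dec {P : Type} [Preorder P] (p : P) (x y : Nm (RO P)) :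
    ∃ r ≤ p, ∃ e : Nm (RO P), (Fo r fun U => ¬ U.E (U.cl y) (U.cl x)) ∨
      ∃ i, x.fn i = e ∧ Fo r fun U => U.P (x.val i) ∧ U.cl y = U.cl (x.fn i) := by
  obtain ⟨r, h1, h2 | h2⟩ := Lib.PosetForcing.decide (fun U => U.E (U.cl y) (U.cl x)) p
  · obtain ⟨r', h3, i, h4⟩ := dec_ex x (fun U a => U.cl y = a) (q := r)
      fun U hU => ⟨_, h2 U hU, rfl⟩
    exact ⟨r', h3.trans h1, _, Or.inr ⟨i, rfl, h4⟩⟩
  · exact ⟨r, h1, x, Or.inl h2⟩

/-- The countable hull.  Hint: `exists_N` for `X = Nm (RO P) ⊕ ULift P ⊕ On`.  Close under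
`exists_witness` (finite lists of names suffice by `fml_irrel`), under `decide` and `dec_ex`, under
`x ↦ {chk y.out | ∃ z ∈ HH univ, eqv x (chk z.out) = ⊤ ∧ y ∈ z}`, under
`x ↦ {ξ < ω₁ | eqv x (chk ξ.toZFSet.out) = ⊤}` and `ξ ↦ chk ξ.toZFSet.out`. -/
theorem exists_hull {P : Type} [Preorder P] [Nonempty P] (Fz : P → On → Set ZFSet.{0})
    (hF : ∀ p i, (Fz p i).Countable) (dn nm : On → P → Prop) {g : On} (hg : g < omega 1)
    (x₀ : Nm (RO P)) :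
    ∃ (N : Set (Nm (RO P))) (C : Set P) (α : On), N.Countable ∧ C.Countable ∧ C.Nonempty ∧
      α < omega 1 ∧ g < α ∧ x₀ ∈ N ∧
      (∀ (φ : Fml) (v : ℕ → Nm (RO P)), (∀ i, v i ∈ N) → ∃ x ∈ N, ∀ U : Ult (RO P),
        (∃ a, Lib.Forcing.Sat U.E φ (sc a fun i => U.cl (v i))) →
        Lib.Forcing.Sat U.E φ (sc (U.cl x) fun i => U.cl (v i))) ∧
      (∀ p ∈ C, ∀ x ∈ N, ∀ y ∈ N, ∃ r ∈ C, r ≤ p ∧ ((Fo r fun U => ¬ U.E (U.cl y) (U.cl x)) ∨
        ∃ i, x.fn i ∈ N ∧ Fo r fun U => U.P (x.val i) ∧ U.cl y = U.cl (x.fn i))) ∧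
      (∀ p ∈ C, ∀ i < α, (∃ r ≤ p, dn i r) → ∃ r ∈ C, r ≤ p ∧ dn i r) ∧
      (∀ p ∈ C, ∀ i < α, (∃ r ≤ p, ∃ q, r ≤ q ∧ nm i q) →
        ∃ r ∈ C, ∃ q ∈ C, r ≤ p ∧ r ≤ q ∧ nm i q) ∧
      (∀ p ∈ C, ∀ i < α, ∀ z ∈ Fz p i, chk z.out ∈ N) ∧
      (∀ ξ < α, chk ξ.toZFSet.out ∈ N) ∧
      (∀ x ∈ N, ∀ ξ < omega 1, (∀ U : Ult (RO P), U.cl x = ck U ξ.toZFSet) → ξ < α) ∧
      ∀ x ∈ N, ∀ z ∈ HH univ, (∀ U : Ult (RO P), U.cl x = ck U z) → ∀ y ∈ z, chk y.out ∈ N := by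
  obtain ⟨p₀⟩ := ‹Nonempty P›
  obtain ⟨U₀, -⟩ := exists_ult p₀
  have := genc_fml_ctble
  choose w hw using genc_wit (B := RO P)
  choose d hd e he using genc_dec (P := P)
  have hdn : ∀ (p : P) (i : On), ∃ r, (∃ r ≤ p, dn i r) → r ≤ p ∧ dn i r := fun p i => by
    by_cases h : ∃ r ≤ p, dn i r
    · exact h.imp fun r hr _ => hr
    · exact ⟨p, fun h' => (h h').elim⟩
  have hnm : ∀ (p : P) (i : On), ∃ r q, (∃ r ≤ p, ∃ q, r ≤ q ∧ nm i q) →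
      r ≤ p ∧ r ≤ q ∧ nm i q := fun p i => by
    by_cases h : ∃ r ≤ p, ∃ q, r ≤ q ∧ nm i q
    · obtain ⟨r, h1, q, h2⟩ := h
      exact ⟨r, q, fun _ => ⟨h1, h2⟩⟩
    · exact ⟨p, p, fun h' => (h h').elim⟩
  choose d1 hd1 using hdn
  choose d2 d3 hd2 using hnm
  have hs : ∀ x : Nm (RO P), {z : ZFSet.{0} | ∀ U : Ult (RO P), U.cl x = ck U z}.Subsingleton :=
    fun x z hz z' hz' => (ck_inj U₀).1 ((hz U₀).symm.trans (hz' U₀))
  obtain ⟨N, C, α, h1, h2, h3, h4, h5, h6, h7⟩ := genc_N x₀ p₀ hg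
    (fun l p i => (range fun φ => w φ fun n => l.getD n x₀) ∪
      ({e p (l.getD 0 x₀) (l.getD 1 x₀), chk i.toZFSet.out} ∪
      ((fun z : ZFSet.{0} => chk z.out) '' (Fz p i ∪ ⋃ z ∈ {z | ∀ U : Ult (RO P),
        U.cl (l.getD 0 x₀) = ck U z} ∩ HH univ, {y | y ∈ z}))))
    (fun l p i => {d p (l.getD 0 x₀) (l.getD 1 x₀), d1 p i, d2 p i, d3 p i})
    (fun l => Ordinal.toZFSet ⁻¹' {z | ∀ U : Ult (RO P), U.cl (l.getD 0 x₀) = ck U z})
    (fun l p i => (countable_range _).union ((Set.toFinite _).countable.union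
      (((hF p i).union (Countable.biUnion ((hs _).countable.mono inter_subset_left)
        fun z hz => countable_of_HH hz.2)).image _)))
    (fun l p i => (Set.toFinite _).countable)
    (fun l => (hs _).countable.preimage Ordinal.toZFSet_injective)
  have h8 := h7 [] (by simp)
  have h9 := fun x (hx : x ∈ N) => h7 [x] (by simpa using hx) p₀ h3 g h5
  refine ⟨N, C, α, h1, h2, ⟨p₀, h3⟩, h4, h5, h6, fun φ v hv => ?_, fun p hp x hx y hy => ?_,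
    fun p hp i hi h => ⟨d1 p i, (h8 p hp i hi).2.1 (by simp), hd1 p i h⟩,
    fun p hp i hi h => ⟨d2 p i, (h8 p hp i hi).2.1 (by simp), d3 p i,
      (h8 p hp i hi).2.1 (by simp), hd2 p i h⟩,
    fun p hp i hi z hz => (h8 p hp i hi).1 (Or.inr (Or.inr ⟨z, Or.inl hz, rfl⟩)),
    fun ξ hξ => (h8 p₀ h3 ξ hξ).1 (Or.inr (Or.inl (by simp))),
    fun x hx ξ hξ h => (h9 x hx).2.2 ξ h hξ,
    fun x hx z hz h y hy => (h9 x hx).1 (Or.inr (Or.inr ⟨y, Or.inr (mem_biUnion ⟨h, hz⟩ hy), rfl⟩))⟩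
  · obtain ⟨n, hn⟩ := fml_irrel φ
    have h10 := h7 (List.ofFn fun i : Fin n => v i) (by
      intro a ha
      obtain ⟨i, rfl⟩ := (List.mem_ofFn' _ _).1 ha
      exact hv i) p₀ h3 g h5
    refine ⟨_, h10.1 (Or.inl ⟨φ, rfl⟩), fun U => ?_⟩
    have key : ∀ a, Lib.Forcing.Sat U.E φ (sc a fun i => U.cl (v i)) ↔ Lib.Forcing.Sat U.E φ
        (sc a fun i => U.cl ((List.ofFn fun i : Fin n => v i).getD i x₀)) := fun a => by
      rw [sat_satIn, sat_satIn]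
      refine hn _ _ _ _ fun i hi => ?_
      cases i with
      | zero => rfl
      | succ k =>
        have hk : k < n := by omega
        simp [List.getD_eq_getElem?_getD, hk]
    simp only [key]
    exact hw φ _ U
  · have h10 := h7 [x, y] (by simpa using ⟨hx, hy⟩) p hp g h5
    refine ⟨d p x y, h10.2.1 (Or.inl rfl), hd p x y, (he p x y).imp id fun ⟨i, h11, h12⟩ =>
      ⟨i, h11 ▸ h10.1 (Or.inr (Or.inl (Or.inl rfl))), h12⟩⟩

/-- A decreasing sequence that meets countably many requirements. -/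
theorem gend_chain {P : Type} [Preorder P] {C : Set P} (hC : C.Nonempty) {T : Type 1}
    [Countable T] (R : T → P → Prop) (h : ∀ t, ∀ p ∈ C, ∃ r ∈ C, r ≤ p ∧ R t r) :
    ∃ s : ℕ → P, Antitone s ∧ (∀ n, s n ∈ C) ∧ ∀ t, ∃ n, R t (s n) := by
  obtain ⟨f, hf⟩ := exists_injective_nat T
  have h1 : ∀ (n : ℕ) (p : C), ∃ r : C, r.1 ≤ p.1 ∧ ∀ t, f t = n → R t r.1 := fun n p => by
    by_cases e : ∃ t, f t = n
    · obtain ⟨t, rfl⟩ := e
      obtain ⟨r, h1, h2, h3⟩ := h t p.1 p.2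
      exact ⟨⟨r, h1⟩, h2, fun t' e => hf e ▸ h3⟩
    · exact ⟨p, le_rfl, fun t e' => (e ⟨t, e'⟩).elim⟩
  choose F h2 h3 using h1
  obtain ⟨p, hp⟩ := hC
  let s : ℕ → C := fun n => Nat.rec ⟨p, hp⟩ F n
  exact ⟨fun n => (s n).1, antitone_nat_of_succ_le fun n => h2 n (s n), fun n => (s n).2,
    fun t => ⟨f t + 1, h3 (f t) (s (f t)) t rfl⟩⟩

theorem gend_chk_fn {B : Type} [CompleteBooleanAlgebra B] (a : PSet.{0}) (i : (chk a : Nm B).ι) :
    ∃ y ∈ ZFSet.mk a, ∀ U : Ult B, U.cl ((chk a : Nm B).fn i) = ck U y := by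
  obtain ⟨ι, A⟩ := a
  exact ⟨ZFSet.mk (A i), ZFSet.mk_mem_iff.2 (PSet.Mem.mk A i), fun U => cl_chk U _⟩

/-- Hint: `exists_hull` with `x₀ = ⟨g.ToType, fun c => chk c.toZFSet.out, fun c => gen (nm c)⟩`;
a decreasing sequence in `C` that meets the countably many requirements, `exists_ult_chain`,
`G = {p ∈ C | U.P (io p)}`, `M = clp U N '' N`. -/
theorem exists_gm {P : Type} [Preorder P] [Nonempty P] (Fz : P → On → Set ZFSet.{0})
    (hF : ∀ p i, (Fz p i).Countable) (dn nm : On → P → Prop) {g : On} (hg : g < omega 1) :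
    ∃ (U : Ult (RO P)) (M : Set ZFSet.{0}) (j : M → U.M) (α : On) (G : Set P),
      GM Fz dn nm g U M j α G := by
  obtain ⟨e, he⟩ : ∃ e : Shrink.{0} (Iio g) → On, ∀ c, c < g ↔ ∃ i, e i = c :=
    ⟨fun i => ((equivShrink (Iio g)).symm i).1, fun c => ⟨fun h => ⟨equivShrink _ ⟨c, h⟩, by simp⟩,
      fun ⟨i, h⟩ => h ▸ ((equivShrink (Iio g)).symm i).2⟩⟩
  obtain ⟨N, C, α, cN, -, hC, hα, hgα, hx₀, hw, hd, hdn, hnm, hFz, hord, hlt, hH⟩ :=
    exists_hull Fz hF dn nm hg ⟨_, fun i => chk (e i).toZFSet.out, fun i => gen (nm (e i))⟩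
  have := cN.to_subtype
  have := (countable_Iio.2 hα).to_subtype
  obtain ⟨s, s1, s2, s3⟩ := gend_chain hC (T := (N × N) ⊕ Iio α ⊕ Iio α)
    (Sum.elim (fun t r => (Fo r fun U => ¬ U.E (U.cl t.2.1) (U.cl t.1.1)) ∨
        ∃ i, t.1.1.fn i ∈ N ∧ Fo r fun U => U.P (t.1.1.val i) ∧ U.cl t.2.1 = U.cl (t.1.1.fn i))
      (Sum.elim (fun i r => (∀ p, ∃ r ≤ p, dn i.1 r) → dn i.1 r)
        fun i r => (∃ q ∈ C, r ≤ q ∧ nm i.1 q) ∨ ¬ ∃ r' ≤ r, ∃ q, r' ≤ q ∧ nm i.1 q)) (by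
      rintro (t | i | i) p hp
      · exact hd p hp _ t.1.2 _ t.2.2
      · by_cases h : ∀ p, ∃ r ≤ p, dn i.1 r
        · obtain ⟨r, h1, h2, h3⟩ := hdn p hp i.1 i.2 (h p)
          exact ⟨r, h1, h2, fun _ => h3⟩
        · exact ⟨p, hp, le_rfl, fun h' => (h h').elim⟩
      · by_cases h : ∃ r ≤ p, ∃ q, r ≤ q ∧ nm i.1 q
        · obtain ⟨r, h1, q, h2, h3, h4, h5⟩ := hnm p hp i.1 i.2 h
          exact ⟨r, h1, h3, Or.inl ⟨q, h2, h4, h5⟩⟩
        · exact ⟨p, hp, le_rfl, Or.inr h⟩)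
  obtain ⟨U, hU⟩ := exists_ult_chain (fun n => io (s n)) (fun _ _ h => io_mono (s1 h))
    fun n => io_ne_bot _
  have hG : GenFor U N := by
    refine ⟨fun x hx y hy h => ?_, fun φ v hv h => ?_⟩
    · obtain ⟨n, h1 | ⟨i, h1, h2⟩⟩ := s3 (Sum.inl (⟨x, hx⟩, ⟨y, hy⟩))
      · exact (h1 U (hU n) h).elim
      · exact ⟨i, h1, h2 U (hU n)⟩
    · obtain ⟨x, h1, h2⟩ := hw φ v hv
      exact ⟨x, h1, h2 U h⟩
  obtain ⟨j, hj, hj'⟩ := hG.elem
  have ho : ∀ ξ < α, clp U N (chk ξ.toZFSet.out) = ξ.toZFSet := fun ξ hξ =>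
    hG.clp_chk (S := {z | z ∈ α.toZFSet}) (fun x hx y hy => by
      obtain ⟨a, ha, rfl⟩ := mem_toZFSet_iff.1 hx
      obtain ⟨b, hb, rfl⟩ := mem_toZFSet_iff.1 hy
      exact toZFSet_mem_toZFSet_iff.2 (hb.trans ha)) (fun z hz => by
      obtain ⟨a, ha, rfl⟩ := mem_toZFSet_iff.1 hz
      exact hord a ha) _ (toZFSet_mem_toZFSet_iff.2 hξ)
  have hj2 : ∀ z w : ZFSet.{0}, chk z.out ∈ N → clp U N (chk z.out) = w →
      ∃ h : w ∈ clp U N '' N, j ⟨w, h⟩ = ck U z := fun z w hz h => by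
    subst h
    exact ⟨_, hj _ hz⟩
  refine ⟨U, _, j, α, {p ∈ C | U.P (io p)}, tr_clp, hj', hα, hgα, ⟨s 0, s2 0, hU 0⟩,
    fun p hp q hq => exists_common hp.2 hq.2, fun i hi h => ?_, fun p hp i hi z hz h => ?_,
    fun p hp i hi ξ hξ h => hlt _ (hFz p hp.1 i hi _ h) ξ hξ fun _ => rfl,
    fun p hp i hi z hz h => ?_, ⟨_, hx₀, ?_⟩⟩
  · obtain ⟨n, h1⟩ := s3 (Sum.inr (Sum.inl ⟨i, hi⟩))
    exact ⟨s n, ⟨s2 n, hU n⟩, h1 h⟩
  · have h1 := hFz p hp.1 i hi z hz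
    exact hj2 z z h1 (hG.clp_chk (S := {z | z ∈ HH univ ∧ chk z.out ∈ N})
      (fun x hx y hy => ⟨tr_HH (fun _ _ _ _ => trivial) x hx.1 y hy,
        hH _ hx.2 x hx.1 (fun _ => rfl) y hy⟩) (fun _ h => h.2) z ⟨h, h1⟩)
  · have h1 := hFz p hp.1 i hi z hz
    refine hj2 z _ h1 (ZFSet.ext fun w => ?_)
    rw [ZFSet.mem_inter]
    constructor
    · intro hw
      obtain ⟨k, h2, -, rfl⟩ := mem_clp.1 hw
      obtain ⟨y, h3, h4⟩ := gend_chk_fn (B := RO P) z.out k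
      rw [ZFSet.mk_out] at h3
      obtain ⟨ξ, h5, rfl⟩ := mem_toZFSet_iff.1 (h h3)
      have h6 := hlt _ h2 ξ h5 h4
      rw [(hG.clp_eq h2 (hord ξ h6)).2 (h4 U), ho ξ h6]
      exact ⟨h3, toZFSet_mem_toZFSet_iff.2 h6⟩
    · rintro ⟨h2, h3⟩
      obtain ⟨ξ, h4, rfl⟩ := mem_toZFSet_iff.1 h3
      rw [← ho ξ h4]
      exact (hG.clp_mem h1 (hord ξ h4)).2 ((ck_mem U).2 h2)
  · refine ZFSet.ext fun w => ?_
    rw [mem_clp, mem_zf]
    constructor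
    · rintro ⟨k, -, h1, rfl⟩
      have h2 := (he _).2 ⟨k, rfl⟩
      refine ⟨e k, h2, ?_, ho _ (h2.trans hgα)⟩
      obtain ⟨n, ⟨q, h3, h4, h5⟩ | h3⟩ := s3 (Sum.inr (Sum.inr ⟨e k, h2.trans hgα⟩))
      · exact ⟨q, ⟨h3, U.mono (io_mono h4) (hU n)⟩, h5⟩
      · obtain ⟨q, r, h4, h5, h6⟩ := gen_one h1 (hU n)
        exact (h3 ⟨r, h6, q, h5, h4⟩).elim
    · rintro ⟨a, h1, ⟨p, h2, h3⟩, rfl⟩
      obtain ⟨k, rfl⟩ := (he a).1 h1
      exact ⟨k, hord _ (h1.trans hgα), gen_intro h3 U h2.2, ho _ (h1.trans hgα)⟩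

end Pool.Agent.MP_fd3eaf_lc

end

-- part MP_fd3eaf_lc.Two
section

/-!
The first forcing followed by almost disjoint coding.
-/

set_option autoImplicit false

namespace Pool.Agent.MP_fd3eaf_lc

open Set Ordinal

structure P2 (S : Par) where
  p : P1 S
  σ : Set On
  F : Set (On × On × ℕ)
  fin : σ.Finite
  finF : F.Finite
  sub : σ ⊆ Iio (nl ω)
  val : ∀ t ∈ F, t.1 < p.1.len ∧ t.2.1 < p.1.len ∧ ¬ Zg p.1.g S.A t.1 t.2.1 t.2.2

namespace P2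

variable {S : Par}

def Le (q p : P2 S) : Prop :=
  q.p ≤ p.p ∧ p.σ ⊆ q.σ ∧ p.F ⊆ q.F ∧
    ∀ c ∈ q.σ, c ∉ p.σ → ∀ t ∈ p.F, ¬ Node (p.p.1.R.r t.1) (p.p.1.R.r t.2.1) t.2.2 c

theorem le_trans' {a b c : P2 S} (h : Le a b) (h' : Le b c) : Le a c := by
  refine ⟨h.1.trans h'.1, h'.2.1.trans h.2.1, h'.2.2.1.trans h.2.2.1, fun x h1 h2 t ht k => ?_⟩
  by_cases h3 : x ∈ b.σ
  · exact h'.2.2.2 x h3 h2 t ht k
  · have e := (P1.agree h'.1).r
    exact h.2.2.2 x h1 h3 t (h'.2.2.1 ht) (k.congr (e _ ((c.val t ht).1.trans (lt_add_one _)))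
      (e _ ((c.val t ht).2.1.trans (lt_add_one _))))

instance : Preorder (P2 S) where
  le := Le
  le_refl _ := ⟨le_rfl, subset_rfl, subset_rfl, fun _ h h' => absurd h h'⟩
  le_trans _ _ _ := le_trans'

theorem le_def {q p : P2 S} : q ≤ p ↔ Le q p := Iff.rfl

theorem nonempty (h : S.Ok) : Nonempty (P2 S) :=
  (P1.nonempty h).map fun p => ⟨p, ∅, ∅, finite_empty, finite_empty, empty_subset _,
    fun _ k => absurd k (notMem_empty _)⟩

theorem exists_key (S : Par) : ∃ (K : Type 1) (_ : Small.{0} K) (φ : P2 S → K),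
    ∀ p p', φ p = φ p' → p ≤ p' := by
  refine ⟨Iio (omega 1 : On) × Set (Iio (omega 1 : On) × ℕ × Iio S.τ.ord) × Set (Iio (nl ω)) ×
    Set (Iio (omega 1 : On) × Iio (omega 1 : On) × ℕ), inferInstance, fun p =>
      (⟨p.p.1.len, p.p.2.lt⟩, {t | t.1.1 < p.p.1.len ∧ p.p.1.g t.1.1 t.2.1 = t.2.2.1},
        {c | c.1 ∈ p.σ}, {t | (t.1.1, t.2.1.1, t.2.2) ∈ p.F}), fun p p' e => ?_⟩
  simp only [Prod.mk.injEq, Subtype.mk.injEq, Set.ext_iff, mem_setOf_eq] at e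
  obtain ⟨e1, e2, e3, e4⟩ := e
  refine ⟨⟨e1.ge, fun η hη m => ?_⟩, fun c hc => (e3 ⟨c, p'.sub hc⟩).2 hc, fun t ht => ?_,
    fun c h1 h2 => absurd ((e3 ⟨c, p.sub h1⟩).1 h1) h2⟩
  · exact ((e2 (⟨η, hη.trans p'.p.2.lt⟩, m, ⟨_, p'.p.2.ran η hη m⟩)).2 ⟨hη, rfl⟩).2.symm
  · exact (e4 (⟨t.1, (p'.val t ht).1.trans p'.p.2.lt⟩,
      ⟨t.2.1, (p'.val t ht).2.1.trans p'.p.2.lt⟩, t.2.2)).2 ht

theorem twoa_val (q : P2 S) {r : P1 S} (h : r ≤ q.p) :
    ∀ t ∈ q.F, t.1 < r.1.len ∧ t.2.1 < r.1.len ∧ ¬ Zg r.1.g S.A t.1 t.2.1 t.2.2 := fun t ht =>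
  have k := q.val t ht
  ⟨k.1.trans_le h.1, k.2.1.trans_le h.1, fun z => k.2.2 ((zg_congr h.2 _ k.1 _ k.2.1 _).2 z)⟩

/-- The first coordinate may be extended. -/
theorem exists_ext (q : P2 S) {r : P1 S} (h : r ≤ q.p) :
    ∃ q' ≤ q, q'.p = r ∧ q'.σ = q.σ ∧ q'.F = q.F :=
  ⟨⟨r, q.σ, q.F, q.fin, q.finF, q.sub, twoa_val q h⟩,
    ⟨h, subset_rfl, subset_rfl, fun _ k k' => absurd k k'⟩, rfl, rfl, rfl⟩

/-- Conditions with the same stem are compatible. -/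
theorem exists_join {q q' : P2 S} (h1 : q.p ≤ q'.p) (h2 : q.σ = q'.σ) :
    ∃ r, r ≤ q ∧ r ≤ q' :=
  ⟨⟨q.p, q.σ, q.F ∪ q'.F, q.fin, q.finF.union q'.finF, q.sub,
      fun t ht => ht.elim (q.val t) (twoa_val q' h1 t)⟩,
    ⟨le_rfl, subset_rfl, subset_union_left, fun _ k k' => absurd k k'⟩,
    ⟨h1, h2.ge, subset_union_right, fun _ k k' => absurd (h2.le k) k'⟩⟩

/-- Hint: for `i` with `par i = γ :: l` and `σ = {c | c ∈ l}` let `Dn i r` say that some condition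
`q` with `q.p = r`, `q.σ = σ` has `Dec q γ'` for a `γ' ∈ (γ, r.al)`, or that no `q` with
`q.p ≤ r`, `q.σ = σ` has `Dec q γ'` for a `γ' ∈ (γ, ω₁)`.  Apply `P1.master` to `St ∩` the club of
`clb_nn`. -/
theorem sp (h : S.Ok) : SP (P2 S) := by
  intro Dec h1 h2 St hSt p
  obtain ⟨q₀, a1, ⟨a2, a3, a4, a5⟩, a6⟩ := P1.master h p.p (fun i r => ∀ γ l, par i = γ :: l →
    (∃ q : P2 S, q.p = r ∧ q.σ = {c | c ∈ l} ∧ ∃ γ', γ < γ' ∧ γ' < r.al ∧ Dec q γ') ∨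
      ¬ ∃ q : P2 S, q.p ≤ r ∧ q.σ = {c | c ∈ l} ∧ ∃ γ', γ < γ' ∧ γ' < omega 1 ∧ Dec q γ')
    (fun i _ r => by
      by_cases k : ∃ γ l, par i = γ :: l ∧
        ∃ q : P2 S, q.p ≤ r ∧ q.σ = {c | c ∈ l} ∧ ∃ γ', γ < γ' ∧ γ' < omega 1 ∧ Dec q γ'
      · obtain ⟨γ, l, e, q, b1, b2, γ', b3, b4, b5⟩ := k
        obtain ⟨r', b6, b7⟩ := P1.exists_al h q.p b4
        obtain ⟨q', b8, b9, b10, -⟩ := q.exists_ext b6
        refine ⟨r', b6.trans b1, fun γ₁ l₁ e' => Or.inl ?_⟩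
        obtain ⟨rfl, rfl⟩ := List.cons.inj (e.symm.trans e')
        exact ⟨q', b9, b10.trans b2, γ', b3, b7, h1 q q' γ' b8 b5⟩
      · exact ⟨r, le_rfl, fun γ l e => Or.inr fun k' => k ⟨γ, l, e, k'⟩⟩)
    (hSt.inter uc_omega1 clb_nn)
  have hn : Nice (Iio q₀.al) := ⟨isLowerSet_Iio _, ⟨0, a4⟩, fun c hc =>
    ⟨nn c, a5 c hc, (nn_spec c).1.isLev, (nn_spec c).2.1⟩⟩
  obtain ⟨r, b1, b2, -⟩ := p.exists_ext a1
  refine ⟨q₀.al, a2, r, b1, a4, a3, fun γ hγ r' b3 => ?_⟩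
  obtain ⟨r₁, b4, γ₁, b5⟩ := h2 r' γ (hγ.trans a3)
  have e : r₁.σ = {c | c ∈ r₁.fin.toFinset.toList} := Set.ext fun c => by simp
  have hv : (Loc.mk (nl (max γ (nl ω))) 0 0 (γ :: r₁.fin.toFinset.toList)).Valid :=
    ⟨zero_le, fun c m => lt_of_le_of_lt ((List.mem_cons.1 m).elim (fun k => le_max_of_le_left k.le)
      fun k => le_max_of_le_right (r₁.sub (e.ge k)).le) (lt_nl _)⟩
  obtain ⟨r₀, b6, b7⟩ := a6 _ (hn.code_mem
    (x := ⟨nl (max γ (nl ω)), 0, 0, γ :: r₁.fin.toFinset.toList⟩)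
    (hn.nl_mem (max_lt hγ (hn.nl_mem hn.omega_mem))))
  have b8 : r₁.p ≤ r₀ := ((b4.trans b3).1.trans b2.le).trans b6
  obtain ⟨q, c1, c2, γ', c3, c4, c5⟩ := (b7 γ _ (par_code (isLev_nl _) hv)).resolve_right
    fun k => k ⟨r₁, b8, e, γ₁, b5⟩
  obtain ⟨r'', c6, c7⟩ := exists_join (b8.trans c1.ge) (e.trans c2.symm)
  exact ⟨r'', c6.trans b4, γ', c3, c4.trans_le (P1.al_mono b6), h1 q r'' γ' c7 c5⟩

/-- The dense sets for the coding. -/
def Dn (η η' : On) (n N : ℕ) (q : P2 S) : Prop :=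
  η < q.p.1.len ∧ η' < q.p.1.len ∧ ((η, η', n) ∈ q.F ∨ (Zg q.p.1.g S.A η η' n ∧
    ∃ c ∈ q.σ, Node (q.p.1.R.r η) (q.p.1.R.r η') n c ∧ N ≤ (par c).length))

theorem twob_one {a b : P1 S} (h : a ≤ b) {η η' : On} (h1 : η < b.1.len) (h2 : η' < b.1.len)
    (n : ℕ) : (Zg b.1.g S.A η η' n ↔ Zg a.1.g S.A η η' n) ∧
      ∀ c, Node (b.1.R.r η) (b.1.R.r η') n c ↔ Node (a.1.R.r η) (a.1.R.r η') n c := by
  have k1 := (P1.agree h).r η (h1.trans (lt_add_one _))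
  have k2 := (P1.agree h).r η' (h2.trans (lt_add_one _))
  exact ⟨zg_congr h.2 η h1 η' h2 n, fun c => ⟨fun k => k.congr k1 k2,
    fun k => k.congr (fun i => (k1 i).symm) fun i => (k2 i).symm⟩⟩

theorem Dn.mono {η η' : On} {n N : ℕ} {q r : P2 S} (h : r ≤ q) (hq : Dn η η' n N q) :
    Dn η η' n N r := by
  obtain ⟨a, b⟩ := twob_one h.1 hq.1 hq.2.1 n
  refine ⟨hq.1.trans_le h.1.1, hq.2.1.trans_le h.1.1, hq.2.2.imp (fun k => h.2.2.1 k) ?_⟩
  rintro ⟨z, c, hc, k1, k2⟩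
  exact ⟨a.1 z, c, h.2.1 hc, (b c).1 k1, k2⟩

theorem twob_dn {η η' : On} {q : P2 S} (h1 : η < q.p.1.len) (h2 : η' < q.p.1.len) (n N : ℕ) :
    ∃ r ≤ q, Dn η η' n N r := by
  by_cases hz : Zg q.p.1.g S.A η η' n
  · have a : ∀ t : On × On × ℕ, ∃ K : ℕ, t ∈ q.F → ∀ c, Node (q.p.1.R.r η) (q.p.1.R.r η') n c →
        Node (q.p.1.R.r t.1) (q.p.1.R.r t.2.1) t.2.2 c → (par c).length < K := by
      intro t
      by_cases ht : t ∈ q.F
      · obtain ⟨v1, v2, v3⟩ := q.val t ht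
        obtain ⟨K, hK⟩ := node_ad (a := q.p.1.R.r η) (b := q.p.1.R.r η') (a' := q.p.1.R.r t.1)
          (b' := q.p.1.R.r t.2.1) (n := n) (n' := t.2.2) (by
            rintro ⟨e1, e2, e3⟩
            have f1 := q.p.2.pre.r_inj (h1.trans (lt_add_one _)) (v1.trans (lt_add_one _)) e1
            have f2 := q.p.2.pre.r_inj (h2.trans (lt_add_one _)) (v2.trans (lt_add_one _)) e2
            rw [← f1, ← f2, ← e3] at v3
            exact v3 hz)
        exact ⟨K, fun _ => hK⟩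
      · exact ⟨0, fun k => (ht k).elim⟩
    choose K hK using a
    obtain ⟨B, hB⟩ := (q.finF.image K).bddAbove
    obtain ⟨c, c1, c2, c3⟩ := exists_node (q.p.1.R.r η) (q.p.1.R.r η') n (max B N)
    refine ⟨⟨q.p, insert c q.σ, q.F, q.fin.insert c, q.finF, insert_subset c1 q.sub, q.val⟩,
      ⟨le_rfl, subset_insert _ _, subset_rfl, fun c' k k' t ht k'' => ?_⟩,
      h1, h2, Or.inr ⟨hz, c, mem_insert _ _, c2, c3.ge.trans' (le_max_right _ _)⟩⟩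
    obtain rfl : c' = c := k.resolve_right k'
    have d1 := hK t ht _ c2 k''
    have d2 : K t ≤ B := hB (mem_image_of_mem _ ht)
    have d3 := le_max_left B N
    omega
  · refine ⟨⟨q.p, q.σ, insert (η, η', n) q.F, q.fin, q.finF.insert _, q.sub, ?_⟩,
      ⟨le_rfl, subset_rfl, subset_insert _ _, fun _ k k' => absurd k k'⟩,
      h1, h2, Or.inl (mem_insert _ _)⟩
    rintro t (rfl | ht)
    · exact ⟨h1, h2, hz⟩
    · exact q.val t ht

/-- Hint: `P1.exists_len`, `exists_node`, `node_ad`, `Pre.r_inj`. -/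
theorem exists_dn (h : S.Ok) {η η' : On} (h1 : η < omega 1) (h2 : η' < omega 1) (n N : ℕ)
    (q : P2 S) : ∃ r ≤ q, Dn η η' n N r := by
  obtain ⟨r₁, a1, a2⟩ := P1.exists_len h (max_lt h1 h2) q.p
  obtain ⟨q', b1, b2, -, -⟩ := exists_ext q a1
  rw [← b2] at a2
  obtain ⟨r, c1, c2⟩ := twob_dn (max_lt_iff.1 a2).1 (max_lt_iff.1 a2).2 n N
  exact ⟨r, c1.trans b1, c2⟩

/-- The generic real codes the generic function. -/
theorem gen_code {G : Set (P2 S)} (h1 : ∀ p ∈ G, ∀ q ∈ G, ∃ r, r ≤ p ∧ r ≤ q) {ξ : On}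
    (h2 : ∀ η < ξ, ∀ η' < ξ, ∀ n N, ∃ q ∈ G, Dn η η' n N q) {p : P2 S} (hp : p ∈ G)
    (h3 : ξ ≤ p.p.1.len) :
    ZAg (Zx {c | c < nl ω ∧ ∃ q ∈ G, c ∈ q.σ} p.p.1.R.r) (Zg p.p.1.g S.A) ξ := by
  intro η hη η' hη' n
  have a : ∀ q ∈ G, η < q.p.1.len → η' < q.p.1.len →
      (Zg p.p.1.g S.A η η' n ↔ Zg q.p.1.g S.A η η' n) ∧
      ∀ c, Node (p.p.1.R.r η) (p.p.1.R.r η') n c ↔ Node (q.p.1.R.r η) (q.p.1.R.r η') n c := by
    intro q hq k1 k2
    obtain ⟨r, r1, r2⟩ := h1 p hp q hq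
    obtain ⟨a1, a2⟩ := twob_one r1.1 (hη.trans_le h3) (hη'.trans_le h3) n
    obtain ⟨b1, b2⟩ := twob_one r2.1 k1 k2 n
    exact ⟨a1.trans b1.symm, fun c => (a2 c).trans (b2 c).symm⟩
  refine ⟨fun hx => ?_, fun hz N => ?_⟩
  · obtain ⟨q₀, hq₀, k1, k2, k3 | k3⟩ := h2 η hη η' hη' n 0
    · obtain ⟨B, hB⟩ := (q₀.fin.image fun c => (par c).length).bddAbove
      obtain ⟨c, -, ⟨-, q, hq, c2⟩, c3, c4⟩ := hx (B + 1)
      obtain ⟨r, r1, r2⟩ := h1 q hq q₀ hq₀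
      refine (r2.2.2.2 c (r1.2.1 c2) (fun k => ?_) _ k3 (((a q₀ hq₀ k1 k2).2 c).1 c3)).elim
      have : (par c).length ≤ B := hB (mem_image_of_mem _ k)
      omega
    · exact (a q₀ hq₀ k1 k2).1.2 k3.1
  · obtain ⟨q, hq, k1, k2, k3 | ⟨-, c, c1, c2, c3⟩⟩ := h2 η hη η' hη' n N
    · exact ((q.val _ k3).2.2 ((a q hq k1 k2).1.1 hz)).elim
    · exact ⟨c, q.sub c1, ⟨q.sub c1, q, hq, c1⟩, ((a q hq k1 k2).2 c).2 c2, c3⟩

end P2

end Pool.Agent.MP_fd3eaf_lc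

end

-- part MP_fd3eaf_lc.Abs
section

/-!
Absoluteness in terms of the machine.
-/

set_option autoImplicit false

namespace Pool.Agent.MP_fd3eaf_lc

open Set Ordinal Pool.Agent.Lib.Forcing Pool.Agent.Lib.PosetForcing

/-- The list of the seven relations. -/
def r7 (ar d t x y b c : ZFSet.{0}) : ℕ → ZFSet.{0}
  | 0 => ar
  | 1 => d
  | 2 => t
  | 3 => x
  | 4 => y
  | 5 => b
  | _ => c

/-- The places of the seven relations in the matrix of the sentence. -/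
def absaG : ℕ → ℕ
  | 0 => 7
  | 1 => 1
  | 2 => 0
  | 3 => 6
  | 4 => 8
  | 5 => 4
  | _ => 2

theorem absa_r7 (ar d t x y b c l o : ZFSet.{0}) (v : ℕ → ZFSet.{0}) (j : ℕ) :
    sc t (sc d (sc c (sc l (sc b (sc o (sc x (sc ar (sc y v)))))))) (absaG j) =
      r7 ar d t x y b c j := by
  rcases j with _ | _ | _ | _ | _ | _ | j <;> rfl

/-- The `Σ_3` sentence.  Hint: `FD.zd`, `ZS.zero`, `ZS.up`, `ZS.ex`. -/
theorem exists_sentence (G : On → (ℕ → Set (List On)) → (ℕ → On) → Prop) [FD G] :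
    ∃ φ, Sig 3 φ ∧ ∀ (H : Set ZFSet.{0}) (α a : On) (ar y : ZFSet.{0}), Tr H →
      (∀ ξ : On, ξ.toZFSet ∈ H ↔ ξ < α) → dec ar = ArT → ar ∈ H → y ∈ H → a < α →
      (SatIn Mem (· ∈ H) φ (sc ar (sc y fun _ => a.toZFSet)) ↔
        ∃ x ∈ H, ∀ o < α, ∀ b ∈ H, ∃ L < α, Lim L ∧ o < L ∧ a < L ∧ ∃ c ∈ H, ∃ d ∈ H, ∃ t ∈ H,
          G L (fun j => dec (r7 ar d t x y b c j)) (lv [o, a])) := by
  obtain ⟨P, hP, hs⟩ := FD.zd G absaG 3 5 9
  have h0 : ZD true fun M w => (w 5).IsOrdinal ∧ ¬ P M w := inferInstance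
  obtain ⟨φ, hφ, h⟩ := (ZS.zero h0).up.ex.ex.ex.ex.up.ex.ex.up.ex
  refine ⟨φ, hφ, fun H α a ar y hT hO har m0 m1 ha => ?_⟩
  rw [h H _ hT (sc_mem m0 (sc_mem m1 fun _ => (hO a).2 ha))]
  refine exists_congr fun x => and_congr_right fun hx => ⟨fun k o ho b hb => ?_, fun k => ?_⟩
  · by_contra hn
    refine k ⟨o.toZFSet, (hO o).2 ho, b, hb, ?_⟩
    rintro ⟨l, hl, c, hc, d, hd, t, ht, hq⟩
    refine hq ⟨ZFSet.isOrdinal_toZFSet o, fun hp => hn ?_⟩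
    obtain ⟨L, o', a', e1, e2, e3, h1, h2, h3, h4⟩ := (hs _ _ har).1 hp
    obtain rfl : l = L.toZFSet := e1
    obtain rfl : o = o' := toZFSet_injective e2
    obtain rfl : a = a' := toZFSet_injective e3
    simp only [absa_r7] at h4
    exact ⟨L, (hO L).1 hl, h1, h2, h3, c, hc, d, hd, t, ht, h4⟩
  · rintro ⟨o, ho, b, hb, hn⟩
    by_cases hord : o.IsOrdinal
    · obtain ⟨o, rfl⟩ := ZFSet.isOrdinal_iff_mem_range_toZFSet.1 hord
      obtain ⟨L, hL, h1, h2, h3, c, hc, d, hd, t, ht, h4⟩ := k o ((hO o).1 ho) b hb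
      refine hn ⟨L.toZFSet, (hO L).2 hL, c, hc, d, hd, t, ht, fun hq => hq.2 ?_⟩
      refine (hs _ _ har).2 ⟨L, o, a, rfl, rfl, rfl, h1, h2, h3, ?_⟩
      simpa only [absa_r7] using h4
    · exact hn ⟨ar, m0, ar, m0, ar, m0, ar, m0, fun hq => hord hq.1⟩

theorem absa_ex (P : Set ZFSet.{0} → (ℕ → ZFSet.{0}) → Prop) [ZD false P] :
    ZD false fun M v => ∃ a ∈ M, P M (sc a v) := by
  have e : ∀ v : ℕ → ZFSet.{0}, sc (v 0) (fun n => v (n + 1)) = v := fun v => by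
    funext n
    cases n <;> rfl
  have : ZD false fun M v => (fun M v a => P M (sc a v)) M (fun n => v (n + 1)) (v 0) :=
    ZD.congr (P := P) fun M v _ _ => by simp only [e]
  exact ZD.exM fun M v a => P M (sc a v)

/-- The places of the seven relations in the formula for the table. -/
def absaT : ℕ → ℕ
  | 2 => 1
  | j => j + 4

theorem absa_r7T (ar d t x y b c l u z : ZFSet.{0}) (j : ℕ) :
    sc u (sc t (sc z (sc l (r7 ar d ar x y b c)))) (absaT j) = r7 ar d t x y b c j := by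
  rcases j with _ | _ | _ | _ | _ | _ | j <;> rfl

theorem absa_r7_mem {M : Set ZFSet.{0}} {ar d t x y b c : ZFSet.{0}} (m0 : ar ∈ M) (m1 : d ∈ M)
    (m2 : t ∈ M) (m3 : x ∈ M) (m4 : y ∈ M) (m5 : b ∈ M) (m6 : c ∈ M) (j : ℕ) :
    r7 ar d t x y b c j ∈ M := by
  rcases j with _ | _ | _ | _ | _ | _ | j <;> assumption

theorem absa_ord_mem {M : Set ZFSet.{0}} (h : Tr M) {L a : On} (hL : L.toZFSet ∈ M) (ha : a ≤ L) :
    a.toZFSet ∈ M := by
  rcases ha.eq_or_lt with rfl | ha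
  · exact hL
  · exact h _ hL _ (toZFSet_mem_toZFSet_iff.2 ha)

namespace TM

variable {M : Set ZFSet.{0}} {ar d x y b c : ZFSet.{0}} {L : On}

/-- Bounded separation. -/
theorem sepF (h : TM M) (G : On → (ℕ → Set (List On)) → (ℕ → On) → Prop) [FD G]
    (r : ℕ → ZFSet.{0}) (hr : ∀ j, r j ∈ M) (h0 : dec (r 0) = ArT) (hL : Lim L)
    (hL' : L.toZFSet ∈ M) {a : On} (ha : a < L) :
    zf {z | G L (fun j => dec (r j)) (lv [z, a])} L ∈ M := by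
  obtain ⟨P, hP, hs⟩ := FD.zd G (fun j => j + 3) 1 0 2
  have : ZD false P := ZD.weak false P
  obtain ⟨s, hs1, hs2⟩ := h.sep P (v := sc L.toZFSet (sc a.toZFSet r))
    (sc_mem hL' (sc_mem (absa_ord_mem h.tr hL' ha.le) hr)) hL'
  convert hs1
  ext z
  rw [hs2, mem_zf, hs _ _ h0]
  constructor
  · rintro ⟨o, ho, hg, rfl⟩
    exact ⟨toZFSet_mem_toZFSet_iff.2 ho, L, o, a, rfl, rfl, rfl, hL, ho, ha, hg⟩
  · rintro ⟨-, L', o, a', e1, e2, e3, -, h2, -, h4⟩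
    obtain rfl : L = L' := toZFSet_injective e1
    obtain rfl : a = a' := toZFSet_injective e3
    exact ⟨o, h2, h4, e2⟩

/-- The table of the machine exists.  Hint: induction on `β ≤ L` for
`zf (TS O) β ∈ M`; at limits use `TM.sep` with the formula of `exists_okT` and an unbounded
quantifier over tables; at successors `insert_mem`. -/
theorem ts_mem (h : TM M) (har : dec ar = ArT) (hd : dec d = DT L) (hL : Nice (Iio L))
    (m0 : ar ∈ M) (m1 : d ∈ M) (m2 : L.toZFSet ∈ M) (m3 : x ∈ M) (m4 : y ∈ M) (m5 : b ∈ M)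
    (m6 : c ∈ M) : zf (TS (jn4 (ods x) (ods y) (ods b) (ods c))) L ∈ M := by
  obtain ⟨G, hG, hok⟩ := exists_okT
  obtain ⟨P, hP, hs⟩ := FD.zd G absaT 3 0 0
  have : ZD false P := ZD.weak false P
  have h1 := absa_ex fun M w => w 2 ∈ w 0 ∧ w 2 ∈ w 1 ∧ P M w
  have h2 := absa_ex fun M v => ∃ a ∈ M, (fun M w => w 2 ∈ w 0 ∧ w 2 ∈ w 1 ∧ P M w) M (sc a v)
  have key : ∀ (t : ZFSet.{0}) (o o' : On), o < L →
      (G L (fun j => dec (r7 ar d t x y b c j)) (lv [o, o']) ↔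
        ∀ e < o, e ∈ ods t ↔ T (jn4 (ods x) (ods y) (ods b) (ods c)) e) := by
    intro t o o' ho
    rw [hok L _ _ hL hd ho]
    simp only [orR, r7, d1_dec, lv_zero]
  suffices H : ∀ β ≤ L, zf (TS (jn4 (ods x) (ods y) (ods b) (ods c))) β ∈ M from H L le_rfl
  intro β
  induction β using WellFoundedLT.induction with
  | ind β ih =>
  intro hβ
  obtain ⟨s, hs1, hs2⟩ := @TM.sep M _ h _ h2 (sc L.toZFSet (r7 ar d ar x y b c))
    (sc_mem m2 (absa_r7_mem m0 m1 m0 m3 m4 m5 m6)) (absa_ord_mem h.tr m2 hβ)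
  convert hs1
  ext z
  rw [hs2, mem_zf]
  constructor
  · rintro ⟨o, ho, hT, rfl⟩
    have hoL : o < L := ho.trans_le hβ
    have ho1 : o + 1 < L := hL.succ_mem hoL
    refine ⟨toZFSet_mem_toZFSet_iff.2 ho, _,
      h.insert_mem (absa_ord_mem h.tr m2 hoL.le) (ih o ho hoL.le), (o + 1).toZFSet,
      absa_ord_mem h.tr m2 ho1.le, toZFSet_mem_toZFSet_iff.2 (lt_add_one o),
      ZFSet.mem_insert _ _, (hs _ _ har).2 ⟨L, o + 1, o + 1, rfl, rfl, rfl, hL.lim, ho1, ho1, ?_⟩⟩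
    simp only [absa_r7T]
    refine (key _ _ _ ho1).2 fun e he => ?_
    change e.toZFSet ∈ insert o.toZFSet (zf _ o) ↔ _
    rw [ZFSet.mem_insert_iff, mem_zf]
    constructor
    · rintro (h3 | ⟨e', -, h3, h4⟩)
      · rwa [toZFSet_injective h3]
      · rwa [toZFSet_injective h4]
    · intro h3
      rcases (Order.lt_add_one_iff.1 he).eq_or_lt with rfl | h4
      · exact Or.inl rfl
      · exact Or.inr ⟨e, h4, h3, rfl⟩
  · rintro ⟨hz, t, -, u, -, h3, h4, h5⟩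
    obtain ⟨o, ho, rfl⟩ := mem_toZFSet_iff.1 hz
    obtain ⟨L', p, p', e1, e2, -, -, h6, -, h7⟩ := (hs _ _ har).1 h5
    obtain rfl : L = L' := toZFSet_injective e1
    obtain rfl : u = p.toZFSet := e2
    simp only [absa_r7T] at h7
    exact ⟨o, ho, ((key _ _ _ h6).1 h7 o (toZFSet_mem_toZFSet_iff.1 h3)).1 h4, rfl⟩

/-- If every club meets the limit ordinals then `α` is uncountable.  Hint: for an injection `f` of
`t ⊇ α` into `ω` take the successors of those `β` with `γ < β` whenever `f γ < f β`; `sepF` at the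
level `α` with `dec f` as a relation. -/
theorem not_HH (h : TM M) (har : dec ar = ArT) (m0 : ar ∈ M) {α : On} (hα : Lim α)
    (hα' : α.toZFSet ∈ M)
    (hc : ∀ C ∈ M, Clb (Iio α) (ods C) → ∃ δ ∈ ods C, Order.IsSuccLimit δ) {ξ : On}
    (hξ : ξ.toZFSet ∈ HH M) : ξ < α := by
  by_contra hn
  obtain ⟨-, t, -, f, hf, -, w2, w3, w4⟩ := hξ
  have hinj : ∀ {γ γ' m m' : On}, [γ, m] ∈ dec f → [γ', m'] ∈ dec f → (γ = γ' ↔ m = m') := by
    intro γ γ' m m' h1 h2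
    have := w4 γ.toZFSet γ'.toZFSet m.toZFSet m'.toZFSet h1.2 h2.2
    rwa [toZFSet_injective.eq_iff, toZFSet_injective.eq_iff] at this
  have hex : ∀ γ < α, ∃ m < ω, [γ, m] ∈ dec f := by
    intro γ hγ
    obtain ⟨n, hn1, hn2⟩ :=
      w3 _ (w2 _ (toZFSet_mem_toZFSet_iff.2 (hγ.trans_le (not_lt.1 hn))))
    obtain ⟨m, hm, rfl⟩ := mem_toZFSet_iff.1 hn1
    exact ⟨m, hm, List.cons_ne_nil _ _, hn2⟩
  choose! F hF1 hF2 using hex
  have hC := h.sepF (fun L R v => ∃ β, β < L ∧ (v 0 = β + 1 ∧ ∀ γ, γ < L → ∀ m, m < L →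
    ∀ n, n < L → [γ, m] ∈ R 1 → [β, n] ∈ R 1 → m < n → γ < β)) (sc ar fun _ => f)
    (sc_mem m0 fun _ => hf) har hα hα' hα.1.pos
  have hmem : ∀ z, z ∈ ods (zf {z | ∃ β, β < α ∧ (lv [z, 0] 0 = β + 1 ∧ ∀ γ, γ < α → ∀ m, m < α →
      ∀ n, n < α → [γ, m] ∈ dec f → [β, n] ∈ dec f → m < n → γ < β)} α) ↔
      ∃ β < α, z = β + 1 ∧ ∀ γ < α, F γ < F β → γ < β := by
    intro z
    rw [ods_zf]
    constructor
    · rintro ⟨⟨β, h1, h2, h3⟩, -⟩
      exact ⟨β, h1, h2, fun γ hγ => h3 γ hγ _ ((hF1 γ hγ).trans hα.2) _ ((hF1 β h1).trans hα.2)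
        (hF2 γ hγ) (hF2 β h1)⟩
    · rintro ⟨β, h1, rfl, h3⟩
      refine ⟨⟨β, h1, rfl, fun γ hγ m _ n _ h4 h5 h6 => h3 γ hγ ?_⟩, hα.1.add_one_lt h1⟩
      rwa [(hinj (hF2 γ hγ) h4).1 rfl, (hinj (hF2 β h1) h5).1 rfl]
  refine absurd (hc _ hC ⟨fun z hz => ?_, fun z hz => ?_, fun γ hγ h0 hu => ?_⟩) ?_
  rotate_right
  · rintro ⟨δ, hδ, hlim⟩
    obtain ⟨β, -, rfl, -⟩ := (hmem δ).1 hδ
    exact lt_irrefl _ (hlim.add_one_lt (lt_add_one β))
  · obtain ⟨β, h1, rfl, -⟩ := (hmem z).1 hz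
    exact hα.1.add_one_lt h1
  · obtain ⟨_, ⟨β, hβ, rfl⟩, hmin⟩ :=
      (wellFounded_lt (α := On)).has_min (F '' Ico z α) ⟨_, z, ⟨le_rfl, hz⟩, rfl⟩
    refine ⟨β + 1, (hmem _).2 ⟨β, hβ.2, rfl, fun γ hγ hlt => ?_⟩, hβ.1.trans_lt (lt_add_one β)⟩
    by_contra h3
    exact hmin _ ⟨γ, ⟨hβ.1.trans (not_lt.1 h3), hγ⟩, rfl⟩ hlt
  · exfalso
    have hk : ∀ k : ℕ, ∃ β < α, β + 1 < γ ∧ (k : On) ≤ F β ∧ ∀ γ < α, F γ < F β → γ < β := by
      intro k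
      induction k with
      | zero =>
        obtain ⟨z, hz, -, h2⟩ := hu 0 h0
        obtain ⟨β, h3, rfl, h4⟩ := (hmem z).1 hz
        exact ⟨β, h3, h2, by simp, h4⟩
      | succ k ih =>
        obtain ⟨β, h1, h2, h3, h4⟩ := ih
        obtain ⟨z, hz, h5, h6⟩ := hu _ h2
        obtain ⟨β', h7, rfl, h8⟩ := (hmem z).1 hz
        have h9 : β < β' := (lt_add_one β).trans_le (Order.lt_add_one_iff.1 h5)
        refine ⟨β', h7, h6, ?_, h8⟩
        rw [Nat.cast_succ]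
        refine Order.add_one_le_of_lt (h3.trans_lt (lt_of_le_of_ne ?_ fun e => ?_))
        · exact not_lt.1 fun e => (h4 β' h7 e).not_gt h9
        · exact h9.ne ((hinj (hF2 β h1) (hF2 β' h7)).2 e)
    obtain ⟨n, hn⟩ := lt_omega0.1 (hF1 γ hγ)
    obtain ⟨β, -, h2, h3, h4⟩ := hk (n + 1)
    rw [Nat.cast_succ, ← hn] at h3
    exact (h4 γ hγ ((lt_add_one _).trans_le h3)).not_gt ((lt_add_one β).trans h2)

end TM

/-- The subsets of `α` in `M`. -/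
def subs (M : Set ZFSet.{0}) (α : On) : Set (Set On) := {B | B ⊆ Iio α ∧ ∃ r ∈ M, ods r = B}

/-- The bounded form of an existential statement about the machine. -/
theorem absc_tab (Φ) (hΦ : MD4 Φ) : ∃ G, FD G ∧
    ∀ (ar d t x y b c : ZFSet.{0}) (L z a : On), z < L → a < L →
      (Lim L → G L (fun j => dec (r7 ar d t x y b c j)) (lv [z, a]) →
        Nice (Iio L) ∧ ∃ w < L, Φ (ods x) (ods y) (ods b) (ods c) z a w) ∧
      (Nice (Iio L) → dec d = DT L → t = zf (TS (jn4 (ods x) (ods y) (ods b) (ods c))) L →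
        (∃ w < L, Φ (ods x) (ods y) (ods b) (ods c) z a w) →
        G L (fun j => dec (r7 ar d t x y b c j)) (lv [z, a])) := by
  have h1 : MD fun A _ v => Φ (sec A 0) (sec A 1) (sec A 2) (sec A 3) (v 1) (v 2) (v 0) :=
    MD.rename _ (h := hΦ) fun n => (n + 1) % 3
  obtain ⟨G, h2, h3, h4⟩ := exists_tab fun A Λ v =>
    ∃ w, w ∈ Λ ∧ Φ (sec A 0) (sec A 1) (sec A 2) (sec A 3) (v 0) (v 1) w
  refine ⟨G, h2, fun ar d t x y b c L z a hz ha => ?_⟩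
  have e : orR (fun j => dec (r7 ar d t x y b c j)) = jn4 (ods x) (ods y) (ods b) (ods c) := by
    simp only [orR, r7, d1_dec]
  have hv : ∀ i, lv [z, a] i < L := lv_mem (Λ := Iio L) (zero_le.trans_lt hz) fun u m => by
    rcases List.mem_pair.1 m with rfl | rfl
    exacts [hz, ha]
  refine ⟨fun hL k => ?_, fun hL hd ht k => h4 L _ _ hL hv hd (fun u hu => ?_) ?_⟩
  · have := h3 L _ _ hL hv k
    rw [e, sec_jn4_0, sec_jn4_1, sec_jn4_2, sec_jn4_3] at this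
    exact this
  · change u ∈ d1 (dec t) ↔ _
    rw [e, d1_dec, ht, ods_zf]
    exact and_iff_left hu
  · rw [e, sec_jn4_0, sec_jn4_1, sec_jn4_2, sec_jn4_3]
    exact k

theorem absc_ex (P : Set ZFSet.{0} → (ℕ → ZFSet.{0}) → Prop) (h : ZD false P) :
    ZD false fun M v => ∃ a, a ∈ M ∧ P M (sc a v) :=
  ZD.exM (fun M v a => P M (sc a v)) (h := ZD.congr (h := h) fun _ _ _ _ =>
    iff_of_eq (congrArg _ (funext fun n => by cases n <;> rfl)))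

theorem absc_ods (c : ZFSet.{0}) (L : On) : ods (c ∩ L.toZFSet) = ods c ∩ Iio L :=
  Set.ext fun _ => ZFSet.mem_inter.trans (and_congr_right' Ordinal.toZFSet_mem_toZFSet_iff)

theorem absc_lev {α z a w : On} (hn : ∀ c < α, nn c < α) (hz : z < α) (ha : a < α) (hw : w < α) :
    ∃ L < α, Nice (Iio L) ∧ z < L ∧ a < L ∧ w < L := by
  obtain ⟨h1, h2, -⟩ := nn_spec (max z (max a w))
  rw [max_lt_iff, max_lt_iff] at h2
  exact ⟨_, hn _ (max_lt hz (max_lt ha hw)), h1, h2⟩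

/-- The positions of the relations. -/
def absc_pos : ℕ → ℕ
  | 0 => 7
  | 1 => 1
  | 2 => 0
  | 3 => 8
  | 4 => 9
  | 5 => 10
  | _ => 2

/-- Existential comprehension.  Hint: `exists_tab` for `∃ w ∈ Λ, Φ ..`, `FD.zd`, `TM.sep` on
`α.toZFSet` with unbounded quantifiers over the tables, `TM.ts_mem`. -/
theorem TM.scomp {M : Set ZFSet.{0}} (h : TM M) {ar : ZFSet.{0}} (har : dec ar = ArT)
    (m0 : ar ∈ M) {α : On} (hα : α.toZFSet ∈ M) (hn : ∀ c < α, nn c < α)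
    (hd : ∀ L < α, Nice (Iio L) → ∃ d ∈ M, dec d = DT L) (Φ) (hΦ : MD4 Φ) :
    ∀ X ∈ subs M α, ∀ Y ∈ subs M α, ∀ B ∈ subs M α, ∀ a < α,
      {z | z < α ∧ ∃ w < α, ∃ C ∈ subs M α, Φ X Y B C z a w} ∈ subs M α := by
  rintro _ ⟨-, x, hx, rfl⟩ _ ⟨-, y, hy, rfl⟩ _ ⟨-, b, hb, rfl⟩ a ha
  obtain ⟨G, hG, hG'⟩ := absc_tab Φ hΦ
  obtain ⟨P, hP, hP'⟩ := FD.zd G absc_pos 3 4 6
  have hM : ∀ ξ < α, ξ.toZFSet ∈ M := fun ξ hξ =>
    h.tr _ hα _ (Ordinal.toZFSet_mem_toZFSet_iff.2 hξ)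
  have h1 := absc_ex _ (absc_ex _ (absc_ex _ (absc_ex _
    (ZD.and false (fun _ v => v 3 ∈ v 5) P (h2 := ZD.weak false P)))))
  obtain ⟨r, hr, hr'⟩ := @TM.sep M _ h _ h1 (r7 α.toZFSet a.toZFSet ar x y b b) (by
    rintro (_ | _ | _ | _ | _ | _ | i)
    exacts [hα, hM a ha, m0, hx, hy, hb, hb]) hα
  have e : ∀ t d c L z, (fun j => dec (sc t (sc d (sc c (sc L (sc z
      (r7 α.toZFSet a.toZFSet ar x y b b))))) (absc_pos j))) =
      fun j => dec (r7 ar d t x y b c j) := fun t d c L z => funext fun j => by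
    rcases j with _ | _ | _ | _ | _ | _ | j <;> rfl
  refine ⟨fun _ k => k.1, r, hr, Set.ext fun z => (hr' _).trans
    ((and_congr_left' Ordinal.toZFSet_mem_toZFSet_iff).trans (and_congr_right fun hz => ?_))⟩
  constructor
  · rintro ⟨L', -, c, hc, d, -, t, -, h2, h3⟩
    obtain ⟨L, z', a', e1, e2, e3, h4, h5, h6, h7⟩ := (hP' M _ har).1 h3
    obtain rfl : z = z' := Ordinal.toZFSet_injective e2
    obtain rfl : a = a' := Ordinal.toZFSet_injective e3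
    obtain rfl : L' = L.toZFSet := e1
    have h8 : L < α := Ordinal.toZFSet_mem_toZFSet_iff.1 h2
    rw [e] at h7
    obtain ⟨h9, w, hw, k⟩ := (hG' ar d t x y b c L z a h5 h6).1 h4 h7
    refine ⟨w, hw.trans h8, ods c ∩ Iio α, ⟨inter_subset_right, _, h.inter_mem hc hα,
      absc_ods c α⟩, (hΦ.congr h9 h5 h6 hw (fun _ _ => Iff.rfl) (fun _ _ => Iff.rfl)
      (fun _ _ => Iff.rfl) fun u hu => ?_).1 k⟩
    exact (and_iff_left (hu.trans h8)).symm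
  · rintro ⟨w, hw, _, ⟨-, c, hc, rfl⟩, k⟩
    obtain ⟨L, h2, h3, h4, h5, h6⟩ := absc_lev hn hz ha hw
    obtain ⟨d, h7, h8⟩ := hd L h2 h3
    refine ⟨L.toZFSet, hM L h2, c, hc, d, h7, _,
      h.ts_mem har h8 h3 m0 h7 (hM L h2) hx hy hb hc, Ordinal.toZFSet_mem_toZFSet_iff.2 h2,
      (hP' M _ har).2 ⟨L, z, a, rfl, rfl, rfl, h3.lim, h4, h5, ?_⟩⟩
    rw [e]
    exact (hG' ar d _ x y b c L z a h4 h5).2 h3 h8 rfl ⟨w, h6, k⟩

/-- The data of a forcing argument: dense sets, the name of a real, ordinals and sets that are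
attached to conditions, and stationary sets. -/
structure Setup (Q : Type 1) where
  dn : On → Q → Prop
  nm : On → Q → Prop
  g : On
  fq : Q → On → On
  gq : Q → On → Set On
  st : On → Set On

/-- The generic real. -/
def Setup.gen {Q : Type 1} (S : Setup Q) (G : Set Q) : Set On :=
  {c | c < S.g ∧ ∃ p ∈ G, S.nm c p}

/-- What a countable model of the extension looks like. -/
structure Ctx {Q : Type 1} [Preorder Q] (S : Setup Q) (α : On) (R : Set (Set On)) (G : Set Q) :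
    Prop extends Cl α R where
  lt : α < omega 1
  compat : ∀ p ∈ G, ∀ q ∈ G, ∃ r, r ≤ p ∧ r ≤ q
  dense : ∀ i < α, (∀ p r, r ≤ p → S.dn i p → S.dn i r) → (∀ p, ∃ r ≤ p, S.dn i r) →
    ∃ p ∈ G, S.dn i p
  fq : ∀ p ∈ G, ∀ i < α, S.fq p i < omega 1 → S.fq p i < α ∧ S.gq p i ∩ Iio (S.fq p i) ∈ R
  st : ∀ i < α, Stn (Iio (omega 1)) (S.st i) → ∀ C ∈ R, Clb (Iio α) C → ∃ δ ∈ C, δ ∈ S.st i

section gm

variable {P : Type} [Preorder P] {Fz : P → On → Set ZFSet.{0}} {dn nm : On → P → Prop} {g : On}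
  {U : Ult (RO P)} {M : Set ZFSet.{0}} {j : M → U.M} {α : On} {G : Set P}

theorem GM.tm (h : GM Fz dn nm g U M j α G) : TM M := by
  have : Nonempty M := ⟨⟨_, h.gen⟩⟩
  exact ⟨h.tr, zfc_transfer h.elem U.zfc⟩

theorem absb_inter {a b : On} (h : a ≤ b) : b.toZFSet ∩ a.toZFSet = a.toZFSet := by
  refine ZFSet.ext fun z => ⟨fun k => (ZFSet.mem_inter.1 k).2, fun k => ?_⟩
  exact ZFSet.mem_inter.2 ⟨Ordinal.toZFSet_subset_toZFSet_iff.2 h k, k⟩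

/-- Hint: `FO.transfer` for `Club` and the bounded existential statement, `club_EM`, `club_iff`,
`stat_iff`. -/
theorem GM.stat (h : GM Fz dn nm g U M j α G) (hP : StatPres (RO P)) {p : P} (hp : p ∈ G)
    {i : On} (hi : i < α) (h1 : (omega 1).toZFSet ∈ Fz p i) {S : Set On}
    (h2 : zf S (omega 1) ∈ Fz p i) (hS : Stn (Iio (omega 1)) S) {C : ZFSet.{0}} (hC : C ∈ M)
    (hc : Clb (Iio α) (ods C)) : ∃ δ ∈ ods C, δ ∈ S := by
  obtain ⟨a1, a2⟩ := h.sub p hp i hi _ h1 fun _ k => k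
  obtain ⟨b1, b2⟩ := h.sub p hp i hi _ h2 (zf_subset _ _)
  have e : (omega 1).toZFSet ∩ α.toZFSet = α.toZFSet := absb_inter h.lt.le
  have c1 : C ∩ ((omega 1).toZFSet ∩ α.toZFSet) ∈ M := h.tm.inter_mem hC a1
  have c2 : Club Mem ((omega 1).toZFSet ∩ α.toZFSet)
      (C ∩ ((omega 1).toZFSet ∩ α.toZFSet)) := by
    rw [e, club_iff]
    refine ⟨fun _ k => (ZFSet.mem_inter.1 k).2, ?_⟩
    have e' : ods (C ∩ α.toZFSet) = ods C := by
      refine Set.ext fun a => ⟨fun k => (ZFSet.mem_inter (z := a.toZFSet).1 k).1, fun k => ?_⟩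
      exact ZFSet.mem_inter.2 ⟨k, Ordinal.toZFSet_mem_toZFSet_iff.2 (hc.sub k)⟩
    rwa [e']
  have c3 := (FO.transfer (fun _ E v => Club E (v 0) (v 1)) h.elem
    (sc ⟨_, a1⟩ fun _ => ⟨_, c1⟩)).1 ((club_EM h.tr ⟨_, a1⟩ ⟨_, c1⟩).2 c2)
  have c4 : Club U.E (ck U (omega 1).toZFSet) (j ⟨_, c1⟩) := by
    rw [← a2]
    exact c3
  have d1 : Stat Mem (omega 1).toZFSet (zf S (omega 1)) := by
    refine stat_iff.2 ⟨zf_subset _ _, fun D hD => ?_⟩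
    obtain ⟨δ, k1, k2⟩ := hS D hD
    exact ⟨δ, by rw [ods_zf]; exact ⟨k1, hD.sub k2⟩, k2⟩
  obtain ⟨x, x1, x2⟩ := (hP _ d1 U).2 _ c4
  rw [← b2] at x1
  obtain ⟨y, y1, y2⟩ := (FO.transfer (fun _ E v => ∃ a, E a (v 0) ∧ E a (v 1)) h.elem
    (sc ⟨_, b1⟩ fun _ => ⟨_, c1⟩)).2 ⟨x, x1, x2⟩
  obtain ⟨a, -, k2, k3⟩ := mem_zf.1 (ZFSet.mem_inter.1 y1).1
  refine ⟨a, ?_, k2⟩
  have := (ZFSet.mem_inter.1 y2).1
  rwa [k3] at this

/-- Hint: `FO.satHC`, `FO.transfer`, `satIn_sub`, `hc_EM`. -/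
theorem GM.satHC (h : GM Fz dn nm g U M j α G) (φ : Fml) (v : ℕ → ZFSet.{0})
    (hv : ∀ i, ∃ h : v i ∈ M, j ⟨v i, h⟩ = ck U (v i)) :
    SatIn Mem (· ∈ HH M) φ v ↔ SatIn U.E (HC U.E) φ fun i => ck U (v i) := by
  choose h1 h2 using hv
  have := FO.satHC φ
  have a := FO.transfer (fun _ E v => SatIn E (HC E) φ v) h.elem fun i => ⟨v i, h1 i⟩
  have e : (j ∘ fun i => ⟨v i, h1 i⟩) = fun i => ck U (v i) := funext h2
  have e' : (fun z => ∃ k : z ∈ M, HC (EM M) ⟨z, k⟩) = (· ∈ HH M) := by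
    have t := fun z => hc_EM h.tr (fun _ hx _ hy => h.tm.upair_mem hx hy) h.tm.omega_mem z
    exact funext fun z => propext ⟨fun ⟨k, k'⟩ => (t ⟨z, k⟩).1 k', fun k => ⟨k.1, (t ⟨z, k.1⟩).2 k⟩⟩
  rw [e, satIn_sub, e'] at a
  exact a

end gm

theorem absb_dt (L : On) : ∃ d : ZFSet.{0}, L < omega 1 → Nice (Iio L) →
    d ∈ HH univ ∧ dec d = DT L := by
  by_cases h : L < omega 1 ∧ Nice (Iio L)
  · obtain ⟨d, k⟩ := exists_enc_HH (DT L) h.1 (DT_bdd h.2.lim)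
    exact ⟨d, fun _ _ => k⟩
  · exact ⟨∅, fun a b => (h ⟨a, b⟩).elim⟩

theorem absb_en (L : On) : ∃ e : ZFSet.{0}, L < omega 1 → e ∈ HH univ ∧ ods e ⊆ Iio (nn L) ∧
    (∀ z < L, ∃ n : ℕ, pr z n ∈ ods e) ∧
    ∀ (z z' : On) (n : ℕ), pr z n ∈ ods e → pr z' n ∈ ods e → z = z' := by
  by_cases h : L < omega 1
  · obtain ⟨f, hf⟩ := Set.countable_iff_exists_injOn.1 (countable_Iio.2 h)
    refine ⟨zf {c | ∃ z < L, c = pr z (f z)} (nn L), fun _ => ⟨zf_mem_HH _ (nn_lt_omega1 h), ?_⟩⟩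
    rw [ods_zf]
    refine ⟨inter_subset_right, fun z hz => ⟨f z, ⟨z, hz, rfl⟩, ?_⟩, ?_⟩
    · exact (nn_spec L).1.pr_mem (hz.trans (nn_spec L).2.1)
        ((Ordinal.natCast_lt_omega0 _).trans (nn_spec L).1.lim.2)
    · rintro z z' n ⟨⟨a, a1, a2⟩, -⟩ ⟨⟨b, b1, b2⟩, -⟩
      obtain ⟨rfl, a3⟩ := pr_inj.1 a2
      obtain ⟨rfl, b3⟩ := pr_inj.1 b2
      exact hf a1 b1 (Nat.cast_injective (a3.symm.trans b3))
  · exact ⟨∅, fun a => (h a).elim⟩

theorem absb_gm {P : Type} [Preorder P] [Nonempty P] (b : P → On → ℕ → ZFSet.{0})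
    (Z₀ : Set ZFSet.{0}) (h0 : Z₀.Countable) (dn nm : On → P → Prop) {g : On}
    (hg : g < omega 1) : ∃ (Fz : P → On → Set ZFSet.{0}) (U : Ult (RO P)) (M : Set ZFSet.{0})
      (j : M → U.M) (α : On) (G : Set P), GM Fz dn nm g U M j α G ∧
      (∀ p i n, b p i n ∈ Fz p i) ∧ (∀ p i, Z₀ ⊆ Fz p i) ∧
      (∀ p ∈ G, ∀ i < α, ∀ n, b p i n ∈ HH univ → b p i n ∈ HH M) ∧
      ∀ p ∈ G, ∀ i < α, ∀ z ∈ Z₀, z ∈ HH univ → z ∈ HH M := by
  have w : ∀ z : ZFSet.{0}, ∃ t f, z ∈ HH univ → t ∈ HH univ ∧ f ∈ HH univ ∧ Wit z t f := by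
    intro z
    by_cases h : z ∈ HH univ
    · obtain ⟨t, k1, f, k2, k3⟩ := exists_wit h
      exact ⟨t, f, fun _ => ⟨k1, k2, k3⟩⟩
    · exact ⟨∅, ∅, fun a => (h a).elim⟩
  choose t f hw using w
  have hc : ∀ p i, (range (b p i) ∪ Z₀).Countable := fun p i => (countable_range _).union h0
  obtain ⟨U, M, j, α, G, h⟩ := exists_gm
    (fun p i => (range (b p i) ∪ Z₀) ∪ (t '' (range (b p i) ∪ Z₀) ∪ f '' (range (b p i) ∪ Z₀)))
    (fun p i => (hc p i).union (((hc p i).image _).union ((hc p i).image _))) dn nm hg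
  have k : ∀ p ∈ G, ∀ i < α, ∀ z ∈ range (b p i) ∪ Z₀, z ∈ HH univ → z ∈ HH M := by
    intro p hp i hi z hz hz'
    obtain ⟨k1, k2, k3⟩ := hw z hz'
    exact ⟨(h.hc p hp i hi z (Or.inl hz) hz').1,
      _, (h.hc p hp i hi _ (Or.inr (Or.inl (mem_image_of_mem _ hz))) k1).1,
      _, (h.hc p hp i hi _ (Or.inr (Or.inr (mem_image_of_mem _ hz))) k2).1, k3⟩
  exact ⟨_, U, M, j, α, G, h, fun p i n => Or.inl (Or.inl ⟨n, rfl⟩),
    fun p i z hz => Or.inl (Or.inr hz), fun p hp i hi n => k p hp i hi _ (Or.inl ⟨n, rfl⟩),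
    fun p hp i hi z hz => k p hp i hi z (Or.inr hz)⟩

/-- The model that is used in `abs_main`.  Hint: `exists_skel`, `SP.skel`, `SP.statPres`,
`exists_gm`; `Fz p i` contains `ω₁`, `i`, `nn i`, `fq`, `zf gq fq`, `zf (st i) ω₁`, the limit
ordinals, a table for `DT i`, an enumeration table of `i`, the sets in `Z₀`, and witnesses
(`exists_wit`) for all hereditarily countable ones. -/
theorem exists_ctx {Q K : Type 1} [Preorder Q] [Nonempty Q] [Small.{0} K] (φ : Q → K)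
    (hφ : ∀ p p', φ p = φ p' → p ≤ p') (hSP : SP Q) (S : Setup Q) (hg : S.g < omega 1)
    {ar : ZFSet.{0}} (har : dec ar = ArT) (Z₀ : Set ZFSet.{0}) (h0 : Z₀.Countable)
    (h1 : Z₀ ⊆ HH univ) (h2 : ar ∈ Z₀) :
    ∃ (B : Type) (_ : CompleteBooleanAlgebra B) (U : Ult B) (M : Set ZFSet.{0}) (α : On)
      (G : Set Q), StatPres B ∧ TM M ∧ Ctx S α (subs M α) G ∧ Z₀ ⊆ HH M ∧
      (∀ ξ : On, ξ.toZFSet ∈ HH M ↔ ξ < α) ∧
      (∀ L < α, Nice (Iio L) → ∃ d ∈ HH M, dec d = DT L) ∧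
      (∃ x ∈ HH M, ods x = S.gen G) ∧
      ∀ (ψ : Fml) (v : ℕ → ZFSet.{0}), (∀ i, v i ∈ Z₀) →
        (SatIn Mem (· ∈ HH M) ψ v ↔ SatIn U.E (HC U.E) ψ fun i => ck U (v i)) := by
  obtain ⟨ι, s, hs⟩ := exists_skel φ hφ
  let _ : Preorder ι := Preorder.lift s
  have : Nonempty ι := ⟨(hs (Classical.arbitrary Q)).choose⟩
  have hP : StatPres (RO ι) := SP.statPres (hSP.skel s hs)
  choose dt hdt using absb_dt
  choose en hen using absb_en
  obtain ⟨Fz, U, M, j, α, G, h, f1, f2, f3, f4⟩ := absb_gm (P := ι) (fun p i n =>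
    [(omega 1).toZFSet, i.toZFSet, (nn i).toZFSet, (S.fq (s p) i).toZFSet,
      zf (S.gq (s p) i) (S.fq (s p) i), zf (S.st i) (omega 1),
      zf {δ | δ < omega 1 ∧ Order.IsSuccLimit δ} (omega 1), dt i, en i].getD n ∅) Z₀ h0
    (fun i p => S.dn i (s p)) (fun c p => S.nm c (s p)) hg
  obtain ⟨p₀, hp₀⟩ := h.ne
  have α0 : 0 < α := zero_le.trans_lt h.glt
  have hZ : Z₀ ⊆ HH M := fun z hz => f4 p₀ hp₀ 0 α0 z hz (h1 hz)
  have hα : α.toZFSet ∈ M := by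
    obtain ⟨k, -⟩ := h.sub p₀ hp₀ 0 α0 _ (f1 p₀ 0 0) fun _ k => k
    have e : (omega 1).toZFSet ∩ α.toZFSet = α.toZFSet := absb_inter h.lt.le
    exact e ▸ k
  have hn : ∀ c < α, nn c < α := fun c hc =>
    h.ord p₀ hp₀ c hc _ (nn_lt_omega1 (hc.trans h.lt)) (f1 p₀ c 2)
  have hd : ∀ L < α, Nice (Iio L) → ∃ d ∈ HH M, dec d = DT L := fun L hL hL' =>
    ⟨dt L, f3 p₀ hp₀ L hL 7 (hdt L (hL.trans h.lt) hL').1, (hdt L (hL.trans h.lt) hL').2⟩
  have hl : ∀ C ∈ M, Clb (Iio α) (ods C) → ∃ δ ∈ ods C, Order.IsSuccLimit δ := fun C hC hc => by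
    obtain ⟨δ, k1, k2⟩ := h.stat hP hp₀ α0 (f1 p₀ 0 0) (f1 p₀ 0 6) (clb_limit.stn uc_omega1 nice_omega1.ne) hC hc
    exact ⟨δ, k1, k2.2⟩
  have hcl : Cl α (subs M α) := by
    refine ⟨α0, hn, fun B hB => hB.1, h.tm.scomp har (hZ h2).1 hα hn fun L hL hL' => ?_,
      ?_, fun L hL => ?_⟩
    · obtain ⟨d, k1, k2⟩ := hd L hL hL'
      exact ⟨d, k1.1, k2⟩
    · rintro _ ⟨-, C, hC, rfl⟩ hc
      exact hl C hC hc
    · obtain ⟨k1, k2, k3⟩ := hen L (hL.trans h.lt)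
      exact ⟨ods (en L), ⟨fun x hx => (k2 hx).trans (hn L hL), _,
        (f3 p₀ hp₀ L hL 8 k1).1, rfl⟩, k3⟩
  have ho : ∀ ξ : On, ξ.toZFSet ∈ HH M ↔ ξ < α := fun ξ =>
    ⟨h.tm.not_HH har (hZ h2).1 hcl.nice.lim hα hl, fun k =>
      f3 p₀ hp₀ ξ k 1 (ord_mem_HH.2 (k.trans h.lt))⟩
  refine ⟨RO ι, inferInstance, U, M, α, s '' G, hP, h.tm, ⟨hcl, h.lt, ?_, ?_, ?_, ?_⟩, hZ, ho, hd,
    ⟨_, HH_subset h.gen ((ho _).2 h.glt) (zf_subset _ _), ?_⟩, fun ψ v hv => h.satHC ψ v fun i =>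
      h.hc p₀ hp₀ 0 α0 _ (f2 p₀ 0 (hv i)) (h1 (hv i))⟩
  · rintro _ ⟨p, hp, rfl⟩ _ ⟨q, hq, rfl⟩
    obtain ⟨r, k1, k2⟩ := h.compat p hp q hq
    exact ⟨s r, k1, k2⟩
  · intro i hi k1 k2
    obtain ⟨p, hp, k⟩ := h.dense i hi fun p => by
      obtain ⟨r, a1, a2⟩ := k2 (s p)
      obtain ⟨r', a3, -⟩ := hs r
      exact ⟨r', a3.trans a1, k1 _ _ a3 a2⟩
    exact ⟨s p, mem_image_of_mem _ hp, k⟩
  · rintro _ ⟨p, hp, rfl⟩ i hi k
    have k' := h.ord p hp i hi _ k (f1 p i 3)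
    exact ⟨k', fun x hx => hx.2.trans k', _, (f3 p hp i hi 4 (zf_mem_HH _ k)).1, ods_zf _ _⟩
  · rintro i hi k _ ⟨-, C, hC, rfl⟩ hc
    exact h.stat hP hp₀ hi (f1 p₀ i 0) (f1 p₀ i 5) k hC hc
  · rw [ods_zf]
    refine Set.ext fun c => ⟨fun ⟨⟨p, hp, k⟩, k'⟩ => ⟨k', s p, mem_image_of_mem _ hp, k⟩, ?_⟩
    rintro ⟨k', _, ⟨p, hp, rfl⟩, k⟩
    exact ⟨⟨p, hp, k⟩, k'⟩

/-- Absoluteness for statements about the machine.  Hint: `exists_tab` for
`fun A Λ v => ∃ w, w ∈ Λ ∧ Φ (sec A 0) .. (sec A 3) (v 0) (v 1) w`, `exists_sentence` for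
`HH M` and for `HH univ`. -/
theorem abs_main (h : Abs3) {Q K : Type 1} [Preorder Q] [Nonempty Q] [Small.{0} K] (φ : Q → K)
    (hφ : ∀ p p', φ p = φ p' → p ≤ p') (hSP : SP Q) (S : Setup Q) (hg : S.g < omega 1)
    (Φ) (hΦ : MD4 Φ) {Y : Set On} {g a : On} (h1 : g < omega 1) (h2 : Y ⊆ Iio g)
    (ha : a < omega 1)
    (hc : ∀ α R G, Ctx S α R G → a < α → ∀ o < α, ∀ B ∈ R, ∃ w < α, ∃ C ∈ R,
      Φ (S.gen G) Y B C o a w) :
    ∃ X, (∃ g < omega 1, X ⊆ Iio g) ∧ ∀ o < omega 1, ∀ B, (∃ g < omega 1, B ⊆ Iio g) →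
      ∃ w < omega 1, ∃ C, Φ X Y B C o a w := by
  obtain ⟨ar, m0, har⟩ := exists_enc_HH ArT (L := ω) omega0_lt_omega_one (by
    rintro _ ⟨i, k, rfl⟩
    refine ⟨List.cons_ne_nil _ _, fun u m => ?_⟩
    simp only [List.mem_cons, List.not_mem_nil, or_false] at m
    rcases m with rfl | rfl | rfl <;> exact natCast_lt_omega0 _)
  have hY : ods (zf Y g) = Y := (ods_zf Y g).trans (inter_eq_left.2 h2)
  have hZ : ({ar, zf Y g, a.toZFSet} : Set ZFSet.{0}) ⊆ HH univ := by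
    rintro _ (rfl | rfl | rfl)
    exacts [m0, zf_mem_HH Y h1, ord_mem_HH.2 ha]
  obtain ⟨B, _, U, M, α, G, c1, c2, c3, c4, c5, c6, ⟨x, c7, c8⟩, c9⟩ := exists_ctx φ hφ hSP S hg har
    {ar, zf Y g, a.toZFSet} (Set.toFinite _).countable hZ (Or.inl rfl)
  obtain ⟨F, hF, hF'⟩ := absc_tab Φ hΦ
  obtain ⟨ψ, hψ, hψ'⟩ := exists_sentence F
  have hv : ∀ i, sc ar (sc (zf Y g) fun _ => a.toZFSet) i ∈
      ({ar, zf Y g, a.toZFSet} : Set ZFSet.{0}) := by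
    rintro (_ | _ | i)
    exacts [Or.inl rfl, Or.inr (Or.inl rfl), Or.inr (Or.inr rfl)]
  have haα : a < α := (c5 a).1 (c4 (hv 2))
  have k1 := (hψ' (HH M) α a ar (zf Y g) (tr_HH c2.tr) c5 har (c4 (hv 0)) (c4 (hv 1)) haα).2
    ⟨x, c7, fun o ho b hb => by
      obtain ⟨w, hw, _, ⟨-, c, hc', rfl⟩, k⟩ := hc α _ G c3 haα o ho (ods b)
        ⟨fun ξ hξ => (c5 ξ).1 (tr_HH c2.tr b hb _ hξ), b, hb.1, rfl⟩
      obtain ⟨L, a1, a2, a3, a4, a5⟩ := absc_lev c3.nn ho haα hw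
      obtain ⟨d, a6, a7⟩ := c6 L a1 a2
      have a8 := (c5 L).2 a1
      have a9 := c2.inter_mem hc' a8.1
      refine ⟨L, a1, a2.lim, a3, a4, c ∩ L.toZFSet,
        HH_subset a9 a8 fun _ m => (ZFSet.mem_inter.1 m).2, d, a6, _,
        HH_subset (c2.ts_mem har a7 a2 (c4 (hv 0)).1 a6.1 a8.1 c7.1 (c4 (hv 1)).1 hb.1 a9) a8
          (zf_subset _ _), (hF' ar d _ x _ b _ L o a a3 a4).2 a2 a7 rfl ⟨w, a5, ?_⟩⟩
      rw [c8, hY, absc_ods]
      exact (hΦ.congr a2 a3 a4 a5 (fun _ _ => Iff.rfl) (fun _ _ => Iff.rfl)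
        (fun _ _ => Iff.rfl) fun u hu => (and_iff_left hu).symm).1 k⟩
  have k2 := (h B c1 ψ hψ _ (fun i => (hc_univ _).2 (hZ (hv i))) U).2 ((c9 ψ _ hv).1 k1)
  rw [show HC Mem = fun z => z ∈ HH univ from funext fun z => propext (hc_univ z)] at k2
  obtain ⟨x, b1, b2⟩ := (hψ' (HH univ) (omega 1) a ar (zf Y g) (tr_HH fun _ _ _ _ => mem_univ _)
    (fun _ => ord_mem_HH) har m0 (hZ (hv 1)) ha).1 k2
  refine ⟨ods x, ods_bdd b1, fun o ho B ⟨g', b3, b4⟩ => ?_⟩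
  obtain ⟨L, a1, a2, a3, a4, c, -, d, -, t, -, k⟩ := b2 o ho _ (zf_mem_HH B b3)
  obtain ⟨-, w, a5, k'⟩ := (hF' ar d t x _ _ c L o a a3 a4).1 a2 k
  rw [hY, ods_zf, inter_eq_left.2 b4] at k'
  exact ⟨w, a5.trans a1, _, k'⟩

end Pool.Agent.MP_fd3eaf_lc

end
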