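import Pool.Agent.MP_fd3eaf_lc.Mg.MD

/-!
Elementary embeddings, the Tarski-Vaught test and definable closure for the machine.
-/

set_option autoImplicit false

namespace Pool.Agent.MP_fd3eaf_lc

open Set Ordinal

/-- `f` is an elementary embedding of `(Λ; A)` into `(Λ'; B)`. -/
structure Elem (A B Λ Λ' : Set On) (f : On → On) : Prop where
  nice : Nice Λ
  nice' : Nice Λ'
  mem : ∀ x ∈ Λ, f x ∈ Λ'
  sat : ∀ k v, (∀ i, v i ∈ Λ) → (Sat A Λ k v ↔ Sat B Λ' k (f ∘ v))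

/-- The Tarski-Vaught condition. -/
structure TV (A Λ H : Set On) : Prop where
  sub : H ⊆ Λ
  wit : ∀ k q, (∀ a ∈ q, a ∈ H) → (∃ ξ ∈ Λ, Sat A Λ k (lv (ξ :: q))) →
    ∃ ξ ∈ H, Sat A Λ k (lv (ξ :: q))

/-- An assignment may be replaced by a list. -/
theorem sat_list {A Λ : Set On} {k n : ℕ} (h : k ≤ n) (v : ℕ → On) :
    Sat A Λ k v ↔ Sat A Λ k (lv ((List.range n).map v)) := by
  refine sat_irrel fun i hi => ?_
  have : i < n := hi.trans_le h
  simp [lv, List.getD_eq_getElem?_getD, this]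

theorem lw_mem {A Λ : Set On} (hΛ : Nice Λ) (k : ℕ) (q : List On) : lw A Λ k q ∈ Λ := by
  exact mda_sInf_mem hΛ fun _ hx => hx.1

theorem lw_spec {A Λ : Set On} {k : ℕ} {q : List On} {ξ : On} (h1 : ξ ∈ Λ)
    (h2 : Sat A Λ k (lv (ξ :: q))) :
    lw A Λ k q ≤ ξ ∧ lw A Λ k q ∈ Λ ∧ Sat A Λ k (lv (lw A Λ k q :: q)) := by
  have hm : ξ ∈ {ξ | ξ ∈ Λ ∧ Sat A Λ k (lv (ξ :: q))} := ⟨h1, h2⟩
  exact ⟨csInf_le' hm, csInf_mem ⟨ξ, hm⟩⟩

theorem elema_lw (k : ℕ) : MT fun A Λ v => sInf {x | x ∈ Λ ∧ Sat A Λ k (cons x v)} :=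
  MT.least (fun A Λ v x => Sat A Λ k (cons x v)) (h := MD.congr (h := MD.sat k)
    fun _ _ _ _ _ => sat_irrel fun i _ => by cases i <;> rfl)

/-- Being the least solution is expressed by a formula. -/
theorem exists_lw_eq (k : ℕ) : ∃ k', ∀ (A Λ : Set On) (x : On) (q : List On), Nice Λ → x ∈ Λ →
    (∀ a ∈ q, a ∈ Λ) → (Sat A Λ k' (lv (x :: q)) ↔ x = lw A Λ k q) := by
  obtain ⟨k', h⟩ := (elema_lw k).df.ex
  refine ⟨k', fun A Λ x q hΛ hx hq => (h A Λ _ hΛ (lv_mem hΛ.zero_mem fun a m =>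
    (List.mem_cons.1 m).elim (fun e => e ▸ hx) (hq a))).trans ?_⟩
  simp only [lw, lv_cons]
  rfl

namespace Elem
variable {A B C Λ Λ' Λ'' : Set On} {f g : On → On}

theorem md (h : Elem A B Λ Λ' f) (P : Set On → Set On → (ℕ → On) → Prop) [MD P] {v : ℕ → On}
    (hv : ∀ i, v i ∈ Λ) : P A Λ v ↔ P B Λ' (f ∘ v) := by
  obtain ⟨k, hk⟩ := MD.ex (P := P)
  rw [← hk A Λ v h.nice hv, ← hk B Λ' (f ∘ v) h.nice' fun i => h.mem _ (hv i)]
  exact h.sat k v hv

theorem mt (h : Elem A B Λ Λ' f) (t : Fam On) [MT t] {v : ℕ → On} (hv : ∀ i, v i ∈ Λ) :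
    f (t A Λ v) = t B Λ' (f ∘ v) := by
  have := MT.df (t := t)
  exact (h.md (fun A Λ v => v 0 = t A Λ fun n => v (n + 1))
    (cons_mem (MT.mem (t := t) A Λ v h.nice hv) hv)).1 rfl

theorem emb (h : Elem A B Λ Λ' f) : Emb A B Λ f := by
  intro x hx y hy
  funext i
  have := MD.tp (fun A _ _ => A) (fun _ _ v => v 0) (fun _ _ v => v 1) i
  exact propext (h.md (fun A _ v => tp A (v 0) (v 1) i) (v := cons x fun _ => y)
    (cons_mem hx fun _ => hy))

theorem zero (h : Elem A B Λ Λ' f) : f 0 = 0 := h.emb.zero h.nice.zero_mem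

theorem mdl (h : Elem A B Λ Λ' f) (P : Set On → Set On → (ℕ → On) → Prop) [MD P] (q : List On)
    (hq : ∀ a ∈ q, a ∈ Λ) : P A Λ (lv q) ↔ P B Λ' (lv (q.map f)) := by
  rw [lv_map h.zero]; exact h.md P (lv_mem h.nice.zero_mem hq)

theorem mtl (h : Elem A B Λ Λ' f) (t : Fam On) [MT t] (q : List On) (hq : ∀ a ∈ q, a ∈ Λ) :
    f (t A Λ (lv q)) = t B Λ' (lv (q.map f)) := by
  rw [lv_map h.zero]; exact h.mt t (lv_mem h.nice.zero_mem hq)

theorem lw (h : Elem A B Λ Λ' f) (k : ℕ) {q : List On} (hq : ∀ a ∈ q, a ∈ Λ) :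
    f (lw A Λ k q) = lw B Λ' k (q.map f) := by
  have := elema_lw k
  simpa only [MP_fd3eaf_lc.lw, lv_cons] using
    h.mtl (fun A Λ v => sInf {x | x ∈ Λ ∧ Sat A Λ k (cons x v)}) q hq

theorem mem_ext (h : Elem A B Λ Λ' f) {s x : On} (hs : s ∈ Λ) (hx : x ∈ Λ) :
    f x ∈ ext B (f s) ↔ x ∈ ext A s := by
  have := MD.memExt (fun A _ _ => A) (fun _ _ v => v 0) fun _ _ v => v 1
  exact (h.md (fun A _ v => v 1 ∈ ext A (v 0)) (v := cons s fun _ => x)
    (cons_mem hs fun _ => hx)).symm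

theorem comp (h : Elem A B Λ Λ' f) (h' : Elem B C Λ' Λ'' g) : Elem A C Λ Λ'' (g ∘ f) := by
  exact ⟨h.nice, h'.nice', fun x hx => h'.mem _ (h.mem x hx), fun k v hv =>
    (h.sat k v hv).trans (h'.sat k _ fun i => h.mem _ (hv i))⟩

theorem congr (h : Elem A B Λ Λ' f) {A' B' : Set On} (h1 : ∀ x ∈ Λ, x ∈ A ↔ x ∈ A')
    (h2 : ∀ x ∈ Λ', x ∈ B ↔ x ∈ B') (h3 : ∀ x ∈ Λ, f x = g x) : Elem A' B' Λ Λ' g := by
  refine ⟨h.nice, h.nice', fun x hx => h3 x hx ▸ h.mem x hx, fun k v hv => ?_⟩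
  have e : g ∘ v = f ∘ v := funext fun i => (h3 _ (hv i)).symm
  rw [e, ← sat_congr h.nice.lower hv h1,
    ← sat_congr (v := f ∘ v) h.nice'.lower (fun i => h.mem _ (hv i)) h2]
  exact h.sat k v hv

theorem inter (h : Elem A B Λ Λ' f) {e : On} (he : e ∈ Λ) :
    Elem (A ∩ Iio e) (B ∩ Iio (f e)) Λ Λ' f := by
  refine ⟨h.nice, h.nice', h.mem, fun k v hv => ?_⟩
  have := MD.satL k (fun A _ v => A ∩ Iio (v 0)) (fun i _ _ v => v (i + 1)) fun _ => MT.var _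
  exact h.md (fun A Λ v => Sat (A ∩ Iio (v 0)) Λ k fun i => v (i + 1)) (v := cons e v)
    (cons_mem he hv)

theorem elema_lift {q : List On} (hq : ∀ a ∈ q, a ∈ f '' Λ) :
    ∃ r : List On, (∀ a ∈ r, a ∈ Λ) ∧ r.map f = q := by
  induction q with
  | nil => exact ⟨[], fun _ m => absurd m List.not_mem_nil, rfl⟩
  | cons b q ih =>
    obtain ⟨r, h1, h2⟩ := ih fun a m => hq a (List.mem_cons_of_mem _ m)
    obtain ⟨c, h3, h4⟩ := hq b List.mem_cons_self
    exact ⟨c :: r, fun a m => (List.mem_cons.1 m).elim (fun e => e ▸ h3) (h1 a),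
      by rw [List.map_cons, h2, h4]⟩

theorem tv (h : Elem A B Λ Λ' f) : TV B Λ' (f '' Λ) := by
  refine ⟨image_subset_iff.2 h.mem, fun k q hq ⟨ξ, h1, h2⟩ => ?_⟩
  obtain ⟨r, hr, rfl⟩ := elema_lift hq
  exact ⟨_, ⟨_, lw_mem h.nice k r, h.lw k hr⟩, (lw_spec h1 h2).2.2⟩

/-- Restriction to a nice level. -/
theorem restrict (h : Elem A B Λ Λ' f) {l : On} (hl : l ∈ Λ) (hn : Nice (Iio l)) :
    Elem A B (Iio l) (Iio (f l)) f := by
  have hs : ∀ x ∈ Iio l, x ∈ Λ := fun x hx => h.nice.lower (le_of_lt hx) hl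
  have := MD.nice fun _ _ v => v 0
  refine ⟨hn, (h.md (fun _ _ v => Nice (Iio (v 0))) (v := fun _ => l) fun _ => hl).1 hn,
    fun x hx => (h.emb.lt (hs x hx) hl).2 hx, fun k v hv => ?_⟩
  have := MD.satLt k (fun A _ _ => A) (fun _ _ v => v 0) (fun i _ _ v => v (i + 1))
    fun _ => MT.var _
  exact h.md (fun A _ v => Sat A (Iio (v 0)) k fun i => v (i + 1)) (v := cons l v)
    (cons_mem hl fun i => hs _ (hv i))

end Elem

theorem elemb_cons_mem {Y : Set On} {ξ : On} {q : List On} (h0 : (0 : On) ∈ Y) (h1 : ξ ∈ Y)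
    (hq : ∀ a ∈ q, a ∈ Y) (i : ℕ) : lv (ξ :: q) i ∈ Y :=
  lv_mem h0 (List.forall_mem_cons.2 ⟨h1, hq⟩) i

theorem elemb_list {A Λ : Set On} (k : ℕ) (ξ : On) (v : ℕ → On) :
    Sat A Λ k (cons ξ v) ↔ Sat A Λ k (lv (ξ :: (List.range k).map v)) := by
  refine sat_irrel fun i hi => ?_
  cases i with
  | zero => rfl
  | succ i =>
    have : i < k := by omega
    simp [lv, List.getD_eq_getElem?_getD, this]

theorem elemb_map_inj {f : On → On} {Y : Set On} (hf : InjOn f Y) {p q : List On}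
    (hp : ∀ a ∈ p, a ∈ Y) (hq : ∀ a ∈ q, a ∈ Y) (h : p.map f = q.map f) : p = q := by
  induction p generalizing q with
  | nil => exact (List.map_eq_nil_iff.1 h.symm).symm
  | cons a p ih =>
    cases q with
    | nil => exact absurd h (List.cons_ne_nil _ _)
    | cons b q =>
      rw [List.map_cons, List.map_cons, List.cons.injEq] at h
      rw [hf (hp a List.mem_cons_self) (hq b List.mem_cons_self) h.1,
        ih (fun c m => hp c (List.mem_cons_of_mem _ m)) (fun c m => hq c (List.mem_cons_of_mem _ m))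
          h.2]

theorem elemb_atom {A B Y : Set On} {f : On → On} (h : Emb A B Y f) (hY : DCl Y) (t : ℕ)
    {x y z : On} (hx : x ∈ Y) (hy : y ∈ Y) (hz : z ∈ Y) :
    Atom A (T A) t x y z ↔ Atom B (T B) t (f x) (f y) (f z) := by
  have b2 : lev x = y ↔ lev (f x) = f y := h.iff hx hy .lev
  have b3 : cut x = y ↔ cut (f x) = f y := h.iff hx hy .cut
  have b4 : (fml x : On) = y ↔ (fml x : On) = f y :=
    eq_comm.trans ((h.iff hy hy (.nat (fml x))).trans eq_comm)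
  have b5 : par z = y :: par x ↔ par (f z) = f y :: par (f x) := by
    rw [h.par hY hz, h.par hY hx, ← List.map_cons]
    exact ⟨fun e => by rw [e], elemb_map_inj h.mono.injOn (hY.par z hz)
      (List.forall_mem_cons.2 ⟨hy, hY.par x hx⟩)⟩
  have b12 : lv (par x) (fml y) = z ↔ lv (par (f x)) (fml y) = f z := h.iff hx hz (.par (fml y))
  have b13 : (par x).length = fml y ↔ (par (f x)).length = fml y := h.iff hx hx (.len (fml y))
  unfold Atom
  rw [h.fml hx, h.fml hy, h.fml hz, h.lt hx hy, h.or hx, h.tr hx, b2, b3, b4, b5, b12, b13]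

namespace TV
variable {A B Λ H : Set On}

theorem elemb_wit (h : TV A Λ H) {k : ℕ} {v : ℕ → On} (hv : ∀ i, v i ∈ H) {ξ : On} (h1 : ξ ∈ Λ)
    (h2 : Sat A Λ k (cons ξ v)) : ∃ ξ ∈ H, Sat A Λ k (cons ξ v) := by
  obtain ⟨ζ, h3, h4⟩ := h.wit k ((List.range k).map v) (fun a m => by
    obtain ⟨i, -, rfl⟩ := List.mem_map.1 m
    exact hv i) ⟨ξ, h1, (elemb_list k ξ v).1 h2⟩
  exact ⟨ζ, h3, (elemb_list k ζ v).2 h4⟩

theorem lw (h : TV A Λ H) (hΛ : Nice Λ) (k : ℕ) {q : List On} (hq : ∀ a ∈ q, a ∈ H) :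
    lw A Λ k q ∈ H := by
  obtain ⟨k', hk⟩ := exists_lw_eq k
  have hq' : ∀ a ∈ q, a ∈ Λ := fun a m => h.sub (hq a m)
  obtain ⟨ξ, h1, h2⟩ := h.wit k' q hq
    ⟨_, lw_mem hΛ k q, (hk A Λ _ q hΛ (lw_mem hΛ k q) hq').2 rfl⟩
  exact (hk A Λ ξ q hΛ (h.sub h1) hq').1 h2 ▸ h1

theorem of_lw (h1 : H ⊆ Λ) (h2 : ∀ k q, (∀ a ∈ q, a ∈ H) → MP_fd3eaf_lc.lw A Λ k q ∈ H) :
    TV A Λ H :=
  ⟨h1, fun k q hq ⟨_, h3, h4⟩ => ⟨_, h2 k q hq, (lw_spec h3 h4).2.2⟩⟩

theorem mt (h : TV A Λ H) (hΛ : Nice Λ) (t : Fam On) [MT t] {v : ℕ → On} (hv : ∀ i, v i ∈ H) :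
    t A Λ v ∈ H := by
  obtain ⟨k, hk⟩ := (MT.df (t := t)).ex
  have hv' : ∀ i, v i ∈ Λ := fun i => h.sub (hv i)
  have hm : t A Λ v ∈ Λ := MT.mem A Λ v hΛ hv'
  obtain ⟨ξ, h1, h2⟩ := h.elemb_wit hv hm ((hk A Λ _ hΛ (cons_mem hm hv')).2 rfl)
  have e : ξ = t A Λ v := (hk A Λ _ hΛ (cons_mem (h.sub h1) hv')).1 h2
  exact e ▸ h1

theorem zero (h : TV A Λ H) (hΛ : Nice Λ) : (0 : On) ∈ H := by
  obtain ⟨k, hk⟩ := MT.exists_lw fun _ _ _ => 0
  have e := hk A Λ [] hΛ fun _ m => absurd m List.not_mem_nil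
  exact e ▸ h.lw hΛ k fun _ m => absurd m List.not_mem_nil

theorem mtl (h : TV A Λ H) (hΛ : Nice Λ) (t : Fam On) [MT t] (q : List On)
    (hq : ∀ a ∈ q, a ∈ H) : t A Λ (lv q) ∈ H :=
  h.mt hΛ t (lv_mem (h.zero hΛ) hq)

/-- Witnesses for definable predicates. -/
theorem md (h : TV A Λ H) (hΛ : Nice Λ) (P : Set On → Set On → (ℕ → On) → Prop) [MD P]
    (q : List On) (hq : ∀ a ∈ q, a ∈ H) {ξ : On} (h1 : ξ ∈ Λ) (h2 : P A Λ (lv (ξ :: q))) :
    ∃ ξ ∈ H, P A Λ (lv (ξ :: q)) := by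
  obtain ⟨k, hk⟩ := MD.ex (P := P)
  have hq' : ∀ a ∈ q, a ∈ Λ := fun a m => h.sub (hq a m)
  obtain ⟨ζ, h3, h4⟩ := h.wit k q hq
    ⟨ξ, h1, (hk A Λ _ hΛ (elemb_cons_mem hΛ.zero_mem h1 hq')).2 h2⟩
  exact ⟨ζ, h3, (hk A Λ _ hΛ (elemb_cons_mem hΛ.zero_mem (h.sub h3) hq')).1 h4⟩

theorem closed (h : TV A Λ H) (hΛ : Nice Λ) : Closed A Λ H := by
  refine ⟨h.sub, fun n => h.mt hΛ (fun _ _ _ => (n : On)) (v := fun _ => 0) fun _ => h.zero hΛ,
    fun c hc => h.mt hΛ (fun _ _ v => lev (v 0)) (v := fun _ => c) fun _ => hc,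
    fun c hc => h.mt hΛ (fun _ _ v => cut (v 0)) (v := fun _ => c) fun _ => hc,
    fun c hc a ha => ?_, fun c hc => ?_, fun c hc => ?_, fun l hl k e he _ => ?_,
    fun c hc ξ hξ _ => ?_⟩
  · obtain ⟨i, hi, rfl⟩ := List.getElem_of_mem ha
    have := MT.lv_par (fun _ _ v => v 0) i
    have m := h.mt hΛ (fun _ _ v => lv (par (v 0)) i) (v := fun _ => c) fun _ => hc
    rwa [lv, List.getD_eq_getElem _ _ hi] at m
  · have := MT.sk (fun A _ _ => A) fun _ _ v => v 0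
    exact h.mt hΛ (fun A _ v => sk A (v 0)) (v := fun _ => c) fun _ => hc
  · have := MT.fo (fun A _ _ => A) fun _ _ v => v 0
    exact h.mt hΛ (fun A _ v => fo A (v 0)) (v := fun _ => c) fun _ => hc
  · have := MT.new (fun _ _ v => v 0) (fun _ _ v => v 1) k
    exact h.mt hΛ (fun _ _ v => new (v 0) k (v 1)) (v := cons l fun _ => e)
      (cons_mem hl fun _ => he)
  · have := MT.ins (fun _ _ v => v 0) fun _ _ v => v 1
    exact h.mt hΛ (fun _ _ v => ins (v 0) (v 1)) (v := cons c fun _ => ξ)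
      (cons_mem hc fun _ => hξ)

theorem congr (h : TV A Λ H) (hΛ : Nice Λ) (e : ∀ x ∈ Λ, x ∈ A ↔ x ∈ B) : TV B Λ H := by
  refine of_lw h.sub fun k q hq => ?_
  rw [← lw_congr hΛ.lower hΛ.zero_mem (fun a m => h.sub (hq a m)) e]
  exact h.lw hΛ k hq

theorem inter_or (h : TV A Λ H) (hΛ : Nice Λ) {e : On} (he : e ∈ H) : TV (A ∩ Iio e) Λ H := by
  refine ⟨h.sub, fun k q hq ⟨ξ, h1, h2⟩ => ?_⟩
  have := MD.satL k (fun A _ v => A ∩ Iio (v 1)) (fun i _ _ v => v (up (· + 1) i))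
    fun _ => MT.var _
  have e1 : ∀ ζ : On, (fun i => lv (ζ :: e :: q) (up (· + 1) i)) = lv (ζ :: q) := fun ζ => by
    funext i
    cases i <;> rfl
  obtain ⟨ζ, h3, h4⟩ := h.md hΛ (fun A Λ v => Sat (A ∩ Iio (v 1)) Λ k fun i => v (up (· + 1) i))
    (e :: q) (List.forall_mem_cons.2 ⟨he, hq⟩) h1 (by rw [e1]; exact h2)
  rw [e1] at h4
  exact ⟨ζ, h3, h4⟩

/-- The enumeration of a Tarski-Vaught set is elementary. -/
theorem elem {Λ' : Set On} {f : On → On} (h : TV A Λ H) (hΛ : Nice Λ) (hΛ' : IsLowerSet Λ')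
    (hf : StrictMonoOn f Λ') (him : f '' Λ' = H) : Elem (f ⁻¹' A) A Λ' Λ f := by
  have emb := cond hΛ.lower (h.closed hΛ) hΛ' hf him
  have hm : ∀ c ∈ Λ', f c ∈ H := fun c hc => him ▸ mem_image_of_mem f hc
  have hn : Nice Λ' := by
    refine ⟨hΛ', ?_, fun c hc => ?_⟩
    · obtain ⟨x, hx, -⟩ : (0 : On) ∈ f '' Λ' := him ▸ h.zero hΛ
      exact ⟨x, hx⟩
    · obtain ⟨l, hl, e⟩ : nl (f c) ∈ f '' Λ' :=
        him ▸ h.mt hΛ (fun _ _ v => nl (v 0)) (v := fun _ => f c) fun _ => hm c hc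
      exact ⟨l, hl, (emb.isLev hl).1 (e ▸ isLev_nl _), (emb.lt hc hl).1 (e ▸ lt_nl _)⟩
  refine ⟨hn, hΛ, fun x hx => h.sub (hm x hx), fun k => ?_⟩
  induction k using Nat.strong_induction_on with
  | _ k ih =>
    intro v hv
    by_cases a1 : tg k = 9
    · rw [sat_neg a1, sat_neg a1, ih _ (oa_lt (by omega)) v hv]
    by_cases a2 : tg k = 10
    · rw [sat_and a2, sat_and a2, ih _ (oa_lt (by omega)) v hv, ih _ (ob_lt (by omega)) v hv]
    by_cases a3 : tg k = 11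
    · rw [sat_all a3, sat_all a3]
      constructor
      · intro hall ξ hξ
        by_contra hc
        obtain ⟨ζ, h3, h4⟩ := h.elemb_wit (k := fneg (oa k)) (v := f ∘ v)
          (fun i => hm _ (hv i)) hξ (sat_fneg.2 hc)
        obtain ⟨u, hu, rfl⟩ : ζ ∈ f '' Λ' := him ▸ h3
        rw [← comp_cons] at h4
        exact sat_fneg.1 h4 ((ih _ (oa_lt (by omega)) _ (cons_mem hu hv)).1 (hall u hu))
      · intro hall ξ hξ
        rw [ih _ (oa_lt (by omega)) _ (cons_mem hξ hv), comp_cons]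
        exact hall _ (h.sub (hm ξ hξ))
    rw [sat_atom a1 a2 a3, sat_atom a1 a2 a3]
    exact elemb_atom emb (DCl.of_lower hΛ' hn.zero_mem) _ (hv _) (hv _) (hv _)

theorem elem_col {η : On} (h : TV A (Iio η) H) (hη : Nice (Iio η)) :
    Elem (col H η ⁻¹' A) A (Iio (otp H η)) (Iio η) (col H η) :=
  h.elem hη (isLowerSet_Iio _) (col_strictMono.strictMonoOn _)
    (col_image.trans (inter_eq_left.2 h.sub))

theorem elem_id {L : Set On} (h : TV A Λ L) (hΛ : Nice Λ) (hL : IsLowerSet L) :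
    Elem A A L Λ id :=
  h.elem (f := id) hΛ hL strictMonoOn_id (image_id L)

theorem sat {L : Set On} (h : TV A Λ L) (hΛ : Nice Λ) (hL : IsLowerSet L) {k : ℕ} {v : ℕ → On}
    (hv : ∀ i, v i ∈ L) : Sat A L k v ↔ Sat A Λ k v :=
  (h.elem_id hΛ hL).sat k v hv

theorem nice {L : Set On} (h : TV A Λ L) (hΛ : Nice Λ) (hL : IsLowerSet L) : Nice L :=
  (h.elem_id hΛ hL).nice

theorem trans {L : Set On} (h : TV A Λ L) (hΛ : Nice Λ) (hL : IsLowerSet L) (h' : TV A L H) :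
    TV A Λ H := by
  refine of_lw (h'.sub.trans h.sub) fun k q hq => ?_
  have e := (h.elem_id hΛ hL).lw k fun a m => h'.sub (hq a m)
  rw [List.map_id, id] at e
  rw [← e]
  exact h'.lw (h.nice hΛ hL) k hq

theorem inter {L : Set On} (h : TV A Λ L) (hΛ : Nice Λ) (hL : IsLowerSet L) (h' : TV A Λ H) :
    TV A L (H ∩ L) := by
  refine of_lw inter_subset_right fun k q hq => ⟨?_, lw_mem (h.nice hΛ hL) k q⟩
  have e := (h.elem_id hΛ hL).lw k fun a m => (hq a m).2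
  rw [List.map_id, id] at e
  rw [e]
  exact h'.lw hΛ k fun a m => (hq a m).1

theorem iUnion {ι : Sort*} [Nonempty ι] {Hs : ι → Set On} (h : ∀ i, TV A Λ (Hs i))
    (hd : Directed (· ⊆ ·) Hs) : TV A Λ (⋃ i, Hs i) := by
  refine ⟨iUnion_subset fun i => (h i).sub, fun k q hq hx => ?_⟩
  obtain ⟨i, hi⟩ : ∃ i, ∀ a ∈ q, a ∈ Hs i := by
    clear hx
    induction q with
    | nil => exact ⟨Classical.arbitrary ι, fun _ m => absurd m List.not_mem_nil⟩
    | cons a q ih =>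
      obtain ⟨i, hi⟩ := ih fun b m => hq b (List.mem_cons_of_mem _ m)
      obtain ⟨j, hj⟩ := mem_iUnion.1 (hq a List.mem_cons_self)
      obtain ⟨m, h1, h2⟩ := hd i j
      exact ⟨m, List.forall_mem_cons.2 ⟨h2 hj, fun b k => h1 (hi b k)⟩⟩
  obtain ⟨ξ, h1, h2⟩ := (h i).wit k q hi hx
  exact ⟨ξ, mem_iUnion.2 ⟨i, h1⟩, h2⟩

/-- A limit of elementary levels is elementary. -/
theorem limit {γ : On} (h0 : 0 < γ) (h : ∀ x < γ, ∃ l, x < l ∧ l ≤ γ ∧ TV A Λ (Iio l)) :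
    TV A Λ (Iio γ) := by
  refine ⟨fun x hx => ?_, fun k q hq hx => ?_⟩
  · obtain ⟨l, h1, -, h3⟩ := h x hx
    exact h3.sub h1
  · obtain ⟨x, h1, h2⟩ : ∃ x < γ, ∀ a ∈ q, a ≤ x := by
      clear hx
      induction q with
      | nil => exact ⟨0, h0, fun _ m => absurd m List.not_mem_nil⟩
      | cons a q ih =>
        obtain ⟨x, h1, h2⟩ := ih fun b m => hq b (List.mem_cons_of_mem _ m)
        exact ⟨max a x, max_lt (hq a List.mem_cons_self) h1, List.forall_mem_cons.2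
          ⟨le_max_left _ _, fun b m => (h2 b m).trans (le_max_right _ _)⟩⟩
    obtain ⟨l, h3, h4, h5⟩ := h x h1
    obtain ⟨ξ, h6, h7⟩ := h5.wit k q (fun a m => (h2 a m).trans_lt h3) hx
    exact ⟨ξ, lt_of_lt_of_le h6 h4, h7⟩

theorem refl : TV A Λ Λ := ⟨subset_rfl, fun _ _ _ h => h⟩

end TV

/-- The union of an elementary chain of levels. -/
theorem tv_chain {A Λ : Set On} {E : Set On} (hΛ : IsLowerSet Λ) (h1 : E ⊆ Λ)
    (h2 : ∀ x ∈ Λ, ∃ l ∈ E, x < l) (h3 : ∀ l ∈ E, Nice (Iio l))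
    (h4 : ∀ l ∈ E, ∀ l' ∈ E, l < l' → TV A (Iio l') (Iio l)) (hne : Λ.Nonempty) :
    Nice Λ ∧ ∀ l ∈ E, TV A Λ (Iio l) := by
  have hs : ∀ l ∈ E, ∀ x, x < l → x ∈ Λ := fun l hl x hx => hΛ hx.le (h1 hl)
  have big : ∀ l ∈ E, ∀ ξ ∈ Λ, ξ < l ∨ ∃ m ∈ E, l < m ∧ ξ < m := fun l _ ξ hξ => by
    obtain ⟨m, a, b⟩ := h2 ξ hξ
    exact (lt_or_ge ξ l).imp id fun c => ⟨m, a, c.trans_lt b, b⟩
  have main : ∀ k, ∀ l ∈ E, ∀ v : ℕ → On, (∀ i, v i ∈ Iio l) →
      (Sat A (Iio l) k v ↔ Sat A Λ k v) := by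
    intro k
    induction k using Nat.strong_induction_on with
    | _ k ih =>
      intro l hl v hv
      by_cases a1 : tg k = 9
      · rw [sat_neg a1, sat_neg a1, ih _ (oa_lt (by omega)) l hl v hv]
      by_cases a2 : tg k = 10
      · rw [sat_and a2, sat_and a2, ih _ (oa_lt (by omega)) l hl v hv,
          ih _ (ob_lt (by omega)) l hl v hv]
      by_cases a3 : tg k = 11
      · constructor
        · intro hall
          rw [sat_all a3]
          intro ξ hξ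
          rcases big l hl ξ hξ with c | ⟨m, hm, c, d⟩
          · exact (ih _ (oa_lt (by omega)) l hl _ (cons_mem c hv)).1 ((sat_all a3).1 hall ξ c)
          · have e := ((h4 l hl m hm c).sat (h3 m hm) (isLowerSet_Iio l) hv).1 hall
            exact (ih _ (oa_lt (by omega)) m hm _
              (cons_mem d fun i => lt_trans (hv i) c)).1 ((sat_all a3).1 e ξ d)
        · intro hall
          rw [sat_all a3] at hall ⊢
          intro ξ hξ
          exact (ih _ (oa_lt (by omega)) l hl _ (cons_mem hξ hv)).2 (hall ξ (hs l hl ξ hξ))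
      rw [sat_atom a1 a2 a3, sat_atom a1 a2 a3]
  refine ⟨⟨hΛ, hne, fun c hc => ?_⟩, fun l hl => ⟨hs l hl, fun k q hq ⟨ξ, b1, b2⟩ => ?_⟩⟩
  · obtain ⟨l, a, b⟩ := h2 c hc
    obtain ⟨m, d1, d2⟩ := (h3 l a).up c b
    exact ⟨m, hs l a m d1, d2⟩
  · rcases big l hl ξ b1 with c | ⟨m, hm, c, d⟩
    · exact ⟨ξ, c, b2⟩
    · have hq' : ∀ a ∈ q, a ∈ Iio m := fun a k => lt_trans (hq a k) c
      obtain ⟨ζ, e1, e2⟩ := (h4 l hl m hm c).wit k q hq
        ⟨ξ, d, (main k m hm _ (elemb_cons_mem (h3 m hm).zero_mem d hq')).2 b2⟩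
      exact ⟨ζ, e1, (main k m hm _
        (elemb_cons_mem (h3 m hm).zero_mem (lt_trans e1 c) hq')).1 e2⟩

/-- The definable closure. -/
def Dcl (A Λ Y : Set On) : Set On := {x | ∃ k q, (∀ a ∈ q, a ∈ Y) ∧ lw A Λ k q = x}

section dcl
variable {A B Λ Y : Set On}

theorem elemc_term (hΛ : Nice Λ) (hY : Y ⊆ Λ) (t : Fam On) [MT t] {p : List On}
    (hp : ∀ a ∈ p, a ∈ Y) : t A Λ (lv p) ∈ Dcl A Λ Y := by
  obtain ⟨k, hk⟩ := MT.exists_lw t
  exact ⟨k, p, hp, hk A Λ p hΛ fun a m => hY (hp a m)⟩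

theorem subset_dcl (hΛ : Nice Λ) (hY : Y ⊆ Λ) : Y ⊆ Dcl A Λ Y := fun y hy =>
  elemc_term hΛ hY (fun _ _ v => v 0) (p := [y]) fun a m => by
    rw [List.mem_singleton.1 m]; exact hy

/-- The least solution as a term. -/
noncomputable def elemcLw (k : ℕ) : Fam On := fun A Λ v => sInf {x | x ∈ Λ ∧ Sat A Λ k (cons x v)}

theorem elemc_mt (k : ℕ) : MT (elemcLw k) :=
  haveI : MD fun A Λ v => Sat A Λ k (cons (v 0) fun n => v (n + 1)) :=
    MD.congr (h := MD.sat k) fun _ _ _ _ _ => sat_irrel fun i _ => by cases i <;> rfl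
  MT.least fun A Λ v x => Sat A Λ k (cons x v)

theorem elemc_lw (k : ℕ) (q : List On) : lw A Λ k q = elemcLw k A Λ (lv q) := by
  simp only [lw, elemcLw, lv_cons]

theorem elemc_left (p q : List On) (i : ℕ) :
    (if i < p.length then lv (p ++ q) i else 0) = lv p i := by
  induction p generalizing i with
  | nil => simp
  | cons a p ih =>
    cases i with
    | zero => simp
    | succ i => simpa using ih i

theorem elemc_right (p q : List On) (i : ℕ) : lv (p ++ q) (i + p.length) = lv q i := by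
  induction p with
  | nil => simp
  | cons a p ih => exact ih

theorem elemc_list {q : List On} (hq : ∀ a ∈ q, a ∈ Dcl A Λ Y) :
    ∃ (t : ℕ → Fam On) (p : List On), (∀ i, MT (t i)) ∧ (∀ a ∈ p, a ∈ Y) ∧
      ∀ i, t i A Λ (lv p) = lv q i := by
  induction q with
  | nil => exact ⟨fun _ _ _ _ => 0, [], fun _ => MT.zero, by simp, fun i => (lv_nil i).symm⟩
  | cons a q ih =>
    obtain ⟨t, p, h1, h2, h3⟩ := ih fun b m => hq b (List.mem_cons_of_mem _ m)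
    obtain ⟨k, r, h4, h5⟩ := hq a List.mem_cons_self
    refine ⟨fun i => Nat.casesOn i
      (fun A Λ v => elemcLw k A Λ fun j => if j < r.length then v j else 0)
      fun i A Λ v => t i A Λ fun n => v (n + r.length), r ++ p, ?_, ?_, ?_⟩
    · rintro (_ | i)
      · have := elemc_mt k
        exact MT.substAll (elemcLw k) (fun A _ _ => A)
          (fun j _ _ v => if j < r.length then v j else 0) (MT.trunc r.length)
      · exact MT.shift (t i) (h := h1 i) fun n => n + r.length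
    · exact fun b m => (List.mem_append.1 m).elim (h4 b) (h2 b)
    · rintro (_ | i)
      · change elemcLw k A Λ (fun j => if j < r.length then lv (r ++ p) j else 0) = a
        rw [funext (elemc_left r p), ← elemc_lw, h5]
      · change t i A Λ (fun n => lv (r ++ p) (n + r.length)) = lv q i
        rw [funext (elemc_right r p), h3]

/-- Hint: substitute the definitions of the parameters (`exists_lw_eq`, `MD.satL`, `exists_ren`);
an induction on the list of parameters that are not yet in `Y` is convenient. -/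
theorem dcl_tv (hΛ : Nice Λ) (hY : Y ⊆ Λ) : TV A Λ (Dcl A Λ Y) := by
  refine TV.of_lw ?_ fun k q hq => ?_
  · rintro _ ⟨k, q, -, rfl⟩
    exact lw_mem hΛ k q
  · obtain ⟨t, p, h1, h2, h3⟩ := elemc_list hq
    have := elemc_mt k
    have := MT.substAll (elemcLw k) (fun A _ _ => A) t h1
    have := elemc_term (A := A) hΛ hY (fun A Λ v => elemcLw k A Λ fun i => t i A Λ v) h2
    rwa [funext h3, ← elemc_lw] at this

theorem dcl_least {H : Set On} (hΛ : Nice Λ) (h : TV A Λ H) (hY : Y ⊆ H) : Dcl A Λ Y ⊆ H := by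
  rintro _ ⟨k, q, hq, rfl⟩
  exact h.lw hΛ k fun a m => hY (hq a m)

theorem dcl_mono {Y' : Set On} (h : Y ⊆ Y') : Dcl A Λ Y ⊆ Dcl A Λ Y' := by
  rintro _ ⟨k, q, hq, rfl⟩
  exact ⟨k, q, fun a m => h (hq a m), rfl⟩

theorem dcl_congr (hΛ : Nice Λ) (hY : Y ⊆ Λ) (e : ∀ x ∈ Λ, x ∈ A ↔ x ∈ B) :
    Dcl A Λ Y = Dcl B Λ Y := by
  refine Set.ext fun x => exists₂_congr fun k q => and_congr_right fun hq => ?_
  rw [lw_congr hΛ.lower hΛ.zero_mem (fun a m => hY (hq a m)) e]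

theorem card_dcl : Cardinal.mk (Dcl A Λ Y) ≤ max (Cardinal.mk Y) Cardinal.aleph0 := by
  let f : ULift.{1} ℕ × List Y → On := fun p => lw A Λ p.1.down (p.2.map Subtype.val)
  have h1 : Dcl A Λ Y ⊆ range f := by
    rintro _ ⟨k, q, hq, rfl⟩
    obtain ⟨p, hp⟩ : ∃ p : List Y, p.map Subtype.val = q := CanLift.prf q hq
    exact ⟨(⟨k⟩, p), by simp only [f, hp]⟩
  have h2 : Cardinal.aleph0 ≤ max (Cardinal.mk Y) Cardinal.aleph0 := le_max_right _ _
  refine (Cardinal.mk_le_mk_of_subset h1).trans (Cardinal.mk_range_le.trans ?_)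
  rw [Cardinal.mk_prod, Cardinal.lift_id, Cardinal.lift_id]
  exact Cardinal.mul_le_of_le h2 (Cardinal.mk_le_aleph0.trans h2)
    ((Cardinal.mk_list_le_max _).trans (max_le h2 (le_max_left _ _)))

theorem Elem.dcl {Λ' : Set On} {f : On → On} (h : Elem A B Λ Λ' f) (hY : Y ⊆ Λ) {x : On}
    (hx : x ∈ Λ) : f x ∈ Dcl B Λ' (f '' Y) ↔ x ∈ Dcl A Λ Y := by
  constructor
  · rintro ⟨k, q, hq, e⟩
    obtain ⟨p, hp, rfl⟩ : ∃ p : List On, (∀ a ∈ p, a ∈ Y) ∧ p.map f = q := by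
      clear e
      induction q with
      | nil => exact ⟨[], by simp, rfl⟩
      | cons a q ih =>
        obtain ⟨p, h1, rfl⟩ := ih fun b m => hq b (List.mem_cons_of_mem _ m)
        obtain ⟨b, h2, rfl⟩ := hq a List.mem_cons_self
        exact ⟨b :: p, fun c m => (List.mem_cons.1 m).elim (fun e => e ▸ h2) (h1 c), rfl⟩
    rw [← h.lw k fun a m => hY (hp a m)] at e
    exact ⟨k, p, hp, (h.emb.inj (lw_mem h.nice k p) hx).1 e⟩
  · rintro ⟨k, q, hq, rfl⟩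
    refine ⟨k, q.map f, fun a m => ?_, (h.lw k fun a m => hY (hq a m)).symm⟩
    obtain ⟨b, h1, rfl⟩ := List.mem_map.1 m
    exact mem_image_of_mem f (hq b h1)

theorem TV.dcl {L : Set On} (h : TV A Λ L) (hΛ : Nice Λ) (hL : IsLowerSet L) (hY : Y ⊆ L) :
    Dcl A L Y = Dcl A Λ Y := by
  refine Set.ext fun x => exists₂_congr fun k q => and_congr_right fun hq => ?_
  have e := (h.elem_id hΛ hL).lw k fun a m => hY (hq a m)
  rw [List.map_id, id] at e
  rw [e]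

theorem hull_subset_dcl {β : On} (hΛ : Nice Λ) (hβ : Iio β ⊆ Λ) (hY : Y ⊆ Λ) :
    Hull A (Iio β) Y ⊆ Dcl A Λ Y :=
  (hull_mono hβ Subset.rfl).trans (hull_least ((dcl_tv hΛ hY).closed hΛ)
    (inter_subset_left.trans (subset_dcl hΛ hY)))

end dcl

/-- Elementary levels are unbounded. -/
def ElUp (A Λ : Set On) : Prop := Nice Λ ∧ ∀ x ∈ Λ, ∃ l ∈ Λ, x < l ∧ TV A Λ (Iio l)

theorem elemc_up {A Λ : Set On} (hΛ : Nice Λ)
    (h : ∀ (ι : Type) (f : ι → On), ∀ l ∈ Λ, Cardinal.mk ι ≤ max l.card Cardinal.aleph0 →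
      (∀ i, f i ∈ Λ) → (⨆ i, f i + 1) ∈ Λ) : ElUp A Λ := by
  have step : ∀ l, ∃ m, l ∈ Λ → m ∈ Λ ∧ l < m ∧ ∀ k q, (∀ a ∈ q, a < l) → lw A Λ k q < m := by
    intro l
    let f : ℕ × List l.ToType → On := fun p =>
      max l (lw A Λ p.1 (p.2.map fun a => (Ordinal.ToType.mk.symm a).1))
    refine ⟨⨆ p, f p + 1, fun hl => ⟨h _ f l hl ?_ fun p => ?_, ?_, fun k q hq => ?_⟩⟩
    · have h2 : Cardinal.aleph0 ≤ max l.card Cardinal.aleph0 := le_max_right _ _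
      rw [Cardinal.mk_prod, Cardinal.lift_id, Cardinal.lift_id]
      refine Cardinal.mul_le_of_le h2 (Cardinal.mk_le_aleph0.trans h2)
        ((Cardinal.mk_list_le_max _).trans (max_le h2 ?_))
      rw [Cardinal.mk_toType]
      exact le_max_left _ _
    · rcases max_choice l (lw A Λ p.1 (p.2.map fun a => (Ordinal.ToType.mk.symm a).1)) with e | e
      · exact mem_of_eq_of_mem e hl
      · exact mem_of_eq_of_mem e (lw_mem hΛ _ _)
    · exact (le_max_left _ _).trans_lt (Ordinal.lt_iSup_add_one f (0, []))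
    · obtain ⟨p, rfl⟩ : ∃ p : List (Iio l), p.map Subtype.val = q := CanLift.prf q hq
      refine lt_of_le_of_lt ?_ (Ordinal.lt_iSup_add_one f (k, p.map Ordinal.ToType.mk))
      refine le_of_eq_of_le ?_ (le_max_right _ _)
      simp [List.map_map, Function.comp_def]
  choose g hg using step
  refine ⟨hΛ, fun x hx => ?_⟩
  have h1 : ∀ n : ℕ, g^[n] x ∈ Λ := fun n => by
    induction n with
    | zero => exact hx
    | succ n ih => rw [Function.iterate_succ_apply']; exact (hg _ ih).1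
  have h2 : StrictMono fun n : ℕ => g^[n] x := strictMono_nat_of_lt_succ fun n => by
    rw [Function.iterate_succ_apply']; exact (hg _ (h1 n)).2.1
  have h3 : (⨆ n : ℕ, g^[n] x + 1) ∈ Λ :=
    h ℕ (fun n => g^[n] x) x hx (Cardinal.mk_nat.trans_le (le_max_right _ _)) h1
  have h4 : ∀ n : ℕ, g^[n] x < ⨆ n : ℕ, g^[n] x + 1 :=
    Ordinal.lt_iSup_add_one fun n : ℕ => g^[n] x
  refine ⟨_, h3, h4 0, TV.of_lw (fun a ha => hΛ.lower (le_of_lt ha) h3) fun k q hq => ?_⟩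
  obtain ⟨n, hn⟩ : ∃ n : ℕ, ∀ a ∈ q, a < g^[n] x := by
    induction q with
    | nil => exact ⟨0, by simp⟩
    | cons a q ih =>
      obtain ⟨n, hn⟩ := ih fun b m => hq b (List.mem_cons_of_mem _ m)
      obtain ⟨m, hm⟩ := Ordinal.lt_iSup_iff.1 (hq a List.mem_cons_self)
      refine ⟨max n (m + 1), fun b k => (List.mem_cons.1 k).elim (fun e => e ▸ ?_) fun k' =>
        (hn b k').trans_le (h2.monotone (le_max_left _ _))⟩
      exact (Order.lt_add_one_iff.1 hm).trans_lt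
        (h2 ((Nat.lt_succ_self m).trans_le (le_max_right _ _)))
  have h5 := h4 (n + 1)
  rw [Function.iterate_succ_apply'] at h5
  exact ((hg _ (h1 n)).2.2 k q hn).trans h5

theorem elUp_univ (A : Set On) : ElUp A univ :=
  elemc_up nice_univ fun _ _ _ _ _ _ => mem_univ _

theorem elUp_ord (A : Set On) {κ : Cardinal.{0}} (h1 : κ.IsRegular) (h2 : Cardinal.aleph0 < κ) :
    ElUp A (Iio κ.ord) :=
  elemc_up (nice_ord h2) fun _ _ _ hl h hf => Ordinal.iSup_add_one_lt_of_lt_cof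
    (by rw [h1.cof_ord]; exact h.trans_lt (max_lt (Cardinal.lt_ord.1 hl) h2)) hf

theorem ElUp.nn_mem {A Λ : Set On} (h : ElUp A Λ) {x : On} (hx : x ∈ Λ) : nn x ∈ Λ := by
  obtain ⟨l, h1, h2, h3⟩ := h.2 x hx
  exact h.1.lower (nn_le (h3.nice h.1 (isLowerSet_Iio l)) h2) h1

end Pool.Agent.MP_fd3eaf_lc
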