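import Pool.Agent.MP_fd3eaf_lc.Loc

-- part MP_fd3eaf_lc.Mach
section

/-!
The truth machine.  Formulas are natural numbers (de Bruijn variables).  `T A c` is the truth value
of the formula `fml c` with parameters `par c` in the ordinals below `lev c`, with the oracle
`A ∩ cut c` and the machine itself as predicates.
-/

set_option autoImplicit false

namespace Pool.Agent.MP_fd3eaf_lc

open Set Ordinal

def mk (t a b c : ℕ) : ℕ := Nat.pair t (Nat.pair a (Nat.pair b c)) + 1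
def tg (k : ℕ) : ℕ := if k = 0 then 0 else (Nat.unpair (k - 1)).1
def oa (k : ℕ) : ℕ := (Nat.unpair (Nat.unpair (k - 1)).2).1
def ob (k : ℕ) : ℕ := (Nat.unpair (Nat.unpair (Nat.unpair (k - 1)).2).2).1
def oc (k : ℕ) : ℕ := (Nat.unpair (Nat.unpair (Nat.unpair (k - 1)).2).2).2

@[simp] theorem tg_mk (t a b c : ℕ) : tg (mk t a b c) = t := by simp [tg, mk]
@[simp] theorem oa_mk (t a b c : ℕ) : oa (mk t a b c) = a := by simp [oa, mk]
@[simp] theorem ob_mk (t a b c : ℕ) : ob (mk t a b c) = b := by simp [ob, mk]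
@[simp] theorem oc_mk (t a b c : ℕ) : oc (mk t a b c) = c := by simp [oc, mk]
@[simp] theorem tg_zero : tg 0 = 0 := rfl

theorem ne_zero_of_tg {k : ℕ} (h : tg k ≠ 0) : k ≠ 0 := fun e => h (by rw [e]; rfl)

theorem oa_lt {k : ℕ} (h : tg k ≠ 0) : oa k < k := by
  have := ne_zero_of_tg h
  have h1 := Nat.unpair_right_le (k - 1)
  have h2 := Nat.unpair_left_le (Nat.unpair (k - 1)).2
  unfold oa; omega

theorem ob_lt {k : ℕ} (h : tg k ≠ 0) : ob k < k := by
  have := ne_zero_of_tg h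
  have h1 := Nat.unpair_right_le (k - 1)
  have h2 := Nat.unpair_right_le (Nat.unpair (k - 1)).2
  have h3 := Nat.unpair_left_le (Nat.unpair (Nat.unpair (k - 1)).2).2
  unfold ob; omega

theorem oc_lt {k : ℕ} (h : tg k ≠ 0) : oc k < k := by
  have := ne_zero_of_tg h
  have h1 := Nat.unpair_right_le (k - 1)
  have h2 := Nat.unpair_right_le (Nat.unpair (k - 1)).2
  have h3 := Nat.unpair_right_le (Nat.unpair (Nat.unpair (k - 1)).2).2
  unfold oc; omega

/-- Negation, conjunction and the universal quantifier on formula numbers. -/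
def fneg (a : ℕ) : ℕ := mk 9 a 0 0
def fand (a b : ℕ) : ℕ := mk 10 a b 0
def fall (a : ℕ) : ℕ := mk 11 a 0 0

/-- The assignment `a, v 0, v 1, ...`. -/
def cons (a : On) (v : ℕ → On) : ℕ → On
  | 0 => a
  | n + 1 => v n

@[simp] theorem cons_zero (a : On) (v : ℕ → On) : cons a v 0 = a := rfl
@[simp] theorem cons_succ (a : On) (v : ℕ → On) (n : ℕ) : cons a v (n + 1) = v n := rfl

theorem cons_mem {Λ : Set On} {a : On} {v : ℕ → On} (ha : a ∈ Λ) (hv : ∀ n, v n ∈ Λ) :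
    ∀ n, cons a v n ∈ Λ
  | 0 => ha
  | n + 1 => hv n

theorem comp_cons (f : On → On) (a : On) (v : ℕ → On) : f ∘ cons a v = cons (f a) (f ∘ v) := by
  funext n; cases n <;> rfl

/-- A list as an assignment. -/
def lv (q : List On) (i : ℕ) : On := q.getD i 0

@[simp] theorem lv_nil (i : ℕ) : lv [] i = 0 := by simp [lv]
@[simp] theorem lv_zero (a : On) (q : List On) : lv (a :: q) 0 = a := rfl
@[simp] theorem lv_succ (a : On) (q : List On) (i : ℕ) : lv (a :: q) (i + 1) = lv q i := rfl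

theorem lv_cons (a : On) (q : List On) : lv (a :: q) = cons a (lv q) := by
  funext n; cases n <;> rfl

theorem lv_mem {Λ : Set On} {q : List On} (h0 : (0 : On) ∈ Λ) (hq : ∀ a ∈ q, a ∈ Λ) (i : ℕ) :
    lv q i ∈ Λ := by
  induction q generalizing i with
  | nil => simpa using h0
  | cons a q ih =>
    cases i with
    | zero => exact hq a (by simp)
    | succ i => exact ih (fun b hb => hq b (by simp [hb])) i

theorem lv_map {f : On → On} (h0 : f 0 = 0) (q : List On) : lv (q.map f) = f ∘ lv q := by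
  induction q with
  | nil => funext i; simp [h0]
  | cons a q ih => rw [List.map_cons, lv_cons, lv_cons, comp_cons, ih]

/-- The four components of a formula number. -/
def dc : ℕ → ℕ → ℕ
  | 0, k => tg k
  | 1, k => oa k
  | 2, k => ob k
  | _, k => oc k

/-- Atomic formulas. -/
def Atom (A : Set On) (Tt : On → Prop) (t : ℕ) (x y z : On) : Prop :=
  (t = 1 ∧ x < y) ∨ (t = 2 ∧ lev x = y) ∨ (t = 3 ∧ cut x = y) ∨ (t = 4 ∧ (fml x : On) = y) ∨
    (t = 5 ∧ par z = y :: par x) ∨ (t = 6 ∧ tg (fml x) = 11 ∧ fml y = oa (fml x)) ∨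
    (t = 7 ∧ x ∈ A) ∨ (t = 8 ∧ Tt x) ∨ (t = 12 ∧ lv (par x) (fml y) = z) ∨
    (t = 13 ∧ (par x).length = fml y) ∨ (t = 14 ∧ dc (fml z) (fml x) = fml y)

/-- Satisfaction in `Λ` with the predicates `A` and `Tt`. -/
def SatN (Λ A : Set On) (Tt : On → Prop) (k : ℕ) (v : ℕ → On) : Prop :=
  if _h : tg k = 9 then ¬ SatN Λ A Tt (oa k) v
  else if _h' : tg k = 10 then SatN Λ A Tt (oa k) v ∧ SatN Λ A Tt (ob k) v
  else if _h'' : tg k = 11 then ∀ ξ ∈ Λ, SatN Λ A Tt (oa k) (cons ξ v)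
  else Atom A Tt (tg k) (v (oa k)) (v (ob k)) (v (oc k))
termination_by k
decreasing_by
  · exact oa_lt (by omega)
  · exact oa_lt (by omega)
  · exact ob_lt (by omega)
  · exact oa_lt (by omega)

/-- The recursion for the machine, for all oracles at once. -/
noncomputable def TF : On → Set On → Prop :=
  (wellFounded_lt (α := On)).fix fun c ih A =>
    SatN (Iio (lev c)) (A ∩ Iio (cut c)) (fun d => ∃ h : d < c, ih d h (A ∩ Iio (cut c)))
      (fml c) (lv (par c))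

/-- The truth machine. -/
def T (A : Set On) (c : On) : Prop := TF c A

/-- Truth in the structure `(Λ; <, lev, cut, fml, par, A, T A)`. -/
def Sat (A Λ : Set On) (k : ℕ) (v : ℕ → On) : Prop := SatN Λ A (T A) k v

section
variable {A B Λ : Set On} {k : ℕ} {v w : ℕ → On}

theorem macha_neg {Tt : On → Prop} (h : tg k = 9) :
    SatN Λ A Tt k v ↔ ¬ SatN Λ A Tt (oa k) v := by
  rw [SatN, dif_pos h]

theorem macha_and {Tt : On → Prop} (h : tg k = 10) :
    SatN Λ A Tt k v ↔ SatN Λ A Tt (oa k) v ∧ SatN Λ A Tt (ob k) v := by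
  rw [SatN, dif_neg (by omega), dif_pos h]

theorem macha_all {Tt : On → Prop} (h : tg k = 11) :
    SatN Λ A Tt k v ↔ ∀ ξ ∈ Λ, SatN Λ A Tt (oa k) (cons ξ v) := by
  rw [SatN, dif_neg (by omega), dif_neg (by omega), dif_pos h]

theorem macha_atom {Tt : On → Prop} (h1 : tg k ≠ 9) (h2 : tg k ≠ 10) (h3 : tg k ≠ 11) :
    SatN Λ A Tt k v ↔ Atom A Tt (tg k) (v (oa k)) (v (ob k)) (v (oc k)) := by
  rw [SatN, dif_neg h1, dif_neg h2, dif_neg h3]

theorem macha_zero {Tt : On → Prop} (h : tg k = 0) : ¬ SatN Λ A Tt k v := by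
  rw [macha_atom (by omega) (by omega) (by omega), h]
  simp [Atom]

theorem sat_neg (h : tg k = 9) : Sat A Λ k v ↔ ¬ Sat A Λ (oa k) v := by
  exact macha_neg h

theorem sat_and (h : tg k = 10) : Sat A Λ k v ↔ Sat A Λ (oa k) v ∧ Sat A Λ (ob k) v := by
  exact macha_and h

theorem sat_all (h : tg k = 11) : Sat A Λ k v ↔ ∀ ξ ∈ Λ, Sat A Λ (oa k) (cons ξ v) := by
  exact macha_all h

theorem sat_atom (h1 : tg k ≠ 9) (h2 : tg k ≠ 10) (h3 : tg k ≠ 11) :
    Sat A Λ k v ↔ Atom A (T A) (tg k) (v (oa k)) (v (ob k)) (v (oc k)) := by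
  exact macha_atom h1 h2 h3

@[simp] theorem sat_fneg {a : ℕ} : Sat A Λ (fneg a) v ↔ ¬ Sat A Λ a v := by
  rw [sat_neg (by simp [fneg])]; simp [fneg]

@[simp] theorem sat_fand {a b : ℕ} : Sat A Λ (fand a b) v ↔ Sat A Λ a v ∧ Sat A Λ b v := by
  rw [sat_and (by simp [fand])]; simp [fand]

@[simp] theorem sat_fall {a : ℕ} : Sat A Λ (fall a) v ↔ ∀ ξ ∈ Λ, Sat A Λ a (cons ξ v) := by
  rw [sat_all (by simp [fall])]; simp [fall]

theorem not_sat_zero : ¬ Sat A Λ 0 v := by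
  exact macha_zero rfl

/-- Only the variables below `k` occur in the formula `k`. -/
theorem sat_irrel (h : ∀ i < k, v i = w i) : Sat A Λ k v ↔ Sat A Λ k w := by
  induction k using Nat.strong_induction_on generalizing v w with
  | _ k ih =>
    by_cases h0 : tg k = 0
    · exact iff_of_false (macha_zero h0) (macha_zero h0)
    have ha := oa_lt h0
    have hb := ob_lt h0
    by_cases h1 : tg k = 9
    · rw [sat_neg h1, sat_neg h1, ih _ ha fun i hi => h i (hi.trans ha)]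
    by_cases h2 : tg k = 10
    · rw [sat_and h2, sat_and h2, ih _ ha fun i hi => h i (hi.trans ha),
        ih _ hb fun i hi => h i (hi.trans hb)]
    by_cases h3 : tg k = 11
    · rw [sat_all h3, sat_all h3]
      refine forall₂_congr fun ξ _ => ih _ ha fun i hi => ?_
      rcases i with _ | i
      · rfl
      · exact h i (by omega)
    rw [sat_atom h1 h2 h3, sat_atom h1 h2 h3, h _ ha, h _ hb, h _ (oc_lt h0)]

/-- `SatN` only looks at the predicates on `Λ`. -/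
theorem satN_congr {Tt Tt' : On → Prop} (hv : ∀ i, v i ∈ Λ) (h1 : ∀ x ∈ Λ, x ∈ A ↔ x ∈ B)
    (h2 : ∀ x ∈ Λ, Tt x ↔ Tt' x) : SatN Λ A Tt k v ↔ SatN Λ B Tt' k v := by
  induction k using Nat.strong_induction_on generalizing v with
  | _ k ih =>
    by_cases a1 : tg k = 9
    · rw [macha_neg a1, macha_neg a1, ih _ (oa_lt (by omega)) hv]
    by_cases a2 : tg k = 10
    · rw [macha_and a2, macha_and a2, ih _ (oa_lt (by omega)) hv, ih _ (ob_lt (by omega)) hv]
    by_cases a3 : tg k = 11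
    · rw [macha_all a3, macha_all a3]
      exact forall₂_congr fun ξ hξ => ih _ (oa_lt (by omega)) (cons_mem hξ hv)
    rw [macha_atom a1 a2 a3, macha_atom a1 a2 a3, Atom, Atom, h1 _ (hv _), h2 _ (hv _)]

theorem macha_fml {c : On} (h : c < ω) : fml c = 0 := by
  rw [fml, D_small h]

/-- Hint: `WellFounded.fix_eq` and `satN_congr`; for `c < ω` the formula is `0`. -/
theorem T_iff (A : Set On) (c : On) :
    T A c ↔ Sat (A ∩ Iio (cut c)) (Iio (lev c)) (fml c) (lv (par c)) := by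
  rw [T, TF, WellFounded.fix_eq]
  rcases lt_or_ge c ω with h | h
  · exact iff_of_false (macha_zero (by rw [macha_fml h]; rfl))
      (macha_zero (by rw [macha_fml h]; rfl))
  · exact satN_congr (lv_mem (omega0_pos.trans_le (isLev_lev h).1) fun _ => par_lt_lev)
      (fun _ _ => Iff.rfl) fun x hx => ⟨fun ⟨_, a⟩ => a, fun a => ⟨hx.trans_le (lev_le c), a⟩⟩

theorem not_T_small {c : On} (h : c < ω) : ¬ T A c := by
  rw [T_iff, macha_fml h]
  exact not_sat_zero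

theorem T_code {l e : On} {q : List On} (h1 : IsLev l) (h2 : (Loc.mk l k e q).Valid) :
    T A (code ⟨l, k, e, q⟩) ↔ Sat (A ∩ Iio e) (Iio l) k (lv q) := by
  rw [T_iff, lev_code h1 h2, fml_code h1 h2, cut_code h1 h2, par_code h1 h2]

theorem T_congr {c : On} (h : ∀ x < cut c, x ∈ A ↔ x ∈ B) : T A c ↔ T B c := by
  have e : A ∩ Iio (cut c) = B ∩ Iio (cut c) :=
    Set.ext fun x => and_congr_left fun hx => h x hx
  rw [T_iff, T_iff, e]

theorem sat_congr (hΛ : IsLowerSet Λ) (hv : ∀ i, v i ∈ Λ) (h : ∀ x ∈ Λ, x ∈ A ↔ x ∈ B) :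
    Sat A Λ k v ↔ Sat B Λ k v := by
  exact satN_congr hv h fun x hx => T_congr fun y hy => h y (hΛ (hy.le.trans (cut_le x)) hx)

theorem T_inter (A : Set On) (e c : On) : T (A ∩ Iio e) c ↔ T A (rct c (min (cut c) e)) := by
  rcases lt_or_ge c ω with h | h
  · exact iff_of_false (not_T_small h) (not_T_small ((rct_le (min_le_left _ _)).trans_lt h))
  · rw [rct, T_code (q := par c) (isLev_lev h)
      ⟨(min_le_left _ _).trans (cut_le_lev c), fun _ => par_lt_lev⟩,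
      T_iff, inter_assoc, Iio_inter_Iio, min_comm e]

/-- Truth at a level, with the full oracle. -/
theorem T_code_lev {l : On} {q : List On} (h1 : IsLev l) (h2 : ∀ a ∈ q, a < l) :
    T A (code ⟨l, k, l, q⟩) ↔ Sat A (Iio l) k (lv q) := by
  rw [T_code h1 ⟨le_rfl, h2⟩]
  exact sat_congr (isLowerSet_Iio l) (lv_mem (omega0_pos.trans_le h1.1) h2)
    fun x hx => and_iff_left hx

/-- Renaming of variables. -/
theorem exists_ren (k : ℕ) (g : ℕ → ℕ) :
    ∃ k', ∀ (A Λ : Set On) (v : ℕ → On), Sat A Λ k' v ↔ Sat A Λ k (v ∘ g) := by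
  induction k using Nat.strong_induction_on generalizing g with
  | _ k ih =>
    by_cases a1 : tg k = 9
    · obtain ⟨a, ha⟩ := ih _ (oa_lt (k := k) (by omega)) g
      exact ⟨fneg a, fun A Λ v => by rw [sat_fneg, sat_neg a1, ha]⟩
    by_cases a2 : tg k = 10
    · obtain ⟨a, ha⟩ := ih _ (oa_lt (k := k) (by omega)) g
      obtain ⟨b, hb⟩ := ih _ (ob_lt (k := k) (by omega)) g
      exact ⟨fand a b, fun A Λ v => by rw [sat_fand, sat_and a2, ha, hb]⟩
    by_cases a3 : tg k = 11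
    · obtain ⟨a, ha⟩ := ih _ (oa_lt (k := k) (by omega)) fun n => n.casesOn 0 fun m => g m + 1
      refine ⟨fall a, fun A Λ v => ?_⟩
      rw [sat_fall, sat_all a3]
      refine forall₂_congr fun ξ _ => ?_
      rw [ha]
      exact sat_irrel fun i _ => by cases i <;> rfl
    refine ⟨mk (tg k) (g (oa k)) (g (ob k)) (g (oc k)), fun A Λ v => ?_⟩
    rw [sat_atom a1 a2 a3, sat_atom (by simpa using a1) (by simpa using a2) (by simpa using a3)]
    simp

end

/-! The recursion clauses of the machine, in terms of smaller ordinals. -/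

/-- The location of the `a`-th formula at the place of `c`. -/
noncomputable def rfm (c : On) (a : ℕ) : On := code ⟨lev c, a, cut c, par c⟩
/-- The location of an instance of the quantified formula `c`. -/
noncomputable def inst (c ξ : On) : On := code ⟨lev c, oa (fml c), cut c, ξ :: par c⟩

theorem machb_omega {c : On} (h : fml c ≠ 0) : ω ≤ c :=
  not_lt.1 fun k => h (congrArg Loc.k (D_small k))

theorem machb_omega' {c : On} (h : tg (fml c) ≠ 0) : ω ≤ c := machb_omega (ne_zero_of_tg h)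

theorem machb_lt {c e : On} {a : ℕ} {q : List On} (hc : ω ≤ c)
    (hv : (Loc.mk (lev c) a e q).Valid) (h : a < fml c) : code ⟨lev c, a, e, q⟩ < c := by
  have h1 : IsLev (Loc.mk (lev c) a e q).l := isLev_lev hc
  rw [← D_lt_iff (omega_le_code h1 hv) hc, D_code h1 hv]
  exact Or.inr ⟨rfl, Or.inl h⟩

theorem machb_valid {l e ξ : On} {k k' : ℕ} {q : List On} (h : (Loc.mk l k e q).Valid)
    (hξ : ξ < l) : (Loc.mk l k' e (ξ :: q)).Valid :=
  ⟨h.1, fun _ m => (List.mem_cons.1 m).elim (fun e => e ▸ hξ) (h.2 _)⟩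

theorem rfm_lt {c : On} {a : ℕ} (h : a < fml c) : rfm c a < c := by
  have hc := machb_omega (c := c) (by omega)
  exact machb_lt hc (valid_D c) h

theorem inst_lt {c : On} (ξ : On) (h : tg (fml c) ≠ 0) : inst c ξ < c := by
  have hc := machb_omega' h
  by_cases hξ : ξ < lev c
  · exact machb_lt hc (locc_valid hξ) (oa_lt h)
  · rw [inst, code_invalid (x := ⟨lev c, oa (fml c), cut c, ξ :: par c⟩) fun a =>
      hξ (a.2.2 ξ List.mem_cons_self)]
    exact omega0_pos.trans_le hc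

theorem machb_rfm {A : Set On} {c : On} (hc : ω ≤ c) (a : ℕ) :
    T A (rfm c a) ↔ Sat (A ∩ Iio (cut c)) (Iio (lev c)) a (lv (par c)) :=
  T_code (isLev_lev hc) (valid_D c)

theorem T_neg {A : Set On} {c : On} (h : tg (fml c) = 9) : T A c ↔ ¬ T A (rfm c (oa (fml c))) := by
  rw [T_iff A c, sat_neg h, machb_rfm (machb_omega' (by omega))]

theorem T_and {A : Set On} {c : On} (h : tg (fml c) = 10) :
    T A c ↔ T A (rfm c (oa (fml c))) ∧ T A (rfm c (ob (fml c))) := by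
  have hc := machb_omega' (c := c) (by omega)
  rw [T_iff A c, sat_and h, machb_rfm hc, machb_rfm hc]

theorem T_all {A : Set On} {c : On} (h : tg (fml c) = 11) :
    T A c ↔ ∀ ξ < lev c, T A (inst c ξ) := by
  have hc := machb_omega' (c := c) (by omega)
  rw [T_iff A c, sat_all h]
  refine forall₂_congr fun ξ hξ => ?_
  rw [← lv_cons]
  exact (T_code (k := oa (fml c)) (isLev_lev hc) (locc_valid hξ)).symm

theorem machb_atom {A : Set On} {P Q : On → Prop} {t : ℕ} {x y z : On}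
    (h : t = 8 → (P x ↔ Q x)) : Atom A P t x y z ↔ Atom A Q t x y z := by
  unfold Atom
  rw [and_congr_right h]

theorem T_atom {A : Set On} {c : On} (h1 : tg (fml c) ≠ 9) (h2 : tg (fml c) ≠ 10)
    (h3 : tg (fml c) ≠ 11) :
    T A c ↔ Atom (A ∩ Iio (cut c)) (fun d => T A (rct d (min (cut d) (cut c)))) (tg (fml c))
      (lv (par c) (oa (fml c))) (lv (par c) (ob (fml c))) (lv (par c) (oc (fml c))) := by
  rw [T_iff A c, sat_atom h1 h2 h3]
  exact machb_atom fun _ => T_inter _ _ _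

/-- A predicate that satisfies the recursion clauses on an initial segment is the machine. -/
theorem T_unique {A Λ : Set On} {P : On → Prop} (hΛ : IsLowerSet Λ)
    (hn : ∀ c ∈ Λ, tg (fml c) = 9 → (P c ↔ ¬ P (rfm c (oa (fml c)))))
    (ha : ∀ c ∈ Λ, tg (fml c) = 10 → (P c ↔ P (rfm c (oa (fml c))) ∧ P (rfm c (ob (fml c)))))
    (hq : ∀ c ∈ Λ, tg (fml c) = 11 → (P c ↔ ∀ ξ < lev c, P (inst c ξ)))
    (ht : ∀ c ∈ Λ, tg (fml c) ≠ 9 → tg (fml c) ≠ 10 → tg (fml c) ≠ 11 →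
      (P c ↔ Atom (A ∩ Iio (cut c)) (fun d => P (rct d (min (cut d) (cut c)))) (tg (fml c))
        (lv (par c) (oa (fml c))) (lv (par c) (ob (fml c))) (lv (par c) (oc (fml c))))) :
    ∀ c ∈ Λ, P c ↔ T A c := by
  intro c
  induction c using WellFoundedLT.induction with
  | ind c ih =>
    intro hc
    have ih' : ∀ d < c, P d ↔ T A d := fun d hd => ih d hd (hΛ hd.le hc)
    by_cases h1 : tg (fml c) = 9
    · rw [hn c hc h1, T_neg h1, ih' _ (rfm_lt (oa_lt (by omega)))]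
    by_cases h2 : tg (fml c) = 10
    · rw [ha c hc h2, T_and h2, ih' _ (rfm_lt (oa_lt (by omega))),
        ih' _ (rfm_lt (ob_lt (by omega)))]
    by_cases h3 : tg (fml c) = 11
    · rw [hq c hc h3, T_all h3]
      exact forall₂_congr fun ξ _ => ih' _ (inst_lt ξ (by omega))
    rw [ht c hc h1 h2 h3, T_atom h1 h2 h3]
    refine machb_atom fun h8 => ih' _ ((rct_le (min_le_left _ _)).trans_lt ?_)
    exact lv_mem (Λ := Iio c) (omega0_pos.trans_le (machb_omega' (by omega)))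
      (fun a => par_lt) _

/-- The least counterexample to a universal formula. -/
noncomputable def wit (P : On → Prop) (c : On) : On :=
  sInf {ξ | tg (fml c) = 11 ∧ ξ < lev c ∧ ¬ P (inst c ξ)}

/-- Skolem function of the machine. -/
noncomputable def sk (A : Set On) (c : On) : On := wit (T A) c
/-- Skolem function of the oracle. -/
noncomputable def fo (A : Set On) (c : On) : On := wit (· ∈ A) c

theorem machb_wit (P : On → Prop) (c : On) : wit P c = 0 ∨ wit P c < lev c := by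
  rcases {ξ | tg (fml c) = 11 ∧ ξ < lev c ∧ ¬ P (inst c ξ)}.eq_empty_or_nonempty with h | h
  · exact Or.inl (by rw [wit, h, Ordinal.sInf_empty])
  · exact Or.inr (csInf_mem h).2.1

theorem wit_le (P : On → Prop) (c : On) : wit P c ≤ lev c := by
  rcases machb_wit P c with h | h
  · rw [h]
    exact zero_le
  · exact h.le

theorem wit_lt_lev (P : On → Prop) {c : On} (h : ω ≤ c) : wit P c < lev c := by
  rcases machb_wit P c with k | k
  · rw [k]
    exact omega0_pos.trans_le (isLev_lev h).1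
  · exact k

theorem wit_congr {P Q : On → Prop} {c : On} (h : ∀ d < c, P d ↔ Q d) : wit P c = wit Q c := by
  refine congrArg sInf (Set.ext fun ξ => and_congr_right fun k => ?_)
  rw [h _ (inst_lt ξ (by omega))]

theorem wit_spec {P : On → Prop} {c ξ : On} (h : tg (fml c) = 11) (h1 : ξ < lev c)
    (h2 : ¬ P (inst c ξ)) : wit P c ≤ ξ ∧ ¬ P (inst c (wit P c)) := by
  have hm : ξ ∈ {ξ | tg (fml c) = 11 ∧ ξ < lev c ∧ ¬ P (inst c ξ)} := ⟨h, h1, h2⟩
  exact ⟨csInf_le' hm, (csInf_mem ⟨ξ, hm⟩).2.2⟩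

theorem wit_code {P : On → Prop} {l e : On} {k : ℕ} {q : List On} (h1 : IsLev l)
    (h2 : (Loc.mk l (fall k) e q).Valid) :
    wit P (code ⟨l, fall k, e, q⟩) = sInf {ξ | ξ < l ∧ ¬ P (code ⟨l, k, e, ξ :: q⟩)} := by
  simp only [wit, inst, lev_code h1 h2, fml_code h1 h2, cut_code h1 h2, par_code h1 h2]
  simp only [fall, tg_mk, oa_mk, true_and]

theorem sk_congr {A B : Set On} {c : On} (h : ∀ x < c, x ∈ A ↔ x ∈ B) : sk A c = sk B c := by
  exact wit_congr fun d hd => T_congr fun x hx => h x ((hx.trans_le (cut_le d)).trans hd)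

theorem fo_congr {A B : Set On} {c : On} (h : ∀ x < c, x ∈ A ↔ x ∈ B) : fo A c = fo B c := by
  exact wit_congr h

/-- The set named by `s`. -/
def ext (A : Set On) (s : On) : Set On := {x | x < lev s ∧ T A (ins s x)}

theorem ext_code {A : Set On} {l e : On} {k : ℕ} {q : List On} (h1 : IsLev l)
    (h2 : (Loc.mk l k e q).Valid) :
    ext A (code ⟨l, k, e, q⟩) = {x | x < l ∧ Sat (A ∩ Iio e) (Iio l) k (lv (x :: q))} := by
  refine Set.ext fun x => ?_
  rw [ext, lev_code h1 h2]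
  refine and_congr_right fun hx => ?_
  rw [ins_code h1 h2, T_code h1 (machb_valid h2 hx)]

theorem ext_congr {A B : Set On} {s : On} (h : ∀ x < cut s, x ∈ A ↔ x ∈ B) :
    ext A s = ext B s := by
  refine Set.ext fun x => and_congr_right fun hx => T_congr fun y hy => h y ?_
  have hs : ω ≤ s := not_lt.1 fun k => by
    rw [lev, D_small k] at hx
    exact not_lt_zero hx
  rwa [cut, (D_ins hs hx).2] at hy

/-- The least solution of a formula in `Λ` (`0` if there is none). -/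
noncomputable def lw (A Λ : Set On) (k : ℕ) (q : List On) : On :=
  sInf {ξ | ξ ∈ Λ ∧ Sat A Λ k (lv (ξ :: q))}

theorem lw_eq_sk {A : Set On} {l e : On} {k : ℕ} {q : List On} (h1 : IsLev l) (he : e ≤ l)
    (h2 : ∀ a ∈ q, a < l) :
    lw (A ∩ Iio e) (Iio l) k q = sk A (code ⟨l, fall (fneg k), e, q⟩) := by
  have hv : (Loc.mk l (fall (fneg k)) e q).Valid := ⟨he, h2⟩
  rw [sk, wit_code h1 hv]
  refine congrArg sInf (Set.ext fun ξ => and_congr_right fun hξ => ?_)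
  rw [T_code h1 (machb_valid hv hξ), sat_fneg, not_not]

theorem lw_congr {A B Λ : Set On} {k : ℕ} {q : List On} (hΛ : IsLowerSet Λ) (h0 : (0 : On) ∈ Λ)
    (hq : ∀ a ∈ q, a ∈ Λ) (h : ∀ x ∈ Λ, x ∈ A ↔ x ∈ B) : lw A Λ k q = lw B Λ k q := by
  exact congrArg sInf (Set.ext fun ξ => and_congr_right fun hξ => sat_congr hΛ
    (lv_mem h0 fun a m => (List.mem_cons.1 m).elim (fun e => e ▸ hξ) (hq a)) h)

end Pool.Agent.MP_fd3eaf_lc

end

-- part MP_fd3eaf_lc.Cond
section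

/-!
Quantifier-free types, embeddings, closed sets, condensation and hulls.
-/

set_option autoImplicit false

namespace Pool.Agent.MP_fd3eaf_lc

open Set Ordinal

inductive Ix : Type
  | lt | lev | cut | sk | fo | or | tr
  | par (i : ℕ) | fml (n : ℕ) | len (n : ℕ) | nat (n : ℕ)

instance : Countable Ix := by
  let g : Ix → ℕ × ℕ := fun i => match i with
    | .lt => (0, 0) | .lev => (1, 0) | .cut => (2, 0) | .sk => (3, 0) | .fo => (4, 0)
    | .or => (5, 0) | .tr => (6, 0) | .par i => (7, i) | .fml n => (8, n) | .len n => (9, n)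
    | .nat n => (10, n)
  refine Function.Injective.countable (f := g) fun a b h => ?_
  cases a <;> cases b <;> simp_all [g]

/-- The quantifier-free type of a pair. -/
def tp (A : Set On) (x y : On) : Ix → Prop
  | .lt => x < y
  | .lev => lev x = y
  | .cut => cut x = y
  | .sk => sk A x = y
  | .fo => fo A x = y
  | .or => x ∈ A
  | .tr => T A x
  | .par i => lv (par x) i = y
  | .fml n => fml x = n
  | .len n => (par x).length = n
  | .nat n => x = n

/-- `f` preserves the types of pairs from `Y`. -/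
def Emb (A B Y : Set On) (f : On → On) : Prop :=
  ∀ x ∈ Y, ∀ y ∈ Y, tp A x y = tp B (f x) (f y)

/-- `Y` is closed under the decomposition. -/
structure DCl (Y : Set On) : Prop where
  zero : (0 : On) ∈ Y
  lev : ∀ c ∈ Y, lev c ∈ Y
  cut : ∀ c ∈ Y, cut c ∈ Y
  par : ∀ c ∈ Y, ∀ a ∈ par c, a ∈ Y

theorem DCl.of_lower {Λ : Set On} (h : IsLowerSet Λ) (h0 : (0 : On) ∈ Λ) : DCl Λ :=
  ⟨h0, fun c hc => h (lev_le c) hc, fun c hc => h (cut_le c) hc,
    fun _ hc _ ha => h (par_lt ha).le hc⟩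

theorem tp_congr {A B : Set On} {x y : On} (h : ∀ z ≤ x, z ∈ A ↔ z ∈ B) : tp A x y = tp B x y := by
  funext i
  cases i with
  | sk => simp only [tp, sk_congr fun z hz => h z hz.le]
  | fo => simp only [tp, fo_congr fun z hz => h z hz.le]
  | or => exact propext (h x le_rfl)
  | tr => exact propext (T_congr fun z hz => h z (hz.le.trans (cut_le x)))
  | _ => rfl

namespace Emb
variable {A B C Y : Set On} {f g : On → On}

theorem iff (h : Emb A B Y f) {x y : On} (hx : x ∈ Y) (hy : y ∈ Y) (i : Ix) :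
    tp A x y i ↔ tp B (f x) (f y) i := by rw [h x hx y hy]

theorem lt (h : Emb A B Y f) {x y : On} (hx : x ∈ Y) (hy : y ∈ Y) : f x < f y ↔ x < y :=
  (h.iff hx hy .lt).symm

theorem mono (h : Emb A B Y f) : StrictMonoOn f Y := fun _ hx _ hy hl => (h.lt hx hy).2 hl

theorem inj (h : Emb A B Y f) {x y : On} (hx : x ∈ Y) (hy : y ∈ Y) : f x = f y ↔ x = y :=
  h.mono.eq_iff_eq hx hy

theorem le (h : Emb A B Y f) {x y : On} (hx : x ∈ Y) (hy : y ∈ Y) : f x ≤ f y ↔ x ≤ y :=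
  h.mono.le_iff_le hx hy

theorem or (h : Emb A B Y f) {x : On} (hx : x ∈ Y) : f x ∈ B ↔ x ∈ A := (h.iff hx hx .or).symm

theorem tr (h : Emb A B Y f) {x : On} (hx : x ∈ Y) : T B (f x) ↔ T A x := (h.iff hx hx .tr).symm

theorem nat (h : Emb A B Y f) {n : ℕ} (hx : (n : On) ∈ Y) : f n = n :=
  (h.iff hx hx (.nat n)).1 rfl

theorem zero (h : Emb A B Y f) (hx : (0 : On) ∈ Y) : f 0 = 0 := by
  simpa using h.nat (n := 0) (by simpa using hx)

theorem fml (h : Emb A B Y f) {x : On} (hx : x ∈ Y) : fml (f x) = fml x :=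
  (h.iff hx hx (.fml _)).1 rfl

theorem omega_le (h : Emb A B Y f) {x : On} (hx : x ∈ Y) : ω ≤ f x ↔ ω ≤ x := by
  rw [← not_lt, ← not_lt, lt_omega0, lt_omega0]
  exact not_congr (exists_congr fun n => (h.iff hx hx (.nat n)).symm)

theorem lev (h : Emb A B Y f) {x : On} (hx : x ∈ Y) (h' : lev x ∈ Y) : lev (f x) = f (lev x) :=
  (h.iff hx h' .lev).1 rfl

theorem cut (h : Emb A B Y f) {x : On} (hx : x ∈ Y) (h' : cut x ∈ Y) : cut (f x) = f (cut x) :=
  (h.iff hx h' .cut).1 rfl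

theorem sk (h : Emb A B Y f) {x : On} (hx : x ∈ Y) (h' : sk A x ∈ Y) : sk B (f x) = f (sk A x) :=
  (h.iff hx h' .sk).1 rfl

theorem fo (h : Emb A B Y f) {x : On} (hx : x ∈ Y) (h' : fo A x ∈ Y) : fo B (f x) = f (fo A x) :=
  (h.iff hx h' .fo).1 rfl

theorem par (h : Emb A B Y f) (hY : DCl Y) {x : On} (hx : x ∈ Y) : par (f x) = (par x).map f := by
  have h1 : (MP_fd3eaf_lc.par (f x)).length = (MP_fd3eaf_lc.par x).length :=
    (h.iff hx hx (.len _)).1 rfl
  refine List.ext_getElem (by rw [h1, List.length_map]) fun i a b => ?_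
  have b' : i < (MP_fd3eaf_lc.par x).length := h1 ▸ a
  have h2 : lv (MP_fd3eaf_lc.par (f x)) i = f (MP_fd3eaf_lc.par x)[i] :=
    (h.iff hx (hY.par x hx _ (List.getElem_mem b')) (.par i)).1 (List.getD_eq_getElem _ _ b')
  rw [List.getElem_map, ← h2]
  exact (List.getD_eq_getElem _ _ a).symm

theorem D (h : Emb A B Y f) (hY : DCl Y) {x : On} (hx : x ∈ Y) : D (f x) = (D x).map f := by
  exact Loc.ext (h.lev hx (hY.lev x hx)) (h.fml hx) (h.cut hx (hY.cut x hx)) (h.par hY hx)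

theorem isLev (h : Emb A B Y f) {x : On} (hx : x ∈ Y) : IsLev (f x) ↔ IsLev x := by
  exact and_congr (h.omega_le hx) (h.iff hx hx .lev).symm

/-- Codes are preserved (also the invalid ones). -/
theorem code (h : Emb A B Y f) (hY : DCl Y) {x : Loc} (h1 : x.l ∈ Y) (h2 : x.e ∈ Y)
    (h3 : ∀ a ∈ x.q, a ∈ Y) (h4 : code x ∈ Y) : code (x.map f) = f (code x) := by
  by_cases hv : IsLev x.l ∧ x.Valid
  · have a := h.D hY h4
    rw [D_code hv.1 hv.2] at a
    rw [← a, code_D ((h.omega_le h4).2 (omega_le_code hv.1 hv.2))]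
  · rw [code_invalid hv, h.zero hY.zero]
    refine code_invalid fun k => hv ⟨(h.isLev h1).1 k.1, (h.le h2 h1).1 k.2.1, fun a ha => ?_⟩
    exact (h.lt (h3 a ha) h1).1 (k.2.2 _ (List.mem_map_of_mem ha))

theorem ins (h : Emb A B Y f) (hY : DCl Y) {c ξ : On} (hc : c ∈ Y) (hξ : ξ ∈ Y)
    (h4 : ins c ξ ∈ Y) : ins (f c) (f ξ) = f (ins c ξ) := by
  have a := h.code hY (x := ⟨MP_fd3eaf_lc.lev c, MP_fd3eaf_lc.fml c, MP_fd3eaf_lc.cut c,
    ξ :: MP_fd3eaf_lc.par c⟩) (hY.lev c hc) (hY.cut c hc)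
    (fun a ha => (List.mem_cons.1 ha).elim (fun e => e ▸ hξ) (hY.par c hc a)) h4
  rw [MP_fd3eaf_lc.ins, h.lev hc (hY.lev c hc), h.fml hc, h.cut hc (hY.cut c hc), h.par hY hc]
  exact a

theorem subset (h : Emb A B Y f) {Z : Set On} (hZ : Z ⊆ Y) : Emb A B Z f :=
  fun x hx y hy => h x (hZ hx) y (hZ hy)

theorem comp {Z : Set On} (h : Emb A B Y f) (h' : Emb B C Z g) (hZ : ∀ x ∈ Y, f x ∈ Z) :
    Emb A C Y (g ∘ f) :=
  fun x hx y hy => (h x hx y hy).trans (h' _ (hZ x hx) _ (hZ y hy))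

theorem congr (h : Emb A B Y f) (e : ∀ x ∈ Y, f x = g x) : Emb A B Y g :=
  fun x hx y hy => e x hx ▸ e y hy ▸ h x hx y hy

/-- Changing the oracles outside the relevant range. -/
theorem congr_or {A' B' : Set On} (h : Emb A B Y f) (h1 : ∀ x ∈ Y, ∀ z ≤ x, z ∈ A ↔ z ∈ A')
    (h2 : ∀ x ∈ Y, ∀ z ≤ f x, z ∈ B ↔ z ∈ B') : Emb A' B' Y f :=
  fun x hx y hy => by rw [← tp_congr (h1 x hx), ← tp_congr (h2 x hx)]; exact h x hx y hy

end Emb

/-- `H` is closed under the functions of the machine inside `Λ`. -/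
structure Closed (A Λ H : Set On) : Prop where
  sub : H ⊆ Λ
  nat : ∀ n : ℕ, (n : On) ∈ H
  lev : ∀ c ∈ H, lev c ∈ H
  cut : ∀ c ∈ H, cut c ∈ H
  par : ∀ c ∈ H, ∀ a ∈ par c, a ∈ H
  sk : ∀ c ∈ H, sk A c ∈ H
  fo : ∀ c ∈ H, fo A c ∈ H
  new : ∀ l ∈ H, ∀ k, ∀ e ∈ H, new l k e ∈ Λ → new l k e ∈ H
  ins : ∀ c ∈ H, ∀ ξ ∈ H, ins c ξ ∈ Λ → ins c ξ ∈ H

namespace Closed
variable {A B Λ H : Set On}

theorem dcl (h : Closed A Λ H) : DCl H := ⟨by simpa using h.nat 0, h.lev, h.cut, h.par⟩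

theorem code (h : Closed A Λ H) (hΛ : IsLowerSet Λ) {x : Loc} (h1 : x.l ∈ H) (h2 : x.e ∈ H)
    (h3 : ∀ a ∈ x.q, a ∈ H) (h4 : code x ∈ Λ) : code x ∈ H := by
  by_cases hv : IsLev x.l ∧ x.Valid
  · obtain ⟨l, k, e, q⟩ := x
    obtain ⟨hl, hv⟩ := hv
    induction q with
    | nil => exact h.new l h1 k e h2 h4
    | cons a q ih =>
      have hq : (Loc.mk l k e q).Valid := ⟨hv.1, fun b hb => hv.2 b (List.mem_cons_of_mem _ hb)⟩
      have hlt : MP_fd3eaf_lc.code ⟨l, k, e, q⟩ < MP_fd3eaf_lc.code ⟨l, k, e, a :: q⟩ :=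
        (code_lt_code (x := ⟨l, k, e, q⟩) (y := ⟨l, k, e, a :: q⟩) hl hq hl hv).2
          (Or.inr ⟨rfl, Or.inr ⟨rfl, Or.inr ⟨rfl, Or.inl (Nat.lt_succ_self _)⟩⟩⟩)
      have m := ih h1 h2 (fun b hb => h3 b (List.mem_cons_of_mem _ hb)) (hΛ hlt.le h4) hl hq
      rw [← ins_code hl hq] at h4 ⊢
      exact h.ins _ m a (h3 a List.mem_cons_self) h4
  · rw [code_invalid hv]
    exact h.dcl.zero

theorem of_lower (hΛ : IsLowerSet Λ) (h : ∀ n : ℕ, (n : On) ∈ Λ) : Closed A Λ Λ := by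
  exact ⟨Subset.rfl, h, fun c hc => hΛ (lev_le c) hc, fun c hc => hΛ (cut_le c) hc,
    fun _ hc _ ha => hΛ (par_lt ha).le hc, fun c hc => hΛ ((wit_le _ c).trans (lev_le c)) hc,
    fun c hc => hΛ ((wit_le _ c).trans (lev_le c)) hc, fun _ _ _ _ _ k => k, fun _ _ _ _ k => k⟩

theorem congr (h : Closed A Λ H) (hΛ : IsLowerSet Λ) (e : ∀ x ∈ Λ, x ∈ A ↔ x ∈ B) :
    Closed B Λ H := by
  refine ⟨h.sub, h.nat, h.lev, h.cut, h.par, fun c hc => ?_, fun c hc => ?_, h.new, h.ins⟩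
  · rw [← sk_congr fun x hx => e x (hΛ hx.le (h.sub hc))]
    exact h.sk c hc
  · rw [← fo_congr fun x hx => e x (hΛ hx.le (h.sub hc))]
    exact h.fo c hc

theorem inter (h : Closed A Λ H) {Λ' : Set On} (hΛ' : IsLowerSet Λ') (h1 : Λ' ⊆ Λ)
    (hn : ∀ n : ℕ, (n : On) ∈ Λ') : Closed A Λ' (H ∩ Λ') := by
  have k : Closed A Λ' Λ' := of_lower hΛ' hn
  exact ⟨inter_subset_right, fun n => ⟨h.nat n, hn n⟩, fun c hc => ⟨h.lev c hc.1, k.lev c hc.2⟩,
    fun c hc => ⟨h.cut c hc.1, k.cut c hc.2⟩,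
    fun c hc a ha => ⟨h.par c hc.1 a ha, k.par c hc.2 a ha⟩,
    fun c hc => ⟨h.sk c hc.1, k.sk c hc.2⟩, fun c hc => ⟨h.fo c hc.1, k.fo c hc.2⟩,
    fun l hl n e he m => ⟨h.new l hl.1 n e he.1 (h1 m), m⟩,
    fun c hc ξ hξ m => ⟨h.ins c hc.1 ξ hξ.1 (h1 m), m⟩⟩

/-- A level may be added on top. -/
theorem insert_lev {l : On} (h : Closed A (Iio l) H) (hl : IsLev l) :
    Closed A (Iic l) (insert l H) := by
  have z : (0 : On) ∈ insert l H := Or.inr h.dcl.zero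
  have w : ∀ P : On → Prop, wit P l = 0 := fun P => by
    have e : {ξ | tg (fml l) = 11 ∧ ξ < MP_fd3eaf_lc.lev l ∧ ¬ P (inst l ξ)} = ∅ :=
      eq_empty_of_forall_notMem fun ξ hξ => by
        have a := hξ.1
        rw [fml, hl.D_eq] at a
        exact absurd a (by simp)
    rw [wit, e, Ordinal.sInf_empty]
  have m : ∀ {x}, x ∈ insert l H → x < l → x ∈ H := fun hx k => hx.resolve_left k.ne
  refine ⟨insert_subset self_mem_Iic (h.sub.trans Iio_subset_Iic_self), fun n => Or.inr (h.nat n),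
    ?_, ?_, ?_, ?_, ?_, fun l' hl' k e he hm => ?_, fun c hc ξ hξ hm => ?_⟩
  · rintro c (rfl | hc)
    · exact Or.inl hl.2
    · exact Or.inr (h.lev c hc)
  · rintro c (rfl | hc)
    · rw [MP_fd3eaf_lc.cut, hl.D_eq]
      exact z
    · exact Or.inr (h.cut c hc)
  · rintro c (rfl | hc) a ha
    · rw [MP_fd3eaf_lc.par, hl.D_eq] at ha
      exact absurd ha List.not_mem_nil
    · exact Or.inr (h.par c hc a ha)
  · rintro c (rfl | hc)
    · rw [MP_fd3eaf_lc.sk, w]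
      exact z
    · exact Or.inr (h.sk c hc)
  · rintro c (rfl | hc)
    · rw [MP_fd3eaf_lc.fo, w]
      exact z
    · exact Or.inr (h.fo c hc)
  · rcases (mem_Iic.1 hm).eq_or_lt with a | a
    · exact Or.inl a
    by_cases hv : IsLev l' ∧ (Loc.mk l' k e []).Valid
    · have b : l' < l := (le_code (x := ⟨l', k, e, []⟩) hv.1 hv.2).trans_lt a
      exact Or.inr (h.new l' (m hl' b) k e (m he (hv.2.1.trans_lt b)) a)
    · rw [MP_fd3eaf_lc.new, code_invalid (x := ⟨l', k, e, []⟩) hv]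
      exact z
  · rcases (mem_Iic.1 hm).eq_or_lt with a | a
    · exact Or.inl a
    by_cases hv : IsLev (MP_fd3eaf_lc.lev c) ∧ (Loc.mk (MP_fd3eaf_lc.lev c) (fml c)
      (MP_fd3eaf_lc.cut c) (ξ :: MP_fd3eaf_lc.par c)).Valid
    · have b0 : ξ < MP_fd3eaf_lc.lev c := hv.2.2 ξ List.mem_cons_self
      have b : c < l := (lt_ins (hv.1.1.trans (lev_le c)) b0).trans a
      exact Or.inr (h.ins c (m hc b) ξ (m hξ ((b0.trans_le (lev_le c)).trans b)) a)
    · rw [MP_fd3eaf_lc.ins, code_invalid (x := ⟨MP_fd3eaf_lc.lev c, fml c, MP_fd3eaf_lc.cut c,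
        ξ :: MP_fd3eaf_lc.par c⟩) hv]
      exact z

/-- Closed sets are pushed forward along embeddings into initial segments that do not contain
new codes. -/
theorem image {A' Λ' : Set On} {f : On → On} (h : Closed A Λ H) (hΛ : IsLowerSet Λ)
    (hf : Emb A A' H f) (h1 : ∀ x ∈ H, f x ∈ Λ')
    (h2 : ∀ x : Loc, x.l ∈ H → x.e ∈ H → (∀ a ∈ x.q, a ∈ H) → MP_fd3eaf_lc.code (x.map f) ∈ Λ' →
      MP_fd3eaf_lc.code x ∈ Λ) :
    Closed A' Λ' (f '' H) := by
  have k : ∀ x : Loc, x.l ∈ H → x.e ∈ H → (∀ a ∈ x.q, a ∈ H) →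
      MP_fd3eaf_lc.code (x.map f) ∈ Λ' → MP_fd3eaf_lc.code (x.map f) ∈ f '' H :=
    fun x a b c d => by
      have m := h.code hΛ a b c (h2 x a b c d)
      exact ⟨_, m, (hf.code h.dcl a b c m).symm⟩
  refine ⟨?_, fun n => ⟨n, h.nat n, hf.nat (h.nat n)⟩, ?_, ?_, ?_, ?_, ?_, ?_, ?_⟩
  · rintro _ ⟨x, hx, rfl⟩
    exact h1 x hx
  · rintro _ ⟨x, hx, rfl⟩
    exact ⟨_, h.lev x hx, (hf.lev hx (h.lev x hx)).symm⟩
  · rintro _ ⟨x, hx, rfl⟩
    exact ⟨_, h.cut x hx, (hf.cut hx (h.cut x hx)).symm⟩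
  · rintro _ ⟨x, hx, rfl⟩ a ha
    rw [hf.par h.dcl hx] at ha
    obtain ⟨b, hb, rfl⟩ := List.mem_map.1 ha
    exact ⟨b, h.par x hx b hb, rfl⟩
  · rintro _ ⟨x, hx, rfl⟩
    exact ⟨_, h.sk x hx, (hf.sk hx (h.sk x hx)).symm⟩
  · rintro _ ⟨x, hx, rfl⟩
    exact ⟨_, h.fo x hx, (hf.fo hx (h.fo x hx)).symm⟩
  · rintro _ ⟨l, hl, rfl⟩ n _ ⟨e, he, rfl⟩ m
    exact k ⟨l, n, e, []⟩ hl he (fun a ha => absurd ha List.not_mem_nil) m
  · rintro _ ⟨c, hc, rfl⟩ _ ⟨ξ, hξ, rfl⟩ m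
    rw [MP_fd3eaf_lc.ins, hf.lev hc (h.lev c hc), hf.fml hc, hf.cut hc (h.cut c hc),
      hf.par h.dcl hc] at m ⊢
    exact k ⟨MP_fd3eaf_lc.lev c, fml c, MP_fd3eaf_lc.cut c, ξ :: MP_fd3eaf_lc.par c⟩ (h.lev c hc)
      (h.cut c hc) (fun a ha => (List.mem_cons.1 ha).elim (fun e => e ▸ hξ) (h.par c hc a)) m

theorem iUnion {ι : Sort*} [Nonempty ι] {Hs : ι → Set On} (h : ∀ i, Closed A Λ (Hs i))
    (hd : Directed (· ⊆ ·) Hs) : Closed A Λ (⋃ i, Hs i) := by
  have u : ∀ {g : On → On}, (∀ i, ∀ c ∈ Hs i, g c ∈ Hs i) →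
      ∀ c ∈ ⋃ i, Hs i, g c ∈ ⋃ i, Hs i := fun k c hc => by
    obtain ⟨i, hi⟩ := mem_iUnion.1 hc
    exact mem_iUnion.2 ⟨i, k i c hi⟩
  have v : ∀ {x y : On}, x ∈ ⋃ i, Hs i → y ∈ ⋃ i, Hs i → ∃ i, x ∈ Hs i ∧ y ∈ Hs i :=
    fun hx hy => by
      obtain ⟨i, hi⟩ := mem_iUnion.1 hx
      obtain ⟨j, hj⟩ := mem_iUnion.1 hy
      obtain ⟨k, a, b⟩ := hd i j
      exact ⟨k, a hi, b hj⟩
  refine ⟨iUnion_subset fun i => (h i).sub,
    fun n => mem_iUnion.2 ⟨Classical.arbitrary ι, (h _).nat n⟩, u fun i => (h i).lev,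
    u fun i => (h i).cut, fun c hc a ha => ?_, u fun i => (h i).sk, u fun i => (h i).fo,
    fun l hl k e he m => ?_, fun c hc ξ hξ m => ?_⟩
  · obtain ⟨i, hi⟩ := mem_iUnion.1 hc
    exact mem_iUnion.2 ⟨i, (h i).par c hi a ha⟩
  · obtain ⟨i, a, b⟩ := v hl he
    exact mem_iUnion.2 ⟨i, (h i).new l a k e b m⟩
  · obtain ⟨i, a, b⟩ := v hc hξ
    exact mem_iUnion.2 ⟨i, (h i).ins c a ξ b m⟩

end Closed

section condb
variable {A Λ H Λ' : Set On} {f : On → On}

/-- All entries of the location lie in `S`. -/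
def condbIn (S : Set On) (x : Loc) : Prop := x.l ∈ S ∧ x.e ∈ S ∧ ∀ a ∈ x.q, a ∈ S

theorem condb_in_D (hΛ' : IsLowerSet Λ') {c : On} (hc : c ∈ Λ') : condbIn Λ' (D c) :=
  ⟨hΛ' (lev_le c) hc, hΛ' (cut_le c) hc, fun _ ha => hΛ' (par_lt ha).le hc⟩

theorem condb_inj (hf : StrictMonoOn f Λ') {x y : Loc} (hx : condbIn Λ' x) (hy : condbIn Λ' y)
    (h : x.map f = y.map f) : x = y := by
  rcases Loc.lt_tri x y with k | k | k
  · exact absurd (h ▸ (Loc.map_lt hf hx hy).2 k) (Loc.lt_irrefl _)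
  · exact k
  · exact absurd (h ▸ (Loc.map_lt hf hy hx).2 k) (Loc.lt_irrefl _)

theorem condb_valid (hf : StrictMonoOn f Λ') {x : Loc} (hx : condbIn Λ' x) :
    (x.map f).Valid ↔ x.Valid :=
  and_congr (hf.le_iff_le hx.2.1 hx.1) (List.forall_mem_map.trans
    (forall₂_congr fun a ha => hf.lt_iff_lt (hx.2.2 a ha) hx.1))

theorem condb_le (hΛ' : IsLowerSet Λ') (hf : StrictMonoOn f Λ') : ∀ x ∈ Λ', x ≤ f x := by
  intro x
  induction x using WellFoundedLT.induction with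
  | ind x ih =>
    intro hx
    by_contra k
    have k := not_le.1 k
    have m := hΛ' k.le hx
    exact (ih _ k m).not_gt (hf m hx k)

theorem condb_nat (hH : Closed A Λ H) (hΛ' : IsLowerSet Λ') (hf : StrictMonoOn f Λ')
    (him : f '' Λ' = H) (n : ℕ) : (n : On) ∈ Λ' ∧ f n = n := by
  induction n using Nat.strong_induction_on with
  | _ n ih =>
    obtain ⟨x, hx, e⟩ : (n : On) ∈ f '' Λ' := him ▸ hH.nat n
    rcases ((condb_le hΛ' hf x hx).trans_eq e).eq_or_lt with k | k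
    · exact k ▸ ⟨hx, e.trans k.symm⟩
    · obtain ⟨m, rfl⟩ := lt_omega0.1 (k.trans (natCast_lt_omega0 n))
      exact absurd ((ih m (Nat.cast_lt.1 k)).2.symm.trans e) k.ne

theorem condb_omega (hH : Closed A Λ H) (hΛ' : IsLowerSet Λ') (hf : StrictMonoOn f Λ')
    (him : f '' Λ' = H) {x : On} (hx : x ∈ Λ') : ω ≤ f x ↔ ω ≤ x := by
  refine ⟨fun h => not_lt.1 fun k => ?_, fun h => h.trans (condb_le hΛ' hf x hx)⟩
  obtain ⟨m, rfl⟩ := lt_omega0.1 k
  rw [(condb_nat hH hΛ' hf him m).2] at h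
  exact h.not_gt k

theorem condb_D (hΛ : IsLowerSet Λ) (hH : Closed A Λ H) (hΛ' : IsLowerSet Λ')
    (hf : StrictMonoOn f Λ') (him : f '' Λ' = H) : ∀ c ∈ Λ', D (f c) = (D c).map f := by
  have hm : ∀ c ∈ Λ', f c ∈ H := fun c hc => him ▸ mem_image_of_mem f hc
  have ho := @condb_omega _ _ _ _ _ hH hΛ' hf him
  have h0 : (0 : On) ∈ Λ' ∧ f 0 = 0 := by simpa using condb_nat hH hΛ' hf him 0
  have hg : ∀ h ∈ H, Function.invFunOn f Λ' h ∈ Λ' ∧ f (Function.invFunOn f Λ' h) = h :=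
    fun h k => Function.invFunOn_pos (him ▸ k : h ∈ f '' Λ')
  obtain ⟨F, hF⟩ : ∃ F : On → Loc, ∀ c ∈ Λ', condbIn Λ' (F c) ∧ (F c).map f = D (f c) := by
    refine ⟨fun c => (D (f c)).map (Function.invFunOn f Λ'), fun c hc => ?_⟩
    have a1 := hg _ (hH.lev _ (hm c hc))
    have a2 := hg _ (hH.cut _ (hm c hc))
    have a3 := fun a ha => hg a (hH.par _ (hm c hc) a ha)
    refine ⟨⟨a1.1, a2.1, List.forall_mem_map.2 fun a ha => (a3 a ha).1⟩,
      Loc.ext a1.2 rfl a2.2 ?_⟩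
    exact List.map_map.trans ((List.map_congr_left fun a ha => (a3 a ha).2).trans (List.map_id _))
  have hl : ∀ c ∈ Λ', f (F c).l = lev (f c) := fun c hc => congrArg Loc.l (hF c hc).2
  have hv : ∀ c ∈ Λ', (F c).Valid := fun c hc =>
    (condb_valid hf (hF c hc).1).1 ((hF c hc).2 ▸ valid_D _)
  have pull : ∀ c ∈ Λ', ω ≤ c → ∀ x : Loc, condbIn Λ' x → IsLev (f x.l) → x.Valid → x.lt (F c) →
      ∃ d, ω ≤ d ∧ d < c ∧ F d = x := fun c hc hω x a1 a2 a3 a4 => by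
    have b1 := (condb_valid hf a1).2 a3
    have b2 : ω ≤ code (x.map f) := omega_le_code a2 b1
    have b3 : code (x.map f) < f c := by
      rw [← D_lt_iff b2 ((ho hc).2 hω), D_code (x := x.map f) a2 b1, ← (hF c hc).2]
      exact (Loc.map_lt hf a1 (hF c hc).1).2 a4
    obtain ⟨d, hd, e⟩ : code (x.map f) ∈ f '' Λ' := him ▸ hH.code hΛ (hm _ a1.1) (hm _ a1.2.1)
      (List.forall_mem_map.2 fun a ha => hm a (a1.2.2 a ha)) (hΛ b3.le (hH.sub (hm c hc)))
    exact ⟨d, (ho hd).1 (e ▸ b2), (hf.lt_iff_lt hd hc).1 (e ▸ b3),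
      condb_inj hf (hF d hd).1 a1 (by rw [(hF d hd).2, e, D_code (x := x.map f) a2 b1])⟩
  have good : Good Λ' F := by
    refine ⟨fun c hc hω => ?_, fun c hc d hd hω h => ?_,
      fun c hc hω l k e a1 a2 a3 a4 a5 => ?_, fun c hc hω d a1 a2 ξ a3 a4 => ?_⟩
    · have a1 := (hF c hc).1.1
      have a2 := isLev_lev ((ho hc).2 hω)
      refine ⟨hv c hc, (ho a1).1 (hl c hc ▸ a2.1), (hf.le_iff_le a1 hc).1 (hl c hc ▸ lev_le _),
        condb_inj hf (hF _ a1).1 ⟨a1, h0.1, fun _ k => absurd k List.not_mem_nil⟩ ?_⟩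
      rw [(hF _ a1).2, hl c hc, a2.D_eq]
      exact Loc.ext (hl c hc).symm rfl h0.2.symm rfl
    · rw [← Loc.map_lt hf (hF c hc).1 (hF d hd).1, (hF c hc).2, (hF d hd).2,
        D_lt_iff ((ho hc).2 hω) ((ho hd).2 (hω.trans h.le))]
      exact hf hc hd h
    · have b1 := hΛ' a2 hc
      exact pull c hc hω _ ⟨b1, hΛ' a4 b1, fun _ k => absurd k List.not_mem_nil⟩
        ⟨(ho b1).2 a1, by rw [← hl l b1, a3]⟩ ⟨a4, fun _ k => absurd k List.not_mem_nil⟩ a5
    · have b1 := hΛ' a2.le hc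
      have b2 := (hF d b1).1
      exact pull c hc hω _
        ⟨b2.1, b2.2.1, List.forall_mem_cons.2 ⟨hΛ' a3.le b2.1, b2.2.2⟩⟩
        (hl d b1 ▸ isLev_lev ((ho b1).2 a1)) (machb_valid (hv d b1) a3) a4
  intro c hc
  rcases lt_or_ge c ω with k | k
  · rw [D_small k, D_small (not_le.1 fun m => k.not_ge ((ho hc).1 m))]
    exact Loc.ext h0.2.symm rfl h0.2.symm rfl
  · rw [← good.unique hΛ' c hc k, (hF c hc).2]

theorem condb_code (hΛ' : IsLowerSet Λ') (hf : StrictMonoOn f Λ') (h0 : f 0 = 0)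
    (ho : ∀ x ∈ Λ', ω ≤ f x ↔ ω ≤ x) (hD : ∀ c ∈ Λ', D (f c) = (D c).map f) {x : Loc}
    (hx : condbIn Λ' x) (h : code x ∈ Λ') : code (x.map f) = f (code x) := by
  by_cases k : IsLev x.l ∧ x.Valid
  · rw [← code_D ((ho _ h).2 (omega_le_code k.1 k.2)), hD _ h, D_code k.1 k.2]
  · rw [code_invalid k, h0]
    refine code_invalid fun a => k ⟨⟨(ho _ hx.1).1 a.1.1, ?_⟩, (condb_valid hf hx).1 a.2⟩
    exact hf.injOn (hΛ' (lev_le _) hx.1) hx.1
      ((congrArg Loc.l (hD _ hx.1)).symm.trans a.1.2)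

theorem condb_inst (hΛ' : IsLowerSet Λ') (hf : StrictMonoOn f Λ') (h0 : f 0 = 0)
    (ho : ∀ x ∈ Λ', ω ≤ f x ↔ ω ≤ x) (hD : ∀ c ∈ Λ', D (f c) = (D c).map f) {c ξ : On}
    (hc : c ∈ Λ') (hξ : ξ ∈ Λ') (h : tg (fml c) = 11) : inst (f c) (f ξ) = f (inst c ξ) := by
  have a := condb_in_D hΛ' hc
  rw [inst, inst, ← condb_code hΛ' hf h0 ho hD (x := ⟨lev c, oa (fml c), cut c, ξ :: par c⟩)
    ⟨a.1, a.2.1, List.forall_mem_cons.2 ⟨hξ, a.2.2⟩⟩ (hΛ' (inst_lt ξ (by omega)).le hc),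
    lev, fml, cut, par, hD c hc]
  rfl

/-- Counterexamples are reflected. -/
theorem condb_back (hΛ' : IsLowerSet Λ') (hf : StrictMonoOn f Λ') (h0 : f 0 = 0)
    (ho : ∀ x ∈ Λ', ω ≤ f x ↔ ω ≤ x) (hD : ∀ c ∈ Λ', D (f c) = (D c).map f) {P : On → Prop}
    {c ξ : On} (hc : c ∈ Λ') (hw : wit P (f c) ∈ f '' Λ') (h : tg (fml c) = 11)
    (h1 : ξ < lev (f c)) (h2 : ¬ P (inst (f c) ξ)) :
    ∃ u, f u = wit P (f c) ∧ u < lev c ∧ ¬ P (f (inst c u)) := by
  obtain ⟨u, hu, e⟩ := hw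
  have a1 : fml (f c) = fml c := (congrArg Loc.k (hD c hc) :)
  have a2 : lev (f c) = f (lev c) := congrArg Loc.l (hD c hc)
  obtain ⟨b1, b2⟩ := wit_spec (a1 ▸ h) h1 h2
  refine ⟨u, e, (hf.lt_iff_lt hu (hΛ' (lev_le c) hc)).1 (e ▸ a2 ▸ b1.trans_lt h1), ?_⟩
  rwa [← condb_inst hΛ' hf h0 ho hD hc hu h, e]

theorem condb_wit (hΛ' : IsLowerSet Λ') (hf : StrictMonoOn f Λ') (h0 : f 0 = 0)
    (ho : ∀ x ∈ Λ', ω ≤ f x ↔ ω ≤ x) (hD : ∀ c ∈ Λ', D (f c) = (D c).map f) {P : On → Prop}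
    {c : On} (hc : c ∈ Λ') (hw : wit P (f c) ∈ f '' Λ') :
    wit P (f c) = f (wit (fun d => P (f d)) c) := by
  have a1 : fml (f c) = fml c := (congrArg Loc.k (hD c hc) :)
  have a2 : lev (f c) = f (lev c) := congrArg Loc.l (hD c hc)
  have hl := hΛ' (lev_le c) hc
  rcases {ξ | tg (fml c) = 11 ∧ ξ < lev c ∧ ¬ P (f (inst c ξ))}.eq_empty_or_nonempty with k | k
  · have k2 : {ξ | tg (fml (f c)) = 11 ∧ ξ < lev (f c) ∧ ¬ P (inst (f c) ξ)} = ∅ :=
      eq_empty_of_forall_notMem fun ξ ⟨b1, b2, b3⟩ =>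
        let ⟨u, _, c1, c2⟩ := condb_back hΛ' hf h0 ho hD hc hw (a1 ▸ b1) b2 b3
        k.subset (show u ∈ _ from ⟨a1 ▸ b1, c1, c2⟩)
    rw [wit, wit, k, k2, Ordinal.sInf_empty, h0]
  · obtain ⟨b1, b2, b3⟩ := csInf_mem k
    change wit (fun d => P (f d)) c < _ at b2
    change ¬ P (f (inst c (wit (fun d => P (f d)) c))) at b3
    have b4 := hΛ' b2.le hl
    rw [← condb_inst hΛ' hf h0 ho hD hc b4 b1] at b3
    have b5 : f (wit (fun d => P (f d)) c) < lev (f c) := a2 ▸ hf b4 hl b2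
    obtain ⟨u, e, c1, c2⟩ := condb_back hΛ' hf h0 ho hD hc hw b1 b5 b3
    refine le_antisymm (wit_spec (a1 ▸ b1) b5 b3).1 (e ▸ hf.monotoneOn b4 (hΛ' c1.le hl) ?_)
    exact (wit_spec (P := fun d => P (f d)) b1 c1 c2).1

theorem condb_T (hΛ' : IsLowerSet Λ') (hf : StrictMonoOn f Λ')
    (hn : ∀ n : ℕ, (n : On) ∈ Λ' ∧ f n = n) (ho : ∀ x ∈ Λ', ω ≤ f x ↔ ω ≤ x)
    (hD : ∀ c ∈ Λ', D (f c) = (D c).map f) (hw : ∀ c ∈ Λ', sk A (f c) ∈ f '' Λ') :
    ∀ c ∈ Λ', T A (f c) ↔ T (f ⁻¹' A) c := by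
  have h0 : (0 : On) ∈ Λ' ∧ f 0 = 0 := by simpa using hn 0
  have a1 : ∀ c ∈ Λ', fml (f c) = fml c := fun c hc => (congrArg Loc.k (hD c hc) :)
  have a2 : ∀ c ∈ Λ', lev (f c) = f (lev c) := fun c hc => congrArg Loc.l (hD c hc)
  have a3 : ∀ c ∈ Λ', cut (f c) = f (cut c) := fun c hc => congrArg Loc.e (hD c hc)
  have a4 : ∀ c ∈ Λ', par (f c) = (par c).map f := fun c hc => congrArg Loc.q (hD c hc)
  have hr : ∀ c ∈ Λ', ∀ a < fml c, rfm (f c) a = f (rfm c a) := fun c hc a ha => by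
    rw [rfm, rfm, ← condb_code hΛ' hf h0.2 ho hD (x := ⟨lev c, a, cut c, par c⟩)
      (condb_in_D hΛ' hc) (hΛ' (rfm_lt ha).le hc), a2 c hc, a3 c hc, a4 c hc]
    rfl
  refine T_unique (P := fun c => T A (f c)) hΛ' (fun c hc h => ?_) (fun c hc h => ?_)
    (fun c hc h => ?_) fun c hc h1 h2 h3 => ?_
  · rw [T_neg (a1 c hc ▸ h), a1 c hc, hr c hc _ (oa_lt (by omega))]
  · rw [T_and (a1 c hc ▸ h), a1 c hc, hr c hc _ (oa_lt (by omega)), hr c hc _ (ob_lt (by omega))]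
  · have hl := hΛ' (lev_le c) hc
    rw [T_all (a1 c hc ▸ h)]
    refine ⟨fun k ξ hξ => ?_, fun k ξ hξ => by_contra fun m => ?_⟩
    · rw [← condb_inst hΛ' hf h0.2 ho hD hc (hΛ' hξ.le hl) h]
      exact k _ (a2 c hc ▸ hf (hΛ' hξ.le hl) hl hξ)
    · obtain ⟨u, -, c1, c2⟩ := condb_back hΛ' hf h0.2 ho hD hc (hw c hc) h hξ m
      exact c2 (k u c1)
  · have hc' := condb_in_D hΛ' hc
    have hv := lv_mem h0.1 hc'.2.2
    rw [T_atom (a1 c hc ▸ h1) (a1 c hc ▸ h2) (a1 c hc ▸ h3), a1 c hc, a3 c hc, a4 c hc,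
      lv_map h0.2]
    simp only [Function.comp_apply]
    have hx := hv (oa (fml c))
    have hy := hv (ob (fml c))
    have hz := hv (oc (fml c))
    change lv (par c) _ ∈ _ at hx hy hz
    generalize lv (par c) (oa (fml c)) = x at hx ⊢
    generalize lv (par c) (ob (fml c)) = y at hy ⊢
    generalize lv (par c) (oc (fml c)) = z at hz ⊢
    have hx' := condb_in_D hΛ' hx
    have e1 : cut x ∈ Λ' := hx'.2.1
    have e2 : cut c ∈ Λ' := hc'.2.1
    have e3 : lev x ∈ Λ' := hx'.1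
    have b1 : (fml x : On) = f y ↔ (fml x : On) = y := by
      rw [← hf.injOn.eq_iff (hn _).1 hy, (hn _).2]
    have b2 : (par z).map f = f y :: (par x).map f ↔ par z = y :: par x := by
      refine ⟨fun k => ?_, fun k => by rw [k, List.map_cons]⟩
      exact congrArg Loc.q (condb_inj hf (x := ⟨0, 0, 0, par z⟩) (y := ⟨0, 0, 0, y :: par x⟩)
        ⟨h0.1, h0.1, (condb_in_D hΛ' hz).2.2⟩ ⟨h0.1, h0.1, List.forall_mem_cons.2 ⟨hy, hx'.2.2⟩⟩
        (Loc.ext rfl rfl rfl k))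
    have b3 : rct (f x) (min (f (cut x)) (f (cut c))) = f (rct x (min (cut x) (cut c))) := by
      rw [rct, rct, ← condb_code hΛ' hf h0.2 ho hD
        (x := ⟨lev x, fml x, min (cut x) (cut c), par x⟩)
        ⟨hx'.1, hΛ' (min_le_left _ _) hx'.2.1, hx'.2.2⟩ (hΛ' (rct_le (min_le_left _ _)) hx),
        a1 x hx, a2 x hx, a4 x hx, ← hf.monotoneOn.map_min e1 e2]
      rfl
    have b4 : lv ((par x).map f) (fml y) = f z ↔ lv (par x) (fml y) = z := by
      rw [lv_map h0.2]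
      exact hf.injOn.eq_iff (lv_mem h0.1 hx'.2.2 _) hz
    simp only [Atom, mem_inter_iff, mem_Iio, mem_preimage]
    rw [a1 x hx, a1 y hy, a1 z hz, a2 x hx, a3 x hx, a4 x hx, a4 z hz, b1, b2, b3, b4,
      List.length_map, hf.lt_iff_lt hx hy,
      hf.lt_iff_lt hx e2, hf.injOn.eq_iff e3 hy, hf.injOn.eq_iff e1 hy]

end condb

/-- Condensation.  Hint: pull `D` back along `f` and use `Good.unique`; then strong induction with
`T_unique` (the witness `sk A (f c)` lies in `H`); then `wit`. -/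
theorem cond {A Λ H Λ' : Set On} {f : On → On} (hΛ : IsLowerSet Λ) (hH : Closed A Λ H)
    (hΛ' : IsLowerSet Λ') (hf : StrictMonoOn f Λ') (him : f '' Λ' = H) :
    Emb (f ⁻¹' A) A Λ' f := by
  have hm : ∀ c ∈ Λ', f c ∈ H := fun c hc => him ▸ mem_image_of_mem f hc
  have hn := condb_nat hH hΛ' hf him
  have ho : ∀ x ∈ Λ', ω ≤ f x ↔ ω ≤ x := fun _ => condb_omega hH hΛ' hf him
  have h0 : (0 : On) ∈ Λ' ∧ f 0 = 0 := by simpa using hn 0
  have hD := condb_D hΛ hH hΛ' hf him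
  have hw : ∀ c ∈ Λ', sk A (f c) ∈ f '' Λ' := fun c hc => him ▸ hH.sk _ (hm c hc)
  have hT := condb_T hΛ' hf hn ho hD hw
  intro x hx y hy
  have hx' := condb_in_D hΛ' hx
  have key : ∀ {a b : On}, a ∈ Λ' → b = f a → (a = y) = (b = f y) := fun ha e =>
    propext (e ▸ (hf.injOn.eq_iff ha hy).symm)
  funext i
  cases i with
  | lt => exact propext (hf.lt_iff_lt hx hy).symm
  | lev => exact key hx'.1 (congrArg Loc.l (hD x hx))
  | cut => exact key hx'.2.1 (congrArg Loc.e (hD x hx))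
  | sk =>
    refine key (hΛ' (wit_le _ _) hx'.1) ((condb_wit hΛ' hf h0.2 ho hD hx (hw x hx)).trans ?_)
    exact congrArg f (wit_congr fun d hd => hT d (hΛ' hd.le hx))
  | fo =>
    exact key (hΛ' (wit_le _ _) hx'.1)
      (condb_wit hΛ' hf h0.2 ho hD hx (him ▸ hH.fo _ (hm x hx)))
  | or => rfl
  | tr => exact propext (hT x hx).symm
  | par i =>
    refine key (lv_mem h0.1 hx'.2.2 i) ?_
    rw [show par (f x) = (par x).map f from congrArg Loc.q (hD x hx), lv_map h0.2]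
    rfl
  | fml n => exact congrArg (· = n) (congrArg Loc.k (hD x hx)).symm
  | len n =>
    exact congrArg (· = n) ((congrArg (fun z : Loc => z.q.length) (hD x hx)).trans
      (List.length_map _)).symm
  | nat n =>
    refine propext ((hf.injOn.eq_iff hx (hn n).1).symm.trans ?_)
    rw [(hn n).2]
    rfl

/-- The uncollapse of a subset of `η`; it sends the order type of `H` to `η`. -/
noncomputable def col (H : Set On) (η : On) : On → On := enumOrd (H ∪ Ici η)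

/-- The order type of `H ∩ η`. -/
noncomputable def otp (H : Set On) (η : On) : On := sInf {x | η ≤ col H η x}

section col
variable {H : Set On} {η : On}

theorem condb_unb : ¬ BddAbove (H ∪ Ici η) := fun h =>
  not_bddAbove_Ici η (h.mono subset_union_right)

theorem condb_mem {x : On} (h : col H η x < η) : col H η x ∈ H :=
  (enumOrd_mem condb_unb x).elim id fun k => absurd h (not_lt.2 k)

theorem col_strictMono : StrictMono (col H η) := enumOrd_strictMono condb_unb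

theorem col_otp : col H η (otp H η) = η := by
  obtain ⟨a, ha⟩ := enumOrd_surjective (condb_unb (H := H) (η := η)) (Or.inr self_mem_Ici)
  have m : a ∈ {x | η ≤ col H η x} := ha.ge
  exact le_antisymm ((col_strictMono.monotone (csInf_le' m)).trans_eq ha) (csInf_mem ⟨a, m⟩)

theorem col_lt_iff {x : On} : col H η x < η ↔ x < otp H η := by
  rw [← (col_strictMono (H := H) (η := η)).lt_iff_lt (a := x), col_otp]

theorem col_image : col H η '' Iio (otp H η) = H ∩ Iio η := by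
  refine Set.ext fun y => ⟨?_, fun ⟨h1, h2⟩ => ?_⟩
  · rintro ⟨x, hx, rfl⟩
    exact ⟨condb_mem (col_lt_iff.2 hx), col_lt_iff.2 hx⟩
  · obtain ⟨a, ha⟩ := enumOrd_surjective (condb_unb (H := H) (η := η)) (Or.inl h1)
    exact ⟨a, col_lt_iff.1 (ha.trans_lt h2), ha⟩

theorem otp_le : otp H η ≤ η := col_strictMono.le_apply.trans_eq col_otp

theorem col_fix {μ : On} (h : Iio μ ⊆ H) {x : On} (hx : x < μ) : col H η x = x := by
  induction x using WellFoundedLT.induction with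
  | ind x ih =>
    exact le_antisymm (enumOrd_le_of_forall_lt (Or.inl (h hx)) fun b hb =>
      (ih b hb (hb.trans hx)).trans_lt hb) col_strictMono.le_apply

theorem card_otp (h : H ⊆ Iio η) :
    Cardinal.lift.{1} (otp H η).card = Cardinal.mk H := by
  rw [← Cardinal.mk_Iio_ordinal, ← Cardinal.mk_image_eq_of_injOn (col H η) _
    col_strictMono.injective.injOn, col_image, inter_eq_left.2 h]

/-- Uniqueness of the collapse. -/
theorem eq_col {f : On → On} {ρ : On} (hf : StrictMonoOn f (Iio ρ)) (him : f '' Iio ρ = H)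
    (h : H ⊆ Iio η) : ρ = otp H η ∧ ∀ x < ρ, f x = col H η x := by
  have hm : ∀ x < ρ, f x ∈ H := fun x hx => him ▸ mem_image_of_mem f hx
  have key : ∀ x < ρ, f x = col H η x := fun x => by
    induction x using WellFoundedLT.induction with
    | ind x ih =>
      intro hx
      have a1 : col H η x ≤ f x := enumOrd_le_of_forall_lt (Or.inl (hm x hx)) fun b hb =>
        (ih b hb (hb.trans hx)).symm.trans_lt (hf (hb.trans hx) hx hb)
      obtain ⟨y, hy, e⟩ : col H η x ∈ f '' Iio ρ := him.ge (condb_mem (a1.trans_lt (h (hm x hx))))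
      refine le_antisymm (e ▸ hf.monotoneOn hx hy (not_lt.1 fun k => ?_)) a1
      exact (col_strictMono k).ne ((ih y k hy).symm.trans e)
  refine ⟨le_antisymm (le_of_forall_lt fun x hx => col_lt_iff.1 (key x hx ▸ h (hm x hx)))
    (not_lt.1 fun k => ?_), key⟩
  obtain ⟨y, hy, e⟩ : col H η ρ ∈ f '' Iio ρ := him.ge (condb_mem (col_lt_iff.2 k))
  exact (col_strictMono hy).ne ((key y hy).symm.trans e)

theorem cond_col {A : Set On} (hH : Closed A (Iio η) H) :
    Emb (col H η ⁻¹' A) A (Iio (otp H η)) (col H η) :=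
  cond (isLowerSet_Iio η) hH (isLowerSet_Iio _) (col_strictMono.strictMonoOn _)
    (col_image.trans (inter_eq_left.2 hH.sub))

/-- The collapse of a level is a level. -/
theorem isLev_otp {A : Set On} (hH : Closed A (Iio η) H) (hη : IsLev η) : IsLev (otp H η) := by
  have e : col H η '' Iic (otp H η) = insert η H := by
    rw [← Iio_insert, image_insert_eq, col_otp, col_image, inter_eq_left.2 hH.sub]
  have k := cond (isLowerSet_Iic η) (hH.insert_lev hη) (isLowerSet_Iic _)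
    (col_strictMono.strictMonoOn _) e
  exact (k.isLev self_mem_Iic).1 (col_otp.symm ▸ hη)

end col

/-- Terms of the machine. -/
inductive Tm : Type
  | var (i : ℕ) | nat (n : ℕ) | lev (t : Tm) | cut (t : Tm) | par (i : ℕ) (t : Tm)
  | sk (t : Tm) | fo (t : Tm) | new (s : Tm) (k : ℕ) (t : Tm) | ins (s t : Tm)

def condc_enc : Tm → ℕ
  | .var i => Nat.pair 0 i
  | .nat n => Nat.pair 1 n
  | .lev t => Nat.pair 2 (condc_enc t)
  | .cut t => Nat.pair 3 (condc_enc t)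
  | .par i t => Nat.pair 4 (Nat.pair i (condc_enc t))
  | .sk t => Nat.pair 5 (condc_enc t)
  | .fo t => Nat.pair 6 (condc_enc t)
  | .new s k t => Nat.pair 7 (Nat.pair (condc_enc s) (Nat.pair k (condc_enc t)))
  | .ins s t => Nat.pair 8 (Nat.pair (condc_enc s) (condc_enc t))

theorem condc_inj : Function.Injective condc_enc := by
  intro s t h
  induction s generalizing t with
  | var i => cases t <;> simp_all [condc_enc, Nat.pair_eq_pair]
  | nat n => cases t <;> simp_all [condc_enc, Nat.pair_eq_pair]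
  | lev s ih => cases t <;> simp [condc_enc, Nat.pair_eq_pair] at h; rw [ih h]
  | cut s ih => cases t <;> simp [condc_enc, Nat.pair_eq_pair] at h; rw [ih h]
  | par i s ih => cases t <;> simp [condc_enc, Nat.pair_eq_pair] at h; rw [ih h.2, h.1]
  | sk s ih => cases t <;> simp [condc_enc, Nat.pair_eq_pair] at h; rw [ih h]
  | fo s ih => cases t <;> simp [condc_enc, Nat.pair_eq_pair] at h; rw [ih h]
  | new s k s' ih ih' =>
    cases t <;> simp [condc_enc, Nat.pair_eq_pair] at h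
    rw [ih h.1, h.2.1, ih' h.2.2]
  | ins s s' ih ih' =>
    cases t <;> simp [condc_enc, Nat.pair_eq_pair] at h
    rw [ih h.1, ih' h.2]

instance : Countable Tm := by
  exact condc_inj.countable

noncomputable def ev (A : Set On) (v : ℕ → On) : Tm → On
  | .var i => v i
  | .nat n => n
  | .lev t => lev (ev A v t)
  | .cut t => cut (ev A v t)
  | .par i t => lv (par (ev A v t)) i
  | .sk t => sk A (ev A v t)
  | .fo t => fo A (ev A v t)
  | .new s k t => new (ev A v s) k (ev A v t)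
  | .ins s t => ins (ev A v s) (ev A v t)

/-- The evaluation stays in `Λ`. -/
def ok (A Λ : Set On) (v : ℕ → On) : Tm → Prop
  | .var i => v i ∈ Λ
  | .nat _ => True
  | .lev t => ok A Λ v t
  | .cut t => ok A Λ v t
  | .par _ t => ok A Λ v t
  | .sk t => ok A Λ v t
  | .fo t => ok A Λ v t
  | .new s k t => ok A Λ v s ∧ ok A Λ v t ∧ new (ev A v s) k (ev A v t) ∈ Λ
  | .ins s t => ok A Λ v s ∧ ok A Λ v t ∧ ins (ev A v s) (ev A v t) ∈ Λ

/-- All variables of the term satisfy `p`. -/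
def Tm.vars (p : ℕ → Prop) : Tm → Prop
  | .var i => p i
  | .nat _ => True
  | .lev t => t.vars p
  | .cut t => t.vars p
  | .par _ t => t.vars p
  | .sk t => t.vars p
  | .fo t => t.vars p
  | .new s _ t => s.vars p ∧ t.vars p
  | .ins s t => s.vars p ∧ t.vars p

def Tm.ren (g : ℕ → ℕ) : Tm → Tm
  | .var i => .var (g i)
  | .nat n => .nat n
  | .lev t => .lev (t.ren g)
  | .cut t => .cut (t.ren g)
  | .par i t => .par i (t.ren g)
  | .sk t => .sk (t.ren g)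
  | .fo t => .fo (t.ren g)
  | .new s k t => .new (s.ren g) k (t.ren g)
  | .ins s t => .ins (s.ren g) (t.ren g)

section terms
variable {A B Λ : Set On} {v w : ℕ → On} {t : Tm}

theorem condc_mono {p q : ℕ → Prop} (h : ∀ i, p i → q i) (ht : t.vars p) : t.vars q := by
  induction t with
  | var i => exact h i ht
  | nat n => trivial
  | lev t ih | cut t ih | par _ t ih | sk t ih | fo t ih => exact ih ht
  | new s _ t ih ih' | ins s t ih ih' => exact ⟨ih ht.1, ih' ht.2⟩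

theorem Tm.exists_bound (t : Tm) : ∃ n, t.vars (· < n) := by
  induction t with
  | var i => exact ⟨i + 1, Nat.lt_succ_self i⟩
  | nat n => exact ⟨0, trivial⟩
  | lev t ih | cut t ih | par _ t ih | sk t ih | fo t ih => exact ih
  | new s _ t ih ih' | ins s t ih ih' =>
    obtain ⟨m, hm⟩ := ih
    obtain ⟨n, hn⟩ := ih'
    exact ⟨max m n, condc_mono (fun _ => lt_max_of_lt_left) hm,
      condc_mono (fun _ => lt_max_of_lt_right) hn⟩

theorem Tm.vars_mono {p q : ℕ → Prop} (h : ∀ i, p i → q i) (ht : t.vars p) : t.vars q := by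
  exact condc_mono h ht

theorem Tm.vars_ren {p : ℕ → Prop} {g : ℕ → ℕ} : (t.ren g).vars p ↔ t.vars (fun i => p (g i)) := by
  induction t with
  | var i => exact Iff.rfl
  | nat n => exact Iff.rfl
  | lev t ih | cut t ih | par _ t ih | sk t ih | fo t ih => exact ih
  | new s _ t ih ih' | ins s t ih ih' => exact and_congr ih ih'

theorem ev_ren (g : ℕ → ℕ) : ev A v (t.ren g) = ev A (v ∘ g) t := by
  induction t with
  | var i => rfl
  | nat n => rfl
  | lev t ih | cut t ih | par _ t ih | sk t ih | fo t ih => simp only [Tm.ren, ev, ih]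
  | new s _ t ih ih' | ins s t ih ih' => simp only [Tm.ren, ev, ih, ih']

theorem ok_ren (g : ℕ → ℕ) : ok A Λ v (t.ren g) ↔ ok A Λ (v ∘ g) t := by
  induction t with
  | var i => exact Iff.rfl
  | nat n => exact Iff.rfl
  | lev t ih | cut t ih | par _ t ih | sk t ih | fo t ih => exact ih
  | new s _ t ih ih' | ins s t ih ih' => simp only [Tm.ren, ok, ih, ih', ev_ren]

theorem ev_irrel (h : t.vars fun i => v i = w i) : ev A v t = ev A w t := by
  induction t with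
  | var i => exact h
  | nat n => rfl
  | lev t ih | cut t ih | par _ t ih | sk t ih | fo t ih => simp only [ev, ih h]
  | new s _ t ih ih' | ins s t ih ih' => simp only [ev, ih h.1, ih' h.2]

theorem ok_irrel (h : t.vars fun i => v i = w i) : ok A Λ v t ↔ ok A Λ w t := by
  induction t with
  | var i => rw [ok, ok, show v i = w i from h]
  | nat n => exact Iff.rfl
  | lev t ih | cut t ih | par _ t ih | sk t ih | fo t ih => exact ih h
  | new s _ t ih ih' | ins s t ih ih' =>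
    rw [ok, ok, ih h.1, ih' h.2, ev_irrel h.1, ev_irrel h.2]

theorem ok.mem (h : ok A Λ v t) (hΛ : IsLowerSet Λ) (hn : ∀ n : ℕ, (n : On) ∈ Λ) :
    ev A v t ∈ Λ := by
  induction t with
  | var i => exact h
  | nat n => exact hn n
  | lev t ih => exact hΛ (lev_le _) (ih h)
  | cut t ih => exact hΛ (cut_le _) (ih h)
  | par i t ih => exact hΛ (par_getD_le _ i) (ih h)
  | sk t ih | fo t ih => exact hΛ ((wit_le _ _).trans (lev_le _)) (ih h)
  | new s _ t | ins s t => exact h.2.2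

theorem ok.vars (h : ok A Λ v t) : t.vars fun i => v i ∈ Λ := by
  induction t with
  | var i => exact h
  | nat n => trivial
  | lev t ih | cut t ih | par _ t ih | sk t ih | fo t ih => exact ih h
  | new s _ t ih ih' | ins s t ih ih' => exact ⟨ih h.1, ih' h.2.1⟩

theorem ok.mono {Λ' : Set On} (h : ok A Λ v t) (h' : Λ ⊆ Λ') : ok A Λ' v t := by
  induction t with
  | var i => exact h' h
  | nat n => trivial
  | lev t ih | cut t ih | par _ t ih | sk t ih | fo t ih => exact ih h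
  | new s _ t ih ih' | ins s t ih ih' => exact ⟨ih h.1, ih' h.2.1, h' h.2.2⟩

/-- An evaluation visits finitely many ordinals. -/
theorem ok.exists_finite (h : ok A Λ v t) : ∃ F : Finset On, ↑F ⊆ Λ ∧
    ∀ Λ' : Set On, ↑F ⊆ Λ' → ok A Λ' v t := by
  classical
  induction t with
  | var i => exact ⟨{v i}, by simpa [ok] using h, fun Λ' a => by simpa [ok] using a⟩
  | nat n => exact ⟨∅, by simp, fun _ _ => trivial⟩
  | lev t ih | cut t ih | par _ t ih | sk t ih | fo t ih => exact ih h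
  | new s _ t ih ih' | ins s t ih ih' =>
    obtain ⟨F, a, b⟩ := ih h.1
    obtain ⟨G, c, d⟩ := ih' h.2.1
    have e : ∀ (x : On) (Λ' : Set On), ↑(insert x (F ∪ G)) ⊆ Λ' ↔ x ∈ Λ' ∧ ↑F ⊆ Λ' ∧ ↑G ⊆ Λ' :=
      fun x Λ' => by rw [Finset.coe_insert, Finset.coe_union, insert_subset_iff, union_subset_iff]
    exact ⟨_, (e _ _).2 ⟨h.2.2, a, c⟩, fun Λ' k =>
      ⟨b _ ((e _ _).1 k).2.1, d _ ((e _ _).1 k).2.2, ((e _ _).1 k).1⟩⟩

theorem ok.congr (h : ok A Λ v t) (hΛ : IsLowerSet Λ) (hn : ∀ n : ℕ, (n : On) ∈ Λ)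
    (e : ∀ x ∈ Λ, x ∈ A ↔ x ∈ B) : ok B Λ v t ∧ ev B v t = ev A v t := by
  induction t with
  | var i => exact ⟨h, rfl⟩
  | nat n => exact ⟨trivial, rfl⟩
  | lev t ih | cut t ih | par _ t ih => exact ⟨(ih h).1, by rw [ev, ev, (ih h).2]⟩
  | sk t ih =>
    refine ⟨(ih h).1, ?_⟩
    rw [ev, ev, (ih h).2]
    exact (sk_congr fun x hx => e x (hΛ hx.le (ok.mem (t := t) h hΛ hn))).symm
  | fo t ih =>
    refine ⟨(ih h).1, ?_⟩
    rw [ev, ev, (ih h).2]
    exact (fo_congr fun x hx => e x (hΛ hx.le (ok.mem (t := t) h hΛ hn))).symm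
  | new s _ t ih ih' | ins s t ih ih' =>
    rw [ok, ev, ev, (ih h.1).2, (ih' h.2.1).2]
    exact ⟨⟨(ih h.1).1, (ih' h.2.1).1, h.2.2⟩, rfl⟩

theorem Closed.ev_mem {H : Set On} (hH : Closed A Λ H) (h : ok A Λ v t)
    (hv : t.vars fun i => v i ∈ H) : ev A v t ∈ H := by
  induction t with
  | var i => exact hv
  | nat n => exact hH.nat n
  | lev t ih => exact hH.lev _ (ih h hv)
  | cut t ih => exact hH.cut _ (ih h hv)
  | par i t ih => exact lv_mem hH.dcl.zero (hH.par _ (ih h hv)) i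
  | sk t ih => exact hH.sk _ (ih h hv)
  | fo t ih => exact hH.fo _ (ih h hv)
  | new s k t ih ih' => exact hH.new _ (ih h.1 hv.1) k _ (ih' h.2.1 hv.2) h.2.2
  | ins s t ih ih' => exact hH.ins _ (ih h.1 hv.1) _ (ih' h.2.1 hv.2) h.2.2

/-- Evaluation commutes with embeddings of closed sets. -/
theorem Emb.ev_map {H Λ' : Set On} {f : On → On} (hf : Emb A B H f) (hH : Closed A Λ H)
    (h1 : ∀ x ∈ H, f x ∈ Λ') (h : ok A Λ v t) (hv : t.vars fun i => v i ∈ H) :
    ok B Λ' (f ∘ v) t ∧ ev B (f ∘ v) t = f (ev A v t) := by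
  induction t with
  | var i => exact ⟨h1 _ hv, rfl⟩
  | nat n => exact ⟨trivial, (hf.nat (hH.nat n)).symm⟩
  | lev t ih =>
    have a := hH.ev_mem (t := t) h hv
    exact ⟨(ih h hv).1, by rw [ev, ev, (ih h hv).2, hf.lev a (hH.lev _ a)]⟩
  | cut t ih =>
    have a := hH.ev_mem (t := t) h hv
    exact ⟨(ih h hv).1, by rw [ev, ev, (ih h hv).2, hf.cut a (hH.cut _ a)]⟩
  | par i t ih =>
    have a := hH.ev_mem (t := t) h hv
    exact ⟨(ih h hv).1, by
      rw [ev, ev, (ih h hv).2, hf.par hH.dcl a, lv_map (hf.zero hH.dcl.zero)]; rfl⟩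
  | sk t ih =>
    have a := hH.ev_mem (t := t) h hv
    exact ⟨(ih h hv).1, by rw [ev, ev, (ih h hv).2, hf.sk a (hH.sk _ a)]⟩
  | fo t ih =>
    have a := hH.ev_mem (t := t) h hv
    exact ⟨(ih h hv).1, by rw [ev, ev, (ih h hv).2, hf.fo a (hH.fo _ a)]⟩
  | new s k t ih ih' =>
    have a := hH.ev_mem h.1 hv.1
    have b := hH.ev_mem h.2.1 hv.2
    have c := hH.new _ a k _ b h.2.2
    have d : new (f (ev A v s)) k (f (ev A v t)) = f (new (ev A v s) k (ev A v t)) :=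
      hf.code hH.dcl (x := ⟨_, k, _, []⟩) a b (fun _ e => absurd e List.not_mem_nil) c
    rw [ok, ev, ev, (ih h.1 hv.1).2, (ih' h.2.1 hv.2).2, d]
    exact ⟨⟨(ih h.1 hv.1).1, (ih' h.2.1 hv.2).1, h1 _ c⟩, rfl⟩
  | ins s t ih ih' =>
    have a := hH.ev_mem h.1 hv.1
    have b := hH.ev_mem h.2.1 hv.2
    have c := hH.ins _ a _ b h.2.2
    rw [ok, ev, ev, (ih h.1 hv.1).2, (ih' h.2.1 hv.2).2, hf.ins hH.dcl a b c]
    exact ⟨⟨(ih h.1 hv.1).1, (ih' h.2.1 hv.2).1, h1 _ c⟩, rfl⟩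

/-- Codes are reflected. -/
theorem condc_back {Y : Set On} {f : On → On} (hf : Emb A B Y f) (hY : DCl Y) {x : Loc}
    (h1 : x.l ∈ Y) (h2 : x.e ∈ Y) (h3 : ∀ a ∈ x.q, a ∈ Y) (h4 : code (x.map f) ∈ f '' Y) :
    code x ∈ Y := by
  by_cases h : IsLev x.l ∧ x.Valid
  · obtain ⟨y, hy, e⟩ := h4
    have v : (x.map f).Valid := ⟨(hf.le h2 h1).2 h.2.1, fun a ha => by
      obtain ⟨b, hb, rfl⟩ := List.mem_map.1 ha
      exact (hf.lt (h3 b hb) h1).2 (h.2.2 b hb)⟩
    obtain ⟨a, b⟩ := (eq_code_iff (x := x.map f) ((hf.isLev h1).2 h.1) v).1 e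
    rw [hf.D hY hy] at b
    have c : (D y).l ∈ Y ∧ (D y).e ∈ Y ∧ ∀ a ∈ (D y).q, a ∈ Y :=
      ⟨hY.lev y hy, hY.cut y hy, hY.par y hy⟩
    have d : D y = x := by
      rcases Loc.lt_tri (D y) x with k | k | k
      · exact absurd (b ▸ (Loc.map_lt hf.mono c ⟨h1, h2, h3⟩).2 k) (Loc.lt_irrefl _)
      · exact k
      · exact absurd (b ▸ (Loc.map_lt hf.mono ⟨h1, h2, h3⟩ c).2 k) (Loc.lt_irrefl _)
    exact (eq_code_iff h.1 h.2).2 ⟨(hf.omega_le hy).1 a, d⟩ ▸ hy
  · rw [code_invalid h]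
    exact hY.zero

/-- Evaluation is reflected by an embedding of an initial segment onto a closed set. -/
theorem Emb.ev_back {H Λ' : Set On} {f : On → On} (hf : Emb A B Λ' f) (hΛ' : IsLowerSet Λ')
    (hH : Closed B Λ H) (him : f '' Λ' = H) (h : ok B Λ (f ∘ v) t)
    (hv : t.vars fun i => v i ∈ Λ') : ok A Λ' v t ∧ ev B (f ∘ v) t = f (ev A v t) := by
  subst him
  have hn : ∀ n : ℕ, (n : On) ∈ Λ' := fun n => by
    obtain ⟨x, hx, e⟩ := hH.nat n
    exact (show x = n from (hf.iff hx hx (.nat n)).2 e) ▸ hx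
  have hC : Closed A Λ' Λ' := Closed.of_lower hΛ' hn
  have key : ∀ {t : Tm}, ok A Λ' v t → (t.vars fun i => v i ∈ Λ') →
      ev B (f ∘ v) t = f (ev A v t) := fun a b =>
    (hf.ev_map hC (Λ' := univ) (fun _ _ => trivial) a b).2
  suffices H : ok A Λ' v t from ⟨H, key H hv⟩
  induction t with
  | var i => exact hv
  | nat n => trivial
  | lev t ih | cut t ih | par _ t ih | sk t ih | fo t ih => exact ih h hv
  | new s k t ih ih' =>
    have a := ih h.1 hv.1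
    have b := ih' h.2.1 hv.2
    have c := h.2.2
    rw [key a hv.1, key b hv.2] at c
    have a' := a.mem hΛ' hn
    have b' := b.mem hΛ' hn
    exact ⟨a, b, condc_back hf hC.dcl (x := ⟨_, k, _, []⟩) a' b'
      (fun _ e => absurd e List.not_mem_nil)
      (hH.new _ (mem_image_of_mem f a') k _ (mem_image_of_mem f b') c)⟩
  | ins s t ih ih' =>
    have a := ih h.1 hv.1
    have b := ih' h.2.1 hv.2
    have c := h.2.2
    rw [key a hv.1, key b hv.2] at c
    have a' := a.mem hΛ' hn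
    have b' := b.mem hΛ' hn
    have d := hH.ins _ (mem_image_of_mem f a') _ (mem_image_of_mem f b') c
    rw [MP_fd3eaf_lc.ins, hf.lev a' (hC.lev _ a'), hf.fml a', hf.cut a' (hC.cut _ a'),
      hf.par hC.dcl a'] at d
    exact ⟨a, b, condc_back hf hC.dcl (x := ⟨_, _, _, _ :: _⟩) (hC.lev _ a') (hC.cut _ a')
      (fun y e => (List.mem_cons.1 e).elim (fun e => e ▸ b') (hC.par _ a' y)) d⟩

end terms

/-- The hull of `Y` inside `Λ`. -/
def Hull (A Λ Y : Set On) : Set On :=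
  {x | ∃ (t : Tm) (v : ℕ → On), t.vars (fun i => v i ∈ Y) ∧ ok A Λ v t ∧ ev A v t = x}

section hull
variable {A B Λ Y : Set On}

theorem condd_vars_and {p q : ℕ → Prop} {t : Tm} (h1 : t.vars p) (h2 : t.vars q) :
    t.vars fun i => p i ∧ q i := by
  induction t with
  | var i => exact ⟨h1, h2⟩
  | nat n => trivial
  | lev t ih => exact ih h1 h2
  | cut t ih => exact ih h1 h2
  | par i t ih => exact ih h1 h2
  | sk t ih => exact ih h1 h2
  | fo t ih => exact ih h1 h2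
  | new s k t ih ih' => exact ⟨ih h1.1 h2.1, ih' h1.2 h2.2⟩
  | ins s t ih ih' => exact ⟨ih h1.1 h2.1, ih' h1.2 h2.2⟩

theorem condd_pair {x y : On} (hx : x ∈ Hull A Λ Y) (hy : y ∈ Hull A Λ Y) :
    ∃ (s t : Tm) (v : ℕ → On), s.vars (fun i => v i ∈ Y) ∧ t.vars (fun i => v i ∈ Y) ∧
      ok A Λ v s ∧ ok A Λ v t ∧ ev A v s = x ∧ ev A v t = y := by
  obtain ⟨s, v, a1, a2, a3⟩ := hx
  obtain ⟨t, w, b1, b2, b3⟩ := hy
  obtain ⟨u, e1, e2⟩ : ∃ u : ℕ → On, u ∘ (fun i => 2 * i) = v ∧ u ∘ (fun i => 2 * i + 1) = w := by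
    refine ⟨fun n => if n % 2 = 0 then v (n / 2) else w (n / 2), funext fun i => ?_,
      funext fun i => ?_⟩
    · have h1 : 2 * i % 2 = 0 := by omega
      have h2 : 2 * i / 2 = i := by omega
      simp only [Function.comp_apply, h1, h2, if_true]
    · have h1 : ¬ (2 * i + 1) % 2 = 0 := by omega
      have h2 : (2 * i + 1) / 2 = i := by omega
      simp only [Function.comp_apply, h1, h2, if_false]
  subst e1 e2
  exact ⟨s.ren fun i => 2 * i, t.ren fun i => 2 * i + 1, u, Tm.vars_ren.2 a1, Tm.vars_ren.2 b1,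
    (ok_ren _).2 a2, (ok_ren _).2 b2, (ev_ren _).trans a3, (ev_ren _).trans b3⟩

theorem hull_closed (hΛ : IsLowerSet Λ) (hn : ∀ n : ℕ, (n : On) ∈ Λ) :
    Closed A Λ (Hull A Λ Y) := by
  refine ⟨?_, fun n => ⟨.nat n, fun _ => 0, trivial, trivial, rfl⟩, ?_, ?_, ?_, ?_, ?_, ?_, ?_⟩
  · rintro _ ⟨t, v, -, h, rfl⟩
    exact h.mem hΛ hn
  · rintro _ ⟨t, v, h1, h2, rfl⟩
    exact ⟨.lev t, v, h1, h2, rfl⟩
  · rintro _ ⟨t, v, h1, h2, rfl⟩
    exact ⟨.cut t, v, h1, h2, rfl⟩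
  · rintro _ ⟨t, v, h1, h2, rfl⟩ a ha
    obtain ⟨i, hi, rfl⟩ := List.mem_iff_getElem.1 ha
    exact ⟨.par i t, v, h1, h2, List.getD_eq_getElem _ _ hi⟩
  · rintro _ ⟨t, v, h1, h2, rfl⟩
    exact ⟨.sk t, v, h1, h2, rfl⟩
  · rintro _ ⟨t, v, h1, h2, rfl⟩
    exact ⟨.fo t, v, h1, h2, rfl⟩
  · intro l hl k e he h
    obtain ⟨s, t, v, a1, a2, a3, a4, rfl, rfl⟩ := condd_pair hl he
    exact ⟨.new s k t, v, ⟨a1, a2⟩, ⟨a3, a4, h⟩, rfl⟩
  · intro c hc ξ hξ h
    obtain ⟨s, t, v, a1, a2, a3, a4, rfl, rfl⟩ := condd_pair hc hξ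
    exact ⟨.ins s t, v, ⟨a1, a2⟩, ⟨a3, a4, h⟩, rfl⟩

theorem subset_hull : Y ∩ Λ ⊆ Hull A Λ Y :=
  fun x hx => ⟨.var 0, fun _ => x, hx.1, hx.2, rfl⟩

theorem hull_least {H : Set On} (hH : Closed A Λ H) (h : Y ∩ Λ ⊆ H) : Hull A Λ Y ⊆ H := by
  rintro _ ⟨t, v, h1, h2, rfl⟩
  exact hH.ev_mem h2 (Tm.vars_mono (fun i hi => h hi) (condd_vars_and h1 h2.vars))

theorem hull_mono {Λ' Y' : Set On} (h1 : Λ ⊆ Λ') (h2 : Y ⊆ Y') : Hull A Λ Y ⊆ Hull A Λ' Y' := by
  rintro _ ⟨t, v, a1, a2, rfl⟩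
  exact ⟨t, v, Tm.vars_mono (fun i hi => h2 hi) a1, a2.mono h1, rfl⟩

theorem hull_congr (hΛ : IsLowerSet Λ) (hn : ∀ n : ℕ, (n : On) ∈ Λ)
    (e : ∀ x ∈ Λ, x ∈ A ↔ x ∈ B) : Hull A Λ Y = Hull B Λ Y := by
  refine Subset.antisymm ?_ ?_
  · rintro _ ⟨t, v, a1, a2, rfl⟩
    exact ⟨t, v, a1, (a2.congr hΛ hn e).1, (a2.congr hΛ hn e).2⟩
  · rintro _ ⟨t, v, a1, a2, rfl⟩
    have h := a2.congr hΛ hn fun x hx => (e x hx).symm
    exact ⟨t, v, a1, h.1, h.2⟩

theorem card_hull : Cardinal.mk (Hull A Λ Y) ≤ max (Cardinal.mk Y) Cardinal.aleph0 := by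
  classical
  let f : ULift.{1} Tm × List (Option Y) → On := fun p =>
    ev A (fun i => (p.2.getD i none).elim 0 Subtype.val) p.1.down
  have h1 : Hull A Λ Y ⊆ range f := by
    rintro _ ⟨t, v, a1, -, rfl⟩
    obtain ⟨n, hn⟩ := t.exists_bound
    refine ⟨(⟨t⟩, List.ofFn fun i : Fin n => if h : v i ∈ Y then some ⟨v i, h⟩ else none), ?_⟩
    refine ev_irrel (Tm.vars_mono (fun i hi => ?_) (condd_vars_and a1 hn))
    rw [List.getD_eq_getElem _ _ (by simpa using hi.2), List.getElem_ofFn, dif_pos hi.1]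
    rfl
  have h2 : Cardinal.aleph0 ≤ max (Cardinal.mk Y) Cardinal.aleph0 := le_max_right _ _
  refine (Cardinal.mk_le_mk_of_subset h1).trans (Cardinal.mk_range_le.trans ?_)
  rw [Cardinal.mk_prod, Cardinal.lift_id, Cardinal.lift_id]
  refine Cardinal.mul_le_of_le h2 (Cardinal.mk_le_aleph0.trans h2)
    ((Cardinal.mk_list_le_max _).trans (max_le h2 ?_))
  rw [Cardinal.mk_option]
  exact Cardinal.add_le_of_le h2 (le_max_left _ _) (Cardinal.one_le_aleph0.trans h2)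

/-- Finiteness: one more step of the machine adds finitely many generators. -/
theorem hull_succ {β : On} (hβ : ω ≤ β) : ∃ F : Finset On, ↑F ⊆ Iio β ∧
    Hull A (Iic β) Y ⊆ insert β (Hull A (Iio β) (Y ∪ ↑F)) := by
  classical
  let F : Finset On :=
    (lev β :: cut β :: sk A β :: fo A β :: par β).toFinset.filter (· < β)
  have hH : Closed A (Iio β) (Hull A (Iio β) (Y ∪ ↑F)) :=
    hull_closed (isLowerSet_Iio β) fun n => (natCast_lt_omega0 n).trans_le hβ
  have h0 : (0 : On) ∈ Hull A (Iio β) (Y ∪ ↑F) := hH.dcl.zero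
  have hF : ∀ x ∈ lev β :: cut β :: sk A β :: fo A β :: par β, x ≤ β →
      x ∈ insert β (Hull A (Iio β) (Y ∪ ↑F)) := by
    intro x hx h
    rcases h.eq_or_lt with h | h
    · exact Or.inl h
    · exact Or.inr (subset_hull
        ⟨Or.inr (Finset.mem_coe.2 (Finset.mem_filter.2 ⟨List.mem_toFinset.2 hx, h⟩)), h⟩)
  have hlt : ∀ x ∈ insert β (Hull A (Iio β) (Y ∪ ↑F)), x < β → x ∈ Hull A (Iio β) (Y ∪ ↑F) :=
    fun x hx h => hx.resolve_left h.ne
  refine ⟨F, fun x hx => (Finset.mem_filter.1 (Finset.mem_coe.1 hx)).2,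
    hull_least ⟨?_, fun n => Or.inr (hH.nat n), ?_, ?_, ?_, ?_, ?_, ?_, ?_⟩ ?_⟩
  · rintro x (rfl | hx)
    · exact le_rfl (a := x)
    · exact mem_Iic.2 (mem_Iio.1 (hH.sub hx)).le
  · rintro c (rfl | hc)
    · exact hF _ (by simp) (lev_le _)
    · exact Or.inr (hH.lev c hc)
  · rintro c (rfl | hc)
    · exact hF _ (by simp) (cut_le _)
    · exact Or.inr (hH.cut c hc)
  · rintro c (rfl | hc) a ha
    · exact hF _ (by simp [ha]) (par_lt ha).le
    · exact Or.inr (hH.par c hc a ha)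
  · rintro c (rfl | hc)
    · exact hF _ (by simp) ((wit_le _ _).trans (lev_le _))
    · exact Or.inr (hH.sk c hc)
  · rintro c (rfl | hc)
    · exact hF _ (by simp) ((wit_le _ _).trans (lev_le _))
    · exact Or.inr (hH.fo c hc)
  · intro l hl k e he h
    rcases (mem_Iic.1 h).eq_or_lt with h | h
    · exact Or.inl h
    refine Or.inr ?_
    by_cases hv : IsLev (Loc.mk l k e []).l ∧ (Loc.mk l k e []).Valid
    · have h1 : l < β := (le_code hv.1 hv.2).trans_lt h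
      exact hH.new l (hlt l hl h1) k e (hlt e he (hv.2.1.trans_lt h1)) h
    · rw [new, code_invalid hv]
      exact h0
  · intro c hc ξ hξ h
    rcases (mem_Iic.1 h).eq_or_lt with h | h
    · exact Or.inl h
    refine Or.inr ?_
    by_cases hv : IsLev (Loc.mk (lev c) (fml c) (cut c) (ξ :: par c)).l ∧
        (Loc.mk (lev c) (fml c) (cut c) (ξ :: par c)).Valid
    · have h2 : ξ < lev c := hv.2.2 ξ List.mem_cons_self
      have h1 : c < β := (lt_ins (hv.1.1.trans (lev_le c)) h2).trans h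
      exact hH.ins c (hlt c hc h1) ξ (hlt ξ hξ ((h2.trans_le (lev_le c)).trans h1)) h
    · rw [ins, code_invalid hv]
      exact h0
  · rintro y ⟨h1, h2⟩
    rcases (mem_Iic.1 h2).eq_or_lt with h | h
    · exact Or.inl h
    · exact Or.inr (subset_hull ⟨Or.inl h1, h⟩)

/-- Hulls are carried to hulls by the collapse. -/
theorem hull_col {η : On} {H : Set On} (hH : Closed A (Iio η) H) (hY : Y ⊆ H) {x : On}
    (hx : x < otp H η) :
    col H η x ∈ Hull A (Iio η) Y ↔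
      x ∈ Hull (col H η ⁻¹' A) (Iio (otp H η)) (col H η ⁻¹' Y) := by
  have hf := cond_col hH
  have him : col H η '' Iio (otp H η) = H := col_image.trans (inter_eq_left.2 hH.sub)
  constructor
  · rintro ⟨t, v, a1, a2, a3⟩
    have hw : ∀ i, ∃ y, v i ∈ Y → y ∈ Iio (otp H η) ∧ col H η y = v i := fun i => by
      by_cases h : v i ∈ Y
      · obtain ⟨y, hy⟩ := him.ge (hY h)
        exact ⟨y, fun _ => hy⟩
      · exact ⟨0, fun k => absurd k h⟩
    choose w hw using hw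
    have e : t.vars fun i => v i = (col H η ∘ w) i :=
      Tm.vars_mono (fun i hi => (hw i hi).2.symm) a1
    obtain ⟨b1, b2⟩ := hf.ev_back (isLowerSet_Iio _) hH him ((ok_irrel e).1 a2)
      (Tm.vars_mono (fun i hi => (hw i hi).1) a1)
    refine ⟨t, w, Tm.vars_mono (fun i hi => ?_) a1, b1,
      (col_strictMono (H := H) (η := η)).injective ?_⟩
    · rw [mem_preimage, (hw i hi).2]
      exact hi
    · rw [← b2, ← ev_irrel e, a3]
  · rintro ⟨t, w, a1, a2, rfl⟩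
    have hω : Iio ω ⊆ H := fun y hy => by
      obtain ⟨n, rfl⟩ := lt_omega0.1 hy
      exact hH.nat n
    have hn : ∀ n : ℕ, (n : On) ∈ Iio (otp H η) := fun n =>
      col_lt_iff.1 ((col_fix hω (natCast_lt_omega0 n)).trans_lt (hH.sub (hH.nat n)))
    obtain ⟨b1, b2⟩ := hf.ev_map (Λ' := Iio η) (Closed.of_lower (isLowerSet_Iio _) hn)
      (fun y hy => col_lt_iff.2 hy) a2 a2.vars
    exact ⟨t, col H η ∘ w, a1, b1, b2⟩

end hull

end Pool.Agent.MP_fd3eaf_lc

end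

-- part MP_fd3eaf_lc.MD
section

/-!
Predicates, terms, lists and oracles that are definable in the machine, uniformly over all nice
initial segments; inferred by instance resolution.
-/

set_option autoImplicit false

namespace Pool.Agent.MP_fd3eaf_lc

open Set Ordinal

/-- Objects that depend on an oracle, an initial segment and an assignment. -/
abbrev Fam (α : Type 1) : Type 1 := Set On → Set On → (ℕ → On) → α

class MD (P : Set On → Set On → (ℕ → On) → Prop) : Prop where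
  ex : ∃ k, ∀ A Λ v, Nice Λ → (∀ i, v i ∈ Λ) → (Sat A Λ k v ↔ P A Λ v)

class MT (t : Fam On) : Prop where
  mem : ∀ A Λ v, Nice Λ → (∀ i, v i ∈ Λ) → t A Λ v ∈ Λ
  df : MD fun A Λ v => v 0 = t A Λ fun n => v (n + 1)

/-- Definable lists. -/
class ML (q : Fam (List On)) : Prop where
  df : MD fun A Λ v => par (v 0) = q A Λ fun n => v (n + 1)

/-- Definable oracles. -/
class MO (B : Fam (Set On)) : Prop where
  or : MD fun A Λ v => v 0 ∈ B A Λ fun n => v (n + 1)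
  tr : MD fun A Λ v => T (B A Λ fun n => v (n + 1)) (v 0)

/-- Lifting of a renaming under a binder. -/
def up (g : ℕ → ℕ) : ℕ → ℕ
  | 0 => 0
  | n + 1 => g n + 1

namespace MD

variable (P Q : Set On → Set On → (ℕ → On) → Prop)

theorem congr {P Q : Set On → Set On → (ℕ → On) → Prop} [h : MD P]
    (e : ∀ A Λ v, Nice Λ → (∀ i, v i ∈ Λ) → (P A Λ v ↔ Q A Λ v)) : MD Q := by
  obtain ⟨k, h⟩ := h.ex
  exact ⟨k, fun A Λ v hΛ hv => (h A Λ v hΛ hv).trans (e A Λ v hΛ hv)⟩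

theorem rename [h : MD P] (g : ℕ → ℕ) : MD fun A Λ v => P A Λ fun n => v (g n) := by
  obtain ⟨k, h⟩ := h.ex
  obtain ⟨k', h'⟩ := exists_ren k g
  exact ⟨k', fun A Λ v hΛ hv => (h' A Λ v).trans (h A Λ _ hΛ fun _ => hv _)⟩

theorem atom (t a b c : ℕ) (h : t < 9 ∨ 11 < t) : MD fun A _ v => Atom A (T A) t (v a) (v b) (v c) :=
  ⟨MP_fd3eaf_lc.mk t a b c, fun A Λ v _ _ => by
    rw [sat_atom (by simp; omega) (by simp; omega) (by simp; omega)]; simp⟩

theorem sat (k : ℕ) : MD fun A Λ v => Sat A Λ k v := ⟨k, fun _ _ _ _ _ => Iff.rfl⟩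

instance not [h : MD P] : MD fun A Λ v => ¬ P A Λ v := by
  obtain ⟨k, h⟩ := h.ex
  exact ⟨fneg k, fun A Λ v hΛ hv => by rw [sat_fneg, h A Λ v hΛ hv]⟩

instance and [h1 : MD P] [h2 : MD Q] : MD fun A Λ v => P A Λ v ∧ Q A Λ v := by
  obtain ⟨k, h⟩ := h1.ex
  obtain ⟨k', h'⟩ := h2.ex
  exact ⟨fand k k', fun A Λ v hΛ hv => by rw [sat_fand, h A Λ v hΛ hv, h' A Λ v hΛ hv]⟩

instance allL (Q : Set On → Set On → (ℕ → On) → On → Prop)
    [h : MD fun A Λ v => Q A Λ (fun n => v (n + 1)) (v 0)] :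
    MD fun A Λ v => ∀ a, a ∈ Λ → Q A Λ v a := by
  obtain ⟨k, h⟩ := h.ex
  refine ⟨fall k, fun A Λ v hΛ hv => ?_⟩
  rw [sat_fall]
  exact forall_congr' fun a => forall_congr' fun ha => h A Λ _ hΛ (cons_mem ha hv)

instance or [MD P] [MD Q] : MD fun A Λ v => P A Λ v ∨ Q A Λ v :=
  MD.congr (P := fun A Λ v => ¬ (¬ P A Λ v ∧ ¬ Q A Λ v)) fun _ _ _ _ _ => by tauto

instance (priority := low) imp [MD P] [MD Q] : MD fun A Λ v => P A Λ v → Q A Λ v :=
  MD.congr (P := fun A Λ v => ¬ (P A Λ v ∧ ¬ Q A Λ v)) fun _ _ _ _ _ => by tauto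

instance iff [MD P] [MD Q] : MD fun A Λ v => P A Λ v ↔ Q A Λ v :=
  MD.congr (P := fun A Λ v => (P A Λ v → Q A Λ v) ∧ (Q A Λ v → P A Λ v)) fun _ _ _ _ _ =>
    iff_iff_implies_and_implies.symm

instance exL (Q : Set On → Set On → (ℕ → On) → On → Prop)
    [h : MD fun A Λ v => Q A Λ (fun n => v (n + 1)) (v 0)] :
    MD fun A Λ v => ∃ a, a ∈ Λ ∧ Q A Λ v a :=
  MD.congr (P := fun A Λ v => ¬ ∀ a, a ∈ Λ → ¬ Q A Λ v a) fun _ _ _ _ _ => by simp

theorem ltVar (i j : ℕ) : MD fun _ _ v => v i < v j :=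
  haveI := atom 1 i j 0 (by omega)
  MD.congr (P := fun A _ v => Atom A (T A) 1 (v i) (v j) (v 0)) fun _ _ _ _ _ => by simp [Atom]

theorem eqVar (i j : ℕ) : MD fun _ _ v => v i = v j :=
  haveI := ltVar i j
  haveI := ltVar j i
  MD.congr (P := fun _ _ v => ¬ v i < v j ∧ ¬ v j < v i) fun _ _ _ _ _ => by
    rw [not_lt, not_lt, le_antisymm_iff, and_comm]

instance tru : MD fun _ _ _ => True :=
  haveI := eqVar 0 0
  MD.congr (P := fun _ _ v => v 0 = v 0) fun _ _ _ _ _ => by simp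

instance fls : MD fun _ _ _ => False :=
  MD.congr (P := fun _ _ _ => ¬ True) fun _ _ _ _ _ => by simp

instance (priority := low) const (p : Prop) : MD fun _ _ _ => p := by
  by_cases h : p
  · exact MD.congr (P := fun _ _ _ => True) fun _ _ _ _ _ => by simp [h]
  · exact MD.congr (P := fun _ _ _ => False) fun _ _ _ _ _ => by simp [h]

/-- Substitution of a term for the variable `0`. -/
theorem subst (Q : Set On → Set On → (ℕ → On) → On → Prop)
    [h : MD fun A Λ v => Q A Λ (fun n => v (n + 1)) (v 0)] (t : Fam On) [ht : MT t] :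
    MD fun A Λ v => Q A Λ v (t A Λ v) :=
  haveI := ht.df
  MD.congr (P := fun A Λ v => ∃ a, a ∈ Λ ∧ (a = t A Λ v ∧ Q A Λ v a)) fun A Λ v hΛ hv =>
    ⟨fun ⟨_, _, e, h⟩ => e ▸ h, fun h => ⟨_, ht.mem A Λ v hΛ hv, rfl, h⟩⟩

end MD

namespace MT

instance var (i : ℕ) : MT fun _ _ v => v i := ⟨fun _ _ _ _ hv => hv i, MD.eqVar 0 (i + 1)⟩

theorem congr {s t : Fam On} [h : MT s]
    (e : ∀ A Λ v, Nice Λ → (∀ i, v i ∈ Λ) → s A Λ v = t A Λ v) : MT t :=
  ⟨fun A Λ v hΛ hv => e A Λ v hΛ hv ▸ h.mem A Λ v hΛ hv,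
    haveI := h.df
    MD.congr (P := fun A Λ v => v 0 = s A Λ fun n => v (n + 1)) fun A Λ v hΛ hv => by
      rw [e A Λ _ hΛ fun n => hv _]⟩

instance (priority := low) shift (t : Fam On) [h : MT t] (g : ℕ → ℕ) :
    MT fun A Λ v => t A Λ fun n => v (g n) :=
  ⟨fun _ _ _ hΛ hv => h.mem _ _ _ hΛ fun _ => hv _,
    haveI := h.df
    MD.rename (fun A Λ v => v 0 = t A Λ fun n => v (n + 1)) (up g)⟩

end MT

instance (priority := low) ML.shift (q : Fam (List On)) [h : ML q] (g : ℕ → ℕ) :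
    ML fun A Λ v => q A Λ fun n => v (g n) :=
  haveI := h.df
  ⟨MD.rename (fun A Λ v => par (v 0) = q A Λ fun n => v (n + 1)) (up g)⟩

instance (priority := low) MO.shift (B : Fam (Set On)) [h : MO B] (g : ℕ → ℕ) :
    MO fun A Λ v => B A Λ fun n => v (g n) :=
  haveI := h.or
  haveI := h.tr
  ⟨MD.rename (fun A Λ v => v 0 ∈ B A Λ fun n => v (n + 1)) (up g),
    MD.rename (fun A Λ v => T (B A Λ fun n => v (n + 1)) (v 0)) (up g)⟩

namespace MD

theorem one (R : Set On → Set On → On → Prop) [h : MD fun A Λ v => R A Λ (v 0)]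
    (s : Fam On) [MT s] : MD fun A Λ v => R A Λ (s A Λ v) :=
  MD.subst (fun A Λ _ a => R A Λ a) s

theorem two (R : Set On → Set On → On → On → Prop) [h : MD fun A Λ v => R A Λ (v 0) (v 1)]
    (s t : Fam On) [MT s] [MT t] : MD fun A Λ v => R A Λ (s A Λ v) (t A Λ v) :=
  haveI : MD fun A Λ v => R A Λ (v 0) (t A Λ fun n => v (n + 1)) :=
    haveI := MD.rename (fun A Λ v => R A Λ (v 0) (v 1)) (fun n => 1 - n)
    MD.subst (fun A Λ v b => R A Λ (v 0) b) (fun A Λ v => t A Λ fun n => v (n + 1))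
  MD.subst (fun A Λ v a => R A Λ a (t A Λ v)) s

theorem three (R : Set On → Set On → On → On → On → Prop)
    [h : MD fun A Λ v => R A Λ (v 0) (v 1) (v 2)] (s t r : Fam On) [MT s] [MT t] [MT r] :
    MD fun A Λ v => R A Λ (s A Λ v) (t A Λ v) (r A Λ v) :=
  haveI : MD fun A Λ v => R A Λ (v 0) (t A Λ fun n => v (n + 1)) (r A Λ fun n => v (n + 1)) :=
    haveI : MD fun A Λ v => R A Λ (v 1) (v 0) (r A Λ fun n => v (n + 1 + 1)) :=
      haveI := MD.rename (fun A Λ v => R A Λ (v 0) (v 1) (v 2)) (fun n => 2 - n)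
      haveI := MT.shift r fun n => n + 1 + 1
      MD.subst (fun A Λ v c => R A Λ (v 1) (v 0) c) (fun A Λ v => r A Λ fun n => v (n + 1 + 1))
    MD.subst (fun A Λ v b => R A Λ (v 0) b (r A Λ fun n => v (n + 1)))
      (fun A Λ v => t A Λ fun n => v (n + 1))
  MD.subst (fun A Λ v a => R A Λ a (t A Λ v) (r A Λ v)) s

instance lt (s t : Fam On) [MT s] [MT t] : MD fun A Λ v => s A Λ v < t A Λ v :=
  haveI := ltVar 0 1
  two (fun _ _ a b => a < b) s t

instance eq (s t : Fam On) [MT s] [MT t] : MD fun A Λ v => s A Λ v = t A Λ v :=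
  haveI := eqVar 0 1
  two (fun _ _ a b => a = b) s t

instance ne (s t : Fam On) [MT s] [MT t] : MD fun A Λ v => s A Λ v ≠ t A Λ v :=
  MD.not fun A Λ v => s A Λ v = t A Λ v

instance le (s t : Fam On) [MT s] [MT t] : MD fun A Λ v => s A Λ v ≤ t A Λ v :=
  MD.congr (P := fun A Λ v => ¬ t A Λ v < s A Λ v) fun _ _ _ _ _ => not_lt

instance allLt (t : Fam On) [ht : MT t] (Q : Set On → Set On → (ℕ → On) → On → Prop)
    [h : MD fun A Λ v => Q A Λ (fun n => v (n + 1)) (v 0)] :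
    MD fun A Λ v => ∀ a, a < t A Λ v → Q A Λ v a :=
  MD.congr (P := fun A Λ v => ∀ a, a ∈ Λ → (a < t A Λ v → Q A Λ v a)) fun A Λ v hΛ hv =>
    ⟨fun h a ha => h a (hΛ.lower ha.le (ht.mem A Λ v hΛ hv)) ha, fun h a _ ha => h a ha⟩

instance exLt (t : Fam On) [ht : MT t] (Q : Set On → Set On → (ℕ → On) → On → Prop)
    [h : MD fun A Λ v => Q A Λ (fun n => v (n + 1)) (v 0)] :
    MD fun A Λ v => ∃ a, a < t A Λ v ∧ Q A Λ v a :=
  MD.congr (P := fun A Λ v => ¬ ∀ a, a < t A Λ v → ¬ Q A Λ v a) fun _ _ _ _ _ => by simp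

instance allLe (t : Fam On) [ht : MT t] (Q : Set On → Set On → (ℕ → On) → On → Prop)
    [h : MD fun A Λ v => Q A Λ (fun n => v (n + 1)) (v 0)] :
    MD fun A Λ v => ∀ a, a ≤ t A Λ v → Q A Λ v a :=
  MD.congr (P := fun A Λ v => ∀ a, a ∈ Λ → (a ≤ t A Λ v → Q A Λ v a)) fun A Λ v hΛ hv =>
    ⟨fun h a ha => h a (hΛ.lower ha (ht.mem A Λ v hΛ hv)) ha, fun h a _ ha => h a ha⟩

instance exLe (t : Fam On) [ht : MT t] (Q : Set On → Set On → (ℕ → On) → On → Prop)
    [h : MD fun A Λ v => Q A Λ (fun n => v (n + 1)) (v 0)] :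
    MD fun A Λ v => ∃ a, a ≤ t A Λ v ∧ Q A Λ v a :=
  MD.congr (P := fun A Λ v => ¬ ∀ a, a ≤ t A Λ v → ¬ Q A Λ v a) fun _ _ _ _ _ => by simp

instance mem (B : Fam (Set On)) [h : MO B] (t : Fam On) [MT t] :
    MD fun A Λ v => t A Λ v ∈ B A Λ v :=
  haveI := h.or
  MD.subst (fun A Λ v a => a ∈ B A Λ v) t

instance notMem (B : Fam (Set On)) [h : MO B] (t : Fam On) [MT t] :
    MD fun A Λ v => t A Λ v ∉ B A Λ v := MD.not fun A Λ v => t A Λ v ∈ B A Λ v

instance tr (B : Fam (Set On)) [h : MO B] (t : Fam On) [MT t] :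
    MD fun A Λ v => T (B A Λ v) (t A Λ v) :=
  haveI := h.tr
  MD.subst (fun A Λ v a => T (B A Λ v) a) t

instance parEq (t : Fam On) [MT t] (q : Fam (List On)) [h : ML q] :
    MD fun A Λ v => par (t A Λ v) = q A Λ v :=
  haveI := h.df
  MD.subst (fun A Λ v a => par a = q A Λ v) t

end MD

/-- A term given by its graph. -/
theorem MT.of_graph (t : Fam On) (R : Set On → Set On → (ℕ → On) → On → Prop)
    [h : MD fun A Λ v => R A Λ (fun n => v (n + 1)) (v 0)]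
    (hm : ∀ A Λ v, Nice Λ → (∀ i, v i ∈ Λ) → t A Λ v ∈ Λ)
    (hR : ∀ A Λ v, Nice Λ → (∀ i, v i ∈ Λ) → ∀ x ∈ Λ, R A Λ v x ↔ x = t A Λ v) : MT t :=
  ⟨hm, MD.congr (h := h) fun A Λ _ hΛ hv => hR A Λ _ hΛ (fun _ => hv _) _ (hv 0)⟩

theorem mda_sInf (S : Set On) (x : On) :
    ((x ∈ S ∧ ∀ y, y < x → y ∉ S) ∨ ((∀ y, y ∉ S) ∧ ∀ y, y < x → False)) ↔ x = sInf S := by
  constructor
  · rintro (⟨h1, h2⟩ | ⟨h1, h2⟩)
    · exact le_antisymm (not_lt.1 fun h => h2 _ h (csInf_mem ⟨x, h1⟩)) (csInf_le' h1)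
    · rw [eq_empty_of_forall_notMem h1, Ordinal.sInf_empty]
      exact le_antisymm (not_lt.1 (h2 0)) zero_le
  · rintro rfl
    rcases S.eq_empty_or_nonempty with h | h
    · right
      rw [h, Ordinal.sInf_empty]
      exact ⟨fun _ => notMem_empty _, fun _ => not_lt_zero⟩
    · exact Or.inl ⟨csInf_mem h, fun y hy hS => hy.not_ge (csInf_le' hS)⟩

theorem mda_sInf_mem {Λ S : Set On} (hΛ : Nice Λ) (h : S ⊆ Λ) : sInf S ∈ Λ := by
  rcases S.eq_empty_or_nonempty with h1 | h1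
  · rw [h1, Ordinal.sInf_empty]
    exact hΛ.zero_mem
  · exact h (csInf_mem h1)

instance MT.least (Q : Set On → Set On → (ℕ → On) → On → Prop)
    [h : MD fun A Λ v => Q A Λ (fun n => v (n + 1)) (v 0)] :
    MT fun A Λ v => sInf {x | x ∈ Λ ∧ Q A Λ v x} := by
  have : MD fun A Λ v => Q A Λ (fun n => v (n + 1 + 1)) (v 0) :=
    MD.rename (fun A Λ v => Q A Λ (fun n => v (n + 1)) (v 0)) (up (· + 1))
  refine MT.of_graph _ (fun A Λ v x => (Q A Λ v x ∧ ∀ y, y < x → ¬ Q A Λ v y) ∨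
    ((∀ y, y ∈ Λ → ¬ Q A Λ v y) ∧ ∀ y, y < x → False))
    (fun A Λ v hΛ _ => mda_sInf_mem hΛ fun _ hx => hx.1) fun A Λ v hΛ _ x hx => ?_
  rw [← mda_sInf]
  refine or_congr ⟨fun h => ⟨⟨hx, h.1⟩, fun y hy k => h.2 y hy k.2⟩,
    fun h => ⟨h.1.2, fun y hy k => h.2 y hy ⟨hΛ.lower hy.le hx, k⟩⟩⟩ (and_congr_left' ?_)
  exact ⟨fun h y k => h y k.1 k.2, fun h y k k' => h y ⟨k, k'⟩⟩

instance MT.leastLt (t : Fam On) [MT t] (Q : Set On → Set On → (ℕ → On) → On → Prop)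
    [h : MD fun A Λ v => Q A Λ (fun n => v (n + 1)) (v 0)] :
    MT fun A Λ v => sInf {x | x < t A Λ v ∧ Q A Λ v x} := by
  refine MT.congr (h := MT.least fun A Λ v x => x < t A Λ v ∧ Q A Λ v x) fun A Λ v hΛ hv => ?_
  refine congrArg sInf (Set.ext fun x => ⟨fun h => h.2, fun h => ⟨?_, h⟩⟩)
  exact hΛ.lower (le_of_lt h.1) (MT.mem A Λ v hΛ hv)

instance MT.ite (P : Set On → Set On → (ℕ → On) → Prop) [MD P] (s t : Fam On) [MT s] [MT t]
    (d : ∀ A Λ v, Decidable (P A Λ v)) :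
    MT fun A Λ v => @ite _ (P A Λ v) (d A Λ v) (s A Λ v) (t A Λ v) := by
  have : MD fun A Λ v => P A Λ fun n => v (n + 1) := MD.rename P (· + 1)
  refine MT.of_graph _ (fun A Λ v x => (P A Λ v ∧ x = s A Λ v) ∨ (¬ P A Λ v ∧ x = t A Λ v))
    (fun A Λ v hΛ hv => ?_) fun A Λ v _ _ x _ => ?_
  · split_ifs
    · exact MT.mem A Λ v hΛ hv
    · exact MT.mem A Λ v hΛ hv
  · split_ifs with h <;> simp [h]

instance MT.zero : MT fun _ _ _ => 0 :=
  MT.of_graph _ (fun _ _ _ x => ∀ y, y < x → False) (fun _ _ _ hΛ _ => hΛ.zero_mem)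
    fun _ _ _ _ _ _ _ => ⟨fun h => le_antisymm (not_lt.1 (h 0)) zero_le,
      fun h _ k => not_lt_zero (h ▸ k)⟩

instance MT.succ (t : Fam On) [MT t] : MT fun A Λ v => t A Λ v + 1 := by
  refine MT.of_graph _ (fun A Λ v x => t A Λ v < x ∧ ∀ y, y < x → y ≤ t A Λ v)
    (fun A Λ v hΛ hv => hΛ.succ_mem (MT.mem A Λ v hΛ hv)) fun A Λ v _ _ x _ => ?_
  constructor
  · rintro ⟨h1, h2⟩
    exact le_antisymm (not_lt.1 fun k => (lt_add_one _).not_ge (h2 _ k))
      (Order.add_one_le_of_lt h1)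
  · rintro rfl
    exact ⟨lt_add_one _, fun y hy => Order.lt_add_one_iff.1 hy⟩

instance MT.one : MT fun _ _ _ => 1 :=
  MT.congr (h := MT.succ fun _ _ _ => 0) fun _ _ _ _ _ => zero_add 1

instance MT.nat (n : ℕ) : MT fun _ _ _ => (n : On) := by
  induction n with
  | zero => exact MT.congr (h := MT.zero) fun _ _ _ _ _ => Nat.cast_zero.symm
  | succ n ih =>
    exact MT.congr (h := MT.succ fun _ _ _ => (n : On)) fun _ _ _ _ _ => (Nat.cast_succ n).symm

theorem mda_limit (x : On) : Order.IsSuccLimit x ↔ 0 < x ∧ ∀ y, y < x → y + 1 < x := by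
  constructor
  · exact fun h => ⟨h.pos, fun y hy => h.add_one_lt hy⟩
  · exact fun h => ⟨not_isMin_of_lt h.1, Order.isSuccPrelimit_of_succ_lt fun a k => h.2 a k⟩

instance MT.omega : MT fun _ _ _ => ω := by
  refine MT.congr (h := MT.least fun _ _ _ x => 0 < x ∧ ∀ y, y < x → y + 1 < x)
    fun A Λ v hΛ _ => ?_
  have h : ω ∈ {x | x ∈ Λ ∧ 0 < x ∧ ∀ y, y < x → y + 1 < x} :=
    ⟨hΛ.omega_mem, (mda_limit _).1 isSuccLimit_omega0⟩
  exact le_antisymm (csInf_le' h)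
    (omega0_le_of_isSuccLimit ((mda_limit _).2 (csInf_mem ⟨_, h⟩).2))

instance MT.min (s t : Fam On) [MT s] [MT t] : MT fun A Λ v => min (s A Λ v) (t A Λ v) :=
  MT.congr (h := MT.ite (fun A Λ v => s A Λ v ≤ t A Λ v) s t fun _ _ _ => Classical.dec _)
    fun _ _ _ _ _ => by
      split_ifs with h
      · exact (min_eq_left h).symm
      · exact (min_eq_right (not_le.1 h).le).symm

instance MT.max (s t : Fam On) [MT s] [MT t] : MT fun A Λ v => max (s A Λ v) (t A Λ v) :=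
  MT.congr (h := MT.ite (fun A Λ v => s A Λ v ≤ t A Λ v) t s fun _ _ _ => Classical.dec _)
    fun _ _ _ _ _ => by
      split_ifs with h
      · exact (max_eq_right h).symm
      · exact (max_eq_left (not_le.1 h).le).symm

/-- A term that is the value of a function with a definable graph. -/
theorem mda_fun (f : On → On) (h : MD fun _ _ v => f (v 0) = v 1)
    (hf : ∀ Λ, Nice Λ → ∀ x ∈ Λ, f x ∈ Λ) (t : Fam On) [MT t] :
    MT fun A Λ v => f (t A Λ v) :=
  haveI : MD fun A Λ v => f (t A Λ fun n => v (n + 1)) = v 0 :=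
    MD.two (fun _ _ a b => f a = b) (fun A Λ v => t A Λ fun n => v (n + 1)) fun _ _ v => v 0
  MT.of_graph _ (fun A Λ v x => f (t A Λ v) = x)
    (fun A Λ v hΛ hv => hf Λ hΛ _ (MT.mem A Λ v hΛ hv)) fun _ _ _ _ _ _ _ => eq_comm

instance MT.lev (t : Fam On) [MT t] : MT fun A Λ v => lev (t A Λ v) :=
  mda_fun MP_fd3eaf_lc.lev (MD.congr (h := MD.atom 2 0 1 0 (by omega)) fun _ _ _ _ _ => by
    simp [Atom]) (fun _ hΛ x hx => hΛ.lower (lev_le x) hx) t

instance MT.cut (t : Fam On) [MT t] : MT fun A Λ v => cut (t A Λ v) :=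
  mda_fun MP_fd3eaf_lc.cut (MD.congr (h := MD.atom 3 0 1 0 (by omega)) fun _ _ _ _ _ => by
    simp [Atom]) (fun _ hΛ x hx => hΛ.lower (cut_le x) hx) t

instance MT.fml (t : Fam On) [MT t] : MT fun A Λ v => (fml (t A Λ v) : On) :=
  mda_fun (fun x => (MP_fd3eaf_lc.fml x : On))
    (MD.congr (h := MD.atom 4 0 1 0 (by omega)) fun _ _ _ _ _ => by simp [Atom])
    (fun _ hΛ _ _ => hΛ.nat_mem _) t

/-- The atom `par z = y :: par x`. -/
theorem mda_cons (x y z : Fam On) [MT x] [MT y] [MT z] :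
    MD fun A Λ v => par (z A Λ v) = y A Λ v :: par (x A Λ v) := by
  have : MD fun _ _ v => par (v 0) = v 1 :: par (v 2) :=
    MD.congr (h := MD.atom 5 2 1 0 (by omega)) fun _ _ _ _ _ => by simp [Atom]
  refine MD.congr (P := fun A Λ v => ∃ a, a ∈ Λ ∧ (a = x A Λ v ∧ ∃ b, b ∈ Λ ∧ (b = y A Λ v ∧
    ∃ c, c ∈ Λ ∧ (c = z A Λ v ∧ par c = b :: par a)))) fun A Λ v hΛ hv => ?_
  constructor
  · rintro ⟨a, -, rfl, b, -, rfl, c, -, rfl, h⟩
    exact h
  · exact fun h => ⟨_, MT.mem A Λ v hΛ hv, rfl, _, MT.mem A Λ v hΛ hv, rfl, _,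
      MT.mem A Λ v hΛ hv, rfl, h⟩

/-- Every list of elements of `Λ` is the list of an element of `Λ`. -/
theorem mda_list {Λ : Set On} (hΛ : Nice Λ) (q : List On) (hq : ∀ a ∈ q, a ∈ Λ) :
    ∃ z, z ∈ Λ ∧ par z = q := by
  have h : ∃ l ∈ Λ, IsLev l ∧ ∀ a ∈ q, a < l := by
    induction q with
    | nil => exact ⟨ω, hΛ.omega_mem, isLev_omega, fun a ha => absurd ha List.not_mem_nil⟩
    | cons b q ih =>
      obtain ⟨l, h1, h2, h3⟩ := ih fun a ha => hq a (List.mem_cons_of_mem _ ha)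
      rcases lt_or_ge b l with k | k
      · exact ⟨l, h1, h2, fun a ha => (List.mem_cons.1 ha).elim (fun e => e ▸ k) (h3 a)⟩
      · exact ⟨nl b, hΛ.nl_mem (hq b List.mem_cons_self), isLev_nl b, fun a ha =>
          (List.mem_cons.1 ha).elim (fun e => e ▸ lt_nl b)
            fun m => ((h3 a m).trans_le k).trans (lt_nl b)⟩
  obtain ⟨l, h1, h2, h3⟩ := h
  exact ⟨code ⟨l, 0, 0, q⟩, hΛ.code_mem h1, par_code (x := ⟨l, 0, 0, q⟩) h2 ⟨zero_le, h3⟩⟩

theorem mda_par_mem {Λ : Set On} (hΛ : Nice Λ) {x : On} (hx : x ∈ Λ) : ∀ a ∈ par x, a ∈ Λ :=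
  fun _ ha => hΛ.lower (par_lt ha).le hx

/-- Hint: `par x = par y` iff some `z ∈ Λ` has `par z = 0 :: par x` and `par z = 0 :: par y`. -/
instance ML.par (t : Fam On) [MT t] : ML fun A Λ v => par (t A Λ v) := by
  have := MT.shift t fun n => n + 1 + 1
  have := mda_cons (fun _ _ v => v 1) (fun _ _ _ => 0) fun _ _ v => v 0
  have := mda_cons (fun A Λ v => t A Λ fun n => v (n + 1 + 1)) (fun _ _ _ => 0) fun _ _ v => v 0
  refine ⟨MD.congr (P := fun A Λ v => ∃ z, z ∈ Λ ∧ (MP_fd3eaf_lc.par z = 0 :: MP_fd3eaf_lc.par (v 0) ∧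
    MP_fd3eaf_lc.par z = 0 :: MP_fd3eaf_lc.par (t A Λ fun n => v (n + 1)))) fun A Λ v hΛ hv => ?_⟩
  constructor
  · rintro ⟨z, -, h1, h2⟩
    exact (List.cons.inj (h1.symm.trans h2)).2
  · intro h
    obtain ⟨z, h1, h2⟩ := mda_list hΛ (0 :: MP_fd3eaf_lc.par (v 0)) fun a ha =>
      (List.mem_cons.1 ha).elim (fun e => e ▸ hΛ.zero_mem) (mda_par_mem hΛ (hv 0) a)
    exact ⟨z, h1, h2, h ▸ h2⟩

/-- Hint: `par 0 = []`. -/
instance ML.nil : ML fun _ _ _ => [] :=
  ⟨MD.congr (h := (ML.par fun _ _ _ => 0).df) fun _ _ _ _ _ => by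
    rw [MP_fd3eaf_lc.par.eq_1 0, D_small omega0_pos]⟩

instance ML.cons (t : Fam On) [MT t] (q : Fam (List On)) [ML q] :
    ML fun A Λ v => t A Λ v :: q A Λ v := by
  have := MT.shift t fun n => n + 1 + 1
  have := mda_cons (fun _ _ v => v 0) (fun A Λ v => t A Λ fun n => v (n + 1 + 1))
    fun _ _ v => v 1
  refine ⟨MD.congr (P := fun A Λ v => ∃ z, z ∈ Λ ∧ (MP_fd3eaf_lc.par z = q A Λ (fun n => v (n + 1)) ∧
    MP_fd3eaf_lc.par (v 0) = t A Λ (fun n => v (n + 1)) :: MP_fd3eaf_lc.par z))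
    fun A Λ v hΛ hv => ?_⟩
  constructor
  · rintro ⟨z, -, h1, h2⟩
    exact h1 ▸ h2
  · intro h
    obtain ⟨z, h1, h2⟩ := mda_list hΛ (q A Λ fun n => v (n + 1)) fun a ha =>
      mda_par_mem hΛ (hv 0) a (h ▸ List.mem_cons_of_mem _ ha)
    exact ⟨z, h1, h2, h2 ▸ h⟩

/-- Hint: induction on `i`, generalising `t`; a tail of `par c` is the list of a code at `lev c`. -/
instance MT.lv_par (t : Fam On) [MT t] (i : ℕ) : MT fun A Λ v => lv (par (t A Λ v)) i := by
  refine mda_fun (fun x => lv (par x) i) ?_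
    (fun _ hΛ x hx => lv_mem hΛ.zero_mem (mda_par_mem hΛ hx) i) t
  induction i with
  | zero =>
    refine MD.congr (P := fun _ Λ v => (par (v 0) = [] ∧ v 1 = 0) ∨
      ∃ z, z ∈ Λ ∧ par (v 0) = v 1 :: par z) fun A Λ v hΛ hv => ?_
    constructor
    · rintro (⟨h1, h2⟩ | ⟨z, -, h⟩)
      · rw [h1, h2, lv_nil]
      · rw [h, lv_zero]
    · intro h
      rcases e : par (v 0) with _ | ⟨a, q⟩
      · rw [e, lv_nil] at h
        exact Or.inl ⟨rfl, h.symm⟩
      · rw [e, lv_zero] at h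
        obtain ⟨z, h1, h2⟩ := mda_list hΛ q fun b hb =>
          mda_par_mem hΛ (hv 0) b (e ▸ List.mem_cons_of_mem _ hb)
        exact Or.inr ⟨z, h1, by rw [h, h2]⟩
  | succ i ih =>
    have : MD fun _ _ v => lv (par (v 0)) i = v (1 + 1 + 1) :=
      MD.rename (h := ih) _ fun n => 3 * n
    refine MD.congr (P := fun _ Λ v => (par (v 0) = [] ∧ v 1 = 0) ∨
      ∃ a, a ∈ Λ ∧ ∃ z, z ∈ Λ ∧ (par (v 0) = a :: par z ∧ lv (par z) i = v 1))
      fun A Λ v hΛ hv => ?_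
    constructor
    · rintro (⟨h1, h2⟩ | ⟨a, -, z, -, h1, h2⟩)
      · rw [h1, h2, lv_nil]
      · rw [h1, lv_succ, h2]
    · intro h
      rcases e : par (v 0) with _ | ⟨a, q⟩
      · rw [e, lv_nil] at h
        exact Or.inl ⟨rfl, h.symm⟩
      · rw [e, lv_succ] at h
        obtain ⟨z, h1, h2⟩ := mda_list hΛ q fun b hb =>
          mda_par_mem hΛ (hv 0) b (e ▸ List.mem_cons_of_mem _ hb)
        exact Or.inr ⟨a, mda_par_mem hΛ (hv 0) a (e ▸ List.mem_cons_self), z, h1,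
          by rw [h2], by rw [h2, h]⟩

instance MD.isLev (t : Fam On) [MT t] : MD fun A Λ v => IsLev (t A Λ v) :=
  MD.congr (P := fun A Λ v => ω ≤ t A Λ v ∧ lev (t A Λ v) = t A Λ v) fun _ _ _ _ _ => Iff.rfl

instance MD.nice (t : Fam On) [MT t] : MD fun A Λ v => Nice (Iio (t A Λ v)) :=
  MD.congr (P := fun A Λ v => 0 < t A Λ v ∧ ∀ c, c < t A Λ v → ∃ l, l < t A Λ v ∧
    (IsLev l ∧ c < l)) fun _ _ _ _ _ =>
      ⟨fun h => ⟨isLowerSet_Iio _, ⟨0, h.1⟩, h.2⟩, fun h => ⟨h.zero_mem, h.up⟩⟩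

instance MD.limit (t : Fam On) [MT t] : MD fun A Λ v => Order.IsSuccLimit (t A Λ v) :=
  MD.congr (P := fun A Λ v => 0 < t A Λ v ∧ ∀ y, y < t A Λ v → y + 1 < t A Λ v)
    fun _ _ _ _ _ => (mda_limit _).symm

instance MT.nl (t : Fam On) [MT t] : MT fun A Λ v => nl (t A Λ v) := by
  refine MT.congr (h := MT.least fun A Λ v l => IsLev l ∧ t A Λ v < l) fun A Λ v hΛ hv => ?_
  have h : MP_fd3eaf_lc.nl (t A Λ v) ∈ {x | x ∈ Λ ∧ IsLev x ∧ t A Λ v < x} :=
    ⟨hΛ.nl_mem (MT.mem A Λ v hΛ hv), isLev_nl _, lt_nl _⟩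
  have h' := csInf_mem ⟨_, h⟩
  exact le_antisymm (csInf_le' h) (nl_le h'.2.1 h'.2.2)

theorem mdb_code (l e m : Fam On) [MT l] [MT e] [MT m] (q : Fam (List On)) [ML q] :
    MD fun A Λ v => ω ≤ v 0 ∧ lev (v 0) = l A Λ (fun n => v (n + 1)) ∧
      (fml (v 0) : On) = m A Λ (fun n => v (n + 1)) ∧ cut (v 0) = e A Λ (fun n => v (n + 1)) ∧
      par (v 0) = q A Λ fun n => v (n + 1) := inferInstance

/-- The code is the least `z ∈ Λ` with `ω ≤ z ∧ D z = x`. -/
instance MT.code (l e : Fam On) [MT l] [MT e] (n : Set On → Set On → (ℕ → On) → ℕ)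
    [MT fun A Λ v => (n A Λ v : On)] (q : Fam (List On)) [ML q] :
    MT fun A Λ v => code ⟨l A Λ v, n A Λ v, e A Λ v, q A Λ v⟩ := by
  have := mdb_code l e (fun A Λ v => (n A Λ v : On)) q
  refine MT.congr (h := MT.least fun A Λ v x => ω ≤ x ∧ MP_fd3eaf_lc.lev x = l A Λ v ∧
    (MP_fd3eaf_lc.fml x : On) = n A Λ v ∧ MP_fd3eaf_lc.cut x = e A Λ v ∧ par x = q A Λ v)
    fun A Λ v hΛ hv => congrArg sInf (Set.ext fun x => ⟨fun ⟨_, a, b, c, d, f⟩ =>
      ⟨a, Loc.ext b (Nat.cast_injective c) d f⟩, fun ⟨a, b⟩ => ⟨?_, a, congrArg Loc.l b,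
        congrArg Nat.cast (congrArg Loc.k b), congrArg Loc.e b, congrArg Loc.q b⟩⟩)
  rw [← code_D a, b]
  exact hΛ.code_mem (MT.mem A Λ v hΛ hv)

instance MT.ins (s t : Fam On) [MT s] [MT t] : MT fun A Λ v => ins (s A Λ v) (t A Λ v) := by
  unfold MP_fd3eaf_lc.ins; infer_instance

instance MT.mov (s t : Fam On) [MT s] [MT t] : MT fun A Λ v => mov (s A Λ v) (t A Λ v) := by
  unfold MP_fd3eaf_lc.mov; infer_instance

instance MT.rct (s t : Fam On) [MT s] [MT t] : MT fun A Λ v => rct (s A Λ v) (t A Λ v) := by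
  unfold MP_fd3eaf_lc.rct; infer_instance

instance MT.new (s t : Fam On) [MT s] [MT t] (k : ℕ) :
    MT fun A Λ v => new (s A Λ v) k (t A Λ v) := by
  unfold MP_fd3eaf_lc.new; infer_instance

instance MO.self : MO fun A _ _ => A :=
  ⟨MD.congr (h := MD.atom 7 0 0 0 (by omega)) fun _ _ _ _ _ => by simp [Atom],
    MD.congr (h := MD.atom 8 0 0 0 (by omega)) fun _ _ _ _ _ => by simp [Atom]⟩

/-- Hint: `T_inter`. -/
instance MO.inter (B : Fam (Set On)) [MO B] (t : Fam On) [MT t] :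
    MO fun A Λ v => B A Λ v ∩ Iio (t A Λ v) :=
  ⟨MD.congr (P := fun A Λ v => v 0 ∈ B A Λ (fun n => v (n + 1)) ∧ v 0 < t A Λ fun n => v (n + 1))
      fun _ _ _ _ _ => Iff.rfl,
    MD.congr (P := fun A Λ v => T (B A Λ fun n => v (n + 1))
      (rct (v 0) (min (cut (v 0)) (t A Λ fun n => v (n + 1))))) fun _ _ _ _ _ =>
      (T_inter _ _ _).symm⟩

theorem mdb_six (s t : Fam On) [MT s] [MT t] :
    MD fun A Λ v => tg (fml (s A Λ v)) = 11 ∧ fml (t A Λ v) = oa (fml (s A Λ v)) :=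
  haveI : MD fun _ _ v => tg (fml (v 0)) = 11 ∧ fml (v 1) = oa (fml (v 0)) :=
    MD.congr (h := MD.atom 6 0 1 0 (by omega)) fun _ _ _ _ _ => by simp [Atom]
  MD.two (fun _ _ a b => tg (fml a) = 11 ∧ fml b = oa (fml a)) s t

theorem MT.wit (Q : Set On → Set On → (ℕ → On) → On → Prop)
    [h : MD fun A Λ v => Q A Λ (fun n => v (n + 1)) (v 0)] (t : Fam On) [MT t] :
    MT fun A Λ v => wit (Q A Λ v) (t A Λ v) := by
  have : MT fun A Λ v => t A Λ fun n => v (n + 1 + 1) := MT.shift t fun n => n + 1 + 1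
  have := mdb_six (fun A Λ v => t A Λ fun n => v (n + 1 + 1)) fun _ _ v => v 0
  have : MD fun A Λ v => Q A Λ (fun n => v (n + 1 + 1 + 1)) (v 0) :=
    MD.rename (fun A Λ v => Q A Λ (fun n => v (n + 1)) (v 0)) (up fun n => n + 1 + 1)
  have := MD.subst (fun A Λ v a => Q A Λ (fun n => v (n + 1 + 1)) a) fun A Λ v =>
    MP_fd3eaf_lc.code ⟨MP_fd3eaf_lc.lev (t A Λ fun n => v (n + 1 + 1)), MP_fd3eaf_lc.fml (v 0),
      MP_fd3eaf_lc.cut (t A Λ fun n => v (n + 1 + 1)), v 1 :: par (t A Λ fun n => v (n + 1 + 1))⟩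
  refine MT.congr (h := MT.leastLt (fun A Λ v => MP_fd3eaf_lc.lev (t A Λ v)) fun A Λ v ξ =>
    ∃ y, y ∈ Λ ∧ ((tg (MP_fd3eaf_lc.fml (t A Λ v)) = 11 ∧
      MP_fd3eaf_lc.fml y = oa (MP_fd3eaf_lc.fml (t A Λ v))) ∧
      ¬ Q A Λ v (MP_fd3eaf_lc.code ⟨MP_fd3eaf_lc.lev (t A Λ v), MP_fd3eaf_lc.fml y,
        MP_fd3eaf_lc.cut (t A Λ v), ξ :: par (t A Λ v)⟩)))
    fun A Λ v hΛ _ => congrArg sInf (Set.ext fun ξ => ⟨fun ⟨a, _, _, ⟨b, c⟩, d⟩ =>
      ⟨b, a, by rwa [c] at d⟩, fun ⟨a, b, c⟩ => ?_⟩)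
  have e := fml_code (x := ⟨ω, oa (MP_fd3eaf_lc.fml (t A Λ v)), 0, []⟩) isLev_omega
    ⟨zero_le, fun _ m => absurd m List.not_mem_nil⟩
  exact ⟨b, _, hΛ.code_mem hΛ.omega_mem, ⟨a, e⟩, by rw [e]; exact c⟩

instance MT.sk (B : Fam (Set On)) [MO B] (t : Fam On) [MT t] :
    MT fun A Λ v => sk (B A Λ v) (t A Λ v) :=
  MT.wit (fun A Λ v x => T (B A Λ v) x) t

instance MT.fo (B : Fam (Set On)) [MO B] (t : Fam On) [MT t] :
    MT fun A Λ v => fo (B A Λ v) (t A Λ v) :=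
  MT.wit (fun A Λ v x => x ∈ B A Λ v) t

instance MD.memExt (B : Fam (Set On)) [MO B] (s t : Fam On) [MT s] [MT t] :
    MD fun A Λ v => t A Λ v ∈ ext (B A Λ v) (s A Λ v) :=
  MD.congr (P := fun A Λ v => t A Λ v < lev (s A Λ v) ∧ T (B A Λ v) (ins (s A Λ v) (t A Λ v)))
    fun _ _ _ _ _ => Iff.rfl

theorem mdb_atom (n : ℕ) (B : Fam (Set On)) [MO B] (x y z : Fam On) [MT x] [MT y] [MT z] :
    MD fun A Λ v => Atom (B A Λ v) (T (B A Λ v)) n (x A Λ v) (y A Λ v) (z A Λ v) := by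
  have := mdb_six x y
  have : MD fun A Λ v => lv (par (x A Λ v)) (fml (y A Λ v)) = z A Λ v :=
    MD.three (fun _ _ a b c => lv (par a) (fml b) = c)
      (h := MD.congr (h := MD.atom 12 0 1 2 (by omega)) fun _ _ _ _ _ => by simp [Atom]) x y z
  have : MD fun A Λ v => (par (x A Λ v)).length = fml (y A Λ v) :=
    MD.two (fun _ _ a b => (par a).length = fml b)
      (h := MD.congr (h := MD.atom 13 0 1 0 (by omega)) fun _ _ _ _ _ => by simp [Atom]) x y
  have : MD fun A Λ v => dc (fml (z A Λ v)) (fml (x A Λ v)) = fml (y A Λ v) :=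
    MD.three (fun _ _ a b c => dc (fml c) (fml a) = fml b)
      (h := MD.congr (h := MD.atom 14 0 1 2 (by omega)) fun _ _ _ _ _ => by simp [Atom]) x y z
  unfold Atom
  infer_instance

/-- The variable `0` followed by shifted terms. -/
def mdb_cons (t : ℕ → Fam On) (i : ℕ) : Fam On := fun A Λ v =>
  cons (v 0) (fun i => t i A Λ fun n => v (n + 1)) i

theorem mdb_cons_mt (t : ℕ → Fam On) (ht : ∀ i, MT (t i)) : ∀ i, MT (mdb_cons t i)
  | 0 => MT.var 0
  | i + 1 => MT.shift (t i) (h := ht i) fun n => n + 1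

/-- Truth in a definable subclass of `Λ` with a definable oracle. -/
theorem MD.satIn (k : ℕ) (B : Fam (Set On)) [MO B] (L : Fam (Set On))
    (hL : MD fun A Λ v => v 0 ∈ L A Λ fun n => v (n + 1))
    (hs : ∀ A Λ v, Nice Λ → (∀ i, v i ∈ Λ) → L A Λ v ⊆ Λ)
    (t : ℕ → Fam On) (ht : ∀ i, MT (t i)) :
    MD fun A Λ v => Sat (B A Λ v) (L A Λ v) k fun i => t i A Λ v := by
  induction k using Nat.strong_induction_on generalizing B L t with
  | _ k ih =>
    by_cases a1 : tg k = 9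
    · have := ih _ (oa_lt (k := k) (by omega)) B L hL hs t ht
      exact MD.congr (h := MD.not _) fun _ _ _ _ _ => (sat_neg a1).symm
    by_cases a2 : tg k = 10
    · have := ih _ (oa_lt (k := k) (by omega)) B L hL hs t ht
      have := ih _ (ob_lt (k := k) (by omega)) B L hL hs t ht
      exact MD.congr (h := MD.and _ _) fun _ _ _ _ _ => (sat_and a2).symm
    by_cases a3 : tg k = 11
    · have h1 := ih _ (oa_lt (k := k) (by omega)) (fun A Λ v => B A Λ fun n => v (n + 1))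
        (fun A Λ v => L A Λ fun n => v (n + 1))
        (MD.rename (fun A Λ v => v 0 ∈ L A Λ fun n => v (n + 1)) (up fun n => n + 1))
        (fun A Λ v hΛ hv => hs A Λ _ hΛ fun _ => hv _) (mdb_cons t) (mdb_cons_mt t ht)
      have : MD fun A Λ v => Sat (B A Λ fun n => v (n + 1)) (L A Λ fun n => v (n + 1)) (oa k)
          (cons (v 0) fun i => t i A Λ fun n => v (n + 1)) := h1
      refine MD.congr (h := MD.allL fun A Λ v a => a ∈ L A Λ v →
        Sat (B A Λ v) (L A Λ v) (oa k) (cons a fun i => t i A Λ v)) fun A Λ v hΛ hv => ?_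
      rw [sat_all a3]
      exact ⟨fun h a ha => h a (hs A Λ v hΛ hv ha) ha, fun h a _ ha => h a ha⟩
    have := ht (oa k)
    have := ht (ob k)
    have := ht (oc k)
    exact MD.congr (h := mdb_atom (tg k) B (t (oa k)) (t (ob k)) (t (oc k))) fun A Λ v _ _ =>
      (sat_atom (v := fun i => t i A Λ v) a1 a2 a3).symm

theorem MD.satL (k : ℕ) (B : Fam (Set On)) [MO B] (t : ℕ → Fam On) (ht : ∀ i, MT (t i)) :
    MD fun A Λ v => Sat (B A Λ v) Λ k fun i => t i A Λ v :=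
  MD.satIn k B (fun _ Λ _ => Λ)
    (MD.congr (h := MD.tru) fun _ _ _ _ hv => iff_of_true trivial (hv 0))
    (fun _ _ _ _ _ => Subset.rfl) t ht

theorem MD.satLt (k : ℕ) (B : Fam (Set On)) [MO B] (l : Fam On) [MT l] (t : ℕ → Fam On)
    (ht : ∀ i, MT (t i)) :
    MD fun A Λ v => Sat (B A Λ v) (Iio (l A Λ v)) k fun i => t i A Λ v :=
  MD.satIn k B (fun A Λ v => Iio (l A Λ v))
    (MD.lt (fun _ _ v => v 0) fun A Λ v => l A Λ fun n => v (n + 1))
    (fun A Λ v hΛ hv _ hx => hΛ.lower (le_of_lt hx) (MT.mem A Λ v hΛ hv)) t ht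

/-- Simultaneous substitution of terms and of the oracle. -/
theorem MD.substAll (P : Set On → Set On → (ℕ → On) → Prop) [MD P] (B : Fam (Set On)) [MO B]
    (t : ℕ → Fam On) (ht : ∀ i, MT (t i)) :
    MD fun A Λ v => P (B A Λ v) Λ fun i => t i A Λ v := by
  obtain ⟨k, h⟩ := MD.ex (P := P)
  exact MD.congr (h := MD.satL k B t ht) fun A Λ v hΛ hv =>
    h _ Λ _ hΛ fun i => (ht i).mem A Λ v hΛ hv

theorem MT.substAll (s : Fam On) [MT s] (B : Fam (Set On)) [MO B]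
    (t : ℕ → Fam On) (ht : ∀ i, MT (t i)) :
    MT fun A Λ v => s (B A Λ v) Λ fun i => t i A Λ v :=
  haveI := MT.df (t := s)
  ⟨fun A Λ v hΛ hv => MT.mem _ Λ _ hΛ fun i => (ht i).mem A Λ v hΛ hv,
    MD.substAll (fun A Λ v => v 0 = s A Λ fun n => v (n + 1))
      (fun A Λ v => B A Λ fun n => v (n + 1)) (mdb_cons t) (mdb_cons_mt t ht)⟩

/-- Truncation of the assignment. -/
theorem MT.trunc (n i : ℕ) : MT fun _ _ v => if i < n then v i else 0 := by
  by_cases h : i < n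
  · exact MT.congr (h := MT.var i) fun _ _ _ _ _ => (if_pos h).symm
  · exact MT.congr (h := MT.zero) fun _ _ _ _ _ => (if_neg h).symm

theorem MT.ev (u : Tm) (B : Fam (Set On)) [MO B] (t : ℕ → Fam On) (ht : ∀ i, MT (t i)) :
    MT fun A Λ v => ev (B A Λ v) (fun i => t i A Λ v) u := by
  induction u with
  | var i => exact ht i
  | nat n => exact MT.nat n
  | lev u ih => exact MT.lev _
  | cut u ih => exact MT.cut _
  | par i u ih => exact MT.lv_par _ i
  | sk u ih => exact MT.sk B _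
  | fo u ih => exact MT.fo B _
  | new s k u ih ih' => exact MT.new _ _ k
  | ins s u ih ih' => exact MT.ins _ _

theorem MD.ok (u : Tm) (B : Fam (Set On)) [MO B] (l : Fam On) [MT l] (t : ℕ → Fam On)
    (ht : ∀ i, MT (t i)) :
    MD fun A Λ v => ok (B A Λ v) (Iio (l A Λ v)) (fun i => t i A Λ v) u := by
  induction u with
  | var i =>
    haveI := ht i
    exact MD.lt (t i) l
  | nat n => exact MD.tru
  | lev u ih => exact ih
  | cut u ih => exact ih
  | par i u ih => exact ih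
  | sk u ih => exact ih
  | fo u ih => exact ih
  | new s k u ih ih' =>
    haveI := MT.ev (.new s k u) B t ht
    haveI := MD.lt (fun A Λ v => ev (B A Λ v) (fun i => t i A Λ v) (.new s k u)) l
    exact MD.and _ _ (h1 := ih) (h2 := MD.and _ _ (h1 := ih') (h2 := this))
  | ins s u ih ih' =>
    haveI := MT.ev (.ins s u) B t ht
    haveI := MD.lt (fun A Λ v => ev (B A Λ v) (fun i => t i A Λ v) (.ins s u)) l
    exact MD.and _ _ (h1 := ih) (h2 := MD.and _ _ (h1 := ih') (h2 := this))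

theorem mdc_list (L : List ℕ) (t : ℕ → Fam On) (ht : ∀ i, MT (t i)) :
    ML fun A Λ v => L.map fun i => t i A Λ v := by
  induction L with
  | nil => exact ML.nil
  | cons i L ih =>
    haveI := ht i
    exact ML.cons (t i) _

theorem mdc_len (q : List On) (n : ℕ) :
    q = (List.range n).map (fun i => lv q i) ↔ q.length = n := by
  refine ⟨fun h => by simpa using congrArg List.length h, fun h => ?_⟩
  refine List.ext_getElem (by simpa using h) fun i h1 h2 => ?_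
  simp [lv, List.getD_eq_getElem?_getD, List.getElem?_eq_getElem h1]

instance MD.tp (B : Fam (Set On)) [MO B] (s t : Fam On) [MT s] [MT t] (i : Ix) :
    MD fun A Λ v => tp (B A Λ v) (s A Λ v) (t A Λ v) i := by
  cases i with
  | lt => exact MD.lt s t
  | lev => exact MD.eq (fun A Λ v => lev (s A Λ v)) t
  | cut => exact MD.eq (fun A Λ v => cut (s A Λ v)) t
  | sk => exact MD.eq (fun A Λ v => sk (B A Λ v) (s A Λ v)) t
  | fo => exact MD.eq (fun A Λ v => fo (B A Λ v) (s A Λ v)) t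
  | or => exact MD.mem B s
  | tr => exact MD.tr B s
  | par i => exact MD.eq (fun A Λ v => lv (par (s A Λ v)) i) t
  | fml n =>
    exact MD.congr (P := fun A Λ v => (fml (s A Λ v) : On) = (n : On)) fun _ _ _ _ _ =>
      Nat.cast_inj
  | len n =>
    haveI := mdc_list (List.range n) (fun i A Λ v => lv (par (s A Λ v)) i) fun i => MT.lv_par s i
    exact MD.congr (h := MD.parEq s fun A Λ v => (List.range n).map fun i => lv (par (s A Λ v)) i)
      fun _ _ _ _ _ => mdc_len _ n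
  | nat n => exact MD.eq s fun _ _ _ => (n : On)

/-- A definable predicate is computed by the machine at nice levels. -/
theorem MD.at (P : Set On → Set On → (ℕ → On) → Prop) [MD P] : ∃ k, ∀ A l q, Nice (Iio l) →
    (∀ a ∈ q, a < l) → (T A (code ⟨l, k, l, q⟩) ↔ P A (Iio l) (lv q)) := by
  obtain ⟨k, h⟩ := MD.ex (P := P)
  exact ⟨k, fun A l q hl hq => (T_code_lev hl.isLev hq).trans
    (h A _ _ hl (lv_mem hl.zero_mem hq))⟩

/-- A definable subset of a nice level has a name. -/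
theorem MD.exists_ext (P : Set On → Set On → (ℕ → On) → Prop) [MD P] (A : Set On) {l : On}
    (hl : Nice (Iio l)) (q : List On) (hq : ∀ a ∈ q, a < l) :
    ∃ s, lev s = l ∧ cut s = l ∧ par s = q ∧ ext A s = {x | x < l ∧ P A (Iio l) (lv (x :: q))} := by
  obtain ⟨k, h⟩ := MD.ex (P := P)
  have h1 : IsLev (Loc.mk l k l q).l := hl.isLev
  have h2 : (Loc.mk l k l q).Valid := ⟨le_rfl, hq⟩
  refine ⟨_, lev_code h1 h2, cut_code h1 h2, par_code h1 h2, ?_⟩
  rw [ext_code h1 h2]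
  refine Set.ext fun x => and_congr_right fun hx => ?_
  have hv : ∀ i, lv (x :: q) i ∈ Iio l :=
    lv_mem hl.zero_mem fun a m => (List.mem_cons.1 m).elim (fun e => e ▸ hx) (hq a)
  exact (sat_congr hl.lower hv fun y hy => and_iff_left hy).trans (h A _ _ hl hv)

/-- The value of a definable term is the least solution of a formula. -/
theorem MT.exists_lw (t : Fam On) [MT t] : ∃ k, ∀ A Λ q, Nice Λ → (∀ a ∈ q, a ∈ Λ) →
    lw A Λ k q = t A Λ (lv q) := by
  obtain ⟨k, h⟩ := (MT.df (t := t)).ex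
  refine ⟨k, fun A Λ q hΛ hq => ?_⟩
  have e : {ξ | ξ ∈ Λ ∧ Sat A Λ k (lv (ξ :: q))} = {t A Λ (lv q)} := by
    refine Set.ext fun ξ => ⟨fun hξ => ?_, fun hξ => ?_⟩
    · exact (h A Λ _ hΛ (lv_mem hΛ.zero_mem fun a m =>
        (List.mem_cons.1 m).elim (fun e => e ▸ hξ.1) (hq a))).1 hξ.2
    · have hm : ξ ∈ Λ := hξ ▸ MT.mem A Λ _ hΛ (lv_mem hΛ.zero_mem hq)
      exact ⟨hm, (h A Λ _ hΛ (lv_mem hΛ.zero_mem fun a m =>
        (List.mem_cons.1 m).elim (fun e => e ▸ hm) (hq a))).2 hξ⟩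
  rw [lw, e, csInf_singleton]

/-- Definition by recursion on the levels.  `R A x y` only refers to `R A x' y'` for `x', y'` below
the nice level `b x y ≤ max x y`.  Hint: let `k` be given by `hd`; show by induction on `b x y`,
for all oracles and nice `Λ`, that `Sat A Λ k (lv [x, y, new ω k 0]) ↔ R A x y`. -/
theorem MD.recursion (R : Set On → On → On → Prop) (b : On → On → On)
    (Φ : Set On → (On → On → Prop) → On → On → Prop)
    (hb : ∀ x y, b x y ≤ max x y)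
    (hR : ∀ A x y, R A x y ↔ Φ A (R A) x y)
    (hl : ∀ A Q Q' x y, (Nice (Iio (b x y)) → ∀ x' < b x y, ∀ y' < b x y, Q x' y' ↔ Q' x' y') →
      (Φ A Q x y ↔ Φ A Q' x y))
    (ho : ∀ A l x y, IsLev l → x < l → y < l → (R (A ∩ Iio l) x y ↔ R A x y))
    (hd : MD fun A _ v => Φ A
      (fun x y => T A (code ⟨b (v 0) (v 1), fml (v 2), b (v 0) (v 1), [x, y, v 2]⟩)) (v 0) (v 1)) :
    MD fun A _ v => R A (v 0) (v 1) := by
  obtain ⟨k, h⟩ := hd.ex
  have hk : fml (new ω k 0) = k :=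
    fml_code (x := ⟨ω, k, 0, []⟩) isLev_omega ⟨zero_le, fun _ m => absurd m List.not_mem_nil⟩
  have hq : ∀ {Λ : Set On} {x y : On}, Nice Λ → x ∈ Λ → y ∈ Λ →
      ∀ a ∈ [x, y, new ω k 0], a ∈ Λ := by
    intro Λ x y hΛ hx hy a m
    simp only [List.mem_cons, List.not_mem_nil, or_false] at m
    rcases m with rfl | rfl | rfl
    exacts [hx, hy, hΛ.code_mem hΛ.omega_mem]
  have key : ∀ β x y, b x y = β → ∀ A Λ, Nice Λ → x ∈ Λ → y ∈ Λ →
      (Sat A Λ k (lv [x, y, new ω k 0]) ↔ R A x y) := by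
    intro β
    induction β using WellFoundedLT.induction with
    | ind β ih =>
      rintro x y rfl A Λ hΛ hx hy
      refine (h A Λ _ hΛ (lv_mem hΛ.zero_mem (hq hΛ hx hy))).trans (Iff.trans ?_ (hR A x y).symm)
      refine hl A _ _ x y fun hn x' hx' y' hy' => ?_
      change T A (code ⟨b x y, fml (new ω k 0), b x y, [x', y', new ω k 0]⟩) ↔ _
      rw [hk, T_code_lev hn.isLev (hq hn hx' hy')]
      exact ih _ ((hb x' y').trans_lt (max_lt hx' hy')) x' y' rfl A _ hn hx' hy'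
  refine MD.congr (h := MD.satL k (fun A _ _ => A) (fun i _ _ v => lv [v 0, v 1, new ω k 0] i) ?_)
    fun A Λ v hΛ hv => key _ _ _ rfl A Λ hΛ (hv 0) (hv 1)
  rintro (_ | _ | _ | i)
  · exact MT.var 0
  · exact MT.var 1
  · exact MT.new (fun _ _ _ => ω) (fun _ _ _ => 0) k
  · exact MT.zero

example : MD fun A Λ v => ∀ x < v 0, ∃ ξ < v 1, ∃ y ∈ Λ, sk (A ∩ Iio (v 3)) (ins (v 2) ξ) = x ∧
    y ∈ ext A (code ⟨lev x, 5, ω, [x, y + 1, 0]⟩) ∧ par y = x :: par ξ := inferInstance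

example (B : Fam (Set On)) [MO B] (s : Fam On) [MT s] :
    MD fun A Λ v => ∀ x < s A Λ v, ∃ ξ < s A Λ v, fo (B A Λ v) (ins (s A Λ v) ξ) = x ∧
      sInf {z | z < x ∧ z ∈ B A Λ v} ≤ max x ξ := inferInstance

end Pool.Agent.MP_fd3eaf_lc

end
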