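import Pool.Agent.MP_fd3eaf_lc.Mg.Elem

/-!
Direct limits: a directed system of closed sets, presented by tokens, collapses to the machine.
-/

set_option autoImplicit false

namespace Pool.Agent.MP_fd3eaf_lc

open Set Ordinal

/-- Stages `i`, tokens `s ∈ Dom i` with value `e i s` in the structure `(L i; A i)`. -/
structure Sys (ι σ : Type 1) where
  le : ι → ι → Prop
  Dom : ι → Set σ
  e : ι → σ → On
  A : ι → Set On
  L : ι → Set On

namespace Sys
variable {ι σ : Type 1} (S : Sys ι σ)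

structure Dir : Prop where
  ne : Nonempty ι
  dir : ∀ i j, ∃ k, S.le i k ∧ S.le j k
  sub : ∀ i j, S.le i j → S.Dom i ⊆ S.Dom j

/-- Coherence of quantifier-free types. -/
def Coh : Prop := ∀ i j, S.le i j → ∀ s ∈ S.Dom i, ∀ t ∈ S.Dom i,
  tp (S.A i) (S.e i s) (S.e i t) = tp (S.A j) (S.e j s) (S.e j t)

/-- Coherence of full types. -/
def CohE : Prop := ∀ i j, S.le i j → ∀ (k : ℕ) (u : List σ), (∀ s ∈ u, s ∈ S.Dom i) →
  (Sat (S.A i) (S.L i) k (lv (u.map (S.e i))) ↔ Sat (S.A j) (S.L j) k (lv (u.map (S.e j))))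

def Cl : Prop := ∀ i, IsLowerSet (S.L i) ∧ Closed (S.A i) (S.L i) (S.e i '' S.Dom i)

def ClE : Prop := ∀ i, Nice (S.L i) ∧ TV (S.A i) (S.L i) (S.e i '' S.Dom i)

def Lt (s t : σ) : Prop := ∃ i, s ∈ S.Dom i ∧ t ∈ S.Dom i ∧ S.e i s < S.e i t

def Eqv (s t : σ) : Prop := ∃ i, s ∈ S.Dom i ∧ t ∈ S.Dom i ∧ S.e i s = S.e i t

/-- The limit. -/
def lim (r : σ → On) : Set On := r '' ⋃ i, S.Dom i

/-- The oracle of the limit. -/
def orc (r : σ → On) : Set On := {x | ∃ i, ∃ s ∈ S.Dom i, r s = x ∧ S.e i s ∈ S.A i}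

/-- `r` collapses the tokens onto an initial segment of the ordinals. -/
structure IsRank (r : σ → On) : Prop where
  lower : IsLowerSet (S.lim r)
  lt : ∀ i, ∀ s ∈ S.Dom i, ∀ t ∈ S.Dom i, r s < r t ↔ S.e i s < S.e i t

variable {S}

theorem ClE.cl (h : S.ClE) : S.Cl := fun i => ⟨(h i).1.lower, (h i).2.closed (h i).1⟩

theorem CohE.coh (h : S.CohE) (hc : S.ClE) (hd : S.Dir) : S.Coh := by
  intro i j hij s hs t ht
  funext x
  obtain ⟨k, hk⟩ := MD.ex (P := fun A _ v => tp A (v 0) (v 1) x)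
    (self := MD.tp (fun A _ _ => A) (fun _ _ v => v 0) (fun _ _ v => v 1) x)
  have m : ∀ l, s ∈ S.Dom l → t ∈ S.Dom l → ∀ n, lv ([s, t].map (S.e l)) n ∈ S.L l :=
    fun l a b => lv_mem (hc l).1.zero_mem fun y hy => by
      simp only [List.map_cons, List.map_nil, List.mem_cons, List.not_mem_nil, or_false] at hy
      rcases hy with rfl | rfl
      exacts [(hc l).2.sub (mem_image_of_mem _ a), (hc l).2.sub (mem_image_of_mem _ b)]
  have e := h i j hij k [s, t] fun y hy => by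
    simp only [List.mem_cons, List.not_mem_nil, or_false] at hy
    rcases hy with rfl | rfl
    exacts [hs, ht]
  rw [hk _ _ _ (hc i).1 (m i hs ht),
    hk _ _ _ (hc j).1 (m j (hd.sub i j hij hs) (hd.sub i j hij ht))] at e
  exact propext e

theorem IsRank.eq {r : σ → On} (h : S.IsRank r) {i : ι} {s t : σ} (hs : s ∈ S.Dom i)
    (ht : t ∈ S.Dom i) : r s = r t ↔ S.e i s = S.e i t := by
  rw [le_antisymm_iff, le_antisymm_iff, ← not_lt, ← not_lt, ← not_lt, ← not_lt,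
    h.lt i t ht s hs, h.lt i s hs t ht]

theorem presa_up (hc : S.Coh) {i j : ι} (hij : S.le i j) {s t : σ} (hs : s ∈ S.Dom i)
    (ht : t ∈ S.Dom i) : S.e i s < S.e i t ↔ S.e j s < S.e j t :=
  Iff.of_eq (congrFun (hc i j hij s hs t ht) .lt)

theorem presa_lt (hd : S.Dir) (hc : S.Coh) {i : ι} {s t : σ} (hs : s ∈ S.Dom i)
    (ht : t ∈ S.Dom i) : S.Lt s t ↔ S.e i s < S.e i t := by
  refine ⟨fun ⟨j, a, b, c⟩ => ?_, fun h => ⟨i, hs, ht, h⟩⟩
  obtain ⟨k, h1, h2⟩ := hd.dir i j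
  exact (presa_up hc h1 hs ht).2 ((presa_up hc h2 a b).1 c)

theorem presa_eqv (hd : S.Dir) (hc : S.Coh) {i : ι} {s t : σ} (hs : s ∈ S.Dom i)
    (ht : t ∈ S.Dom i) : S.Eqv s t ↔ S.e i s = S.e i t := by
  refine ⟨fun ⟨j, a, b, c⟩ => ?_, fun h => ⟨i, hs, ht, h⟩⟩
  obtain ⟨k, h1, h2⟩ := hd.dir i j
  refine le_antisymm (not_lt.1 fun h => ?_) (not_lt.1 fun h => ?_)
  · exact ((presa_up hc h2 b a).2 ((presa_up hc h1 ht hs).1 h)).ne' c
  · exact ((presa_up hc h2 a b).2 ((presa_up hc h1 hs ht).1 h)).ne c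

theorem presa_symm {s t : σ} (h : S.Eqv s t) : S.Eqv t s := by
  obtain ⟨i, a, b, c⟩ := h
  exact ⟨i, b, a, c.symm⟩

theorem presa_left (hd : S.Dir) (hc : S.Coh) {s t u : σ} (h : S.Eqv s t) (h' : S.Lt s u) :
    S.Lt t u := by
  obtain ⟨i, a, b, -⟩ := id h
  obtain ⟨j, c, d, -⟩ := id h'
  obtain ⟨k, h1, h2⟩ := hd.dir i j
  have a' := hd.sub _ _ h1 a
  have b' := hd.sub _ _ h1 b
  have d' := hd.sub _ _ h2 d
  exact ⟨k, b', d', ((presa_eqv hd hc a' b').1 h).symm.trans_lt ((presa_lt hd hc a' d').1 h')⟩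

theorem presa_right (hd : S.Dir) (hc : S.Coh) {s t u : σ} (h : S.Eqv s t) (h' : S.Lt u s) :
    S.Lt u t := by
  obtain ⟨i, a, b, -⟩ := id h
  obtain ⟨j, c, d, -⟩ := id h'
  obtain ⟨k, h1, h2⟩ := hd.dir i j
  have a' := hd.sub _ _ h1 a
  have b' := hd.sub _ _ h1 b
  have c' := hd.sub _ _ h2 c
  exact ⟨k, c', b', ((presa_lt hd hc c' a').1 h').trans_eq ((presa_eqv hd hc a' b').1 h)⟩

/-- A well-founded system with small initial segments has a rank function. -/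
theorem exists_rank (hd : S.Dir) (hc : S.Coh) (hw : WellFounded S.Lt)
    (hs : ∀ s, ∃ (κ : Type) (F : κ → σ), ∀ t, S.Lt t s → ∃ a, S.Eqv t (F a)) :
    ∃ r, S.IsRank r := by
  classical
  choose κ F hF using hs
  let r : σ → On := hw.fix fun s ih => ⨆ a : κ s, if h : S.Lt (F s a) s then ih _ h + 1 else 0
  have hr : ∀ s, r s = ⨆ a : κ s, if S.Lt (F s a) s then r (F s a) + 1 else 0 := fun s =>
    hw.fix_eq _ s
  have h1 : ∀ s a, S.Lt (F s a) s → r (F s a) < r s := fun s a h => by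
    rw [hr s]
    refine lt_of_lt_of_le ?_ (Ordinal.le_iSup _ a)
    rw [if_pos h]
    exact lt_add_one _
  have h2 : ∀ s x, x < r s → ∃ a, S.Lt (F s a) s ∧ x ≤ r (F s a) := fun s x h => by
    rw [hr s, Ordinal.lt_iSup_iff] at h
    obtain ⟨a, h⟩ := h
    by_cases k : S.Lt (F s a) s
    · rw [if_pos k] at h
      exact ⟨a, k, Order.lt_add_one_iff.1 h⟩
    · rw [if_neg k] at h
      exact absurd h not_lt_zero
  have h3 : ∀ s t, S.Eqv s t → r s = r t := fun s => by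
    induction s using hw.induction with
    | _ s ih =>
      intro t h
      refine le_antisymm (not_lt.1 fun k => ?_) (not_lt.1 fun k => ?_)
      · obtain ⟨a, a1, a2⟩ := h2 s _ k
        have a3 := presa_right hd hc h a1
        obtain ⟨b, b1⟩ := hF t _ a3
        exact (h1 t b (presa_left hd hc b1 a3)).not_ge (a2.trans_eq (ih _ a1 _ b1))
      · obtain ⟨b, b1, b2⟩ := h2 t _ k
        have b3 := presa_right hd hc (presa_symm h) b1
        obtain ⟨a, a1⟩ := hF s _ b3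
        have a2 := presa_left hd hc a1 b3
        exact (h1 s a a2).not_ge (b2.trans_eq (ih _ a2 _ (presa_symm a1)).symm)
  have h4 : ∀ s t, S.Lt t s → r t < r s := fun s t h => by
    obtain ⟨a, ha⟩ := hF s t h
    exact (h3 _ _ ha).trans_lt (h1 s a (presa_left hd hc ha h))
  have h5 : ∀ s x, x < r s → x ∈ S.lim r := fun s => by
    induction s using hw.induction with
    | _ s ih =>
      intro x hx
      obtain ⟨a, a1, a2⟩ := h2 s x hx
      rcases a2.lt_or_eq with k | k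
      · exact ih _ a1 x k
      · obtain ⟨i, b, -⟩ := a1
        exact ⟨_, mem_iUnion.2 ⟨i, b⟩, k.symm⟩
  refine ⟨r, fun x y hxy hx => ?_, fun i s hs t ht => ⟨fun h => ?_, fun h => ?_⟩⟩
  · rcases hxy.lt_or_eq with k | k
    · obtain ⟨s, -, rfl⟩ := hx
      exact h5 s y k
    · exact k ▸ hx
  · rcases lt_trichotomy (S.e i s) (S.e i t) with k | k | k
    · exact k
    · exact absurd (h3 s t ⟨i, hs, ht, k⟩) h.ne
    · exact absurd (h4 s t ⟨i, ht, hs, k⟩) h.not_gt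
  · exact h4 t s ⟨i, hs, ht, h⟩

/-- Tokens whose values form an initial segment at every stage are their own rank. -/
theorem IsRank.fix {r : σ → On} (h : S.IsRank r) (hd : S.Dir) {δ : On} (u : On → σ)
    (h1 : ∀ ξ < δ, ∃ i, u ξ ∈ S.Dom i)
    (h2 : ∀ ξ < δ, ∀ ζ < ξ, S.Lt (u ζ) (u ξ))
    (h3 : ∀ ξ < δ, ∀ t, S.Lt t (u ξ) → ∃ ζ < ξ, S.Eqv t (u ζ)) : ∀ ξ < δ, r (u ξ) = ξ := by
  intro ξ
  induction ξ using WellFoundedLT.induction with
  | ind ξ ih =>
    intro hξ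
    obtain ⟨i, hi⟩ := h1 ξ hξ
    refine le_antisymm (not_lt.1 fun k => ?_) (le_of_forall_lt fun ζ hζ => ?_)
    · obtain ⟨t, ht, e⟩ := h.lower k.le ⟨u ξ, mem_iUnion.2 ⟨i, hi⟩, rfl⟩
      obtain ⟨j, hj⟩ := mem_iUnion.1 ht
      obtain ⟨m, m1, m2⟩ := hd.dir i j
      have a := hd.sub _ _ m1 hi
      have b := hd.sub _ _ m2 hj
      obtain ⟨ζ, z1, l, z2, z3, z4⟩ := h3 ξ hξ t ⟨m, b, a, (h.lt m t b _ a).1 (e ▸ k)⟩
      exact z1.ne' (e.symm.trans (((h.eq z2 z3).2 z4).trans (ih ζ z1 (z1.trans hξ))))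
    · obtain ⟨j, a, b, c⟩ := h2 ξ hξ ζ hζ
      exact (ih ζ hζ (hζ.trans hξ)).symm.trans_lt ((h.lt j _ a _ b).2 c)

end Sys

/-- A directed system seen from the limit: `f i` maps the part `R i` of `Λ` to stage `i`. -/
structure PresB {ι : Type 1} (R : ι → Set On) (f : ι → On → On) (A L : ι → Set On)
    (Λ : Set On) : Prop where
  lower : IsLowerSet Λ
  cov : ∀ x ∈ Λ, ∃ i, x ∈ R i
  sub : ∀ i, R i ⊆ Λ
  dir : ∀ i j, ∃ k, R i ⊆ R k ∧ R j ⊆ R k
  mono : ∀ i, StrictMonoOn (f i) (R i)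
  low : ∀ i, IsLowerSet (L i)
  cl : ∀ i, Closed (A i) (L i) (f i '' R i)
  coh : ∀ i j, ∀ x ∈ R i, x ∈ R j → ∀ y ∈ R i, y ∈ R j →
    tp (A i) (f i x) (f i y) = tp (A j) (f j x) (f j y)

namespace PresB
variable {ι : Type 1} {R : ι → Set On} {f : ι → On → On} {A L : ι → Set On} {Λ : Set On}
  (h : PresB R f A L Λ)
include h

theorem two (i : ι) {ξ : On} (hξ : ξ ∈ Λ) : ∃ k, R i ⊆ R k ∧ ξ ∈ R k := by
  obtain ⟨j, hj⟩ := h.cov ξ hξ
  obtain ⟨k, a, b⟩ := h.dir i j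
  exact ⟨k, a, b hj⟩

theorem iff {i j : ι} {x y : On} (a : x ∈ R i) (b : x ∈ R j) (c : y ∈ R i) (d : y ∈ R j)
    (t : Ix) : tp (A i) (f i x) (f i y) t ↔ tp (A j) (f j x) (f j y) t := by
  rw [h.coh i j x a b y c d]

theorem nat' (n : ℕ) : ∀ i, ∀ x ∈ R i, f i x = n → x = n := by
  induction n using Nat.strong_induction_on with
  | _ n ih =>
    intro i x hx e
    refine le_antisymm (le_of_forall_lt fun y hy => ?_) (le_of_forall_lt fun y hy => ?_)
    · obtain ⟨k, a, b⟩ := h.two i (h.lower hy.le (h.sub i hx))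
      have c : f k x = n := (h.iff hx (a hx) hx (a hx) (.nat n)).1 e
      have d : f k y < n := c ▸ h.mono k b (a hx) hy
      obtain ⟨m, hm⟩ := lt_omega0.1 (d.trans (natCast_lt_omega0 n))
      rw [ih m (Nat.cast_lt.1 (hm ▸ d)) k y b hm, ← hm]
      exact d
    · obtain ⟨m, rfl⟩ := lt_omega0.1 (hy.trans (natCast_lt_omega0 n))
      obtain ⟨z, hz, e'⟩ := (h.cl i).nat m
      rw [← ih m (Nat.cast_lt.1 hy) i z hz e', ← (h.mono i).lt_iff_lt hz hx, e, e']
      exact hy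

theorem nat (i : ι) (n : ℕ) : (n : On) ∈ R i ∧ f i n = n := by
  obtain ⟨z, hz, e⟩ := (h.cl i).nat n
  have := h.nat' n i z hz e
  subst this
  exact ⟨hz, e⟩

theorem zero (i : ι) : (0 : On) ∈ R i ∧ f i 0 = 0 := by simpa using h.nat i 0

theorem om {i : ι} {x : On} (hx : x ∈ R i) : ω ≤ f i x ↔ ω ≤ x := by
  rw [← not_lt, ← not_lt, lt_omega0, lt_omega0]
  exact not_congr (exists_congr fun n =>
    ⟨h.nat' n i x hx, fun e => by rw [e, (h.nat i n).2]⟩)

theorem memL {i : ι} {c : On} (hc : c ∈ R i) : f i c ∈ L i :=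
  (h.cl i).sub (mem_image_of_mem _ hc)

theorem exF : ∃ F : On → Loc, ∀ i, ∀ c ∈ R i,
    condbIn (R i) (F c) ∧ (F c).map (f i) = D (f i c) := by
  have hg : ∀ i, ∀ y ∈ f i '' R i, Function.invFunOn (f i) (R i) y ∈ R i ∧
      f i (Function.invFunOn (f i) (R i) y) = y := fun i y k => Function.invFunOn_pos k
  have one : ∀ i, ∀ c ∈ R i, ∃ x : Loc, condbIn (R i) x ∧ ∀ k, R i ⊆ R k →
      x.map (f k) = D (f k c) := fun i c hc => by
    have hm := mem_image_of_mem (f i) hc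
    have a1 := hg i _ ((h.cl i).lev _ hm)
    have a2 := hg i _ ((h.cl i).cut _ hm)
    have a3 := fun a ha => hg i a ((h.cl i).par _ hm a ha)
    refine ⟨(D (f i c)).map (Function.invFunOn (f i) (R i)),
      ⟨a1.1, a2.1, List.forall_mem_map.2 fun a ha => (a3 a ha).1⟩, fun k hk => ?_⟩
    have em : Emb (A i) (A k) (f i '' R i) (f k ∘ Function.invFunOn (f i) (R i)) :=
      fun x hx y hy => by
        have := h.coh i k _ (hg i x hx).1 (hk (hg i x hx).1) _ (hg i y hy).1 (hk (hg i y hy).1)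
        rwa [(hg i x hx).2, (hg i y hy).2] at this
    have b := em.D (h.cl i).dcl hm
    rw [Function.comp_apply, (h.mono i).injOn.leftInvOn_invFunOn hc] at b
    rw [b]
    exact Loc.ext rfl rfl rfl List.map_map
  have all : ∀ c, ∃ x : Loc, ∀ i, c ∈ R i → condbIn (R i) x ∧ x.map (f i) = D (f i c) :=
    fun c => by
      by_cases hc : ∃ j, c ∈ R j
      · obtain ⟨j, hj⟩ := hc
        obtain ⟨x, a, b⟩ := one j c hj
        refine ⟨x, fun i hi => ?_⟩
        obtain ⟨y, a', b'⟩ := one i c hi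
        obtain ⟨k, c1, c2⟩ := h.dir i j
        have e : x = y := condb_inj (h.mono k)
          ⟨c2 a.1, c2 a.2.1, fun z hz => c2 (a.2.2 z hz)⟩
          ⟨c1 a'.1, c1 a'.2.1, fun z hz => c1 (a'.2.2 z hz)⟩ ((b k c2).trans (b' k c1).symm)
        exact e ▸ ⟨a', b' i subset_rfl⟩
      · exact ⟨⟨0, 0, 0, []⟩, fun i hi => absurd ⟨i, hi⟩ hc⟩
  choose F hF using all
  exact ⟨F, fun i c hc => hF c i hc⟩

theorem fin (i : ι) {q : List On} (hq : ∀ a ∈ q, a ∈ Λ) : ∃ k, R i ⊆ R k ∧ ∀ a ∈ q, a ∈ R k := by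
  induction q with
  | nil => exact ⟨i, subset_rfl, fun _ k => absurd k List.not_mem_nil⟩
  | cons b q ih =>
    obtain ⟨k, a1, a2⟩ := ih fun a ha => hq a (List.mem_cons_of_mem _ ha)
    obtain ⟨k', b1, b2⟩ := h.two k (hq b List.mem_cons_self)
    exact ⟨k', a1.trans b1, List.forall_mem_cons.2 ⟨b2, fun a ha => b1 (a2 a ha)⟩⟩

theorem dec (i : ι) : ∀ c ∈ R i, condbIn (R i) (D c) ∧ D (f i c) = (D c).map (f i) := by
  obtain ⟨F, hF⟩ := h.exF
  have hl : ∀ i, ∀ c ∈ R i, f i (F c).l = lev (f i c) := fun i c hc =>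
    congrArg Loc.l (hF i c hc).2
  have hv : ∀ i, ∀ c ∈ R i, (F c).Valid := fun i c hc =>
    (condb_valid (h.mono i) (hF i c hc).1).1 ((hF i c hc).2 ▸ valid_D _)
  have pull : ∀ c ∈ Λ, ω ≤ c → ∀ x : Loc, condbIn Λ x → ω ≤ x.l → (F x.l).l = x.l → x.Valid →
      x.lt (F c) → ∃ d, ω ≤ d ∧ d < c ∧ F d = x := fun c hc hω x a0 a1 a2 a3 a4 => by
    obtain ⟨j, hj⟩ := h.cov c hc
    obtain ⟨k, c1, c2⟩ := h.fin j (q := x.l :: x.e :: x.q)
      (List.forall_mem_cons.2 ⟨a0.1, List.forall_mem_cons.2 a0.2⟩)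
    have hc := c1 hj
    have a1' : condbIn (R k) x :=
      ⟨(List.forall_mem_cons.1 c2).1, List.forall_mem_cons.1 (List.forall_mem_cons.1 c2).2⟩
    have a2' : IsLev (f k x.l) := ⟨(h.om a1'.1).2 a1, by rw [← hl k _ a1'.1, a2]⟩
    have b1 := (condb_valid (h.mono k) a1').2 a3
    have b2 : ω ≤ code (x.map (f k)) := omega_le_code a2' b1
    have b3 : code (x.map (f k)) < f k c := by
      rw [← D_lt_iff b2 ((h.om hc).2 hω), D_code (x := x.map (f k)) a2' b1, ← (hF k c hc).2]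
      exact (Loc.map_lt (h.mono k) a1' (hF k c hc).1).2 a4
    obtain ⟨d, hd, e⟩ : code (x.map (f k)) ∈ f k '' R k := (h.cl k).code (h.low k)
      (mem_image_of_mem _ a1'.1) (mem_image_of_mem _ a1'.2.1)
      (List.forall_mem_map.2 fun a ha => mem_image_of_mem _ (a1'.2.2 a ha))
      (h.low k b3.le (h.memL hc))
    exact ⟨d, (h.om hd).1 (e ▸ b2), ((h.mono k).lt_iff_lt hd hc).1 (e ▸ b3),
      condb_inj (h.mono k) (hF k d hd).1 a1'
        (by rw [(hF k d hd).2, e, D_code (x := x.map (f k)) a2' b1])⟩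
  have val : ∀ c ∈ Λ, ω ≤ c → (F c).Valid ∧ ω ≤ (F c).l ∧ (F c).l ≤ c ∧
      F (F c).l = ⟨(F c).l, 0, 0, []⟩ := fun c hc hω => by
    obtain ⟨j, hc⟩ := h.cov c hc
    have a1 := (hF j c hc).1.1
    have a2 := isLev_lev ((h.om hc).2 hω)
    refine ⟨hv j c hc, (h.om a1).1 (hl j c hc ▸ a2.1),
      ((h.mono j).le_iff_le a1 hc).1 (hl j c hc ▸ lev_le _),
      condb_inj (h.mono j) (hF j _ a1).1
        ⟨a1, (h.zero j).1, fun _ k => absurd k List.not_mem_nil⟩ ?_⟩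
    rw [(hF j _ a1).2, hl j c hc, a2.D_eq]
    exact Loc.ext (hl j c hc).symm rfl (h.zero j).2.symm rfl
  have good : Good Λ F := by
    refine ⟨val, fun c hc d hd hω m => ?_,
      fun c hc hω l k e a1 a2 a3 a4 a5 => ?_, fun c hc hω d a1 a2 ξ a3 a4 => ?_⟩
    · obtain ⟨j, hj⟩ := h.cov c hc
      obtain ⟨k, c1, hd⟩ := h.two j hd
      have hc := c1 hj
      rw [← Loc.map_lt (h.mono k) (hF k c hc).1 (hF k d hd).1, (hF k c hc).2, (hF k d hd).2,
        D_lt_iff ((h.om hc).2 hω) ((h.om hd).2 (hω.trans m.le))]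
      exact h.mono k hc hd m
    · have b1 := h.lower a2 hc
      exact pull c hc hω _ ⟨b1, h.lower a4 b1, fun _ k => absurd k List.not_mem_nil⟩ a1 a3
        ⟨a4, fun _ k => absurd k List.not_mem_nil⟩ a5
    · have b1 := h.lower a2.le hc
      obtain ⟨j, hj⟩ := h.cov d b1
      have b2 := (hF j d hj).1
      have b3 := val d b1 a1
      exact pull c hc hω _ ⟨h.sub j b2.1, h.sub j b2.2.1, List.forall_mem_cons.2
        ⟨h.lower a3.le (h.sub j b2.1), fun a ha => h.sub j (b2.2.2 a ha)⟩⟩ b3.2.1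
        (congrArg Loc.l b3.2.2.2 :) (machb_valid b3.1 a3) a4
  intro c hc
  rcases lt_or_ge c ω with k | k
  · rw [D_small k, D_small (not_le.1 fun m => k.not_ge ((h.om hc).1 m))]
    exact ⟨⟨(h.zero i).1, (h.zero i).1, fun _ k => absurd k List.not_mem_nil⟩,
      Loc.ext (h.zero i).2.symm rfl (h.zero i).2.symm rfl⟩
  · rw [← good.unique h.lower c (h.sub i hc) k]
    exact ⟨(hF i c hc).1, (hF i c hc).2.symm⟩

theorem hfml {i : ι} {c : On} (hc : c ∈ R i) : fml (f i c) = fml c :=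
  (congrArg Loc.k (h.dec i c hc).2 :)

theorem hlev {i : ι} {c : On} (hc : c ∈ R i) : lev (f i c) = f i (lev c) :=
  congrArg Loc.l (h.dec i c hc).2

theorem hcut {i : ι} {c : On} (hc : c ∈ R i) : cut (f i c) = f i (cut c) :=
  congrArg Loc.e (h.dec i c hc).2

theorem hpar {i : ι} {c : On} (hc : c ∈ R i) : par (f i c) = (par c).map (f i) :=
  congrArg Loc.q (h.dec i c hc).2

theorem back {i : ι} {x : Loc} (hx : condbIn (R i) x) (m : code (x.map (f i)) ∈ L i) :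
    code x ∈ R i ∧ code (x.map (f i)) = f i (code x) := by
  by_cases k : IsLev (x.map (f i)).l ∧ (x.map (f i)).Valid
  · obtain ⟨d, hd, e⟩ : code (x.map (f i)) ∈ f i '' R i := (h.cl i).code (h.low i)
      (mem_image_of_mem _ hx.1) (mem_image_of_mem _ hx.2.1)
      (List.forall_mem_map.2 fun a ha => mem_image_of_mem _ (hx.2.2 a ha)) m
    have a : D d = x := condb_inj (h.mono i) (h.dec i d hd).1 hx
      (by rw [← (h.dec i d hd).2, e, D_code k.1 k.2])
    have b : code x = d := by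
      rw [← a, code_D ((h.om hd).1 (e ▸ omega_le_code k.1 k.2))]
    rw [b]
    exact ⟨hd, e.symm⟩
  · have k' : ¬ (IsLev x.l ∧ x.Valid) := fun a => k ⟨⟨(h.om hx.1).2 a.1.1,
      (h.hlev hx.1).trans (congrArg (f i) a.1.2)⟩, (condb_valid (h.mono i) hx).2 a.2⟩
    rw [code_invalid k, code_invalid k']
    exact ⟨(h.zero i).1, (h.zero i).2.symm⟩

theorem hrfm {i : ι} {c : On} (hc : c ∈ R i) {a : ℕ} (ha : a < fml c) :
    rfm c a ∈ R i ∧ rfm (f i c) a = f i (rfm c a) := by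
  have e : rfm (f i c) a = code (Loc.map (f i) ⟨lev c, a, cut c, par c⟩) := by
    rw [rfm, h.hlev hc, h.hcut hc, h.hpar hc]
    rfl
  rw [e]
  exact h.back (x := ⟨lev c, a, cut c, par c⟩) (h.dec i c hc).1
    (e ▸ h.low i (rfm_lt (h.hfml hc ▸ ha)).le (h.memL hc))

theorem hinst {i : ι} {c ξ : On} (hc : c ∈ R i) (hξ : ξ ∈ R i) (ha : tg (fml c) = 11) :
    inst c ξ ∈ R i ∧ inst (f i c) (f i ξ) = f i (inst c ξ) := by
  have e : inst (f i c) (f i ξ) =
      code (Loc.map (f i) ⟨lev c, oa (fml c), cut c, ξ :: par c⟩) := by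
    rw [inst, h.hlev hc, h.hfml hc, h.hcut hc, h.hpar hc]
    rfl
  have a := (h.dec i c hc).1
  rw [e]
  exact h.back (x := ⟨lev c, oa (fml c), cut c, ξ :: par c⟩)
    ⟨a.1, a.2.1, List.forall_mem_cons.2 ⟨hξ, a.2.2⟩⟩
    (e ▸ h.low i (inst_lt _ (by rw [h.hfml hc]; omega)).le (h.memL hc))

theorem hrct {i : ι} {x u : On} (hx : x ∈ R i) (hu : u ∈ R i) :
    rct x (min (cut x) u) ∈ R i ∧
      rct (f i x) (min (f i (cut x)) (f i u)) = f i (rct x (min (cut x) u)) := by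
  have a := (h.dec i x hx).1
  have e1 : cut x ∈ R i := a.2.1
  have e : rct (f i x) (min (f i (cut x)) (f i u)) =
      code (Loc.map (f i) ⟨lev x, fml x, min (cut x) u, par x⟩) := by
    rw [rct, h.hlev hx, h.hfml hx, h.hpar hx, ← (h.mono i).monotoneOn.map_min e1 hu]
    rfl
  have m : min (cut x) u ∈ R i := by
    rcases min_choice (cut x) u with k | k <;> rw [k]
    exacts [e1, hu]
  rw [e]
  exact h.back (x := ⟨lev x, fml x, min (cut x) u, par x⟩) ⟨a.1, m, a.2.2⟩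
    (e ▸ h.low i (rct_le (h.hcut hx ▸ min_le_left _ _)) (h.memL hx))

theorem refl {i : ι} {P : On → Prop} {c ξ u : On} (hc : c ∈ R i) (hu : u ∈ R i)
    (e : wit P (f i c) = f i u) (ht : tg (fml c) = 11) (h1 : ξ < lev (f i c))
    (h2 : ¬ P (inst (f i c) ξ)) : f i u ≤ ξ ∧ u < lev c ∧ ¬ P (f i (inst c u)) := by
  obtain ⟨b1, b2⟩ := wit_spec (h.hfml hc ▸ ht) h1 h2
  rw [e] at b1 b2
  refine ⟨b1, ((h.mono i).lt_iff_lt hu (h.dec i c hc).1.1).1 ?_, ?_⟩
  · exact (b1.trans_lt h1).trans_eq (h.hlev hc)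
  · rwa [← (h.hinst hc hu ht).2]

theorem hwit {P : ι → On → Prop} {Q : On → Prop} (hQ : ∀ i, ∀ c ∈ R i, Q c ↔ P i (f i c))
    {i : ι} {c u : On} (hc : c ∈ R i) (hu : u ∈ R i)
    (e : ∀ k, R i ⊆ R k → wit (P k) (f k c) = f k u) : wit Q c = u := by
  rcases {ξ | tg (fml c) = 11 ∧ ξ < lev c ∧ ¬ Q (inst c ξ)}.eq_empty_or_nonempty with k | k
  · have k2 : {ξ | tg (fml (f i c)) = 11 ∧ ξ < lev (f i c) ∧ ¬ P i (inst (f i c) ξ)} = ∅ :=
      eq_empty_of_forall_notMem fun ξ ⟨b1, b2, b3⟩ => by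
        have b0 := h.hfml hc ▸ b1
        obtain ⟨-, c1, c2⟩ := h.refl hc hu (e i subset_rfl) b0 b2 b3
        exact k.subset (show u ∈ _ from ⟨b0, c1, mt (hQ i _ (h.hinst hc hu b0).1).1 c2⟩)
    have a := e i subset_rfl
    rw [wit, k2, Ordinal.sInf_empty, ← (h.zero i).2] at a
    rw [wit, k, Ordinal.sInf_empty]
    exact (h.mono i).injOn (h.zero i).1 hu a
  · obtain ⟨b1, b2, b3⟩ := csInf_mem k
    change wit Q c < _ at b2
    change ¬ Q (inst c (wit Q c)) at b3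
    obtain ⟨j, c1, b4⟩ := h.two i (h.lower (b2.le.trans (lev_le c)) (h.sub i hc))
    have hc := c1 hc
    have hu := c1 hu
    rw [hQ j _ (h.hinst hc b4 b1).1, ← (h.hinst hc b4 b1).2] at b3
    obtain ⟨d1, d2, d3⟩ := h.refl hc hu (e j c1) b1
      ((h.mono j b4 (h.dec j c hc).1.1 b2).trans_eq (h.hlev hc).symm) b3
    exact le_antisymm (wit_spec b1 d2 (mt (hQ j _ (h.hinst hc hu b1).1).1 d3)).1
      (((h.mono j).le_iff_le hu b4).1 d1)

theorem hT {O : Set On} (hO : ∀ i, ∀ c ∈ R i, c ∈ O ↔ f i c ∈ A i) :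
    ∀ i, ∀ c ∈ R i, T O c ↔ T (A i) (f i c) := by
  have hP : ∀ i, ∀ c ∈ R i, (∃ j, c ∈ R j ∧ T (A j) (f j c)) ↔ T (A i) (f i c) := fun i c hc =>
    ⟨fun ⟨j, a, b⟩ => (h.iff a hc a hc .tr).1 b, fun b => ⟨i, hc, b⟩⟩
  generalize hE : (fun c => ∃ j, c ∈ R j ∧ T (A j) (f j c)) = P
  replace hP : ∀ i, ∀ c ∈ R i, P c ↔ T (A i) (f i c) := hE ▸ hP
  suffices k : ∀ c ∈ Λ, P c ↔ T O c from fun i c hc => (k c (h.sub i hc)).symm.trans (hP i c hc)
  refine T_unique h.lower (fun c hc t => ?_) (fun c hc t => ?_)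
    (fun c hc t => ?_) fun c hc h1 h2 h3 => ?_ <;> obtain ⟨i, hc⟩ := h.cov c hc
  · have a := h.hrfm hc (oa_lt (k := fml c) (by omega))
    rw [hP i c hc, T_neg (h.hfml hc ▸ t), h.hfml hc, a.2, hP i _ a.1]
  · have a := h.hrfm hc (oa_lt (k := fml c) (by omega))
    have b := h.hrfm hc (ob_lt (k := fml c) (by omega))
    rw [hP i c hc, T_and (h.hfml hc ▸ t), h.hfml hc, a.2, b.2, hP i _ a.1, hP i _ b.1]
  · refine ⟨fun k ξ hξ => ?_, fun k => ?_⟩
    · obtain ⟨j, c1, b⟩ := h.two i (h.lower (hξ.le.trans (lev_le c)) (h.sub i hc))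
      have hc := c1 hc
      rw [hP j c hc, T_all (h.hfml hc ▸ t)] at k
      rw [hP j _ (h.hinst hc b t).1, ← (h.hinst hc b t).2]
      exact k _ ((h.mono j b (h.dec j c hc).1.1 hξ).trans_eq (h.hlev hc).symm)
    · rw [hP i c hc, T_all (h.hfml hc ▸ t)]
      refine fun ξ hξ => by_contra fun m => ?_
      obtain ⟨u, hu, e⟩ := (h.cl i).sk _ (mem_image_of_mem _ hc)
      obtain ⟨-, c1, c2⟩ := h.refl hc hu e.symm t hξ m
      exact c2 ((hP i _ (h.hinst hc hu t).1).1 (k u c1))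
  · have h0 := h.zero i
    have hf := h.mono i
    have hc' := (h.dec i c hc).1
    have hv := lv_mem h0.1 hc'.2.2
    rw [hP i c hc, T_atom (h.hfml hc ▸ h1) (h.hfml hc ▸ h2) (h.hfml hc ▸ h3), h.hfml hc, h.hcut hc,
      h.hpar hc, lv_map h0.2]
    simp only [Function.comp_apply]
    have hx := hv (oa (fml c))
    have hy := hv (ob (fml c))
    have hz := hv (oc (fml c))
    change lv (par c) _ ∈ _ at hx hy hz
    generalize lv (par c) (oa (fml c)) = x at hx ⊢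
    generalize lv (par c) (ob (fml c)) = y at hy ⊢
    generalize lv (par c) (oc (fml c)) = z at hz ⊢
    have hx' := (h.dec i x hx).1
    have e1 : cut x ∈ R i := hx'.2.1
    have e2 : cut c ∈ R i := hc'.2.1
    have e3 : lev x ∈ R i := hx'.1
    have b1 : (fml x : On) = f i y ↔ (fml x : On) = y := by
      rw [← hf.injOn.eq_iff (h.nat i _).1 hy, (h.nat i _).2]
    have b2 : (par z).map (f i) = f i y :: (par x).map (f i) ↔ par z = y :: par x := by
      refine ⟨fun k => ?_, fun k => by rw [k, List.map_cons]⟩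
      exact congrArg Loc.q (condb_inj hf (x := ⟨0, 0, 0, par z⟩) (y := ⟨0, 0, 0, y :: par x⟩)
        ⟨h0.1, h0.1, (h.dec i z hz).1.2.2⟩ ⟨h0.1, h0.1, List.forall_mem_cons.2 ⟨hy, hx'.2.2⟩⟩
        (Loc.ext rfl rfl rfl k))
    have b3 := h.hrct hx e2
    have b4 : lv ((par x).map (f i)) (fml y) = f i z ↔ lv (par x) (fml y) = z := by
      rw [lv_map h0.2]
      exact hf.injOn.eq_iff (lv_mem h0.1 hx'.2.2 _) hz
    simp only [Atom, mem_inter_iff, mem_Iio]
    rw [h.hfml hx, h.hfml hy, h.hfml hz, h.hlev hx, h.hcut hx, h.hpar hx, h.hpar hz, b1, b2, b3.2,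
      b4, List.length_map,
      hf.lt_iff_lt hx hy, hf.lt_iff_lt hx e2, hf.injOn.eq_iff e3 hy, hf.injOn.eq_iff e1 hy,
      hO i x hx, hP i _ b3.1]

theorem emb {O : Set On} (hO : ∀ i, ∀ c ∈ R i, c ∈ O ↔ f i c ∈ A i) (i : ι) :
    Emb O (A i) (R i) (f i) := by
  have hf := h.mono i
  have h0 := h.zero i
  intro x hx y hy
  have hx' := (h.dec i x hx).1
  have key : ∀ {a b : On}, a ∈ R i → b = f i a → (a = y) = (b = f i y) := fun ha e =>
    propext (e ▸ (hf.injOn.eq_iff ha hy).symm)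
  funext t
  cases t with
  | lt => exact propext (hf.lt_iff_lt hx hy).symm
  | lev => exact key hx'.1 (h.hlev hx)
  | cut => exact key hx'.2.1 (h.hcut hx)
  | sk =>
    obtain ⟨u, hu, e⟩ := (h.cl i).sk _ (mem_image_of_mem _ hx)
    have a : sk O x = u := h.hwit (P := fun i => T (A i)) (h.hT hO) hx hu fun k m =>
      (h.iff hx (m hx) hu (m hu) .sk).1 e.symm
    exact key (a ▸ hu) (a ▸ e.symm)
  | fo =>
    obtain ⟨u, hu, e⟩ := (h.cl i).fo _ (mem_image_of_mem _ hx)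
    have a : fo O x = u := h.hwit (P := fun i => (· ∈ A i)) hO hx hu fun k m =>
      (h.iff hx (m hx) hu (m hu) .fo).1 e.symm
    exact key (a ▸ hu) (a ▸ e.symm)
  | or => exact propext (hO i x hx)
  | tr => exact propext (h.hT hO i x hx)
  | par j =>
    refine key (lv_mem h0.1 hx'.2.2 j) ?_
    rw [h.hpar hx, lv_map h0.2]
    rfl
  | fml n => exact congrArg (· = n) (h.hfml hx).symm
  | len n =>
    exact congrArg (· = n) ((congrArg List.length (h.hpar hx)).trans (List.length_map _)).symm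
  | nat n =>
    refine propext ((hf.injOn.eq_iff hx (h.nat i n).1).symm.trans ?_)
    rw [(h.nat i n).2]
    rfl

end PresB

namespace Sys
variable {ι σ : Type 1} {S : Sys ι σ}

/-- The presentation lemma.  Hint: as for `cond`; define the decomposition of `r s` through tokens
for the level, cutoff and parameters of `e i s`; use `Good.unique` and `T_unique`. -/
theorem pres (hd : S.Dir) (hc : S.Coh) (hl : S.Cl) {r : σ → On} (hr : S.IsRank r) (i : ι) :
    ∀ s ∈ S.Dom i, ∀ t ∈ S.Dom i, tp (S.orc r) (r s) (r t) = tp (S.A i) (S.e i s) (S.e i t) := by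
  have ex : ∀ j x, ∃ y : On, ∀ s ∈ S.Dom j, r s = x → y = S.e j s := fun j x => by
    by_cases k : ∃ s ∈ S.Dom j, r s = x
    · obtain ⟨s, hs, e⟩ := k
      exact ⟨S.e j s, fun t ht e' => (hr.eq hs ht).1 (e.trans e'.symm)⟩
    · exact ⟨0, fun s hs e => absurd ⟨s, hs, e⟩ k⟩
  choose f hf using ex
  have hf' : ∀ j, ∀ s ∈ S.Dom j, f j (r s) = S.e j s := fun j s hs => hf j _ s hs rfl
  have im : ∀ j, f j '' (r '' S.Dom j) = S.e j '' S.Dom j := fun j => by
    rw [image_image]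
    exact image_congr (hf' j)
  have up : ∀ j k, S.le j k → ∀ x ∈ r '' S.Dom j, ∀ y ∈ r '' S.Dom j,
      tp (S.A j) (f j x) (f j y) = tp (S.A k) (f k x) (f k y) := by
    rintro j k m _ ⟨s, hs, rfl⟩ _ ⟨t, ht, rfl⟩
    rw [hf' j s hs, hf' j t ht, hf' k s (hd.sub j k m hs), hf' k t (hd.sub j k m ht)]
    exact hc j k m s hs t ht
  have h : PresB (fun j => r '' S.Dom j) f S.A S.L (S.lim r) := by
    refine ⟨hr.lower, ?_, fun j => image_mono (subset_iUnion _ j), fun j k => ?_, ?_,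
      fun j => (hl j).1, fun j => im j ▸ (hl j).2, fun j k x a b y c d => ?_⟩
    · rintro _ ⟨s, hs, rfl⟩
      obtain ⟨j, hj⟩ := mem_iUnion.1 hs
      exact ⟨j, s, hj, rfl⟩
    · obtain ⟨m, a, b⟩ := hd.dir j k
      exact ⟨m, image_mono (hd.sub j m a), image_mono (hd.sub k m b)⟩
    · rintro j _ ⟨s, hs, rfl⟩ _ ⟨t, ht, rfl⟩ m
      rw [hf' j s hs, hf' j t ht]
      exact (hr.lt j s hs t ht).1 m
    · obtain ⟨m, a', b'⟩ := hd.dir j k
      rw [up j m a' x a y c, up k m b' x b y d]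
  have hO : ∀ j, ∀ c ∈ r '' S.Dom j, c ∈ S.orc r ↔ f j c ∈ S.A j := fun j c m => by
    refine ⟨fun ⟨k, s, hs, e, a⟩ => ?_, fun a => ?_⟩
    · exact (h.iff (i := k) (j := j) ⟨s, hs, e⟩ m ⟨s, hs, e⟩ m .or).1
        ((hf k c s hs e).symm ▸ a : f k c ∈ S.A k)
    · obtain ⟨s, hs, rfl⟩ := m
      exact ⟨j, s, hs, rfl, hf' j s hs ▸ a⟩
  intro s hs t ht
  rw [← hf' i s hs, ← hf' i t ht]
  exact h.emb hO i _ (mem_image_of_mem r hs) _ (mem_image_of_mem r ht)

theorem presa_atom {A B Y : Set On} {f : On → On} (h : Emb A B Y f) (hY : DCl Y) (n : ℕ)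
    {x y z : On} (hx : x ∈ Y) (hy : y ∈ Y) (hz : z ∈ Y) :
    Atom B (T B) n (f x) (f y) (f z) ↔ Atom A (T A) n x y z := by
  have a4 : (fml (f x) : On) = f y ↔ (fml x : On) = y := by
    rw [h.fml hx, eq_comm, eq_comm (b := y)]
    exact (h.iff hy hy (.nat (fml x))).symm
  have a5 : par (f z) = f y :: par (f x) ↔ par z = y :: par x := by
    rw [h.par hY hz, h.par hY hx, ← List.map_cons]
    refine ⟨fun e => ?_, fun e => by rw [e]⟩
    have hl : (par z).length = (y :: par x).length := by simpa using congrArg List.length e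
    refine List.ext_getElem hl fun i a b => ?_
    have m : (y :: par x)[i] ∈ Y := (List.mem_cons.1 (List.getElem_mem b)).elim
      (fun e => by rw [e]; exact hy) (hY.par x hx _)
    refine (h.inj (hY.par z hz _ (List.getElem_mem a)) m).1 ?_
    rw [← List.getElem_map f (h := by simpa using a), ← List.getElem_map f (h := by simpa using b)]
    exact List.getElem_of_eq e _
  have a6 : lv (par (f x)) (fml y) = f z ↔ lv (par x) (fml y) = z :=
    (h.iff hx hz (.par (fml y))).symm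
  have a7 : (par (f x)).length = (par x).length := by rw [h.par hY hx, List.length_map]
  unfold Atom
  rw [h.lt hx hy, a4, a5, h.fml hx, h.fml hy, h.fml hz, h.or hx, h.tr hx, a6, a7]
  exact or_congr_right (or_congr (and_congr_right' (h.iff hx hy .lev).symm)
    (or_congr_left (and_congr_right' (h.iff hx hy .cut).symm)))

theorem presa_emb (hd : S.Dir) (hc : S.Coh) (hl : S.Cl) {r : σ → On} (hr : S.IsRank r) (i : ι) :
    ∃ f : On → On, (∀ s ∈ S.Dom i, f (S.e i s) = r s) ∧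
      Emb (S.A i) (S.orc r) (S.e i '' S.Dom i) f := by
  classical
  have e : ∀ s ∈ S.Dom i, (if h : S.e i s ∈ S.e i '' S.Dom i then r h.choose else 0) = r s :=
    fun s hs => by
      have m : S.e i s ∈ S.e i '' S.Dom i := mem_image_of_mem _ hs
      rw [dif_pos m]
      exact (hr.eq m.choose_spec.1 hs).2 m.choose_spec.2
  refine ⟨fun x => if h : x ∈ S.e i '' S.Dom i then r h.choose else 0, e, ?_⟩
  rintro _ ⟨s, hs, rfl⟩ _ ⟨t, ht, rfl⟩
  beta_reduce
  rw [e s hs, e t ht]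
  exact (pres hd hc hl hr i s hs t ht).symm

/-- The presentation lemma for elementary systems. -/
theorem pres_elem (hd : S.Dir) (hc : S.CohE) (hl : S.ClE) {r : σ → On} (hr : S.IsRank r) :
    Nice (S.lim r) ∧ ∀ i (k : ℕ) (u : List σ), (∀ s ∈ u, s ∈ S.Dom i) →
      (Sat (S.orc r) (S.lim r) k (lv (u.map r)) ↔ Sat (S.A i) (S.L i) k (lv (u.map (S.e i)))) := by
  have hm : ∀ i, ∀ s ∈ S.Dom i, r s ∈ S.lim r := fun i s hs => ⟨s, mem_iUnion.2 ⟨i, hs⟩, rfl⟩
  have hE := presa_emb hd (hc.coh hl hd) hl.cl hr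
  refine ⟨⟨hr.lower, ?_, ?_⟩, fun i k => ?_⟩
  · obtain ⟨i⟩ := hd.ne
    obtain ⟨s, hs, -⟩ := (hl i).2.zero (hl i).1
    exact ⟨_, hm i s hs⟩
  · rintro _ ⟨s, hs, rfl⟩
    obtain ⟨i, hs⟩ := mem_iUnion.1 hs
    have m := mem_image_of_mem (S.e i) hs
    obtain ⟨l, l1, l2, l3⟩ := (hl i).1.up _ ((hl i).2.sub m)
    obtain ⟨_, ⟨t, ht, rfl⟩, t1, t2⟩ := (hl i).2.md (hl i).1
      (fun _ _ v => (ω ≤ v 0 ∧ lev (v 0) = v 0) ∧ v 1 < v 0) [S.e i s]
      (fun a ha => List.mem_singleton.1 ha ▸ m) l1 ⟨l2, l3⟩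
    obtain ⟨f, f1, f2⟩ := hE i
    exact ⟨r t, hm i t ht, f1 t ht ▸ (f2.isLev (mem_image_of_mem _ ht)).2 t1,
      (hr.lt i s hs t ht).2 t2⟩
  induction k using Nat.strong_induction_on generalizing i with
  | _ k ih =>
    intro u hu
    by_cases a1 : tg k = 9
    · rw [sat_neg a1, sat_neg a1, ih _ (oa_lt (by omega)) i u hu]
    by_cases a2 : tg k = 10
    · rw [sat_and a2, sat_and a2, ih _ (oa_lt (by omega)) i u hu, ih _ (ob_lt (by omega)) i u hu]
    by_cases a3 : tg k = 11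
    · have hk := oa_lt (k := k) (by omega)
      constructor
      · intro h
        rw [sat_all a3] at h ⊢
        intro ξ hξ
        by_contra hn
        obtain ⟨_, ⟨s, hs, rfl⟩, h2⟩ := (hl i).2.wit (fneg (oa k)) (u.map (S.e i))
          (List.forall_mem_map.2 fun a ha => mem_image_of_mem _ (hu a ha))
          ⟨ξ, hξ, by rwa [sat_fneg, lv_cons]⟩
        refine sat_fneg.1 h2 ((ih _ hk i (s :: u) (List.forall_mem_cons.2 ⟨hs, hu⟩)).1 ?_)
        rw [List.map_cons, lv_cons]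
        exact h _ (hm i s hs)
      · intro h
        rw [sat_all a3]
        rintro _ ⟨s, hs, rfl⟩
        obtain ⟨j, hs⟩ := mem_iUnion.1 hs
        obtain ⟨m, m1, m2⟩ := hd.dir i j
        have b := hd.sub _ _ m2 hs
        have c := (sat_all a3).1 ((hc i m m1 k u hu).1 h) _ ((hl m).2.sub (mem_image_of_mem _ b))
        rw [← lv_cons] at c ⊢
        exact (ih _ hk m (s :: u) (List.forall_mem_cons.2 ⟨b, fun a ha => hd.sub _ _ m1 (hu a ha)⟩)).2 c
    obtain ⟨f, f1, f2⟩ := hE i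
    have hD := (hl.cl i).2.dcl
    have e : u.map r = (u.map (S.e i)).map f := by
      rw [List.map_map]
      exact List.map_congr_left fun a ha => (f1 a (hu a ha)).symm
    have m := lv_mem (q := u.map (S.e i)) hD.zero
      (List.forall_mem_map.2 fun a ha => mem_image_of_mem _ (hu a ha))
    rw [sat_atom a1 a2 a3, sat_atom a1 a2 a3, e, lv_map (f2.zero hD.zero)]
    exact presa_atom f2 hD _ (m _) (m _) (m _)

end Sys

end Pool.Agent.MP_fd3eaf_lc
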