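import Pool.Agent.MP_fd3eaf_lc.ZD
import Pool.Agent.MP_fd3eaf_lc.Mg.Ind

-- part MP_fd3eaf_lc.FD
section

/-!
Bounded definability over a limit ordinal `L` with relations `R j`; `R 0` is the table of the
arithmetic of formula numbers.
-/

set_option autoImplicit false

namespace Pool.Agent.MP_fd3eaf_lc

open Set Ordinal Pool.Agent.Lib.Forcing

/-- The arithmetic table. -/
def ArT : Set (List On) := {q | ∃ i k : ℕ, q = [(i : On), (k : On), (dc i k : On)]}

/-- Limit ordinals above `ω`. -/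
def Lim (L : On) : Prop := Order.IsSuccLimit L ∧ ω < L

theorem Nice.lim {L : On} (h : Nice (Iio L)) : Lim L := ⟨h.isSuccLimit, h.omega_mem⟩

abbrev FFam (α : Type 1) : Type 1 := On → (ℕ → Set (List On)) → (ℕ → On) → α

/-- The variable `0` is `L`, odd variables are relations, the other even ones are ordinals. -/
class FD (G : On → (ℕ → Set (List On)) → (ℕ → On) → Prop) : Prop where
  ex : ∃ P, ZD true P ∧ ∀ (M : Set ZFSet.{0}) (w : ℕ → ZFSet.{0}) (L : On) (v : ℕ → On),
    Lim L → w 0 = L.toZFSet → dec (w 1) = ArT → (∀ i, w (2 * i + 2) = (v i).toZFSet) →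
    (∀ i, v i < L) → (P M w ↔ G L (fun j => dec (w (2 * j + 1))) v)

class FT (t : FFam On) : Prop where
  mem : ∀ L R v, Lim L → (∀ i, v i < L) → t L R v < L
  df : FD fun L R v => v 0 = t L R fun n => v (n + 1)

class FN (n : On → (ℕ → Set (List On)) → (ℕ → On) → ℕ) : Prop where
  ft : FT fun L R v => (n L R v : On)

class FS (B : FFam (Set On)) : Prop where
  df : FD fun L R v => v 0 ∈ B L R fun n => v (n + 1)

/-- Renaming given by the place of `L`, of the relations and of the ordinals. -/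
def fda_ev (a : ℕ) (o e : ℕ → ℕ) (n : ℕ) : ℕ :=
  if n = 0 then a else if n % 2 = 1 then o (n / 2) else e (n / 2 - 1)

theorem fda_odd (a : ℕ) (o e : ℕ → ℕ) (j : ℕ) : fda_ev a o e (2 * j + 1) = o j := by
  rw [fda_ev, if_neg (by omega), if_pos (by omega)]
  congr 1
  omega

theorem fda_even (a : ℕ) (o e : ℕ → ℕ) (i : ℕ) : fda_ev a o e (2 * i + 2) = e i := by
  rw [fda_ev, if_neg (by omega), if_neg (by omega)]
  congr 1
  omega

theorem fda_ren (G : On → (ℕ → Set (List On)) → (ℕ → On) → Prop) [h : FD G] (a : ℕ)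
    (o e : ℕ → ℕ) : ∃ P, ZD true P ∧ ∀ (M : Set ZFSet.{0}) (w : ℕ → ZFSet.{0}) (L : On)
      (v : ℕ → On), Lim L → w a = L.toZFSet → dec (w (o 0)) = ArT →
      (∀ i, w (e i) = (v i).toZFSet) → (∀ i, v i < L) →
      (P M w ↔ G L (fun j => dec (w (o j))) v) := by
  obtain ⟨P, hP, h⟩ := h.ex
  refine ⟨_, ZD.rename true P (fda_ev a o e), fun M w L v hL h0 h1 h2 hv => ?_⟩
  have h3 := h M (fun n => w (fda_ev a o e n)) L v hL h0
    ((congrArg (fun n => dec (w n)) (fda_odd a o e 0)).trans h1)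
    (fun i => (congrArg w (fda_even a o e i)).trans (h2 i)) hv
  simpa only [fda_odd] using h3

theorem fda_sc (P : Set ZFSet.{0} → (ℕ → ZFSet.{0}) → Prop) [h : ZD true P] :
    ZD true fun M v => P M (sc (v 0) fun n => v (n + 1)) :=
  ZD.congr (P := P) fun M v _ _ => by
    have e : (sc (v 0) fun n => v (n + 1)) = v := funext fun n => by cases n <;> rfl
    rw [e]

namespace FD

variable (P Q : On → (ℕ → Set (List On)) → (ℕ → On) → Prop)

theorem congr {P Q : On → (ℕ → Set (List On)) → (ℕ → On) → Prop} [h : FD P]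
    (e : ∀ L R v, Lim L → R 0 = ArT → (∀ i, v i < L) → (P L R v ↔ Q L R v)) : FD Q := by
  obtain ⟨Z, hZ, h⟩ := h.ex
  exact ⟨Z, hZ, fun M w L v hL h0 h1 h2 hv =>
    (h M w L v hL h0 h1 h2 hv).trans (e L _ v hL h1 hv)⟩

theorem rename [h : FD P] (g : ℕ → ℕ) : FD fun L R v => P L R fun n => v (g n) := by
  obtain ⟨Z, hZ, h⟩ := fda_ren P 0 (fun j => 2 * j + 1) fun i => 2 * g i + 2
  exact ⟨Z, hZ, fun M w L v hL h0 h1 h2 hv =>
    h M w L _ hL h0 h1 (fun i => h2 (g i)) fun i => hv (g i)⟩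

theorem ltVar (i j : ℕ) : FD fun _ _ v => v i < v j := by
  refine ⟨_, ZD.mem true (2 * i + 2) (2 * j + 2), fun M w L v _ _ _ h2 _ => ?_⟩
  rw [h2, h2, toZFSet_mem_toZFSet_iff]

theorem eqVar (i j : ℕ) : FD fun _ _ v => v i = v j := by
  refine ⟨_, ZD.eq true (2 * i + 2) (2 * j + 2), fun M w L v _ _ _ h2 _ => ?_⟩
  rw [h2, h2, toZFSet_injective.eq_iff]

/-- Hint: `ZD.encMem`. -/
theorem relVar (l : List ℕ) (h : l ≠ []) (j : ℕ) : FD fun _ R v => l.map v ∈ R j := by
  refine ⟨_, ZD.encMem true (l.map fun i => 2 * i + 2) (2 * j + 1),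
    fun M w L v _ _ _ h2 _ => ?_⟩
  have e : (l.map fun i => 2 * i + 2).map w = (l.map v).map Ordinal.toZFSet := by
    rw [List.map_map, List.map_map]
    exact List.map_congr_left fun i _ => h2 i
  rw [e]
  exact (and_iff_right (by simpa using h)).symm

instance not [h : FD P] : FD fun L R v => ¬ P L R v := by
  obtain ⟨Z, hZ, h⟩ := h.ex
  exact ⟨_, ZD.not true Z, fun M w L v hL h0 h1 h2 hv => not_congr (h M w L v hL h0 h1 h2 hv)⟩

instance and [h1 : FD P] [h2 : FD Q] : FD fun L R v => P L R v ∧ Q L R v := by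
  obtain ⟨Z, hZ, h⟩ := h1.ex
  obtain ⟨Z', hZ', h'⟩ := h2.ex
  exact ⟨_, ZD.and true Z Z', fun M w L v hL h0 h1 h2 hv =>
    and_congr (h M w L v hL h0 h1 h2 hv) (h' M w L v hL h0 h1 h2 hv)⟩

instance allL (S : On → (ℕ → Set (List On)) → (ℕ → On) → On → Prop)
    [h : FD fun L R v => S L R (fun n => v (n + 1)) (v 0)] :
    FD fun L R v => ∀ a, a < L → S L R v a := by
  obtain ⟨Z, hZ, h⟩ := fda_ren _ (h := h) 1 (fun j => 2 * j + 1 + 1)
    fun i => Nat.casesOn i 0 fun k => 2 * k + 2 + 1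
  refine ⟨_, ZD.ball true 0 (fun M w z => Z M (sc z w)) (h := fda_sc Z),
    fun M w L v hL h0 h1 h2 hv => ?_⟩
  have key : ∀ a < L, (Z M (sc a.toZFSet w) ↔ S L (fun j => dec (w (2 * j + 1))) v a) :=
    fun a ha => h M (sc a.toZFSet w) L (sc a v) hL h0 h1 (by rintro (_ | i); exacts [rfl, h2 i])
      (by rintro (_ | i); exacts [ha, hv i])
  rw [h0]
  refine ⟨fun h3 a ha => (key a ha).1 (h3 _ (toZFSet_mem_toZFSet_iff.2 ha)), fun h3 z hz => ?_⟩
  obtain ⟨a, ha, rfl⟩ := mem_toZFSet_iff.1 hz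
  exact (key a ha).2 (h3 a ha)

instance or [FD P] [FD Q] : FD fun L R v => P L R v ∨ Q L R v := by
  exact FD.congr (P := fun L R v => ¬ (¬ P L R v ∧ ¬ Q L R v)) fun _ _ _ _ _ _ => by tauto

instance (priority := low) imp [FD P] [FD Q] : FD fun L R v => P L R v → Q L R v := by
  exact FD.congr (P := fun L R v => ¬ (P L R v ∧ ¬ Q L R v)) fun _ _ _ _ _ _ => by tauto

instance iff [FD P] [FD Q] : FD fun L R v => P L R v ↔ Q L R v := by
  exact FD.congr (P := fun L R v => (P L R v → Q L R v) ∧ (Q L R v → P L R v))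
    fun _ _ _ _ _ _ => iff_iff_implies_and_implies.symm

instance exL (S : On → (ℕ → Set (List On)) → (ℕ → On) → On → Prop)
    [h : FD fun L R v => S L R (fun n => v (n + 1)) (v 0)] :
    FD fun L R v => ∃ a, a < L ∧ S L R v a := by
  exact FD.congr (P := fun L R v => ¬ ∀ a, a < L → ¬ S L R v a) fun _ _ _ _ _ _ => by simp

instance (priority := low) const (p : Prop) : FD fun _ _ _ => p := by
  have := eqVar 0 0
  by_cases h : p
  · exact FD.congr (P := fun _ _ v => v 0 = v 0) fun _ _ _ _ _ _ => by simp [h]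
  · exact FD.congr (P := fun _ _ v => ¬ v 0 = v 0) fun _ _ _ _ _ _ => by simp [h]

theorem subst (S : On → (ℕ → Set (List On)) → (ℕ → On) → On → Prop)
    [h : FD fun L R v => S L R (fun n => v (n + 1)) (v 0)] (t : FFam On) [ht : FT t] :
    FD fun L R v => S L R v (t L R v) := by
  have := ht.df
  exact FD.congr (P := fun L R v => ∃ a, a < L ∧ (a = t L R v ∧ S L R v a))
    fun L R v hL _ hv => ⟨fun ⟨_, _, e, h⟩ => e ▸ h, fun h => ⟨_, ht.mem L R v hL hv, rfl, h⟩⟩

end FD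

instance FT.var (i : ℕ) : FT fun _ _ v => v i := by
  exact ⟨fun _ _ _ _ hv => hv i, FD.eqVar 0 (i + 1)⟩

theorem FT.shift (t : FFam On) [h : FT t] : FT fun L R v => t L R fun n => v (n + 1) := by
  have := h.df
  exact ⟨fun _ _ _ hL hv => h.mem _ _ _ hL fun _ => hv _,
    FD.rename (fun L R v => v 0 = t L R fun n => v (n + 1)) (up fun n => n + 1)⟩

theorem FS.shift (B : FFam (Set On)) [h : FS B] : FS fun L R v => B L R fun n => v (n + 1) := by
  have := h.df
  exact ⟨FD.rename (fun L R v => v 0 ∈ B L R fun n => v (n + 1)) (up fun n => n + 1)⟩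

theorem FT.of_graph (t : FFam On) (S : On → (ℕ → Set (List On)) → (ℕ → On) → On → Prop)
    [h : FD fun L R v => S L R (fun n => v (n + 1)) (v 0)]
    (hm : ∀ L R v, Lim L → (∀ i, v i < L) → t L R v < L)
    (hS : ∀ L R v, Lim L → R 0 = ArT → (∀ i, v i < L) → ∀ x < L, S L R v x ↔ x = t L R v) :
    FT t := by
  exact ⟨hm, FD.congr (h := h) fun L R v hL h0 hv => hS L R _ hL h0 (fun _ => hv _) _ (hv 0)⟩

theorem fdb_congr {s t : FFam On} [h : FT s]
    (e : ∀ L R v, Lim L → (∀ i, v i < L) → s L R v = t L R v) : FT t :=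
  ⟨fun L R v hL hv => e L R v hL hv ▸ h.mem L R v hL hv,
    haveI := h.df
    FD.congr (P := fun L R v => v 0 = s L R fun n => v (n + 1)) fun L R v hL _ hv => by
      rw [e L R _ hL fun n => hv _]⟩

theorem fdb_shift (t : FFam On) [h : FT t] (g : ℕ → ℕ) :
    FT fun L R v => t L R fun n => v (g n) :=
  ⟨fun _ _ _ hL hv => h.mem _ _ _ hL fun _ => hv _,
    haveI := h.df
    FD.rename (fun L R v => v 0 = t L R fun n => v (n + 1)) (up g)⟩

theorem fdb_two (S : On → (ℕ → Set (List On)) → On → On → Prop)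
    (h : FD fun L R v => S L R (v 0) (v 1)) (s t : FFam On) [FT s] [FT t] :
    FD fun L R v => S L R (s L R v) (t L R v) :=
  haveI : FD fun L R v => S L R (v 0) (t L R fun n => v (n + 1)) :=
    haveI := FD.rename (fun L R v => S L R (v 0) (v 1)) (fun n => 1 - n)
    haveI := FT.shift t
    FD.subst (fun L R v b => S L R (v 0) b) (fun L R v => t L R fun n => v (n + 1))
  FD.subst (fun L R v a => S L R a (t L R v)) s

theorem fdb_three (S : On → (ℕ → Set (List On)) → On → On → On → Prop)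
    (h : FD fun L R v => S L R (v 0) (v 1) (v 2)) (s t r : FFam On) [FT s] [FT t] [FT r] :
    FD fun L R v => S L R (s L R v) (t L R v) (r L R v) :=
  haveI : FD fun L R v => S L R (v 0) (t L R fun n => v (n + 1)) (r L R fun n => v (n + 1)) :=
    haveI : FD fun L R v => S L R (v 1) (v 0) (r L R fun n => v (n + 1 + 1)) :=
      haveI := FD.rename (fun L R v => S L R (v 0) (v 1) (v 2)) (fun n => 2 - n)
      haveI := fdb_shift r fun n => n + 1 + 1
      FD.subst (fun L R v c => S L R (v 1) (v 0) c) (fun L R v => r L R fun n => v (n + 1 + 1))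
    haveI := FT.shift t
    FD.subst (fun L R v b => S L R (v 0) b (r L R fun n => v (n + 1)))
      (fun L R v => t L R fun n => v (n + 1))
  FD.subst (fun L R v a => S L R a (t L R v) (r L R v)) s

theorem fdb_four (S : On → (ℕ → Set (List On)) → On → On → On → On → Prop)
    (h : FD fun L R v => S L R (v 0) (v 1) (v 2) (v 3)) (s t r u : FFam On) [FT s] [FT t] [FT r]
    [FT u] : FD fun L R v => S L R (s L R v) (t L R v) (r L R v) (u L R v) :=
  haveI : FD fun L R v => S L R (v 0) (t L R fun n => v (n + 1)) (r L R fun n => v (n + 1))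
      (u L R fun n => v (n + 1)) :=
    haveI : FD fun L R v => S L R (v 1) (v 0) (r L R fun n => v (n + 1 + 1))
        (u L R fun n => v (n + 1 + 1)) :=
      haveI : FD fun L R v => S L R (v 2) (v 1) (v 0) (u L R fun n => v (n + 1 + 1 + 1)) :=
        haveI := FD.rename (fun L R v => S L R (v 0) (v 1) (v 2) (v 3)) (fun n => 3 - n)
        haveI := fdb_shift u fun n => n + 1 + 1 + 1
        FD.subst (fun L R v d => S L R (v 2) (v 1) (v 0) d)
          (fun L R v => u L R fun n => v (n + 1 + 1 + 1))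
      haveI := fdb_shift r fun n => n + 1 + 1
      FD.subst (fun L R v c => S L R (v 1) (v 0) c (u L R fun n => v (n + 1 + 1)))
        (fun L R v => r L R fun n => v (n + 1 + 1))
    haveI := FT.shift t
    FD.subst (fun L R v b => S L R (v 0) b (r L R fun n => v (n + 1)) (u L R fun n => v (n + 1)))
      (fun L R v => t L R fun n => v (n + 1))
  FD.subst (fun L R v a => S L R a (t L R v) (r L R v) (u L R v)) s

section terms

variable (s t r u : FFam On) [FT s] [FT t] [FT r] [FT u]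

instance FD.lt : FD fun L R v => s L R v < t L R v := by
  exact fdb_two (fun _ _ a b => a < b) (FD.ltVar 0 1) s t

instance FD.eq : FD fun L R v => s L R v = t L R v := by
  exact fdb_two (fun _ _ a b => a = b) (FD.eqVar 0 1) s t

instance FD.le : FD fun L R v => s L R v ≤ t L R v := by
  exact FD.congr (P := fun L R v => ¬ t L R v < s L R v) fun _ _ _ _ _ _ => not_lt

instance FD.rel2 (j : ℕ) : FD fun L R v => [s L R v, t L R v] ∈ R j := by
  exact fdb_two (fun _ R a b => [a, b] ∈ R j) (FD.relVar [0, 1] (by simp) j) s t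

instance FD.rel3 (j : ℕ) : FD fun L R v => [s L R v, t L R v, r L R v] ∈ R j := by
  exact fdb_three (fun _ R a b c => [a, b, c] ∈ R j) (FD.relVar [0, 1, 2] (by simp) j) s t r

instance FD.rel4 (j : ℕ) : FD fun L R v => [s L R v, t L R v, r L R v, u L R v] ∈ R j := by
  exact fdb_four (fun _ R a b c d => [a, b, c, d] ∈ R j) (FD.relVar [0, 1, 2, 3] (by simp) j)
    s t r u

instance FD.allLt (S : On → (ℕ → Set (List On)) → (ℕ → On) → On → Prop)
    [h : FD fun L R v => S L R (fun n => v (n + 1)) (v 0)] :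
    FD fun L R v => ∀ a, a < t L R v → S L R v a := by
  have := FT.shift t
  exact FD.congr (P := fun L R v => ∀ a, a < L → (a < t L R v → S L R v a))
    fun L R v hL _ hv => ⟨fun h a ha => h a (ha.trans (FT.mem L R v hL hv)) ha,
      fun h a _ ha => h a ha⟩

instance FD.exLt (S : On → (ℕ → Set (List On)) → (ℕ → On) → On → Prop)
    [h : FD fun L R v => S L R (fun n => v (n + 1)) (v 0)] :
    FD fun L R v => ∃ a, a < t L R v ∧ S L R v a := by
  exact FD.congr (P := fun L R v => ¬ ∀ a, a < t L R v → ¬ S L R v a) fun _ _ _ _ _ _ => by simp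

instance FT.least (S : On → (ℕ → Set (List On)) → (ℕ → On) → On → Prop)
    [h : FD fun L R v => S L R (fun n => v (n + 1)) (v 0)] :
    FT fun L R v => sInf {x | x < L ∧ S L R v x} := by
  have : FD fun L R v => S L R (fun n => v (n + 1 + 1)) (v 0) :=
    FD.rename (fun L R v => S L R (fun n => v (n + 1)) (v 0)) (up (· + 1))
  refine FT.of_graph _ (fun L R v x => (S L R v x ∧ ∀ y, y < x → ¬ S L R v y) ∨
    ((∀ y, y < L → ¬ S L R v y) ∧ ∀ y, y < x → False))
    (fun L R v hL _ => ?_) fun L R v _ _ _ x hx => ?_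
  · rcases {x | x < L ∧ S L R v x}.eq_empty_or_nonempty with e | e
    · rw [e, Ordinal.sInf_empty]
      exact hL.1.pos
    · exact (csInf_mem e).1
  rw [← mda_sInf]
  refine or_congr ⟨fun h => ⟨⟨hx, h.1⟩, fun y hy k => h.2 y hy k.2⟩,
    fun h => ⟨h.1.2, fun y hy k => h.2 y hy ⟨hy.trans hx, k⟩⟩⟩ (and_congr_left' ?_)
  exact ⟨fun h y k => h y k.1 k.2, fun h y k k' => h y ⟨k, k'⟩⟩

instance FT.zero : FT fun _ _ _ => 0 := by
  exact FT.of_graph _ (fun _ _ _ x => ∀ y, y < x → False) (fun _ _ _ hL _ => hL.1.pos)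
    fun _ _ _ _ _ _ _ _ => ⟨fun h => le_antisymm (not_lt.1 (h 0)) zero_le,
      fun h _ k => not_lt_zero (h ▸ k)⟩

instance FT.succ : FT fun L R v => t L R v + 1 := by
  have := FT.shift t
  have := fdb_shift t fun n => n + 1 + 1
  refine FT.of_graph _ (fun L R v x => t L R v < x ∧ ∀ y, y < x → y ≤ t L R v)
    (fun L R v hL hv => hL.1.add_one_lt (FT.mem L R v hL hv)) fun L R v _ _ _ x _ => ?_
  constructor
  · rintro ⟨h1, h2⟩
    exact le_antisymm (not_lt.1 fun k => (lt_add_one _).not_ge (h2 _ k))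
      (Order.add_one_le_of_lt h1)
  · rintro rfl
    exact ⟨lt_add_one _, fun y hy => Order.lt_add_one_iff.1 hy⟩

instance FT.one : FT fun _ _ _ => 1 := by
  exact fdb_congr (h := FT.succ fun _ _ _ => 0) fun _ _ _ _ _ => zero_add 1

instance FT.nat (n : ℕ) : FT fun _ _ _ => (n : On) := by
  induction n with
  | zero => exact fdb_congr (h := FT.zero) fun _ _ _ _ _ => Nat.cast_zero.symm
  | succ n ih =>
    exact fdb_congr (h := FT.succ fun _ _ _ => (n : On)) fun _ _ _ _ _ => (Nat.cast_succ n).symm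

instance FT.ofNat (k : ℕ) [k.AtLeastTwo] : FT fun _ _ _ => (OfNat.ofNat k : On) := by
  exact FT.nat k

instance FT.omega : FT fun _ _ _ => ω := by
  refine fdb_congr (h := FT.least fun _ _ _ x => 0 < x ∧ ∀ y, y < x → y + 1 < x)
    fun L R v hL _ => ?_
  have h : ω ∈ {x | x < L ∧ 0 < x ∧ ∀ y, y < x → y + 1 < x} :=
    ⟨hL.2, (mda_limit _).1 isSuccLimit_omega0⟩
  exact le_antisymm (csInf_le' h)
    (omega0_le_of_isSuccLimit ((mda_limit _).2 (csInf_mem ⟨_, h⟩).2))

theorem fdb_ite (P : On → (ℕ → Set (List On)) → (ℕ → On) → Prop) [FD P]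
    (d : ∀ L R v, Decidable (P L R v)) :
    FT fun L R v => @ite _ (P L R v) (d L R v) (s L R v) (t L R v) := by
  have : FD fun L R v => P L R fun n => v (n + 1) := FD.rename P (· + 1)
  have := FT.shift s
  have := FT.shift t
  refine FT.of_graph _ (fun L R v x => (P L R v ∧ x = s L R v) ∨ (¬ P L R v ∧ x = t L R v))
    (fun L R v hL hv => ?_) fun L R v _ _ _ x _ => ?_
  · split_ifs
    · exact FT.mem L R v hL hv
    · exact FT.mem L R v hL hv
  · split_ifs with h <;> simp [h]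

instance FT.min : FT fun L R v => min (s L R v) (t L R v) := by
  exact fdb_congr
    (h := fdb_ite s t (fun L R v => s L R v ≤ t L R v) fun _ _ _ => Classical.dec _)
    fun _ _ _ _ _ => by
      split_ifs with h
      · exact (min_eq_left h).symm
      · exact (min_eq_right (not_le.1 h).le).symm

instance FD.memS (B : FFam (Set On)) [h : FS B] : FD fun L R v => t L R v ∈ B L R v := by
  have := h.df
  exact FD.subst (fun L R v a => a ∈ B L R v) t

instance FD.notMemS (B : FFam (Set On)) [h : FS B] : FD fun L R v => t L R v ∉ B L R v := by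
  exact FD.not fun L R v => t L R v ∈ B L R v

instance FS.d1 (j : ℕ) : FS fun _ R _ => d1 (R j) := by
  exact ⟨FD.relVar [0] (by simp) j⟩

instance FS.setOf (S : On → (ℕ → Set (List On)) → (ℕ → On) → On → Prop)
    [h : FD fun L R v => S L R (fun n => v (n + 1)) (v 0)] : FS fun L R v => {x | S L R v x} := by
  exact ⟨h⟩

instance FS.iio : FS fun L R v => Iio (t L R v) := by
  have := FT.shift t
  exact ⟨FD.lt (fun _ _ v => v 0) fun L R v => t L R fun n => v (n + 1)⟩

instance FS.inter (B C : FFam (Set On)) [FS B] [FS C] : FS fun L R v => B L R v ∩ C L R v := by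
  exact ⟨FD.and (fun L R v => v 0 ∈ B L R fun n => v (n + 1))
    (fun L R v => v 0 ∈ C L R fun n => v (n + 1)) (h1 := FS.df) (h2 := FS.df)⟩

end terms

section nat

variable (n m : On → (ℕ → Set (List On)) → (ℕ → On) → ℕ) [FN n] [FN m]

instance (priority := low) FN.cast : FT fun L R v => (n L R v : On) := FN.ft

instance (priority := low) FN.const (k : ℕ) : FN fun _ _ _ => k := by
  exact ⟨FT.nat k⟩

instance FN.toN (t : FFam On) [FT t] : FN fun L R v => toN (t L R v) := by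
  exact ⟨fdb_congr
    (h := fdb_ite t (fun _ _ _ => 0) (fun L R v => t L R v < ω) fun _ _ _ => Classical.dec _)
    fun _ _ _ _ _ => by
      split_ifs with h
      · exact (nat_toN h).symm
      · rw [MP_fd3eaf_lc.toN, dif_neg h, Nat.cast_zero]⟩

instance FN.succ : FN fun L R v => n L R v + 1 := by
  exact ⟨fdb_congr (h := FT.succ fun L R v => (n L R v : On)) fun _ _ _ _ _ =>
    (Nat.cast_succ _).symm⟩

/-- Hint: read the value from `R 0 = ArT`. -/
instance FN.dc : FN fun L R v => dc (m L R v) (n L R v) := by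
  have := FT.shift fun L R v => (n L R v : On)
  have := FT.shift fun L R v => (m L R v : On)
  refine ⟨FT.of_graph _ (fun L R v x => [(m L R v : On), (n L R v : On), x] ∈ R 0)
    (h := FD.rel3 (fun L R v => (m L R fun i => v (i + 1) : On))
      (fun L R v => (n L R fun i => v (i + 1) : On)) (fun _ _ v => v 0) 0)
    (fun L R v hL _ => (natCast_lt_omega0 _).trans hL.2) fun L R v _ hR _ x _ => ?_⟩
  rw [hR]
  refine ⟨fun ⟨i, k, e⟩ => ?_, fun e => ⟨_, _, by rw [e]⟩⟩
  simp only [List.cons.injEq, Nat.cast_inj, and_true] at e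
  rw [e.1, e.2.1, e.2.2]

instance FN.tg : FN fun L R v => tg (n L R v) := by
  exact FN.dc n fun _ _ _ => 0

instance FN.oa : FN fun L R v => oa (n L R v) := by
  exact FN.dc n fun _ _ _ => 1

instance FN.ob : FN fun L R v => ob (n L R v) := by
  exact FN.dc n fun _ _ _ => 2

instance FN.oc : FN fun L R v => oc (n L R v) := by
  exact FN.dc n fun _ _ _ => 3

instance FD.ltN : FD fun L R v => n L R v < m L R v := by
  exact FD.congr (P := fun L R v => (n L R v : On) < (m L R v : On)) fun _ _ _ _ _ _ => Nat.cast_lt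

instance FD.eqN : FD fun L R v => n L R v = m L R v := by
  exact FD.congr (P := fun L R v => (n L R v : On) = (m L R v : On)) fun _ _ _ _ _ _ =>
    Nat.cast_inj

instance FD.neN : FD fun L R v => n L R v ≠ m L R v := by
  exact FD.not fun L R v => n L R v = m L R v

end nat

instance FD.allN (S : On → (ℕ → Set (List On)) → (ℕ → On) → ℕ → Prop)
    [h : FD fun L R v => S L R (fun n => v (n + 1)) (toN (v 0))] :
    FD fun L R v => ∀ a : ℕ, S L R v a := by
  exact FD.congr (P := fun L R v => ∀ a, a < ω → S L R v (toN a)) fun _ _ _ _ _ _ =>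
    ⟨fun h a => toN_nat a ▸ h a (natCast_lt_omega0 a), fun h _ _ => h _⟩

instance FD.exN (S : On → (ℕ → Set (List On)) → (ℕ → On) → ℕ → Prop)
    [h : FD fun L R v => S L R (fun n => v (n + 1)) (toN (v 0))] :
    FD fun L R v => ∃ a : ℕ, S L R v a := by
  exact FD.congr (P := fun L R v => ∃ a, a < ω ∧ S L R v (toN a)) fun _ _ _ _ _ _ =>
    ⟨fun ⟨_, _, h⟩ => ⟨_, h⟩, fun ⟨a, h⟩ => ⟨a, natCast_lt_omega0 a, by rwa [toN_nat]⟩⟩

/-- Nonempty sets without a maximal element. -/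
def fda_lz (x : ZFSet.{0}) : Prop :=
  (∃ z, z ∈ x ∧ z = z) ∧ ∀ y, y ∈ x → ∃ z, z ∈ x ∧ y ∈ z

theorem fda_lz_zd (i : ℕ) : ZD true fun _ v => fda_lz (v i) := by
  unfold fda_lz
  infer_instance

theorem fda_lz_iff (c : On) : fda_lz c.toZFSet ↔ Order.IsSuccLimit c := by
  constructor
  · rintro ⟨⟨z, hz, -⟩, h⟩
    obtain ⟨a, ha, -⟩ := mem_toZFSet_iff.1 hz
    refine ⟨not_isMin_of_lt ha, Order.isSuccPrelimit_of_succ_lt fun b hb => ?_⟩
    obtain ⟨u, hu, h1⟩ := h _ (toZFSet_mem_toZFSet_iff.2 hb)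
    obtain ⟨e, he, rfl⟩ := mem_toZFSet_iff.1 hu
    exact (Order.succ_le_of_lt (toZFSet_mem_toZFSet_iff.1 h1)).trans_lt he
  · refine fun h => ⟨⟨_, toZFSet_mem_toZFSet_iff.2 h.bot_lt, rfl⟩, fun y hy => ?_⟩
    obtain ⟨a, ha, rfl⟩ := mem_toZFSet_iff.1 hy
    exact ⟨_, toZFSet_mem_toZFSet_iff.2 (h.succ_lt ha),
      toZFSet_mem_toZFSet_iff.2 (Order.lt_succ a)⟩

theorem fda_lim (L : On) : Lim L ↔ fda_lz L.toZFSet ∧ ∃ y, y ∈ L.toZFSet ∧ fda_lz y := by
  refine and_congr (fda_lz_iff L).symm ⟨fun h => ⟨_, toZFSet_mem_toZFSet_iff.2 h,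
    (fda_lz_iff _).2 isSuccLimit_omega0⟩, fun ⟨y, hy, h⟩ => ?_⟩
  obtain ⟨a, ha, rfl⟩ := mem_toZFSet_iff.1 hy
  exact (omega0_le_of_isSuccLimit ((fda_lz_iff a).1 h)).trans_lt ha

/-- Passage to sets.  Hint: being a limit ordinal above `ω` is bounded; bind a new variable
`z ∈ w iL` with `z = ∅` for the values of `lv [a, b]` from `2` on. -/
theorem FD.zd (G : On → (ℕ → Set (List On)) → (ℕ → On) → Prop) [FD G] (g : ℕ → ℕ)
    (iL ia ib : ℕ) : ∃ P, ZD true P ∧ ∀ (M : Set ZFSet.{0}) (w : ℕ → ZFSet.{0}),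
      dec (w (g 0)) = ArT → (P M w ↔ ∃ L a b : On, w iL = L.toZFSet ∧ w ia = a.toZFSet ∧
        w ib = b.toZFSet ∧ Lim L ∧ a < L ∧ b < L ∧
        G L (fun j => dec (w (g j))) (lv [a, b])) := by
  obtain ⟨Z, hZ, h⟩ := fda_ren G (iL + 1) (fun j => g j + 1)
    fun i => [ia + 1, ib + 1].getD i 0
  have := fda_sc Z
  have := fda_lz_zd iL
  have := fda_lz_zd 0
  refine ⟨fun M w => (w iL).IsOrdinal ∧ (fda_lz (w iL) ∧ ∃ y, y ∈ w iL ∧ fda_lz y) ∧
    w ia ∈ w iL ∧ w ib ∈ w iL ∧ ∃ z, z ∈ w iL ∧ z = ∅ ∧ Z M (sc z w), inferInstance,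
    fun M w h1 => ?_⟩
  have key : ∀ L a b : On, w iL = L.toZFSet → w ia = a.toZFSet → w ib = b.toZFSet → Lim L →
      a < L → b < L → (Z M (sc ∅ w) ↔ G L (fun j => dec (w (g j))) (lv [a, b])) := by
    intro L a b e1 e2 e3 hL ha hb
    refine h M (sc ∅ w) L (lv [a, b]) hL e1 h1 ?_ ?_
    · rintro (_ | _ | i)
      exacts [e2, e3, toZFSet_zero.symm]
    · rintro (_ | _ | i)
      exacts [ha, hb, hL.1.bot_lt]
  constructor
  · rintro ⟨h2, h3, h4, h5, z, -, rfl, h6⟩
    have e1 : w iL = (w iL).rank.toZFSet := h2.toZFSet_rank_eq.symm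
    rw [e1] at h3 h4 h5
    obtain ⟨a, ha, e2⟩ := mem_toZFSet_iff.1 h4
    obtain ⟨b, hb, e3⟩ := mem_toZFSet_iff.1 h5
    have hL := (fda_lim _).2 h3
    exact ⟨_, a, b, e1, e2.symm, e3.symm, hL, ha, hb,
      (key _ a b e1 e2.symm e3.symm hL ha hb).1 h6⟩
  · rintro ⟨L, a, b, e1, e2, e3, hL, ha, hb, h2⟩
    have h3 := (key L a b e1 e2 e3 hL ha hb).2 h2
    rw [e1, e2, e3]
    refine ⟨ZFSet.isOrdinal_toZFSet L, (fda_lim L).1 hL, toZFSet_mem_toZFSet_iff.2 ha,
      toZFSet_mem_toZFSet_iff.2 hb, ∅, ?_, rfl, h3⟩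
    rw [← toZFSet_zero]
    exact toZFSet_mem_toZFSet_iff.2 hL.1.bot_lt

end Pool.Agent.MP_fd3eaf_lc

end

-- part MP_fd3eaf_lc.Tab
section

/-!
The machine is computed from tables whose correctness is a bounded statement.
-/

set_option autoImplicit false

namespace Pool.Agent.MP_fd3eaf_lc

open Set Ordinal

noncomputable def tf2 (R : Set (List On)) (L a b : On) : On := sInf {z | z < L ∧ [a, b, z] ∈ R}

noncomputable def tf3 (R : Set (List On)) (L a b c : On) : On :=
  sInf {z | z < L ∧ [a, b, c, z] ∈ R}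

/-- The decomposition that is read off from a table. -/
noncomputable def tF (R : Set (List On)) (L c : On) : Loc :=
  ⟨tf2 R L 0 c, toN (tf2 R L 2 c), tf2 R L 1 c,
    (List.range (toN (tf2 R L 3 c))).map fun i : ℕ => tf3 R L 4 c i⟩

/-- The true table. -/
def DT (L : On) : Set (List On) :=
  {q | ∃ c < L, q = [0, c, lev c] ∨ q = [1, c, cut c] ∨ q = [2, c, (fml c : On)] ∨
    q = [3, c, ((par c).length : On)] ∨ ∃ i < (par c).length, q = [4, c, (i : On), lv (par c) i]}

theorem taba_nat {L : On} (h : Lim L) (n : ℕ) : (n : On) < L := (natCast_lt_omega0 n).trans h.2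

theorem taba_zero {L : On} (h : Lim L) : (0 : On) < L := omega0_pos.trans h.2

theorem taba_lv_par {L c : On} (hc : c < L) (i : ℕ) : lv (par c) i < L :=
  (par_getD_le c i).trans_lt hc

theorem DT_bdd {L : On} (h : Lim L) : ∀ q ∈ DT L, q ≠ [] ∧ ∀ a ∈ q, a < L := by
  have h0 := taba_zero h
  have h1 : (1 : On) < L := by simpa using taba_nat h 1
  have h2 : (2 : On) < L := taba_nat h 2
  have h3 : (3 : On) < L := taba_nat h 3
  have h4 : (4 : On) < L := taba_nat h 4
  rintro q ⟨c, hc, rfl | rfl | rfl | rfl | ⟨i, -, rfl⟩⟩ <;>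
    refine ⟨List.cons_ne_nil _ _, fun a ha => ?_⟩ <;>
    simp only [List.mem_cons, List.not_mem_nil, or_false] at ha
  · rcases ha with rfl | rfl | rfl
    exacts [h0, hc, (lev_le c).trans_lt hc]
  · rcases ha with rfl | rfl | rfl
    exacts [h1, hc, (cut_le c).trans_lt hc]
  · rcases ha with rfl | rfl | rfl
    exacts [h2, hc, taba_nat h _]
  · rcases ha with rfl | rfl | rfl
    exacts [h3, hc, taba_nat h _]
  · rcases ha with rfl | rfl | rfl | rfl
    exacts [h4, hc, taba_nat h _, taba_lv_par hc i]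

theorem taba_sInf {L x : On} {P : On → Prop} (hx : x < L) (h : ∀ z, P z ↔ z = x) :
    sInf {z | z < L ∧ P z} = x := by
  have e : {z | z < L ∧ P z} = {x} :=
    Set.ext fun z => ⟨fun hz => (h z).1 hz.2, fun hz => ⟨hz ▸ hx, (h z).2 hz⟩⟩
  rw [e, csInf_singleton]

theorem taba_ne {a b : ℕ} (h : a ≠ b) : (a : On) ≠ (b : On) := fun e => h (Nat.cast_injective e)

theorem taba_eta (q : List On) : (List.range q.length).map (fun i => lv q i) = q :=
  ((mdc_len q q.length).2 rfl).symm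

theorem tF_DT {L c : On} (h : Lim L) (hc : c < L) : tF (DT L) L c = D c := by
  have n01 : (0 : On) ≠ 1 := zero_ne_one
  have n02 : (0 : On) ≠ 2 := by simp
  have n03 : (0 : On) ≠ 3 := by simp
  have n12 : (1 : On) ≠ 2 := by simp
  have n13 : (1 : On) ≠ 3 := by simp
  have n23 : (2 : On) ≠ 3 := taba_ne (a := 2) (b := 3) (by omega)
  have e0 : tf2 (DT L) L 0 c = lev c := taba_sInf ((lev_le c).trans_lt hc) fun z =>
    ⟨fun ⟨d, _, hd⟩ => by
      simp only [List.cons.injEq, n01, n02, n03, false_and, true_and, and_true, reduceCtorEq,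
        and_false, exists_false, or_false] at hd
      rw [hd.2, hd.1], fun e => ⟨c, hc, Or.inl (by rw [e])⟩⟩
  have e1 : tf2 (DT L) L 1 c = cut c := taba_sInf ((cut_le c).trans_lt hc) fun z =>
    ⟨fun ⟨d, _, hd⟩ => by
      simp only [List.cons.injEq, n01.symm, n12, n13, false_and, true_and, and_true, reduceCtorEq,
        and_false, exists_false, or_false, false_or] at hd
      rw [hd.2, hd.1], fun e => ⟨c, hc, Or.inr (Or.inl (by rw [e]))⟩⟩
  have e2 : tf2 (DT L) L 2 c = (fml c : On) := taba_sInf (taba_nat h _) fun z =>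
    ⟨fun ⟨d, _, hd⟩ => by
      simp only [List.cons.injEq, n02.symm, n12.symm, n23, false_and, true_and, and_true,
        reduceCtorEq, and_false, exists_false, or_false, false_or] at hd
      rw [hd.2, hd.1], fun e => ⟨c, hc, Or.inr (Or.inr (Or.inl (by rw [e])))⟩⟩
  have e3 : tf2 (DT L) L 3 c = ((par c).length : On) := taba_sInf (taba_nat h _) fun z =>
    ⟨fun ⟨d, _, hd⟩ => by
      simp only [List.cons.injEq, n03.symm, n13.symm, n23.symm, false_and, true_and, and_true,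
        reduceCtorEq, and_false, exists_false, or_false, false_or] at hd
      rw [hd.2, hd.1], fun e => ⟨c, hc, Or.inr (Or.inr (Or.inr (Or.inl (by rw [e]))))⟩⟩
  have e4 : ∀ i < (par c).length, tf3 (DT L) L 4 c (i : On) = lv (par c) i := fun i hi =>
    taba_sInf (taba_lv_par hc i) fun z =>
      ⟨fun ⟨d, _, hd⟩ => by
        simp only [List.cons.injEq, true_and, and_true, reduceCtorEq, and_false, false_or,
          Nat.cast_inj] at hd
        obtain ⟨j, -, a1, a2, a3⟩ := hd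
        rw [a3, a1, a2], fun e => ⟨c, hc, Or.inr (Or.inr (Or.inr (Or.inr ⟨i, hi, by rw [e]⟩)))⟩⟩
  rw [tF, e0, e1, e2, e3, toN_nat, toN_nat, D_eta,
    List.map_congr_left fun i hi => e4 i (List.mem_range.1 hi), taba_eta]

/-- Definable lists. -/
class FL (q : FFam (List On)) : Prop where
  len : FN fun L R v => (q L R v).length
  idx : FT fun L R v => lv (q L R fun n => v (n + 1)) (toN (v 0))
  mem : ∀ L R v, Lim L → (∀ i, v i < L) → ∀ a ∈ q L R v, a < L

theorem taba_ren (t : FFam On) [h : FT t] (g : ℕ → ℕ) :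
    FT fun L R v => t L R fun n => v (g n) :=
  ⟨fun L R _ hL hv => h.mem L R _ hL fun _ => hv _, FD.rename (h := h.df) _ (up g)⟩

theorem taba_congr {s t : FFam On} [h : FT s]
    (e : ∀ L R v, Lim L → (∀ i, v i < L) → s L R v = t L R v) : FT t :=
  ⟨fun L R v hL hv => e L R v hL hv ▸ h.mem L R v hL hv,
    FD.congr (h := h.df) fun L R v hL _ hv => by rw [e L R _ hL fun _ => hv _]⟩

theorem taba_renN (n : On → (ℕ → Set (List On)) → (ℕ → On) → ℕ) [h : FN n] (g : ℕ → ℕ) :
    FN fun L R v => n L R fun i => v (g i) :=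
  ⟨taba_ren (fun L R v => (n L R v : On)) (h := h.ft) g⟩

theorem taba_renL (q : FFam (List On)) [h : FL q] (g : ℕ → ℕ) :
    FL fun L R v => q L R fun n => v (g n) :=
  ⟨taba_renN _ (h := h.len) g, taba_ren _ (h := h.idx) (up g),
    fun L R _ hL hv => h.mem L R _ hL fun _ => hv _⟩

theorem taba_tf2 (s t : FFam On) [FT s] [FT t] (j : ℕ) :
    FT fun L R v => tf2 (R j) L (s L R v) (t L R v) :=
  haveI := FT.shift s
  haveI := FT.shift t
  FT.least fun L R v x => [s L R v, t L R v, x] ∈ R j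

theorem taba_tf3 (r s t : FFam On) [FT r] [FT s] [FT t] (j : ℕ) :
    FT fun L R v => tf3 (R j) L (r L R v) (s L R v) (t L R v) :=
  haveI := FT.shift r
  haveI := FT.shift s
  haveI := FT.shift t
  FT.least fun L R v x => [r L R v, s L R v, t L R v, x] ∈ R j

theorem taba_ite (P : On → (ℕ → Set (List On)) → (ℕ → On) → Prop) [FD P] (s t : FFam On) [FT s]
    [FT t] (d : ∀ L R v, Decidable (P L R v)) :
    FT fun L R v => @ite _ (P L R v) (d L R v) (s L R v) (t L R v) := by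
  have := FT.shift s
  have := FT.shift t
  have := FD.rename P fun n => n + 1
  refine FT.of_graph _ (fun L R v x => (P L R v ∧ x = s L R v) ∨ (¬ P L R v ∧ x = t L R v))
    (fun L R v hL hv => ?_) fun L R v _ _ _ x _ => ?_
  · split_ifs
    exacts [FT.mem L R v hL hv, FT.mem L R v hL hv]
  · split_ifs with a <;> simp [a]

/-- Exchange of the first two variables. -/
def taba_swap : ℕ → ℕ
  | 0 => 1
  | 1 => 0
  | n + 2 => n + 2

theorem taba_subst (s : On → (ℕ → Set (List On)) → (ℕ → On) → On → On)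
    [h : FT fun L R v => s L R (fun n => v (n + 1)) (v 0)] (t : FFam On) [ht : FT t] :
    FT fun L R v => s L R v (t L R v) :=
  haveI := FT.shift t
  ⟨fun L R v hL hv => h.mem L R (sc (t L R v) v) hL
      (sc_mem (S := Iio L) (ht.mem L R v hL hv) hv),
    FD.subst (fun L R v a => v 0 = s L R (fun n => v (n + 1)) a)
      (h := FD.rename (h := h.df) _ taba_swap) fun L R v => t L R fun n => v (n + 1)⟩

theorem taba_lv_range (n i : ℕ) (f : ℕ → On) :
    lv ((List.range n).map f) i = if i < n then f i else 0 := by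
  split_ifs with h
  · simp [lv, List.getD_eq_getElem?_getD, h]
  · simp [lv, List.getD_eq_getElem?_getD, h]

theorem taba_ext {p q : List On} : p = q ↔ p.length = q.length ∧ ∀ i, lv p i = lv q i := by
  refine ⟨fun h => h ▸ ⟨rfl, fun _ => rfl⟩, fun h => ?_⟩
  rw [← taba_eta p, ← taba_eta q, h.1, funext h.2]

theorem taba_all {q : List On} {P : On → Prop} :
    (∀ a ∈ q, P a) ↔ ∀ i, i < q.length → P (lv q i) := by
  refine ⟨fun h i hi => h _ ?_, fun h a ha => ?_⟩
  · rw [lv, List.getD_eq_getElem _ _ hi]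
    exact List.getElem_mem hi
  · obtain ⟨i, hi, rfl⟩ := List.mem_iff_getElem.1 ha
    have := h i hi
    rwa [lv, List.getD_eq_getElem _ _ hi] at this

section
variable (s t : FFam On) [FT s] [FT t] (p q : FFam (List On)) [FL p] [FL q]
  (n : On → (ℕ → Set (List On)) → (ℕ → On) → ℕ) [FN n] (j : ℕ)

instance FT.tFl : FT fun L R v => (tF (R j) L (t L R v)).l :=
  taba_tf2 (fun _ _ _ => 0) t j

instance FT.tFe : FT fun L R v => (tF (R j) L (t L R v)).e :=
  taba_tf2 (fun _ _ _ => 1) t j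

instance FN.tFk : FN fun L R v => (tF (R j) L (t L R v)).k :=
  haveI := taba_tf2 (fun _ _ _ => 2) t j
  FN.toN fun L R v => tf2 (R j) L 2 (t L R v)

instance FL.tFq : FL fun L R v => (tF (R j) L (t L R v)).q := by
  have h3 := taba_tf2 (fun _ _ _ => 3) t j
  have hn := FN.toN fun L R v => tf2 (R j) L 3 (t L R v)
  have hs := FT.shift t
  have hm := taba_renN (fun L R v => toN (tf2 (R j) L 3 (t L R v))) fun n => n + 1
  have h4 := taba_tf3 (fun _ _ _ => 4) (fun L R v => t L R fun n => v (n + 1))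
    (fun _ _ v => (toN (v 0) : On)) j
  refine ⟨⟨taba_congr (h := hn.ft) fun L R v _ _ => by simp [tF]⟩,
    taba_congr (h := taba_ite
      (fun L R v => toN (v 0) < toN (tf2 (R j) L 3 (t L R fun n => v (n + 1))))
      (fun L R v => tf3 (R j) L 4 (t L R fun n => v (n + 1)) (toN (v 0) : On))
      (fun _ _ _ => 0) fun _ _ _ => inferInstance) fun L R v _ _ =>
        (taba_lv_range _ _ fun i : ℕ => tf3 (R j) L 4 (t L R fun n => v (n + 1)) i).symm,
    fun L R v hL hv a ha => ?_⟩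
  obtain ⟨i, -, rfl⟩ := List.mem_map.1 ha
  exact (taba_tf3 (fun _ _ _ => 4) t (fun _ _ _ => (i : On)) j).mem L R v hL hv

instance FL.nil : FL fun _ _ _ => [] :=
  ⟨FN.const 0, taba_congr (h := FT.zero) fun _ _ _ _ _ => (lv_nil _).symm,
    fun _ _ _ _ _ _ ha => absurd ha List.not_mem_nil⟩

instance FL.cons : FL fun L R v => t L R v :: q L R v := by
  have h1 : FN fun L R v => (q L R v).length := FL.len
  have h2 := taba_ren t fun n => n + 1 + 1
  have h3 : FT fun L R v => lv (q L R fun n => v (n + 1 + 1 + 1)) (toN (v 0)) :=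
    taba_ren _ (h := FL.idx (q := q)) (up fun n => n + 1 + 1)
  refine ⟨FN.succ fun L R v => (q L R v).length, FT.of_graph _
    (fun L R v x => (toN (v 0) = 0 ∧ x = t L R fun n => v (n + 1)) ∨
      ∃ i : ℕ, toN (v 0) = i + 1 ∧ x = lv (q L R fun n => v (n + 1)) i)
    (fun L R v hL hv => ?_) fun L R v _ _ _ x _ => ?_, fun L R v hL hv a ha => ?_⟩
  · refine lv_mem (Λ := Iio L) (taba_zero hL) (fun a ha => ?_) _
    rcases List.mem_cons.1 ha with rfl | ha
    · exact FT.mem L R _ hL fun _ => hv _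
    · exact FL.mem L R _ hL (fun _ => hv _) a ha
  · generalize toN (v 0) = m
    cases m <;> simp
  · rcases List.mem_cons.1 ha with rfl | ha
    · exact FT.mem L R v hL hv
    · exact FL.mem L R v hL hv a ha

instance FN.length : FN fun L R v => (q L R v).length := FL.len

instance FT.lv : FT fun L R v => lv (q L R v) (n L R v) :=
  taba_congr (h := taba_subst (fun L R v a => MP_fd3eaf_lc.lv (q L R v) (toN a)) (h := FL.idx)
    fun L R v => (n L R v : On)) fun _ _ _ _ _ => by rw [toN_nat]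

instance FD.eqL : FD fun L R v => p L R v = q L R v :=
  haveI := FL.idx (q := p)
  haveI := FL.idx (q := q)
  FD.congr (P := fun L R v => (p L R v).length = (q L R v).length ∧
    ∀ i : ℕ, lv (p L R v) i = lv (q L R v) i) fun _ _ _ _ _ _ => taba_ext.symm

instance FD.qlt : FD fun L R v => qlt (p L R v) (q L R v) :=
  haveI := taba_renL p fun n => n + 1
  haveI := taba_renL q fun n => n + 1
  haveI := taba_renL p fun n => n + 1 + 1
  haveI := taba_renL q fun n => n + 1 + 1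
  FD.congr (P := fun L R v => (p L R v).length < (q L R v).length ∨
    ((p L R v).length = (q L R v).length ∧ ∃ i : ℕ, i < (p L R v).length ∧
      lv (p L R v) i < lv (q L R v) i ∧ ∀ k : ℕ, k < i → lv (p L R v) k = lv (q L R v) k))
    fun _ _ _ _ _ _ => Iff.rfl

end

/-- The table gives the true decomposition and `L` is nice. -/
def OkD (R : Set (List On)) (L : On) : Prop :=
  Good (Iio L) (tF R L) ∧ (∀ c < ω, tF R L c = ⟨0, 0, 0, []⟩) ∧
    ∀ c < L, ∃ l < L, ω ≤ l ∧ (tF R L l).l = l ∧ c < l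

theorem OkD.eq {R : Set (List On)} {L : On} (h : OkD R L) : ∀ c < L, tF R L c = D c := by
  intro c hc
  rcases lt_or_ge c ω with k | k
  · rw [h.2.1 c k, D_small k]
  · exact h.1.unique (isLowerSet_Iio L) c hc k

theorem OkD.nice {R : Set (List On)} {L : On} (h : OkD R L) (hL : Lim L) : Nice (Iio L) := by
  refine ⟨isLowerSet_Iio L, ⟨ω, hL.2⟩, fun c hc => ?_⟩
  obtain ⟨l, a1, a2, a3, a4⟩ := h.2.2 c hc
  rw [h.eq l a1] at a3
  exact ⟨l, a1, ⟨a2, a3⟩, a4⟩

theorem taba_good {L : On} {F : On → Loc} (h : ∀ c < L, F c = D c) : Good (Iio L) F := by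
  refine ⟨fun c hc hω => ?_, fun c hc d hd hω k => ?_, fun c hc hω l k e a1 a2 a3 a4 a5 => ?_,
    fun c hc hω d a1 a2 ξ a3 a4 => ?_⟩
  · rw [h c hc, h (D c).l ((lev_le c).trans_lt hc)]
    exact good_D.valid c trivial hω
  · rw [h c hc, h d hd]
    exact good_D.mono c trivial d trivial hω k
  · rw [h l (a2.trans_lt hc)] at a3
    rw [h c hc] at a5
    obtain ⟨d, b1, b2, b3⟩ := good_D.new c trivial hω l k e a1 a2 a3 a4 a5
    exact ⟨d, b1, b2, (h d (b2.trans hc)).trans b3⟩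
  · rw [h d (a2.trans hc)] at a3 a4 ⊢
    rw [h c hc] at a4
    obtain ⟨d', b1, b2, b3⟩ := good_D.ins c trivial hω d a1 a2 ξ a3 a4
    exact ⟨d', b1, b2, (h d' (b2.trans hc)).trans b3⟩

theorem okD_DT {L : On} (h : Nice (Iio L)) : OkD (DT L) L := by
  refine ⟨taba_good fun c hc => tF_DT h.lim hc, fun c hc => ?_, fun c hc => ?_⟩
  · rw [tF_DT h.lim (hc.trans h.omega_mem), D_small hc]
  · obtain ⟨l, a1, a2, a3⟩ := h.up c hc
    exact ⟨l, a1, a2.1, by rw [tF_DT h.lim a1]; exact a2.2, a3⟩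

/-- Definable locations. -/
class TabaLoc (x : FFam Loc) : Prop where
  l : FT fun L R v => (x L R v).l
  k : FN fun L R v => (x L R v).k
  e : FT fun L R v => (x L R v).e
  q : FL fun L R v => (x L R v).q

instance taba_locF (t : FFam On) [FT t] (j : ℕ) : TabaLoc fun L R v => tF (R j) L (t L R v) :=
  ⟨inferInstance, inferInstance, inferInstance, inferInstance⟩

instance taba_locMk (s t : FFam On) [hs : FT s] [ht : FT t] (q : FFam (List On)) [hq : FL q]
    (n : On → (ℕ → Set (List On)) → (ℕ → On) → ℕ) [hn : FN n] :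
    TabaLoc fun L R v => ⟨s L R v, n L R v, t L R v, q L R v⟩ := ⟨hs, hn, ht, hq⟩

instance taba_locEq (x y : FFam Loc) [hx : TabaLoc x] [hy : TabaLoc y] :
    FD fun L R v => x L R v = y L R v :=
  haveI := hx.l; haveI := hx.k; haveI := hx.e; haveI := hx.q
  haveI := hy.l; haveI := hy.k; haveI := hy.e; haveI := hy.q
  FD.congr (P := fun L R v => (x L R v).l = (y L R v).l ∧ (x L R v).k = (y L R v).k ∧
    (x L R v).e = (y L R v).e ∧ (x L R v).q = (y L R v).q) fun _ _ _ _ _ _ => Loc.ext_iff.symm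

instance taba_locLt (x y : FFam Loc) [hx : TabaLoc x] [hy : TabaLoc y] :
    FD fun L R v => (x L R v).lt (y L R v) := by
  have := hx.l; have := hx.k; have := hx.e; have := hx.q
  have := hy.l; have := hy.k; have := hy.e; have := hy.q
  unfold Loc.lt
  infer_instance

instance taba_locValid (x : FFam Loc) [hx : TabaLoc x] : FD fun L R v => (x L R v).Valid :=
  haveI := hx.l; haveI := hx.e; haveI := hx.q
  haveI := taba_ren (fun L R v => (x L R v).l) fun n => n + 1
  haveI := taba_renL (fun L R v => (x L R v).q) fun n => n + 1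
  FD.congr (P := fun L R v => (x L R v).e ≤ (x L R v).l ∧
    ∀ i : ℕ, i < (x L R v).q.length → lv (x L R v).q i < (x L R v).l) fun _ _ _ _ _ _ =>
      and_congr Iff.rfl taba_all.symm

theorem taba_good_iff {L : On} {F : On → Loc} : Good (Iio L) F ↔
    (∀ c, c < L → ω ≤ c → (F c).Valid ∧ ω ≤ (F c).l ∧ (F c).l ≤ c ∧
      F (F c).l = ⟨(F c).l, 0, 0, []⟩) ∧
    (∀ c, c < L → ∀ d, d < L → ω ≤ c → c < d → (F c).lt (F d)) ∧
    (∀ c, c < L → ω ≤ c → ∀ l, l < L → ∀ k : ℕ, ∀ e, e < L → ω ≤ l → l ≤ c → (F l).l = l →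
      e ≤ l → (Loc.mk l k e []).lt (F c) → ∃ d, d < c ∧ ω ≤ d ∧ F d = ⟨l, k, e, []⟩) ∧
    ∀ c, c < L → ω ≤ c → ∀ d, d < c → ω ≤ d → ∀ ξ, ξ < (F d).l →
      (Loc.mk (F d).l (F d).k (F d).e (ξ :: (F d).q)).lt (F c) →
      ∃ d', d' < c ∧ ω ≤ d' ∧ F d' = ⟨(F d).l, (F d).k, (F d).e, ξ :: (F d).q⟩ := by
  refine ⟨fun h => ⟨h.valid, h.mono, fun c hc hω l _ k e _ a1 a2 a3 a4 a5 => ?_,
    fun c hc hω d a1 a2 ξ a3 a4 => ?_⟩, fun ⟨h1, h2, h3, h4⟩ => ⟨h1, h2,
      fun c hc hω l k e a1 a2 a3 a4 a5 => ?_, fun c hc hω d a1 a2 ξ a3 a4 => ?_⟩⟩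
  · exact (h.new c hc hω l k e a1 a2 a3 a4 a5).imp fun _ b => ⟨b.2.1, b.1, b.2.2⟩
  · exact (h.ins c hc hω d a2 a1 ξ a3 a4).imp fun _ b => ⟨b.2.1, b.1, b.2.2⟩
  · exact (h3 c hc hω l (a2.trans_lt hc) k e ((a4.trans a2).trans_lt hc) a1 a2 a3 a4 a5).imp
      fun _ b => ⟨b.2.1, b.1, b.2.2⟩
  · exact (h4 c hc hω d a2 a1 ξ a3 a4).imp fun _ b => ⟨b.2.1, b.1, b.2.2⟩

theorem taba_good_fd (j : ℕ) : FD fun L R _ => Good (Iio L) (tF (R j) L) :=
  FD.congr (h := FD.and _ _ (h1 := inferInstance) (h2 := FD.and _ _ (h1 := inferInstance)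
    (h2 := FD.and _ _ (h1 := inferInstance) (h2 := inferInstance))))
    fun _ _ _ _ _ _ => taba_good_iff.symm

/-- Hint: unfold `Good`, `Loc.lt`, `Loc.Valid`, use `Loc.ext_iff`; all quantifiers are bounded by
`L` (`l ≤ c`, `e ≤ l`, `d < c`, `ξ < (F d).l`, list entries by index). -/
instance FD.okD (j : ℕ) : FD fun L R _ => OkD (R j) L := by
  have := taba_good_fd j
  unfold OkD
  infer_instance

/-- Atomic formulas for an arbitrary decomposition. -/
def AtomF (F : On → Loc) (A : Set On) (Tt : On → Prop) (t : ℕ) (x y z : On) : Prop :=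
  (t = 1 ∧ x < y) ∨ (t = 2 ∧ (F x).l = y) ∨ (t = 3 ∧ (F x).e = y) ∨
    (t = 4 ∧ ((F x).k : On) = y) ∨ (t = 5 ∧ (F z).q = y :: (F x).q) ∨
    (t = 6 ∧ tg (F x).k = 11 ∧ (F y).k = oa (F x).k) ∨ (t = 7 ∧ x ∈ A) ∨ (t = 8 ∧ Tt x) ∨
    (t = 12 ∧ lv (F x).q (F y).k = z) ∨ (t = 13 ∧ (F x).q.length = (F y).k) ∨
    (t = 14 ∧ dc (F z).k (F x).k = (F y).k)

theorem atomF_iff {F : On → Loc} {A : Set On} {Tt : On → Prop} {t : ℕ} {x y z : On}
    (hx : F x = D x) (hy : F y = D y) (hz : F z = D z) :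
    AtomF F A Tt t x y z ↔ Atom A Tt t x y z := by
  unfold AtomF Atom
  rw [hx, hy, hz]
  rfl

set_option synthInstance.maxSize 1024 in
instance FD.atomF (j : ℕ) (B : FFam (Set On)) [FS B]
    (S : On → (ℕ → Set (List On)) → (ℕ → On) → On → Prop)
    [FD fun L R v => S L R (fun n => v (n + 1)) (v 0)]
    (n : On → (ℕ → Set (List On)) → (ℕ → On) → ℕ) [FN n] (x y z : FFam On) [FT x] [FT y] [FT z] :
    FD fun L R v => AtomF (tF (R j) L) (B L R v) (S L R v) (n L R v) (x L R v) (y L R v)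
      (z L R v) := by
  have := FD.subst S x
  unfold AtomF; infer_instance

theorem tabb_cons (v : ℕ → On) : (cons (v 0) fun n => v (n + 1)) = v := by
  funext n; cases n <;> rfl

/-- Truth of a fixed formula.  Hint: induction on `k`, generalising `v` by `FD.allL`; `B` and `C`
do not depend on the assignment. -/
theorem exists_satF (j : ℕ) (B C : On → (ℕ → Set (List On)) → Set On)
    [FS fun L R _ => B L R] [FS fun L R _ => C L R] (k : ℕ) :
    ∃ G, FD G ∧ ∀ L R v, (∀ c < L, tF (R j) L c = D c) → (∀ i, v i < L) →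
      (G L R v ↔ SatN (Iio L) (B L R) (· ∈ C L R) k v) := by
  induction k using Nat.strong_induction_on with
  | _ k ih =>
    by_cases a1 : tg k = 9
    · obtain ⟨G, hG, h⟩ := ih _ (oa_lt (k := k) (by omega))
      exact ⟨fun L R v => ¬ G L R v, inferInstance, fun L R v h1 h2 =>
        (not_congr (h L R v h1 h2)).trans (macha_neg a1).symm⟩
    by_cases a2 : tg k = 10
    · obtain ⟨G, hG, h⟩ := ih _ (oa_lt (k := k) (by omega))
      obtain ⟨G', hG', h'⟩ := ih _ (ob_lt (k := k) (by omega))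
      exact ⟨fun L R v => G L R v ∧ G' L R v, inferInstance, fun L R v h1 h2 =>
        (and_congr (h L R v h1 h2) (h' L R v h1 h2)).trans (macha_and a2).symm⟩
    by_cases a3 : tg k = 11
    · obtain ⟨G, hG, h⟩ := ih _ (oa_lt (k := k) (by omega))
      have hG' : FD fun L R v => G L R (cons (v 0) fun n => v (n + 1)) :=
        FD.congr (P := G) fun L R v _ _ _ => by rw [tabb_cons]
      refine ⟨fun L R v => ∀ a, a < L → G L R (cons a v),
        FD.allL fun L R v a => G L R (cons a v), fun L R v h1 h2 => ?_⟩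
      rw [macha_all a3]
      exact forall₂_congr fun a ha => h L R _ h1 (cons_mem (Λ := Iio L) ha h2)
    refine ⟨fun L R v => AtomF (tF (R j) L) (B L R) (· ∈ C L R) (tg k) (v (oa k)) (v (ob k))
      (v (oc k)), FD.atomF j (fun L R _ => B L R) (fun L R _ a => a ∈ C L R) (fun _ _ _ => tg k)
        _ _ _, fun L R v h1 h2 => ?_⟩
    rw [macha_atom a1 a2 a3]
    exact atomF_iff (h1 _ (h2 _)) (h1 _ (h2 _)) (h1 _ (h2 _))

/-- `d` is the location of the formula `a` at the place of `c`. -/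
def Sib (F : On → Loc) (c d : On) (a : ℕ) : Prop :=
  ω ≤ d ∧ (F d).l = (F c).l ∧ (F d).e = (F c).e ∧ (F d).q = (F c).q ∧ (F d).k = a

/-- The recursion of the machine below `b`. -/
def OkT (F : On → Loc) (O P : Set On) (L b : On) : Prop :=
  ∀ c < b, (c < ω → c ∉ P) ∧ (ω ≤ c →
    (tg (F c).k = 9 → ∀ d < L, Sib F c d (oa (F c).k) → (c ∈ P ↔ d ∉ P)) ∧
    (tg (F c).k = 10 → ∀ d < L, ∀ d' < L, Sib F c d (oa (F c).k) → Sib F c d' (ob (F c).k) →
      (c ∈ P ↔ d ∈ P ∧ d' ∈ P)) ∧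
    (tg (F c).k = 11 → (c ∈ P ↔ ∀ d < L, ∀ ξ < L, ω ≤ d → (F d).l = (F c).l →
      (F d).e = (F c).e → (F d).k = oa (F c).k → (F d).q = ξ :: (F c).q → d ∈ P)) ∧
    (tg (F c).k ≠ 9 → tg (F c).k ≠ 10 → tg (F c).k ≠ 11 → (c ∈ P ↔
      AtomF F (O ∩ Iio (F c).e) (fun d => ∃ d' < L, ω ≤ d ∧ ω ≤ d' ∧ (F d').l = (F d).l ∧
        (F d').e = min (F d).e (F c).e ∧ (F d').q = (F d).q ∧ (F d').k = (F d).k ∧ d' ∈ P)
        (tg (F c).k) (lv (F c).q (oa (F c).k)) (lv (F c).q (ob (F c).k))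
        (lv (F c).q (oc (F c).k)))))

/-- The clause of `OkT` at one point. -/
def tabb_cl (F : On → Loc) (O P : Set On) (L c : On) : Prop :=
  (c < ω → c ∉ P) ∧ (ω ≤ c →
    (tg (F c).k = 9 → ∀ d < L, Sib F c d (oa (F c).k) → (c ∈ P ↔ d ∉ P)) ∧
    (tg (F c).k = 10 → ∀ d < L, ∀ d' < L, Sib F c d (oa (F c).k) → Sib F c d' (ob (F c).k) →
      (c ∈ P ↔ d ∈ P ∧ d' ∈ P)) ∧
    (tg (F c).k = 11 → (c ∈ P ↔ ∀ d < L, ∀ ξ < L, ω ≤ d → (F d).l = (F c).l →
      (F d).e = (F c).e → (F d).k = oa (F c).k → (F d).q = ξ :: (F c).q → d ∈ P)) ∧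
    (tg (F c).k ≠ 9 → tg (F c).k ≠ 10 → tg (F c).k ≠ 11 → (c ∈ P ↔
      AtomF F (O ∩ Iio (F c).e) (fun d => ∃ d' < L, ω ≤ d ∧ ω ≤ d' ∧ (F d').l = (F d).l ∧
        (F d').e = min (F d).e (F c).e ∧ (F d').q = (F d).q ∧ (F d').k = (F d).k ∧ d' ∈ P)
        (tg (F c).k) (lv (F c).q (oa (F c).k)) (lv (F c).q (ob (F c).k))
        (lv (F c).q (oc (F c).k)))))

theorem tabb_sib {F : On → Loc} {L c d : On} {a : ℕ} (hF : ∀ c < L, F c = D c) (hc : c < L)
    (hω : ω ≤ c) (hd : d < L) : Sib F c d a ↔ d = rfm c a := by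
  rw [Sib, hF c hc, hF d hd, rfm,
    eq_code_iff (x := ⟨lev c, a, cut c, par c⟩) (isLev_lev hω) (valid_D c)]
  exact and_congr_right fun _ => ⟨fun h => Loc.ext h.1 h.2.2.2 h.2.1 h.2.2.1,
    fun h => by rw [h]; exact ⟨rfl, rfl, rfl, rfl⟩⟩

theorem tabb_step {F : On → Loc} {O P : Set On} {L c : On} (hL : Nice (Iio L))
    (hF : ∀ c < L, F c = D c) (hc : c < L) (ih : ∀ d < c, d ∈ P ↔ T O d) :
    tabb_cl F O P L c ↔ (c ∈ P ↔ T O c) := by
  rcases lt_or_ge c ω with hω | hω
  · exact ⟨fun h => iff_of_false (h.1 hω) (not_T_small hω),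
      fun h => ⟨fun _ hP => not_T_small hω (h.1 hP), fun h' => absurd hω (not_lt.2 h')⟩⟩
  have hl : lev c < L := (lev_le c).trans_lt hc
  have hr : ∀ a, rfm c a < L := fun a => hL.code_mem (x := ⟨lev c, a, cut c, par c⟩) hl
  have hk : (F c).k = fml c := by rw [hF c hc]; rfl
  have hs : ∀ a, Sib F c (rfm c a) a := fun a => (tabb_sib hF hc hω (hr a)).2 rfl
  rw [tabb_cl, hk, and_iff_right fun h => absurd hω (not_le.2 h), forall_prop_of_true hω]
  by_cases h1 : tg (fml c) = 9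
  · rw [T_neg h1, ← ih _ (rfm_lt (oa_lt (by omega)))]
    refine ⟨fun h => h.1 h1 _ (hr _) (hs _), fun h => ⟨fun _ d hd hS => ?_,
      fun h' => by omega, fun h' => by omega, fun h' => absurd h1 h'⟩⟩
    rw [(tabb_sib hF hc hω hd).1 hS]
    exact h
  by_cases h2 : tg (fml c) = 10
  · rw [T_and h2, ← ih _ (rfm_lt (oa_lt (by omega))), ← ih _ (rfm_lt (ob_lt (by omega)))]
    refine ⟨fun h => h.2.1 h2 _ (hr _) _ (hr _) (hs _) (hs _), fun h => ⟨fun h' => absurd h' h1,
      fun _ d hd d' hd' hS hS' => ?_, fun h' => by omega, fun _ h' => absurd h2 h'⟩⟩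
    rw [(tabb_sib hF hc hω hd).1 hS, (tabb_sib hF hc hω hd').1 hS']
    exact h
  by_cases h3 : tg (fml c) = 11
  · have e : (∀ d < L, ∀ ξ < L, ω ≤ d → (F d).l = (F c).l → (F d).e = (F c).e →
        (F d).k = oa (fml c) → (F d).q = ξ :: (F c).q → d ∈ P) ↔ T O c := by
      rw [T_all h3, hF c hc]
      constructor
      · intro h ξ hξ
        have hv : (Loc.mk (lev c) (oa (fml c)) (cut c) (ξ :: par c)).Valid :=
          machb_valid (valid_D c) hξ
        have hi : inst c ξ < L := (inst_lt ξ (by omega)).trans hc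
        have hD : F (inst c ξ) = ⟨lev c, oa (fml c), cut c, ξ :: par c⟩ :=
          (hF _ hi).trans (D_code (isLev_lev hω) hv)
        refine (ih _ (inst_lt ξ (by omega))).1 (h _ hi ξ (hξ.trans hl)
          (omega_le_code (isLev_lev hω) hv) ?_ ?_ ?_ ?_) <;> rw [hD] <;> rfl
      · intro h d hd ξ _ a1 a2 a3 a4 a5
        rw [hF d hd] at a2 a3 a4 a5
        have hD : D d = ⟨lev c, oa (fml c), cut c, ξ :: par c⟩ := Loc.ext a2 a4 a3 a5
        have hξ : ξ < lev c := by
          have := valid_D d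
          rw [hD] at this
          exact this.2 ξ List.mem_cons_self
        have hd' : d = inst c ξ := by rw [inst, ← hD, code_D a1]
        rw [hd']
        exact (ih _ (inst_lt ξ (by omega))).2 (h ξ hξ)
    rw [e]
    exact ⟨fun h => h.2.2.1 h3, fun h => ⟨fun h' => absurd h' h1, fun h' => absurd h' h2,
      fun _ => h, fun _ _ h' => absurd h3 h'⟩⟩
  have hp : ∀ i, lv (par c) i < c := lv_mem (Λ := Iio c) (omega0_pos.trans_le hω) fun a => par_lt
  have e : AtomF F (O ∩ Iio (F c).e) (fun d => ∃ d' < L, ω ≤ d ∧ ω ≤ d' ∧ (F d').l = (F d).l ∧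
      (F d').e = min (F d).e (F c).e ∧ (F d').q = (F d).q ∧ (F d').k = (F d).k ∧ d' ∈ P)
      (tg (fml c)) (lv (F c).q (oa (fml c))) (lv (F c).q (ob (fml c)))
      (lv (F c).q (oc (fml c))) ↔ T O c := by
    rw [hF c hc, T_atom h1 h2 h3]
    refine (atomF_iff (hF _ ((hp _).trans hc)) (hF _ ((hp _).trans hc))
      (hF _ ((hp _).trans hc))).trans (machb_atom fun _ => ?_)
    have hx : lv (par c) (oa (fml c)) < c := hp _
    change (∃ d' < L, ω ≤ lv (par c) (oa (fml c)) ∧ _) ↔ _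
    generalize lv (par c) (oa (fml c)) = x at hx ⊢
    have hle : rct x (min (cut x) (cut c)) ≤ x := rct_le (min_le_left _ _)
    rcases lt_or_ge x ω with hx' | hx'
    · exact iff_of_false (fun ⟨_, _, h, _⟩ => absurd hx' (not_lt.2 h))
        (not_T_small (hle.trans_lt hx'))
    have hv : (Loc.mk (lev x) (fml x) (min (cut x) (cut c)) (par x)).Valid :=
      ⟨(min_le_left _ _).trans (cut_le_lev x), fun _ => par_lt_lev⟩
    rw [← ih _ (hle.trans_lt hx), hF x (hx.trans hc)]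
    constructor
    · rintro ⟨d, hd, -, a1, a2, a3, a4, a5, a6⟩
      rw [hF d hd] at a2 a3 a4 a5
      have hD : D d = ⟨lev x, fml x, min (cut x) (cut c), par x⟩ := Loc.ext a2 a5 a3 a4
      rwa [rct, ← hD, code_D a1]
    · intro h
      have hi : rct x (min (cut x) (cut c)) < L := hle.trans_lt (hx.trans hc)
      have hD : F (rct x (min (cut x) (cut c))) = ⟨lev x, fml x, min (cut x) (cut c), par x⟩ :=
        (hF _ hi).trans (D_code (isLev_lev hx') hv)
      refine ⟨_, hi, hx', omega_le_code (isLev_lev hx') hv, ?_, ?_, ?_, ?_, h⟩ <;> rw [hD] <;> rfl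
  rw [e]
  exact ⟨fun h => h.2.2.2 h1 h2 h3, fun h => ⟨fun h' => absurd h' h1, fun h' => absurd h' h2,
    fun h' => absurd h' h3, fun _ _ _ => h⟩⟩

/-- Hint: `isT_iff` or `T_unique`; the siblings are `rfm`, `inst`, `rct` and lie below `c`. -/
theorem okT_iff {F : On → Loc} {O P : Set On} {L b : On} (hL : Nice (Iio L))
    (hF : ∀ c < L, F c = D c) (hb : b ≤ L) : OkT F O P L b ↔ ∀ c < b, c ∈ P ↔ T O c := by
  refine ⟨fun h c => ?_, fun h c hc => (tabb_step hL hF (hc.trans_le hb)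
    fun d hd => h d (hd.trans hc)).2 (h c hc)⟩
  induction c using WellFoundedLT.induction with
  | ind c ih =>
    exact fun hc => (tabb_step hL hF (hc.trans_le hb) fun d hd => ih d hd (hd.trans hc)).1 (h c hc)

set_option synthInstance.maxSize 2048 in
theorem tabb_fd (j : ℕ) (B C : FFam (Set On)) [FS B] [FS C] :
    FD fun L R v => tabb_cl (tF (R j) L) (B L R fun n => v (n + 1)) (C L R fun n => v (n + 1)) L
      (v 0) := by
  have b1 := FS.shift B
  have c1 := FS.shift C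
  have c2 := FS.shift fun L R v => C L R fun n => v (n + 1)
  have c3 := FS.shift fun L R v => C L R fun n => v (n + 1 + 1)
  unfold tabb_cl Sib
  infer_instance

instance FD.okT (j : ℕ) (B C : FFam (Set On)) [FS B] [FS C] (t : FFam On) [FT t] :
    FD fun L R v => OkT (tF (R j) L) (B L R v) (C L R v) L (t L R v) := by
  have := tabb_fd j B C
  exact FD.allLt t fun L R v c => tabb_cl (tF (R j) L) (B L R v) (C L R v) L c

theorem FD.okT_top (j : ℕ) (B C : FFam (Set On)) [FS B] [FS C] :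
    FD fun L R v => OkT (tF (R j) L) (B L R v) (C L R v) L L := by
  have := tabb_fd j B C
  exact FD.allL fun L R v c => tabb_cl (tF (R j) L) (B L R v) (C L R v) L c

/-- The join of four sets. -/
def jn4 (X Y B C : Set On) : Set On :=
  {c | (p1 c = 0 ∧ p2 c ∈ X) ∨ (p1 c = 1 ∧ p2 c ∈ Y) ∨ (p1 c = 2 ∧ p2 c ∈ B) ∨
    (p1 c = 3 ∧ p2 c ∈ C)}

section
variable {X Y B C X' Y' B' C' : Set On}

@[simp] theorem sec_jn4_0 : sec (jn4 X Y B C) 0 = X := by
  ext x
  simp [sec, jn4]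

@[simp] theorem sec_jn4_1 : sec (jn4 X Y B C) 1 = Y := by
  ext x
  simp [sec, jn4]

@[simp] theorem sec_jn4_2 : sec (jn4 X Y B C) 2 = B := by
  ext x
  simp [sec, jn4]

@[simp] theorem sec_jn4_3 : sec (jn4 X Y B C) 3 = C := by
  ext x
  simp [sec, jn4]

theorem jn4_congr {L : On} (h0 : ∀ x < L, x ∈ X ↔ x ∈ X') (h1 : ∀ x < L, x ∈ Y ↔ x ∈ Y')
    (h2 : ∀ x < L, x ∈ B ↔ x ∈ B') (h3 : ∀ x < L, x ∈ C ↔ x ∈ C') :
    ∀ x < L, x ∈ jn4 X Y B C ↔ x ∈ jn4 X' Y' B' C' := by
  intro x hx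
  have h : p2 x < L := (p2_le x).trans_lt hx
  exact or_congr (and_congr_right fun _ => h0 _ h) (or_congr (and_congr_right fun _ => h1 _ h)
    (or_congr (and_congr_right fun _ => h2 _ h) (and_congr_right fun _ => h3 _ h)))

end

/-- The oracle that is given by the relations `3` to `6`. -/
def orR (R : ℕ → Set (List On)) : Set On := jn4 (d1 (R 3)) (d1 (R 4)) (d1 (R 5)) (d1 (R 6))

/-- The oracle, read off with the table of the decomposition. -/
def tabb_or (L : On) (R : ℕ → Set (List On)) : Set On :=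
  {c | (lv (tF (R 1) L c).q 0 = 0 ∧ lv (tF (R 1) L c).q 1 ∈ d1 (R 3)) ∨
    (lv (tF (R 1) L c).q 0 = 1 ∧ lv (tF (R 1) L c).q 1 ∈ d1 (R 4)) ∨
    (lv (tF (R 1) L c).q 0 = 2 ∧ lv (tF (R 1) L c).q 1 ∈ d1 (R 5)) ∨
    (lv (tF (R 1) L c).q 0 = 3 ∧ lv (tF (R 1) L c).q 1 ∈ d1 (R 6))}

set_option synthInstance.maxSize 1024 in
theorem tabb_fs : FS fun L R _ => tabb_or L R := by
  unfold tabb_or
  infer_instance

theorem tabb_mem {L : On} {R : ℕ → Set (List On)} (hF : ∀ c < L, tF (R 1) L c = D c) :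
    ∀ x < L, x ∈ tabb_or L R ↔ x ∈ orR R := by
  intro x hx
  rw [tabb_or, mem_ofPred_eq, hF x hx]
  rfl

theorem tabb_T {L c : On} {R : ℕ → Set (List On)} (hF : ∀ c < L, tF (R 1) L c = D c)
    (hc : c < L) : T (tabb_or L R) c ↔ T (orR R) c :=
  T_congr fun x hx => tabb_mem hF x ((hx.trans_le (cut_le c)).trans hc)

/-- Correctness of an initial part of the table of the machine.  Hint: `OkT` for the oracle
`jn4` written with `lv (tF (R 1) L c).q 0` and `lv (tF (R 1) L c).q 1` for `p1 c`, `p2 c`. -/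
theorem exists_okT : ∃ G, FD G ∧ ∀ L R v, Nice (Iio L) → R 1 = DT L → v 0 < L →
    (G L R v ↔ ∀ c < v 0, c ∈ d1 (R 2) ↔ T (orR R) c) := by
  have := tabb_fs
  refine ⟨fun L R v => OkT (tF (R 1) L) (tabb_or L R) (d1 (R 2)) L (v 0),
    FD.okT 1 (fun L R _ => tabb_or L R) (fun _ R _ => d1 (R 2)) fun _ _ v => v 0,
    fun L R v hL h1 hv => ?_⟩
  have hF : ∀ c < L, tF (R 1) L c = D c := fun c hc => by rw [h1, tF_DT hL.lim hc]
  exact (okT_iff hL hF hv.le).trans
    (forall₂_congr fun c hc => by rw [tabb_T hF (hc.trans hv)])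

/-- A definable predicate of the machine is checked with tables. -/
theorem exists_tab (P : Set On → Set On → (ℕ → On) → Prop) [MD P] : ∃ G, FD G ∧
    (∀ L R v, Lim L → (∀ i, v i < L) → G L R v → Nice (Iio L) ∧ P (orR R) (Iio L) v) ∧
    ∀ L R v, Nice (Iio L) → (∀ i, v i < L) → R 1 = DT L →
      (∀ c < L, c ∈ d1 (R 2) ↔ T (orR R) c) → P (orR R) (Iio L) v → G L R v := by
  obtain ⟨k, hk⟩ := MD.ex (P := P)
  have := tabb_fs
  obtain ⟨G, hG, h⟩ := exists_satF 1 tabb_or (fun _ R => d1 (R 2)) k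
  have := FD.okT_top 1 (fun L R _ => tabb_or L R) fun _ R _ => d1 (R 2)
  have key : ∀ L R v, Nice (Iio L) → (∀ i, v i < L) → (∀ c < L, tF (R 1) L c = D c) →
      (∀ c < L, c ∈ d1 (R 2) ↔ T (orR R) c) → (G L R v ↔ P (orR R) (Iio L) v) := by
    intro L R v hL hv hF hT
    rw [h L R v hF hv, ← hk _ _ _ hL hv]
    exact satN_congr hv (tabb_mem hF) hT
  refine ⟨fun L R v => OkD (R 1) L ∧ OkT (tF (R 1) L) (tabb_or L R) (d1 (R 2)) L L ∧ G L R v,
    inferInstance, fun L R v hL hv ⟨h1, h2, h3⟩ => ?_, fun L R v hL hv h1 hT hP => ?_⟩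
  · have hN := h1.nice hL
    refine ⟨hN, (key L R v hN hv h1.eq fun c hc => ?_).1 h3⟩
    rw [(okT_iff hN h1.eq le_rfl).1 h2 c hc, tabb_T h1.eq hc]
  · have hF : ∀ c < L, tF (R 1) L c = D c := fun c hc => by rw [h1, tF_DT hL.lim hc]
    refine ⟨h1 ▸ okD_DT hL, (okT_iff hL hF le_rfl).2 fun c hc => ?_, (key L R v hL hv hF hT).2 hP⟩
    rw [hT c hc, tabb_T hF hc]

end Pool.Agent.MP_fd3eaf_lc

end
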