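import Pool.Agent.MP_fd3eaf_lc.Mg.Master
import Pool.Agent.MP_fd3eaf_lc.Mg.Pres
import Pool.Agent.MP_fd3eaf_lc.Mg.Tab

-- part MP_fd3eaf_lc.Stretch
section

/-!
Stretching indiscernibles along a new index set.
-/

set_option autoImplicit false

namespace Pool.Agent.MP_fd3eaf_lc

open Set Ordinal

/-- A token: a formula, indices of indiscernibles and parameters. -/
structure STok where
  k : ℕ
  js : List On
  q : List On

def STok.Ok (J : Set On) (δ : On) (s : STok) : Prop := (∀ j ∈ s.js, j ∈ J) ∧ ∀ a ∈ s.q, a < δ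

noncomputable def STok.val (A Λ : Set On) (ρ : On → On) (s : STok) : On :=
  lw A Λ s.k (s.js.map ρ ++ s.q)

/-- `ρ` realises the indices `js` by elements of `I` above `q`. -/
def Real (I : Set On) (js q : List On) (ρ : On → On) : Prop :=
  StrictMonoOn ρ {j | j ∈ js} ∧ ∀ j ∈ js, ρ j ∈ I ∧ ∀ a ∈ q, a < ρ j

def SLt (A Λ I J : Set On) (δ : On) (s t : STok) : Prop :=
  s.Ok J δ ∧ t.Ok J δ ∧ ∃ ρ, Real I (s.js ++ t.js) (s.q ++ t.q) ρ ∧ s.val A Λ ρ < t.val A Λ ρ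

theorem Ind.exists_real {A Λ I : Set On} (h : Ind A Λ I) (js q : List On) (hq : ∀ a ∈ q, a ∈ Λ) :
    ∃ ρ, Real I js q ρ := by
  classical
  obtain ⟨ι, hι⟩ := h.exists_inc hq
  refine ⟨fun j => ι (js.toFinset.filter (· < j)).card, fun a ha b _ hab => hι.mono ?_,
    fun j _ => ⟨hι.mem _, fun a m => (hι.lt a m).trans_le (hι.mono.monotone (Nat.zero_le _))⟩⟩
  refine Finset.card_lt_card ((Finset.ssubset_iff_of_subset fun x hx => ?_).2 ⟨a, ?_, ?_⟩)
  · exact Finset.mem_filter.2 ⟨(Finset.mem_filter.1 hx).1, (Finset.mem_filter.1 hx).2.trans hab⟩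
  · exact Finset.mem_filter.2 ⟨List.mem_toFinset.2 ha, hab⟩
  · exact fun k => lt_irrefl a (Finset.mem_filter.1 k).2

theorem stretcha_mono {I : Set On} {js q js' q' : List On} {ρ : On → On} (h : Real I js q ρ)
    (h1 : js' ⊆ js) (h2 : q' ⊆ q) : Real I js' q' ρ :=
  ⟨h.1.mono fun _ m => h1 m, fun j m => ⟨(h.2 j (h1 m)).1, fun a k => (h.2 j (h1 m)).2 a (h2 k)⟩⟩

theorem stretcha_at {q : List On} {a : On} (h : a ∈ q) : ∃ n < q.length, lv q n = a := by
  obtain ⟨n, hn, rfl⟩ := List.getElem_of_mem h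
  exact ⟨n, hn, by simp [lv, hn]⟩

theorem stretcha_sub {p r : List On} (h : r ⊆ p) : ∃ g : ℕ → ℕ, ∀ i, lv p (g i) = lv r i := by
  induction r with
  | nil => exact ⟨fun _ => p.length, fun i => by simp [lv]⟩
  | cons a r ih =>
    obtain ⟨g, hg⟩ := ih fun _ m => h (List.mem_cons_of_mem _ m)
    obtain ⟨n, -, hn⟩ := stretcha_at (h List.mem_cons_self)
    exact ⟨fun i => Nat.casesOn i n g, fun i => Nat.casesOn i hn hg⟩

theorem stretcha_pos {js q js' q' : List On} (h1 : js' ⊆ js) (h2 : q' ⊆ q) :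
    ∃ g : ℕ → ℕ, ∀ (ρ : On → On) (i : ℕ), lv (js.map ρ ++ q) (g i) = lv (js'.map ρ ++ q') i := by
  induction js' with
  | nil =>
    obtain ⟨g, hg⟩ := stretcha_sub h2
    refine ⟨fun i => g i + js.length, fun ρ i => ?_⟩
    have e := elemc_right (js.map ρ) q (g i)
    rw [List.length_map] at e
    exact e.trans (hg i)
  | cons a r ih =>
    obtain ⟨g, hg⟩ := ih fun _ m => h1 (List.mem_cons_of_mem _ m)
    obtain ⟨n, hn, rfl⟩ := List.getElem_of_mem (h1 List.mem_cons_self)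
    refine ⟨fun i => Nat.casesOn i n g, fun ρ i => Nat.casesOn i ?_ (hg ρ)⟩
    simp [lv, List.getElem?_append_left, hn]

theorem stretcha_term {s : STok} {js q : List On} (h1 : s.js ⊆ js) (h2 : s.q ⊆ q) :
    ∃ t : Fam On, MT t ∧ ∀ A Λ ρ, t A Λ (lv (js.map ρ ++ q)) = s.val A Λ ρ := by
  obtain ⟨g, hg⟩ := stretcha_pos h1 h2
  refine ⟨_, MT.shift (elemcLw s.k) (h := elemc_mt s.k) g, fun A Λ ρ => ?_⟩
  rw [STok.val, elemc_lw]
  exact congrArg _ (funext (hg ρ))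

theorem stretcha_terms {u : List STok} {js q : List On} (h : ∀ s ∈ u, s.js ⊆ js ∧ s.q ⊆ q) :
    ∃ t : ℕ → Fam On, (∀ i, MT (t i)) ∧ ∀ A Λ ρ i,
      t i A Λ (lv (js.map ρ ++ q)) = lv (u.map fun s => s.val A Λ ρ) i := by
  induction u with
  | nil => exact ⟨fun _ _ _ _ => 0, fun _ => MT.zero, fun _ _ _ i => (lv_nil i).symm⟩
  | cons s u ih =>
    obtain ⟨t, h1, h2⟩ := ih fun a m => h a (List.mem_cons_of_mem _ m)
    obtain ⟨t0, h3, h4⟩ := stretcha_term (h s List.mem_cons_self).1 (h s List.mem_cons_self).2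
    exact ⟨fun i => Nat.casesOn i t0 t, fun i => Nat.casesOn i h3 h1,
      fun A Λ ρ i => Nat.casesOn i (h4 A Λ ρ) (h2 A Λ ρ)⟩

theorem stretcha_mem {A Λ I : Set On} (h : Ind A Λ I) {js q : List On} {ρ : On → On}
    (hq : ∀ a ∈ q, a ∈ Λ) (h1 : Real I js q ρ) : ∀ a ∈ js.map ρ ++ q, a ∈ Λ := by
  intro a m
  rcases List.mem_append.1 m with m | m
  · obtain ⟨j, hj, rfl⟩ := List.mem_map.1 m
    exact h.sub (h1.2 j hj).1
  · exact hq a m

theorem stretcha_md {A Λ I : Set On} (h : Ind A Λ I) (P : Set On → Set On → (ℕ → On) → Prop)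
    [MD P] {js q : List On} {ρ ρ' : On → On} (hq : ∀ a ∈ q, a ∈ Λ) (h1 : Real I js q ρ)
    (h2 : Real I js q ρ') : P A Λ (lv (js.map ρ ++ q)) ↔ P A Λ (lv (js.map ρ' ++ q)) := by
  obtain ⟨k, hk⟩ := MD.ex (P := P)
  rw [← hk A Λ _ h.nice (lv_mem h.nice.zero_mem (stretcha_mem h hq h1)),
    ← hk A Λ _ h.nice (lv_mem h.nice.zero_mem (stretcha_mem h hq h2))]
  exact h.any k js q ρ ρ' h1.1 h2.1 h1.2 h2.2 hq

/-- A formula about values of tokens does not depend on the realisation. -/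
theorem stretcha_sat {A Λ I : Set On} (h : Ind A Λ I) (k : ℕ) {u : List STok} {js q : List On}
    {ρ ρ' : On → On} (hu : ∀ s ∈ u, s.js ⊆ js ∧ s.q ⊆ q) (hq : ∀ a ∈ q, a ∈ Λ)
    (h1 : Real I js q ρ) (h2 : Real I js q ρ') :
    Sat A Λ k (lv (u.map fun s => s.val A Λ ρ)) ↔ Sat A Λ k (lv (u.map fun s => s.val A Λ ρ')) := by
  obtain ⟨t, ht, e⟩ := stretcha_terms hu
  have := MD.satL k (fun A _ _ => A) t ht
  rw [← funext (e A Λ ρ), ← funext (e A Λ ρ')]
  exact stretcha_md h (fun A Λ v => Sat A Λ k fun i => t i A Λ v) hq h1 h2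

/-- The values of two tokens compare in the same way under all realisations. -/
theorem Ind.val_lt {A Λ I : Set On} (h : Ind A Λ I) {s t : STok} {ρ ρ' : On → On}
    (hq : ∀ a ∈ s.q ++ t.q, a ∈ Λ) (h1 : Real I (s.js ++ t.js) (s.q ++ t.q) ρ)
    (h2 : Real I (s.js ++ t.js) (s.q ++ t.q) ρ') :
    s.val A Λ ρ < t.val A Λ ρ ↔ s.val A Λ ρ' < t.val A Λ ρ' := by
  obtain ⟨a, a1, a2⟩ := stretcha_term (s := s) (List.subset_append_left s.js t.js)
    (List.subset_append_left s.q t.q)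
  obtain ⟨b, b1, b2⟩ := stretcha_term (s := t) (List.subset_append_right s.js t.js)
    (List.subset_append_right s.q t.q)
  have := MD.lt a b
  rw [← a2, ← a2, ← b2, ← b2]
  exact stretcha_md h (fun A Λ v => a A Λ v < b A Λ v) hq h1 h2

/-- The system of a stretch: stages are pairs of lists (indices, parameters). -/
noncomputable def strSys (A Λ I J : Set On) (δ : On) :
    Sys {p : List On × List On // (∀ j ∈ p.1, j ∈ J) ∧ ∀ a ∈ p.2, a < δ} STok where
  le p p' := p.1.1 ⊆ p'.1.1 ∧ p.1.2 ⊆ p'.1.2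
  Dom p := {s | s.js ⊆ p.1.1 ∧ s.q ⊆ p.1.2}
  e p s := s.val A Λ (Classical.epsilon (Real I p.1.1 p.1.2))
  A _ := A
  L _ := Λ

section
variable {A Λ I J : Set On} {δ : On}

theorem strSys_dir : (strSys A Λ I J δ).Dir := by
  refine ⟨⟨⟨([], []), by simp, by simp⟩⟩, fun i j => ⟨⟨(i.1.1 ++ j.1.1, i.1.2 ++ j.1.2),
    fun a m => (List.mem_append.1 m).elim (i.2.1 a) (j.2.1 a),
    fun a m => (List.mem_append.1 m).elim (i.2.2 a) (j.2.2 a)⟩,
    ⟨List.subset_append_left _ _, List.subset_append_left _ _⟩,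
    List.subset_append_right _ _, List.subset_append_right _ _⟩,
    fun i j hij s hs => ⟨List.Subset.trans hs.1 hij.1, List.Subset.trans hs.2 hij.2⟩⟩

theorem stretcha_eps (h : Ind A Λ I) (hδ : Iio δ ⊆ Λ) (js : List On) {q : List On}
    (hq : ∀ a ∈ q, a < δ) : Real I js q (Classical.epsilon (Real I js q)) :=
  Classical.epsilon_spec (h.exists_real js q fun a m => hδ (hq a m))

/-- Hint: a formula about least solutions is a formula about their parameters; use `Ind.any`. -/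
theorem strSys_cohE (h : Ind A Λ I) (hδ : Iio δ ⊆ Λ) : (strSys A Λ I J δ).CohE := by
  intro i j hij k u hu
  exact stretcha_sat h k hu (fun a m => hδ (i.2.2 a m)) (stretcha_eps h hδ i.1.1 i.2.2)
    (stretcha_mono (stretcha_eps h hδ j.1.1 j.2.2) hij.1 hij.2)

/-- Hint: the image is a definable closure. -/
theorem strSys_clE (h : Ind A Λ I) (hδ : Iio δ ⊆ Λ) : (strSys A Λ I J δ).ClE := by
  intro i
  have h1 := stretcha_mem h (fun a m => hδ (i.2.2 a m)) (stretcha_eps h hδ i.1.1 i.2.2)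
  have e : (strSys A Λ I J δ).e i '' (strSys A Λ I J δ).Dom i = Dcl A Λ
      {a | a ∈ i.1.1.map (Classical.epsilon (Real I i.1.1 i.1.2)) ++ i.1.2} := by
    refine Set.ext fun x => ⟨?_, ?_⟩
    · rintro ⟨s, hs, rfl⟩
      exact ⟨s.k, _, fun a m => List.append_subset.2
        ⟨List.subset_append_of_subset_left _ (List.map_subset _ hs.1),
          List.subset_append_of_subset_right _ hs.2⟩ m, rfl⟩
    · rintro ⟨k, r, hr, rfl⟩
      obtain ⟨g, hg⟩ := stretcha_sub (r := r) hr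
      have := MT.shift (elemcLw k) (h := elemc_mt k) g
      obtain ⟨k', hk⟩ := MT.exists_lw fun A Λ v => elemcLw k A Λ fun n => v (g n)
      refine ⟨⟨k', i.1.1, i.1.2⟩, ⟨List.Subset.refl _, List.Subset.refl _⟩,
        (hk A Λ _ h.nice h1).trans ?_⟩
      rw [elemc_lw]
      exact congrArg _ (funext hg)
  refine ⟨h.nice, ?_⟩
  rw [e]
  exact dcl_tv h.nice h1

theorem strSys_lt (h : Ind A Λ I) (hδ : Iio δ ⊆ Λ) {s t : STok} :
    (strSys A Λ I J δ).Lt s t ↔ SLt A Λ I J δ s t := by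
  constructor
  · rintro ⟨i, hs, ht, hl⟩
    exact ⟨⟨fun j m => i.2.1 j (hs.1 m), fun a m => i.2.2 a (hs.2 m)⟩,
      ⟨fun j m => i.2.1 j (ht.1 m), fun a m => i.2.2 a (ht.2 m)⟩, _,
      stretcha_mono (stretcha_eps h hδ i.1.1 i.2.2) (List.append_subset.2 ⟨hs.1, ht.1⟩)
        (List.append_subset.2 ⟨hs.2, ht.2⟩), hl⟩
  · rintro ⟨hs, ht, ρ, h1, hl⟩
    have hq : ∀ a ∈ s.q ++ t.q, a < δ := fun a m =>
      (List.mem_append.1 m).elim (hs.2 a) (ht.2 a)
    exact ⟨⟨(s.js ++ t.js, s.q ++ t.q), fun a m => (List.mem_append.1 m).elim (hs.1 a) (ht.1 a),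
      hq⟩, ⟨List.subset_append_left _ _, List.subset_append_left _ _⟩,
      ⟨List.subset_append_right _ _, List.subset_append_right _ _⟩,
      (h.val_lt (fun a m => hδ (hq a m)) h1 (stretcha_eps h hδ _ hq)).1 hl⟩

theorem strb_lv_left (ρ : On → On) (js q : List On) {i : ℕ} (h : i < js.length) :
    lv (js.map ρ ++ q) i = ρ js[i] := by
  simp [lv, List.getD_eq_getElem?_getD, List.getElem?_append_left, h]

theorem strb_lv_right (ρ : On → On) (js q : List On) (i : ℕ) :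
    lv (js.map ρ ++ q) (i + js.length) = lv q i := by
  have := elemc_right (js.map ρ) q i
  rwa [List.length_map] at this

/-- Indices from `j` on may be realised anew above the other data. -/
theorem strb_swap (h : Ind A Λ I) (k : ℕ) (js q : List On) {x j γ : On} {ρ ρ' : On → On}
    (h1 : StrictMonoOn ρ {i | i ∈ js.map (max · j)}) (h2 : StrictMonoOn ρ' {i | i ∈ js.map (max · j)})
    (h3 : ∀ i ∈ js.map (max · j), ρ i ∈ I ∧ γ ≤ ρ i) (h4 : ∀ i ∈ js.map (max · j), ρ' i ∈ I ∧ γ ≤ ρ' i)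
    (h5 : ∀ i ∈ js, i < j → ρ i = ρ' i ∧ ρ i < γ) (hq : ∀ a ∈ q, a < γ) (hx : x < γ) (hγ : γ ∈ Λ) :
    Sat A Λ k (lv (x :: (js.map ρ ++ q))) ↔ Sat A Λ k (lv (x :: (js.map ρ' ++ q))) := by
  obtain ⟨k', hk⟩ := exists_ren k fun n => Nat.casesOn n js.length fun i =>
    if ∃ hi : i < js.length, j ≤ js[i] then i else i + 1 + js.length
  have key : ∀ τ : On → On, (∀ i ∈ js, i < j → ρ i = τ i) →
      (Sat A Λ k' (lv ((js.map (max · j)).map τ ++
        x :: (js.map (fun i => if i < j then ρ i else x) ++ q))) ↔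
      Sat A Λ k (lv (x :: (js.map τ ++ q)))) := by
    intro τ hτ
    rw [hk, List.map_map]
    refine Iff.of_eq (congrArg _ (funext fun n => ?_))
    rcases n with _ | i
    · exact (zero_add js.length ▸ strb_lv_right _ js _ 0 :)
    · simp only [Function.comp_apply, lv_succ]
      split_ifs with hi
      · obtain ⟨hi, hj⟩ := hi
        rw [strb_lv_left _ _ _ hi, strb_lv_left _ _ _ hi, Function.comp_apply, max_eq_left hj]
      · rw [strb_lv_right, lv_succ]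
        rcases lt_or_ge i js.length with hl | hl
        · have hj : js[i] < j := not_le.1 fun hj => hi ⟨hl, hj⟩
          rw [strb_lv_left _ _ _ hl, strb_lv_left _ _ _ hl, if_pos hj,
            hτ _ (List.getElem_mem hl) hj]
        · obtain ⟨m, rfl⟩ := Nat.exists_eq_add_of_le' hl
          rw [strb_lv_right, strb_lv_right]
  have hP : ∀ a ∈ x :: (js.map (fun i => if i < j then ρ i else x) ++ q), a < γ := by
    intro a ha
    rcases List.mem_cons.1 ha with rfl | ha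
    · exact hx
    rcases List.mem_append.1 ha with ha | ha
    · obtain ⟨i, hi, rfl⟩ := List.mem_map.1 ha
      split_ifs with hj
      exacts [(h5 i hi hj).2, hx]
    · exact hq a ha
  rw [← key ρ fun _ _ _ => rfl, ← key ρ' fun i hi hj => (h5 i hi hj).1]
  exact h.any k' _ _ ρ ρ' h1 h2 (fun i hi => ⟨(h3 i hi).1, fun a ha => (hP a ha).trans_le (h3 i hi).2⟩)
    (fun i hi => ⟨(h4 i hi).1, fun a ha => (hP a ha).trans_le (h4 i hi).2⟩)
    fun a ha => h.nice.lower (hP a ha).le hγ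

theorem strb_above (hJ : ∀ j ∈ J, ∃ j' ∈ J, j < j') (hne : J.Nonempty) (js : List On)
    (h : ∀ i ∈ js, i ∈ J) : ∃ j ∈ J, ∀ i ∈ js, i < j := by
  induction js with
  | nil => exact hne.imp fun j hj => ⟨hj, by simp⟩
  | cons a js ih =>
    obtain ⟨j, h1, h2⟩ := ih fun i hi => h i (List.mem_cons_of_mem _ hi)
    obtain ⟨j', h3, h4⟩ := hJ a (h a List.mem_cons_self)
    refine ⟨max j j', (max_choice j j').elim (fun e => e.symm ▸ h1) fun e => e.symm ▸ h3,
      fun i hi => ?_⟩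
    rcases List.mem_cons.1 hi with rfl | hi
    exacts [lt_max_of_lt_right h4, lt_max_of_lt_left (h2 i hi)]

/-- Compression of the indices from `j` on. -/
theorem strb_phi (hJ : ∀ j ∈ J, ∃ j' ∈ J, j < j') {j : On} (hj : j ∈ J) : ∃ β : On,
    ∀ js : List On, ∃ φ : On → On, (∀ i < j, φ i = i ∧ i < β) ∧
      (∀ i, j ≤ i → φ i ∈ J ∧ j ≤ φ i ∧ φ i < β) ∧
      ∀ i ∈ js, j ≤ i → ∀ i', i < i' → φ i < φ i' := by
  classical
  choose! f hf hf' using hJ
  have h1 : ∀ n, f^[n] j ∈ J := fun n => by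
    induction n with
    | zero => exact hj
    | succ n ih => rw [Function.iterate_succ_apply']; exact hf _ ih
  have h2 : StrictMono fun n => f^[n] j := strictMono_nat_of_lt_succ fun n => by
    rw [Function.iterate_succ_apply']; exact hf' _ (h1 n)
  have h3 := Ordinal.lt_iSup_add_one fun n : ℕ => f^[n] j
  refine ⟨_, fun js => ⟨fun i => if i < j then i else
    f^[(js.toFinset.filter fun a => j ≤ a ∧ a < i).card] j, fun i hi => ⟨if_pos hi,
      hi.trans (h3 0)⟩, fun i hi => ?_, fun i hi hji i' hi' => ?_⟩⟩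
  · simp only [if_neg (not_lt.2 hi)]
    exact ⟨h1 _, h2.monotone (Nat.zero_le _), h3 _⟩
  · simp only [if_neg (not_lt.2 hji), if_neg (not_lt.2 (hji.trans hi'.le))]
    refine h2 (Finset.card_lt_card ⟨fun a ha => ?_, fun hs => ?_⟩)
    · rw [Finset.mem_filter] at ha ⊢
      exact ⟨ha.1, ha.2.1, ha.2.2.trans hi'⟩
    · exact lt_irrefl _ (Finset.mem_filter.1 (hs (Finset.mem_filter.2
        ⟨List.mem_toFinset.2 hi, hji, hi'⟩))).2.2

theorem strb_list (β : On) (l : List On) (h : ∀ a ∈ l, a < β) :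
    ∃ l' : List β.ToType, l'.map (fun a => (a.toOrd : On)) = l := by
  induction l with
  | nil => exact ⟨[], rfl⟩
  | cons a l ih =>
    obtain ⟨l', e⟩ := ih fun b hb => h b (List.mem_cons_of_mem _ hb)
    exact ⟨ToType.mk ⟨a, h a List.mem_cons_self⟩ :: l', by simp [e]⟩

/-- Hint: every token lies below the token of an index `j` above its indices (`Ind.tv`); a token
below `j` is equivalent to one whose indices `≥ j` are replaced by the first elements of `J` from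
`j` on. -/
theorem strSys_small (h : Ind A Λ I) (hδ : Iio δ ⊆ Λ) (hJ : ∀ j ∈ J, ∃ j' ∈ J, j < j')
    (hne : J.Nonempty) (s : STok) : ∃ (κ : Type) (F : κ → STok),
      ∀ t, (strSys A Λ I J δ).Lt t s → ∃ a, (strSys A Λ I J δ).Eqv t (F a) := by
  by_cases hs : s.Ok J δ
  swap
  · exact ⟨Empty, Empty.elim, fun t ⟨p, _, h2, _⟩ =>
      absurd ⟨fun i hi => p.2.1 i (h2.1 hi), fun a ha => p.2.2 a (h2.2 ha)⟩ hs⟩
  obtain ⟨j, hj, hjs⟩ := strb_above hJ hne s.js hs.1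
  obtain ⟨β, hβ⟩ := strb_phi hJ hj
  refine ⟨ℕ × List β.ToType × List δ.ToType, fun a => ⟨a.1, a.2.1.map fun a => (a.toOrd : On),
    a.2.2.map fun a => (a.toOrd : On)⟩, fun t hts => ?_⟩
  obtain ⟨ht, -, -⟩ := (strSys_lt h hδ).1 hts
  obtain ⟨φ, f1, f2, f3⟩ := hβ (j :: t.js)
  have hφ : ∀ i ∈ t.js.map φ, i ∈ J ∧ i < β := by
    intro i' hi'
    obtain ⟨i, hi, rfl⟩ := List.mem_map.1 hi'
    rcases lt_or_ge i j with hl | hl
    · rw [(f1 i hl).1]
      exact ⟨ht.1 i hi, (f1 i hl).2⟩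
    · exact ⟨(f2 i hl).1, (f2 i hl).2.2⟩
  obtain ⟨l1, e1⟩ := strb_list β _ fun i hi => (hφ i hi).2
  obtain ⟨l2, e2⟩ := strb_list δ _ ht.2
  refine ⟨(t.k, l1, l2), ?_⟩
  simp only [e1, e2]
  let js := (j :: φ j :: t.js) ++ (t.js.map φ ++ s.js)
  have m1 : j ∈ js := List.mem_append_left _ List.mem_cons_self
  have m2 : ∀ i ∈ t.js, i ∈ js := fun i hi =>
    List.mem_append_left _ (List.mem_cons_of_mem _ (List.mem_cons_of_mem _ hi))
  have m3 : ∀ i ∈ t.js.map φ, i ∈ js := fun i hi =>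
    List.mem_append_right _ (List.mem_append_left _ hi)
  have m4 : ∀ i ∈ s.js, i ∈ js := fun i hi => List.mem_append_right _ (List.mem_append_right _ hi)
  have m5 : ∀ i ∈ t.js.map (max · j), j ≤ i ∧ i ∈ j :: t.js ∧ i ∈ js ∧ φ i ∈ js := by
    intro i' hi'
    obtain ⟨i, hi, rfl⟩ := List.mem_map.1 hi'
    refine ⟨le_max_right _ _, ?_⟩
    rcases max_choice i j with e | e <;> rw [e]
    · exact ⟨List.mem_cons_of_mem _ hi, m2 i hi, m3 _ (List.mem_map_of_mem hi)⟩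
    · exact ⟨List.mem_cons_self, m1,
        List.mem_append_left _ (List.mem_cons_of_mem _ List.mem_cons_self)⟩
  have hq : ∀ a ∈ t.q ++ s.q, a < δ := fun a ha => (List.mem_append.1 ha).elim (ht.2 a) (hs.2 a)
  let p : {p : List On × List On // (∀ j ∈ p.1, j ∈ J) ∧ ∀ a ∈ p.2, a < δ} :=
    ⟨(js, t.q ++ s.q), fun i hi => by
      simp only [js, List.mem_append, List.mem_cons] at hi
      rcases hi with (rfl | rfl | hi) | hi | hi
      exacts [hj, (f2 j le_rfl).1, ht.1 i hi, (hφ i hi).1, hs.1 i hi], hq⟩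
  have d1 : t ∈ (strSys A Λ I J δ).Dom p := ⟨m2, List.subset_append_left _ _⟩
  have d2 : s ∈ (strSys A Λ I J δ).Dom p := ⟨m4, List.subset_append_right _ _⟩
  have hlt := (Sys.presa_lt strSys_dir ((strSys_cohE h hδ).coh (strSys_clE h hδ) strSys_dir)
    d1 d2).1 hts
  refine ⟨p, d1, ⟨m3, List.subset_append_left _ _⟩, ?_⟩
  have hρ := Classical.epsilon_spec (h.exists_real js (t.q ++ s.q) fun a ha => hδ (hq a ha))
  simp only [strSys, p, STok.val] at hlt ⊢
  generalize Classical.epsilon (Real I js (t.q ++ s.q)) = ρ at hρ hlt ⊢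
  have hx := hlt.trans ((h.tv (hρ.2 j m1).1).lw h.nice s.k (q := s.js.map ρ ++ s.q) fun a ha => by
    rcases List.mem_append.1 ha with ha | ha
    · obtain ⟨i, hi, rfl⟩ := List.mem_map.1 ha
      exact hρ.1 (m4 i hi) m1 (hjs i hi)
    · exact (hρ.2 j m1).2 a (List.mem_append_right _ ha))
  obtain ⟨k', hk⟩ := exists_lw_eq t.k
  have hm : ∀ l : List On, (∀ i ∈ l, i ∈ js) → ∀ a ∈ l.map ρ ++ t.q, a ∈ Λ := fun l hl a ha => by
    rcases List.mem_append.1 ha with ha | ha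
    · obtain ⟨i, hi, rfl⟩ := List.mem_map.1 ha
      exact h.sub (hρ.2 i (hl i hi)).1
    · exact hδ (ht.2 a ha)
  refine (hk A Λ _ _ h.nice (lw_mem h.nice _ _) (hm _ m3)).1 ?_
  rw [List.map_map]
  refine (strb_swap h k' t.js t.q (j := j) (ρ := ρ) (fun a ha b hb hab => ?_)
    (fun a ha b hb hab => ?_) (fun i hi => ?_) (fun i hi => ?_) (fun i hi hl => ?_)
    (fun a ha => (hρ.2 j m1).2 a (List.mem_append_left _ ha)) hx (h.sub (hρ.2 j m1).1)).1
    ((hk A Λ _ _ h.nice (lw_mem h.nice _ _) (hm _ m2)).2 rfl)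
  · exact hρ.1 (m5 a ha).2.2.1 (m5 b hb).2.2.1 hab
  · exact hρ.1 (m5 a ha).2.2.2 (m5 b hb).2.2.2 (f3 a (m5 a ha).2.1 (m5 a ha).1 b hab)
  · exact ⟨(hρ.2 i (m5 i hi).2.2.1).1, hρ.1.monotoneOn m1 (m5 i hi).2.2.1 (m5 i hi).1⟩
  · exact ⟨(hρ.2 _ (m5 i hi).2.2.2).1,
      hρ.1.monotoneOn m1 (m5 i hi).2.2.2 (f2 i (m5 i hi).1).2.1⟩
  · exact ⟨by rw [Function.comp_apply, (f1 i hl).1], hρ.1 (m2 i hi) m1 hl⟩

theorem strc_lift {α β : Type*} (f : α → β) (P : α → Prop) (l : List β)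
    (h : ∀ b ∈ l, ∃ a, P a ∧ f a = b) : ∃ l' : List α, (∀ a ∈ l', P a) ∧ l'.map f = l := by
  induction l with
  | nil => exact ⟨[], by simp, rfl⟩
  | cons b l ih =>
    obtain ⟨a, h1, rfl⟩ := h b List.mem_cons_self
    obtain ⟨l', h2, rfl⟩ := ih fun c hc => h c (List.mem_cons_of_mem _ hc)
    exact ⟨a :: l', List.forall_mem_cons.2 ⟨h1, h2⟩, rfl⟩

theorem strc_mono {js q js' q' : List On} {ρ : On → On} (h : Real I js q ρ) (h1 : js' ⊆ js)
    (h2 : ∀ a ∈ q', ∃ b ∈ q, a ≤ b) : Real I js' q' ρ :=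
  ⟨h.1.mono fun _ hj => h1 hj, fun j hj => ⟨(h.2 j (h1 hj)).1, fun a ha =>
    (h2 a ha).elim fun b hb => hb.2.trans_lt ((h.2 j (h1 hj)).2 b hb.1)⟩⟩

theorem strc_above (hJ : ∀ j ∈ J, ∃ j' ∈ J, j < j') (hne : J.Nonempty) (js : List On)
    (h : ∀ j ∈ js, j ∈ J) : ∃ j ∈ J, ∀ j' ∈ js, j' < j := by
  induction js with
  | nil => exact hne.imp fun j hj => ⟨hj, by simp⟩
  | cons a l ih =>
    obtain ⟨j, h1, h2⟩ := ih fun c hc => h c (List.mem_cons_of_mem _ hc)
    obtain ⟨b, h3, h4⟩ := hJ a (h a List.mem_cons_self)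
    rcases le_total b j with h5 | h5
    · exact ⟨j, h1, List.forall_mem_cons.2 ⟨h4.trans_le h5, h2⟩⟩
    · exact ⟨b, h3, List.forall_mem_cons.2 ⟨h4, fun c hc => (h2 c hc).trans_le h5⟩⟩

theorem strc_ok {p} {s : STok} (hs : s ∈ (strSys A Λ I J δ).Dom p) : s.Ok J δ :=
  ⟨fun j hj => p.2.1 j (hs.1 hj), fun a ha => p.2.2 a (hs.2 ha)⟩

theorem strc_stage (us : List STok) (h : ∀ s ∈ us, s.Ok J δ) :
    ∃ p, ∀ s ∈ us, s ∈ (strSys A Λ I J δ).Dom p := by
  induction us with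
  | nil => exact ⟨⟨([], []), by simp⟩, by simp⟩
  | cons s l ih =>
    obtain ⟨p, hp⟩ := ih fun c hc => h c (List.mem_cons_of_mem _ hc)
    obtain ⟨k, h1, h2⟩ := (strSys_dir (A := A) (Λ := Λ) (I := I)).dir p
      ⟨(s.js, s.q), h s List.mem_cons_self⟩
    exact ⟨k, List.forall_mem_cons.2 ⟨h2, fun t ht => strSys_dir.sub _ _ h1 (hp t ht)⟩⟩

theorem strc_real (h : Ind A Λ I) (hδ : Iio δ ⊆ Λ) (p) : ∃ ρ, Real I p.1.1 p.1.2 ρ ∧
    ∀ s, (strSys A Λ I J δ).e p s = s.val A Λ ρ :=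
  ⟨_, Classical.epsilon_spec (h.exists_real _ _ fun a ha => hδ (p.2.2 a ha)), fun _ => rfl⟩

theorem strc_lt (h : Ind A Λ I) (hδ : Iio δ ⊆ Λ) {r : STok → On}
    (hr : (strSys A Λ I J δ).IsRank r) {s t : STok} (hs : s.Ok J δ) (ht : t.Ok J δ) {ρ : On → On}
    (hρ : Real I (s.js ++ t.js) (s.q ++ t.q) ρ) : r s < r t ↔ s.val A Λ ρ < t.val A Λ ρ := by
  have h1 : ∀ a ∈ s.q ++ t.q, a < δ := List.forall_mem_append.2 ⟨hs.2, ht.2⟩
  obtain ⟨ρ', h2, h3⟩ := strc_real (J := J) h hδ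
    ⟨(s.js ++ t.js, s.q ++ t.q), List.forall_mem_append.2 ⟨hs.1, ht.1⟩, h1⟩
  rw [hr.lt ⟨(s.js ++ t.js, s.q ++ t.q), List.forall_mem_append.2 ⟨hs.1, ht.1⟩, h1⟩ s
    ⟨List.subset_append_left _ _, List.subset_append_left _ _⟩ t
    ⟨List.subset_append_right _ _, List.subset_append_right _ _⟩, h3, h3]
  exact h.val_lt (fun a ha => hδ (h1 a ha)) h2 hρ

theorem strc_eq (h : Ind A Λ I) (hδ : Iio δ ⊆ Λ) {r : STok → On}
    (hr : (strSys A Λ I J δ).IsRank r) {s t : STok} (hs : s.Ok J δ) (ht : t.Ok J δ) {ρ : On → On}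
    (hρ : Real I (s.js ++ t.js) (s.q ++ t.q) ρ) (e : s.val A Λ ρ = t.val A Λ ρ) : r s = r t := by
  refine le_antisymm (not_lt.1 fun h1 => ?_) (not_lt.1 fun h1 => ?_)
  · refine ((strc_lt h hδ hr ht hs (strc_mono hρ List.perm_append_comm.subset fun a ha =>
      ⟨a, List.perm_append_comm.subset ha, le_rfl⟩)).1 h1).ne' e
  · exact ((strc_lt h hδ hr hs ht hρ).1 h1).ne e

/-- The stretch. -/
theorem stretch (h : Ind A Λ I) (hA : A ⊆ Iio δ) (hb : ∃ e ∈ Λ, A ⊆ Iio e) (hδ : Iio δ ⊆ Λ)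
    (hJ : ∀ j ∈ J, ∃ j' ∈ J, j < j') (hne : J.Nonempty) (hw : WellFounded (SLt A Λ I J δ)) :
    ∃ (Λ' : Set On) (u : On → On) (r : STok → On), StrictMonoOn u J ∧ Cert A Λ' δ (u '' J) ∧
      (∀ k js q ρ, (∀ j ∈ js, j ∈ J) → (∀ a ∈ q, a < δ) → Real I js q ρ →
        (Sat A Λ' k (lv (js.map u ++ q)) ↔ Sat A Λ k (lv (js.map ρ ++ q)))) ∧
      (∀ s, s.Ok J δ → r s = s.val A Λ' u) ∧ (∀ x, x ∈ Λ' ↔ ∃ s, s.Ok J δ ∧ r s = x) ∧
      ∀ s t, s.Ok J δ → t.Ok J δ → (r s < r t ↔ SLt A Λ I J δ s t) := by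
  have hd := strSys_dir (A := A) (Λ := Λ) (I := I) (J := J) (δ := δ)
  have hc := strSys_cohE (J := J) h hδ
  have hl := strSys_clE (J := J) h hδ
  obtain ⟨r, hr⟩ := Sys.exists_rank hd (hc.coh hl hd)
    (Subrelation.wf (fun h1 => (strSys_lt h hδ).1 h1) hw) (strSys_small h hδ hJ hne)
  obtain ⟨k₀, hk₀⟩ := MT.exists_lw fun _ _ v => v 0
  have vJ : ∀ j (ρ : On → On), ρ j ∈ I → STok.val A Λ ρ ⟨k₀, [j], []⟩ = ρ j := fun j ρ hj =>
    hk₀ A Λ [ρ j] h.nice (List.forall_mem_singleton.2 (h.sub hj))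
  have vP : ∀ a < δ, ∀ ρ : On → On, STok.val A Λ ρ ⟨k₀, [], [a]⟩ = a := fun a ha _ =>
    hk₀ A Λ [a] h.nice (List.forall_mem_singleton.2 (hδ ha))
  have oJ : ∀ j ∈ J, STok.Ok J δ ⟨k₀, [j], []⟩ := fun j hj =>
    ⟨List.forall_mem_singleton.2 hj, List.forall_mem_nil _⟩
  have oP : ∀ a < δ, STok.Ok J δ ⟨k₀, [], [a]⟩ := fun a ha =>
    ⟨List.forall_mem_nil _, List.forall_mem_singleton.2 ha⟩
  have hlim : ∀ x, x ∈ (strSys A Λ I J δ).lim r ↔ ∃ s, s.Ok J δ ∧ r s = x := fun x =>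
    ⟨fun ⟨s, hs, e⟩ => (mem_iUnion.1 hs).elim fun _ hp => ⟨s, strc_ok hp, e⟩,
      fun ⟨s, hs, e⟩ => ⟨s, mem_iUnion.2 ⟨⟨(s.js, s.q), hs⟩, List.Subset.refl _,
        List.Subset.refl _⟩, e⟩⟩
  have hex : ∀ s t : STok, s.Ok J δ → t.Ok J δ → ∃ ρ, Real I (s.js ++ t.js) (s.q ++ t.q) ρ :=
    fun s t hs ht => h.exists_real _ _ fun a ha =>
      hδ (List.forall_mem_append.2 ⟨hs.2, ht.2⟩ a ha)
  have hlt : ∀ s t, s.Ok J δ → t.Ok J δ → (r s < r t ↔ SLt A Λ I J δ s t) := fun s t hs ht =>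
    ⟨fun h1 => ⟨hs, ht, (hex s t hs ht).imp fun _ hρ => ⟨hρ, (strc_lt h hδ hr hs ht hρ).1 h1⟩⟩,
      fun ⟨_, _, _, hρ, h1⟩ => (strc_lt h hδ hr hs ht hρ).2 h1⟩
  have hlow : ∀ (s : STok) (ρ : On → On) (b : On), s.Ok J δ → Real I s.js (s.q ++ [b]) ρ →
      s.val A Λ ρ < b → s.val A Λ ρ < δ → r s = r ⟨k₀, [], [s.val A Λ ρ]⟩ := by
    intro s ρ b hs hρ h1 h2
    refine strc_eq h hδ hr hs (oP _ h2) (strc_mono hρ (by simp) ?_) (vP _ h2 _).symm
    exact List.forall_mem_append.2 ⟨fun a ha => ⟨a, List.mem_append_left _ ha, le_rfl⟩,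
      List.forall_mem_singleton.2 ⟨b, by simp, h1.le⟩⟩
  have hfix : ∀ a < δ, r ⟨k₀, [], [a]⟩ = a := by
    refine hr.fix hd (fun a => ⟨k₀, [], [a]⟩) (fun ξ hξ => ⟨⟨([], [ξ]), oP ξ hξ⟩,
      List.Subset.refl _, List.Subset.refl _⟩) (fun ξ hξ ζ hζ => ?_) fun ξ hξ t ht => ?_
    · refine (strSys_lt h hδ).2 ⟨oP _ (hζ.trans hξ), oP _ hξ,
        (hex _ _ (oP _ (hζ.trans hξ)) (oP _ hξ)).imp fun ρ hρ => ⟨hρ, ?_⟩⟩
      rwa [vP _ hξ, vP _ (hζ.trans hξ)]
    · obtain ⟨ht, -, ρ, hρ, h1⟩ := (strSys_lt h hδ).1 ht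
      rw [vP _ hξ] at h1
      obtain ⟨p, hp⟩ := strc_stage (A := A) (Λ := Λ) (I := I) [t, ⟨k₀, [], [t.val A Λ ρ]⟩]
        (List.forall_mem_cons.2 ⟨ht, List.forall_mem_singleton.2 (oP _ (h1.trans hξ))⟩)
      have h2 := hp t (by simp)
      have h3 := hp ⟨k₀, [], [t.val A Λ ρ]⟩ (by simp)
      exact ⟨_, h1, p, h2, h3, (hr.eq h2 h3).1 (hlow t ρ ξ ht
        (strc_mono hρ (by simp) fun a ha => ⟨a, ha, le_rfl⟩) h1 (h1.trans hξ))⟩
  have horc : (strSys A Λ I J δ).orc r = A := by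
    refine Subset.antisymm ?_ fun a ha => ⟨⟨([], [a]), oP a (hA ha)⟩, ⟨k₀, [], [a]⟩,
      ⟨List.Subset.refl _, List.Subset.refl _⟩, hfix a (hA ha),
      mem_of_eq_of_mem (vP a (hA ha) _) ha⟩
    rintro _ ⟨p, s, hs, rfl, h1⟩
    obtain ⟨e, he, heA⟩ := hb
    obtain ⟨ρ, hρ, h2⟩ := strc_real (J := J) h hδ p
    have hq : ∀ a ∈ s.q, a ∈ Λ := fun a ha => hδ ((strc_ok hs).2 a ha)
    obtain ⟨ρ', hρ'⟩ := h.exists_real s.js (s.q ++ [e])
      (List.forall_mem_append.2 ⟨hq, List.forall_mem_singleton.2 he⟩)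
    have := elemc_mt s.k
    obtain ⟨k, hk⟩ := (MD.mem (fun A _ _ => A) (elemcLw s.k)).ex
    have h3 : ∀ ρ : On → On, Real I s.js s.q ρ →
        (Sat A Λ k (lv (s.js.map ρ ++ s.q)) ↔ s.val A Λ ρ ∈ A) := fun ρ hρ => by
      rw [STok.val, elemc_lw]
      exact hk A Λ _ h.nice (lv_mem h.nice.zero_mem (List.forall_mem_append.2
        ⟨List.forall_mem_map.2 fun j hj => h.sub (hρ.2 j hj).1, hq⟩))
    have h4 := strc_mono hρ hs.1 fun a ha => ⟨a, hs.2 ha, le_rfl⟩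
    have h5 := strc_mono hρ' (List.Subset.refl _) fun a (ha : a ∈ s.q) =>
      ⟨a, List.mem_append_left _ ha, le_rfl⟩
    have h6 : s.val A Λ ρ' ∈ A :=
      (h3 _ h5).1 ((h.any k _ _ _ _ h4.1 h5.1 h4.2 h5.2 hq).1 ((h3 _ h4).2 (h2 s ▸ h1)))
    rwa [hlow s ρ' e (strc_ok hs) hρ' (heA h6) (hA h6), hfix _ (hA h6)]
  obtain ⟨hn, hsat⟩ := Sys.pres_elem hd hc hl hr
  rw [horc] at hsat
  generalize (strSys A Λ I J δ).lim r = Λ' at *
  have key : ∀ (k : ℕ) (us : List STok) (js q : List On) (h1 : ∀ j ∈ js, j ∈ J)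
      (h2 : ∀ a ∈ q, a < δ), (∀ s ∈ us, s.js ⊆ js ∧ s.q ⊆ q) → ∃ ρ, Real I js q ρ ∧
      (Sat A Λ' k (lv (us.map r ++ (js.map (fun j => r ⟨k₀, [j], []⟩) ++ q))) ↔
        Sat A Λ k (lv (us.map (STok.val A Λ ρ) ++ (js.map ρ ++ q)))) := by
    intro k us js q h1 h2 h3
    obtain ⟨ρ, hρ, e⟩ := strc_real (J := J) h hδ ⟨(js, q), h1, h2⟩
    refine ⟨ρ, hρ, ?_⟩
    have h4 := hsat ⟨(js, q), h1, h2⟩ k
      (us ++ (js.map (fun j => ⟨k₀, [j], []⟩) ++ q.map fun a => ⟨k₀, [], [a]⟩))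
      (List.forall_mem_append.2 ⟨h3, List.forall_mem_append.2
        ⟨List.forall_mem_map.2 fun j hj => ⟨by simpa using hj, List.nil_subset _⟩,
          List.forall_mem_map.2 fun j hj => ⟨List.nil_subset _, by simpa using hj⟩⟩⟩)
    rw [funext e] at h4
    simp only [List.map_append, List.map_map, Function.comp_def] at h4
    rwa [List.map_congr_left (g := id) fun a ha => hfix a (h2 a ha),
      List.map_congr_left (g := id) fun a ha => vP a (h2 a ha) ρ,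
      List.map_congr_left (g := ρ) fun j hj => vJ j ρ (hρ.2 j hj).1, List.map_id] at h4
  have hu : ∀ j ∈ J, r ⟨k₀, [j], []⟩ ∈ Λ' := fun j hj => (hlim _).2 ⟨_, oJ j hj, rfl⟩
  have hval : ∀ s, s.Ok J δ → r s = s.val A Λ' fun j => r ⟨k₀, [j], []⟩ := by
    intro s hs
    obtain ⟨k, hk⟩ := exists_lw_eq s.k
    obtain ⟨ρ, hρ, h1⟩ := key k [s] s.js s.q hs.1 hs.2
      (List.forall_mem_singleton.2 ⟨List.Subset.refl _, List.Subset.refl _⟩)
    refine (hk A Λ' _ _ hn ((hlim _).2 ⟨s, hs, rfl⟩) (List.forall_mem_append.2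
      ⟨List.forall_mem_map.2 fun j hj => hu j (hs.1 j hj), fun a ha =>
        (hlim _).2 ⟨_, oP a (hs.2 a ha), hfix a (hs.2 a ha)⟩⟩)).1 (h1.2 ?_)
    exact (hk A Λ _ _ h.nice (lw_mem h.nice _ _) (List.forall_mem_append.2
      ⟨List.forall_mem_map.2 fun j hj => h.sub (hρ.2 j hj).1, fun a ha => hδ (hs.2 a ha)⟩)).2 rfl
  refine ⟨Λ', fun j => r ⟨k₀, [j], []⟩, r, fun j hj j' hj' e => ?_, ⟨Ind.of_fin hn ?_ ?_ ?_, hA,
    ?_, fun x hx => ?_⟩, fun k js q ρ h1 h2 hρ => ?_, hval, hlim, hlt⟩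
  · obtain ⟨ρ, hρ⟩ := hex _ _ (oJ j hj) (oJ j' hj')
    rw [strc_lt h hδ hr (oJ j hj) (oJ j' hj') hρ, vJ _ _ (hρ.2 j (by simp)).1,
      vJ _ _ (hρ.2 j' (by simp)).1]
    exact hρ.1 (by simp) (by simp) e
  · rintro _ ⟨j, hj, rfl⟩
    exact hu j hj
  · intro x hx
    obtain ⟨s, hs, rfl⟩ := (hlim x).1 hx
    obtain ⟨j, hj, h1⟩ := strc_above hJ hne s.js hs.1
    obtain ⟨ρ, hρ⟩ := hex _ _ hs (oJ j hj)
    have h2 := hρ.2 j (by simp)
    refine ⟨_, mem_image_of_mem _ hj, (strc_lt h hδ hr hs (oJ j hj) hρ).2 ?_⟩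
    rw [vJ _ _ h2.1]
    exact (h.tv h2.1).lw h.nice _ (List.forall_mem_append.2 ⟨List.forall_mem_map.2 fun a ha =>
      hρ.1 (List.mem_append_left _ ha) (by simp) (h1 a ha), fun a ha =>
        h2.2 a (List.mem_append_left _ ha)⟩)
  · intro k q b b' h1 h2 h3 h4 h5 h6
    obtain ⟨ss, hs, rfl⟩ := strc_lift r (STok.Ok J δ) q fun a ha => (hlim a).1 (h6 a ha)
    have lift : ∀ c : List On, (∀ a ∈ c, a ∈ (fun j => r ⟨k₀, [j], []⟩) '' J) → ∃ l : List STok,
        (∀ s ∈ l, ∃ j ∈ J, s = ⟨k₀, [j], []⟩) ∧ l.map r = c := fun c hc =>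
      strc_lift r _ c fun a ha => (hc a ha).elim fun j hj => ⟨_, ⟨j, hj.1, rfl⟩, hj.2⟩
    obtain ⟨l, hl, rfl⟩ := lift b fun a ha => (h4 a ha).1
    obtain ⟨l', hl', rfl⟩ := lift b' fun a ha => (h5 a ha).1
    have ok : ∀ c : List STok, (∀ s ∈ c, ∃ j ∈ J, s = ⟨k₀, [j], []⟩) → ∀ s ∈ c, s.Ok J δ :=
      fun c hc s hs => (hc s hs).elim fun j hj => hj.2 ▸ oJ j hj.1
    obtain ⟨p, hp⟩ := strc_stage (A := A) (Λ := Λ) (I := I) (ss ++ (l ++ l'))
      (List.forall_mem_append.2 ⟨hs, List.forall_mem_append.2 ⟨ok l hl, ok l' hl'⟩⟩)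
    rw [List.forall_mem_append, List.forall_mem_append] at hp
    obtain ⟨ρ, hρ, e⟩ := strc_real (J := J) h hδ p
    have aux : ∀ c : List STok, (∀ s ∈ c, ∃ j ∈ J, s = ⟨k₀, [j], []⟩) →
        (∀ s ∈ c, s ∈ (strSys A Λ I J δ).Dom p) → (c.map r).Pairwise (· < ·) →
        (∀ x ∈ c.map r, ∀ a ∈ ss.map r, a < x) →
        (c.map ((strSys A Λ I J δ).e p)).Pairwise (· < ·) ∧
          ∀ x ∈ c.map ((strSys A Λ I J δ).e p),
            x ∈ I ∧ ∀ a ∈ ss.map ((strSys A Λ I J δ).e p), a < x := by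
      intro c c1 c2 c3 c4
      rw [List.pairwise_map] at c3 ⊢
      refine ⟨c3.imp_of_mem fun ha hb e => (hr.lt p _ (c2 _ ha) _ (c2 _ hb)).1 e,
        List.forall_mem_map.2 fun s hs => ⟨?_, List.forall_mem_map.2 fun t ht =>
          (hr.lt p _ (hp.1 t ht) _ (c2 s hs)).1
            (c4 _ (List.mem_map_of_mem hs) _ (List.mem_map_of_mem ht))⟩⟩
      obtain ⟨j, -, rfl⟩ := c1 s hs
      have c5 := (hρ.2 j ((c2 _ hs).1 List.mem_cons_self)).1
      rwa [e, vJ _ _ c5]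
    have a1 := aux l hl hp.2.1 h2 fun x hx => (h4 x hx).2
    have a2 := aux l' hl' hp.2.2 h3 fun x hx => (h5 x hx).2
    rw [← List.map_append, ← List.map_append,
      hsat p k _ (List.forall_mem_append.2 ⟨hp.2.1, hp.1⟩),
      hsat p k _ (List.forall_mem_append.2 ⟨hp.2.2, hp.1⟩), List.map_append, List.map_append]
    exact (h.fin k _ _ _ (by simpa using h1) a1.1 a2.1 a1.2 a2.2
      (List.forall_mem_map.2 fun s _ => lw_mem h.nice _ _)).1
  · rintro _ ⟨j, hj, rfl⟩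
    refine not_lt.1 fun h1 => ?_
    obtain ⟨ρ, hρ⟩ := hex _ _ (oP _ h1) (oJ j hj)
    have h2 := hρ.2 j (by simp)
    have h3 := strc_lt h hδ hr (oP _ h1) (oJ j hj) hρ
    rw [hfix _ h1, vP _ h1, vJ _ _ h2.1] at h3
    exact lt_irrefl _ (h3.2 (h2.2 _ (by simp)))
  · obtain ⟨s, hs, rfl⟩ := (hlim x).1 hx
    exact ⟨s.k, _, List.forall_mem_append.2 ⟨List.forall_mem_map.2 fun j hj =>
      Or.inr (mem_image_of_mem _ (hs.1 j hj)), fun a ha => Or.inl (hs.2 a ha)⟩, (hval s hs).symm⟩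
  · obtain ⟨ρ', hρ', h3⟩ := key k [] js q h1 h2 (List.forall_mem_nil _)
    exact h3.trans (h.any k _ _ _ _ hρ'.1 hρ.1 hρ'.2 hρ.2 fun a ha => hδ (h2 a ha))

/-- Countably many indices are realised simultaneously. -/
theorem strb_count (h : Ind A Λ I) (hu : UC Λ) {S : Set On} (hS : S.Countable) :
    ∃ ρ : On → On, StrictMonoOn ρ S ∧ ∀ i, ρ i ∈ I := by
  obtain ⟨e, he⟩ := (hS.insert 0).exists_eq_range (insert_nonempty _ _)
  let ρ : On → On := (wellFounded_lt (α := On)).fix fun i ih =>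
    Classical.epsilon fun y => y ∈ I ∧ ∀ (a : On) (ha : a < i), a ∈ S → ih a ha < y
  have hρ : ∀ i, ρ i = Classical.epsilon fun y => y ∈ I ∧ ∀ a, a < i → a ∈ S → ρ a < y :=
    fun i => (wellFounded_lt (α := On)).fix_eq _ i
  have key : ∀ i, ρ i ∈ I ∧ ∀ a, a < i → a ∈ S → ρ a < ρ i := by
    intro i
    induction i using (wellFounded_lt (α := On)).induction with
    | _ i ih =>
      rw [hρ i]
      refine Classical.epsilon_spec (p := fun y => y ∈ I ∧ ∀ a, a < i → a ∈ S → ρ a < y) ?_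
      obtain ⟨y, h1, h2⟩ := hu.2 (fun n => if e n < i then ρ (e n) else 0) fun n => by
        split_ifs with hn
        exacts [h.sub (ih _ hn).1, h.nice.zero_mem]
      obtain ⟨ι, h3, h4⟩ := h.unb y h1
      refine ⟨ι, h3, fun a ha hs => ?_⟩
      obtain ⟨n, rfl⟩ : a ∈ range e := he ▸ mem_insert_of_mem _ hs
      have := h2 n
      rw [if_pos ha] at this
      exact this.trans h4
  exact ⟨ρ, fun a ha b _ hab => (key b).2 a hab ha, fun i => (key i).1⟩

/-- Unbounded indiscernibles in uncountable cofinality give a sharp.  Hint: stretch the tail of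
`I` above `δ` along all ordinals; a descending sequence of tokens has countably many indices,
which are realised simultaneously; `u '' univ` is a proper class, so `Λ' = univ`. -/
theorem hasSharp_of_ind (h : Ind A Λ I) (hu : UC Λ) (hA : A ⊆ Iio δ) (hδ : δ ∈ Λ) :
    HasSharp A := by
  have h' : Ind A Λ (I ∩ Ici δ) := h.mono inter_subset_left fun x hx => by
    obtain ⟨ι, h1, h2⟩ := h.unb (max x δ)
      ((max_choice x δ).elim (fun e => e.symm ▸ hx) fun e => e.symm ▸ hδ)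
    exact ⟨ι, ⟨h1, (le_max_right _ _).trans h2.le⟩, (le_max_left _ _).trans_lt h2⟩
  have hδ' : Iio δ ⊆ Λ := fun a ha => h.nice.lower (le_of_lt ha) hδ
  obtain ⟨Λ', u, -, h1, h2, -⟩ := stretch (J := univ) h' hA ⟨δ, hδ, hA⟩ hδ'
    (fun j _ => ⟨j + 1, trivial, lt_add_one j⟩) univ_nonempty (by
      refine wellFounded_iff_isEmpty_descending_chain.2 ⟨fun ⟨s, hs⟩ => ?_⟩
      obtain ⟨ρ, r1, r2⟩ := strb_count h' hu (S := ⋃ n, {i | i ∈ (s n).js})
        (countable_iUnion fun n => (List.finite_toSet _).countable)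
      refine (wellFounded_iff_isEmpty_descending_chain.1 (wellFounded_lt (α := On))).false
        ⟨fun n => (s n).val A Λ ρ, fun n => ?_⟩
      obtain ⟨o1, o2, ρ', r3, r4⟩ := hs n
      have hq : ∀ a ∈ (s (n + 1)).q ++ (s n).q, a < δ :=
        fun a ha => (List.mem_append.1 ha).elim (o1.2 a) (o2.2 a)
      refine (h'.val_lt (fun a ha => hδ' (hq a ha)) r3 ⟨r1.mono fun i hi => ?_,
        fun i _ => ⟨r2 i, fun a ha => (hq a ha).trans_le (r2 i).2⟩⟩).1 r4
      exact (List.mem_append.1 hi).elim (fun m => mem_iUnion.2 ⟨_, m⟩) fun m => mem_iUnion.2 ⟨_, m⟩)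
  obtain rfl : Λ' = Set.univ := eq_univ_of_forall fun x =>
    h2.nice.lower (strictMonoOn_univ.1 h1).le_apply (h2.sub (mem_image_of_mem u (mem_univ x)))
  exact h2.hasSharp

end

/-- A token for the extension by `ω` indiscernibles: a location `d` at level `l` whose first `n`
parameters are increasing elements of `I` above the others. -/
def Tok (I : Set On) (l e d : On) (n : ℕ) : Prop :=
  lev d = l ∧ cut d = e ∧ n ≤ (par d).length ∧ ∀ i < n, lv (par d) i ∈ I ∧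
    (∀ i' < i, lv (par d) i' < lv (par d) i) ∧
    ∀ i', n ≤ i' → i' < (par d).length → lv (par d) i' < lv (par d) i

/-- Two realisations of the same token. -/
def Same (d d' : On) (n : ℕ) : Prop :=
  fml d = fml d' ∧ (par d).length = (par d').length ∧ ∀ i, n ≤ i → lv (par d) i = lv (par d') i

/-- The indiscernibles of `d` lie above the parameters of `d'`. -/
def Over (d : On) (n : ℕ) (d' : On) (n' : ℕ) : Prop :=
  ∀ i < n, ∀ i', n' ≤ i' → i' < (par d').length → lv (par d') i' < lv (par d) i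

/-- The order of tokens, computed from a table `P` of the machine; tokens are pairs `pr d n`. -/
def TokLt (P I : Set On) (l e s t : On) : Prop :=
  ∃ d < nl l, ∃ n : ℕ, ∃ d' < nl l, ∃ n' : ℕ, s = pr d n ∧ t = pr d' n' ∧ Tok I l e d n ∧
    Tok I l e d' n' ∧ ∃ c < nl l, ∃ c' < nl l, Tok I l e c n ∧ Tok I l e c' n' ∧ Same d c n ∧
      Same d' c' n' ∧ (∀ i < n, i < n' → lv (par c) i = lv (par c') i) ∧ Over c n c' n' ∧
      Over c' n' c n ∧ fo P c < fo P c'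

theorem TokLt.congr {P P' I : Set On} {l e s t : On} (h : ∀ c < nl l, c ∈ P ↔ c ∈ P') :
    TokLt P I l e s t ↔ TokLt P' I l e s t := by
  have key : ∀ {P P' : Set On}, (∀ c < nl l, c ∈ P ↔ c ∈ P') → TokLt P I l e s t →
      TokLt P' I l e s t := by
    rintro P P' h ⟨d, hd, n, d', hd', n', a1, a2, a3, a4, c, hc, c', hc', b1, b2, b3, b4, b5, b6,
      b7, b8⟩
    refine ⟨d, hd, n, d', hd', n', a1, a2, a3, a4, c, hc, c', hc', b1, b2, b3, b4, b5, b6, b7, ?_⟩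
    rwa [← fo_congr fun x hx => h x (hx.trans hc), ← fo_congr fun x hx => h x (hx.trans hc')]
  exact ⟨key h, key fun c hc => (h c hc).symm⟩

theorem stre_lv {q : List On} {i : ℕ} (h : i < q.length) : lv q i = q[i] :=
  List.getD_eq_getElem _ _ h

theorem stre_drop {q : List On} {n : ℕ} {a : On} (h : a ∈ q.drop n) :
    ∃ i, n ≤ i ∧ i < q.length ∧ lv q i = a := by
  obtain ⟨i, hi, rfl⟩ := List.getElem_of_mem h
  rw [List.length_drop] at hi
  exact ⟨n + i, by omega, by omega, by rw [stre_lv (by omega), List.getElem_drop]⟩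

theorem stre_take {q : List On} {n : ℕ} {a : On} (h : a ∈ q.take n) :
    ∃ i < n, lv q i = a := by
  obtain ⟨i, hi, rfl⟩ := List.getElem_of_mem h
  rw [List.length_take] at hi
  exact ⟨i, by omega, by rw [stre_lv (by omega), List.getElem_take]⟩

theorem stre_split {q : List On} {n : ℕ} (h : n ≤ q.length) {ρ : On → On}
    (hρ : ∀ i < n, ρ i = lv q i) :
    ((List.range n).map fun i : ℕ => (i : On)).map ρ ++ q.drop n = q := by
  conv_rhs => rw [← List.take_append_drop n q]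
  congr 1
  refine List.ext_getElem (by simp [h]) fun i h1 h2 => ?_
  have hi : i < n := by simpa using h1
  simp only [List.getElem_map, List.getElem_range, List.getElem_take]
  rw [hρ i hi, stre_lv]

theorem stre_drop_eq {d c : On} {n : ℕ} (h : Same d c n) : (par d).drop n = (par c).drop n := by
  refine List.ext_getElem (by simp [h.2.1]) fun i h1 h2 => ?_
  rw [List.length_drop] at h1 h2
  rw [List.getElem_drop, List.getElem_drop, ← stre_lv, ← stre_lv]
  exact h.2.2 _ (by omega)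

/-- The formula whose least solution is the value of the Skolem function. -/
noncomputable def streK (c : On) : ℕ := if tg (fml c) = 11 then fneg (oa (fml c)) else 0

theorem stre_sk {A : Set On} {l e c : On} (hl : IsLev l) (h1 : lev c = l) (h2 : cut c = e) :
    sk A c = lw (A ∩ Iio e) (Iio l) (streK c) (par c) := by
  subst h1 h2
  refine congrArg sInf (Set.ext fun ξ => ?_)
  by_cases k : tg (fml c) = 11
  · simp only [streK, k, if_true, true_and, mem_ofPred_eq, mem_Iio]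
    refine and_congr_right fun hξ => ?_
    have v : (Loc.mk (lev c) (fml c) (cut c) (par c)).Valid := valid_D c
    rw [inst, T_code hl (machb_valid v hξ), sat_fneg]
  · simp only [streK, k, if_false, false_and, mem_ofPred_eq, not_sat_zero, and_false]

/-- The translation of a token. -/
noncomputable def streTok (d : On) (n : ℕ) : STok :=
  ⟨streK d, (List.range n).map fun i : ℕ => (i : On), (par d).drop n⟩

theorem stre_same {d c : On} {n : ℕ} (h : Same d c n) : streTok d n = streTok c n := by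
  rw [streTok, streTok, streK, streK, h.1, stre_drop_eq h]

/-- Tokens of a true certificate are well-founded.  Hint: evaluate `pr d n` in `univ` with the
first `n` elements of `I'` from `l` on. -/
theorem tokLt_wf {A I I' : Set On} {l e j : On} (h : Cert A (Iio l) j I) (hA : A ⊆ Iio e)
    (he : e ≤ j) (h' : Ind A univ I') (hI : I ⊆ I') : WellFounded (TokLt (TS A) I l e) := by
  have hl := h.nice.isLev
  have hE : Elem A A (Iio l) univ id :=
    (h.tv_ext h' hI).elem nice_univ (isLowerSet_Iio l) strictMonoOn_id (image_id _)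
  obtain ⟨ι, hι⟩ := h'.exists_inc (q := [l]) fun _ _ => trivial
  have hι' : ∀ n, l < ι n := fun n =>
    (hι.lt l (List.mem_singleton.2 rfl)).trans_le (hι.mono.monotone (Nat.zero_le n))
  have hsk : ∀ c n (ρ : On → On), Tok I l e c n → (∀ i < n, ρ i = lv (par c) i) →
      fo (TS A) c = (streTok c n).val A univ ρ := by
    intro c n ρ hc hρ
    rw [fo_TS, stre_sk hl hc.1 hc.2.1, inter_eq_left.2 hA, STok.val, streTok,
      stre_split hc.2.2.1 hρ]
    simpa using hE.lw (streK c) fun a ha => (par_lt_lev ha).trans_eq hc.1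
  refine Subrelation.wf (r := InvImage (· < ·) fun s =>
    (streTok (p1 s) (toN (p2 s))).val A univ fun x => ι (toN x)) ?_
    (InvImage.wf _ wellFounded_lt)
  rintro s t ⟨d, -, n, d', -, n', rfl, rfl, -, -, c, -, c', -, b1, b2, b3, b4, b5, b6, b7, b8⟩
  simp only [InvImage, p1_pr, p2_pr, toN_nat]
  rw [stre_same b3, stre_same b4]
  set ρ : On → On := fun x => if toN x < n then lv (par c) (toN x) else lv (par c') (toN x)
    with hρ
  have r1 : ∀ i < n, ρ i = lv (par c) i := fun i hi => by simp only [hρ, toN_nat, if_pos hi]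
  have r2 : ∀ i < n', ρ i = lv (par c') i := fun i hi => by
    simp only [hρ, toN_nat]
    split_ifs with k
    · exact b5 i k hi
    · rfl
  have mem : ∀ x ∈ (streTok c n).js ++ (streTok c' n').js, ∃ i : ℕ, x = i ∧ (i < n ∨ i < n') := by
    intro x hx
    simp only [streTok, List.mem_append, List.mem_map, List.mem_range] at hx
    rcases hx with ⟨i, hi, rfl⟩ | ⟨i, hi, rfl⟩
    exacts [⟨i, rfl, Or.inl hi⟩, ⟨i, rfl, Or.inr hi⟩]
  rw [hsk c n ρ b1 r1, hsk c' n' ρ b2 r2] at b8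
  refine (h'.val_lt (fun _ _ => trivial) ⟨?_, ?_⟩ ⟨?_, ?_⟩).1 b8
  · intro x hx y hy hxy
    obtain ⟨i, rfl, -⟩ := mem x hx
    obtain ⟨i', rfl, hi'⟩ := mem y hy
    have k : i < i' := Nat.cast_lt.1 hxy
    rcases hi' with hi' | hi'
    · rw [r1 i (k.trans hi'), r1 i' hi']
      exact (b1.2.2.2 i' hi').2.1 i k
    · rw [r2 i (k.trans hi'), r2 i' hi']
      exact (b2.2.2.2 i' hi').2.1 i k
  · intro x hx
    obtain ⟨i, rfl, hi | hi⟩ := mem x hx
    · rw [r1 i hi]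
      refine ⟨hI (b1.2.2.2 i hi).1, fun a ha => ?_⟩
      rcases List.mem_append.1 ha with ha | ha
      · obtain ⟨m, m1, m2, rfl⟩ := stre_drop ha
        exact (b1.2.2.2 i hi).2.2 m m1 m2
      · obtain ⟨m, m1, m2, rfl⟩ := stre_drop ha
        exact b6 i hi m m1 m2
    · rw [r2 i hi]
      refine ⟨hI (b2.2.2.2 i hi).1, fun a ha => ?_⟩
      rcases List.mem_append.1 ha with ha | ha
      · obtain ⟨m, m1, m2, rfl⟩ := stre_drop ha
        exact b7 i hi m m1 m2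
      · obtain ⟨m, m1, m2, rfl⟩ := stre_drop ha
        exact (b2.2.2.2 i hi).2.2 m m1 m2
  · intro x hx y hy hxy
    obtain ⟨i, rfl, -⟩ := mem x hx
    obtain ⟨i', rfl, -⟩ := mem y hy
    simp only [toN_nat]
    exact hι.mono (Nat.cast_lt.1 hxy)
  · refine fun x _ => ⟨hι.mem _, fun a ha => lt_trans ?_ (hι' _)⟩
    rcases List.mem_append.1 ha with ha | ha
    · exact (par_lt_lev (List.mem_of_mem_drop ha)).trans_eq b1.1
    · exact (par_lt_lev (List.mem_of_mem_drop ha)).trans_eq b2.1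

/-- The formula whose least solution is the Skolem value at `d`. -/
noncomputable def strdK (d : On) : ℕ := if tg (fml d) = 11 then fneg (oa (fml d)) else 0

/-- The first `n` finite ordinals. -/
noncomputable def strdJ (n : ℕ) : List On := (List.range n).map fun i : ℕ => (i : On)

/-- The token of the stretch that belongs to `pr d n`. -/
noncomputable def strdT (d : On) (n : ℕ) : STok := ⟨strdK d, strdJ n, (par d).drop n⟩

theorem strd_memJ {n : ℕ} {x : On} : x ∈ strdJ n ↔ ∃ i < n, (i : On) = x := by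
  simp [strdJ]

theorem strd_lenJ (n : ℕ) (ρ : On → On) : ((strdJ n).map ρ).length = n := by
  simp [strdJ]

theorem strd_lv_lt {n i : ℕ} (ρ : On → On) (q : List On) (h : i < n) :
    lv ((strdJ n).map ρ ++ q) i = ρ i := by
  simp [lv, strdJ, List.getD_eq_getElem?_getD, List.getElem?_append_left, h]

theorem strd_lv_add (n i : ℕ) (ρ : On → On) (q : List On) :
    lv ((strdJ n).map ρ ++ q) (i + n) = lv q i := by
  have := elemc_right ((strdJ n).map ρ) q i
  rwa [strd_lenJ] at this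

theorem strd_lv_drop (q : List On) (n i : ℕ) : lv (q.drop n) i = lv q (i + n) := by
  simp [lv, List.getD_eq_getElem?_getD, add_comm]

theorem strd_lv_mem {q : List On} {i : ℕ} (h : i < q.length) : lv q i ∈ q := by
  rw [lv, List.getD_eq_getElem _ _ h]
  exact List.getElem_mem h

theorem strd_mem_lv {q : List On} {a : On} (h : a ∈ q) : ∃ i < q.length, lv q i = a := by
  obtain ⟨i, hi, rfl⟩ := List.getElem_of_mem h
  exact ⟨i, hi, List.getD_eq_getElem _ _ hi⟩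

theorem strd_ext {p q : List On} (h1 : p.length = q.length) (h2 : ∀ i, lv p i = lv q i) :
    p = q := by
  refine List.ext_getElem h1 fun i a b => ?_
  have := h2 i
  rwa [lv, lv, List.getD_eq_getElem _ _ a, List.getD_eq_getElem _ _ b] at this

theorem strd_mem_drop {q : List On} {n : ℕ} {a : On} :
    a ∈ q.drop n ↔ ∃ i, n ≤ i ∧ i < q.length ∧ lv q i = a := by
  constructor
  · intro h
    obtain ⟨i, hi, rfl⟩ := strd_mem_lv h
    rw [List.length_drop] at hi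
    exact ⟨i + n, by omega, by omega, (strd_lv_drop q n i).symm⟩
  · rintro ⟨i, h1, h2, rfl⟩
    obtain ⟨m, rfl⟩ : ∃ m, i = m + n := ⟨i - n, by omega⟩
    rw [← strd_lv_drop]
    exact strd_lv_mem (by rw [List.length_drop]; omega)

theorem strd_join {q : List On} {n : ℕ} {ρ : On → On} (h1 : n ≤ q.length)
    (h2 : ∀ i < n, ρ i = lv q i) : (strdJ n).map ρ ++ q.drop n = q := by
  refine strd_ext (by rw [List.length_append, strd_lenJ, List.length_drop]; omega) fun i => ?_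
  rcases lt_or_ge i n with h | h
  · rw [strd_lv_lt _ _ h, h2 i h]
  · obtain ⟨m, rfl⟩ : ∃ m, i = m + n := ⟨i - n, by omega⟩
    rw [strd_lv_add, strd_lv_drop]

theorem strd_sk {A : Set On} {l e d : On} (hl : IsLev l) (hA : A ⊆ Iio e) (h1 : lev d = l)
    (h2 : cut d = e) : sk A d = lw A (Iio l) (strdK d) (par d) := by
  subst h1 h2
  refine congrArg sInf (Set.ext fun ξ => ?_)
  by_cases h : tg (fml d) = 11
  · simp only [strdK, h, if_true, true_and, mem_ofPred_eq, mem_Iio, sat_fneg]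
    refine and_congr_right fun hξ => not_congr ?_
    rw [inst, T_code (k := oa (fml d)) hl (locc_valid hξ), inter_eq_left.2 hA]
  · simp only [strdK, h, if_false, false_and, mem_ofPred_eq, not_sat_zero, and_false]

theorem strd_lt_nl {l d : On} (h : lev d = l) : d < nl l := by
  rw [← h, nl_lev]
  exact lt_nl d

theorem strd_same {d c : On} {n : ℕ} (h : Same d c n) : strdT d n = strdT c n := by
  have e : (par d).drop n = (par c).drop n :=
    strd_ext (by rw [List.length_drop, List.length_drop, h.2.1]) fun i => by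
      rw [strd_lv_drop, strd_lv_drop, h.2.2 _ (Nat.le_add_left _ _)]
  rw [strdT, strdT, strdK, strdK, h.1, e]

theorem strd_ok {I : Set On} {l e d : On} {n : ℕ} (h : Tok I l e d n) :
    (strdT d n).Ok (Iio ω) l := by
  refine ⟨fun j hj => ?_, fun a ha => ?_⟩
  · obtain ⟨i, -, rfl⟩ := strd_memJ.1 hj
    exact natCast_lt_omega0 i
  · exact h.1 ▸ par_lt_lev (List.mem_of_mem_drop ha)

/-- A realisation of the first `n` indices gives a location. -/
theorem strd_loc {I : Set On} {l e : On} (hl : IsLev l) (he : e ≤ l) (hI : I ⊆ Iio l) (k n : ℕ)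
    {q : List On} (hq : ∀ a ∈ q, a < l) {ρ : On → On} (h : Real I (strdJ n) q ρ) :
    ∃ c, Tok I l e c n ∧ fml c = k ∧ par c = (strdJ n).map ρ ++ q := by
  have hm : ∀ i < n, (i : On) ∈ strdJ n := fun i hi => strd_memJ.2 ⟨i, hi, rfl⟩
  have hv : (Loc.mk l k e ((strdJ n).map ρ ++ q)).Valid := ⟨he, fun a ha => by
    rcases List.mem_append.1 ha with ha | ha
    · obtain ⟨b, hb, rfl⟩ := List.mem_map.1 ha
      exact hI (h.2 b hb).1
    · exact hq a ha⟩
  have hp := par_code (x := ⟨l, k, e, _⟩) hl hv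
  refine ⟨_, ⟨lev_code (x := ⟨l, k, e, _⟩) hl hv, cut_code (x := ⟨l, k, e, _⟩) hl hv, ?_,
    fun i hi => ?_⟩, fml_code (x := ⟨l, k, e, _⟩) hl hv, hp⟩
  · rw [hp, List.length_append, strd_lenJ]
    omega
  · rw [hp, strd_lv_lt _ _ hi]
    refine ⟨(h.2 _ (hm i hi)).1, fun i' hi' => ?_, fun i' h1 h2 => ?_⟩
    · rw [strd_lv_lt _ _ (hi'.trans hi)]
      exact h.1 (hm i' (hi'.trans hi)) (hm i hi) (Nat.cast_lt.2 hi')
    · obtain ⟨m, rfl⟩ : ∃ m, i' = m + n := ⟨i' - n, by omega⟩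
      rw [List.length_append, strd_lenJ] at h2
      rw [strd_lv_add]
      exact (h.2 _ (hm i hi)).2 _ (strd_lv_mem (by omega))

theorem strd_real_mono {I : Set On} {js js' q q' : List On} {ρ : On → On} (h : Real I js q ρ)
    (h1 : js' ⊆ js) (h2 : q' ⊆ q) : Real I js' q' ρ :=
  ⟨h.1.mono fun _ m => h1 m, fun j m => ⟨(h.2 j (h1 m)).1, fun a k => (h.2 j (h1 m)).2 a (h2 k)⟩⟩

theorem strd_drop (n : ℕ) (ρ : On → On) (q : List On) : ((strdJ n).map ρ ++ q).drop n = q :=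
  List.drop_left' (strd_lenJ n ρ)

/-- The two orders of tokens agree. -/
theorem strd_tokLt {A I : Set On} {l e d d' : On} {n n' : ℕ} (hl : IsLev l) (hA : A ⊆ Iio e)
    (he : e ≤ l) (hI : I ⊆ Iio l) (h : Tok I l e d n) (h' : Tok I l e d' n') :
    TokLt (TS A) I l e (pr d n) (pr d' n') ↔
      SLt A (Iio l) I (Iio ω) l (strdT d n) (strdT d' n') := by
  constructor
  · rintro ⟨d₁, -, n₁, d₂, -, n₂, e1, e2, -, -, c, -, c', -, t, t', s, s', ag, o, o', lt⟩
    simp only [pr_inj, Nat.cast_inj] at e1 e2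
    obtain ⟨rfl, rfl⟩ := e1
    obtain ⟨rfl, rfl⟩ := e2
    let ρ : On → On := fun x => if toN x < n then lv (par c) (toN x) else lv (par c') (toN x)
    have r1 : ∀ i < n, ρ i = lv (par c) i := fun i hi => by simp only [ρ, toN_nat, if_pos hi]
    have r2 : ∀ i < n', ρ i = lv (par c') i := fun i hi => by
      by_cases h0 : i < n
      · rw [r1 i h0, ag i h0 hi]
      · simp only [ρ, toN_nat, if_neg h0]
    have hm : ∀ x ∈ strdJ n ++ strdJ n', ∃ i : ℕ, (i < n ∨ i < n') ∧ (i : On) = x := fun x hx => by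
      rcases List.mem_append.1 hx with hx | hx
      · obtain ⟨i, hi, rfl⟩ := strd_memJ.1 hx
        exact ⟨i, Or.inl hi, rfl⟩
      · obtain ⟨i, hi, rfl⟩ := strd_memJ.1 hx
        exact ⟨i, Or.inr hi, rfl⟩
    refine ⟨strd_ok h, strd_ok h', ρ, ?_, ?_⟩
    · rw [strd_same s, strd_same s']
      refine ⟨fun x hx y hy hxy => ?_, fun x hx => ?_⟩
      · obtain ⟨a, -, rfl⟩ := hm x hx
        obtain ⟨b, hb, rfl⟩ := hm y hy
        have hab : a < b := Nat.cast_lt.1 hxy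
        rcases hb with hb | hb
        · rw [r1 b hb, r1 a (hab.trans hb)]
          exact (t.2.2.2 b hb).2.1 a hab
        · rw [r2 b hb, r2 a (hab.trans hb)]
          exact (t'.2.2.2 b hb).2.1 a hab
      · obtain ⟨b, hb, rfl⟩ := hm x hx
        rcases hb with hb | hb
        · rw [r1 b hb]
          refine ⟨(t.2.2.2 b hb).1, fun a ha => ?_⟩
          rcases List.mem_append.1 ha with ha | ha
          · obtain ⟨i, h1, h2, rfl⟩ := strd_mem_drop.1 ha
            exact (t.2.2.2 b hb).2.2 i h1 h2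
          · obtain ⟨i, h1, h2, rfl⟩ := strd_mem_drop.1 ha
            exact o b hb i h1 h2
        · rw [r2 b hb]
          refine ⟨(t'.2.2.2 b hb).1, fun a ha => ?_⟩
          rcases List.mem_append.1 ha with ha | ha
          · obtain ⟨i, h1, h2, rfl⟩ := strd_mem_drop.1 ha
            exact o' b hb i h1 h2
          · obtain ⟨i, h1, h2, rfl⟩ := strd_mem_drop.1 ha
            exact (t'.2.2.2 b hb).2.2 i h1 h2
    · rw [strd_same s, strd_same s']
      rw [fo_TS, fo_TS, strd_sk hl hA t.1 t.2.1, strd_sk hl hA t'.1 t'.2.1] at lt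
      simpa only [STok.val, strdT, strd_join t.2.2.1 r1, strd_join t'.2.2.1 r2] using lt
  · rintro ⟨o, o', ρ, hρ, lt⟩
    obtain ⟨c, t, f, p⟩ := strd_loc hl he hI (fml d) n o.2
      (strd_real_mono hρ (List.subset_append_left _ _) (List.subset_append_left _ _))
    obtain ⟨c', t', f', p'⟩ := strd_loc hl he hI (fml d') n' o'.2
      (strd_real_mono hρ (List.subset_append_right _ _) (List.subset_append_right _ _))
    have sm : ∀ {d c : On} {n : ℕ}, n ≤ (par d).length → fml c = fml d →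
        par c = (strdJ n).map ρ ++ (par d).drop n → Same d c n := fun {d c n} a f p => by
      refine ⟨f.symm, ?_, fun i hi => ?_⟩
      · rw [p, List.length_append, strd_lenJ, List.length_drop]
        omega
      · obtain ⟨m, rfl⟩ : ∃ m, i = m + n := ⟨i - n, by omega⟩
        rw [p, strd_lv_add, strd_lv_drop]
    have ov : ∀ {c c' : On} {n n' : ℕ} {q q' : List On}, par c = (strdJ n).map ρ ++ q →
        par c' = (strdJ n').map ρ ++ q' → (∀ x ∈ strdJ n, ∀ a ∈ q', a < ρ x) →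
        Over c n c' n' := fun {c c' n n' q q'} p p' a i hi i' h1 h2 => by
      obtain ⟨m, rfl⟩ : ∃ m, i' = m + n' := ⟨i' - n', by omega⟩
      rw [p', List.length_append, strd_lenJ] at h2
      rw [p, p', strd_lv_lt _ _ hi, strd_lv_add]
      exact a _ (strd_memJ.2 ⟨i, hi, rfl⟩) _ (strd_lv_mem (by omega))
    refine ⟨d, strd_lt_nl h.1, n, d', strd_lt_nl h'.1, n', rfl, rfl, h, h', c, strd_lt_nl t.1, c',
      strd_lt_nl t'.1, t, t', sm h.2.2.1 f p, sm h'.2.2.1 f' p', fun i h1 h2 => ?_,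
      ov p p' fun x hx a ha =>
        (hρ.2 x (List.mem_append_left _ hx)).2 a (List.mem_append_right _ ha),
      ov p' p fun x hx a ha =>
        (hρ.2 x (List.mem_append_right _ hx)).2 a (List.mem_append_left _ ha), ?_⟩
    · rw [p, p', strd_lv_lt _ _ h1, strd_lv_lt _ _ h2]
    · rw [fo_TS, fo_TS, strd_sk hl hA t.1 t.2.1, strd_sk hl hA t'.1 t'.2.1, p, p', strdK, strdK,
        f, f']
      exact lt

/-- A location for a given formula. -/
theorem strd_form {A I : Set On} {l e : On} (h : Ind A (Iio l) I) (he : e ≤ l) (k n : ℕ)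
    {q : List On} (hq : ∀ a ∈ q, a < l) : ∃ d, Tok I l e d n ∧ (par d).drop n = q ∧
      ∀ Λ p, lw A Λ (strdK d) p = lw A Λ k p := by
  obtain ⟨ρ, hρ⟩ := h.exists_real (strdJ n) q hq
  obtain ⟨d, t, f, p⟩ := strd_loc h.nice.isLev he h.sub (fall (fneg k)) n hq hρ
  refine ⟨d, t, by rw [p, strd_drop], fun Λ p => ?_⟩
  simp only [lw, strdK, f, fall, tg_mk, oa_mk, if_true, sat_fneg, not_not]

/-- Every token of the stretch has the value of a token in standard form. -/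
theorem strd_std {A I : Set On} {l e : On} (h : Ind A (Iio l) I) (he : e ≤ l) {s : STok}
    (hs : s.Ok (Iio ω) l) : ∃ d n, Tok I l e d n ∧ s.js ⊆ strdJ n ∧ (par d).drop n = s.q ∧
      ∀ Λ ρ, (strdT d n).val A Λ ρ = s.val A Λ ρ := by
  obtain ⟨k, js, q⟩ := s
  let n := (js.map toN).sum + 1
  have hn : ∀ x ∈ js, toN x < n := fun x hx =>
    Nat.lt_succ_of_le (List.single_le_sum (by simp) _ (List.mem_map_of_mem hx))
  obtain ⟨k', hk⟩ := exists_ren k fun m => m.casesOn 0 fun i =>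
    (if i < js.length then toN (lv js i) else i - js.length + n) + 1
  obtain ⟨d, t, p, f⟩ := strd_form h he k' n hs.2
  refine ⟨d, n, t, fun x hx => strd_memJ.2 ⟨_, hn x hx, nat_toN (hs.1 x hx)⟩, p, fun Λ ρ => ?_⟩
  simp only [STok.val, strdT, f, p]
  refine congrArg sInf (Set.ext fun ξ => and_congr_right fun _ => ?_)
  rw [hk]
  refine sat_irrel fun m _ => ?_
  rcases m with _ | i
  · rfl
  · change lv ((strdJ n).map ρ ++ q) (if i < js.length then toN (lv js i) else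
      i - js.length + n) = lv (js.map ρ ++ q) i
    split_ifs with hi
    · rw [strd_lv_lt _ _ (hn _ (strd_lv_mem hi)), nat_toN (hs.1 _ (strd_lv_mem hi))]
      simp [lv, List.getD_eq_getElem?_getD, List.getElem?_append_left, hi]
    · have := elemc_right (js.map ρ) q (i - js.length)
      rw [List.length_map, Nat.sub_add_cancel (not_lt.1 hi)] at this
      rw [strd_lv_add, this]

/-- Parameters from the new indiscernibles are moved down to the old level. -/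
theorem strd_down {A I Λ' : Set On} {l : On} {u : On → On} (h : Ind A (Iio l) I)
    (hu : StrictMonoOn u (Iio ω))
    (hs : ∀ k js q ρ, (∀ j ∈ js, j ∈ Iio ω) → (∀ a ∈ q, a < l) → Real I js q ρ →
      (Sat A Λ' k (lv (js.map u ++ q)) ↔ Sat A (Iio l) k (lv (js.map ρ ++ q))))
    (p : List On) (hp : ∀ a ∈ p, a < l ∨ a ∈ u '' Iio ω) :
    ∃ ψ : On → On, (∀ a < l, ψ a = a) ∧ (∀ a ∈ p, l ≤ a → ψ a ∈ I) ∧
      StrictMonoOn ψ {a | a ∈ p} ∧ ∀ k, Sat A Λ' k (lv p) ↔ Sat A (Iio l) k (lv (p.map ψ)) := by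
  have h0 : (0 : On) < l := h.nice.zero_mem
  let ix : On → ℕ := fun a => toN (Function.invFunOn u (Iio ω) a)
  have hix : ∀ a ∈ p, ¬ a < l → u (ix a) = a := fun a ha hl => by
    have m := (hp a ha).resolve_left hl
    simp only [ix]
    rw [nat_toN (x := Function.invFunOn u (Iio ω) a) (Function.invFunOn_mem m)]
    exact Function.invFunOn_eq m
  let n := (p.map ix).sum + 1
  have hn : ∀ x ∈ p, ix x < n := fun x hx =>
    Nat.lt_succ_of_le (List.single_le_sum (by simp) _ (List.mem_map_of_mem hx))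
  have hJ : ∀ x ∈ p, (ix x : On) ∈ strdJ n := fun x hx => strd_memJ.2 ⟨_, hn x hx, rfl⟩
  let q := p.map fun a => if a < l then a else 0
  have hq : ∀ a ∈ q, a < l := fun a ha => by
    obtain ⟨b, -, rfl⟩ := List.mem_map.1 ha
    split_ifs with hb
    exacts [hb, h0]
  obtain ⟨ρ, hρ⟩ := h.exists_real (strdJ n) q hq
  refine ⟨fun a => if a < l then a else ρ (ix a), fun a ha => if_pos ha, fun a ha hl => ?_,
    fun a ha b hb hab => ?_, fun k => ?_⟩
  · simp only [if_neg hl.not_gt]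
    exact (hρ.2 _ (hJ a ha)).1
  · by_cases h1 : b < l
    · simp only [if_pos h1, if_pos (hab.trans h1)]
      exact hab
    by_cases h2 : a < l
    · simp only [if_neg h1, if_pos h2]
      exact (hρ.2 _ (hJ b hb)).2 a (List.mem_map.2 ⟨a, ha, if_pos h2⟩)
    · simp only [if_neg h1, if_neg h2]
      refine hρ.1 (hJ a ha) (hJ b hb)
        ((hu.lt_iff_lt (natCast_lt_omega0 _) (natCast_lt_omega0 _)).1 ?_)
      rwa [hix a ha h2, hix b hb h1]
  · obtain ⟨k', hk⟩ := exists_ren k fun i => if lv p i < l then i + n else ix (lv p i)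
    have key : ∀ (σ : On → On) (i : ℕ), lv ((strdJ n).map σ ++ q)
        (if lv p i < l then i + n else ix (lv p i)) =
        if lv p i < l then lv p i else σ (ix (lv p i)) := fun σ i => by
      split_ifs with hi
      · rw [strd_lv_add, lv_map (f := fun a => if a < l then a else 0) (if_pos h0)]
        exact if_pos hi
      · refine strd_lv_lt _ _ (hn _ (strd_lv_mem (not_le.1 fun k => hi ?_)))
        rwa [lv, List.getD_eq_default _ _ k]
    have := hs k' (strdJ n) q ρ (fun j hj => by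
      obtain ⟨i, -, rfl⟩ := strd_memJ.1 hj
      exact natCast_lt_omega0 i) hq hρ
    rw [hk, hk] at this
    rw [lv_map (f := fun a => if a < l then a else ρ (ix a)) (if_pos h0)]
    refine (sat_irrel fun i _ => ?_).trans (this.trans (sat_irrel fun i _ => key ρ i))
    refine Eq.trans ?_ (key u i).symm
    split_ifs with hi
    · rfl
    · refine (hix _ (strd_lv_mem (not_le.1 fun k => hi ?_)) hi).symm
      rwa [lv, List.getD_eq_default _ _ k]

/-- Old and new indiscernibles together. -/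
theorem strd_ind {A I Λ' : Set On} {l : On} {u : On → On} (h : Ind A (Iio l) I)
    (hu : StrictMonoOn u (Iio ω)) (hc : Cert A Λ' l (u '' Iio ω))
    (hs : ∀ k js q ρ, (∀ j ∈ js, j ∈ Iio ω) → (∀ a ∈ q, a < l) → Real I js q ρ →
      (Sat A Λ' k (lv (js.map u ++ q)) ↔ Sat A (Iio l) k (lv (js.map ρ ++ q)))) :
    Ind A Λ' (I ∪ u '' Iio ω) := by
  refine Ind.of_fin hc.nice (union_subset (h.sub.trans hc.iio_subset) hc.sub)
    (fun x hx => (hc.unb x hx).imp fun _ a => ⟨Or.inr a.1, a.2⟩)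
    fun k q r r' h1 h2 h3 h4 h5 h6 => ?_
  by_cases hq : ∀ a ∈ q, a < l
  · have key : ∀ r : List On, r.Pairwise (· < ·) →
        (∀ b ∈ r, b ∈ I ∪ u '' Iio ω ∧ ∀ a ∈ q, a < b) → ∃ s : List On, s.length = r.length ∧
        s.Pairwise (· < ·) ∧ (∀ b ∈ s, b ∈ I ∧ ∀ a ∈ q, a < b) ∧
        (Sat A Λ' k (lv (r ++ q)) ↔ Sat A (Iio l) k (lv (s ++ q))) := fun r a b => by
      obtain ⟨ψ, p1, p2, p3, p4⟩ := strd_down h hu hs (r ++ q) fun x hx =>
        (List.mem_append.1 hx).elim (fun m => (b x m).1.imp_left fun z => h.sub z)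
          fun m => Or.inl (hq x m)
      refine ⟨r.map ψ, List.length_map _, List.pairwise_map.2 (a.imp_of_mem fun m m' z =>
        p3 (List.mem_append_left _ m) (List.mem_append_left _ m') z), fun x hx => ?_, ?_⟩
      · obtain ⟨y, hy, rfl⟩ := List.mem_map.1 hx
        refine ⟨?_, fun z hz => ?_⟩
        · rcases lt_or_ge y l with c | c
          · rw [p1 y c]
            exact (b y hy).1.resolve_right fun m => (hc.ge y m).not_gt c
          · exact p2 y (List.mem_append_left _ hy) c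
        · rw [← p1 z (hq z hz)]
          exact p3 (List.mem_append_right _ hz) (List.mem_append_left _ hy) ((b y hy).2 z hz)
      · rw [p4, List.map_append, (List.map_congr_left fun x hx => p1 x (hq x hx)).trans
          (List.map_id' q)]
    obtain ⟨s, a1, a2, a3, a4⟩ := key r h2 h4
    obtain ⟨s', b1, b2, b3, b4⟩ := key r' h3 h5
    rw [a4, b4]
    exact (h.fin k q s s' (by omega) a2 b2 a3 b3 hq).1
  · have key : ∀ r : List On, (∀ b ∈ r, b ∈ I ∪ u '' Iio ω ∧ ∀ a ∈ q, a < b) →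
        ∀ b ∈ r, b ∈ u '' Iio ω ∧ ∀ a ∈ q, a < b := fun r a b hb =>
      ⟨(a b hb).1.resolve_left fun m => hq fun x hx => ((a b hb).2 x hx).trans (h.sub m),
        (a b hb).2⟩
    exact (hc.toInd.fin k q r r' h1 h2 h3 (key r h4) (key r' h5) h6).1

/-- The extension of a certificate by `ω` indiscernibles, described by the rank function of the
tokens.  Hint: `stretch` with `J = Iio ω`, `δ = l`; translate between the two kinds of tokens
(a location whose tag is not `11` has value `0`; otherwise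
`sk A d = lw A (Iio l) (fneg (oa (fml d))) (par d)`). -/
theorem omega_ext {A I : Set On} {l e j : On} (h : Cert A (Iio l) j I) (hA : A ⊆ Iio e)
    (he : e ≤ j) (rk : On → On)
    (hrk : ∀ t x, x < rk t ↔ ∃ s, TokLt (TS A) I l e s t ∧ x ≤ rk s) :
    ∃ (l' : On) (I' : Set On), l < l' ∧ Cert A (Iio l') j I' ∧
      (∀ x < l', ∃ (d : On) (n : ℕ), Tok I l e d n ∧ rk (pr d n) = x) ∧
      ∀ x, x ∈ I' ↔ x ∈ I ∨ ∃ d < nl l, ∃ n : ℕ, Tok I l e d (n + 1) ∧ sk A d = lv (par d) n ∧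
        rk (pr d (n + 1 : ℕ)) = x := by
  have hl := h.nice.isLev
  have hjl : j < l := by
    obtain ⟨ι, h1, -⟩ := h.unb 0 h.nice.zero_mem
    exact (h.ge ι h1).trans_lt (h.sub h1)
  have hel : e ≤ l := he.trans hjl.le
  have hw : WellFounded (SLt A (Iio l) I (Iio ω) l) := by
    have : ∀ s : STok, ∃ (d : On) (n : ℕ), s.Ok (Iio ω) l → Tok I l e d n ∧ s.js ⊆ strdJ n ∧
        (par d).drop n = s.q ∧ ∀ Λ ρ, (strdT d n).val A Λ ρ = s.val A Λ ρ := fun s => by
      by_cases hs : s.Ok (Iio ω) l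
      · obtain ⟨d, n, a⟩ := strd_std h.toInd hel hs
        exact ⟨d, n, fun _ => a⟩
      · exact ⟨0, 0, fun a => absurd a hs⟩
    choose d n hd using this
    refine Subrelation.wf (fun {s t} hst => ?_)
      (InvImage.wf (fun s => rk (pr (d s) (n s))) wellFounded_lt)
    obtain ⟨o, o', ρ, hρ, lt⟩ := hst
    obtain ⟨a1, a2, a3, a4⟩ := hd s o
    obtain ⟨b1, b2, b3, b4⟩ := hd t o'
    have hq : ∀ a ∈ s.q ++ t.q, a ∈ Iio l := fun a m =>
      (List.mem_append.1 m).elim (o.2 a) (o'.2 a)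
    obtain ⟨ρ', hρ'⟩ := h.toInd.exists_real (strdJ (n s) ++ strdJ (n t)) (s.q ++ t.q) hq
    refine (hrk _ _).2 ⟨_, (strd_tokLt hl hA hel h.sub a1 b1).2
      ⟨strd_ok a1, strd_ok b1, ρ', ?_, ?_⟩, le_rfl⟩
    · simpa only [strdT, a3, b3] using hρ'
    · rw [a4, b4]
      exact (h.toInd.val_lt hq hρ (strd_real_mono hρ' (List.append_subset.2
        ⟨fun _ m => List.mem_append_left _ (a2 m), fun _ m => List.mem_append_right _ (b2 m)⟩)
        (List.Subset.refl _))).1 lt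
  obtain ⟨Λ', u, r, hu, hc, hs, hr, hΛ, hlt⟩ := stretch (J := Iio ω) (δ := l) h.toInd
    (h.or.trans (Iio_subset_Iio hjl.le)) ⟨j, hjl, h.or⟩ Subset.rfl
    (fun x hx => ⟨x + 1, isSuccLimit_omega0.add_one_lt hx, lt_add_one x⟩) ⟨0, omega0_pos⟩ hw
  have hun : ∀ n : ℕ, u n ∈ u '' Iio ω := fun n => mem_image_of_mem u (natCast_lt_omega0 n)
  obtain rfl : Λ' = Iio (⨆ n : ℕ, u n) := by
    refine Set.ext fun x => ⟨fun hx => ?_, fun hx => ?_⟩
    · obtain ⟨_, ⟨y, hy, rfl⟩, a⟩ := hc.unb x hx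
      obtain ⟨n, rfl⟩ := lt_omega0.1 hy
      exact a.trans_le (Ordinal.le_iSup (fun n : ℕ => u n) n)
    · obtain ⟨n, a⟩ := Ordinal.lt_iSup_iff.1 hx
      exact hc.nice.lower a.le (hc.sub (hun n))
  have hstd : ∀ x < ⨆ n : ℕ, u n, ∃ (d : On) (n : ℕ), Tok I l e d n ∧ r (strdT d n) = x :=
    fun x hx => by
      obtain ⟨s, o, rfl⟩ := (hΛ x).1 hx
      obtain ⟨d, n, a1, -, -, a4⟩ := strd_std h.toInd hel o
      exact ⟨d, n, a1, by rw [hr _ (strd_ok a1), hr _ o, a4]⟩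
  have hrr : ∀ (x d : On) (n : ℕ), Tok I l e d n → r (strdT d n) = x → rk (pr d n) = x := by
    intro x
    induction x using WellFoundedLT.induction with
    | ind x ih =>
      rintro d n t rfl
      refine eq_of_forall_lt_iff fun y => (hrk _ _).trans ⟨?_, fun hy => ?_⟩
      · rintro ⟨s, hs, hy⟩
        obtain ⟨d₁, -, n₁, d₂, -, n₂, rfl, -, t₁, -⟩ := id hs
        have a := (hlt _ _ (strd_ok t₁) (strd_ok t)).2 ((strd_tokLt hl hA hel h.sub t₁ t).1 hs)
        rw [ih _ a d₁ n₁ t₁ rfl] at hy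
        exact hy.trans_lt a
      · obtain ⟨d₁, n₁, t₁, rfl⟩ := hstd y (hy.trans ((hΛ _).2 ⟨_, strd_ok t, rfl⟩))
        exact ⟨_, (strd_tokLt hl hA hel h.sub t₁ t).2 ((hlt _ _ (strd_ok t₁) (strd_ok t)).1 hy),
          (ih _ hy d₁ n₁ t₁ rfl).ge⟩
  have hi := strd_ind h.toInd hu hc hs
  have hmem : ∀ (n : ℕ) (q : List On), (∀ a ∈ q, a < l) →
      ∀ a ∈ (strdJ n).map u ++ q, a ∈ Iio (⨆ n : ℕ, u n) := fun n q hq a ha => by
    rcases List.mem_append.1 ha with ha | ha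
    · obtain ⟨b, hb, rfl⟩ := List.mem_map.1 ha
      obtain ⟨i, -, rfl⟩ := strd_memJ.1 hb
      exact hc.sub (hun i)
    · exact hc.iio_subset (hq a ha)
  refine ⟨_, I ∪ u '' Iio ω, (hc.ge _ (hun 0)).trans_lt (hc.sub (hun 0)),
    ⟨hi, h.or, fun ι hι => hι.elim (h.ge ι) fun m => hjl.le.trans (hc.ge ι m), ?_⟩,
    fun x hx => ?_, fun x => or_congr_right ⟨?_, ?_⟩⟩
  · have hY : Iio j ∪ (I ∪ u '' Iio ω) ⊆ Iio (⨆ n : ℕ, u n) :=
      union_subset ((Iio_subset_Iio hjl.le).trans hc.iio_subset) hi.sub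
    refine hc.gen.trans (dcl_least hc.nice (dcl_tv hc.nice hY) (union_subset ?_
      ((subset_union_right.trans subset_union_right).trans (subset_dcl hc.nice hY))))
    refine h.gen.trans ?_
    rw [(h.tv_ext hi subset_union_left).dcl hc.nice (isLowerSet_Iio l)
      (union_subset h.iio_subset h.sub)]
    exact dcl_mono (union_subset_union_right _ subset_union_left)
  · obtain ⟨d, n, t, a⟩ := hstd x hx
    exact ⟨d, n, t, hrr x d n t a⟩
  · rintro ⟨y, hy, rfl⟩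
    obtain ⟨n, rfl⟩ := lt_omega0.1 hy
    obtain ⟨k, hk⟩ := MT.exists_lw fun _ _ v => v n
    obtain ⟨d, t, p, f⟩ := strd_form h.toInd hel k (n + 1) (q := []) (by simp)
    refine ⟨d, strd_lt_nl t.1, n, t, ?_, hrr _ d (n + 1) t ?_⟩
    · rw [strd_sk hl hA t.1 t.2.1, f, hk _ _ _ h.nice fun a ha => t.1 ▸ par_lt_lev ha]
    · rw [hr _ (strd_ok t)]
      simp only [STok.val, strdT, f, p]
      rw [hk _ _ _ hc.nice (hmem _ _ (by simp)), strd_lv_lt _ _ (Nat.lt_succ_self n)]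
  · rintro ⟨d, -, n, t, a, rfl⟩
    rw [hrr _ d (n + 1) t rfl, hr _ (strd_ok t)]
    obtain ⟨k, hk⟩ := exists_lw_eq (strdK d)
    obtain ⟨k', hk'⟩ := exists_ren k fun m => m.casesOn n id
    have key : ∀ (Λ : Set On) (p : List On), Nice Λ → (∀ a ∈ p, a ∈ Λ) →
        (Sat A Λ k' (lv p) ↔ lv p n = lw A Λ (strdK d) p) := fun Λ p h1 h2 => by
      rw [hk', ← hk A Λ _ p h1 (lv_mem h1.zero_mem h2 n) h2]
      exact sat_irrel fun i _ => by cases i <;> rfl
    have hρ : ∀ i < n + 1, lv (par d) (toN (i : ℕ)) = lv (par d) i := fun i _ => by rw [toN_nat]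
    have b := hs k' (strdJ (n + 1)) ((par d).drop (n + 1)) (fun x => lv (par d) (toN x))
      (strd_ok t).1 (strd_ok t).2 ⟨fun x hx y hy hxy => ?_, fun x hx => ?_⟩
    · rw [strd_join (ρ := fun x => lv (par d) (toN x)) t.2.2.1 hρ,
        key _ _ h.nice fun a ha => t.1 ▸ par_lt_lev ha,
        key _ _ hc.nice (hmem _ ((par d).drop (n + 1)) (strd_ok t).2),
        strd_lv_lt _ _ (Nat.lt_succ_self n), ← strd_sk hl hA t.1 t.2.1] at b
      exact mem_of_eq_of_mem (b.2 a.symm).symm (hun n)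
    · obtain ⟨i, -, rfl⟩ := strd_memJ.1 hx
      obtain ⟨i', hi', rfl⟩ := strd_memJ.1 hy
      simp only [toN_nat]
      exact (t.2.2.2 i' hi').2.1 i (Nat.cast_lt.1 hxy)
    · obtain ⟨i, hi, rfl⟩ := strd_memJ.1 hx
      simp only [toN_nat]
      refine ⟨(t.2.2.2 i hi).1, fun b hb => ?_⟩
      obtain ⟨m, h1, h2, rfl⟩ := strd_mem_drop.1 hb
      exact (t.2.2.2 i hi).2.2 m h1 h2

/-- A certificate, checked with a table `P` at the locations of level `l` and cutoff `e`. -/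
def CertT (P I : Set On) (l e j : On) : Prop :=
  Nice (Iio l) ∧ e ≤ j ∧ (∀ x < l, ∃ y < l, x < y ∧ y ∈ I) ∧ (∀ x < l, x ∈ I → j ≤ x) ∧
    (∀ d < nl l, ∀ d' < nl l, ∀ n : ℕ, Tok I l e d n → Tok I l e d' n → Same d d' n → d ∈ P →
      d' ∈ P) ∧
    ∀ x < l, ∃ d < nl l, lev d = l ∧ cut d = e ∧ (∀ a ∈ par d, a < j ∨ a ∈ I) ∧ fo P d = x

theorem stre_of_tok {I : Set On} {l e d : On} {n : ℕ} (h : Tok I l e d n) :
    ((par d).take n).length = n ∧ ((par d).take n).Pairwise (· < ·) ∧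
      ∀ b ∈ (par d).take n, b ∈ I ∧ ∀ a ∈ (par d).drop n, a < b := by
  obtain ⟨-, -, h1, h2⟩ := h
  refine ⟨by simp [h1], List.pairwise_iff_getElem.2 fun i i' k k' hi => ?_, fun b hb => ?_⟩
  · rw [List.length_take] at k k'
    rw [List.getElem_take, List.getElem_take, ← stre_lv, ← stre_lv]
    exact (h2 i' (by omega)).2.1 i hi
  · obtain ⟨i, hi, rfl⟩ := stre_take hb
    refine ⟨(h2 i hi).1, fun a ha => ?_⟩
    obtain ⟨m, m1, m2, rfl⟩ := stre_drop ha
    exact (h2 i hi).2.2 m m1 m2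

theorem stre_tok {I : Set On} {l e : On} {k : ℕ} {r q : List On} (hl : IsLev l)
    (hv : (Loc.mk l k e (r ++ q)).Valid) (h1 : r.Pairwise (· < ·))
    (h2 : ∀ b ∈ r, b ∈ I ∧ ∀ a ∈ q, a < b) : Tok I l e (code ⟨l, k, e, r ++ q⟩) r.length := by
  have e1 : ∀ i (h : i < r.length), lv (r ++ q) i = r[i] := fun i h => by
    rw [stre_lv (by rw [List.length_append]; omega), List.getElem_append_left h]
  refine ⟨lev_code hl hv, cut_code hl hv, ?_⟩
  rw [par_code hl hv]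
  refine ⟨by simp, fun i hi => ?_⟩
  simp only
  rw [e1 i hi]
  refine ⟨(h2 _ (List.getElem_mem hi)).1, fun i' hi' => ?_, fun i' k1 k2 => ?_⟩
  · rw [e1 i' (hi'.trans hi)]
    exact List.pairwise_iff_getElem.1 h1 i' i _ _ hi'
  · obtain ⟨m, rfl⟩ := Nat.exists_eq_add_of_le' k1
    rw [List.length_append] at k2
    rw [elemc_right, stre_lv (by omega)]
    exact (h2 _ (List.getElem_mem hi)).2 _ (List.getElem_mem _)

/-- Hint: `Ind.of_fin`, `Ind.fin`, `T_code`, `lw_eq_sk`. -/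
theorem certT_iff {B P I : Set On} {l e j : On} (hP : ∀ c < nl l, c ∈ P ↔ T B c)
    (hI : I ⊆ Iio l) : CertT P I l e j ↔ e ≤ j ∧ Cert (B ∩ Iio e) (Iio l) j I := by
  have hfo : ∀ d < nl l, fo P d = sk B d := fun d hd =>
    fo_congr (B := TS B) fun x hx => hP x (hx.trans hd)
  constructor
  · rintro ⟨h1, h2, h3, h4, h5, h6⟩
    have hl := h1.isLev
    obtain ⟨y, y1, -, y2⟩ := h3 0 h1.zero_mem
    have he : e ≤ l := h2.trans ((h4 y y1 y2).trans y1.le)
    refine ⟨h2, Ind.of_fin h1 hI (fun x hx => ?_) ?_, fun x hx => hx.2.trans_le h2,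
      fun ι hι => h4 ι (hI hι) hι, fun x hx => ?_⟩
    · obtain ⟨z, -, z1, z2⟩ := h3 x hx
      exact ⟨z, z2, z1⟩
    · intro k q r r' e1 p1 p2 m1 m2 hq hs
      have val : ∀ r : List On, (∀ b ∈ r, b ∈ I ∧ ∀ a ∈ q, a < b) →
          (Loc.mk l k e (r ++ q)).Valid := fun r hr =>
        ⟨he, fun a ha => (List.mem_append.1 ha).elim (fun m => hI (hr a m).1) (hq a)⟩
      have v1 := val r m1
      have v2 := val r' m2
      rw [← T_code hl v1, ← hP _ (code_lt_nl _)] at hs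
      rw [← T_code hl v2, ← hP _ (code_lt_nl _)]
      refine h5 _ (code_lt_nl _) _ (code_lt_nl _) r.length (stre_tok hl v1 p1 m1)
        (e1 ▸ stre_tok hl v2 p2 m2) ⟨?_, ?_, fun i hi => ?_⟩ hs
      · rw [fml_code hl v1, fml_code hl v2]
      · rw [par_code hl v1, par_code hl v2, List.length_append, List.length_append, e1]
      · obtain ⟨m, rfl⟩ := Nat.exists_eq_add_of_le' hi
        rw [par_code hl v1, par_code hl v2, elemc_right, e1, elemc_right]
    · obtain ⟨d, d1, d2, d3, d4, d5⟩ := h6 x hx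
      exact ⟨streK d, par d, d4, by rw [← stre_sk hl d2 d3, ← hfo d d1, d5]⟩
  · rintro ⟨h2, h⟩
    have hl := h.nice.isLev
    obtain ⟨y, y1, -⟩ := h.unb 0 h.nice.zero_mem
    have he : e ≤ l := h2.trans ((h.ge y y1).trans (hI y1).le)
    refine ⟨h.nice, h2, fun x hx => ?_, fun x _ hx => h.ge x hx, ?_, fun x hx => ?_⟩
    · obtain ⟨z, z1, z2⟩ := h.unb x hx
      exact ⟨z, hI z1, z2, z1⟩
    · intro d hd d' hd' n t1 t2 hs hm
      obtain ⟨a1, a2, a3⟩ := stre_of_tok t1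
      obtain ⟨b1, b2, b3⟩ := stre_of_tok t2
      rw [hP d hd, T_iff, t1.1, t1.2.1, ← List.take_append_drop n (par d)] at hm
      rw [hP d' hd', T_iff, t2.1, t2.2.1, ← List.take_append_drop n (par d'), ← hs.1,
        ← stre_drop_eq hs]
      rw [← stre_drop_eq hs] at b3
      exact (h.toInd.fin _ _ _ _ (a1.trans b1.symm) a2 b2 a3 b3 fun a ha =>
        (par_lt_lev (List.mem_of_mem_drop ha)).trans_eq t1.1).1 hm
    · obtain ⟨k, q, q1, rfl⟩ := h.gen hx
      have q2 : ∀ a ∈ q, a < l := fun a ha => (q1 a ha).elim (fun m => h.iio_subset m) fun m => hI m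
      have v : (Loc.mk l (fall (fneg k)) e q).Valid := ⟨he, q2⟩
      refine ⟨code ⟨l, fall (fneg k), e, q⟩, code_lt_nl _, lev_code hl v, cut_code hl v, ?_, ?_⟩
      · rw [par_code hl v]
        exact q1
      · rw [hfo _ (code_lt_nl _), lw_eq_sk hl he q2]

section
variable (B C : Fam (Set On)) [MS B] [MS C] (l e d d' s : Fam On) [MT l] [MT e] [MT d] [MT d']
  [MT s] (n n' : Set On → Set On → (ℕ → On) → ℕ) [MN n] [MN n']

instance MD.tok : MD fun A Λ v => Tok (B A Λ v) (l A Λ v) (e A Λ v) (d A Λ v) (n A Λ v) := by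
  unfold Tok; infer_instance

instance MD.same : MD fun A Λ v => Same (d A Λ v) (d' A Λ v) (n A Λ v) := by
  unfold Same; infer_instance

instance MD.over : MD fun A Λ v => Over (d A Λ v) (n A Λ v) (d' A Λ v) (n' A Λ v) := by
  unfold Over; infer_instance

set_option synthInstance.maxSize 1024 in
instance MD.tokLt :
    MD fun A Λ v => TokLt (B A Λ v) (C A Λ v) (l A Λ v) (e A Λ v) (d A Λ v) (d' A Λ v) := by
  unfold TokLt; infer_instance

set_option synthInstance.maxSize 1024 in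
instance MD.certT : MD fun A Λ v => CertT (B A Λ v) (C A Λ v) (l A Λ v) (e A Λ v) (d A Λ v) := by
  unfold CertT; infer_instance

end

end Pool.Agent.MP_fd3eaf_lc

end

-- part MP_fd3eaf_lc.Cl
section

/-!
Families of subsets of an ordinal `α` that are closed under existential comprehension and see `α`
as the first uncountable ordinal.
-/

set_option autoImplicit false

namespace Pool.Agent.MP_fd3eaf_lc

open Set Ordinal

/-- Definable predicates of four sets and three ordinals. -/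
abbrev MD4 (Φ : Set On → Set On → Set On → Set On → On → On → On → Prop) : Prop :=
  MD fun A _ v => Φ (sec A 0) (sec A 1) (sec A 2) (sec A 3) (v 0) (v 1) (v 2)

theorem MD4.congr {Φ : Set On → Set On → Set On → Set On → On → On → On → Prop} (h : MD4 Φ)
    {X Y B C X' Y' B' C' : Set On} {L a b c : On} (hL : Nice (Iio L)) (ha : a < L) (hb : b < L)
    (hc : c < L) (h0 : ∀ x < L, x ∈ X ↔ x ∈ X') (h1 : ∀ x < L, x ∈ Y ↔ x ∈ Y')
    (h2 : ∀ x < L, x ∈ B ↔ x ∈ B') (h3 : ∀ x < L, x ∈ C ↔ x ∈ C') :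
    Φ X Y B C a b c ↔ Φ X' Y' B' C' a b c := by
  have hv : ∀ i, lv [a, b, c] i ∈ Iio L := lv_mem hL.zero_mem (by simp [ha, hb, hc])
  have := MD.or_congr (fun A _ v => Φ (sec A 0) (sec A 1) (sec A 2) (sec A 3) (v 0) (v 1) (v 2))
    hL hv (jn4_congr h0 h1 h2 h3)
  simpa [lv] using this

instance MS.jn4 (X Y B C : Fam (Set On)) [MS X] [MS Y] [MS B] [MS C] :
    MS fun A Λ v => jn4 (X A Λ v) (Y A Λ v) (B A Λ v) (C A Λ v) := by
  unfold MP_fd3eaf_lc.jn4; infer_instance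

structure Cl (α : On) (R : Set (Set On)) : Prop where
  pos : 0 < α
  nn : ∀ c < α, nn c < α
  sub : ∀ B ∈ R, B ⊆ Iio α
  scomp : ∀ Φ, MD4 Φ → ∀ X ∈ R, ∀ Y ∈ R, ∀ B ∈ R, ∀ a < α,
    {z | z < α ∧ ∃ w < α, ∃ C ∈ R, Φ X Y B C z a w} ∈ R
  lim : ∀ C ∈ R, Clb (Iio α) C → ∃ δ ∈ C, Order.IsSuccLimit δ
  enum : ∀ L < α, ∃ E ∈ R, (∀ z < L, ∃ n : ℕ, pr z n ∈ E) ∧
    ∀ (z z' : On) (n : ℕ), pr z n ∈ E → pr z' n ∈ E → z = z'

namespace Cl

variable {α : On} {R : Set (Set On)} {X Y B C : Set On}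

theorem nice (h : Cl α R) : Nice (Iio α) := by
  exact ⟨isLowerSet_Iio α, ⟨0, h.pos⟩, fun c hc =>
    ⟨_, h.nn c hc, (nn_spec c).1.isLev, (nn_spec c).2.1⟩⟩

theorem comp (h : Cl α R) (Φ : Set On → Set On → Set On → On → On → Prop)
    [MD fun A _ v => Φ (sec A 0) (sec A 1) (sec A 2) (v 0) (v 1)] (hX : X ∈ R) (hY : Y ∈ R)
    (hB : B ∈ R) {a : On} (ha : a < α) : {z | z < α ∧ Φ X Y B z a} ∈ R := by
  have := h.scomp (fun X Y B _ z a _ => Φ X Y B z a) inferInstance X hX Y hY B hB a ha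
  convert this using 4
  exact ⟨fun k => ⟨0, h.pos, X, hX, k⟩, fun ⟨_, _, _, _, k⟩ => k⟩

theorem empty_mem (h : Cl α R) : ∅ ∈ R := by
  obtain ⟨E, hE, -⟩ := h.enum 0 h.pos
  simpa using h.comp (fun _ _ _ _ _ => False) hE hE hE h.pos

theorem inter_Iio (h : Cl α R) (hX : X ∈ R) (a : On) : X ∩ Iio a ∈ R := by
  rcases lt_or_ge a α with ha | ha
  · convert h.comp (fun X _ _ z a => z ∈ X ∧ z < a) hX hX hX ha using 1
    exact Set.ext fun z => ⟨fun k => ⟨h.sub X hX k.1, k⟩, fun k => k.2⟩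
  · rwa [inter_eq_left.2 ((h.sub X hX).trans (Iio_subset_Iio ha))]

theorem inter_Ici (h : Cl α R) (hX : X ∈ R) (a : On) : X ∩ Ici a ∈ R := by
  rcases lt_or_ge a α with ha | ha
  · convert h.comp (fun X _ _ z a => z ∈ X ∧ a ≤ z) hX hX hX ha using 1
    exact Set.ext fun z => ⟨fun k => ⟨h.sub X hX k.1, k⟩, fun k => k.2⟩
  · convert h.empty_mem using 1
    exact eq_empty_of_forall_notMem fun z k => (h.sub X hX k.1).not_ge (ha.trans k.2)

theorem sec_mem (h : Cl α R) (hX : X ∈ R) (a : On) : sec X a ∈ R := by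
  rcases lt_or_ge a α with ha | ha
  · convert h.comp (fun X _ _ z a => z ∈ sec X a) hX hX hX ha using 1
    exact Set.ext fun z => ⟨fun k => ⟨(right_lt_pr a z).trans (h.sub X hX k), k⟩, fun k => k.2⟩
  · convert h.empty_mem using 1
    exact eq_empty_of_forall_notMem fun z k =>
      (h.sub X hX k).not_ge (ha.trans (left_lt_pr a z).le)

theorem jn_mem (h : Cl α R) (hX : X ∈ R) (hY : Y ∈ R) : jn X Y ∩ Iio α ∈ R := by
  convert h.comp (fun X Y _ z _ => z ∈ jn X Y) hX hY hX h.pos using 1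
  exact Set.ext fun z => and_comm

theorem jn4_mem (h : Cl α R) (hX : X ∈ R) (hY : Y ∈ R) (hB : B ∈ R) (hC : C ∈ R) :
    jn4 X Y B C ∩ Iio α ∈ R := by
  convert h.comp (fun X Y E z _ => z ∈ jn4 X Y (sec E 0) (sec E 1)) hX hY (h.jn_mem hB hC)
    h.pos using 1
  have h1 : (1 : On) < α := by simpa using h.nice.nat_mem 1
  rw [sec_inter h.nice h.pos, sec_inter h.nice h1, sec_jn_zero, sec_jn_one]
  refine Set.ext fun z => and_comm.trans (and_congr_right fun hz => ?_)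
  exact jn4_congr (L := α) (fun _ _ => Iff.rfl) (fun _ _ => Iff.rfl)
    (fun _ k => (and_iff_left k).symm) (fun _ k => (and_iff_left k).symm) z hz

/-- Hint: show `TS X ∩ Iio c ∈ R` by induction on `c ≤ α`, with `IsT` and `scomp` at limits. -/
theorem ts_mem (h : Cl α R) (hX : X ∈ R) : TS X ∩ Iio α ∈ R := by
  have hS := h.scomp (fun X _ _ C z _ _ => IsT X {x | x ∈ C ∨ x = z} (z + 1)) inferInstance
    X hX X hX X hX 0 h.pos
  have key : ∀ c ≤ α, TS X ∩ Iio c ∈ R := by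
    intro c
    induction c using WellFoundedLT.induction with
    | _ c ih =>
      intro hc
      convert h.inter_Iio hS c using 1
      refine Set.ext fun z => and_congr_left fun hz => ⟨fun k => ?_, ?_⟩
      · refine ⟨hz.trans_le hc, 0, h.pos, _, ih z hz (hz.le.trans hc), isT_iff.2 fun d hd => ?_⟩
        rcases (Order.lt_add_one_iff.1 hd).lt_or_eq with e | rfl
        · exact ⟨fun m => m.elim (fun m => m.1) fun m => absurd m e.ne, fun m => Or.inl ⟨m, e⟩⟩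
        · exact iff_of_true (Or.inr rfl) k
      · rintro ⟨-, -, -, C, -, k⟩
        exact (isT_iff.1 k z (lt_add_one z)).1 (Or.inr rfl)
  exact key α le_rfl

/-- `y` bounds a witness for every member of `B` whose number is below `n`. -/
def clA_P (C E B : Set On) (L y : On) (n : ℕ) : Prop :=
  ∀ k : ℕ, k < n → ∀ z, z < L → pr z k ∈ E → z ∈ B → ∃ u, u < y ∧ pr z u ∈ C

instance clA_md (C E B : Fam (Set On)) [MS C] [MS E] [MS B] (s t : Fam On) [MT s] [MT t]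
    (n : Set On → Set On → (ℕ → On) → ℕ) [MN n] :
    MD fun A Λ v => clA_P (C A Λ v) (E A Λ v) (B A Λ v) (s A Λ v) (t A Λ v) (n A Λ v) := by
  unfold clA_P; infer_instance

/-- Boundedness.  Hint: let `m z` be the least `w` with `pr z w ∈ C`, and let `E ∈ R` be the domain
of `m` (`scomp`).  Call `m z` a record if `m z' ≤ m z` for all `z'` in the domain with a smaller
number in the enumeration of `L`.  If `m` is unbounded the successors of the records form a club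
without limit ordinals. -/
theorem bdd (h : Cl α R) (hC : C ∈ R) {L : On} (hL : L < α) :
    ∃ b < α, ∀ z < L, (∃ w, pr z w ∈ C) → ∃ w < b, pr z w ∈ C := by
  by_contra hn
  have hn' : ∀ b < α, ∃ z < L, (∃ w, pr z w ∈ C) ∧ ∀ w < b, pr z w ∉ C := by
    intro b hb
    by_contra k
    refine hn ⟨b, hb, fun z hz e => ?_⟩
    by_contra k'
    exact k ⟨z, hz, e, fun w hw m => k' ⟨w, hw, m⟩⟩
  obtain ⟨E, hE, hE1, hE2⟩ := h.enum L hL
  have hB := h.scomp (fun C _ _ _ z _ w => pr z w ∈ C) inferInstance C hC C hC C hC 0 h.pos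
  generalize hBe : {z | z < α ∧ ∃ w < α, ∃ C' ∈ R, pr z w ∈ C} = B at hB
  have hB' : ∀ z, z ∈ B ↔ ∃ w, pr z w ∈ C := fun z => by
    rw [← hBe]
    exact ⟨fun ⟨_, w, _, _, _, k⟩ => ⟨w, k⟩, fun ⟨w, k⟩ => ⟨(left_lt_pr z w).trans (h.sub C hC k),
      w, (right_lt_pr z w).trans (h.sub C hC k), C, hC, k⟩⟩
  have hex : ∀ n : ℕ, ∃ y < α, clA_P C E B L y n := by
    intro n
    induction n with
    | zero => exact ⟨0, h.pos, fun k hk => absurd hk (Nat.not_lt_zero k)⟩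
    | succ n ih =>
      obtain ⟨y, hy, hP⟩ := ih
      by_cases e : ∃ z, pr z n ∈ E ∧ z ∈ B
      · obtain ⟨z, hz, hzB⟩ := e
        obtain ⟨w, hw⟩ := (hB' z).1 hzB
        have hwα : w + 1 < α := h.nice.succ_mem ((right_lt_pr z w).trans (h.sub C hC hw))
        refine ⟨max y (w + 1), max_lt hy hwα, fun k hk z' h1 h2 h3 => ?_⟩
        rcases (Nat.lt_succ_iff.1 hk).lt_or_eq with e | rfl
        · obtain ⟨u, a1, a2⟩ := hP k e z' h1 h2 h3
          exact ⟨u, a1.trans_le (le_max_left _ _), a2⟩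
        · rw [hE2 _ _ _ h2 hz]
          exact ⟨w, (lt_add_one w).trans_le (le_max_right _ _), hw⟩
      · refine ⟨y, hy, fun k hk z' h1 h2 h3 => ?_⟩
        rcases (Nat.lt_succ_iff.1 hk).lt_or_eq with e' | rfl
        · exact hP k e' z' h1 h2 h3
        · exact absurd ⟨z', h2, h3⟩ e
  let g : ℕ → On := fun n => sInf {y | clA_P C E B L y n}
  have g1 : ∀ n, clA_P C E B L (g n) n := fun n =>
    csInf_mem (s := {y | clA_P C E B L y n}) ((hex n).imp fun _ k => k.2)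
  have g2 : ∀ n y, clA_P C E B L y n → g n ≤ y := fun n y k => csInf_le' k
  have g3 : ∀ n, g n < α := fun n => let ⟨y, a1, a2⟩ := hex n; (g2 n y a2).trans_lt a1
  have g4 : ∀ n m, n ≤ m → g n ≤ g m := fun n m k =>
    g2 n _ fun j hj => g1 m j (hj.trans_le k)
  have g5 : ∀ b < α, ∃ n, b ≤ g n := fun b hb => by
    obtain ⟨z, hz, a1, a2⟩ := hn' b hb
    obtain ⟨n, a3⟩ := hE1 z hz
    obtain ⟨u, a4, a5⟩ := g1 (n + 1) n (Nat.lt_succ_self n) z hz a3 ((hB' z).2 a1)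
    exact ⟨n + 1, (not_lt.1 fun k => a2 u k a5).trans a4.le⟩
  have hK := h.comp (fun C E B x L => ∃ y, y < x ∧ x = y + 1 ∧ ∃ n : ℕ, clA_P C E B L y n ∧
    ∀ y', y' < y → ¬ clA_P C E B L y' n) hC hE hB hL
  generalize hKe : {x | x < α ∧ ∃ y, y < x ∧ x = y + 1 ∧ ∃ n : ℕ, clA_P C E B L y n ∧
    ∀ y', y' < y → ¬ clA_P C E B L y' n} = K at hK
  have hK' : ∀ x, x ∈ K ↔ ∃ n, x = g n + 1 := fun x => by
    rw [← hKe]
    constructor
    · rintro ⟨-, y, -, rfl, n, a1, a2⟩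
      exact ⟨n, by rw [le_antisymm (not_lt.1 fun k => a2 _ k (g1 n)) (g2 n y a1)]⟩
    · rintro ⟨n, rfl⟩
      exact ⟨h.nice.succ_mem (g3 n), g n, lt_add_one _, rfl, n, g1 n,
        fun y' k k' => k.not_ge (g2 n y' k')⟩
  suffices hc : Clb (Iio α) K by
    obtain ⟨δ, hδ, hl⟩ := h.lim K hK hc
    obtain ⟨n, rfl⟩ := (hK' δ).1 hδ
    exact lt_irrefl _ (hl.add_one_lt (lt_add_one (g n)))
  refine ⟨h.sub K hK, fun x hx => ?_, fun γ hγ h0 hl => ?_⟩
  · obtain ⟨n, k⟩ := g5 x hx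
    exact ⟨_, (hK' _).2 ⟨n, rfl⟩, k.trans_lt (lt_add_one _)⟩
  · exfalso
    obtain ⟨N, hN⟩ := g5 γ hγ
    have hs : ((Finset.range N).filter fun n => g n + 1 < γ).sup (fun n => g n + 1) < γ :=
      (Finset.sup_lt_iff h0).2 fun n k => (Finset.mem_filter.1 k).2
    obtain ⟨y, a1, a2, a3⟩ := hl _ hs
    obtain ⟨n, rfl⟩ := (hK' y).1 a1
    refine a2.not_ge (Finset.le_sup (f := fun n => g n + 1)
      (Finset.mem_filter.2 ⟨Finset.mem_range.2 (not_le.1 fun k => ?_), a3⟩))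
    exact ((lt_add_one _).trans a3).not_ge (hN.trans (g4 N n k))

/-- Below `w` the table `T` is a rank function on a downward closed set. -/
def clbGood (C T : Set On) (L w : On) : Prop :=
  ∀ t, t < L → ∀ ρ, ρ < w → pr t ρ ∈ T →
    (∀ s, s < L → pr s t ∈ C → ∃ σ, σ < ρ ∧ pr s σ ∈ T) ∧
      ∀ x, x < ρ → ∃ s, s < L ∧ (pr s t ∈ C ∧ ∃ σ, σ < ρ ∧ (pr s σ ∈ T ∧ x ≤ σ))

set_option synthInstance.maxSize 1024 in
theorem clb_md : MD4 fun X _ _ T z a w => clbGood X T a w ∧ p2 z < w ∧ z ∈ T := by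
  unfold MD4 clbGood
  infer_instance

theorem clb_uniq {G : Set On} {L : On} (hG : ∀ w, clbGood C G L w) (ρ : On) :
    ∀ t < L, ∀ ρ', pr t ρ ∈ G → pr t ρ' ∈ G → ρ = ρ' := by
  induction ρ using WellFoundedLT.induction with
  | _ ρ ih =>
    intro t ht ρ' h1 h2
    have a1 := hG _ t ht ρ (lt_add_one ρ) h1
    have a2 := hG _ t ht ρ' (lt_add_one ρ') h2
    rcases lt_trichotomy ρ ρ' with k | k | k
    · obtain ⟨s, hs, hst, σ', -, h3, h4⟩ := a2.2 ρ k
      obtain ⟨σ, h5, h6⟩ := a1.1 s hs hst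
      exact absurd (ih σ h5 s hs σ' h6 h3 ▸ h5) (not_lt.2 h4)
    · exact k
    · obtain ⟨s, hs, hst, σ, h5, h3, h4⟩ := a1.2 ρ' k
      obtain ⟨σ', h7, h6⟩ := a2.1 s hs hst
      exact absurd (ih σ h5 s hs σ' h3 h6 ▸ h4) (not_le.2 h7)

/-- The union of all good tables. -/
theorem clb_table (h : Cl α R) (hC : C ∈ R) {L : On} (hL : L < α) :
    ∃ G ∈ R, (∀ w, clbGood C G L w) ∧
      ∀ T ∈ R, ∀ w < α, clbGood C T L w → ∀ t ρ, ρ < w → pr t ρ ∈ T → pr t ρ ∈ G := by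
  refine ⟨_, h.scomp _ clb_md C hC C hC C hC L hL, ?_, ?_⟩
  · rintro - t ht ρ - ⟨-, w, hw, T, hT, h1, h2, h3⟩
    rw [p2_pr] at h2
    have k : ∀ s σ, σ < ρ → pr s σ ∈ T → pr s σ ∈ {z | z < α ∧ ∃ w < α, ∃ T ∈ R,
        clbGood C T L w ∧ p2 z < w ∧ z ∈ T} := fun s σ a b =>
      ⟨h.sub T hT b, w, hw, T, hT, h1, by rw [p2_pr]; exact a.trans h2, b⟩
    obtain ⟨h4, h5⟩ := h1 t ht ρ h2 h3
    refine ⟨fun s hs hst => ?_, fun x hx => ?_⟩
    · obtain ⟨σ, a, b⟩ := h4 s hs hst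
      exact ⟨σ, a, k s σ a b⟩
    · obtain ⟨s, hs, hst, σ, a, b, c⟩ := h5 x hx
      exact ⟨s, hs, hst, σ, a, k s σ a b, c⟩
  · intro T hT w hw h1 t ρ h2 h3
    exact ⟨h.sub T hT h3, w, hw, T, hT, h1, by rwa [p2_pr], h3⟩

/-- A relation has a rank function or a subset without minimal element.  Hint: let `Rk t ρ` say
that some table in `R` is a rank function on a downward closed set that contains `t` and has the
value `ρ` at `t`; use `scomp` for `{pr t ρ | Rk t ρ}`, take for `Z` the complement of the domain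
and use `bdd`. -/
theorem rank (h : Cl α R) (hC : C ∈ R) {L : On} (hL : L < α) :
    (∃ Z ∈ R, (∃ t < L, t ∈ Z) ∧ ∀ t < L, t ∈ Z → ∃ s < L, s ∈ Z ∧ pr s t ∈ C) ∨
    ∃ (rk : On → On) (b : On), b < α ∧ L ≤ b ∧ tabF rk b ∈ R ∧ (∀ t, rk t < b) ∧
      ∀ t x, x < rk t ↔ t < L ∧ ∃ s < L, pr s t ∈ C ∧ x ≤ rk s := by
  obtain ⟨G, hG, hg, hmax⟩ := clb_table h hC hL
  obtain ⟨b, hb, hbd⟩ := h.bdd hG hL
  have hn := h.nice
  by_cases hZ : ∀ t < L, ∃ ρ < b, pr t ρ ∈ G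
  · right
    choose! f hf1 hf2 using hZ
    have hb' : max b L + 1 < α := hn.succ_mem (max_lt hb hL)
    have hlt : ∀ t, (if t < L then f t else 0) < max b L + 1 := fun t => by
      split_ifs with ht
      · exact ((hf1 t ht).trans_le (le_max_left _ _)).trans (lt_add_one _)
      · exact zero_le.trans_lt (lt_add_one _)
    refine ⟨fun t => if t < L then f t else 0, max b L + 1, hb',
      (le_max_right _ _).trans (lt_add_one _).le, ?_, hlt, fun t x => ?_⟩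
    · have h1 := h.comp (fun X _ _ z a => p1 z < p1 a ∧ z = pr (p1 z) (p2 z) ∧
        ((p1 z < p2 a ∧ z ∈ X) ∨ (p2 a ≤ p1 z ∧ p2 z = 0))) hG hG hG (hn.pr_mem hb' hL)
      simp only [p1_pr, p2_pr] at h1
      convert h1 using 1
      ext z
      constructor
      · rintro ⟨a, h2, h3, rfl⟩
        refine ⟨hn.pr_mem (h2.trans hb') (h3.trans hb'), ?_⟩
        simp only [p1_pr, p2_pr]
        refine ⟨h2, trivial, ?_⟩
        split_ifs with ha
        · exact Or.inl ⟨ha, hf2 a ha⟩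
        · exact Or.inr ⟨not_lt.1 ha, rfl⟩
      · rintro ⟨-, h2, h3, h4⟩
        refine ⟨p1 z, h2, hlt _, h3.trans ?_⟩
        rcases h4 with ⟨h5, h6⟩ | ⟨h5, h6⟩
        · simp only [if_pos h5]
          rw [h3] at h6
          rw [clb_uniq hg _ _ h5 _ h6 (hf2 _ h5)]
        · simp only [if_neg (not_lt.2 h5)]
          rw [h6]
    · constructor
      · intro hx
        by_cases ht : t < L
        · simp only [if_pos ht] at hx
          obtain ⟨s, hs, hst, σ, -, h1, h2⟩ := (hg _ t ht _ (lt_add_one _) (hf2 t ht)).2 x hx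
          refine ⟨ht, s, hs, hst, ?_⟩
          simp only [if_pos hs]
          rwa [← clb_uniq hg _ _ hs _ h1 (hf2 _ hs)]
        · simp only [if_neg ht] at hx
          exact absurd hx not_lt_zero
      · rintro ⟨ht, s, hs, hst, hx⟩
        simp only [if_pos hs] at hx
        simp only [if_pos ht]
        obtain ⟨σ, h1, h2⟩ := (hg _ t ht _ (lt_add_one _) (hf2 t ht)).1 s hs hst
        rw [clb_uniq hg _ _ hs _ h2 (hf2 _ hs)] at h1
        exact hx.trans_lt h1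
  · left
    refine ⟨_, h.comp (fun X _ _ z a => ∀ ρ, ρ < a → pr z ρ ∉ X) hG hG hG hb, ?_, ?_⟩
    · push Not at hZ
      obtain ⟨t, ht, h1⟩ := hZ
      exact ⟨t, ht, ht.trans hL, h1⟩
    · rintro t ht ⟨-, h1⟩
      by_contra hc
      have hS : b ∈ {ρ | ∀ s, s < L → pr s t ∈ C → ∃ σ, σ < ρ ∧ pr s σ ∈ G} := by
        intro s hs hst
        by_contra k
        exact hc ⟨s, hs, ⟨hs.trans hL, fun σ a c => k ⟨σ, a, c⟩⟩, hst⟩
      obtain ⟨ρ, hρ, hmin⟩ : ∃ ρ, ρ ∈ {ρ | ∀ s, s < L → pr s t ∈ C → ∃ σ, σ < ρ ∧ pr s σ ∈ G} ∧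
          ∀ x ∈ {ρ | ∀ s, s < L → pr s t ∈ C → ∃ σ, σ < ρ ∧ pr s σ ∈ G}, ρ ≤ x :=
        ⟨_, csInf_mem ⟨b, hS⟩, fun x hx => csInf_le' hx⟩
      have hρα : ρ < α := (hmin b hS).trans_lt hb
      have hp : pr t ρ < α := hn.pr_mem (ht.trans hL) hρα
      have hT := h.comp (fun X _ _ z a => z ∈ X ∨ z = a) hG hG hG hp
      have k : ∀ z ∈ G, z ∈ {z | z < α ∧ (z ∈ G ∨ z = pr t ρ)} := fun z hz =>
        ⟨h.sub G hG hz, Or.inl hz⟩
      have hgood : clbGood C {z | z < α ∧ (z ∈ G ∨ z = pr t ρ)} L (ρ + 1) := by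
        rintro t' ht' ρ' hρ' ⟨-, h2 | h2⟩
        · obtain ⟨h4, h5⟩ := hg _ t' ht' ρ' hρ' h2
          refine ⟨fun s hs hst => ?_, fun x hx => ?_⟩
          · obtain ⟨σ, a, c⟩ := h4 s hs hst
            exact ⟨σ, a, k _ c⟩
          · obtain ⟨s, hs, hst, σ, a, c, e⟩ := h5 x hx
            exact ⟨s, hs, hst, σ, a, k _ c, e⟩
        · obtain ⟨rfl, rfl⟩ := pr_inj.1 h2
          refine ⟨fun s hs hst => ?_, fun x hx => ?_⟩
          · obtain ⟨σ, a, c⟩ := hρ s hs hst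
            exact ⟨σ, a, k _ c⟩
          · by_contra hx2
            refine absurd (hmin x fun s hs hst => ?_) (not_le.2 hx)
            obtain ⟨σ, a, c⟩ := hρ s hs hst
            refine ⟨σ, not_le.1 fun e => hx2 ⟨s, hs, hst, σ, a, k _ c, e⟩, c⟩
      obtain ⟨w, hw, h3⟩ := hbd t ht ⟨ρ, hmax _ hT _ (hn.succ_mem hρα) hgood t ρ (lt_add_one ρ)
        ⟨hp, Or.inr rfl⟩⟩
      exact h1 w hw h3

theorem clC_lt {A I : Set On} {l j : On} (hc : Cert A (Iio l) j I) : j < l := by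
  obtain ⟨ι, k, -⟩ := hc.unb 0 hc.nice.zero_mem
  exact (hc.ge ι k).trans_lt (hc.sub k)

/-- One more extension.  Hint: `rank` for the table of `TokLt (TS A) I l e` below `nn l`,
`omega_ext`, and `comp` for the new set of indiscernibles. -/
theorem cert_step (h : Cl α R) {A I : Set On} {l e j : On} (hA : A ∈ R) (hI : I ∈ R)
    (h1 : A ⊆ Iio e) (h2 : e ≤ j) (hl : l < α) (hc : Cert A (Iio l) j I)
    (hr : ∀ Z ∈ R, ∀ L < α, (∃ t < L, t ∈ Z) →
      ¬ ∀ t < L, t ∈ Z → ∃ s < L, s ∈ Z ∧ TokLt (TS A) I l e s t) :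
    ∃ l' < α, ∃ I' ∈ R, l < l' ∧ Cert A (Iio l') j I' ∧ I ⊆ I' := by
  have hn := h.nice
  have he : e < α := (h2.trans_lt (clC_lt hc)).trans hl
  have ha : pr l e < α := hn.pr_mem hl he
  have hP := h.ts_mem hA
  have hL : MP_fd3eaf_lc.nn l < α := h.nn l hl
  have hN := (nn_spec l).1
  have hnl : nl l < MP_fd3eaf_lc.nn l := hN.nl_mem (nn_spec l).2.1
  have hT : ∀ c < nl l, c ∈ TS A ∩ Iio α ↔ c ∈ TS A := fun c k =>
    and_iff_left ((k.trans hnl).trans hL)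
  have hpr : ∀ d < nl l, ∀ n : ℕ, pr d n < MP_fd3eaf_lc.nn l := fun d k n =>
    hN.pr_mem (k.trans hnl) (hN.nat_mem n)
  have hC := h.comp (fun X Y _ z a => TokLt X Y (p1 a) (p2 a) (p1 z) (p2 z)) hP hI hI ha
  simp only [p1_pr, p2_pr, TokLt.congr hT] at hC
  generalize hCe : {z | z < α ∧ TokLt (TS A) I l e (p1 z) (p2 z)} = C at hC
  have hC' : ∀ s < MP_fd3eaf_lc.nn l, ∀ t < MP_fd3eaf_lc.nn l,
      pr s t ∈ C ↔ TokLt (TS A) I l e s t := fun s hs t ht => by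
    rw [← hCe, mem_ofPred_eq, p1_pr, p2_pr]
    exact and_iff_right (hn.pr_mem (hs.trans hL) (ht.trans hL))
  rcases h.rank hC hL with ⟨Z, hZ, k1, k2⟩ | ⟨rk, b, hb, hLb, hB, hlt, hrk⟩
  · refine absurd (fun t ht m => ?_) (hr Z hZ _ hL k1)
    obtain ⟨s, a1, a2, a3⟩ := k2 t ht m
    exact ⟨s, a1, a2, (hC' s a1 t ht).1 a3⟩
  obtain ⟨l', I', a1, a2, a3, a4⟩ := omega_ext hc h1 h2 rk fun t x => by
    rw [hrk]
    refine ⟨fun ⟨ht, s, hs, m1, m2⟩ => ⟨s, (hC' s hs t ht).1 m1, m2⟩, fun ⟨s, m1, m2⟩ => ?_⟩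
    have m3 := m1
    obtain ⟨d, hd, n, d', hd', n', e1, e2, -⟩ := m3
    have hs := e1 ▸ hpr d hd n
    have ht := e2 ▸ hpr d' hd' n'
    exact ⟨ht, s, hs, (hC' s hs t ht).2 m1, m2⟩
  have hl' : l' < α := by
    refine lt_of_le_of_lt (le_of_forall_lt fun x hx => ?_) hb
    obtain ⟨d, n, -, rfl⟩ := a3 x hx
    exact hlt _
  refine ⟨l', hl', I', ?_, a1, a2, fun x hx => (a4 x).2 (Or.inl hx)⟩
  have hI' := h.comp (fun X Y B z a => z ∈ Y ∨ ∃ d, d < nl (p1 a) ∧ ∃ n : ℕ,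
    Tok Y (p1 a) (p2 a) d (n + 1) ∧ fo X d = lv (par d) n ∧ pr (pr d (n + 1 : ℕ)) z ∈ B)
    hP hI hB ha
  simp only [p1_pr, p2_pr] at hI'
  convert hI' using 1
  ext x
  rw [mem_ofPred_eq, and_iff_right_of_imp, a4]
  · refine or_congr_right (exists_congr fun d => and_congr_right fun hd =>
      exists_congr fun n => and_congr_right fun _ => and_congr ?_ ?_)
    · rw [fo_congr (B := TS A) fun c k => hT c (k.trans hd), fo_TS]
    · constructor
      · rintro rfl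
        exact ⟨_, (hpr d hd _).trans_le hLb, hlt _, rfl⟩
      · rintro ⟨t, -, -, k⟩
        obtain ⟨rfl, rfl⟩ := pr_inj.1 k
        rfl
  · rintro (k | ⟨d, -, n, -, -, k⟩)
    · exact h.sub I hI k
    · exact (right_lt_pr _ _).trans (h.sub _ hB k)

theorem clC_md : MD4 fun X Y _ C z a w =>
    CertT X (C ∩ Iio w) w (p1 (p2 a)) (p2 (p2 a)) ∧
      (∀ x, x < p1 a → x ∈ Y → x ∈ C ∩ Iio w) ∧ z ∈ C ∩ Iio w := by
  unfold MD4
  infer_instance

/-- An unrefuted certificate extends to `α`.  Hint: the union of all extensions in `R` is in `R`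
by `scomp` (`IsT`, `certT_iff`, `ts_mem`) and is a certificate (`Cert.iUnion`). -/
theorem cert_club (h : Cl α R) {A I : Set On} {l e j : On} (hA : A ∈ R) (hI : I ∈ R)
    (h1 : A ⊆ Iio e) (h2 : e ≤ j) (hl : l < α) (hc : Cert A (Iio l) j I)
    (hr : ∀ l' < α, ∀ I' ∈ R, Cert A (Iio l') j I' → I ⊆ I' → ∀ Z ∈ R, ∀ L < α,
      (∃ t < L, t ∈ Z) → ¬ ∀ t < L, t ∈ Z → ∃ s < L, s ∈ Z ∧ TokLt (TS A) I' l' e s t) :
    ∃ I' ∈ R, Cert A (Iio α) j I' ∧ I ⊆ I' := by
  have hn := h.nice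
  have hj : j < α := (clC_lt hc).trans hl
  have ha : pr l (pr e j) < α := hn.pr_mem hl (hn.pr_mem (h2.trans_lt hj) hj)
  have hU := h.scomp _ clC_md _ (h.ts_mem hA) I hI I hI _ ha
  simp only [p1_pr, p2_pr] at hU
  have hA' : A ∩ Iio e = A := inter_eq_left.2 h1
  have hT : ∀ w < α, ∀ c < nl w, c ∈ TS A ∩ Iio α ↔ T A c := fun w hw c k =>
    and_iff_left (k.trans (hn.nl_mem hw))
  let S : Type 1 := {p : On × Set On // p.1 < α ∧ p.2 ∈ R ∧ Cert A (Iio p.1) j p.2 ∧ I ⊆ p.2}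
  let p0 : S := ⟨(l, I), hl, hI, hc, subset_rfl⟩
  have : Nonempty S := ⟨p0⟩
  have hV : (⋃ p : S, p.1.2) ∈ R := by
    convert hU using 1
    ext z
    rw [mem_iUnion, mem_ofPred_eq]
    constructor
    · rintro ⟨⟨⟨w, C⟩, k1, k2, k3, k4⟩, k5⟩
      have k6 : C ∩ Iio w = C := inter_eq_left.2 k3.sub
      refine ⟨h.sub C k2 k5, w, k1, C, k2, ?_⟩
      rw [k6, certT_iff (hT w k1) k3.sub, hA']
      exact ⟨⟨h2, k3⟩, fun x _ m => k4 m, k5⟩
    · rintro ⟨-, w, k1, C, k2, k3, k4, k5⟩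
      rw [certT_iff (hT w k1) inter_subset_right, hA'] at k3
      exact ⟨⟨(w, C ∩ Iio w), k1, h.inter_Iio k2 w, k3.2, fun x m => k4 x (hc.sub m) m⟩, k5⟩
  have hW := hc.iUnion (Ls := fun p : S => Iio p.1.1) (Is := fun p : S => p.1.2)
    (fun p => p.2.2.2.1) fun p => p.2.2.2.2
  have hs : I ⊆ ⋃ p : S, p.1.2 := subset_iUnion (fun p : S => p.1.2) p0
  refine ⟨_, hV, ?_, hs⟩
  convert hW using 1
  refine (Set.ext fun x => ⟨fun k => ?_, fun hx => ?_⟩).symm
  · obtain ⟨p, k⟩ := mem_iUnion.1 k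
    exact lt_trans k p.2.1
  by_contra hx'
  have b1 := csInf_mem (s := {y | y ∉ ⋃ p : S, Iio p.1.1}) ⟨x, hx'⟩
  have b2 := csInf_le' (s := {y | y ∉ ⋃ p : S, Iio p.1.1}) hx'
  have b3 : ∀ y < sInf {y | y ∉ ⋃ p : S, Iio p.1.1}, y ∈ ⋃ p : S, Iio p.1.1 := fun y k =>
    not_not.1 fun m => k.not_ge (csInf_le' m)
  generalize sInf {y | y ∉ ⋃ p : S, Iio p.1.1} = β at b1 b2 b3
  have b4 : (⋃ p : S, Iio p.1.1) = Iio β :=
    Set.ext fun y => ⟨fun k => not_le.1 fun m => b1 (hW.nice.lower m k), b3 y⟩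
  have b5 : β < α := b2.trans_lt hx
  have hW' := b4 ▸ hW
  obtain ⟨l', c1, I', c2, c3, c4, c5⟩ := h.cert_step hA hV h1 h2 b5 hW' (hr β b5 _ hV hW' hs)
  exact b1 (mem_iUnion.2 ⟨⟨(l', I'), c1, c2, c4, hs.trans c5⟩, c3⟩)

end Cl

/-- A certificate with an extension that meets the true indiscernibles cofinally is correct. -/
theorem sh_of_cert {A I I' I₀ : Set On} {l α j : On} (h : Cert A (Iio l) j I)
    (h' : Cert A (Iio α) j I') (hI : I ⊆ I') (h1 : Clb univ I₀) (h2 : Ind A univ I₀)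
    (h3 : ∀ γ < α, ∃ δ ∈ I', δ ∈ I₀ ∧ γ < δ) {k : ℕ} {q : List On} {ι : ℕ → On}
    (hι : Inc I q ι) : Sh A k q ↔ Sat A (Iio l) k (app q ι) := by
  have t1 := h.tv_ext h'.toInd hI
  have t2 := (h2.restrict (γ := α) h'.nice.zero_mem fun x hx =>
    let ⟨δ, a1, a2, a3⟩ := h3 x hx; ⟨δ, a2, a3, h'.sub a1⟩).1
  have hJ := h'.toInd.mono (I' := I' ∩ I₀) inter_subset_left fun x hx =>
    let ⟨δ, a1, a2, a3⟩ := h3 x hx; ⟨δ, ⟨a1, a2⟩, a3⟩
  obtain ⟨ι', k'⟩ := hJ.exists_inc (q := q) fun a ha =>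
    lt_trans (hι.lt a ha) (h'.sub (hI (hι.mem 0)))
  have i1 : Inc I' q ι := ⟨hι.mono, fun n => hI (hι.mem n), hι.lt⟩
  have i2 : Inc I' q ι' := ⟨k'.mono, fun n => (k'.mem n).1, k'.lt⟩
  have i3 : Inc I₀ q ι' := ⟨k'.mono, fun n => (k'.mem n).2, k'.lt⟩
  rw [sh_iff h1 h2 i3, t1.sat h'.nice h.nice.lower (Ind.inda_mem h.nice.lower h.sub hι),
    ← t2.sat nice_univ h'.nice.lower (Ind.inda_mem h'.nice.lower h'.sub i2)]
  exact ⟨h'.ind k q _ _ i2 i1, h'.ind k q _ _ i1 i2⟩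

end Pool.Agent.MP_fd3eaf_lc

end

-- part MP_fd3eaf_lc.Mat
section

/-!
The statement `Psi` in terms of tables.
-/

set_option autoImplicit false

namespace Pool.Agent.MP_fd3eaf_lc

open Set Ordinal

noncomputable def hT (B : Set On) (L : On) : Ht := fun η m => fn (sec B η) L m

def rT (B : Set On) : On → ℕ → Prop := fun η i => (i : On) ∈ sec B η

/-- The run that is read off from a table. -/
noncomputable def rnT (B : Set On) (L : On) : Rn :=
  ⟨fun ξ => hT (sec (sec B 0) ξ) L, fun ξ => fn (sec B 1) L ξ, fun ξ => fn (sec B 2) L ξ,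
    hT (sec B 3) L, rT (sec B 4)⟩

/-- The table of the machine at a stage. -/
def pT (B : Set On) (ξ : On) : Set On := sec (sec B 5) ξ

/-- This table is correct, if `X` is the oracle of sharps. -/
def POk (sh : Bool) (x X B : Set On) (L ξ : On) : Prop :=
  IsT (if sh then X else mrk (Zx x (rnT B L).r) ξ ((rnT B L).H ξ)) (pT B ξ) L

def PreT (sh : Bool) (x X B : Set On) (L ξ : On) : Prop :=
  ∀ η < ξ, One (Zx x (rnT B L).r) (rnT B L) (pT B η) η ∧ POk sh x X B L η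

def StT (sh : Bool) (x X B : Set On) (L ξ : On) : Prop :=
  Stage (Zx x (rnT B L).r) (rnT B L) ξ ((rnT B L).H ξ) ((rnT B L).U ξ) ∧ POk sh x X B L ξ

noncomputable def lamT (B : Set On) (L e : On) : On := fn (sec B 2) L e

def indT (B : Set On) (L e : On) : Set On := sec (sec B 3) e ∩ Iio (lamT B L e)

/-- The list of `d` is the list of `c` followed by enough increasing elements of `I`. -/
def AppT (I : Set On) (c d : On) : Prop :=
  (par c).length ≤ (par d).length ∧ fml c ≤ (par d).length ∧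
    (∀ i : ℕ, i < (par c).length → lv (par d) i = lv (par c) i) ∧
    ∀ i : ℕ, (par c).length ≤ i → i < (par d).length → lv (par d) i ∈ I ∧
      ∀ i' : ℕ, (par c).length ≤ i' → i' < i → lv (par d) i' < lv (par d) i

/-- `sec B 0` is computed from certificates. -/
def XOk (B : Set On) (L₀ L₁ : On) : Prop :=
  Nice (Iio L₁) ∧ L₀ < L₁ ∧ IsT (sec B 0) (sec B 1) L₁ ∧
    (∀ e < L₀, CertT (sec B 1) (indT B L₁ e) (lamT B L₁ e) e L₀) ∧
    ∀ c < L₀, c ∈ sec B 0 ↔ ω ≤ c ∧ ∃ d < nl (lamT B L₁ (cut c)),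
      lev d = lamT B L₁ (cut c) ∧ cut d = cut c ∧ fml d = fml c ∧
        AppT (indT B L₁ (cut c)) c d ∧ d ∈ sec B 1

/-- Some certificate has an extension with ill-founded tokens. -/
def Refut (B C : Set On) (L₀ L₁ w : On) : Prop :=
  ∃ e < L₀, ∃ l < w, IsT (sec B 0 ∩ Iio e) (sec C 0) (nl l) ∧
    CertT (sec C 0) (sec C 1 ∩ Iio l) l e L₀ ∧
    (∀ z < L₁, z ∈ indT B L₁ e → z ∈ sec C 1 ∩ Iio l) ∧ (∃ t < w, t ∈ sec C 2) ∧
    ∀ t < w, t ∈ sec C 2 → ∃ s < w, s ∈ sec C 2 ∧ TokLt (sec C 0) (sec C 1 ∩ Iio l) l e s t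

def StepT (sh : Bool) (x B C : Set On) (L ξ w : On) : Prop :=
  ∃ τ < w, Stage (Zx x (rnT B L).r) (rnT B L) ξ (hT (sec C 0) w) τ ∧
    (sh = false → Order.IsSuccLimit ξ → Nice (Iio w) ∧ ∃ s < w,
      IsT (mrk (Zx x (rnT B L).r) ξ (hT (sec C 0) w)) (sec C 1) w ∧
        Fnd (sec C 1) (hT (sec C 0) w) τ ξ s)

def ConT (sh use : Bool) (k : ℕ) (y X B B' : Set On) (a L ξ s₀ : On) : Prop :=
  Loc1 k a (pT B ξ) ((rnT B L).H ξ 0 1) ∧
    (s₀ < L → (∀ s < s₀, ¬ Fnd (pT B ξ) ((rnT B L).H ξ) ((rnT B L).U ξ) ξ s) →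
      (∀ μ < lev ((rnT B L).H ξ 0 1), ¬ OntoP (pT B ξ) s₀ μ (lev ((rnT B L).H ξ 0 1))) ∧
      (use = true → PreT sh y X B' L ((rnT B L).H ξ 0 0) → StT sh y X B' L ((rnT B L).H ξ 0 0) →
        ¬ Fnd (pT B' ((rnT B L).H ξ 0 0)) ((rnT B' L).H ((rnT B L).H ξ 0 0))
          ((rnT B' L).U ((rnT B L).H ξ 0 0)) ((rnT B L).H ξ 0 0) s₀))

/-- The matrix with explicit arguments. -/
def Mat' (sh use : Bool) (k : ℕ) (x y B₀ B₁ B₂ C : Set On) (ξ s₀ L₀ L₁ a w : On) : Prop :=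
  (sh = true → XOk B₀ L₀ L₁) → Nice (Iio L₀) → ξ < L₀ → PreT sh x (sec B₀ 0) B₁ L₀ ξ →
    (sh = true ∧ Refut B₀ C L₀ L₁ w) ∨ (StepT sh x B₁ C L₀ ξ w ∧ (Order.IsSuccLimit ξ →
      StT sh x (sec B₀ 0) B₁ L₀ ξ → ConT sh use k y (sec B₀ 0) B₁ B₂ a L₀ ξ s₀))

/-- The matrix. -/
def Mat (sh use : Bool) (k : ℕ) (x y B C : Set On) (o a w : On) : Prop :=
  Mat' sh use k x y (sec B 0) (sec B 1) (sec B 2) C (lv (par o) 0) (lv (par o) 1) (lv (par o) 2)
    (lv (par o) 3) a w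

section md

variable (x X B C P : Fam (Set On)) [MS x] [MS X] [MS B] [MS C] [MS P] (L L' s t u : Fam On)
  [MT L] [MT L'] [MT s] [MT t] [MT u] (n : Set On → Set On → (ℕ → On) → ℕ) [MN n]

instance MT.ofHT : MT fun A Λ v => hT (B A Λ v) (L A Λ v) (s A Λ v) (n A Λ v) := by
  unfold hT; infer_instance

instance MD.ofRT : MD fun A Λ v => rT (B A Λ v) (s A Λ v) (n A Λ v) := by
  unfold rT; infer_instance

set_option synthInstance.maxSize 1024 in
instance MD.node : MD fun A Λ v =>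
    Node (rT (B A Λ v) (s A Λ v)) (rT (B A Λ v) (t A Λ v)) (n A Λ v) (u A Λ v) := by
  unfold Node; infer_instance

set_option synthInstance.maxSize 1024 in
instance MD.zx : MD fun A Λ v => Zx (x A Λ v) (rT (B A Λ v)) (s A Λ v) (t A Λ v) (n A Λ v) := by
  unfold Zx; infer_instance

set_option synthInstance.maxSize 1024 in
instance MD.isCol : MD fun A Λ v =>
    IsCol (Zx (x A Λ v) (rT (B A Λ v))) (s A Λ v) (hT (C A Λ v) (L A Λ v)) (t A Λ v) := by
  refine MD.congr (P := fun A Λ v =>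
    (∀ η < s A Λ v, ∀ η' < s A Λ v, ∀ m m' : ℕ,
      Zx (x A Λ v) (rT (B A Λ v)) η η' (MP_fd3eaf_lc.mk 0 m m' 0) ↔
        hT (C A Λ v) (L A Λ v) η m < hT (C A Λ v) (L A Λ v) η' m') ∧
    (∀ η < s A Λ v, ∀ m : ℕ, hT (C A Λ v) (L A Λ v) η m < t A Λ v) ∧
    ∀ z < t A Λ v, ∃ η < s A Λ v, ∃ m : ℕ, hT (C A Λ v) (L A Λ v) η m = z)
    fun _ _ _ _ _ => ⟨fun h => ⟨h.1, h.2.1, h.2.2⟩, fun h => ⟨h.1, h.2, h.3⟩⟩

set_option synthInstance.maxSize 1024 in
instance MS.ofMrk : MS fun A Λ v =>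
    mrk (Zx (x A Λ v) (rT (B A Λ v))) (s A Λ v) (hT (C A Λ v) (L A Λ v)) := by
  unfold mrk; infer_instance

set_option synthInstance.maxSize 1024 in
instance MT.ofTrc : MT fun A Λ v => trc (hT (C A Λ v) (L A Λ v)) (s A Λ v) (t A Λ v) := by
  unfold trc; infer_instance

set_option synthInstance.maxSize 1024 in
instance MD.rows : MD fun A Λ v => Rows (s A Λ v) (hT (C A Λ v) (L A Λ v)) := by
  unfold Rows; infer_instance

set_option synthInstance.maxSize 1024 in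
instance MD.fnd : MD fun A Λ v =>
    Fnd (P A Λ v) (hT (C A Λ v) (L A Λ v)) (s A Λ v) (t A Λ v) (u A Λ v) := by
  unfold Fnd Off; infer_instance

set_option synthInstance.maxSize 1024 in
instance MD.lad : MD fun A Λ v => Lad (P A Λ v) (hT (C A Λ v) (L A Λ v)) (s A Λ v) (t A Λ v)
    (hT (B A Λ v) (L' A Λ v) (u A Λ v)) := by
  unfold Lad; infer_instance

set_option synthInstance.maxSize 1024 in
instance MD.stage : MD fun A Λ v => Stage (Zx (x A Λ v) (rnT (B A Λ v) (L A Λ v)).r)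
    (rnT (B A Λ v) (L A Λ v)) (s A Λ v) (hT (C A Λ v) (L' A Λ v)) (t A Λ v) := by
  refine MD.congr (P := fun A Λ v =>
    IsCol (Zx (x A Λ v) (rT (sec (B A Λ v) 4))) (s A Λ v) (hT (C A Λ v) (L' A Λ v)) (t A Λ v) ∧
    Rows (s A Λ v) (hT (C A Λ v) (L' A Λ v)) ∧
    (0 < s A Λ v → s A Λ v ≤ hT (C A Λ v) (L' A Λ v) 0 0) ∧
    (Order.IsSuccLimit (s A Λ v) → Order.IsSuccLimit (hT (C A Λ v) (L' A Λ v) 0 0)) ∧
    ∀ η < s A Λ v, ∀ η' < η, ∀ m : ℕ,
      hT (sec (sec (B A Λ v) 0) η) (L A Λ v) η' m < hT (sec (sec (B A Λ v) 0) η) (L A Λ v) 0 0 →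
        hT (C A Λ v) (L' A Λ v) η' m = hT (sec (sec (B A Λ v) 0) η) (L A Λ v) η' m)
    fun _ _ _ _ _ => ⟨fun h => ⟨h.1, h.2.1, h.2.2.1, h.2.2.2.1, h.2.2.2.2⟩,
      fun h => ⟨h.1, h.2, h.3, h.4, h.5⟩⟩

set_option synthInstance.maxSize 1024 in
instance MD.rcl : MD fun A Λ v => RCl (rnT (B A Λ v) (L A Λ v)) (s A Λ v) := by
  refine MD.congr (P := fun A Λ v => ∀ i : ℕ, rT (sec (B A Λ v) 4) (s A Λ v) i ↔
    (∃ η' < s A Λ v, s A Λ v = η' + 1 ∧
      (i = 0 ∨ ∃ i' : ℕ, i = i' + 1 ∧ rT (sec (B A Λ v) 4) η' i')) ∨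
    (Order.IsSuccLimit (s A Λ v) ∧ i ≠ 0 ∧
      rT (sec (B A Λ v) 4) (hT (sec (B A Λ v) 3) (L A Λ v) (s A Λ v) (oa i)) (ob i)))
    fun _ _ _ _ _ => Iff.rfl

set_option synthInstance.maxSize 1024 in
instance MD.oneT : MD fun A Λ v => One (Zx (x A Λ v) (rnT (B A Λ v) (L A Λ v)).r)
    (rnT (B A Λ v) (L A Λ v)) (P A Λ v) (s A Λ v) := by
  refine MD.congr (P := fun A Λ v =>
    Stage (Zx (x A Λ v) (rnT (B A Λ v) (L A Λ v)).r) (rnT (B A Λ v) (L A Λ v)) (s A Λ v)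
      (hT (sec (sec (B A Λ v) 0) (s A Λ v)) (L A Λ v)) (fn (sec (B A Λ v) 1) (L A Λ v) (s A Λ v)) ∧
    (Order.IsSuccLimit (s A Λ v) → Fnd (P A Λ v) (hT (sec (sec (B A Λ v) 0) (s A Λ v)) (L A Λ v))
      (fn (sec (B A Λ v) 1) (L A Λ v) (s A Λ v)) (s A Λ v)
      (fn (sec (B A Λ v) 2) (L A Λ v) (s A Λ v))) ∧
    (Order.IsSuccLimit (s A Λ v) → ∀ z < fn (sec (B A Λ v) 2) (L A Λ v) (s A Λ v),
      ¬ Fnd (P A Λ v) (hT (sec (sec (B A Λ v) 0) (s A Λ v)) (L A Λ v))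
        (fn (sec (B A Λ v) 1) (L A Λ v) (s A Λ v)) (s A Λ v) z) ∧
    (Order.IsSuccLimit (s A Λ v) →
      Lad (MP_fd3eaf_lc.extP (P A Λ v) (fn (sec (B A Λ v) 2) (L A Λ v) (s A Λ v)))
        (hT (sec (sec (B A Λ v) 0) (s A Λ v)) (L A Λ v))
        (fn (sec (B A Λ v) 1) (L A Λ v) (s A Λ v)) (s A Λ v)
        (hT (sec (B A Λ v) 3) (L A Λ v) (s A Λ v))) ∧
    RCl (rnT (B A Λ v) (L A Λ v)) (s A Λ v))
    fun _ _ _ _ _ => ⟨fun h => ⟨h.1, h.2.1, h.2.2.1, h.2.2.2.1, h.2.2.2.2⟩,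
      fun h => ⟨h.1, h.2, h.3, h.4, h.5⟩⟩

instance MS.ofPT : MS fun A Λ v => pT (B A Λ v) (s A Λ v) := by
  unfold pT; infer_instance

instance MD.pOk (sh : Bool) :
    MD fun A Λ v => POk sh (x A Λ v) (X A Λ v) (B A Λ v) (L A Λ v) (s A Λ v) := by
  show MD fun A Λ v => IsT (if sh then X A Λ v else mrk (Zx (x A Λ v) (rT (sec (B A Λ v) 4)))
    (s A Λ v) (hT (sec (sec (B A Λ v) 0) (s A Λ v)) (L A Λ v))) (pT (B A Λ v) (s A Λ v)) (L A Λ v)
  infer_instance

instance MD.preT (sh : Bool) :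
    MD fun A Λ v => PreT sh (x A Λ v) (X A Λ v) (B A Λ v) (L A Λ v) (s A Λ v) := by
  unfold PreT; infer_instance

instance MD.stT (sh : Bool) :
    MD fun A Λ v => StT sh (x A Λ v) (X A Λ v) (B A Λ v) (L A Λ v) (s A Λ v) := by
  show MD fun A Λ v => Stage (Zx (x A Λ v) (rnT (B A Λ v) (L A Λ v)).r)
    (rnT (B A Λ v) (L A Λ v)) (s A Λ v) (hT (sec (sec (B A Λ v) 0) (s A Λ v)) (L A Λ v))
    (fn (sec (B A Λ v) 1) (L A Λ v) (s A Λ v)) ∧
      POk sh (x A Λ v) (X A Λ v) (B A Λ v) (L A Λ v) (s A Λ v)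
  infer_instance

instance matb_lam : MT fun A Λ v => lamT (B A Λ v) (L A Λ v) (s A Λ v) := by
  unfold lamT; infer_instance

instance matb_ind : MS fun A Λ v => indT (B A Λ v) (L A Λ v) (s A Λ v) := by
  unfold indT; infer_instance

set_option synthInstance.maxSize 1024 in
instance matb_app : MD fun A Λ v => AppT (B A Λ v) (s A Λ v) (t A Λ v) := by
  unfold AppT; infer_instance

instance matb_loc (k : ℕ) : MD fun A Λ v => Loc1 k (s A Λ v) (B A Λ v) (t A Λ v) := by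
  unfold Loc1; infer_instance

instance matb_onto : MD fun A Λ v => OntoP (B A Λ v) (s A Λ v) (t A Λ v) (u A Λ v) := by
  unfold OntoP; infer_instance

set_option synthInstance.maxSize 1024 in
instance MD.xOk : MD fun A Λ v => XOk (B A Λ v) (L A Λ v) (L' A Λ v) := by
  unfold XOk; infer_instance

set_option synthInstance.maxSize 1024 in
instance MD.refut : MD fun A Λ v => Refut (B A Λ v) (C A Λ v) (L A Λ v) (L' A Λ v) (s A Λ v) := by
  unfold Refut; infer_instance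

set_option synthInstance.maxSize 1024 in
instance MD.stepT (sh : Bool) :
    MD fun A Λ v => StepT sh (x A Λ v) (B A Λ v) (C A Λ v) (L A Λ v) (s A Λ v) (t A Λ v) := by
  show MD fun A Λ v => ∃ τ < t A Λ v, Stage (Zx (x A Λ v) (rnT (B A Λ v) (L A Λ v)).r)
    (rnT (B A Λ v) (L A Λ v)) (s A Λ v) (hT (sec (C A Λ v) 0) (t A Λ v)) τ ∧
    (sh = false → Order.IsSuccLimit (s A Λ v) → Nice (Iio (t A Λ v)) ∧ ∃ σ < t A Λ v,
      IsT (mrk (Zx (x A Λ v) (rT (sec (B A Λ v) 4))) (s A Λ v) (hT (sec (C A Λ v) 0) (t A Λ v)))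
        (sec (C A Λ v) 1) (t A Λ v) ∧
        Fnd (sec (C A Λ v) 1) (hT (sec (C A Λ v) 0) (t A Λ v)) τ (s A Λ v) σ)
  infer_instance

theorem matb_H (B : Set On) (L ξ : On) : (rnT B L).H ξ = hT (sec (sec B 0) ξ) L := rfl

theorem matb_U (B : Set On) (L ξ : On) : (rnT B L).U ξ = fn (sec B 1) L ξ := rfl

set_option synthInstance.maxSize 2048 in
instance MD.conT (sh use : Bool) (k : ℕ) : MD fun A Λ v =>
    ConT sh use k (x A Λ v) (X A Λ v) (B A Λ v) (C A Λ v) (u A Λ v) (L A Λ v) (s A Λ v)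
      (t A Λ v) := by
  unfold ConT
  simp only [matb_H, matb_U]
  infer_instance

end md

set_option synthInstance.maxSize 2048 in
theorem md4_mat (sh use : Bool) (k : ℕ) : MD4 (Mat sh use k) := by
  unfold MD4 Mat Mat'
  infer_instance

end Pool.Agent.MP_fd3eaf_lc

end
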