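import Pool.Agent.MP_fd3eaf_lc.Mg.Up_Key
import Pool.Agent.MP_fd3eaf_lc.Up.Refl

-- part MP_fd3eaf_lc.Up.Two
section

/-!
Two-step `Σ^1_3` absoluteness.
-/

set_option autoImplicit false

namespace Pool.Agent.MP_fd3eaf_lc.Up

open Function Set

theorem two_step (hs : ∀ a : ZFSet.{0}, a.IsTransitive → SharpIn univ a) {Q C : Type}
    [CompleteBooleanAlgebra Q] [CompleteBooleanAlgebra C] (k : CompleteLatticeHom Q C) (T : Sch)
    (A : Set ℕ) (x : ℕ → Q) (y : ℕ → C) (hy : ∀ n ∈ A, y n = k (x n)) :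
    k (⨅ (y' : ℕ → Q) (_ : ∀ n ∈ A, y' n = x n), SV T y') ≤ SV T y := by
  classical
  refine le_of_forall_ne fun p0 h1 h2 h3 => ?_
  choose γ0 W hW0 hW' using fun y' : ℕ → Q => exists_post T y'
  set γ : On := ⨆ y', γ0 y'
  have hW : ∀ y', Post T y' γ (W y') := fun y' => (hW0 y').mono (Ordinal.le_iSup γ0 y')
  obtain ⟨ι, hι, key⟩ := key hs T y (γ + Ordinal.omega0)
  have c1 : StrictMono fun n : ℕ => (n : On) := Nat.strictMono_cast
  have c2 : ∀ n : ℕ, (n : On) < γ + Ordinal.omega0 := fun n =>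
    (Ordinal.natCast_lt_omega0 n).trans_le le_add_self
  obtain ⟨c0, h4, h5, η0, h6⟩ := exists_ranked h2 h3 (ι ((0 : ℕ) : On))
  let can : List ℕ → ℕ → On := fun pt i => ι ((pt.getD i 0 : ℕ) : On)
  let D : C → (List ℕ × ℕ × List ℕ × ℕ) ⊕ List ℕ → Unit → Set C := fun p j _ => match j with
    | .inl (l, m, pt, N) => {q | (∀ i ≤ l.length, pt.getD i 0 < N) →
        Ranked T y (ι (N : On)) p l (can pt) →
        Out T y q l (can pt) ∨ Less T y (ι (N : On)) q m p l (can pt)}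
    | .inr l => {q | p ⊓ T.cv y l = ⊥ → ∃ a ∈ T.lits l, q ⊓ lit (y a.1) a.2 = ⊥}
  obtain ⟨F, f1, -, f2, f3, f4⟩ := exists_filter (adj k) (adj_sSup k) (fun _ _ => ⊤)
    (fun _ _ _ h => absurd rfl h) D (by
      rintro p (⟨l, m, pt, N⟩ | l) _ p' a1 a2
      · by_cases a3 : (∀ i ≤ l.length, pt.getD i 0 < N) ∧ Ranked T y (ι (N : On)) p l (can pt)
        swap
        · exact ⟨p', le_rfl, a2, fun a4 a5 => absurd ⟨a4, a5⟩ a3⟩
        obtain ⟨η, a4, a5⟩ := wellFounded_lt.has_min {η | Rk T y (ι (N : On)) η p l (can pt)} a3.2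
        rcases rk_iff.1 a4 with a6 | a6
        · exact ⟨p', le_rfl, a2, fun _ _ => Or.inl (a6.mono a1)⟩
        · obtain ⟨q, a7, a8, η', a9, a10⟩ := a6 m (can pt l.length)
            (hι (c1 (a3.1 _ le_rfl))) p' a1 a2
          rw [update_eq_self] at a10
          exact ⟨q, a7, a8, fun _ _ => Or.inr ⟨η', a10, fun η2 a11 =>
            a9.trans_le (not_lt.1 (a5 η2 a11))⟩⟩
      · by_cases a3 : p ⊓ T.cv y l = ⊥
        swap
        · exact ⟨p', le_rfl, a2, fun a4 => absurd a4 a3⟩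
        by_contra hn
        push Not at hn
        refine a2 (eq_bot_iff.2 (le_trans (le_inf a1 (le_iInf₂ fun a ha => ?_)) a3.le))
        refine le_of_forall_ne fun q a4 a5 a6 => hn q a4 a5 fun _ => ⟨a, ha, a6⟩)
    (by
      rintro p p' (⟨l, m, pt, N⟩ | l) _ a1 q hq
      · exact fun a2 ⟨η, a3⟩ => (hq a2 ⟨η, a3.mono a1⟩).imp_right fun ⟨η', a4, a5⟩ =>
          ⟨η', a4, fun η2 a6 => a5 η2 (a6.mono a1)⟩
      · exact fun a2 => hq (eq_bot_iff.2 ((inf_le_inf_right _ a1).trans a2.le)))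
    c0 (adj k c0) le_rfl
  have f0 : F ⊥ = ⊥ := eq_bot_iff.2 ((f2 ⊥).trans ((adj_le k).2 bot_le))
  have f5 : ∀ q q', q ⊓ q' = ⊥ → F q ⊓ F q' = ⊥ := fun q q' h => by
    by_contra hn
    rcases f3 q q' hn with a | a
    · rw [inf_eq_left.2 a] at h
      exact hn (by rw [h, f0, bot_inf_eq])
    · rw [inf_eq_right.2 a] at h
      exact hn (by rw [h, f0, inf_bot_eq])
  let y' : ℕ → Q := fun n => if n ∈ A then x n else ⨆ (q : C) (_ : q ≤ y n), F q
  have dj : ∀ {a b : C}, a ⊓ b = ⊥ → a ≤ bᶜ := fun h =>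
    le_compl_iff_disjoint_right.2 (disjoint_iff.2 h)
  have l1 : ∀ q n s, q ⊓ lit (y n) s = ⊥ → F q ⊓ lit (y' n) s = ⊥ := fun q n s h => by
    by_cases hn : n ∈ A
    · have : F q ≤ (lit (x n) s)ᶜ := (f2 q).trans ((adj_le k).2 (by
        rw [map_compl', map_lit, ← hy n hn]; exact dj h))
      simp only [y', if_pos hn]
      exact disjoint_iff.1 (le_compl_iff_disjoint_right.1 this)
    · simp only [y', if_neg hn]
      cases s
      · have : F q ≤ ⨆ (q : C) (_ : q ≤ y n), F q :=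
          le_iSup₂_of_le q (by simpa [lit] using dj h) le_rfl
        exact eq_bot_iff.2 ((inf_le_inf_right _ this).trans inf_compl_eq_bot.le)
      · show F q ⊓ ⨆ (q : C) (_ : q ≤ y n), F q = ⊥
        rw [inf_iSup₂_eq]
        exact eq_bot_iff.2 (iSup₂_le fun q' hq => (f5 q q'
          (eq_bot_iff.2 ((inf_le_inf_left _ hq).trans h.le))).le)
  have l2 : ∀ p l, p ⊓ T.cv y l = ⊥ → F p ⊓ T.cv y' l = ⊥ := fun p l h => by
    have := f4 p (.inr l) ()
    rw [inf_top_eq] at this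
    refine eq_bot_iff.2 ((inf_le_inf_right _ this).trans ?_)
    rw [iSup₂_inf_eq]
    refine iSup₂_le fun q hq => ?_
    obtain ⟨a, a1, a2⟩ := hq h
    exact (inf_le_inf (iSup_le fun _ => le_rfl) (iInf₂_le a a1)).trans (l1 q _ _ a2).le
  have main : ∀ η p l ρ, (∀ i < l.length, ρ i < γ) → Rk T y (ι γ) η p l (fun i => ι (ρ i)) →
      F p ⊓ W y' l ρ = ⊥ := by
    intro η
    induction η using WellFoundedLT.induction with
    | _ η ih =>
      intro p l ρ a1 a2
      by_contra hn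
      have a3 : p ≠ ⊥ := fun e => hn (by rw [e, f0, bot_inf_eq])
      have a4 : F p ⊓ W y' l ρ ⊓ ⨆ (m : ℕ) (α : On) (_ : α < γ),
          W y' (m :: l) (update ρ l.length α) ≠ ⊥ := by
        rwa [inf_eq_left.2 (inf_le_right.trans ((hW y').step l ρ))]
      obtain ⟨m, a4⟩ := ne_bot_iSup a4
      obtain ⟨α, a4⟩ := ne_bot_iSup a4
      obtain ⟨hα, a4⟩ := ne_bot_iSup a4
      have a5 : ∀ i < l.length + 1, update ρ l.length α i < γ := fun i hi => by
        rw [update_apply]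
        split_ifs with e
        exacts [hα, a1 i (by omega)]
      obtain ⟨s, pt, N, s1, s2, s3, s4⟩ := exists_pat _ γ _ a5
      have s5 : ∀ i < l.length, s (pt.getD i 0) = ρ i := fun i hi => by
        rw [(s4 i (by omega)).2, update_of_ne hi.ne]
      have s6 : ∀ i ≤ l.length, pt.getD i 0 < N := fun i hi => (s4 i (by omega)).1
      have a6 : Rk T y (ι (s N)) η p l fun i => ι (s (pt.getD i 0)) := by
        rw [s3]
        exact a2.loc fun i hi => by rw [s5 i hi]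
      have a7 := (key s _ s1 c1 s2 c2 (fun i => pt.getD i 0) N p l a3).1
        (fun i hi => s6 i hi.le) ⟨η, a6⟩
      have a8 := f4 p (.inl (l, m, pt, N)) ()
      rw [inf_top_eq] at a8
      have a9 : W y' l ρ ⊓ W y' (m :: l) (update ρ l.length α) ⊓
          ⨆ (q ∈ D p (.inl (l, m, pt, N)) ()) (_ : q ≤ p), F q ≠ ⊥ := fun e =>
        a4 (eq_bot_iff.2 (le_trans (le_inf (inf_le_inf_right _ inf_le_right)
          (inf_le_left.trans (inf_le_left.trans a8))) e.le))
      obtain ⟨q, a9⟩ := ne_bot_iSup a9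
      obtain ⟨hq, a9⟩ := ne_bot_iSup a9
      obtain ⟨-, a9⟩ := ne_bot_iSup a9
      have a10 : q ≠ ⊥ := fun e => a9 (by rw [e, f0, inf_bot_eq])
      rcases hq s6 a7 with (b1 | b1) | b1
      · exact a9 (eq_bot_iff.2 (le_trans (le_inf inf_le_right
          (inf_le_left.trans (inf_le_left.trans ((hW y').le l ρ)))) (l2 q l b1).le))
      · refine b1 (Sch.ok_congr (fun i hi j hj b2 => ?_)
          ((hW y').ok l ρ fun e => a9 (by simp [e])))
        rw [← s5 i hi, ← s5 j hj] at b2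
        exact hι (c1 (s1.lt_iff_lt.1 b2))
      · obtain ⟨η', b2, b3⟩ := (key _ s c1 s1 c2 s2 (fun i => pt.getD i 0) N p l a3).2 q m a10 s6 b1
        rw [s3] at b2
        have := ih η' (b3 η a6) q (m :: l) (update ρ l.length α) a5
          (b2.loc fun i hi => by rw [(s4 i hi).2])
        exact a9 (eq_bot_iff.2 (le_trans (le_inf inf_le_right
          (inf_le_left.trans inf_le_right)) this.le))
  obtain ⟨η, r1⟩ := (key _ (fun n : ℕ => γ + n) c1 (fun a b h => by simpa using h) c2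
    (fun n => by simp) (fun _ => 0) 0 c0 [] h5).1
    (fun i hi => absurd hi (by simp)) ⟨η0, h6.loc fun i hi => absurd hi (by simp)⟩
  have r2 := main η c0 [] 0 (fun i hi => absurd hi (by simp))
    (by simpa using r1.loc (ρ' := fun i => ι ((0 : ℕ → On) i)) fun i hi => absurd hi (by simp))
  refine adj_ne_bot k h5 (eq_bot_iff.2 (le_trans (le_inf f1 ?_) r2.le))
  refine ((adj_le k).2 (h4.trans h1)).trans ((iInf₂_le y' fun n hn => ?_).trans (hW' y'))
  simp only [y', if_pos hn]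

end Pool.Agent.MP_fd3eaf_lc.Up

end

-- part MP_fd3eaf_lc.Up.Abs4
section

/-!
`Σ^1_4` absoluteness over the Levy collapse.
-/

set_option autoImplicit false

namespace Pool.Agent.MP_fd3eaf_lc.Up

open Function Set Cardinal

section
variable {B C : Type} [CompleteBooleanAlgebra B] [CompleteBooleanAlgebra C]

/-- The homomorphism `b ↦ (k b, b)`. -/
def prodHom (k : CompleteLatticeHom B C) : CompleteLatticeHom B (C × B) where
  toFun b := (k b, b)
  map_sInf' S := Prod.ext (by simp [Prod.fst_sInf, image_image]) (by simp [Prod.snd_sInf, image_image])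
  map_sSup' S := Prod.ext (by simp [Prod.fst_sSup, image_image]) (by simp [Prod.snd_sSup, image_image])

theorem SV_prod {T : Sch} {y : ℕ → C × B} {q : C} (h : q ≤ SV T fun n => (y n).1) :
    (q, ⊥) ≤ SV T y := by
  obtain ⟨γ, W, h1, h2⟩ := exists_post T fun n => (y n).1
  have : Post T y γ fun l ρ => (W l ρ, ⊥) := by
    refine ⟨fun l ρ => le_iInf₂ fun a ha => ⟨?_, bot_le⟩,
      fun l ρ e => h1.ok l ρ fun e' => e (by rw [e']; rfl), fun l ρ => ⟨?_, bot_le⟩⟩
    · refine ((h1.le l ρ).trans (iInf₂_le a ha)).trans ?_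
      cases a.2 <;> exact le_rfl
    · simpa only [Prod.fst_iSup] using h1.step l ρ
  exact le_trans (show (q, ⊥) ≤ (W [] 0, (⊥ : B)) from ⟨h.trans h2, le_rfl⟩) this.le_SV

end

theorem val3_abs (h : Target univ) : ∃ (B : Type) (_ : CompleteBooleanAlgebra B), (⊤ : B) ≠ ⊥ ∧
    ∀ (C : Type) [CompleteBooleanAlgebra C] (k : CompleteLatticeHom B C) (T : Sch)
      (A1 A2 : Set ℕ) (r : ℕ → B), k (Val3 T A1 A2 r) = Val3 T A1 A2 fun n => k (r n) := by
  obtain ⟨-, -, hs, κ0, hr⟩ := h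
  have hs' : ∀ a : ZFSet.{0}, a.IsTransitive → SharpIn univ a := fun a => hs a trivial
  obtain ⟨κ, hκ, rfl⟩ := Reflecting.inacc hr
  obtain ⟨B, _, h0, h1, h2⟩ := exists_levy hκ
  refine ⟨B, inferInstance, h0, fun C _ k T A1 A2 r => le_antisymm ?_ ?_⟩
  · rw [Val3, map_iSup₂]
    refine iSup₂_le fun x hx => le_iSup₂_of_le (fun n => k (x n))
      (fun n hn => congrArg k (hx n hn)) (le_iInf₂ fun y hy => two_step hs' k T A2 x y hy)
  refine iSup₂_le fun x hx => le_of_forall_ne fun q a1 a2 a3 => ?_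
  obtain ⟨B0, _, j, b1, b2, b3⟩ := h2 fun n => Nat.casesOn n (adj k q) r
  choose r0 hr0 using b3
  have w : Wit T A1 A2 (fun n => r0 (n + 1)) (r0 0) (C × B) := by
    refine ⟨(prodHom k).comp j, (q, ⊥), fun n => (x n, r n),
      fun a b e => b2 (congrArg Prod.snd e), fun e => a2 (congrArg Prod.fst e), ⟨?_, bot_le⟩,
      fun n hn => Prod.ext ?_ (hr0 (n + 1)).symm, fun y hy => SV_prod ?_⟩
    · show q ≤ k (j (r0 0))
      rw [hr0 0]
      exact le_adj k q
    · show x n = k (j (r0 (n + 1)))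
      rw [hr0 (n + 1), hx n hn]
    · exact a1.trans (iInf₂_le _ fun n hn => congrArg Prod.fst (hy n hn))
  obtain ⟨Q, _, c1, i, q', x', c2, c3, c4, c5, c6⟩ := reflect hκ hr T A1 A2 b1 _ _ w
  obtain ⟨a, d1, d2⟩ := h1 (Set Q) (by rw [mk_set]; exact hκ.isStrongLimit.isStrongPrelimit c1)
  obtain ⟨k', d3, d4⟩ := exists_genhom j b2 i c2 a d1 d2 c3
  have e1 : k' q' ≤ Val3 T A1 A2 r := by
    refine le_iSup₂_of_le (fun n => k' (x' n)) (fun n hn =>
      (congrArg k' (c5 n hn)).trans ((d3 _).trans (hr0 (n + 1))))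
      (le_iInf₂ fun y hy => le_trans (OrderHomClass.mono k' (le_iInf₂ c6)) ?_)
    exact two_step hs' k' T A2 x' y hy
  have e2 : k' q' ≤ (Val3 T A1 A2 r)ᶜ := by
    refine (OrderHomClass.mono k' c4).trans ?_
    rw [d3, hr0 0]
    refine (adj_le k).2 ?_
    rw [map_compl']
    exact le_compl_iff_disjoint_right.2 (disjoint_iff.2 a3)
  exact d4 (eq_bot_iff.2 ((le_inf e1 e2).trans inf_compl_eq_bot.le))

end Pool.Agent.MP_fd3eaf_lc.Up

end
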