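import Pool.Agent.MP_fd3eaf_lc.Up.Tree
import Pool.Agent.MP_fd3eaf_lc.Up.Lh

-- part MP_fd3eaf_lc.Up.Rank
section

/-!
The forcing rank of a node.
-/

set_option autoImplicit false

namespace Pool.Agent.MP_fd3eaf_lc.Up

open Function

variable {C : Type} [CompleteBooleanAlgebra C] (T : Sch) (z : ℕ → C)

/-- `p` forces that the node is not in the tree. -/
def Out (p : C) (l : List ℕ) (ρ : ℕ → On) : Prop := p ⊓ T.cv z l = ⊥ ∨ ¬ T.ok l ρ

/-- `p` forces that the node has rank at most `η` in the tree on `ℕ × γ`. -/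
def Rk (γ : On) (η : On) (p : C) (l : List ℕ) (ρ : ℕ → On) : Prop :=
  Out T z p l ρ ∨ ∀ k : ℕ, ∀ α < γ, ∀ p' ≤ p, p' ≠ ⊥ → ∃ q ≤ p', q ≠ ⊥ ∧ ∃ η', ∃ _ : η' < η,
    Rk γ η' q (k :: l) (update ρ l.length α)
termination_by η

def Ranked (γ : On) (p : C) (l : List ℕ) (ρ : ℕ → On) : Prop := ∃ η, Rk T z γ η p l ρ

/-- The rank of the child `k :: l` below `q` is smaller than the rank of `l` below `p`. -/
def Less (γ : On) (q : C) (k : ℕ) (p : C) (l : List ℕ) (ρ : ℕ → On) : Prop :=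
  ∃ η', Rk T z γ η' q (k :: l) ρ ∧ ∀ η, Rk T z γ η p l ρ → η' < η

variable {T z}

theorem rk_iff {γ η : On} {p : C} {l : List ℕ} {ρ : ℕ → On} : Rk T z γ η p l ρ ↔
    Out T z p l ρ ∨ ∀ k : ℕ, ∀ α < γ, ∀ p' ≤ p, p' ≠ ⊥ → ∃ q ≤ p', q ≠ ⊥ ∧ ∃ η' < η,
      Rk T z γ η' q (k :: l) (update ρ l.length α) := by
  rw [Rk]
  simp only [exists_prop]

theorem Out.mono {p q : C} {l : List ℕ} {ρ : ℕ → On} (h : Out T z p l ρ) (hq : q ≤ p) :
    Out T z q l ρ :=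
  h.imp_left fun e => eq_bot_iff.2 ((inf_le_inf_right _ hq).trans e.le)

theorem Rk.mono {γ η : On} {p q : C} {l : List ℕ} {ρ : ℕ → On} (h : Rk T z γ η p l ρ)
    (hq : q ≤ p) : Rk T z γ η q l ρ := by
  rw [rk_iff] at h ⊢
  exact h.imp (·.mono hq) fun h k α hα p' hp => h k α hα p' (hp.trans hq)

theorem Sch.ok_congr {l : List ℕ} {ρ ρ' : ℕ → On}
    (h : ∀ i < l.length, ∀ j < l.length, ρ i < ρ j → ρ' i < ρ' j) (h' : T.ok l ρ) : T.ok l ρ' :=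
  fun i hi j hj e => h i hi j hj (h' i hi j hj e)

theorem Rk.loc {γ η : On} {p : C} {l : List ℕ} {ρ ρ' : ℕ → On} (h : Rk T z γ η p l ρ)
    (e : ∀ i < l.length, ρ i = ρ' i) : Rk T z γ η p l ρ' := by
  induction η using WellFoundedLT.induction generalizing p l ρ ρ' with
  | _ η ih =>
    rw [rk_iff] at h ⊢
    rcases h with h | h
    · refine Or.inl (h.imp_right fun h1 h2 => h1 (Sch.ok_congr (fun i hi j hj => ?_) h2))
      rw [e i hi, e j hj]; exact id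
    · refine Or.inr fun k α hα p' h1 h2 => ?_
      obtain ⟨q, h3, h4, η', h5, h6⟩ := h k α hα p' h1 h2
      refine ⟨q, h3, h4, η', h5, ih η' h5 h6 fun i hi => ?_⟩
      rw [update_apply, update_apply]
      split_ifs with h7
      · rfl
      · exact e i (by simp at hi; omega)

omit [CompleteBooleanAlgebra C] in
theorem rank_choose (γ : On) (P : ℕ → On → C → On → Prop)
    (h : ∀ k, ∀ α < γ, ∀ p, ∃ η', P k α p η') :
    ∃ g : ℕ × γ.ToType × C → On, (∀ x, ∃ k α p, P k α p (g x)) ∧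
      ∀ k, ∀ α < γ, ∀ p, ∃ x, P k α p (g x) := by
  choose g hg using fun x : ℕ × γ.ToType × C =>
    h x.1 (Ordinal.ToType.mk.symm x.2.1).1 (Ordinal.ToType.mk.symm x.2.1).2 x.2.2
  refine ⟨g, fun x => ⟨_, _, _, hg x⟩, fun k α hα p => ⟨(k, Ordinal.ToType.mk ⟨α, hα⟩, p), ?_⟩⟩
  have := hg (k, Ordinal.ToType.mk ⟨α, hα⟩, p)
  rwa [OrderIso.symm_apply_apply] at this

theorem rank_out {γ : On} {p : C} {l : List ℕ} {ρ : ℕ → On} (h : Out T z p l ρ) (η : On) :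
    Rk T z γ η p l ρ := rk_iff.2 (Or.inl h)

theorem rank_pick {γ : On} {p : C} {l : List ℕ} {ρ : ℕ → On} (hp : p ≠ ⊥)
    (h : p ≤ sSup {q | Ranked T z γ q l ρ}) : ∃ q ≤ p, q ≠ ⊥ ∧ Ranked T z γ q l ρ := by
  rw [sSup_eq_iSup'] at h
  obtain ⟨⟨q, η, hq⟩, h1⟩ := ne_bot_iSup (b := p) (by rwa [inf_eq_left.2 h])
  exact ⟨p ⊓ q, inf_le_left, h1, η, hq.mono inf_le_right⟩

/-- If `p` forces that there is no branch, the root is ranked. -/
theorem exists_ranked {p : C} (hp : p ≠ ⊥) (h : p ⊓ SV T z = ⊥) (γ : On) :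
    ∃ q ≤ p, q ≠ ⊥ ∧ Ranked T z γ q [] 0 := by
  have hW : Post T z γ fun l ρ => (sSup {q | Ranked T z γ q l ρ})ᶜ := by
    refine ⟨fun l ρ => ?_, fun l ρ h1 => ?_, fun l ρ => ?_⟩
    · rw [compl_le_iff_compl_le]
      exact le_sSup ⟨0, rank_out (Or.inl compl_inf_eq_bot) 0⟩
    · by_contra h2
      refine h1 (compl_eq_bot.2 (top_le_iff.1 (le_sSup ⟨0, rank_out (Or.inr h2) 0⟩)))
    · rw [compl_le_iff_compl_le]
      refine le_sSup ?_
      obtain ⟨g, -, hg⟩ := rank_choose γ (fun k α p' η' =>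
        p' ≤ (sSup {q | Ranked T z γ q (k :: l) (update ρ l.length α)}) → p' ≠ ⊥ →
          ∃ q ≤ p', q ≠ ⊥ ∧ Rk T z γ η' q (k :: l) (update ρ l.length α)) fun k α _ p' => by
        by_cases h1 : p' ≤ (sSup {q | Ranked T z γ q (k :: l) (update ρ l.length α)}) ∧ p' ≠ ⊥
        · obtain ⟨q, h2, h3, η', h4⟩ := rank_pick h1.2 h1.1
          exact ⟨η', fun _ _ => ⟨q, h2, h3, h4⟩⟩
        · exact ⟨0, fun h2 h3 => absurd ⟨h2, h3⟩ h1⟩
      refine ⟨⨆ x, g x + 1, rk_iff.2 (Or.inr fun k α hα p' h1 h2 => ?_)⟩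
      obtain ⟨x, hx⟩ := hg k α hα p'
      obtain ⟨q, h3, h4, h5⟩ := hx (h1.trans (compl_le_iff_compl_le.1
        (le_iSup₂_of_le k α (le_iSup_of_le hα le_rfl)))) h2
      exact ⟨q, h3, h4, g x, Ordinal.lt_iSup_add_one g x, h5⟩
  refine rank_pick hp ?_
  rw [← disjoint_compl_right_iff, disjoint_iff, eq_bot_iff, ← h]
  exact inf_le_inf_left _ hW.le_SV

/-- Ranks are small. -/
theorem Rk.small {κ : Cardinal.{0}} (hκ : κ.IsRegular) (h0 : Cardinal.aleph0 < κ)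
    (hC : Cardinal.mk C < κ) {γ η : On} (hγ : γ < κ.ord) {p : C} {l : List ℕ} {ρ : ℕ → On}
    (h : Rk T z γ η p l ρ) : ∃ η' ≤ η, η' < κ.ord ∧ Rk T z γ η' p l ρ := by
  have hz : (0 : On) < κ.ord := zero_le.trans_lt hγ
  induction η using WellFoundedLT.induction generalizing p l ρ with
  | _ η ih =>
    rcases rk_iff.1 h with h | h
    · exact ⟨0, zero_le, hz, rank_out h 0⟩
    obtain ⟨g, hg0, hg⟩ := rank_choose γ (fun k α p' η' => η' < κ.ord ∧ (p' ≤ p → p' ≠ ⊥ →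
        η' < η ∧ ∃ q ≤ p', q ≠ ⊥ ∧ Rk T z γ η' q (k :: l) (update ρ l.length α)))
      fun k α hα p' => by
        by_cases h1 : p' ≤ p ∧ p' ≠ ⊥
        · obtain ⟨q, h2, h3, η', h4, h5⟩ := h k α hα p' h1.1 h1.2
          obtain ⟨η'', h6, h7, h8⟩ := ih η' h4 h5
          exact ⟨η'', h7, fun _ _ => ⟨h6.trans_lt h4, q, h2, h3, h8⟩⟩
        · exact ⟨0, hz, fun h2 h3 => absurd ⟨h2, h3⟩ h1⟩
    have hc : Cardinal.mk (ℕ × γ.ToType × C) < κ := by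
      simp only [Cardinal.mk_prod, Cardinal.lift_id, Cardinal.mk_nat, Cardinal.mk_toType]
      exact Cardinal.mul_lt_of_lt hκ.aleph0_le h0
        (Cardinal.mul_lt_of_lt hκ.aleph0_le (Cardinal.lt_ord.1 hγ) hC)
    have hb : ⨆ x, g x + 1 < κ.ord :=
      Ordinal.iSup_add_one_lt_of_lt_cof (by rwa [hκ.cof_ord]) fun x => by
        obtain ⟨_, _, _, h1⟩ := hg0 x
        exact h1.1
    refine ⟨min η (⨆ x, g x + 1), min_le_left _ _, (min_le_right _ _).trans_lt hb,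
      rk_iff.2 (Or.inr fun k α hα p' h1 h2 => ?_)⟩
    obtain ⟨x, -, hx⟩ := hg k α hα p'
    obtain ⟨h3, q, h4, h5, h6⟩ := hx h1 h2
    exact ⟨q, h4, h5, g x, lt_min h3 (Ordinal.lt_iSup_add_one g x), h6⟩

/-- Finitely many ordinals below `γ` are values of an increasing sequence. -/
theorem exists_pat (ρ : ℕ → On) (γ : On) (n : ℕ) (h : ∀ i < n, ρ i < γ) :
    ∃ (s : ℕ → On) (pt : List ℕ) (N : ℕ), StrictMono s ∧ (∀ i, s i < γ + Ordinal.omega0) ∧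
      s N = γ ∧ ∀ i < n, pt.getD i 0 < N ∧ s (pt.getD i 0) = ρ i := by
  classical
  obtain ⟨F, hF⟩ : ∃ F : Finset On, F = insert γ ((Finset.range n).image ρ) := ⟨_, rfl⟩
  have hle : ∀ x ∈ F, x ≤ γ := by
    intro x hx
    rw [hF, Finset.mem_insert, Finset.mem_image] at hx
    rcases hx with rfl | ⟨i, hi, rfl⟩
    · exact le_rfl
    · exact (h i (Finset.mem_range.1 hi)).le
  obtain ⟨s, hs⟩ : ∃ s : ℕ → On, s = fun i =>
    if hi : i < F.card then F.orderEmbOfFin rfl ⟨i, hi⟩ else γ + (i : On) := ⟨_, rfl⟩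
  have hsur : ∀ x ∈ F, ∃ j, s j = x := by
    intro x hx
    have h1 : x ∈ Set.range (F.orderEmbOfFin rfl) := by
      rw [Finset.range_orderEmbOfFin]; exact hx
    obtain ⟨j, hj⟩ := h1
    exact ⟨j, by rw [hs]; simp only [j.2, dif_pos]; exact hj⟩
  have hmono : StrictMono s := by
    intro i j hij
    rw [hs]
    by_cases hj : j < F.card
    · simp only [hj, hij.trans hj, dif_pos]
      exact (F.orderEmbOfFin rfl).strictMono hij
    · have h2 : γ + (i : On) < γ + (j : On) := add_lt_add_right (by exact_mod_cast hij) γ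
      simp only [hj, dif_neg, not_false_eq_true]
      split_ifs with hi
      · exact ((hle _ (F.orderEmbOfFin_mem rfl _)).trans le_self_add).trans_lt h2
      · exact h2
  obtain ⟨N, hN⟩ := hsur γ (by rw [hF]; exact Finset.mem_insert_self _ _)
  choose! ix hix using hsur
  refine ⟨s, (List.range n).map fun i => ix (ρ i), N, hmono, fun i => ?_, hN, fun i hi => ?_⟩
  · rw [hs]
    have h2 : γ + (i : On) < γ + Ordinal.omega0 := add_lt_add_right (Ordinal.natCast_lt_omega0 i) γ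
    beta_reduce
    split_ifs with hi
    · exact ((hle _ (F.orderEmbOfFin_mem rfl _)).trans le_self_add).trans_lt h2
    · exact h2
  · have h1 : ((List.range n).map fun i => ix (ρ i)).getD i 0 = ix (ρ i) := by
      simp [List.getD_eq_getElem?_getD, hi]
    have h2 := hix (ρ i) (by
      rw [hF]
      exact Finset.mem_insert_of_mem (Finset.mem_image_of_mem _ (Finset.mem_range.2 hi)))
    rw [h1]
    exact ⟨hmono.lt_iff_lt.1 (by rw [h2, hN]; exact h i hi), h2⟩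

end Pool.Agent.MP_fd3eaf_lc.Up

end

-- part MP_fd3eaf_lc.Up.Key
section

/-!
With sharps, the comparison of forcing ranks depends only on the order pattern of indiscernibles.
-/

set_option autoImplicit false

namespace Pool.Agent.MP_fd3eaf_lc.Up

open Pool.Agent.Lib.Forcing ZFSet Function Set

/-- A quadruple. -/
noncomputable def keyT (p l f η : ZFSet.{0}) : ZFSet.{0} :=
  ZFSet.pair p (ZFSet.pair l (ZFSet.pair f η))

/-- The coded form of `Out`. -/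
def keyOut (u : ℕ → ZFSet.{0}) (p l f : ZFSet.{0}) : Prop :=
  ZFSet.pair l p ∈ u 3 ∨ ∃ i, i ∈ u 5 ∧ ∃ j, j ∈ u 5 ∧ ZFSet.pair l (ZFSet.pair i j) ∈ u 4 ∧
    ∃ x, x ∈ u 6 ∧ ∃ y, y ∈ u 6 ∧ ZFSet.pair i x ∈ f ∧ ZFSet.pair j y ∈ f ∧ ¬ x ∈ y

/-- The coded form of the recursion of `Rk`, with a set `g` of earlier quadruples. -/
def keyRule (u : ℕ → ZFSet.{0}) (g p l f η : ZFSet.{0}) : Prop :=
  keyOut u p l f ∨ ∀ l', l' ∈ u 5 → ∀ n, n ∈ u 5 → ZFSet.pair l (ZFSet.pair l' n) ∈ u 2 →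
    ∀ x, x ∈ u 6 → ∀ p', p' ∈ u 0 → ZFSet.pair p' p ∈ u 1 →
      ∃ q, q ∈ u 0 ∧ ZFSet.pair q p' ∈ u 1 ∧ ∃ η', η' ∈ η ∧
        keyT q l' (insert (ZFSet.pair n x) f) η' ∈ g

/-- Certificates. -/
def keyCert (u : ℕ → ZFSet.{0}) (g : ZFSet.{0}) : Prop :=
  ∀ p l f η, keyT p l f η ∈ g → keyRule u g p l f η

/-- The coded form of `Rk` in `M`. -/
def keyRk (M : Set ZFSet.{0}) (u : ℕ → ZFSet.{0}) (p l f η : ZFSet.{0}) : Prop :=
  ∃ g, g ∈ M ∧ keyCert u g ∧ keyT p l f η ∈ g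

/-- The coded form of `Ranked` in `M`. -/
def keyA (M : Set ZFSet.{0}) (u : ℕ → ZFSet.{0}) (p l f : ZFSet.{0}) : Prop :=
  ∃ η, η ∈ M ∧ keyRk M u p l f η

/-- The coded form of `Less` in `M`. -/
def keyB (M : Set ZFSet.{0}) (u : ℕ → ZFSet.{0}) (q l' f' p l f : ZFSet.{0}) : Prop :=
  ∃ η', η' ∈ M ∧ keyRk M u q l' f' η' ∧
    ∀ η, η ∈ M → η.IsOrdinal → keyRk M u p l f η → η' ∈ η

theorem key_pair {M : Set ZFSet.{0}} (hM : Tr M) {x y : ZFSet.{0}} (h : ZFSet.pair x y ∈ M) :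
    x ∈ M ∧ y ∈ M := by
  have h1 : ({x, y} : ZFSet.{0}) ∈ M := hM _ h _ (ZFSet.mem_pair.2 (Or.inr rfl))
  exact ⟨hM _ h1 _ (ZFSet.mem_pair.2 (Or.inl rfl)), hM _ h1 _ (ZFSet.mem_pair.2 (Or.inr rfl))⟩

theorem key_tup {M : Set ZFSet.{0}} (hM : Tr M) {p l f η : ZFSet.{0}} (h : keyT p l f η ∈ M) :
    p ∈ M ∧ l ∈ M ∧ f ∈ M ∧ η ∈ M := by
  obtain ⟨h1, h2⟩ := key_pair hM h
  obtain ⟨h3, h4⟩ := key_pair hM h2
  exact ⟨h1, h3, key_pair hM h4⟩

theorem key_inj {p l f η p' l' f' η' : ZFSet.{0}} (h : keyT p l f η = keyT p' l' f' η') :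
    p = p' ∧ l = l' ∧ f = f' ∧ η = η' := by
  obtain ⟨h1, h2⟩ := ZFSet.pair_inj.1 h
  obtain ⟨h3, h4⟩ := ZFSet.pair_inj.1 h2
  exact ⟨h1, h3, ZFSet.pair_inj.1 h4⟩

instance key_zdT (i j k l m : ℕ) : ZD false fun _ v => keyT (v i) (v j) (v k) (v l) ∈ v m :=
  zd_qm false i j k l m

instance key_zdE (m i j k l : ℕ) : ZD false fun _ v => v m = keyT (v i) (v j) (v k) (v l) :=
  zdc_encEq false [i, j, k, l] id m

instance key_zdI (i n x f : ℕ) :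
    ZD false fun _ v => v i = insert (ZFSet.pair (v n) (v x)) (v f) := by
  refine ZD.congr (P := fun _ v => (∀ a, a ∈ v i → a = ZFSet.pair (v n) (v x) ∨ a ∈ v f) ∧
    ZFSet.pair (v n) (v x) ∈ v i ∧ v f ⊆ v i) fun _ v _ _ => ⟨fun h => ?_, fun h => ?_⟩
  · refine ZFSet.ext fun a => ⟨fun ha => ZFSet.mem_insert_iff.2 (h.1 a ha), fun ha => ?_⟩
    rcases ZFSet.mem_insert_iff.1 ha with rfl | ha
    exacts [h.2.1, h.2.2 ha]
  · rw [h]
    exact ⟨fun a ha => ZFSet.mem_insert_iff.1 ha, ZFSet.mem_insert _ _,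
      fun a ha => ZFSet.mem_insert_of_mem _ ha⟩

instance key_zdJ (q l n x f η g : ℕ) : ZD false fun _ v =>
    keyT (v q) (v l) (insert (ZFSet.pair (v n) (v x)) (v f)) (v η) ∈ v g := by
  refine ZD.congr (P := fun M v => ∃ a, a ∈ M ∧ a = insert (ZFSet.pair (v n) (v x)) (v f) ∧
    keyT (v q) (v l) a (v η) ∈ v g) fun M v hM hv => ⟨?_, fun h => ?_⟩
  · rintro ⟨a, -, rfl, h⟩
    exact h
  · exact ⟨_, (key_tup hM (hM _ (hv g) _ h)).2.2.1, rfl, h⟩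

instance key_zdOut (σ : ℕ → ℕ) (p l f : ℕ) :
    ZD false fun _ v => keyOut (fun i => v (σ i)) (v p) (v l) (v f) := by
  unfold keyOut
  beta_reduce
  infer_instance

instance key_zdRule (σ : ℕ → ℕ) (g p l f η : ℕ) :
    ZD false fun _ v => keyRule (fun i => v (σ i)) (v g) (v p) (v l) (v f) (v η) := by
  unfold keyRule
  beta_reduce
  infer_instance

instance key_zdCert (σ : ℕ → ℕ) (g : ℕ) :
    ZD false fun _ v => keyCert (fun i => v (σ i)) (v g) := by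
  refine ZD.congr (P := fun M v => ∀ p, p ∈ M → ∀ l, l ∈ M → ∀ f, f ∈ M → ∀ η, η ∈ M →
    keyT p l f η ∈ v g → keyRule (fun i => v (σ i)) (v g) p l f η) fun M v hM hv =>
      ⟨fun h p l f η e => ?_, fun h p _ l _ f _ η _ => h p l f η⟩
  obtain ⟨h1, h2, h3, h4⟩ := key_tup hM (hM _ (hv g) _ e)
  exact h p h1 l h2 f h3 η h4 e

instance key_zdRk (σ : ℕ → ℕ) (p l f η : ℕ) :
    ZD false fun M v => keyRk M (fun i => v (σ i)) (v p) (v l) (v f) (v η) := by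
  unfold keyRk
  infer_instance

instance key_zdA (σ : ℕ → ℕ) (p l f : ℕ) :
    ZD false fun M v => keyA M (fun i => v (σ i)) (v p) (v l) (v f) := by
  unfold keyA
  infer_instance

instance key_zdB (σ : ℕ → ℕ) (q l' f' p l f : ℕ) :
    ZD false fun M v => keyB M (fun i => v (σ i)) (v q) (v l') (v f') (v p) (v l) (v f) := by
  unfold keyB
  infer_instance

theorem key_zdG (σ : ℕ → ℕ) (t : ℕ) :
    ZD false fun M v => ∃ g, g ∈ M ∧ keyCert (fun i => v (σ i)) g ∧ v t ∈ g :=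
  inferInstance

theorem key_zdH (σ : ℕ → ℕ) (t g : ℕ) :
    ZD false fun M v => ∃ p, p ∈ M ∧ ∃ l, l ∈ M ∧ ∃ f, f ∈ M ∧ ∃ η, η ∈ M ∧
      v t = keyT p l f η ∧ keyRule (fun i => v (σ i)) (v g) p l f η :=
  inferInstance

theorem key_fex (P : ℕ → Set ZFSet.{0} → (ℕ → ZFSet.{0}) → Prop) (h : ∀ k, ZD false (P k))
    (n : ℕ) : ZD false fun M v => ∃ k < n, P k M v := by
  induction n with
  | zero => exact ZD.congr (P := fun _ v => ¬ v 0 = v 0) fun _ _ _ _ => by simp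
  | succ n ih =>
    have := h n
    exact ZD.congr (P := fun M v => (∃ k < n, P k M v) ∨ P n M v) fun _ _ _ _ =>
      Nat.exists_lt_succ_right.symm

instance key_zdF (i : ℕ) (g h : ℕ → ℕ) (n : ℕ) :
    ZD false fun _ v => v i = fz (fun k => v (g k)) (fun k => v (h k)) n := by
  have h1 := key_fex (fun k _ v => v 0 = ZFSet.pair (v (g k + 1)) (v (h k + 1)))
    (fun k => inferInstance) n
  have h2 := key_fex (fun k _ v => ¬ ZFSet.pair (v (g k)) (v (h k)) ∈ v i)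
    (fun k => inferInstance) n
  have h3 := ZD.ball false i (fun _ v a => ∃ k < n, a = ZFSet.pair (v (g k)) (v (h k))) (h := h1)
  refine ZD.congr (h := ZD.and false _ _ (h1 := h3) (h2 := ZD.not false _ (h := h2)))
    fun _ v _ _ => ⟨fun e => ?_, fun e => ?_⟩
  · refine ZFSet.ext fun a => ⟨fun ha => mem_fz.2 (e.1 a ha), fun ha => ?_⟩
    obtain ⟨k, hk, rfl⟩ := mem_fz.1 ha
    by_contra hn
    exact e.2 ⟨k, hk, hn⟩
  · rw [e]
    exact ⟨fun a ha => mem_fz.1 ha, fun ⟨k, hk, hn⟩ => hn (mem_fz.2 ⟨k, hk, rfl⟩)⟩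

theorem key_mono {u : ℕ → ZFSet.{0}} {g g' p l f η : ZFSet.{0}}
    (e : ∀ p l f η, keyT p l f η ∈ g → keyT p l f η ∈ g') (h : keyRule u g p l f η) :
    keyRule u g' p l f η := by
  refine h.imp_right fun h l' h1 n h2 h3 x h4 p' h5 h6 => ?_
  obtain ⟨q, k1, k2, η', k3, k4⟩ := h l' h1 n h2 h3 x h4 p' h5 h6
  exact ⟨q, k1, k2, η', k3, e _ _ _ _ k4⟩

section
variable {C : Type} [CompleteBooleanAlgebra C]

/-- The parameters. -/
noncomputable def keyU (ε : C → ZFSet.{0}) (T : Sch) (z : ℕ → C) (γ : On) : ℕ → ZFSet.{0}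
  | 0 => rz ε {p | p ≠ ⊥}
  | 1 => rz (fun x : C × C => ZFSet.pair (ε x.1) (ε x.2)) {x | x.1 ≤ x.2}
  | 2 => rz (fun x : ℕ × List ℕ =>
      ZFSet.pair (lz x.2) (ZFSet.pair (lz (x.1 :: x.2)) (nz x.2.length))) univ
  | 3 => rz (fun x : List ℕ × C => ZFSet.pair (lz x.1) (ε x.2)) {x | x.2 ⊓ T.cv z x.1 = ⊥}
  | 4 => rz (fun x : List ℕ × ℕ × ℕ => ZFSet.pair (lz x.1) (ZFSet.pair (nz x.2.1) (nz x.2.2)))
      {x | T.edge x.1 x.2.1 x.2.2}
  | 5 => (Ordinal.omega0 : On).toZFSet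
  | _ + 6 => γ.toZFSet

/-- The code of a finite sequence of ordinals. -/
noncomputable def keyF (ρ : ℕ → On) (n : ℕ) : ZFSet.{0} := fz nz (fun i => (ρ i).toZFSet) n

theorem key_memF {ρ : ℕ → On} {n i : ℕ} {x : ZFSet.{0}} :
    ZFSet.pair (nz i) x ∈ keyF ρ n ↔ i < n ∧ x = (ρ i).toZFSet := by
  refine mem_fz.trans ⟨?_, fun h => ⟨i, h.1, by rw [h.2]⟩⟩
  rintro ⟨k, hk, e⟩
  obtain ⟨e1, e2⟩ := ZFSet.pair_inj.1 e
  rw [nz_inj e1]
  exact ⟨hk, e2⟩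

theorem key_step (ρ : ℕ → On) (n : ℕ) (α : On) :
    keyF (update ρ n α) (n + 1) = insert (ZFSet.pair (nz n) α.toZFSet) (keyF ρ n) := by
  have : keyF (update ρ n α) n = keyF ρ n := ZFSet.ext fun x => by
    simp only [keyF, mem_fz]
    exact exists_congr fun i => and_congr_right fun hi => by rw [update_of_ne hi.ne]
  rw [← this, keyF, fz, update_self]
  rfl

variable {ε : C → ZFSet.{0}} {T : Sch} {z : ℕ → C} {γ : On}

theorem key_m0 {x : ZFSet.{0}} : x ∈ keyU ε T z γ 0 ↔ ∃ p, p ≠ ⊥ ∧ x = ε p := by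
  rw [keyU, mem_rz]
  rfl

theorem key_m2 {x : ZFSet.{0}} : x ∈ keyU ε T z γ 2 ↔ ∃ w : ℕ × List ℕ,
    x = ZFSet.pair (lz w.2) (ZFSet.pair (lz (w.1 :: w.2)) (nz w.2.length)) := by
  rw [keyU, mem_rz]
  simp only [mem_univ, true_and]

theorem key_m3 {x : ZFSet.{0}} : x ∈ keyU ε T z γ 3 ↔ ∃ w : List ℕ × C,
    w.2 ⊓ T.cv z w.1 = ⊥ ∧ x = ZFSet.pair (lz w.1) (ε w.2) := by
  rw [keyU, mem_rz]
  rfl

theorem key_m4 {x : ZFSet.{0}} : x ∈ keyU ε T z γ 4 ↔ ∃ w : List ℕ × ℕ × ℕ,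
    T.edge w.1 w.2.1 w.2.2 ∧ x = ZFSet.pair (lz w.1) (ZFSet.pair (nz w.2.1) (nz w.2.2)) := by
  rw [keyU, mem_rz]
  rfl

theorem key_m5 (n : ℕ) : nz n ∈ keyU ε T z γ 5 := by
  rw [keyU, mem_om]
  exact ⟨n, rfl⟩

theorem key_m6 {x : ZFSet.{0}} : x ∈ keyU ε T z γ 6 ↔ ∃ α < γ, α.toZFSet = x :=
  Ordinal.mem_toZFSet_iff

theorem key_le (hε : Injective ε) {p q : C} :
    ZFSet.pair (ε p) (ε q) ∈ keyU ε T z γ 1 ↔ p ≤ q := by
  rw [keyU, mem_rz]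
  refine ⟨?_, fun h => ⟨(p, q), h, rfl⟩⟩
  rintro ⟨x, hx, e⟩
  obtain ⟨e1, e2⟩ := ZFSet.pair_inj.1 e
  rw [hε e1, hε e2]
  exact hx

theorem key_out (hε : Injective ε) {p : C} {l : List ℕ} {ρ : ℕ → On}
    (h : keyOut (keyU ε T z γ) (ε p) (lz l) (keyF ρ l.length)) : Out T z p l ρ := by
  rcases h with h | ⟨i, -, j, -, h, x, -, y, -, h1, h2, h3⟩
  · obtain ⟨x, hx, e⟩ := key_m3.1 h
    obtain ⟨e1, e2⟩ := ZFSet.pair_inj.1 e
    rw [lz_inj e1, hε e2]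
    exact Or.inl hx
  · obtain ⟨w, hw, e⟩ := key_m4.1 h
    obtain ⟨e1, e2⟩ := ZFSet.pair_inj.1 e
    obtain ⟨rfl, rfl⟩ := ZFSet.pair_inj.1 e2
    obtain ⟨k1, rfl⟩ := key_memF.1 h1
    obtain ⟨k2, rfl⟩ := key_memF.1 h2
    refine Or.inr fun hk => h3 (Ordinal.toZFSet_mem_toZFSet_iff.2 (hk _ k1 _ k2 ?_))
    rw [lz_inj e1]
    exact hw

theorem key_out' {p : C} {l : List ℕ} {ρ : ℕ → On} (hρ : ∀ i < l.length, ρ i < γ)
    (h : Out T z p l ρ) : keyOut (keyU ε T z γ) (ε p) (lz l) (keyF ρ l.length) := by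
  rcases h with h | h
  · exact Or.inl (key_m3.2 ⟨(l, p), h, rfl⟩)
  · simp only [Sch.ok, not_forall] at h
    obtain ⟨i, hi, j, hj, h1, h2⟩ := h
    exact Or.inr ⟨_, key_m5 i, _, key_m5 j, key_m4.2 ⟨(l, i, j), h1, rfl⟩,
      _, key_m6.2 ⟨_, hρ i hi, rfl⟩, _, key_m6.2 ⟨_, hρ j hj, rfl⟩,
      key_memF.2 ⟨hi, rfl⟩, key_memF.2 ⟨hj, rfl⟩,
      fun e => h2 (Ordinal.toZFSet_mem_toZFSet_iff.1 e)⟩

theorem key_sound (hε : Injective ε) {g : ZFSet.{0}} (hg : keyCert (keyU ε T z γ) g)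
    (η : ZFSet.{0}) (p : C) (l : List ℕ) (ρ : ℕ → On)
    (h : keyT (ε p) (lz l) (keyF ρ l.length) η ∈ g) : Rk T z γ η.rank p l ρ := by
  induction η using ZFSet.inductionOn generalizing p l ρ with
  | _ η ih =>
    refine rk_iff.2 ((hg _ _ _ _ h).imp (key_out hε) fun k0 k α hα p' h1 h2 => ?_)
    obtain ⟨q, k1, k2, η', k3, k4⟩ := k0 _ (key_m5 _) _ (key_m5 _) (key_m2.2 ⟨(k, l), rfl⟩) _
      (key_m6.2 ⟨α, hα, rfl⟩) _ (key_m0.2 ⟨p', h2, rfl⟩) ((key_le hε).2 h1)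
    obtain ⟨q, hq, rfl⟩ := key_m0.1 k1
    refine ⟨q, (key_le hε).1 k2, hq, η'.rank, ZFSet.rank_lt_of_mem k3, ih η' k3 _ _ _ ?_⟩
    rw [List.length_cons, key_step]
    exact k4

theorem key_rule (hε : Injective ε) {g : ZFSet.{0}} {η : On}
    (hg : ∀ η' < η, ∀ (p : C) (l : List ℕ) (ρ : ℕ → On), (∀ i < l.length, ρ i < γ) →
      Rk T z γ η' p l ρ → keyT (ε p) (lz l) (keyF ρ l.length) η'.toZFSet ∈ g)
    {p : C} {l : List ℕ} {ρ : ℕ → On} (hρ : ∀ i < l.length, ρ i < γ) (h : Rk T z γ η p l ρ) :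
    keyRule (keyU ε T z γ) g (ε p) (lz l) (keyF ρ l.length) η.toZFSet := by
  refine (rk_iff.1 h).imp (key_out' hρ) fun h l' _ n _ h1 x hx p' h2 h3 => ?_
  obtain ⟨⟨k, l0⟩, e⟩ := key_m2.1 h1
  obtain ⟨e1, e2⟩ := ZFSet.pair_inj.1 e
  obtain ⟨rfl, rfl⟩ := ZFSet.pair_inj.1 e2
  obtain rfl : l = l0 := lz_inj e1
  obtain ⟨α, hα, rfl⟩ := key_m6.1 hx
  obtain ⟨p', hp, rfl⟩ := key_m0.1 h2
  obtain ⟨q, k1, k2, η', k3, k4⟩ := h k α hα p' ((key_le hε).1 h3) hp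
  refine ⟨_, key_m0.2 ⟨q, k2, rfl⟩, (key_le hε).2 k1, _, Ordinal.toZFSet_mem_toZFSet_iff.2 k3, ?_⟩
  have k5 := hg η' k3 q (k :: l) _ (fun i hi => ?_) k4
  · rwa [List.length_cons, key_step] at k5
  · rw [update_apply]
    split_ifs with e
    · exact hα
    · exact hρ i (by simp at hi; omega)

variable {a : ZFSet.{0}}

theorem key_tr (ha : a.IsTransitive) (ξ : On) : Tr {x | x ∈ Lh a ξ} :=
  fun _ hx _ hy => Lh_trans ha ξ _ hx hy

theorem key_F_mem (ha : a.IsTransitive) {ξ : On} (hξ : Order.IsSuccLimit ξ) {ρ : ℕ → On} {n : ℕ}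
    (h : ∀ i < n, ρ i < ξ) : keyF ρ n ∈ Lh a ξ := by
  induction n with
  | zero =>
    have := Lh_ord ha hξ.bot_lt
    rwa [bot_eq_zero, Ordinal.toZFSet_zero] at this
  | succ n ih =>
    exact Lh_insert ha hξ (Lh_pair ha hξ (Lh_ord ha (Ordinal.natCast_lt_of_isSuccLimit hξ n))
      (Lh_ord ha (h n n.lt_succ_self))) (ih fun i hi => h i (hi.trans n.lt_succ_self))

theorem key_complete (hε : Injective ε) (ha : a.IsTransitive) {κ : Cardinal.{0}}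
    (hκ : κ.IsRegular) (h0 : Cardinal.aleph0 < κ) (hγ : γ < κ.ord) (h1 : ∀ p, ε p ∈ a)
    (h2 : ∀ i, keyU ε T z 0 i ∈ a) (η : On) (hη : η < κ.ord) :
    ∃ g ∈ Lh a κ.ord, keyCert (keyU ε T z γ) g ∧ ∀ (p : C) (l : List ℕ) (ρ : ℕ → On),
      (∀ i < l.length, ρ i < γ) → Rk T z γ η p l ρ →
        keyT (ε p) (lz l) (keyF ρ l.length) η.toZFSet ∈ g := by
  induction η using WellFoundedLT.induction with
  | _ η ih =>
  have hl := Cardinal.isSuccLimit_ord h0.le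
  choose g g1 g2 g3 using fun (η' : Iio η) => ih η'.1 η'.2 (η'.2.trans hη)
  choose ζ z1 z2 using fun η' => Lh_lim hl (g1 η')
  obtain ⟨ξ, x1, x2, x3, x4⟩ : ∃ ξ < κ.ord, γ < ξ ∧ η < ξ ∧ ∀ η', ζ η' ≤ ξ := by
    have := Ordinal.iSup_lt_of_lt_cof (f := fun i : η.ToType => ζ i.toOrd)
      (by rw [Cardinal.mk_toType, hκ.cof_ord]; exact Cardinal.lt_ord.1 hη) fun _ => z1 _
    refine ⟨max (max (γ + 1) (η + 1)) _, max_lt (max_lt (hl.add_one_lt hγ) (hl.add_one_lt hη)) this,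
      by simp, by simp, fun η' => le_max_of_le_right ?_⟩
    simpa using Ordinal.le_iSup (fun i : η.ToType => ζ i.toOrd) (Ordinal.ToType.mk η')
  have hu : ∀ ξ', ξ ≤ ξ' → ∀ i, keyU ε T z γ i ∈ Lh a ξ' := fun ξ' h i => by
    have := Lh_base ha ξ' (ZFSet.mem_insert_of_mem _ (h2 i))
    rcases i with _ | _ | _ | _ | _ | _ | i
    iterate 6 exact this
    exact Lh_ord ha (x2.trans_le h)
  have G1 := @Lh_sep a ha _ (key_zdG (· + 1) 0) ξ _ (hu ξ le_rfl)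
  generalize hG : ZFSet.sep _ _ = G at G1
  have G2 : ∀ t, t ∈ G ↔ ∃ g ∈ Lh a ξ, keyCert (keyU ε T z γ) g ∧ t ∈ g := fun t => by
    rw [← hG, ZFSet.mem_sep]
    exact ⟨fun h => h.2, fun ⟨g, h1, h2, h3⟩ => ⟨Lh_trans ha ξ _ h1 h3, g, h1, h2, h3⟩⟩
  have y1 : Order.IsSuccLimit (ξ + Ordinal.omega0) :=
    Ordinal.isSuccLimit_add _ Ordinal.isSuccLimit_omega0
  have y2 : ξ < ξ + Ordinal.omega0 := lt_add_of_pos_right _ Ordinal.omega0_pos
  have y3 : ξ + Ordinal.omega0 < κ.ord := Ordinal.isPrincipal_add_ord h0.le x1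
    (Cardinal.lt_ord.2 (by simpa using h0))
  have H1 := @Lh_sep a ha _ (key_zdH (· + 2) 0 1) (ξ + Ordinal.omega0)
    (sc G (keyU ε T z γ)) (sc_mem (S := {x | x ∈ Lh a (ξ + Ordinal.omega0)})
      (Lh_mono ha (y1.add_one_lt y2).le G1) (hu _ y2.le))
  generalize hH : ZFSet.sep _ _ = H at H1
  have H2 : ∀ p l f η, keyT p l f η ∈ H ↔ keyT p l f η ∈ Lh a (ξ + Ordinal.omega0) ∧
      keyRule (keyU ε T z γ) G p l f η := fun p l f η => by
    rw [← hH, ZFSet.mem_sep]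
    refine and_congr_right fun h => ⟨?_, fun k => ?_⟩
    · rintro ⟨p', -, l', -, f', -, η', -, e, k⟩
      obtain ⟨rfl, rfl, rfl, rfl⟩ := key_inj e
      exact k
    · obtain ⟨k1, k2, k3, k4⟩ := key_tup (key_tr ha _) h
      exact ⟨p, k1, l, k2, f, k3, η, k4, rfl, k⟩
  refine ⟨H, Lh_mono ha (hl.add_one_lt y3).le H1, fun p l f η h => key_mono
    (fun p l f η h => ?_) ((H2 _ _ _ _).1 h).2, fun p l ρ hρ h => (H2 _ _ _ _).2 ⟨?_, ?_⟩⟩
  · obtain ⟨g', k1, k2, k3⟩ := (G2 _).1 h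
    exact (H2 _ _ _ _).2 ⟨Lh_mono ha y2.le (Lh_trans ha ξ _ k1 k3),
      key_mono (fun _ _ _ _ e => (G2 _).2 ⟨g', k1, k2, e⟩) (k2 _ _ _ _ k3)⟩
  · exact Lh_pair ha y1 (Lh_base ha _ (ZFSet.mem_insert_of_mem _ (h1 p))) (Lh_pair ha y1
      (Lh_ord ha (Ordinal.natCast_lt_of_isSuccLimit y1 _)) (Lh_pair ha y1
        (key_F_mem ha y1 fun i hi => ((hρ i hi).trans x2).trans y2) (Lh_ord ha (x3.trans y2))))
  · exact key_rule hε (fun η' h' p l ρ k1 k2 => (G2 _).2 ⟨g ⟨η', h'⟩,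
      Lh_mono ha (x4 _) (z2 _), g2 _, g3 _ p l ρ k1 k2⟩) hρ h

/-- The data of the coding. -/
structure keyD (ε : C → ZFSet.{0}) (T : Sch) (z : ℕ → C) (a : ZFSet.{0}) (κ : Cardinal.{0}) :
    Prop where
  inj : Injective ε
  tr : a.IsTransitive
  reg : κ.IsRegular
  unc : Cardinal.aleph0 < κ
  big : Cardinal.mk C < κ
  h1 : ∀ p, ε p ∈ a
  h2 : ∀ i, keyU ε T z 0 i ∈ a

variable {κ : Cardinal.{0}}

theorem key_up (D : keyD ε T z a κ) (hγ : γ < κ.ord) {η : On} {p : C} {l : List ℕ} {ρ : ℕ → On}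
    (hρ : ∀ i < l.length, ρ i < γ) (h : Rk T z γ η p l ρ) : ∃ η' ≤ η, η'.toZFSet ∈ Lh a κ.ord ∧
      keyRk {x | x ∈ Lh a κ.ord} (keyU ε T z γ) (ε p) (lz l) (keyF ρ l.length) η'.toZFSet := by
  obtain ⟨η', h1, h2, h3⟩ := h.small D.reg D.unc D.big hγ
  obtain ⟨g, g1, g2, g3⟩ := key_complete D.inj D.tr D.reg D.unc hγ D.h1 D.h2 η' h2
  exact ⟨η', h1, Lh_ord D.tr h2, g, g1, g2, g3 p l ρ hρ h3⟩

theorem key_down (D : keyD ε T z a κ) {M : Set ZFSet.{0}} {η : ZFSet.{0}} {p : C} {l : List ℕ}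
    {ρ : ℕ → On} (h : keyRk M (keyU ε T z γ) (ε p) (lz l) (keyF ρ l.length) η) :
    Rk T z γ η.rank p l ρ := by
  obtain ⟨g, -, g2, g3⟩ := h
  exact key_sound D.inj g2 _ _ _ _ g3

theorem key_A (D : keyD ε T z a κ) (hγ : γ < κ.ord) {p : C} {l : List ℕ} {ρ : ℕ → On}
    (hρ : ∀ i < l.length, ρ i < γ) :
    keyA {x | x ∈ Lh a κ.ord} (keyU ε T z γ) (ε p) (lz l) (keyF ρ l.length) ↔
      Ranked T z γ p l ρ := by
  refine ⟨fun ⟨η, _, h⟩ => ⟨_, key_down D h⟩, fun ⟨η, h⟩ => ?_⟩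
  obtain ⟨η', -, h1, h2⟩ := key_up D hγ hρ h
  exact ⟨_, h1, h2⟩

theorem key_B (D : keyD ε T z a κ) (hγ : γ < κ.ord) {p q : C} {k : ℕ} {l : List ℕ} {ρ : ℕ → On}
    (hρ : ∀ i ≤ l.length, ρ i < γ) :
    keyB {x | x ∈ Lh a κ.ord} (keyU ε T z γ) (ε q) (lz (k :: l)) (keyF ρ (k :: l).length) (ε p)
      (lz l) (keyF ρ l.length) ↔ Less T z γ q k p l ρ := by
  refine ⟨fun ⟨η, _, h, h'⟩ => ⟨_, key_down D h, fun ζ e => ?_⟩, fun ⟨η, h, h'⟩ => ?_⟩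
  · obtain ⟨ζ', h0, h1, h2⟩ := key_up D hγ (fun i hi => hρ i hi.le) e
    have := ZFSet.rank_lt_of_mem (h' _ h1 (ZFSet.isOrdinal_toZFSet _) h2)
    rw [Ordinal.rank_toZFSet] at this
    exact this.trans_le h0
  · obtain ⟨η', h0, h1, h2⟩ := key_up (l := k :: l) D hγ
      (fun i hi => hρ i (Nat.le_of_lt_succ hi)) h
    refine ⟨_, h1, h2, fun ζ _ e1 e2 => ?_⟩
    rw [← e1.toZFSet_rank_eq]
    exact Ordinal.toZFSet_mem_toZFSet_iff.2 (h0.trans_lt (h' _ (key_down D e2)))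

/-- The assignment with parameters in the even slots and indiscernibles in the odd slots. -/
noncomputable def keyW (b : ℕ → ZFSet.{0}) (s : ℕ → On) (n : ℕ) : ZFSet.{0} :=
  if n % 2 = 0 then b (n / 2) else (s (n / 2)).toZFSet

theorem key_even (b : ℕ → ZFSet.{0}) (s : ℕ → On) (m : ℕ) : keyW b s (2 * m) = b m := by
  rw [keyW, if_pos (by omega), Nat.mul_div_cancel_left m two_pos]

theorem key_odd (b : ℕ → ZFSet.{0}) (s : ℕ → On) (m : ℕ) :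
    keyW b s (2 * m + 1) = (s m).toZFSet := by
  rw [keyW, if_neg (by omega), show (2 * m + 1) / 2 = m by omega]

/-- The parameters of the formulas. -/
noncomputable def keyP (ε : C → ZFSet.{0}) (T : Sch) (z : ℕ → C) (p q : C) (k : ℕ) (l : List ℕ)
    (m : ℕ) : ZFSet.{0} :=
  if m < 6 then keyU ε T z 0 m else if m = 6 then ε p else if m = 7 then ε q else
    if m = 8 then lz l else if m = 9 then lz (k :: l) else nz (m - 10)

theorem key_P (D : keyD ε T z a κ) (p q : C) (k : ℕ) (l : List ℕ) (m : ℕ) :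
    keyP ε T z p q k l m ∈ insert a a := by
  have h : ∀ n, nz n ∈ a := fun n => D.tr _ (D.h2 5) (key_m5 n)
  refine ZFSet.mem_insert_of_mem _ ?_
  unfold keyP
  split_ifs
  exacts [D.h2 _, D.h1 _, D.h1 _, h _, h _, h _]

theorem key_U (p q : C) (k : ℕ) (l : List ℕ) (s : ℕ → On) (N : ℕ) :
    (fun i => keyW (keyP ε T z p q k l) s (if i < 6 then 2 * i else 2 * N + 1)) =
      keyU ε T z (s N) := by
  funext i
  split_ifs with h
  · rw [key_even, keyP, if_pos h]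
    rcases i with _ | _ | _ | _ | _ | _ | i
    iterate 6 rfl
    omega
  · obtain ⟨i, rfl⟩ : ∃ j, i = j + 6 := ⟨i - 6, by omega⟩
    rw [key_odd, keyU]

theorem key_F (p q : C) (k : ℕ) (l : List ℕ) (s : ℕ → On) (pat : ℕ → ℕ) (n : ℕ) :
    fz (fun i => keyW (keyP ε T z p q k l) s (2 * (i + 10)))
      (fun i => keyW (keyP ε T z p q k l) s (2 * pat i + 1)) n = keyF (fun i => s (pat i)) n := by
  simp only [key_even, key_odd]
  refine congrArg (fun u => fz u _ n) (funext fun i => ?_)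
  rw [keyP, if_neg (by omega), if_neg (by omega), if_neg (by omega), if_neg (by omega),
    if_neg (by omega), Nat.add_sub_cancel]

theorem key_zdA' (σ g h : ℕ → ℕ) (n p l : ℕ) : ZD false fun M v => ∃ f, f ∈ M ∧
    f = fz (fun i => v (g i)) (fun i => v (h i)) n ∧ keyA M (fun i => v (σ i)) (v p) (v l) f :=
  inferInstance

theorem key_zdB' (σ g h : ℕ → ℕ) (n n' q l' p l : ℕ) : ZD false fun M v => ∃ f', f' ∈ M ∧
    f' = fz (fun i => v (g i)) (fun i => v (h i)) n' ∧ ∃ f, f ∈ M ∧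
      f = fz (fun i => v (g i)) (fun i => v (h i)) n ∧
        keyB M (fun i => v (σ i)) (v q) (v l') f' (v p) (v l) f :=
  inferInstance

end

theorem key (hs : ∀ a : ZFSet.{0}, a.IsTransitive → SharpIn univ a) {C : Type}
    [CompleteBooleanAlgebra C] (T : Sch) (z : ℕ → C) (δ : On) :
    ∃ ι : On → On, StrictMono ι ∧ ∀ s t : ℕ → On, StrictMono s → StrictMono t →
      (∀ n, s n < δ) → (∀ n, t n < δ) → ∀ (pat : ℕ → ℕ) (N : ℕ) (p : C) (l : List ℕ), p ≠ ⊥ →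
      ((∀ i < l.length, pat i < N) → Ranked T z (ι (s N)) p l (fun i => ι (s (pat i))) →
        Ranked T z (ι (t N)) p l fun i => ι (t (pat i))) ∧
      ∀ (q : C) (k : ℕ), q ≠ ⊥ → (∀ i ≤ l.length, pat i < N) →
        Less T z (ι (s N)) q k p l (fun i => ι (s (pat i))) →
        Less T z (ι (t N)) q k p l fun i => ι (t (pat i)) := by
  obtain ⟨e, e1, e2⟩ := exists_code C
  obtain ⟨a, ha, a1, a2, a3⟩ : ∃ a : ZFSet.{0}, a.IsTransitive ∧
      (∀ i, keyU (fun p => (e p).toZFSet) T z 0 i ∈ a) ∧ δ.toZFSet ∈ a ∧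
      (Cardinal.mk C).ord.toZFSet ∈ a := by
    refine ⟨vonNeumann (insert δ.toZFSet (insert (Cardinal.mk C).ord.toZFSet
      (ZFSet.range (keyU (fun p => (e p).toZFSet) T z 0)))).rank, isTransitive_vonNeumann _,
      fun i => ?_, ?_, ?_⟩ <;> refine mem_vonNeumann.2 (ZFSet.rank_lt_of_mem ?_) <;> simp
  obtain ⟨L, hL, hb, I, -, hI, H⟩ := hs a ha
  obtain ⟨κ, k1, k2, rfl⟩ := Reg.regular hL
  have k3 := Bdd.card_lt k1.pos hb
  have k4 : ∀ α : On, α.toZFSet ∈ a → α.card < κ := fun α h =>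
    (Ordinal.card_toZFSet α ▸ ZFSet.card_mono (ha _ h)).trans_lt k3
  have D : keyD (fun p => (e p).toZFSet) T z a κ :=
    ⟨fun _ _ h => e1 (Ordinal.toZFSet_injective h), ha, k1, k2, by simpa using k4 _ a3,
      fun p => ha _ a3 (Ordinal.toZFSet_mem_toZFSet_iff.2 (e2 p)), a1⟩
  generalize (fun p => (e p).toZFSet) = ε at D
  obtain ⟨ι, i1, i2⟩ := exists_enum k1 hI
  have hδ : ∀ {α : On}, α < δ → ι α < κ.ord ∧ (ι α).toZFSet ∈ I := fun h =>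
    i2 _ (h.trans (Cardinal.lt_ord.2 (k4 _ a2)))
  have hl := Cardinal.isSuccLimit_ord k2.le
  refine ⟨ι, i1, fun s t s1 t1 s2 t2 pat N p l _ => ?_⟩
  have W : ∀ (b : ℕ → ZFSet.{0}) (r : ℕ → On), (∀ i, b i ∈ insert a a) → (∀ n, r n < δ) →
      ∀ n, keyW b (fun n => ι (r n)) n ∈ Lh a κ.ord := fun b r h1 h2 n => by
    unfold keyW
    split_ifs
    exacts [Lh_base ha _ (h1 _), Lh_ord ha (hδ (h2 _)).1]
  have X : ∀ P, ZD false P → ∀ b : ℕ → ZFSet.{0}, (∀ i, b i ∈ insert a a) →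
      P {x | x ∈ Lh a κ.ord} (keyW b fun n => ι (s n)) →
      P {x | x ∈ Lh a κ.ord} (keyW b fun n => ι (t n)) := fun P hP b h1 h2 => by
    obtain ⟨φ, -, h3⟩ := hP.ex
    exact (h3 _ _ (key_tr ha _) (W b t h1 t2)).1 ((H φ b (fun n => ι (s n)) (fun n => ι (t n)) h1
      (i1.comp s1) (i1.comp t1) fun i => ⟨(hδ (s2 i)).2, (hδ (t2 i)).2⟩).1
        ((h3 _ _ (key_tr ha _) (W b s h1 s2)).2 h2))
  refine ⟨fun h1 h2 => ?_, fun q k _ h1 h2 => ?_⟩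
  · have := X _ (key_zdA' (fun i => if i < 6 then 2 * i else 2 * N + 1) (fun i => 2 * (i + 10))
      (fun i => 2 * pat i + 1) l.length (2 * 6) (2 * 8)) _ (key_P D p p 0 l)
    simp only [key_U, key_F] at this
    simp only [key_even] at this
    obtain ⟨_, -, rfl, h3⟩ := this ⟨_, key_F_mem ha hl fun i _ => (hδ (s2 _)).1, rfl,
      (key_A D (hδ (s2 N)).1 fun i hi => i1 (s1 (h1 i hi))).2 h2⟩
    exact (key_A D (hδ (t2 N)).1 fun i hi => i1 (t1 (h1 i hi))).1 h3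
  · have := X _ (key_zdB' (fun i => if i < 6 then 2 * i else 2 * N + 1) (fun i => 2 * (i + 10))
      (fun i => 2 * pat i + 1) l.length (k :: l).length (2 * 7) (2 * 9) (2 * 6) (2 * 8)) _
      (key_P D p q k l)
    simp only [key_U, key_F] at this
    simp only [key_even] at this
    obtain ⟨_, -, rfl, _, -, rfl, h3⟩ := this ⟨_, key_F_mem ha hl fun i _ => (hδ (s2 _)).1, rfl,
      _, key_F_mem ha hl fun i _ => (hδ (s2 _)).1, rfl,
      (key_B D (hδ (s2 N)).1 fun i hi => i1 (s1 (h1 i hi))).2 h2⟩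
    exact (key_B D (hδ (t2 N)).1 fun i hi => i1 (t1 (h1 i hi))).1 h3

end Pool.Agent.MP_fd3eaf_lc.Up

end
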