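import Pool.Agent.MP_fd3eaf_lc.Mg.WRef
import Pool.Agent.MP_fd3eaf_lc.LDef
import Pool.Agent.MP_fd3eaf_lc.Mg.Master
import Pool.Agent.MP_fd3eaf_lc.Mg.Abs
import Pool.Agent.MP_fd3eaf_lc.Mg.Up_Abs4
import Pool.Agent.MP_fd3eaf_lc.Up.Trans

-- part MP_fd3eaf_lc.WSharp
section

/-!
Sharps in the model of the names, and the two ways to obtain the target model.
-/

set_option autoImplicit false

namespace Pool.Agent.MP_fd3eaf_lc

open Set Ordinal Pool.Agent.Lib.Forcing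

/-- The least name of an ordinal. -/
noncomputable def wsharpa_nm (A Λ : Set On) (ξ : On) : On :=
  sInf {d | d ∈ Λ ∧ val A d = ξ.toZFSet}

theorem wsharpa_nm_mt (i : ℕ) : MT fun A Λ v => wsharpa_nm A Λ (v i) := by
  unfold wsharpa_nm; infer_instance

theorem wsharpa_val_nm {A : Set On} (h : ElUp A univ) (ξ : On) :
    val A (wsharpa_nm A univ ξ) = ξ.toZFSet := by
  obtain ⟨d, hd, e⟩ := (h.ord_mem (ξ := ξ)).2 trivial
  exact (csInf_mem (s := {d | d ∈ Set.univ ∧ val A d = ξ.toZFSet}) ⟨d, hd, e⟩).2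

theorem wsharpa_lv_range (p : ℕ → On) {n i : ℕ} (h : i < n) :
    lv ((List.range n).map p) i = p i := by
  simp [lv, List.getD_eq_getElem?_getD, h]

/-- The graph of `l ↦ L_l(a)` on names. -/
theorem wsharpa_graph {A : Set On} {e : On} (h : Mod A univ e) (c : On) : ∃ (w : On) (k : ℕ),
    (∀ l, ∃ y, val A y = Lh (val A c) l) ∧ ∀ y l, Sat A univ k (fun n => if n % 2 = 0 then
      (if n = 0 then y else wsharpa_nm A univ l) else lv (par w) (n / 2)) ↔
        val A y = Lh (val A c) l := by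
  have hC := h.innerModel
  have ht := tm_Lh hC (a := val A c) ⟨c, trivial, rfl⟩
  have ho : ∀ l : On, l.toZFSet ∈ W A univ := fun l => h.el.ord_mem.2 trivial
  obtain ⟨ψ, w₀, hw₀, hψ⟩ := ht.df.ex
  choose p _ hp using hw₀
  obtain ⟨k, hk⟩ := (md_satE ψ).ex
  obtain ⟨w, -, hw⟩ := mda_list nice_univ ((List.range k).map p) fun _ _ => trivial
  refine ⟨w, k, fun l => ?_, fun y l => ?_⟩
  · have h1 := ht.mem (fun _ => l.toZFSet) fun _ => ho l
    simp only [ZFSet.isOrdinal_toZFSet, if_true, Ordinal.rank_toZFSet] at h1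
    obtain ⟨y, -, hy⟩ := h1
    exact ⟨y, hy⟩
  · have h1 := hψ (MP_ecfd11_lc.cons (val A y) fun _ => l.toZFSet)
      (MP_ecfd11_lc.cons_mem ⟨y, trivial, rfl⟩ fun _ => ho l)
    simp only [MP_ecfd11_lc.cons_zero, MP_ecfd11_lc.cons_succ, ZFSet.isOrdinal_toZFSet, if_true,
      Ordinal.rank_toZFSet] at h1
    rw [h1, sat_irrel (w := fun n => if n % 2 = 0 then
      (if n = 0 then y else wsharpa_nm A univ l) else p (n / 2)) fun i hi => by
        rw [hw, wsharpa_lv_range p (lt_of_le_of_lt (Nat.div_le_self i 2) hi)],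
      hk A univ _ nice_univ fun _ => trivial]
    refine iff_of_eq (congrArg _ (funext fun n => ?_))
    unfold MP_ecfd11_lc.mrg
    split_ifs with h2 h3
    · subst h3; rfl
    · obtain ⟨m, hm⟩ : ∃ m, n / 2 = m + 1 := ⟨n / 2 - 1, by omega⟩
      rw [hm, MP_ecfd11_lc.cons_succ, wsharpa_val_nm h.el]
    · exact hp _

theorem wsharpa_md (k : ℕ) (φ : Fml) : MD fun A Λ v => ∃ y, y ∈ Λ ∧
    (Sat A Λ k (fun n => if n % 2 = 0 then (if n = 0 then y else wsharpa_nm A Λ (v 1))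
      else lv (par (v 0)) (n / 2)) ∧ SatIn Mem (· ∈ val A y) φ fun n =>
        val A (if n % 2 = 0 then v (n + 2) else wsharpa_nm A Λ (v (n + 2)))) := by
  have h1 : MD fun A Λ v => Sat A Λ k (fun n => if n % 2 = 0 then
      (if n = 0 then v 0 else wsharpa_nm A Λ (v 2)) else lv (par (v 1)) (n / 2)) := by
    refine MD.satL k (fun A _ _ => A) (fun n A Λ v => if n % 2 = 0 then
      (if n = 0 then v 0 else wsharpa_nm A Λ (v 2)) else lv (par (v 1)) (n / 2)) fun n => ?_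
    split_ifs
    · exact MT.var 0
    · exact wsharpa_nm_mt 2
    · exact MT.lv_par (fun _ _ v => v 1) _
  have h2 : MD fun A Λ v => SatIn Mem (· ∈ val A (v 0)) φ fun n =>
      val A (if n % 2 = 0 then v (n + 3) else wsharpa_nm A Λ (v (n + 3))) := by
    have := md_satVal φ
    refine MD.substAll (fun A _ v => SatIn Mem (· ∈ val A (v 0)) φ fun i => val A (v (i + 1)))
      (fun A _ _ => A) (fun i A Λ v => cons (v 0) (fun n =>
        if n % 2 = 0 then v (n + 3) else wsharpa_nm A Λ (v (n + 3))) i) fun i => ?_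
    cases i with
    | zero => exact MT.var 0
    | succ n =>
      simp only [cons_succ]
      split_ifs
      · exact MT.var _
      · exact wsharpa_nm_mt _
  exact MD.exL (fun A Λ v y => Sat A Λ k (fun n => if n % 2 = 0 then
    (if n = 0 then y else wsharpa_nm A Λ (v 1)) else lv (par (v 0)) (n / 2)) ∧
    SatIn Mem (· ∈ val A y) φ fun n =>
      val A (if n % 2 = 0 then v (n + 2) else wsharpa_nm A Λ (v (n + 2))))
    (h := MD.and _ _ (h1 := h1) (h2 := h2))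

/-- Truth in `L_ξ(a)` is expressed in the machine, with one parameter `w` for all formulas.
Hint: `tm_Lh` for the inner model `W A univ` and `md_satE` give `k₀` and names of parameters, coded
as `par w`; the least name of the ordinal `ξ` is a definable term; use `md_satVal`. -/
theorem exists_satL {A : Set On} {e : On} (h : Mod A univ e) (c : On) : ∃ w : On, ∀ φ : Fml,
    ∃ k, ∀ (l : On) (b s : ℕ → On), Sat A univ k (cons w (cons l fun n =>
        if n % 2 = 0 then b (n / 2) else s (n / 2))) ↔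
      SatIn Mem (· ∈ Lh (val A c) l) φ fun n =>
        if n % 2 = 0 then val A (b (n / 2)) else (s (n / 2)).toZFSet := by
  obtain ⟨w, k₀, h1, h2⟩ := wsharpa_graph h c
  refine ⟨w, fun φ => ?_⟩
  obtain ⟨k, hk⟩ := (wsharpa_md k₀ φ).ex
  refine ⟨k, fun l b s => (hk A univ _ nice_univ fun _ => trivial).trans ?_⟩
  have e1 : (fun n => val A (if n % 2 = 0 then (if n % 2 = 0 then b (n / 2) else s (n / 2))
      else wsharpa_nm A univ (if n % 2 = 0 then b (n / 2) else s (n / 2)))) = fun n =>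
      if n % 2 = 0 then val A (b (n / 2)) else (s (n / 2)).toZFSet := by
    funext n
    split_ifs
    · rfl
    · exact wsharpa_val_nm h.el _
  simp only [cons_zero, cons_succ, mem_univ, true_and]
  rw [e1]
  constructor
  · rintro ⟨y, a1, a2⟩
    rwa [(h2 y l).1 a1] at a2
  · intro a
    obtain ⟨y, hy⟩ := h1 l
    exact ⟨y, (h2 y l).2 hy, by rwa [hy]⟩

theorem wsharpa_lw_mt (k n : ℕ) :
    MT fun A Λ v => lw A Λ k ((List.range n).map v) := by
  have h1 : MD fun A Λ v => Sat A Λ k (cons (v 0) fun i => if i < n then v (i + 1) else 0) :=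
    MD.satL k (fun A _ _ => A) (mdb_cons fun i _ _ v => if i < n then v i else 0)
      (mdb_cons_mt _ fun i => MT.trunc n i)
  refine MT.congr (h := MT.least (fun A Λ v x =>
    Sat A Λ k (cons x fun i => if i < n then v i else 0)) (h := h1)) fun A Λ v _ _ => ?_
  have e : (fun i => if i < n then v i else 0) = lv ((List.range n).map v) := by
    funext i
    split_ifs with hi
    · exact (wsharpa_lv_range v hi).symm
    · exact (Ind.indb_out (by simpa using hi)).symm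
  simp only [lw, lv_cons, e]

theorem wsharpa_md_lw (k k₀ n : ℕ) : MD fun A Λ v =>
    Sat A Λ k (cons (lw A Λ k₀ ((List.range n).map v)) fun i => v (n + i)) := by
  refine MD.satL k (fun A _ _ => A) (fun i A Λ v =>
    cons (lw A Λ k₀ ((List.range n).map v)) (fun i => v (n + i)) i) fun i => ?_
  cases i with
  | zero => exact wsharpa_lw_mt k₀ n
  | succ i => exact MT.var _

theorem wsharpa_map_app (q : List On) (ι : ℕ → On) :
    (List.range q.length).map (app q ι) = q := by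
  refine Eq.trans (List.map_congr_left fun i hi => app_lt (List.mem_range.1 hi)) ?_
  exact ((mdc_len q q.length).2 rfl).symm

/-- Indiscernibles of the machine are indiscernibles of `L_l(a)`.  Hint: `w = lw A univ k₀ q₀` with
`q₀ ⊆ Iio e ∪ I`; let `γ < l` bound `q₀ ∩ l`; use `Ind.any` with the indices `q₀ ∩ Ici e`, `l` and
the first values of `s`, `ρ = id` and `ρ'` moving `s i` to `t i`. -/
theorem Cert.satL {A I : Set On} {e c : On} (hI : Cert A univ e I) (hc : c < e) :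
    ∃ q₀ : List On, ∀ l ∈ I, ∀ γ, (∀ a ∈ q₀, a < l → a ≤ γ) →
      ∀ (φ : Fml) (b : ℕ → ZFSet.{0}) (s t : ℕ → On), (∀ i, b i ∈ insert (val A c) (val A c)) →
      StrictMono s → StrictMono t → (∀ i, s i ∈ I ∧ γ < s i ∧ s i < l) →
      (∀ i, t i ∈ I ∧ γ < t i ∧ t i < l) →
      (SatIn Mem (· ∈ Lh (val A c) l) φ
          (fun n => if n % 2 = 0 then b (n / 2) else (s (n / 2)).toZFSet) ↔
        SatIn Mem (· ∈ Lh (val A c) l) φ
          fun n => if n % 2 = 0 then b (n / 2) else (t (n / 2)).toZFSet) := by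
  classical
  obtain ⟨w, hw⟩ := exists_satL (mod_univ (down_of_subset hI.or)) c
  obtain ⟨k₀, q₀, hq, hlw⟩ := hI.gen (mem_univ w)
  refine ⟨q₀, fun l hl γ hγ φ b s t hb hs ht h1 h2 => ?_⟩
  obtain ⟨k, hk⟩ := hw φ
  have hd : ∀ i, ∃ d < e, val A d = b i := fun i => by
    rcases ZFSet.mem_insert_iff.1 (hb i) with h | h
    · exact ⟨c, hc, h.symm⟩
    · obtain ⟨d, hd, h⟩ := mem_val.1 h
      exact ⟨d, ((els_lt hd).trans_le (lev_le c)).trans hc, h⟩
  choose d hde hd using hd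
  obtain rfl : b = fun i => val A (d i) := funext fun i => (hd i).symm
  rw [← hk l d s, ← hk l d t]
  let ρ : On → On := fun y => if h : ∃ i, s i = y then t h.choose else y
  have ρs : ∀ i, ρ (s i) = t i := fun i => by
    have h : ∃ j, s j = s i := ⟨i, rfl⟩
    simp only [ρ, dif_pos h, hs.injective h.choose_spec]
  have ρo : ∀ y, (y ≤ γ ∨ l ≤ y ∨ y < e) → ρ y = y := fun y hy => by
    refine dif_neg ?_
    rintro ⟨i, rfl⟩
    rcases hy with hy | hy | hy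
    · exact (h1 i).2.1.not_ge hy
    · exact (h1 i).2.2.not_ge hy
    · exact hy.not_ge (hI.ge _ (h1 i).1)
  have hq' : ∀ a ∈ q₀, a ≤ γ ∨ l ≤ a := fun a m => (lt_or_ge a l).imp_left (hγ a m)
  have hS : ∀ y ∈ {y | y ∈ I ∧ ((y ≤ γ ∨ l ≤ y) ∨ ∃ i, s i = y)}, ρ y ∈ I := by
    rintro y ⟨a1, a2 | ⟨i, rfl⟩⟩
    · rwa [ρo y (a2.imp_right Or.inl)]
    · rw [ρs]; exact (h2 i).1
  have hm : StrictMonoOn ρ {y | y ∈ I ∧ ((y ≤ γ ∨ l ≤ y) ∨ ∃ i, s i = y)} := by
    rintro x ⟨-, a2 | ⟨i, rfl⟩⟩ y ⟨-, b2 | ⟨j, rfl⟩⟩ hxy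
    · rwa [ρo x (a2.imp_right Or.inl), ρo y (b2.imp_right Or.inl)]
    · rw [ρo x (a2.imp_right Or.inl), ρs]
      rcases a2 with a2 | a2
      · exact a2.trans_lt (h2 j).2.1
      · exact absurd (hxy.trans (h1 j).2.2) a2.not_gt
    · rw [ρo y (b2.imp_right Or.inl), ρs]
      rcases b2 with b2 | b2
      · exact absurd ((h1 i).2.1.trans hxy) b2.not_gt
      · exact (h2 i).2.2.trans_le b2
    · rw [ρs, ρs]
      exact ht (hs.lt_iff_lt.1 hxy)
  have := wsharpa_md_lw k k₀ q₀.length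
  have key := hI.indd_md hI hI Subset.rfl Subset.rfl (fun _ m => m.1) hm hS
    (fun y hy => ρo y (Or.inr (Or.inr hy))) (fun A Λ v => Sat A Λ k
      (cons (lw A Λ k₀ ((List.range q₀.length).map v)) fun i => v (q₀.length + i)))
    (v := app q₀ (cons l fun n => if n % 2 = 0 then d (n / 2) else s (n / 2)))
    (app_mem (Λ := {x | x < e ∨ x ∈ {y | y ∈ I ∧ ((y ≤ γ ∨ l ≤ y) ∨ ∃ i, s i = y)}})
      (fun a m => (hq a m).imp_right fun h => ⟨h, Or.inl (hq' a m)⟩)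
      (cons_mem (Or.inr ⟨hl, Or.inl (Or.inr le_rfl)⟩) fun n => by
        split_ifs
        · exact Or.inl (hde _)
        · exact Or.inr ⟨(h1 _).1, Or.inr ⟨_, rfl⟩⟩))
  have e1 : q₀.map ρ = q₀ :=
    (List.map_congr_left fun a m => ρo a ((hq' a m).imp_right Or.inl)).trans (List.map_id _)
  have e2 : (ρ ∘ fun n => if n % 2 = 0 then d (n / 2) else s (n / 2)) =
      fun n => if n % 2 = 0 then d (n / 2) else t (n / 2) := by
    funext n
    simp only [Function.comp]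
    split_ifs
    · exact ρo _ (Or.inr (Or.inr (hde _)))
    · exact ρs _
  rw [comp_app, comp_cons, e1, e2, ρo l (Or.inr (Or.inl le_rfl))] at key
  simp only [wsharpa_map_app, app_add, hlw] at key
  exact key

theorem wsharpb_set {A Λ : Set On} (h : ElUp A Λ) {s l γ : On} (hs : s ∈ Λ) (hl : l ∈ Λ)
    (hγ : γ < l) : ∃ J ∈ W A Λ, ∀ z, z ∈ J ↔
      ∃ x : On, x < l ∧ x ∈ ext A s ∧ γ < x ∧ z = x.toZFSet := by
  obtain ⟨b, hb, hb'⟩ := h.collect (fun A _ v => val A (v 0) = (v 1).toZFSet) [] (by simp) hl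
  obtain ⟨s', hs', e⟩ := h.exists_val
    (fun A _ v => ∃ x, x < v 2 ∧ (x ∈ ext A (v 1) ∧ v 3 < x ∧ val A (v 0) = x.toZFSet))
    [s, l, γ] (by simpa using ⟨hs, hl, h.1.lower hγ.le hl⟩) hb
  refine ⟨val A s', ⟨s', hs', rfl⟩, fun z => ?_⟩
  rw [mem_val, e]
  constructor
  · rintro ⟨d, ⟨-, x, h1, h2, h3, h4⟩, rfl⟩
    exact ⟨x, h1, h2, h3, h4⟩
  · rintro ⟨x, h1, h2, h3, rfl⟩
    obtain ⟨d, hd, hd'⟩ := h.ord_mem.2 (h.1.lower h1.le hl)
    obtain ⟨d', h4, h5⟩ := hb' x h1 d hd hd'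
    exact ⟨d', ⟨h4, x, h1, h2, h3, h5⟩, h5⟩

/-- A named club of ordinals is a club set of the model. -/
theorem exists_club {A Λ : Set On} (h : ElUp A Λ) {s l γ : On} (hs : s ∈ Λ) (hl : l ∈ Λ)
    (hc : Clb (Iio l) (ext A s)) (hγ : γ < l) : ∃ J ∈ W A Λ, Club Mem l.toZFSet J ∧
      ∀ x : On, x.toZFSet ∈ J → x ∈ ext A s ∧ γ < x := by
  obtain ⟨J, hJ, e⟩ := wsharpb_set h hs hl hγ
  have e' : ∀ x : On, x.toZFSet ∈ J ↔ x < l ∧ x ∈ ext A s ∧ γ < x := fun x => by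
    rw [e]
    constructor
    · rintro ⟨y, h1, h2, h3, h4⟩
      rw [toZFSet_injective h4]
      exact ⟨h1, h2, h3⟩
    · rintro ⟨h1, h2, h3⟩
      exact ⟨x, h1, h2, h3, rfl⟩
  refine ⟨J, hJ, ⟨fun z hz => ?_, fun z hz => ?_, fun z hz h0 h1 => ?_⟩,
    fun x hx => ((e' x).1 hx).2⟩
  · obtain ⟨x, h1, -, -, rfl⟩ := (e z).1 hz
    exact toZFSet_mem_toZFSet_iff.2 h1
  · obtain ⟨x, h1, rfl⟩ := mem_toZFSet_iff.1 hz
    obtain ⟨y, h2, h3⟩ := hc.unb (max x γ) (max_lt h1 hγ)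
    exact ⟨y.toZFSet, (e' y).2 ⟨hc.sub h2, h2, (le_max_right _ _).trans_lt h3⟩,
      toZFSet_mem_toZFSet_iff.2 ((le_max_left _ _).trans_lt h3)⟩
  · obtain ⟨x, h2, rfl⟩ := mem_toZFSet_iff.1 hz
    have h3 : ∀ w < x, ∃ y ∈ ext A s, w < y ∧ y < x ∧ γ < y := fun w hw => by
      obtain ⟨y, a1, a2, a3⟩ := h1 _ (toZFSet_mem_toZFSet_iff.2 hw)
      obtain ⟨y, -, b2, b3, rfl⟩ := (e y).1 a1
      exact ⟨y, b2, toZFSet_mem_toZFSet_iff.1 a2, toZFSet_mem_toZFSet_iff.1 a3, b3⟩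
    obtain ⟨w₀, hw₀⟩ := h0
    obtain ⟨w, hw, -⟩ := mem_toZFSet_iff.1 hw₀
    obtain ⟨y, -, -, a1, a2⟩ := h3 w hw
    exact (e' x).2 ⟨h2, hc.cls x h2 (zero_le.trans_lt hw) fun w hw =>
      (h3 w hw).imp fun y a => ⟨a.1, a.2.1, a.2.2.1⟩, a2.trans a1⟩

/-- Hint: `a = val SS c`, `e = nn c`, `HasSharp.cert`, `Cert.card`, `Cert.exists_name`,
`val_congr`. -/
theorem sharpIn (h : AllSharp) {Λ : Set On} (hm : Mod SS Λ 0)
    (hr : ∀ x ∈ Λ, ∃ θ ∈ Λ, x < θ ∧ Nice (Iio θ) ∧ Rgl SS Λ θ) :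
    ∀ a ∈ W SS Λ, SharpIn (W SS Λ) a := by
  rintro _ ⟨c, hc, rfl⟩
  have hce : c < nn c := (nn_spec c).2.1
  obtain ⟨I, hI⟩ := (h (nn c)).cert inter_subset_right
  obtain ⟨q₀, hq⟩ := hI.satL hce
  obtain ⟨θ, h1, h4, h2, h3⟩ := hr _ (hm.el.nn_mem hc)
  have lim := hI.card h hm.el h1 h2 h3.card h4
  have h0 : 0 < θ := zero_le.trans_lt h4
  have hθ : θ ∈ I := hI.clb.cls θ trivial h0 lim
  obtain ⟨s, b1, b2, b3⟩ := hI.exists_name h lim h4
  have hs : s ∈ Λ := cardc_mem hm.el.1 (b1 ▸ hm.el.nn_mem h1)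
  obtain ⟨γ, c1, c2⟩ := carda_list h0 (q₀.filter (· < θ)) fun a ha => by
    simpa using (List.mem_filter.1 ha).2
  obtain ⟨J, d1, d2, d3⟩ := exists_club hm.el hs h1 b2 c1
  have ev : val (SS ∩ Iio (nn c)) c = val SS c :=
    val_congr fun x hx => and_iff_left ((hx.trans_le (lev_le c)).trans hce)
  refine ⟨θ, hm.reg h1 h2 h3, hm.bdd_val h1 h3 (hce.trans h4), J, d1, d2,
    fun φ b s t hb hs ht hst => ?_⟩
  have key : ∀ x : On, x.toZFSet ∈ J → x ∈ I ∧ γ < x ∧ x < θ := fun x hx =>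
    ⟨b3 (d3 x hx).1, (d3 x hx).2, b2.sub (d3 x hx).1⟩
  have := hq θ hθ γ (fun a ha ha' => c2 a (List.mem_filter.2 ⟨ha, by simpa using ha'⟩)) φ b s t
    (by rwa [ev]) hs ht (fun i => key _ (hst i).1) fun i => key _ (hst i).2
  rwa [ev] at this

theorem target (h : AllSharp) {Λ : Set On} {κ : On} (hm : Mod SS Λ 0)
    (hr : ∀ x ∈ Λ, ∃ θ ∈ Λ, x < θ ∧ Nice (Iio θ) ∧ Rgl SS Λ θ) (hκ : Ref SS Λ 0 κ) :
    Target (W SS Λ) :=
  ⟨W_trans hm.el.1.lower, hm.zfc, fun a ha _ => sharpIn h hm hr a ha, κ, hκ.reflecting hm⟩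

theorem wsharpb_md (k : ℕ) : MD fun A _ v => Sat A (Iio (v 0)) k (lv [v 1]) := by
  have := MD.satLt k (fun A _ _ => A) (fun _ _ v => v 0)
    (fun i _ _ v => lv [v 1] i) fun i => by
      rcases i with _ | i
      · exact MT.var 1
      · simpa using MT.zero
  exact this

/-- Club many regular ordinals below a regular cardinal.  Hint: `Λ = Iio τ.ord`, `κ` a limit point
of `E` intersected with the club of elementary levels; reflect with `TV.md`: the existence of a nice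
cardinal `θ'` with `Sat .. (Iio θ') k [a]` is definable in `Λ` (`MD.satLt`). -/
theorem target_of_club (h : AllSharp) {τ : Cardinal.{0}} (h1 : τ.IsRegular)
    (h2 : Cardinal.aleph0 < τ) {E : Set On} (hE : Clb (Iio τ.ord) E)
    (hr : ∀ δ ∈ E, Rgl SS univ δ) : ∃ M, Target M := by
  have hn : Nice (Iio τ.ord) := nice_ord h2
  have hel : ElUp SS (Iio τ.ord) := elUp_ord SS h1 h2
  have hC := Clb.inter (uc_ord h1 h2) hE hel.clb
  have hC' : ∀ δ ∈ E ∩ {l | l ∈ Iio τ.ord ∧ TV SS (Iio τ.ord) (Iio l)},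
      δ ∈ Iio τ.ord ∧ Nice (Iio δ) ∧ Rgl SS (Iio τ.ord) δ := fun δ hδ =>
    ⟨hδ.2.1, hδ.2.2.nice hn (isLowerSet_Iio δ), (hr δ hδ.1).mono (subset_univ _)⟩
  have hr' : ∀ x ∈ Iio τ.ord, ∃ θ ∈ Iio τ.ord, x < θ ∧ Nice (Iio θ) ∧ Rgl SS (Iio τ.ord) θ :=
    fun x hx => by
      obtain ⟨y, a1, a2⟩ := hC.unb x hx
      exact ⟨y, (hC' y a1).1, a2, (hC' y a1).2⟩
  have hm : Mod SS (Iio τ.ord) 0 := ⟨down_SS h, hel, hn.zero_mem, fun x hx => by
    obtain ⟨θ, a1, a2, a3, a4⟩ := hr' x hx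
    exact ⟨θ, a1, a2, a3, a4.card⟩⟩
  obtain ⟨κ, k1, k2, k3⟩ := carda_close (uc_ord h1 h2)
    (fun y z => ∃ u ∈ E ∩ {l | l ∈ Iio τ.ord ∧ TV SS (Iio τ.ord) (Iio l)}, y < u ∧ u < z)
    (fun y hy => by
      obtain ⟨u, a1, a2⟩ := hC.unb y hy
      exact ⟨u + 1, hn.succ_mem (hC.sub a1), a2.trans (lt_add_one u), u, a1, a2, lt_add_one u⟩)
    hn.zero_mem
  have k4 : ∀ w < κ, ∃ u ∈ E ∩ {l | l ∈ Iio τ.ord ∧ TV SS (Iio τ.ord) (Iio l)},
      w < u ∧ u < κ := fun w hw => by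
    obtain ⟨y, z, a1, a2, u, a3, a4, a5⟩ := k3 w hw
    exact ⟨u, a3, a1.trans a4, a5.trans_le a2⟩
  have k5 := hC.cls κ k1 k2 k4
  refine ⟨_, target h hm hr' (κ := κ) ⟨k1, k2, (hC' κ k5).2.2, ⟨(hC' κ k5).2.1, fun x hx => ?_⟩,
    fun k a θ a1 a2 a3 a4 a5 a6 => ?_⟩⟩
  · obtain ⟨u, a1, a2, a3⟩ := k4 x hx
    have := k5.2.2.inter hn (isLowerSet_Iio κ) a1.2.2
    rw [inter_eq_left.2 (Iio_subset_Iio a3.le)] at this
    exact ⟨u, a3, a2, this⟩
  · have := wsharpb_md k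
    obtain ⟨θ', b1, b2⟩ := k5.2.2.md hn
      (fun A Λ v => v 1 < v 0 ∧ Nice (Iio (v 0)) ∧ Card A Λ (v 0) ∧
        Sat A (Iio (v 0)) k (lv [v 1])) [a] (by simpa using a1) a3
      ⟨a1.trans_le a2, a4, a5, a6⟩
    exact ⟨θ', b1, b2⟩

/-- Reflection at `ω₁`. -/
theorem target_of_refl (h : AllSharp)
    (hr : ∀ (k : ℕ) (a θ : On), a < omega 1 → omega 1 ≤ θ → Nice (Iio θ) → Card SS univ θ →
      Sat SS (Iio θ) k (lv [a]) → ∃ θ' < omega 1, a < θ' ∧ Nice (Iio θ') ∧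
        Card SS (Iio (omega 1)) θ' ∧ Sat SS (Iio θ') k (lv [a])) : ∃ M, Target M := by
  have e : (Cardinal.aleph 1).ord = (omega 1 : On) := Cardinal.ord_aleph 1
  have h1 : (Cardinal.aleph 1 : Cardinal.{0}).IsRegular := Cardinal.isRegular_aleph_one
  have h2 : Cardinal.aleph0 < (Cardinal.aleph 1 : Cardinal.{0}) := Cardinal.aleph0_lt_aleph_one
  have hn : Nice (Iio (omega 1 : On)) := e ▸ nice_ord h2
  have h0 : (0 : On) < omega 1 := hn.zero_mem
  refine ⟨_, target h (mod_univ (down_SS h)) (fun x _ => ?_) (κ := omega 1)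
    ⟨trivial, h0, e ▸ rgl_ord SS h1, e ▸ elUp_ord SS h1 h2, fun k a θ a1 a2 _ a4 a5 a6 => ?_⟩⟩
  · have b1 : Cardinal.aleph0 ≤ max x.card Cardinal.aleph0 := le_max_right _ _
    refine ⟨(Order.succ (max x.card Cardinal.aleph0)).ord, trivial, ?_,
      nice_ord (Order.lt_succ_of_le b1), rgl_ord SS (Cardinal.isRegular_succ b1)⟩
    exact Cardinal.lt_ord.2 (Order.lt_succ_of_le (le_max_left _ _))
  · obtain ⟨θ', b1, b2, b3, b4, b5⟩ := hr k a θ a1 a2 a4 a5 a6
    exact ⟨θ', b1, b2, b3, card_up (down_SS h) (elUp_univ _) (e ▸ card_ord SS _) hn h0 trivial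
      b1 b4, b5⟩

end Pool.Agent.MP_fd3eaf_lc

end

-- part MP_fd3eaf_lc.Main
section

/-!
The main theorem.
-/

set_option autoImplicit false

namespace Pool.Agent.MP_fd3eaf_lc

open Set Ordinal

open Classical in
/-- The witness for the stage `i` of the run of a condition. -/
noncomputable def witD (S : Par) (q : P2 S) (i : On) : On × Set On :=
  Classical.epsilon fun z : On × Set On =>
    StepD (mrk (Zg q.p.1.g S.A) i (q.p.1.R.H i)) (q.p.1.R.H i) i (q.p.1.R.U i)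
      (if Order.IsSuccLimit i then q.p.1.R.S i else 0) z.1 z.2

/-- The data of the forcing argument. -/
noncomputable def setup (S : Par) : Setup (P2 S) where
  dn i := P2.Dn (lv (par i) 0) (lv (par i) 1) (toN (lv (par i) 2)) (toN (lv (par i) 3))
  nm c q := c ∈ q.σ
  g := nl ω
  fq q i := (witD S q i).1
  gq q i := (witD S q i).2
  st i := Iio (omega 1) ∩ Classical.epsilon fun I => Cert (SS ∩ Iio (p1 i)) univ (p2 i) I

section ctx

variable {S : Par} {α : On} {R : Set (Set On)} {G : Set (P2 S)}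

theorem ctx_dn (hS : S.Ok) (h : Ctx (setup S) α R G) {η η' : On} (h1 : η < α) (h2 : η' < α)
    (n N : ℕ) : ∃ q ∈ G, P2.Dn η η' n N q := by
  have hn := h.toCl.nice
  have hv : (Loc.mk (nl (max η η')) 0 0 [η, η', (n : On), (N : On)]).Valid := by
    refine ⟨zero_le, fun a ha => ?_⟩
    simp only [List.mem_cons, List.not_mem_nil, or_false] at ha
    rcases ha with rfl | rfl | rfl | rfl
    · exact (le_max_left _ _).trans_lt (lt_nl _)
    · exact (le_max_right _ _).trans_lt (lt_nl _)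
    · exact (natCast_lt_omega0 n).trans_le (isLev_nl _).1
    · exact (natCast_lt_omega0 N).trans_le (isLev_nl _).1
  have e : (setup S).dn (code ⟨nl (max η η'), 0, 0, [η, η', (n : On), (N : On)]⟩) =
      P2.Dn η η' n N := by
    simp only [setup, par_code (x := ⟨nl (max η η'), 0, 0, [η, η', (n : On), (N : On)]⟩)
      (isLev_nl _) hv, lv_zero, lv_succ, toN_nat]
  have k := h.dense _ (hn.code_mem (x := ⟨nl (max η η'), 0, 0, [η, η', (n : On), (N : On)]⟩)
    (hn.nl_mem (max_lt h1 h2)))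
  rw [e] at k
  exact k (fun _ _ a b => b.mono a) (P2.exists_dn hS (h1.trans h.lt) (h2.trans h.lt) n N)

theorem ctx_st (hs : AllSharp) (h : Ctx (setup S) α R G) : ∀ e j, e ≤ j → j < α →
    ∃ I, Cert (SS ∩ Iio e) univ j I ∧ ∀ C ∈ R, Clb (Iio α) C → ∃ δ ∈ C, δ ∈ I := by
  intro e j h1 h2
  have hI := Classical.epsilon_spec
    ((hs e).cert (e := j) (inter_subset_right.trans (Iio_subset_Iio h1)))
  have e' : (setup S).st (pr e j) =
      Iio (omega 1) ∩ Classical.epsilon fun I => Cert (SS ∩ Iio e) univ j I := by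
    simp only [setup, p1_pr, p2_pr]
  have k := h.st (pr e j) (h.toCl.nice.pr_mem (h1.trans_lt h2) h2)
  rw [e'] at k
  have ho := hI.ord (κ := Cardinal.aleph 1) Cardinal.aleph0_lt_aleph_one
    (by rw [Cardinal.ord_aleph]; exact h2.trans h.lt)
  rw [Cardinal.ord_aleph] at ho
  have hc := (hI.clb.restrict isLowerSet_univ (subset_univ _) ho).stn uc_omega1
  rw [inter_comm] at hc
  refine ⟨_, hI, fun C hC hC' => ?_⟩
  obtain ⟨δ, a1, a2⟩ := k (hc nice_omega1.ne) C hC hC'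
  exact ⟨δ, a1, a2.2⟩

/-- The matrix holds in the extension.  Hint: `Cl.xok_sound`, `ctx_dn`, `P2.gen_code`,
`Pre.congr`, `mat_core`. -/
theorem ctx_mat (hS : S.Ok) (h : Ctx (setup S) α R G) : ∀ o < α, ∀ B ∈ R, ∃ w < α, ∃ C ∈ R,
    Mat S.sh S.use S.k ((setup S).gen G) S.y B C o S.a w := by
  classical
  intro o ho B hB
  have hl : ∀ i, lv (par o) i < α := fun i => (par_getD_le o i).trans_lt ho
  unfold Mat
  have hξ := hl 0
  have hL₀ := hl 2
  have hL₁ := hl 3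
  generalize lv (par o) 0 = ξ at hξ
  generalize lv (par o) 1 = s₀
  generalize lv (par o) 2 = L₀ at hL₀
  generalize lv (par o) 3 = L₁ at hL₁
  by_cases hr : S.sh = true ∧ ∃ w < α, ∃ C ∈ R, Refut (sec B 0) C L₀ L₁ w
  · obtain ⟨a1, w, hw, C, hC, a2⟩ := hr
    exact ⟨w, hw, C, hC, fun _ _ _ _ => Or.inl ⟨a1, a2⟩⟩
  obtain ⟨q, hq, hlen, -⟩ := ctx_dn hS h hξ hξ 0 0
  have c := (q.p.2.pre ξ (hlen.trans (lt_add_one _))).stage.col
  have hξ1 := hξ.trans h.lt
  have hs1 : (if Order.IsSuccLimit ξ then q.p.1.R.S ξ else 0) < omega 1 := by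
    split_ifs with k
    · exact q.p.2.cnt ξ (hlen.trans (lt_add_one _)) k
    · exact zero_le.trans_lt hξ1
  have hd : StepD (mrk (Zg q.p.1.g S.A) ξ (q.p.1.R.H ξ)) (q.p.1.R.H ξ) ξ (q.p.1.R.U ξ)
      (if Order.IsSuccLimit ξ then q.p.1.R.S ξ else 0) (witD S q ξ).1 (witD S q ξ).2 := by
    obtain ⟨w, C, k⟩ := exists_stepD (mrk (Zg q.p.1.g S.A) ξ (q.p.1.R.H ξ)) hξ1
      (c.lt_omega1 hξ1) hs1 c.lt
    exact Classical.epsilon_spec (p := fun z : On × Set On =>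
      StepD (mrk (Zg q.p.1.g S.A) ξ (q.p.1.R.H ξ)) (q.p.1.R.H ξ) ξ (q.p.1.R.U ξ)
        (if Order.IsSuccLimit ξ then q.p.1.R.S ξ else 0) z.1 z.2) ⟨(w, C), k⟩
  obtain ⟨b1, b2⟩ := h.fq q hq ξ hξ hd.1
  have b3 : (witD S q ξ).2 ∈ R := by
    rw [← inter_eq_left.2 hd.2.1]
    exact b2
  have e : ZAg (Zx ((setup S).gen G) q.p.1.R.r) (Zg q.p.1.g S.A) ξ :=
    P2.gen_code h.compat (fun η a η' b n N => ctx_dn hS h (a.trans hξ) (b.trans hξ) n N) hq hlen.le
  refine ⟨(witD S q ξ).1, b1, (witD S q ξ).2, b3, fun hX hN _ hp => Or.inr ?_⟩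
  refine mat_core (R := q.p.1.R) (s := if Order.IsSuccLimit ξ then q.p.1.R.S ξ else 0)
    (fun k => h.toCl.xok_sound (ctx_st (hS.sharp k) h) (h.toCl.sec_mem hB 0) hL₁ (hX k)
      fun w hw C hC k' => hr ⟨k, w, hw, C, hC, k'⟩) hN (hL₀.trans h.lt) hp
    ⟨(q.p.2.pre.mono (add_le_add_left hlen.le 1)).congr
      (fun β hβ => e.symm.mono (Order.lt_add_one_iff.1 hβ))
      ⟨fun _ _ _ _ _ => rfl, fun _ _ => rfl, fun _ _ _ => rfl, fun _ _ _ _ => rfl,
        fun _ _ _ => Iff.rfl⟩, q.p.2.cnt.mono (add_le_add_left hlen.le 1)⟩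
    (fun k => ?_) (fun k => if_pos k) ?_
  · rw [PS_congr e fun _ _ _ => rfl]
    exact q.p.2.con ξ hlen.le k
  · rw [mrk_congr e fun _ _ _ => rfl]
    exact hd

end ctx

theorem exists_psi (h : Abs3) {S : Par} (hS : S.Ok) (hy : ∃ g < omega 1, S.y ⊆ Iio g) :
    ∃ x, (∃ g < omega 1, x ⊆ Iio g) ∧ Psi S.sh S.use x S.y S.k S.a := by
  obtain ⟨K, _, φ, hφ⟩ := P2.exists_key S
  haveI := P2.nonempty hS
  obtain ⟨g, h1, h2⟩ := hy
  have hg : (setup S).g < omega 1 := nice_omega1.nl_mem nice_omega1.omega_mem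
  obtain ⟨X, a1, a2⟩ := abs_main h φ hφ (P2.sp hS) (setup S) hg (Mat S.sh S.use S.k)
    (md4_mat _ _ _) h1 h2 hS.a_lt fun α R G hc _ => ctx_mat hS hc
  exact ⟨X, a1, psi_of_mat hS.sharp a2⟩

/-- No bounded set has a total run. -/
theorem not_total (h : Abs3) {S : Par} (hS : S.Ok) {y : Set On}
    (hy : ∃ g < omega 1, y ⊆ Iio g) : ¬ Total S.sh y := by
  intro h0
  have step : ∀ z : {z : Set On // (∃ g < omega 1, z ⊆ Iio g) ∧ Total S.sh z},
      ∃ x : {z : Set On // (∃ g < omega 1, z ⊆ Iio g) ∧ Total S.sh z},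
        Psi S.sh true x.1 z.1 S.k S.a := fun z => by
    have hok : Par.Ok { S with use := true, y := z.1 } :=
      ⟨hS.sharp, hS.sub, hS.e_lt, hS.reg, hS.big, hS.sing, hS.ge, hS.lt, hS.nice, hS.card,
        hS.sat, hS.a_lt, fun _ => z.2.2⟩
    obtain ⟨x, a1, a2⟩ := exists_psi h hok z.2.1
    exact ⟨⟨x, a1, a2.total_use z.2.2⟩, a2⟩
  choose f hf using step
  refine no_chain (k := S.k) (a := S.a) (fun n => (f^[n] ⟨y, hy, h0⟩).1) h0 fun n => ?_
  rw [Function.iterate_succ_apply']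
  exact hf _

theorem club_or_sing (O : Set On) (τ : Cardinal.{0}) :
    (∃ E, Clb (Iio τ.ord) E ∧ ∀ δ ∈ E, Rgl O univ δ) ∨
      Stn (Iio τ.ord) {δ | ¬ Rgl O univ δ} := by
  by_contra k
  rw [not_or] at k
  refine k.2 fun C hC => ?_
  by_contra k'
  exact k.1 ⟨C, hC, fun δ hδ => by_contra fun hn => k' ⟨δ, hn, hδ⟩⟩

/-- Hint: `covering`; otherwise take `θ = ω₁`, `k = fneg 0`, `a = 0`, `sh = use = false`. -/
theorem allSharp (h : Abs3) : AllSharp := by
  intro e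
  refine covering (e := e) inter_subset_right fun τ h1 h2 h3 => ?_
  refine (club_or_sing _ τ).resolve_right fun hs => ?_
  have e1 : (Cardinal.aleph 1).ord = (omega 1 : On) := Cardinal.ord_aleph 1
  have h0 : (0 : On) < omega 1 := nice_omega1.zero_mem
  have hok : Par.Ok ⟨false, false, SS ∩ Iio e, e, τ, omega 1, fneg 0, 0, ∅⟩ :=
    ⟨fun k => absurd k Bool.false_ne_true, inter_subset_right, h3, h1, h2, hs, le_rfl,
      e1 ▸ Cardinal.ord_lt_ord.2 h2, nice_omega1, e1 ▸ card_ord _ _,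
      sat_fneg.2 not_sat_zero, h0, fun k => absurd k Bool.false_ne_true⟩
  obtain ⟨x, a1, a2⟩ := exists_psi h hok ⟨0, h0, empty_subset _⟩
  exact not_total h hok a1 a2.total_false

theorem main (h : Abs3) : ∃ M : Set ZFSet.{0}, Target M := by
  have hs := allSharp h
  by_cases k : ∃ τ : Cardinal.{0}, τ.IsRegular ∧ Cardinal.aleph0 < τ ∧
      ∃ E, Clb (Iio τ.ord) E ∧ ∀ δ ∈ E, Rgl SS univ δ
  · obtain ⟨τ, h1, h2, E, hE, hr⟩ := k
    exact target_of_club hs h1 h2 hE hr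
  refine target_of_refl hs fun j a θ a1 a2 a3 a4 a5 => ?_
  have h0 : (0 : On) < omega 1 := nice_omega1.zero_mem
  have b0 : Cardinal.aleph0 ≤ max θ.card (Cardinal.aleph 1) :=
    (Cardinal.aleph0_le_aleph 1).trans (le_max_right _ _)
  have b1 := Cardinal.isRegular_succ b0
  have b2 : Cardinal.aleph 1 < Order.succ (max θ.card (Cardinal.aleph 1)) :=
    Order.lt_succ_of_le (le_max_right _ _)
  have b3 : θ < (Order.succ (max θ.card (Cardinal.aleph 1))).ord :=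
    Cardinal.lt_ord.2 (Order.lt_succ_of_le (le_max_left _ _))
  have b4 := (club_or_sing SS (Order.succ (max θ.card (Cardinal.aleph 1)))).resolve_left
    fun k' => k ⟨_, b1, Order.lt_succ_of_le b0, k'⟩
  have hok : Par.Ok ⟨true, false, ∅, 0, Order.succ (max θ.card (Cardinal.aleph 1)), θ, j, a, ∅⟩ :=
    ⟨fun _ => hs, empty_subset _, (h0.trans_le a2).trans b3, b1, b2, b4, a2, b3, a3, a4, a5, a1,
      fun k => absurd k Bool.false_ne_true⟩
  obtain ⟨x, c1, c2⟩ := exists_psi h hok ⟨0, h0, empty_subset _⟩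
  exact c2.refl (not_total h hok c1)

end Pool.Agent.MP_fd3eaf_lc

end

-- part MP_fd3eaf_lc.Up.Main
section

/-!
The upper bound.
-/

set_option autoImplicit false

namespace Pool.Agent.MP_fd3eaf_lc.Up

open Pool.Agent.Lib.Forcing

theorem upper (h : Target Set.univ) : ∃ (B : Type) (_ : CompleteBooleanAlgebra B),
    Nonempty (Ult B) ∧ (∀ U : Ult B, ZFC U.E) ∧ AbsIn B := by
  obtain ⟨B, _, h0, h1⟩ := val3_abs h
  refine ⟨B, inferInstance, (Ult.exists_mem h0).nonempty, Ult.zfc, fun C _ k φ hφ U v hv => ?_⟩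
  obtain ⟨T, A1, A2, h2⟩ := trans3 hφ
  obtain ⟨N, hN⟩ := fml_irrel φ
  let τ : ℕ → Nm B := fun i => if i < N then v i else empN
  choose R hR using fun i => exists_cd (τ i)
  let r : ℕ → B := fun n => R n.unpair.1 n.unpair.2.unpair.1 n.unpair.2.unpair.2
  let b : B := (Finset.range N).inf fun i => hcv (v i)
  have hb : (pull k U).P b := ((pull k U).finset_inf _ _).2 fun i _ => (hcv_iff _ _).2 (hv i)
  have h3 : ∀ n, Cd b (ch r n) (τ n) := fun n => by
    have e : ch r n = R n := by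
      funext i j
      simp [ch, r]
    rw [e]
    refine (hR n).mono ?_
    by_cases hn : n < N
    · simp only [τ, if_pos hn]
      exact Finset.inf_le (f := fun i => hcv (v i)) (Finset.mem_range.2 hn)
    · simp only [τ, if_neg hn, hcv_emp, le_top]
  have h4 := congrArg k (h2 B b r τ h3)
  rw [map_inf, map_inf, h1, ← h2 C (k b) (fun n => k (r n)) (fun i => push k (τ i))
    fun n => (h3 n).push k] at h4
  have h5 : (pull k U).P (tv φ τ) ↔ U.P (tv φ fun i => push k (τ i)) := by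
    have := congrArg U.P h4
    rw [eq_iff_iff, U.inf, U.inf] at this
    exact ⟨fun a => (this.1 ⟨hb, a⟩).2, fun a => (this.2 ⟨hb, a⟩).2⟩
  rw [tv_iff, tv_iff] at h5
  refine (hN _ _ _ _ fun i hi => ?_).trans (h5.trans (hN _ _ _ _ fun i hi => ?_))
  · simp only [τ, if_pos hi]
  · simp only [τ, if_pos hi]

end Pool.Agent.MP_fd3eaf_lc.Up

end
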