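import Pool.Agent.MP_fd3eaf_lc.Mg.Mat
import Pool.Agent.MP_fd3eaf_lc.Mg.Ind
import Pool.Agent.MP_fd3eaf_lc.Defs
import Pool.Agent.MP_ecfd11_lc.Defs

-- part MP_fd3eaf_lc.Cover
section

/-!
Covering for a set oracle: a large regular ordinal of the machine with cofinality `ω` gives a sharp.
-/

set_option autoImplicit false

namespace Pool.Agent.MP_fd3eaf_lc

open Set Ordinal

/-- `X` realises all types of sequences over countably many of its elements. -/
def Satu (A Λ X : Set On) : Prop :=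
  X ⊆ Λ ∧ ∀ z : ℕ → On, (∀ j, z j ∈ Λ) → ∃ z' : ℕ → On, (∀ j, z' j ∈ X) ∧
    (∀ j, z j ∈ X → z' j = z j) ∧ ∀ k, Sat A Λ k z ↔ Sat A Λ k z'

theorem covera_zero {A Λ X : Set On} (h : Satu A Λ X) (hΛ : Nice Λ) : (0 : On) ∈ X := by
  obtain ⟨z, h1, -, h3⟩ := h.2 (fun _ => 0) fun _ => hΛ.zero_mem
  have e : ∀ v, Sat A Λ (fall (fneg (mk 1 0 1 0))) v ↔ ∀ ξ ∈ Λ, ¬ ξ < v 0 := by
    intro v
    rw [sat_fall]
    refine forall_congr' fun ξ => forall_congr' fun _ => ?_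
    rw [sat_fneg, sat_atom (by simp) (by simp) (by simp)]
    simp [Atom]
  have := (e z).1 ((h3 _).1 ((e _).2 fun ξ _ => not_lt_bot)) 0 hΛ.zero_mem
  have h0 : z 0 = 0 := le_antisymm (not_lt.1 this) bot_le
  exact h0 ▸ h1 0

theorem Satu.tv {A Λ X : Set On} (h : Satu A Λ X) (hΛ : Nice Λ) : TV A Λ X := by
  refine ⟨h.1, fun k q hq ⟨ξ, hξ, hs⟩ => ?_⟩
  obtain ⟨z, h1, h2, h3⟩ := h.2 (lv (ξ :: q)) (lv_mem hΛ.zero_mem fun a ha => by
    rcases List.mem_cons.1 ha with rfl | ha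
    exacts [hξ, h.1 (hq a ha)])
  refine ⟨z 0, h1 0, ?_⟩
  have e : lv (z 0 :: q) = z := by
    funext j
    cases j with
    | zero => rfl
    | succ j => exact (h2 (j + 1) (lv_mem (covera_zero h hΛ) hq j)).symm
  rw [e]
  exact (h3 k).1 hs

/-- Arities of the closure terms. -/
def coveraAr {X₀ : Set On} : X₀ ⊕ (Set ℕ × Set ℕ × ℕ) → Type
  | .inl _ => Empty
  | .inr p => p.1

theorem covera_close {X₀ : Set On} {μ : Cardinal.{0}}
    (h1 : Cardinal.mk X₀ ≤ Cardinal.lift.{1} μ) (h2 : Cardinal.aleph0 ≤ μ)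
    (h3 : μ ^ Cardinal.aleph0.{0} = μ) (F : (s : Set ℕ) → Set ℕ → ℕ → (s → On) → On) :
    ∃ X, X₀ ⊆ X ∧ Cardinal.mk X ≤ Cardinal.lift.{1} μ ∧
      ∀ s t j a, (∀ i, a i ∈ X) → F s t j a ∈ X := by
  let G : (Σ a : X₀ ⊕ (Set ℕ × Set ℕ × ℕ), coveraAr a → On) → On := fun p =>
    match p with
    | ⟨.inl x, _⟩ => x.1
    | ⟨.inr p, a⟩ => F p.1 p.2.1 p.2.2 a
  refine ⟨range (WType.elim On G), fun x hx => ⟨⟨.inl ⟨x, hx⟩, Empty.elim⟩, rfl⟩, ?_,
    fun s t j a ha => ?_⟩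
  · refine Cardinal.mk_range_le.trans (WType.cardinalMk_le_of_le' ?_)
    have hc : Cardinal.continuum ≤ μ := by
      rw [← h3, ← Cardinal.two_power_aleph0]
      exact Cardinal.power_le_power_right (Cardinal.nat_lt_aleph0 2 |>.le.trans h2)
    have h2' : Cardinal.aleph0 ≤ Cardinal.lift.{1} μ := by simpa using h2
    have hc' : Cardinal.continuum ≤ Cardinal.lift.{1} μ := by simpa using hc
    have hp : ∀ a : X₀ ⊕ (Set ℕ × Set ℕ × ℕ),
        Cardinal.lift.{1} μ ^ Cardinal.lift.{1} (Cardinal.mk (coveraAr a)) ≤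
          Cardinal.lift.{1} μ := by
      intro a
      have : Cardinal.mk (coveraAr a) ≤ Cardinal.aleph0 := by
        cases a with
        | inl x => simp [coveraAr]
        | inr p => exact Cardinal.mk_le_aleph0_iff.2 (inferInstanceAs (Countable p.1))
      rw [← Cardinal.lift_power, Cardinal.lift_le]
      exact (Cardinal.power_le_power_left (Cardinal.aleph0_pos.trans_le h2).ne' this).trans h3.le
    refine (Cardinal.sum_le_sum _ _ hp).trans ?_
    rw [Cardinal.sum_const']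
    refine Cardinal.mul_le_of_le h2' ?_ le_rfl
    rw [Cardinal.mk_sum]
    refine Cardinal.add_le_of_le h2' (by simpa using h1) ?_
    simpa using hc'
  · choose w hw using ha
    refine ⟨⟨.inr (s, t, j), w⟩, ?_⟩
    change F s t j (fun i => WType.elim On G (w i)) = _
    rw [funext hw]

/-- Close under choosing one realisation of every type over countably many elements. -/
theorem exists_satu (A : Set On) {δ : On} {X₀ : Set On} {μ : Cardinal.{0}} (h0 : X₀ ⊆ Iio δ)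
    (h1 : Cardinal.mk X₀ ≤ Cardinal.lift.{1} μ) (h2 : Cardinal.aleph0 ≤ μ)
    (h3 : μ ^ Cardinal.aleph0.{0} = μ) :
    ∃ X, X₀ ⊆ X ∧ Cardinal.mk X ≤ Cardinal.lift.{1} μ ∧ Satu A (Iio δ) X := by
  let R : (s : Set ℕ) → Set ℕ → (s → On) → (ℕ → On) → Prop := fun s t a z =>
    (∀ j, z j < δ) ∧ (∀ i : s, z i = a i) ∧ ∀ k, k ∈ t ↔ Sat A (Iio δ) k z
  obtain ⟨X, a1, a2, a3⟩ := covera_close h1 h2 h3
    fun s t j a => Classical.epsilon (R s t a) j
  refine ⟨X ∩ Iio δ, subset_inter a1 h0, (Cardinal.mk_le_mk_of_subset inter_subset_left).trans a2,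
    inter_subset_right, fun z hz => ?_⟩
  have hR := Classical.epsilon_spec (p := R {j | z j ∈ X} {k | Sat A (Iio δ) k z} fun i => z i)
    ⟨z, hz, fun _ => rfl, fun _ => Iff.rfl⟩
  exact ⟨_, fun j => ⟨a3 _ _ j _ fun i => i.2, hR.1 j⟩, fun j hj => hR.2.1 ⟨j, hj.1⟩, hR.2.2⟩

/-- The situation of the covering argument: `π` is the uncollapse of a saturated cofinal set. -/
structure Sit (A : Set On) (e δ δ' : On) (π : On → On) : Prop where
  sub : A ⊆ Iio e
  lt : e < δ'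
  fix : ∀ x ≤ e, π x = x
  elem : Elem A A (Iio δ') (Iio δ) π
  cof : ∀ x < δ, ∃ y < δ', x < π y
  satu : ∀ z : ℕ → On, (∀ j, z j < δ) → ∃ z' : ℕ → On, (∀ j, z' j < δ') ∧
    (∀ j, ∀ y < δ', z j = π y → z' j = y) ∧ ∀ k, Sat A (Iio δ) k z ↔ Sat A (Iio δ') k z'

theorem exists_sit {A : Set On} {e δ : On} {μ : Cardinal.{0}} (hA : A ⊆ Iio e)
    (hδ : Nice (Iio δ)) (x : ℕ → On) (hx : ∀ n, x n < δ) (hc : ∀ y < δ, ∃ n, y < x n)
    (h1 : e.card ≤ μ) (h2 : Cardinal.aleph0 ≤ μ) (h3 : μ ^ Cardinal.aleph0.{0} = μ)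
    (h4 : μ < δ.card) : ∃ δ' π, Sit A e δ δ' π ∧ ∃ y < δ', π y ≠ y := by
  have he : e < δ := lt_of_not_ge fun h => (h4.trans_le (Ordinal.card_le_card h)).not_ge h1
  have h2' : Cardinal.aleph0 ≤ Cardinal.lift.{1} μ := by simpa using h2
  obtain ⟨X, a1, a2, a3⟩ := exists_satu A (δ := δ) (X₀ := Iio (e + 1) ∪ range x) (μ := μ)
    (union_subset (fun y hy => (Order.lt_add_one_iff.1 hy).trans_lt he)
      (range_subset_iff.2 hx))
    ((Cardinal.mk_union_le _ _).trans (Cardinal.add_le_of_le h2'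
      (by
        rw [Ordinal.mk_Iio_ordinal, Cardinal.lift_le, Ordinal.card_add_one]
        exact Cardinal.add_le_of_le h2 h1 (Cardinal.one_le_aleph0.trans h2))
      ((Cardinal.le_aleph0_iff_set_countable.2 (countable_range x)).trans h2'))) h2 h3
  have hI : Iio (e + 1) ⊆ X := subset_union_left.trans a1
  have hfix : ∀ y ≤ e, col X δ y = y := fun y hy => col_fix hI (Order.lt_add_one_iff.2 hy)
  have hback : ∀ y ∈ X, ∃ y' < otp X δ, col X δ y' = y := fun y hy => by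
    have : y ∈ col X δ '' Iio (otp X δ) := by rw [col_image]; exact ⟨hy, a3.1 hy⟩
    exact this
  have hel := (down_of_subset hA).elem hδ (a3.tv hδ)
    ((Iio_subset_Iio le_self_add).trans hI)
  have hcof : ∀ y < δ, ∃ y' < otp X δ, y < col X δ y' := fun y hy => by
    obtain ⟨n, hn⟩ := hc y hy
    obtain ⟨y', b1, b2⟩ := hback (x n) (a1 (Or.inr ⟨n, rfl⟩))
    exact ⟨y', b1, b2 ▸ hn⟩
  refine ⟨otp X δ, col X δ, ⟨hA, col_lt_iff.1 ((hfix e le_rfl).trans_lt he), hfix, hel, hcof,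
    fun z hz => ?_⟩, ?_⟩
  · obtain ⟨z', b1, b2, b3⟩ := a3.2 z hz
    choose w w1 w2 using fun j => hback _ (b1 j)
    refine ⟨w, w1, fun j y hy e1 => (col_strictMono (H := X) (η := δ)).injective ?_, fun k => ?_⟩
    · rw [w2, ← e1]
      exact b2 j (e1 ▸ condb_mem (col_lt_iff.2 hy))
    · rw [b3, hel.sat k w w1, show col X δ ∘ w = z' from funext w2]
  · by_contra hn
    push Not at hn
    have : δ ≤ otp X δ := le_of_forall_lt fun y hy => by
      obtain ⟨y', b1, b2⟩ := hcof y hy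
      exact (b2.trans_eq (hn y' b1)).trans b1
    rw [← card_otp a3.1, Cardinal.lift_le] at a2
    exact (h4.trans_le (Ordinal.card_le_card this)).not_ge a2

section ultra
variable {A : Set On} {e δ δ' d : On} {π : On → On}

/-- The critical point. -/
structure Crit (π : On → On) (δ' d : On) : Prop where
  lt : d < δ'
  fix : ∀ x < d, π x = x
  move : d < π d

theorem coverb_satu (h : Sit A e δ δ' π) (z : ℕ → On) (hz : ∀ j, z j < δ) :
    ∃ z' : ℕ → On, (∀ j, z' j < δ') ∧ (∀ j, ∀ y < δ', z j = π y → z' j = y) ∧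
      ∀ (P : Set On → Set On → (ℕ → On) → Prop) [MD P], P A (Iio δ) z → P A (Iio δ') z' := by
  obtain ⟨z', h1, h2, h3⟩ := h.satu z hz
  refine ⟨z', h1, h2, fun P _ hP => ?_⟩
  obtain ⟨k, hk⟩ := MD.ex (P := P)
  exact (hk A _ z' h.elem.nice h1).1 ((h3 k).1 ((hk A _ z h.elem.nice' hz).2 hP))

theorem Sit.exists_crit (h : Sit A e δ δ' π) (h' : ∃ y < δ', π y ≠ y) :
    ∃ d, Crit π δ' d ∧ e < d ∧ Nice (Iio d) ∧ UC (Iio d) := by
  obtain ⟨d, ⟨h1, h2⟩, h3⟩ := (wellFounded_lt (α := On)).has_min {y | y < δ' ∧ π y ≠ y} h'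
  have hf : ∀ x < d, π x = x := fun x hx => not_not.1 fun k => h3 x ⟨hx.trans h1, k⟩ hx
  have hE := h.elem.emb
  have hN := h.elem.nice
  have hm : d < π d := by
    refine lt_of_le_of_ne (not_lt.1 fun k => ?_) h2.symm
    exact ((hE.lt (k.trans h1) h1).2 k).ne (hf _ k)
  have he : e < d := not_le.1 fun k => h2 (h.fix d k)
  have hω : ω ≤ d := not_lt.1 fun k => by
    obtain ⟨n, rfl⟩ := lt_omega0.1 k
    exact h2 ((hE.iff h1 h1 (.nat n)).1 rfl)
  refine ⟨d, ⟨h1, hf, hm⟩, he, ⟨isLowerSet_Iio d, ⟨e, he⟩, fun c hc => ?_⟩,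
    isLowerSet_Iio d, fun x hx => ?_⟩
  · refine ⟨nl c, mem_Iio.2 (not_le.1 fun k => h2 ?_), isLev_nl c, lt_nl c⟩
    rcases k.eq_or_lt with k | k
    · have := h.elem.mt (fun _ _ v => nl (v 0)) (v := fun _ => c) fun _ => hc.trans h1
      change π (nl c) = nl (π c) at this
      rw [k, this, hf c hc]
    · have a : lev d < d := (not_lt.1 fun b =>
        ((nl_le (isLev_lev hω) b).trans (lev_le d)).not_gt k).trans_lt hc
      refine D_inj (hω.trans hm.le) hω ?_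
      rw [hE.D (DCl.of_lower hN.lower hN.zero_mem) h1]
      refine Loc.ext (hf _ a) rfl (hf _ ((cut_le_lev d).trans_lt a)) ?_
      exact (List.map_congr_left fun b hb => hf b (par_lt hb)).trans (List.map_id _)
  · have hd : π d < δ := h.elem.mem d h1
    obtain ⟨z', a1, a2, a3⟩ := coverb_satu h (cons d (cons (π d) x))
      (cons_mem (Λ := Iio δ) (hm.trans hd) (cons_mem (Λ := Iio δ) hd
        fun n => (lt_trans (hx n) hm).trans hd))
    refine ⟨z' 0, ?_, fun n => ?_⟩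
    · have := a3 (fun _ _ v => v 0 < v 1) hm
      rwa [a2 1 d h1 rfl] at this
    · have := a3 (fun _ _ v => v (n + 1 + 1) < v 0) (hx n)
      rwa [a2 (n + 1 + 1) (x n) (lt_trans (hx n) h1) (hf _ (hx n)).symm] at this

theorem coverb_name (h : Sit A e δ δ' π) (hd : Crit π δ' d) (hc : Card A univ δ')
    (P : Set On → Set On → (ℕ → On) → Prop) [MD P] (q : List On) (hq : ∀ a ∈ q, a < δ) :
    ∃ s < δ', ext A s = {x | x < d ∧ P A (Iio δ) (lv (x :: q))} := by
  obtain ⟨s, -, -, -, h1⟩ := MD.exists_ext P A h.elem.nice' q hq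
  obtain ⟨s', h2, h3⟩ := gch (down_of_subset h.sub) (elUp_univ A) hc h.elem.nice h.lt hd.lt
    (mem_univ s) (mem_univ _)
  refine ⟨s', h2, h3.trans (Set.ext fun x => ?_)⟩
  rw [h1]
  exact ⟨fun k => ⟨k.2, k.1.2⟩,
    fun k => ⟨⟨(lt_trans k.1 hd.move).trans (h.elem.mem d hd.lt), k.2⟩, k.1⟩⟩

theorem coverb_par (h : Sit A e δ δ' π) (hd : Crit π δ' d) {s : On} (hs : s < δ')
    (h1 : ∀ c < d, ∀ c' < d, par c = par c' → (c ∈ ext A s ↔ c' ∈ ext A s)) :
    ∀ c < π d, ∀ c' < π d, par c = par c' → (c ∈ ext A (π s) ↔ c' ∈ ext A (π s)) :=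
  (h.elem.md (fun A _ v => ∀ c < v 0, ∀ c' < v 0, par c = par c' →
    (c ∈ ext A (v 1) ↔ c' ∈ ext A (v 1))) (v := cons d fun _ => s)
    (cons_mem (Λ := Iio δ') hd.lt fun _ => hs)).1 h1

/-- The iterated ultrafilter quantifier: `UQ k m n c` says that for ultrafilter-many `n` further
ordinals put in front of `par c`, the formula `k` holds in `Iio d`.  The lemma provides names for
all these predicates.  Hint: induction on `n`; given the name `s` for `n` let the set for `n + 1` be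
`{c < d | ins (mov c (nl d)) d ∈ ext A (π s)}`, which has a name below `δ'` by `MD.exists_ext` and
`gch` (with `Λ = univ`, `θ = δ'`, `down_of_subset`); membership of `c` in `ext A (s n)` only
depends on `par c`, also after applying `π` (elementarity). -/
theorem Sit.exists_names (h : Sit A e δ δ' π) (hd : Crit π δ' d) (hn : Nice (Iio d)) (he : e < d)
    (hc : Card A univ δ') (k : ℕ) : ∃ s : ℕ → On, (∀ n, s n < δ' ∧ ext A (s n) ⊆ Iio d) ∧
      (∀ c < d, c ∈ ext A (s 0) ↔ Sat A (Iio d) k (lv (par c))) ∧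
      (∀ n, ∀ c < d, ∀ c' < d, par c = par c' → (c ∈ ext A (s n) ↔ c' ∈ ext A (s n))) ∧
      ∀ n, ∀ c < d, ∀ c' < π d, par c' = d :: par c →
        (c ∈ ext A (s (n + 1)) ↔ c' ∈ ext A (π (s n))) := by
  have hδ : d < δ := hd.move.trans (h.elem.mem d hd.lt)
  have := MD.satLt k (fun A _ _ => A) (fun _ _ v => v 1) (fun i _ _ v => lv (par (v 0)) i)
    fun i => MT.lv_par _ i
  obtain ⟨s₀, a1, a2⟩ := coverb_name h hd hc
    (fun A _ v => Sat A (Iio (v 1)) k fun i => lv (par (v 0)) i) [d] (by simpa using hδ)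
  have step : ∀ s, ∃ s', s < δ' → s' < δ' ∧
      ext A s' = {c | c < d ∧ code ⟨nl d, 0, 0, d :: par c⟩ ∈ ext A (π s)} := by
    intro s
    by_cases hs : s < δ'
    · obtain ⟨s', b⟩ := coverb_name h hd hc
        (fun A _ v => code ⟨nl (v 1), 0, 0, v 1 :: par (v 0)⟩ ∈ ext A (v 2)) [d, π s] fun a ha => by
          rcases List.mem_pair.1 ha with rfl | rfl
          exacts [hδ, h.elem.mem s hs]
      exact ⟨s', fun _ => b⟩
    · exact ⟨0, fun k => absurd k hs⟩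
  choose g hg using step
  have b1 : ∀ n : ℕ, g^[n] s₀ < δ' := fun n => by
    induction n with
    | zero => exact a1
    | succ n ih => rw [Function.iterate_succ_apply']; exact (hg _ ih).1
  have b2 : ∀ n : ℕ, ext A (g^[n + 1] s₀) =
      {c | c < d ∧ code ⟨nl d, 0, 0, d :: par c⟩ ∈ ext A (π (g^[n] s₀))} := fun n => by
    rw [Function.iterate_succ_apply']; exact (hg _ (b1 n)).2
  have b3 : ∀ n : ℕ, ∀ c < d, ∀ c' < d, par c = par c' →
      (c ∈ ext A (g^[n] s₀) ↔ c' ∈ ext A (g^[n] s₀)) := by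
    rintro (_ | n) c h1 c' h2 h3
    · change c ∈ ext A s₀ ↔ c' ∈ ext A s₀
      rw [a2]
      change c < d ∧ Sat A (Iio d) k (lv (par c)) ↔ c' < d ∧ Sat A (Iio d) k (lv (par c'))
      rw [h3, and_iff_right h1, and_iff_right h2]
    · rw [b2, mem_setOf_eq, mem_setOf_eq, h3, and_iff_right h1, and_iff_right h2]
  have hn' : Nice (Iio (π d)) := (h.elem.restrict hd.lt hn).nice'
  refine ⟨fun n => g^[n] s₀, fun n => ⟨b1 n, ?_⟩, fun c h1 => ?_, b3, fun n c h1 c' h2 h3 => ?_⟩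
  · rcases n with _ | n
    · exact a2.le.trans fun _ k => k.1
    · exact (b2 n).le.trans fun _ k => k.1
  · change c ∈ ext A s₀ ↔ _
    rw [a2]
    exact and_iff_right h1
  · rw [b2, mem_setOf_eq, and_iff_right h1]
    refine coverb_par h hd (b1 n) (b3 n) _
      (hn'.code_mem (x := ⟨nl d, 0, 0, d :: par c⟩) (hn'.nl_mem hd.move)) _ h2 ?_
    rw [h3]
    exact par_code (x := ⟨nl d, 0, 0, d :: par c⟩) (isLev_nl d) ⟨zero_le, fun a ha =>
      (List.mem_cons.1 ha).elim (fun k => k ▸ lt_nl d)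
        fun k => ((par_lt k).trans h1).trans (lt_nl d)⟩

/-- The statement that `ξ` decides `s'` from `s` correctly. -/
def coverbZ (A : Set On) (ξ d s s' : On) : Prop :=
  ∀ c < d, ∀ c' < d, (∀ a, a ∈ par c → a < ξ) → par c' = ξ :: par c →
    (c ∈ ext A s' ↔ c' ∈ ext A s)

theorem coverb_md (i j : ℕ) : MD fun A _ v => coverbZ A (v 0) (v 1) (v i) (v j) := by
  unfold coverbZ; infer_instance

theorem coverb_rev (r q : List On) (i : ℕ) :
    lv (r.reverse ++ q) (if i < r.length then r.length - 1 - i else i) = lv (r ++ q) i := by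
  unfold lv
  split_ifs with h
  · rw [List.getD_append _ _ _ _ h, List.getD_append _ _ _ _ (by rw [List.length_reverse]; omega),
      List.getD_eq_getElem _ _ h, List.getD_eq_getElem _ _ (by rw [List.length_reverse]; omega),
      List.getElem_reverse]
    congr 1
    omega
  · rw [List.getD_append_right _ _ _ _ (not_lt.1 h),
      List.getD_append_right _ _ _ _ (by rw [List.length_reverse]; omega), List.length_reverse]

/-- Hint: for `k, n` let `Z k n` be the set of `ξ < d` such that for all `c, c' < d` with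
`par c ⊆ ξ` and `par c' = ξ :: par c` we have `c ∈ ext (s (n+1)) ↔ c' ∈ ext (s n)`.  The statement
`ξ ∈ Z k n` is definable in `Iio δ'` from `d, s n, s (n+1)` and holds of `d` in `Iio δ` for the
images.  Let `I = ⋂ Z k n`; it is unbounded in `d` by saturation (realise the type of `d` over
`π d`, all `π (s k n)` and `x`).  For increasing `r ⊆ I` above `q`, truth of `k` at
`r.reverse ++ q` is membership of a code of `q` in `ext (s r.length)`; use `Ind.of_fin` and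
`exists_ren` to reverse `r`. -/
theorem Sit.ultra (h : Sit A e δ δ' π) (hd : Crit π δ' d) (hn : Nice (Iio d)) (he : e < d)
    (hc : Card A univ δ') : ∃ I, Ind A (Iio d) I := by
  choose s s1 s2 s3 s4 using h.exists_names hd hn he hc
  have hπ : π d < δ := h.elem.mem d hd.lt
  have hZ : ∀ k n, coverbZ A d (π d) (π (s k n)) (π (s k (n + 1))) := by
    intro k n c h1 c' h2 h3 h4
    obtain ⟨c₀, a1, a2⟩ := mda_list hn (par c) h3
    rw [← s4 k n c₀ a1 c' h2 (by rw [a2, h4]),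
      ← h.elem.mem_ext (s1 k (n + 1)).1 (lt_trans a1 hd.lt), hd.fix c₀ a1]
    exact coverb_par h hd (s1 k (n + 1)).1 (s3 k (n + 1)) c h1 c₀ (lt_trans a1 hd.move) a2.symm
  have key : ∀ (k : ℕ) (r q : List On), r.Pairwise (· < ·) →
      (∀ b ∈ r, (b < d ∧ ∀ k n, coverbZ A b d (s k n) (s k (n + 1))) ∧ ∀ a ∈ q, a < b) →
      (∀ a ∈ q, a < d) → ∀ c < d, par c = q →
        (c ∈ ext A (s k r.length) ↔ Sat A (Iio d) k (lv (r.reverse ++ q))) := by
    intro k r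
    induction r with
    | nil =>
      rintro q - - - c h1 rfl
      exact s2 k c h1
    | cons ξ r ih =>
      rintro q h1 h2 h3 c h4 rfl
      obtain ⟨⟨a1, a2⟩, a3⟩ := h2 ξ List.mem_cons_self
      have a4 : ∀ a ∈ ξ :: par c, a < d := fun a ha =>
        (List.mem_cons.1 ha).elim (fun k => k ▸ a1) (h3 a)
      obtain ⟨c', a5, a6⟩ := mda_list hn (ξ :: par c) a4
      rw [List.length_cons, a2 k _ c h4 c' a5 a3 a6, List.reverse_cons, List.append_assoc]
      refine ih _ (List.pairwise_cons.1 h1).2 (fun b hb => ?_) a4 c' a5 a6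
      obtain ⟨b1, b2⟩ := h2 b (List.mem_cons_of_mem _ hb)
      exact ⟨b1, fun a ha => (List.mem_cons.1 ha).elim
        (fun k => k ▸ (List.pairwise_cons.1 h1).1 b hb) (b2 a)⟩
  refine ⟨{ξ | ξ < d ∧ ∀ k n, coverbZ A ξ d (s k n) (s k (n + 1))},
    Ind.of_fin hn (fun _ k => k.1) (fun x hx => ?_) fun k q r r' h1 h2 h3 h4 h5 h6 h7 => ?_⟩
  · obtain ⟨z', a1, a2, a3⟩ := coverb_satu h
      (cons d (cons (π d) (cons x fun j => π (s (Nat.unpair j).1 (Nat.unpair j).2))))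
      (cons_mem (Λ := Iio δ) (hd.move.trans hπ) (cons_mem (Λ := Iio δ) hπ
        (cons_mem (Λ := Iio δ) ((lt_trans hx hd.move).trans hπ)
          fun j => h.elem.mem _ (s1 _ _).1)))
    have b1 : z' 1 = d := a2 1 d hd.lt rfl
    have b2 : ∀ k n, z' (Nat.pair k n + 1 + 1 + 1) = s k n := fun k n =>
      a2 _ _ (s1 k n).1 (by simp)
    refine ⟨z' 0, ⟨?_, fun k n => ?_⟩, ?_⟩
    · have := a3 (fun _ _ v => v 0 < v 1) hd.move
      rwa [b1] at this
    · have := coverb_md (Nat.pair k n + 1 + 1 + 1) (Nat.pair k (n + 1) + 1 + 1 + 1)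
      have := a3 (fun A _ v => coverbZ A (v 0) (v 1) (v (Nat.pair k n + 1 + 1 + 1))
        (v (Nat.pair k (n + 1) + 1 + 1 + 1))) (by simpa using hZ k n)
      rwa [b1, b2, b2] at this
    · have := a3 (fun _ _ v => v 2 < v 0) hx
      rwa [a2 2 x (lt_trans hx hd.lt) (hd.fix x hx).symm] at this
  · obtain ⟨k', hk⟩ := exists_ren k fun i => if i < r.length then r.length - 1 - i else i
    obtain ⟨c, a1, a2⟩ := mda_list hn q h6
    have b1 := key k' r q h2 h4 h6 c a1 a2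
    have b2 := key k' r' q h3 h5 h6 c a1 a2
    rw [hk, Function.comp_def] at b1 b2
    rw [funext (coverb_rev r q)] at b1
    rw [h1, funext (coverb_rev r' q)] at b2
    rw [h1] at b1
    exact b2.1 (b1.2 h7)

end ultra

section core
variable {A : Set On} {e δ δ' β γ : On} {π : On → On} {P : List On}

/-- A minimal collapse of `δ'`. -/
structure Coll (A : Set On) (e δ' β γ : On) (P : List On) : Prop where
  le : e ≤ γ
  lt : γ < δ'
  le' : δ' ≤ β
  limit : Order.IsSuccLimit β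
  mem : ∀ a ∈ P, a < β
  all : Iio β ⊆ Hull A (Iio β) (Iio γ ∪ {a | a ∈ P})
  small : ∀ β' < β, ω ≤ β' → ∀ γ', e ≤ γ' → γ' < δ' → ∀ P' : List On,
    otp (Hull A (Iio β') (Iio γ' ∪ {a | a ∈ P'})) β' < δ'

theorem coverc_pre {H : Set On} (η : On) (hA : A ⊆ Iio e) (he : Iio e ⊆ H) :
    col H η ⁻¹' A = A := by
  ext c
  rcases lt_or_ge c e with k | k
  · rw [mem_preimage, col_fix he k]
  · exact iff_of_false (fun m => (hA m).not_ge (k.trans col_strictMono.le_apply))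
      fun m => (hA m).not_ge k

theorem coverc_le_otp {H : Set On} {μ η : On} (h : Iio μ ⊆ H) (h' : μ ≤ η) : μ ≤ otp H η :=
  le_of_forall_lt fun x hx => col_lt_iff.1 (by rw [col_fix h hx]; exact hx.trans_le h')

theorem coverc_inv (H : Set On) (η x : On) : sInf {y | col H η y = col H η x} = x := by
  have e : {y | col H η y = col H η x} = {x} :=
    Set.ext fun y => (col_strictMono (H := H) (η := η)).injective.eq_iff
  rw [e, csInf_singleton]

theorem coverc_nat {η : On} (h : ω ≤ η) (n : ℕ) : (n : On) ∈ Iio η :=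
  (natCast_lt_omega0 n).trans_le h

theorem coverc_iio {η μ : On} {Q : List On} (h : μ ≤ η) :
    Iio μ ⊆ Hull A (Iio η) (Iio μ ∪ {a | a ∈ Q}) :=
  fun _ hx => subset_hull ⟨Or.inl hx, hx.trans_le h⟩

/-- The collapse of a hull is generated by the collapsed parameters. -/
theorem coverc_col (hA : A ⊆ Iio e) {η : On} (h1 : ω ≤ η) (h2 : e ≤ γ) (h3 : γ ≤ η) (Q : List On)
    {β : On} (hβ : β = otp (Hull A (Iio η) (Iio γ ∪ {a | a ∈ Q})) η) :
    ∃ P : List On, (∀ a ∈ P, a < β) ∧ Iio β ⊆ Hull A (Iio β) (Iio γ ∪ {a | a ∈ P}) := by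
  classical
  obtain ⟨H, hH⟩ : ∃ H, H = Hull A (Iio η) (Iio γ ∪ {a | a ∈ Q}) := ⟨_, rfl⟩
  have a1 : Closed A (Iio η) H := hH ▸ hull_closed (isLowerSet_Iio η) (coverc_nat h1)
  have a2 : (Iio γ ∪ {a | a ∈ Q}) ∩ Iio η ⊆ H := hH ▸ subset_hull
  have a3 : H ⊆ Hull A (Iio η) ((Iio γ ∪ {a | a ∈ Q}) ∩ Iio η) :=
    hH ▸ hull_least (hull_closed (isLowerSet_Iio η) (coverc_nat h1))
      fun x hx => subset_hull ⟨hx, hx.2⟩
  have a4 : Iio e ⊆ H := (Iio_subset_Iio h2).trans (hH ▸ coverc_iio h3)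
  rw [← hH] at hβ
  subst hβ
  refine ⟨(Q.map fun a => sInf {y | col H η y = a}).filter (· < otp H η),
    fun a ha => by simpa using (List.mem_filter.1 ha).2, fun x hx => ?_⟩
  have a5 := (hull_col a1 a2 hx).1 (a3 (condb_mem (col_lt_iff.2 hx)))
  rw [coverc_pre η hA a4] at a5
  refine hull_mono Subset.rfl ?_ a5
  rintro y ⟨hy | hy, hy'⟩
  · exact Or.inl (col_strictMono.le_apply.trans_lt hy)
  · exact Or.inr (List.mem_filter.2 ⟨List.mem_map.2 ⟨_, hy, coverc_inv H η y⟩,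
      by simpa using col_lt_iff.1 hy'⟩)

/-- Hint: take the least `β ≥ ω` such that some `otp (Hull ..) β ≥ δ'`; collapse (`cond_col`,
`hull_col`, `down_of_subset`); `hull_succ` excludes successors. -/
theorem exists_coll (hA : A ⊆ Iio e) (he : e < δ') (hn : Nice (Iio δ')) (hc : ¬ Card A univ δ') :
    ∃ β γ P, Coll A e δ' β γ P := by
  classical
  have hω : ω < δ' := hn.omega_mem
  have hS : {η | ω ≤ η ∧ ∃ γ', e ≤ γ' ∧ γ' < δ' ∧ ∃ Q : List On,
      δ' ≤ otp (Hull A (Iio η) (Iio γ' ∪ {a | a ∈ Q})) η}.Nonempty := by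
    obtain ⟨s, μ, hμ, ho⟩ : ∃ s, ∃ μ < δ', Onto A s μ δ' := by
      by_contra k
      exact hc fun s _ μ hμ ho => k ⟨s, μ, hμ, ho⟩
    obtain ⟨b1, b2, -⟩ := nn_spec (max s δ')
    have b3 : s < nn (max s δ') := (le_max_left _ _).trans_lt b2
    have b4 : δ' < nn (max s δ') := (le_max_right _ _).trans_lt b2
    have b5 := hull_closed (A := A) (Y := Iio (max e μ) ∪ {a | a ∈ [s]}) b1.lower b1.nat_mem
    refine ⟨nn (max s δ'), (hω.trans b4).le, max e μ, le_max_left _ _, max_lt he hμ, [s],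
      coverc_le_otp (fun x hx => ?_) b4.le⟩
    obtain ⟨ξ, h1, rfl⟩ := ho x hx
    exact b5.sk _ (b5.ins s (subset_hull ⟨Or.inr List.mem_cons_self, b3⟩) ξ
      (subset_hull ⟨Or.inl (h1.trans_le (le_max_right _ _)), (h1.trans hμ).trans b4⟩)
      (b1.code_mem ((lev_le s).trans_lt b3)))
  obtain ⟨η, ⟨h1, γ, h2, h3, Q, h4⟩, hη⟩ := wellFounded_lt.has_min _ hS
  obtain ⟨β, hβ⟩ : ∃ β, β = otp (Hull A (Iio η) (Iio γ ∪ {a | a ∈ Q})) η := ⟨_, rfl⟩
  obtain ⟨P, h5, h6⟩ := coverc_col hA h1 h2 (h3.le.trans (h4.trans otp_le)) Q hβ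
  have h7 : ∀ β' < β, ω ≤ β' → ∀ γ', e ≤ γ' → γ' < δ' → ∀ P' : List On,
      otp (Hull A (Iio β') (Iio γ' ∪ {a | a ∈ P'})) β' < δ' := fun β' a1 a2 γ' a3 a4 P' =>
    not_le.1 fun k => hη β' ⟨a2, γ', a3, a4, P', k⟩ (a1.trans_le (hβ.trans_le otp_le))
  rw [← hβ] at h4
  refine ⟨β, γ, P, h2, h3, h4, (mda_limit β).2 ⟨(omega0_pos.trans hω).trans_le h4, fun y hy =>
    (Order.add_one_le_of_lt hy).lt_of_ne fun k => ?_⟩, h5, h6, h7⟩
  have a1 : δ' ≤ y := not_lt.1 fun m => (hn.succ_mem m).not_ge (h4.trans k.ge)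
  obtain ⟨F, -, a2⟩ := hull_succ (A := A) (Y := Iio γ ∪ {a | a ∈ P}) (hω.le.trans a1)
  have a3 : Iio β = Iic y := Set.ext fun x => by rw [← k, mem_Iio, mem_Iic, Order.lt_add_one_iff]
  rw [a3] at h6
  refine (h7 y hy (hω.le.trans a1) γ h2 h3 (P ++ F.toList)).not_ge
    (a1.trans (coverc_le_otp (fun x hx => ?_) le_rfl))
  refine hull_mono Subset.rfl ?_ ((a2 (h6 (Iio_subset_Iic_self hx))).resolve_left (mem_Iio.1 hx).ne)
  rintro z ((hz | hz) | hz)
  · exact Or.inl hz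
  · exact Or.inr (List.mem_append_left _ hz)
  · exact Or.inr (List.mem_append_right _ (Finset.mem_toList.2 hz))

/-- Stages: `(β', γ')` with `P ⊆ β' < β`, `γ ≤ γ' < δ'`, `γ' ≤ β'`, `γ'` a level. -/
def Stg (δ' β γ : On) (P : List On) : Type 1 :=
  {i : On × On // i.1 < β ∧ (∀ a ∈ P, a < i.1) ∧ γ ≤ i.2 ∧ i.2 < δ' ∧ i.2 ≤ i.1 ∧ IsLev i.2}

/-- The hull of a stage. -/
def Stg.H (A : Set On) (i : Stg δ' β γ P) : Set On :=
  Hull A (Iio i.1.1) (Iio i.1.2 ∪ {a | a ∈ P})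

/-- The collapse of a stage. -/
noncomputable def Stg.rho (A : Set On) (i : Stg δ' β γ P) : On := otp (i.H A) i.1.1

/-- The collapsed parameters. -/
noncomputable def Stg.Pb (A : Set On) (i : Stg δ' β γ P) : List On :=
  P.map fun a => sInf {x | col (i.H A) i.1.1 x = a}

/-- The lifted system. -/
noncomputable def covSys (A : Set On) (π : On → On) (δ' β γ : On) (P : List On) :
    Sys (Stg δ' β γ P) (Tm × List On) where
  le i j := i.1.1 ≤ j.1.1 ∧ i.1.2 ≤ j.1.2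
  Dom i := {s | (∀ a ∈ s.2, a < π i.1.2) ∧ s.1.vars (· < P.length + s.2.length) ∧
    ok A (Iio (π (i.rho A))) (lv ((i.Pb A).map π ++ s.2)) s.1}
  e i s := ev A (lv ((i.Pb A).map π ++ s.2)) s.1
  A _ := A
  L i := Iio (π (i.rho A))

/-- The collapse of a stage, before lifting. -/
theorem Coll.stage (h : Coll A e δ' β γ P) (hA : A ⊆ Iio e) (i : Stg δ' β γ P) :
    i.rho A < δ' ∧ i.1.2 ≤ i.rho A ∧ Emb A A (Iio (i.rho A)) (col (i.H A) i.1.1) ∧
      (∀ a ∈ i.Pb A, a < i.rho A) ∧ (i.Pb A).map (col (i.H A) i.1.1) = P ∧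
      ∀ (t : Tm) (q : List On), (∀ a ∈ q, a < i.1.2) → t.vars (· < P.length + q.length) →
        (ok A (Iio (i.rho A)) (lv (i.Pb A ++ q)) t ↔ ok A (Iio i.1.1) (lv (P ++ q)) t) ∧
        (ok A (Iio i.1.1) (lv (P ++ q)) t →
          col (i.H A) i.1.1 (ev A (lv (i.Pb A ++ q)) t) = ev A (lv (P ++ q)) t) := by
  obtain ⟨i1, i2, i3, i4, i5, i6⟩ := i.2
  have a0 : ω ≤ i.1.1 := i6.1.trans i5
  have a1 : Closed A (Iio i.1.1) (i.H A) := hull_closed (isLowerSet_Iio _) (coverc_nat a0)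
  have a2 : Iio i.1.2 ⊆ i.H A := coverc_iio i5
  have a3 : i.1.2 ≤ i.rho A := coverc_le_otp a2 i5
  have a4 : Emb A A (Iio (i.rho A)) (col (i.H A) i.1.1) := by
    have := cond_col a1
    rwa [coverc_pre _ hA ((Iio_subset_Iio (h.le.trans i3)).trans a2)] at this
  have a5 : col (i.H A) i.1.1 '' Iio (i.rho A) = i.H A :=
    col_image.trans (inter_eq_left.2 a1.sub)
  have a6 : ∀ a ∈ P, sInf {x | col (i.H A) i.1.1 x = a} < i.rho A ∧
      col (i.H A) i.1.1 (sInf {x | col (i.H A) i.1.1 x = a}) = a := fun a ha => by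
    obtain ⟨x, hx, rfl⟩ := a5.ge (subset_hull ⟨Or.inr ha, i2 a ha⟩)
    rw [coverc_inv]
    exact ⟨hx, rfl⟩
  have a7 : ∀ a ∈ i.Pb A, a < i.rho A := List.forall_mem_map.2 fun a ha => (a6 a ha).1
  have a8 : (i.Pb A).map (col (i.H A) i.1.1) = P :=
    List.map_map.trans ((List.map_congr_left fun a ha => (a6 a ha).2).trans (List.map_id _))
  refine ⟨h.small _ i1 a0 _ (h.le.trans i3) i4 P, a3, a4, a7, a8, fun t q hq ht => ?_⟩
  have b0 : (0 : On) < i.1.2 := omega0_pos.trans_le i6.1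
  have b1 : lv (P ++ q) = col (i.H A) i.1.1 ∘ lv (i.Pb A ++ q) := by
    rw [← lv_map (col_fix a2 b0), List.map_append, a8,
      (List.map_congr_left fun a ha => col_fix a2 (hq a ha)).trans (List.map_id q)]
  have b2 : t.vars fun j => lv (i.Pb A ++ q) j ∈ Iio (i.rho A) :=
    Tm.vars_mono (fun j _ => lv_mem (Λ := Iio (i.rho A)) (b0.trans_le a3)
      (fun a ha => (List.mem_append.1 ha).elim (a7 a) fun m => (hq a m).trans_le a3) j) ht
  rw [b1]
  have b3 := fun k => a4.ev_back (isLowerSet_Iio _) a1 a5 k b2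
  exact ⟨⟨fun k => (a4.ev_map (Closed.of_lower (isLowerSet_Iio _) (coverc_nat (i6.1.trans a3)))
    (fun y hy => col_lt_iff.2 hy) k b2).1, fun k => (b3 k).1⟩, fun k => (b3 k).2.symm⟩

/-- Transfer along `π` of a statement about all pairs of lists below a level.  Hint: lists below
the level `l` are the `par c` with `lev c = l`; the remaining parameters are the list `w`. -/
theorem Sit.transfer (h : Sit A e δ δ' π) (Q : Set On → Set On → (ℕ → On) → Prop) [MD Q]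
    {l : On} (hl : IsLev l) (hl' : l < δ') (w : List On) (hw : ∀ a ∈ w, a < δ')
    (hQ : ∀ c c', lev c = l → lev c' = l → Q A (Iio δ') (lv (c :: c' :: w))) :
    ∀ c c', lev c = π l → lev c' = π l → Q A (Iio δ) (lv (c :: c' :: w.map π)) := by
  have : MD fun A Λ v => Q A Λ (cons (v 1) (cons (v 0) fun n => v (n + 1 + 1 + 1))) :=
    MD.congr (h := MD.rename (P := Q) fun n => Nat.casesOn n 1 fun m =>
      Nat.casesOn m 0 fun k => k + 1 + 1 + 1) fun A Λ v _ _ => by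
      refine iff_of_eq (congrArg (Q A Λ) (funext fun n => ?_))
      rcases n with _ | _ | n <;> rfl
  have h1 := (h.elem.mdl (fun A Λ v => ∀ c, c ∈ Λ → ∀ c', c' ∈ Λ → lev c = v 0 → lev c' = v 0 →
    Q A Λ (cons c (cons c' fun n => v (n + 1)))) (l :: w)
    (List.forall_mem_cons.2 ⟨hl', hw⟩)).1 fun c _ c' _ a1 a2 => by
      have := hQ c c' a1 a2
      rwa [lv_cons, lv_cons] at this
  intro c c' a1 a2
  have h2 : π l ∈ Iio δ := h.elem.mem l hl'
  rw [lv_cons, lv_cons]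
  exact h1 c (cardc_mem h.elem.nice' (a1 ▸ h2)) c' (cardc_mem h.elem.nice' (a2 ▸ h2)) a1 a2

theorem covd_bound {β : On} (h : Order.IsSuccLimit β) (L : List On) (hL : ∀ a ∈ L, a < β) :
    ∃ b < β, ∀ a ∈ L, a < b := by
  induction L with
  | nil => exact ⟨0, h.bot_lt, fun _ m => absurd m List.not_mem_nil⟩
  | cons a L ih =>
    obtain ⟨b, b1, b2⟩ := ih fun x hx => hL x (List.mem_cons_of_mem _ hx)
    refine ⟨max b (Order.succ a), max_lt b1 (h.succ_lt (hL a List.mem_cons_self)), fun x hx => ?_⟩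
    rcases List.mem_cons.1 hx with rfl | hx
    · exact (Order.lt_succ x).trans_le (le_max_right _ _)
    · exact (b2 x hx).trans_le (le_max_left _ _)

/-- `m` variables from `o` on, followed by the list of the variable `b`. -/
noncomputable def covdV (m o b : ℕ) (v : ℕ → On) (n : ℕ) : On :=
  if n < m then v (o + n) else lv (par (v b)) (n - m)

theorem covd_mt (m o b n : ℕ) : MT fun _ _ v => covdV m o b v n := by
  unfold covdV
  by_cases k : n < m
  · simp only [if_pos k]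
    infer_instance
  · simp only [if_neg k]
    infer_instance

theorem covd_ok (t : Tm) (m o b r : ℕ) : MD fun A _ v => ok A (Iio (v r)) (covdV m o b v) t :=
  MD.ok t (fun A _ _ => A) (fun _ _ v => v r) (fun n _ _ v => covdV m o b v n) (covd_mt m o b)

theorem covd_ev (t : Tm) (m o b : ℕ) : MT fun A _ v => ev A (covdV m o b v) t :=
  MT.ev t (fun A _ _ => A) (fun n _ _ v => covdV m o b v n) (covd_mt m o b)

theorem covd_lv {m o : ℕ} (b : ℕ) (p X Y : List On) (hX : X.length = m) (hp : p.length = o) :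
    covdV m o b (lv (p ++ (X ++ Y))) = lv (X ++ par (lv (p ++ (X ++ Y)) b)) := by
  subst hX hp
  funext n
  unfold covdV
  split_ifs with k
  · rw [add_comm, elemc_right, lv, lv, List.getD_append _ _ _ _ k, List.getD_append _ _ _ _ k]
  · obtain ⟨i, rfl⟩ := Nat.exists_eq_add_of_le' (not_lt.1 k)
    rw [elemc_right, Nat.add_sub_cancel]

/-- The statement that is transferred. -/
def covdQ (m n n' : ℕ) (t t' : Tm) (x : Ix) (A : Set On) (v : ℕ → On) : Prop :=
  (par (v 0)).length = n → (par (v 1)).length = n' → ok A (Iio (v 2)) (covdV m 4 0 v) t →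
    ok A (Iio (v 2)) (covdV m 4 1 v) t' → ok A (Iio (v 3)) (covdV m (4 + m) 0 v) t ∧
      (tp A (ev A (covdV m 4 0 v) t) (ev A (covdV m 4 1 v) t') x ↔
        tp A (ev A (covdV m (4 + m) 0 v) t) (ev A (covdV m (4 + m) 1 v) t') x)

theorem covd_md (m n n' : ℕ) (t t' : Tm) (x : Ix) : MD fun A _ v => covdQ m n n' t t' x A v := by
  have := covd_ok t m 4 0 2
  have := covd_ok t' m 4 1 2
  have := covd_ok t m (4 + m) 0 3
  have := covd_ev t m 4 0
  have := covd_ev t' m 4 1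
  have := covd_ev t m (4 + m) 0
  have := covd_ev t' m (4 + m) 1
  unfold covdQ
  infer_instance

theorem covd_Q {m n n' : ℕ} {t t' : Tm} {x : Ix} {c c' r r' : On} {X Y : List On}
    (hX : X.length = m) (hY : Y.length = m) :
    covdQ m n n' t t' x A (lv (c :: c' :: r :: r' :: (X ++ Y))) ↔
      ((par c).length = n → (par c').length = n' → ok A (Iio r) (lv (X ++ par c)) t →
        ok A (Iio r) (lv (X ++ par c')) t' → ok A (Iio r') (lv (Y ++ par c)) t ∧
          (tp A (ev A (lv (X ++ par c)) t) (ev A (lv (X ++ par c')) t') x ↔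
            tp A (ev A (lv (Y ++ par c)) t) (ev A (lv (Y ++ par c')) t') x)) := by
  have e1 : ∀ b, covdV m 4 b (lv (c :: c' :: r :: r' :: (X ++ Y))) =
      lv (X ++ par (lv (c :: c' :: r :: r' :: (X ++ Y)) b)) := fun b =>
    covd_lv b [c, c', r, r'] X Y hX rfl
  have e2 : ∀ b, covdV m (4 + m) b (lv (c :: c' :: r :: r' :: (X ++ Y))) =
      lv (Y ++ par (lv (c :: c' :: r :: r' :: (X ++ Y)) b)) := fun b => by
    have := covd_lv (o := 4 + m) b ([c, c', r, r'] ++ X) Y [] hY (by simp [hX]; omega)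
    simpa using this
  rw [covdQ, e1, e1, e2, e2]
  rfl

theorem covd_nat {l r : On} (hl : IsLev l) (h : l ≤ r) (n : ℕ) : (n : On) ∈ Iio r :=
  (natCast_lt_omega0 n).trans_le (hl.1.trans h)

theorem covd_up (h : Sit A e δ δ' π) (hc : Coll A e δ' β γ P) {i j : Stg δ' β γ P}
    (hij : (covSys A π δ' β γ P).le i j) {s s' : Tm × List On}
    (hs : s ∈ (covSys A π δ' β γ P).Dom i) (hs' : s' ∈ (covSys A π δ' β γ P).Dom i) (x : Ix) :
    ok A (Iio (π (j.rho A))) (lv ((j.Pb A).map π ++ s.2)) s.1 ∧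
      (tp A ((covSys A π δ' β γ P).e i s) ((covSys A π δ' β γ P).e i s') x ↔
        tp A ((covSys A π δ' β γ P).e j s) ((covSys A π δ' β γ P).e j s') x) := by
  obtain ⟨a1, a2, a3, a4, -, a6⟩ := hc.stage h.sub i
  obtain ⟨b1, b2, b3, b4, -, b6⟩ := hc.stage h.sub j
  have li : (i.Pb A).length = P.length := List.length_map _
  have lj : (j.Pb A).length = P.length := List.length_map _
  have hl := i.2.2.2.2.2.2
  have hl' := i.2.2.2.2.1
  have := covd_md P.length s.2.length s'.2.length s.1 s'.1 x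
  have key := h.transfer (fun A _ v => covdQ P.length s.2.length s'.2.length s.1 s'.1 x A v) hl hl'
    (i.rho A :: j.rho A :: (i.Pb A ++ j.Pb A)) (fun a ha => by
      simp only [List.mem_cons, List.mem_append] at ha
      rcases ha with rfl | rfl | ha | ha
      exacts [a1, b1, (a4 a ha).trans a1, (b4 a ha).trans b1]) fun c c' k k' => by
      refine (covd_Q li lj).2 fun n n' o o' => ?_
      have q : ∀ a ∈ par c, a < i.1.2 := fun a ha => (par_lt_lev ha).trans_eq k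
      have q' : ∀ a ∈ par c', a < i.1.2 := fun a ha => (par_lt_lev ha).trans_eq k'
      obtain ⟨c1, c2⟩ := a6 s.1 (par c) q (n ▸ hs.2.1)
      obtain ⟨c3, c4⟩ := a6 s'.1 (par c') q' (n' ▸ hs'.2.1)
      obtain ⟨d1, d2⟩ := b6 s.1 (par c) (fun a ha => (q a ha).trans_le hij.2) (n ▸ hs.2.1)
      obtain ⟨d3, d4⟩ := b6 s'.1 (par c') (fun a ha => (q' a ha).trans_le hij.2) (n' ▸ hs'.2.1)
      have u := (c1.1 o).mono (Iio_subset_Iio hij.1)
      have u' := (c3.1 o').mono (Iio_subset_Iio hij.1)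
      refine ⟨d1.2 u, ?_⟩
      rw [a3.iff (o.mem (isLowerSet_Iio _) (covd_nat hl a2))
        (o'.mem (isLowerSet_Iio _) (covd_nat hl a2)),
        b3.iff ((d1.2 u).mem (isLowerSet_Iio _) (covd_nat j.2.2.2.2.2.2 b2))
          ((d3.2 u').mem (isLowerSet_Iio _) (covd_nat j.2.2.2.2.2.2 b2)),
        c2 (c1.1 o), c4 (c3.1 o'), d2 u, d4 u']
  have hπ : IsLev (π i.1.2) := (h.elem.emb.isLev hl').2 hl
  have v : (Loc.mk (π i.1.2) 0 0 s.2).Valid := ⟨zero_le, hs.1⟩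
  have v' : (Loc.mk (π i.1.2) 0 0 s'.2).Valid := ⟨zero_le, hs'.1⟩
  have k := key _ _ (lev_code hπ v) (lev_code hπ v')
  simp only [List.map_cons, List.map_append] at k
  rw [covd_Q ((List.length_map _).trans li) ((List.length_map _).trans lj), par_code hπ v,
    par_code hπ v'] at k
  exact k rfl rfl hs.2.2 hs'.2.2

/-- Hint: `Sit.transfer`, `MD.ok`, `MT.ev` with the terms
`lv (Pb ++ par c) n = if n < P.length then (a variable) else lv (par c) (n - P.length)`. -/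
theorem covSys_dir (h : Sit A e δ δ' π) (hc : Coll A e δ' β γ P) :
    (covSys A π δ' β γ P).Dir := by
  refine ⟨?_, fun i j => ?_, fun i j hij s hs => ?_⟩
  · have h1 : nl γ < δ' := h.elem.nice.nl_mem hc.lt
    obtain ⟨b, b1, b2⟩ := covd_bound hc.limit (nl γ :: P) fun a ha =>
      (List.mem_cons.1 ha).elim (fun k => k ▸ h1.trans_le hc.le') (hc.mem a)
    exact ⟨⟨(b, nl γ), b1, fun a ha => b2 a (List.mem_cons_of_mem _ ha), (lt_nl γ).le, h1,
      (b2 _ List.mem_cons_self).le, isLev_nl γ⟩⟩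
  · obtain ⟨a1, a2, a3, a4, a5, a6⟩ := i.2
    obtain ⟨b1, -, -, b4, b5, b6⟩ := j.2
    refine ⟨⟨(max i.1.1 j.1.1, max i.1.2 j.1.2), max_lt a1 b1,
      fun a ha => (a2 a ha).trans_le (le_max_left _ _), a3.trans (le_max_left _ _), max_lt a4 b4,
      max_le_max a5 b5, ?_⟩, ⟨le_max_left _ _, le_max_left _ _⟩, le_max_right _ _,
      le_max_right _ _⟩
    rcases max_choice i.1.2 j.1.2 with k | k
    · simp only [k]
      exact a6
    · simp only [k]
      exact b6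
  · exact ⟨fun a ha => (hs.1 a ha).trans_le
      ((h.elem.emb.le i.2.2.2.2.1 j.2.2.2.2.1).2 hij.2), hs.2.1, (covd_up h hc hij hs hs .lt).1⟩

theorem covSys_coh (h : Sit A e δ δ' π) (hc : Coll A e δ' β γ P) :
    (covSys A π δ' β γ P).Coh := by
  exact fun i j hij s hs t ht => funext fun x => propext (covd_up h hc hij hs ht x).2

/-- Hint: the image is `Hull A (Iio (π ρ)) (Iio (π γ') ∪ Pb.map π)`. -/
theorem covSys_cl (h : Sit A e δ δ' π) (hc : Coll A e δ' β γ P) :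
    (covSys A π δ' β γ P).Cl := by
  intro i
  obtain ⟨a1, a2, -⟩ := hc.stage h.sub i
  have hπ : IsLev (π i.1.2) := (h.elem.emb.isLev i.2.2.2.2.1).2 i.2.2.2.2.2.2
  have h0 : 0 < π i.1.2 := omega0_pos.trans_le hπ.1
  have li : ((i.Pb A).map π).length = P.length := (List.length_map _).trans (List.length_map _)
  have key : (covSys A π δ' β γ P).e i '' (covSys A π δ' β γ P).Dom i =
      Hull A (Iio (π (i.rho A))) (Iio (π i.1.2) ∪ {a | a ∈ (i.Pb A).map π}) := by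
    refine Subset.antisymm ?_ ?_
    · rintro _ ⟨s, ⟨s1, s2, s3⟩, rfl⟩
      refine ⟨s.1, _, Tm.vars_mono (fun n hn => ?_) s2, s3, rfl⟩
      have k : n < ((i.Pb A).map π ++ s.2).length := by rwa [List.length_append, li]
      have m := List.getElem_mem k
      rw [← List.getD_eq_getElem _ 0 k] at m
      exact (List.mem_append.1 m).elim Or.inr fun m => Or.inl (s1 _ m)
    · rintro _ ⟨t, v, t1, t2, rfl⟩
      obtain ⟨N, hN⟩ := t.exists_bound
      set q : List On := (List.range N).map fun n => if v n < π i.1.2 then v n else 0 with hq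
      have lq : q.length = N := by rw [hq, List.length_map, List.length_range]
      have ex : ∀ n, ∃ m, n < N → v n ∈ Iio (π i.1.2) ∪ {a | a ∈ (i.Pb A).map π} →
          m < P.length + q.length ∧ lv ((i.Pb A).map π ++ q) m = v n := by
        intro n
        by_cases k : v n < π i.1.2
        · refine ⟨n + P.length, fun hn _ => ⟨by omega, ?_⟩⟩
          rw [← li, elemc_right, lv, List.getD_eq_getElem _ _ (lq ▸ hn)]
          simp only [hq, List.getElem_map, List.getElem_range, if_pos k]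
        · by_cases k' : v n ∈ (i.Pb A).map π
          · obtain ⟨m, m1, m2⟩ := List.getElem_of_mem k'
            refine ⟨m, fun _ _ => ⟨by omega, ?_⟩⟩
            rw [lv, List.getD_append _ _ _ _ m1, List.getD_eq_getElem _ _ m1, m2]
          · exact ⟨0, fun _ m => (m.elim k k').elim⟩
      choose g hg using ex
      have w := condd_vars_and hN t1
      have w' : t.vars fun n => (lv ((i.Pb A).map π ++ q) ∘ g) n = v n :=
        Tm.vars_mono (fun n hn => (hg n hn.1 hn.2).2) w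
      refine ⟨(t.ren g, q), ⟨fun a ha => ?_, Tm.vars_ren.2
        (Tm.vars_mono (fun n hn => (hg n hn.1 hn.2).1) w), (ok_ren g).2 ((ok_irrel w').2 t2)⟩,
        (ev_ren g).trans (ev_irrel w')⟩
      obtain ⟨n, -, rfl⟩ := List.mem_map.1 ha
      split_ifs with k
      exacts [k, h0]
  refine ⟨isLowerSet_Iio _, ?_⟩
  rw [key]
  exact hull_closed (isLowerSet_Iio _)
    (covd_nat hπ ((h.elem.emb.le i.2.2.2.2.1 a1).2 a2))

theorem coverE_lv (p q : List On) (j : ℕ) :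
    lv (p ++ q) j = if j < p.length then lv p j else lv q (j - p.length) := by
  induction p generalizing j with
  | nil => simp
  | cons a p ih =>
    cases j with
    | zero => simp
    | succ j => simpa using ih j

theorem coverE_satu (h : Sit A e δ δ' π) {ι : Type} [Encodable ι] (z : ι → On)
    (hz : ∀ j, z j < δ) : ∃ z' : ι → On, (∀ j, z' j < δ') ∧
      (∀ j, ∀ y < δ', z j = π y → z' j = y) ∧
      ∀ (Q : Set On → Set On → (ℕ → On) → Prop) [MD Q] (g : ℕ → ι),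
        Q A (Iio δ) (fun n => z (g n)) ↔ Q A (Iio δ') fun n => z' (g n) := by
  have h0 : ∀ n, ((Encodable.decode (α := ι) n).elim 0 z) < δ := fun n => by
    rcases Encodable.decode (α := ι) n with _ | j
    exacts [h.elem.nice'.zero_mem, hz j]
  obtain ⟨w, h1, h2, h3⟩ := h.satu _ h0
  refine ⟨fun j => w (Encodable.encode j), fun j => h1 _, fun j y hy k => h2 _ y hy ?_,
    fun Q _ g => ?_⟩
  · rw [Encodable.encodek]
    exact k
  · obtain ⟨k, hk⟩ := (MD.rename Q fun n => Encodable.encode (g n)).ex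
    rw [← hk A _ w h.elem.nice h1, ← h3 k, hk A _ _ h.elem.nice' h0]
    simp only [Encodable.encodek, Option.elim_some]

/-- The assignment given by two codes. -/
noncomputable def coverE_w (n : ℕ) (a b : On) (j : ℕ) : On :=
  if j < n then lv (par a) j else lv (par b) (j - n)

theorem coverE_mt (n a b j : ℕ) : MT fun _ _ v => coverE_w n (v a) (v b) j := by
  unfold coverE_w
  by_cases k : j < n
  · simp only [if_pos k]
    infer_instance
  · simp only [if_neg k]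
    infer_instance

theorem coverE_eq {n : ℕ} {a b : On} {p q : List On} (h1 : par a = p) (h2 : par b = q)
    (h3 : p.length = n) : coverE_w n a b = lv (p ++ q) := by
  funext j
  rw [coverE_lv, coverE_w, h1, h2, h3]

/-- The data of a token at a stage. -/
def coverE_Q (n m : ℕ) (t : Tm) (A : Set On) (c g r p : On) : Prop :=
  (∀ a, a ∈ par c → a < g) ∧ (par c).length = m ∧ ok A (Iio r) (coverE_w n p c) t

theorem coverE_md (n m : ℕ) (t : Tm) (c : ℕ) :
    MD fun A _ v => coverE_Q n m t A (v c) (v 2) (v 3) (v 4) := by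
  have := MD.ok t (fun A _ _ => A) (fun _ _ v => v 3) (fun j _ _ v => coverE_w n (v 4) (v c) j)
    (coverE_mt n 4 c)
  unfold coverE_Q
  infer_instance

theorem coverE_len (i : Stg δ' β γ P) : (i.Pb A).length = P.length := List.length_map _

/-- Hint: for a descending sequence choose stages and codes `c n` of the lists, pull the codes back
by `Sit.satu` (with the data of the stages as fixed points) and map into `β` by `Coll.stage`. -/
theorem covSys_wf (h : Sit A e δ δ' π) (hc : Coll A e δ' β γ P) :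
    WellFounded (covSys A π δ' β γ P).Lt := by
  rw [wellFounded_iff_isEmpty_descending_chain]
  refine ⟨fun ⟨s, hs⟩ => ?_⟩
  choose i h1 h2 h3 using hs
  have st := fun n => hc.stage h.sub (i n)
  have hg : ∀ n, (i n).1.2 < δ' := fun n => (i n).2.2.2.2.1
  have hm : ∀ x < δ', π x < δ := h.elem.mem
  choose c c1 c2 using fun n => mda_list h.elem.nice' (s n).2 fun a ha =>
    ((h2 n).1 a ha).trans (hm _ (hg n))
  choose p p1 p2 using fun n => mda_list h.elem.nice ((i n).Pb A) fun a ha =>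
    ((st n).2.2.2.1 a ha).trans (st n).1
  have p3 : ∀ n, par (π (p n)) = ((i n).Pb A).map π := fun n => by
    rw [h.elem.emb.par (DCl.of_lower h.elem.nice.lower h.elem.nice.zero_mem) (p1 n), p2]
  let y : ℕ × ℕ → On := fun j => lv [(i j.1).1.2, (i j.1).rho A, p j.1] j.2
  have hy : ∀ j, y j < δ' := fun j => lv_mem h.elem.nice.zero_mem (fun a ha => by
    simp only [List.mem_cons, List.not_mem_nil, or_false] at ha
    rcases ha with rfl | rfl | rfl
    exacts [hg _, (st _).1, p1 _]) _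
  obtain ⟨z, z1, z2, z3⟩ := coverE_satu h (ι := ℕ ⊕ ℕ × ℕ) (Sum.elim c fun j => π (y j))
    (by rintro (j | j); exacts [c1 j, hm _ (hy j)])
  have z4 : ∀ j, z (Sum.inr j) = y j := fun j => z2 _ _ (hy j) rfl
  have key : ∀ n, ev A (lv (P ++ par (z (Sum.inl (n + 1))))) (s (n + 1)).1 <
      ev A (lv (P ++ par (z (Sum.inl n)))) (s n).1 := by
    intro n
    have := coverE_md P.length (s (n + 1)).2.length (s (n + 1)).1 0
    have := coverE_md P.length (s n).2.length (s n).1 1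
    have := MT.ev (s (n + 1)).1 (fun A _ _ => A)
      (fun j _ _ v => coverE_w P.length (v 4) (v 0) j) (coverE_mt _ 4 0)
    have := MT.ev (s n).1 (fun A _ _ => A)
      (fun j _ _ v => coverE_w P.length (v 4) (v 1) j) (coverE_mt _ 4 1)
    have l1 : (((i n).Pb A).map π).length = P.length := by rw [List.length_map, coverE_len]
    have e1 := coverE_eq (p3 n) (c2 (n + 1)) l1
    have e2 := coverE_eq (p3 n) (c2 n) l1
    have a := (z3 (fun A _ v =>
      coverE_Q P.length (s (n + 1)).2.length (s (n + 1)).1 A (v 0) (v 2) (v 3) (v 4) ∧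
      coverE_Q P.length (s n).2.length (s n).1 A (v 1) (v 2) (v 3) (v 4) ∧
      ev A (fun j => coverE_w P.length (v 4) (v 0) j) (s (n + 1)).1 <
        ev A (fun j => coverE_w P.length (v 4) (v 1) j) (s n).1)
      fun m => match m with
        | 0 => Sum.inl (n + 1)
        | 1 => Sum.inl n
        | m + 2 => Sum.inr (n, m)).1 (by
          refine ⟨⟨?_, ?_, ?_⟩, ⟨?_, ?_, ?_⟩, ?_⟩
          · exact fun a ha => (h1 n).1 a (c2 (n + 1) ▸ ha)
          · exact congrArg List.length (c2 (n + 1))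
          · exact e1 ▸ (h1 n).2.2
          · exact fun a ha => (h2 n).1 a (c2 n ▸ ha)
          · exact congrArg List.length (c2 n)
          · exact e2 ▸ (h2 n).2.2
          · change ev A (coverE_w _ (π (p n)) (c (n + 1))) _ < ev A (coverE_w _ (π (p n)) (c n)) _
            rw [e1, e2]
            exact h3 n)
    simp only [coverE_Q, z4] at a
    obtain ⟨⟨a1, a2, a3⟩, ⟨b1, b2, b3⟩, d⟩ := a
    have e3 := coverE_eq (p2 n) (rfl : par (z (Sum.inl (n + 1))) = _) (coverE_len _)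
    have e4 := coverE_eq (p2 n) (rfl : par (z (Sum.inl n)) = _) (coverE_len _)
    change ok A (Iio ((i n).rho A)) (coverE_w _ (p n) _) _ at a3 b3
    change ev A (coverE_w _ (p n) _) _ < ev A (coverE_w _ (p n) _) _ at d
    rw [e3] at a3 d
    rw [e4] at b3 d
    have f1 := (st n).2.2.2.2.2 _ _ a1 (a2 ▸ (h1 n).2.1)
    have f2 := (st n).2.2.2.2.2 _ _ b1 (b2 ▸ (h2 n).2.1)
    rw [← f1.2 (f1.1.1 a3), ← f2.2 (f2.1.1 b3)]
    exact col_strictMono d
  exact (wellFounded_iff_isEmpty_descending_chain.1 (wellFounded_lt (α := On))).false ⟨_, key⟩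

theorem coverE_stage (h : Sit A e δ δ' π) (hc : Coll A e δ' β γ P) {x y : On} (hx : x < β)
    (hy : y < δ') : ∃ i : Stg δ' β γ P, x ≤ i.1.1 ∧ y < i.1.2 := by
  obtain ⟨w, w1, w2⟩ := carda_list (zero_le.trans_lt hx) P hc.mem
  have a : nl (max y γ) < δ' := h.elem.nice.nl_mem (max_lt hy hc.lt)
  refine ⟨⟨(max (max x (w + 1)) (nl (max y γ)), nl (max y γ)),
    max_lt (max_lt hx (hc.limit.add_one_lt w1)) (a.trans_le hc.le'), fun b hb => ?_,
    (le_max_right _ _).trans (lt_nl _).le, a, le_max_right _ _, isLev_nl _⟩,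
    (le_max_left _ _).trans (le_max_left _ _), (le_max_left _ _).trans_lt (lt_nl _)⟩
  exact ((w2 b hb).trans_lt (lt_add_one w)).trans_le
    ((le_max_right _ _).trans (le_max_left _ _))

theorem coverE_val (i : Stg δ' β γ P) (ξ : On) :
    (covSys A π δ' β γ P).e i (Tm.var P.length, [ξ]) = ξ := by
  change lv _ _ = ξ
  rw [coverE_lv, List.length_map, coverE_len, if_neg (lt_irrefl _), Nat.sub_self, lv_zero]

theorem coverE_dom (h : Sit A e δ δ' π) (hc : Coll A e δ' β γ P) (i : Stg δ' β γ P) {ξ : On}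
    (hξ : ξ < π i.1.2) : (Tm.var P.length, [ξ]) ∈ (covSys A π δ' β γ P).Dom i := by
  have st := hc.stage h.sub i
  refine ⟨fun a ha => by rwa [List.mem_singleton.1 ha], Nat.lt_succ_self _, ?_⟩
  have := coverE_val (A := A) (π := π) i ξ
  change lv _ _ = ξ at this
  change lv _ _ < _
  rw [this]
  exact hξ.trans_le ((h.elem.emb.le i.2.2.2.2.1 st.1).2 st.2.1)

theorem coverE_ren {t : Tm} {v : ℕ → On} {g : On} (h0 : 0 < g)
    (hv : t.vars fun j => v j ∈ Iio g ∪ {a | a ∈ P}) : ∃ (t' : Tm) (q : List On),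
      (∀ a ∈ q, a < g) ∧ t'.vars (· < P.length + q.length) ∧
      ev A (lv (P ++ q)) t' = ev A v t ∧ ∀ Λ, ok A Λ (lv (P ++ q)) t' ↔ ok A Λ v t := by
  classical
  obtain ⟨n, hn⟩ := t.exists_bound
  let q : List On := (List.range n).map fun j => if v j < g then v j else 0
  let f : ℕ → ℕ := fun j => if v j < g then P.length + j else P.idxOf (v j)
  have hq : q.length = n := by simp [q]
  have a := condd_vars_and hn hv
  have b : t.vars fun j => (lv (P ++ q) ∘ f) j = v j := Tm.vars_mono (fun j hj => by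
    by_cases k : v j < g
    · simp only [Function.comp_apply, f, if_pos k]
      rw [coverE_lv, if_neg (by omega), Nat.add_sub_cancel_left, lv,
        List.getD_eq_getElem _ _ (hq ▸ hj.1)]
      simp [q, k]
    · have m : v j ∈ P := hj.2.resolve_left k
      have m' := List.idxOf_lt_length_iff.2 m
      simp only [Function.comp_apply, f, if_neg k]
      rw [coverE_lv, if_pos m', lv, List.getD_eq_getElem _ _ m', List.getElem_idxOf]) a
  refine ⟨t.ren f, q, fun a ha => ?_, Tm.vars_ren.2 (Tm.vars_mono (fun j hj => ?_) a),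
    by rw [ev_ren, ev_irrel b], fun Λ => by rw [ok_ren, ok_irrel b]⟩
  · obtain ⟨j, -, rfl⟩ := List.mem_map.1 ha
    split_ifs with k
    exacts [k, h0]
  · by_cases k : v j < g
    · simp only [f, if_pos k]
      have := hj.1
      omega
    · have m' := List.idxOf_lt_length_iff.2 (hj.2.resolve_left k)
      simp only [f, if_neg k]
      omega

/-- Every `π x` is the value of a token with a short list. -/
theorem coverE_tok (h : Sit A e δ δ' π) (hc : Coll A e δ' β γ P) {x : On} (hx : x < δ') :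
    ∃ (i : Stg δ' β γ P) (s : Tm × List On), s ∈ (covSys A π δ' β γ P).Dom i ∧ x < i.1.2 ∧
      (∀ a ∈ s.2, a < π (nl γ)) ∧ (covSys A π δ' β γ P).e i s = π x := by
  obtain ⟨t, v, a1, a2, a3⟩ := hc.all (hx.trans_le hc.le')
  obtain ⟨t', q, b1, b2, b3, b4⟩ := coverE_ren (A := A) (P := P) (g := nl γ)
    (zero_le.trans_lt (lt_nl γ))
    (Tm.vars_mono (fun j hj => hj.imp_left fun k => lt_trans k (lt_nl γ)) a1)
  obtain ⟨F, F1, F2⟩ := a2.exists_finite
  obtain ⟨w, w1, w2⟩ := carda_list hc.limit.pos F.toList fun a ha => F1 (Finset.mem_toList.1 ha)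
  have g1 : nl γ < δ' := h.elem.nice.nl_mem hc.lt
  obtain ⟨i, i1, i2⟩ := coverE_stage h hc (hc.limit.add_one_lt w1) (max_lt hx g1)
  have i3 : x < i.1.2 := (le_max_left _ _).trans_lt i2
  have i4 : nl γ < i.1.2 := (le_max_right _ _).trans_lt i2
  have st := hc.stage h.sub i
  have c1 : ok A (Iio i.1.1) (lv (P ++ q)) t' := (b4 _).2 (F2 _ fun a ha =>
    ((w2 a (Finset.mem_toList.2 ha)).trans_lt (lt_add_one w)).trans_le i1)
  obtain ⟨c2, c3⟩ := st.2.2.2.2.2 t' q (fun a ha => (b1 a ha).trans i4) b2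
  have c4 : Iio i.1.2 ⊆ i.H A := fun a ha =>
    subset_hull ⟨Or.inl ha, lt_of_lt_of_le ha i.2.2.2.2.2.1⟩
  have c5 : ev A (lv (i.Pb A ++ q)) t' = x := col_strictMono.injective
    (by rw [c3 c1, b3, a3, col_fix c4 i3])
  have c6 : ∀ n : ℕ, (n : On) ∈ Iio (i.rho A) := fun n =>
    (natCast_lt_omega0 n).trans_le (i.2.2.2.2.2.2.1.trans st.2.1)
  have c7 : Iio (i.rho A) ⊆ Iio δ' := Iio_subset_Iio st.1.le
  obtain ⟨d1, d2⟩ := (h.elem.emb.subset c7).ev_map (Closed.of_lower (isLowerSet_Iio _) c6)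
    (Λ' := Iio (π (i.rho A))) (fun a ha => (h.elem.emb.lt (c7 ha) st.1).2 ha) (c2.2 c1)
    (c2.2 c1).vars
  rw [← lv_map h.elem.zero, List.map_append] at d1 d2
  have d3 : ∀ l < δ', nl γ ≤ l → ∀ a ∈ q.map π, a < π l := fun l hl hl' a ha => by
    obtain ⟨b, hb, rfl⟩ := List.mem_map.1 ha
    exact (h.elem.emb.lt ((b1 b hb).trans g1) hl).2 ((b1 b hb).trans_le hl')
  exact ⟨i, (t', q.map π), ⟨d3 _ i.2.2.2.2.1 i4.le, by rwa [List.length_map], d1⟩, i3,
    d3 _ g1 le_rfl, d2.trans (by rw [c5])⟩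

/-- Hint: `exists_rank` (all tokens have lists in `Iio δ`), `IsRank.fix` for the tokens
`(var P.length, [ξ])`, the oracle of the limit is `A`, `pres`; with `P' n = r (var n, [])` one gets
`r (t, q) = ev A (lv (P' ++ q)) t` (`Emb.ev_map`); every `π x`, `x < δ'`, is such a value with
`q ⊆ π γ₀` for the level `γ₀ = nl γ`; finish with `hull_subset_dcl` and `exists_enum`. -/
theorem cover_core (h : Sit A e δ δ' π) (hc : Coll A e δ' β γ P) : ¬ Rgl A univ δ := by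
  have hd := covSys_dir h hc
  have hco := covSys_coh h hc
  have hcl := covSys_cl h hc
  have hm : ∀ x < δ', π x < δ := h.elem.mem
  have hg : ∀ i : Stg δ' β γ P, i.1.2 < δ' := fun i => i.2.2.2.2.1
  let F : Tm × List δ.ToType → Tm × List On := fun a =>
    (a.1, a.2.map fun b => (Ordinal.ToType.mk.symm b).1)
  have hF : ∀ i, ∀ s ∈ (covSys A π δ' β γ P).Dom i, ∃ a, F a = s := fun i s hs => by
    obtain ⟨l, hl⟩ : ∃ l : List (Iio δ), l.map Subtype.val = s.2 :=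
      CanLift.prf s.2 fun a ha => (hs.1 a ha).trans (hm _ (hg i))
    exact ⟨(s.1, l.map Ordinal.ToType.mk), Prod.ext rfl (by
      simp [F, List.map_map, Function.comp_def, ← hl])⟩
  obtain ⟨r, hr⟩ := Sys.exists_rank hd hco (covSys_wf h hc) fun s => ⟨_, F, fun t ⟨i, a, _⟩ => by
    obtain ⟨b, rfl⟩ := hF i t a
    exact ⟨b, i, a, a, rfl⟩⟩
  have hs : ∀ ξ < δ, ∃ i : Stg δ' β γ P, ξ < π i.1.2 := fun ξ hξ => by
    obtain ⟨y, y1, y2⟩ := h.cof ξ hξ
    obtain ⟨i, -, i2⟩ := coverE_stage h hc hc.limit.pos y1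
    exact ⟨i, y2.trans ((h.elem.emb.lt y1 (hg i)).2 i2)⟩
  have hu : ∀ ξ < δ, r (Tm.var P.length, [ξ]) = ξ := by
    refine hr.fix hd (fun ξ => (Tm.var P.length, [ξ])) (fun ξ hξ => ?_) (fun ξ hξ ζ hζ => ?_)
      fun ξ hξ t ⟨i, a, b, c⟩ => ?_
    · obtain ⟨i, hi⟩ := hs ξ hξ
      exact ⟨i, coverE_dom h hc i hi⟩
    · obtain ⟨i, hi⟩ := hs ξ hξ
      exact ⟨i, coverE_dom h hc i (hζ.trans hi), coverE_dom h hc i hi, by
        rwa [coverE_val, coverE_val]⟩
    · rw [coverE_val] at c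
      exact ⟨_, c, i, a, coverE_dom h hc i (c.trans (b.1 ξ List.mem_cons_self)),
        (coverE_val i _).symm⟩
  have hv : ∀ i, ∀ s ∈ (covSys A π δ' β γ P).Dom i, (covSys A π δ' β γ P).e i s < π i.1.2 →
      r s = (covSys A π δ' β γ P).e i s := fun i s a b =>
    ((hr.eq a (coverE_dom h hc i b)).2 (coverE_val i _).symm).trans (hu _ (b.trans (hm _ (hg i))))
  have ho : (covSys A π δ' β γ P).orc r = A := by
    have a : ∀ i : Stg δ' β γ P, ∀ x ∈ A, x < π i.1.2 := fun i x hx =>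
      (h.sub hx).trans_le ((h.fix e le_rfl).symm.trans_le
        ((h.elem.emb.le h.lt (hg i)).2 (hc.le.trans i.2.2.2.1)))
    refine Set.ext fun x => ⟨fun ⟨i, s, b, c, d⟩ => ?_, fun hx => ?_⟩
    · rw [← c, hv i s b (a i _ d)]
      exact d
    · obtain ⟨i⟩ := hd.ne
      exact ⟨i, _, coverE_dom h hc i (a i x hx), hu x ((a i x hx).trans (hm _ (hg i))),
        by rwa [coverE_val]⟩
  let P' : List On := (List.range P.length).map fun n => r (Tm.var n, [])
  have hP : P'.length = P.length := by simp [P']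
  have hn : ∀ i, ∀ n < P.length, (Tm.var n, []) ∈ (covSys A π δ' β γ P).Dom i := fun i n k => by
    have st := hc.stage h.sub i
    refine ⟨fun _ m => absurd m List.not_mem_nil, k, ?_⟩
    change lv _ n < _
    have m : lv (i.Pb A) n ∈ Iio (i.rho A) :=
      lv_mem (Λ := Iio (i.rho A)) (omega0_pos.trans_le (i.2.2.2.2.2.2.1.trans st.2.1))
        st.2.2.2.1 n
    rw [List.append_nil, lv_map h.elem.zero]
    exact (h.elem.emb.lt (lt_trans m st.1) st.1).2 m
  obtain ⟨l1, l2, -⟩ := nn_spec (max δ (⨆ a, r (F a) + 1))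
  set l := nn (max δ (⨆ a, r (F a) + 1))
  have l3 : ∀ i, ∀ s ∈ (covSys A π δ' β γ P).Dom i, r s < l := fun i s a => by
    obtain ⟨b, rfl⟩ := hF i s a
    exact (Ordinal.lt_iSup_add_one (fun a => r (F a)) b).trans ((le_max_right _ _).trans_lt l2)
  have l4 : ∀ a ∈ P', a < l := fun a ha => by
    obtain ⟨n, k, rfl⟩ := List.mem_map.1 ha
    obtain ⟨i⟩ := hd.ne
    exact l3 i _ (hn i n (List.mem_range.1 k))
  have g1 : π (nl γ) < δ := hm _ (h.elem.nice.nl_mem hc.lt)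
  have g2 : π (nl γ) ≤ l := (g1.trans ((le_max_left _ _).trans_lt l2)).le
  have key : ∀ x < δ', π x ∈ Hull A (Iio l) (Iio (π (nl γ)) ∪ {a | a ∈ P'}) := fun x hx => by
    obtain ⟨i, s, s1, s2, s3, s4⟩ := coverE_tok h hc hx
    obtain ⟨f, f1, f2⟩ := Sys.presa_emb hd hco hcl hr i
    rw [ho] at f2
    have a := condd_vars_and s1.2.1 s1.2.2.vars
    have b : ∀ j, (j < P.length + s.2.length ∧
        lv ((i.Pb A).map π ++ s.2) j ∈ Iio (π (i.rho A))) →
        (Tm.var j, s.2) ∈ (covSys A π δ' β γ P).Dom i := fun j hj => ⟨s1.1, hj.1, hj.2⟩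
    obtain ⟨c1, c2⟩ := f2.ev_map (hcl i).2 (Λ' := Iio l) (by
      rintro _ ⟨t, k, rfl⟩
      rw [f1 t k]
      exact l3 i t k) s1.2.2 (Tm.vars_mono (fun j hj => ⟨_, b j hj, rfl⟩) a)
    refine ⟨s.1, _, Tm.vars_mono (fun j hj => ?_) a, c1, c2.trans ((f1 s s1).trans ?_)⟩
    · have d : (f ∘ lv ((i.Pb A).map π ++ s.2)) j = r (Tm.var j, s.2) := f1 _ (b j hj)
      have d1 : (covSys A π δ' β γ P).e i (Tm.var j, s.2) = _ := coverE_lv _ _ j
      rw [List.length_map, coverE_len] at d1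
      rw [d]
      by_cases k : j < P.length
      · refine Or.inr (List.mem_map.2 ⟨j, List.mem_range.2 k, ?_⟩)
        rw [hr.eq (hn i j k) (b j hj), d1, if_pos k]
        change lv _ j = _
        rw [List.append_nil]
      · have m : lv s.2 (j - P.length) ∈ s.2 := by
          have := hj.1
          rw [lv, List.getD_eq_getElem _ _ (by omega)]
          exact List.getElem_mem _
        rw [if_neg k] at d1
        rw [hv i _ (b j hj) (d1 ▸ s1.1 _ m), d1]
        exact Or.inl (s3 _ m)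
    · rw [hv i s s1 (s4 ▸ (h.elem.emb.lt hx (hg i)).2 s2), s4]
  obtain ⟨s, -, hs'⟩ := exists_enum A l1 g2 P' l4
  refine fun hR => hR s (mem_univ _) _ (h.elem.nice'.nl_mem (h.elem.nice'.nl_mem g1))
    fun x hx => ?_
  obtain ⟨y, y1, y2⟩ := h.cof x hx
  obtain ⟨ξ, a, b⟩ := hs' _ (hull_subset_dcl l1 Subset.rfl
    (union_subset (Iio_subset_Iio g2) l4) (key y y1))
  exact ⟨ξ, a, b ▸ y2.le, b ▸ hm y y1⟩

end core

/-- Covering.  Hint: `μ = (max e.card ℵ₀) ^ ℵ₀`, `τ = succ (succ μ)`, `δ` the supremum of an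
`ω`-sequence of nice elements of the club above `(succ μ).ord`. -/
theorem covering {A : Set On} {e : On} (hA : A ⊆ Iio e)
    (h : ∀ τ : Cardinal.{0}, τ.IsRegular → Cardinal.aleph 1 < τ → e < τ.ord →
      ∃ E, Clb (Iio τ.ord) E ∧ ∀ δ ∈ E, Rgl A univ δ) : HasSharp A := by
  obtain ⟨μ, h1, h2, h3⟩ : ∃ μ : Cardinal.{0}, e.card ≤ μ ∧ Cardinal.aleph0 ≤ μ ∧
      μ ^ Cardinal.aleph0.{0} = μ := by
    have := Cardinal.self_le_power (max e.card Cardinal.aleph0) Cardinal.one_le_aleph0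
    refine ⟨_, (le_max_left _ _).trans this, (le_max_right _ _).trans this, ?_⟩
    rw [← Cardinal.power_mul, Cardinal.aleph0_mul_aleph0]
  have s1 : μ < Order.succ μ := Order.lt_succ μ
  have s2 : Order.succ μ < Order.succ (Order.succ μ) := Order.lt_succ _
  have hr := Cardinal.isRegular_succ (h2.trans s1.le)
  have hu : Cardinal.aleph0 < Order.succ (Order.succ μ) := h2.trans_lt (s1.trans s2)
  obtain ⟨E, e1, e2⟩ := h _ hr
    (by rw [← Cardinal.succ_aleph0]; exact (Order.succ_le_succ h2).trans_lt s2)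
    (Cardinal.lt_ord.2 (h1.trans_lt (s1.trans s2)))
  have uc := uc_ord hr hu
  have hel := elUp_ord A hr hu
  have hC := (Clb.inter uc e1 hel.clb).tail uc.1 (a := (Order.succ μ).ord)
    (Cardinal.ord_lt_ord.2 s2)
  obtain ⟨a, ha, -⟩ := hC.unb 0 hel.1.zero_mem
  obtain ⟨ι, i1, -, i3⟩ := exists_seq (fun x hx => hC.unb x (hC.sub hx)) ha
  obtain ⟨y, y1, y2⟩ := uc.2 ι fun n => hC.sub (i3 n)
  have hb : BddAbove (range ι) := ⟨y, forall_mem_range.2 fun n => (y2 n).le⟩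
  have hx : ∀ n, ι n < ⨆ n, ι n := fun n => (i1 (Nat.lt_succ_self n)).trans_le (le_ciSup hb _)
  have hc : ∀ z < ⨆ n, ι n, ∃ n, z < ι n := fun z hz => (lt_ciSup_iff hb).1 hz
  have hm := hC.cls (⨆ n, ι n) ((ciSup_le fun n => (y2 n).le).trans_lt y1)
    (bot_le.trans_lt (hx 0)) fun z hz => let ⟨n, hn⟩ := hc z hz; ⟨ι n, i3 n, hn, hx n⟩
  have hn : Nice (Iio (⨆ n, ι n)) := hm.1.2.2.nice hel.1 (isLowerSet_Iio _)
  obtain ⟨δ', π, hs, hy⟩ := exists_sit hA hn ι hx hc h1 h2 h3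
    (s1.trans_le (Cardinal.ord_le.1 hm.2))
  by_cases hcard : Card A univ δ'
  · obtain ⟨d, d1, d2, d3, d4⟩ := hs.exists_crit hy
    obtain ⟨I, hI⟩ := hs.ultra d1 d3 d2 hcard
    exact hasSharp_of_ind hI d4 hA d2
  · obtain ⟨β, γ, P, hP⟩ := exists_coll hA hs.lt hs.elem.nice hcard
    exact (cover_core hs hP (e2 _ hm.1.1)).elim

end Pool.Agent.MP_fd3eaf_lc

end

-- part MP_fd3eaf_lc.Val
section

/-!
The sets named by the machine.
-/

set_option autoImplicit false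

namespace Pool.Agent.MP_fd3eaf_lc

open Set Ordinal Pool.Agent.Lib.Forcing

/-- The names of the elements; only locations at nice levels name nonempty sets. -/
def els (A : Set On) (c : On) : Set On := {d | Nice (Iio (lev c)) ∧ d ∈ ext A c}

theorem els_lt {A : Set On} {c d : On} (h : d ∈ els A c) : d < lev c := h.2.1

/-- The set named by `c`. -/
noncomputable def val (A : Set On) : On → ZFSet.{0} :=
  (wellFounded_lt (α := On)).fix fun c ih =>
    ZFSet.range fun d : {d : Iio c // d.1 ∈ els A c} => ih d.1.1 d.1.2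

theorem mem_val {A : Set On} {c : On} {z : ZFSet.{0}} :
    z ∈ val A c ↔ ∃ d ∈ els A c, val A d = z := by
  rw [val, WellFounded.fix_eq, ZFSet.mem_range]
  exact ⟨fun ⟨d, h⟩ => ⟨d.1.1, d.2, h⟩,
    fun ⟨d, h1, h2⟩ => ⟨⟨⟨d, (els_lt h1).trans_le (lev_le c)⟩, h1⟩, h2⟩⟩

theorem val_congr {A B : Set On} {c : On} (h : ∀ x < lev c, x ∈ A ↔ x ∈ B) :
    val A c = val B c := by
  induction c using WellFoundedLT.induction with
  | ind c ih =>
    have e : els A c = els B c := by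
      rw [els, els, ext_congr fun x hx => h x (hx.trans_le (cut_le_lev c))]
    refine ZFSet.ext fun z => ?_
    rw [mem_val, mem_val, e]
    refine exists_congr fun d => and_congr_right fun hd => ?_
    rw [ih d ((els_lt hd).trans_le (lev_le c)) fun x hx =>
      h x ((hx.trans_le (lev_le d)).trans (els_lt hd))]

theorem rank_val_le (A : Set On) (c : On) : (val A c).rank ≤ lev c := by
  induction c using WellFoundedLT.induction with
  | ind c ih =>
    refine ZFSet.rank_le_iff.2 fun z hz => ?_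
    obtain ⟨d, hd, rfl⟩ := mem_val.1 hz
    exact ((ih d ((els_lt hd).trans_le (lev_le c))).trans (lev_le d)).trans_lt (els_lt hd)

theorem val_zero (A : Set On) : val A 0 = ∅ := by
  refine (ZFSet.eq_empty _).2 fun z hz => ?_
  obtain ⟨d, hd, -⟩ := mem_val.1 hz
  exact not_lt_zero ((els_lt hd).trans_le (lev_le 0))

/-- The model of the names in `Λ`. -/
def W (A Λ : Set On) : Set ZFSet.{0} := val A '' Λ

theorem W_trans {A Λ : Set On} (h : IsLowerSet Λ) : ∀ x ∈ W A Λ, ∀ y ∈ x, y ∈ W A Λ := by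
  rintro _ ⟨c, hc, rfl⟩ y hy
  obtain ⟨d, hd, rfl⟩ := mem_val.1 hy
  exact ⟨d, h ((els_lt hd).trans_le (lev_le c)).le hc, rfl⟩

theorem W_mono {A Λ Λ' : Set On} (h : Λ ⊆ Λ') : W A Λ ⊆ W A Λ' := image_mono h

instance MS.els (B : Fam (Set On)) [MO B] (s : Fam On) [MT s] :
    MS fun A Λ v => els (B A Λ v) (s A Λ v) := by
  unfold MP_fd3eaf_lc.els; infer_instance

instance MD.allEls (B : Fam (Set On)) [MO B] (t : Fam On) [MT t]
    (Q : Set On → Set On → (ℕ → On) → On → Prop)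
    [h : MD fun A Λ v => Q A Λ (fun n => v (n + 1)) (v 0)] :
    MD fun A Λ v => ∀ a, a ∈ els (B A Λ v) (t A Λ v) → Q A Λ v a := by
  exact MD.congr (P := fun A Λ v => ∀ a, a < lev (t A Λ v) →
    (a ∈ els (B A Λ v) (t A Λ v) → Q A Λ v a)) fun _ _ _ _ _ =>
      ⟨fun h a ha => h a (els_lt ha) ha, fun h a _ ha => h a ha⟩

instance MD.exEls (B : Fam (Set On)) [MO B] (t : Fam On) [MT t]
    (Q : Set On → Set On → (ℕ → On) → On → Prop)
    [h : MD fun A Λ v => Q A Λ (fun n => v (n + 1)) (v 0)] :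
    MD fun A Λ v => ∃ a, a ∈ els (B A Λ v) (t A Λ v) ∧ Q A Λ v a := by
  exact MD.congr (P := fun A Λ v => ¬ ∀ a, a ∈ els (B A Λ v) (t A Λ v) → ¬ Q A Λ v a)
    fun _ _ _ _ _ => by simp

section
variable (B : Fam (Set On)) [MO B] (s t r : Fam On) [MT s] [MT t] [MT r]

theorem vala_two (R : Set On → On → On → Prop) (h : MD fun A _ v => R A (v 0) (v 1))
    (B : Fam (Set On)) [MO B] (s t : Fam On) [hs : MT s] [ht : MT t] :
    MD fun A Λ v => R (B A Λ v) (s A Λ v) (t A Λ v) :=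
  MD.substAll (fun A _ v => R A (v 0) (v 1)) B (fun i => Nat.casesOn i s fun _ => t)
    fun i => Nat.casesOn i hs fun _ => ht

theorem vala_cut {A : Set On} {l x : On} (h : x < l) : val (A ∩ Iio l) x = val A x :=
  val_congr fun _ hy => and_iff_left ((hy.trans_le (lev_le x)).trans h)

theorem vala_mem {A : Set On} {c d : On} (h : d ∈ els A c) : val A d ∈ val A c :=
  mem_val.2 ⟨d, h, rfl⟩

/-- Hint: `MD.recursion` with `b x y = max (lev x) (lev y)` and
`Φ A Q x y = (∀ x' ∈ els A x, ∃ y' ∈ els A y, Q x' y') ∧ (symmetric)`; then `MD.substAll`. -/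
instance MD.valEq : MD fun A Λ v => val (B A Λ v) (s A Λ v) = val (B A Λ v) (t A Λ v) := by
  refine vala_two (fun A x y => val A x = val A y) ?_ B s t
  refine MD.recursion (fun A x y => val A x = val A y) (fun x y => max (lev x) (lev y))
    (fun A Q x y => (∀ x', x' ∈ els A x → ∃ y', y' ∈ els A y ∧ Q x' y') ∧
      ∀ y', y' ∈ els A y → ∃ x', x' ∈ els A x ∧ Q x' y')
    (fun x y => max_le_max (lev_le x) (lev_le y)) (fun A x y => ?_) (fun A Q Q' x y h => ?_)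
    (fun A l x y _ hx hy => by rw [vala_cut hx, vala_cut hy]) inferInstance
  · refine ⟨fun e => ⟨fun x' hx' => ?_, fun y' hy' => ?_⟩, fun ⟨h1, h2⟩ => ZFSet.ext fun z => ?_⟩
    · obtain ⟨d, hd, e'⟩ := mem_val.1 (e ▸ vala_mem hx' : val A x' ∈ val A y)
      exact ⟨d, hd, e'.symm⟩
    · exact mem_val.1 (e.symm ▸ vala_mem hy' : val A y' ∈ val A x)
    · rw [mem_val, mem_val]
      constructor
      · rintro ⟨d, hd, rfl⟩
        obtain ⟨d', hd', e⟩ := h1 d hd
        exact ⟨d', hd', e.symm⟩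
      · rintro ⟨d, hd, rfl⟩
        exact h2 d hd
  · have k : ∀ x', x' ∈ els A x → ∀ y', y' ∈ els A y → (Q x' y' ↔ Q' x' y') :=
      fun x' hx' y' hy' => h (by
        rcases max_choice (lev x) (lev y) with e | e <;> rw [e]
        exacts [hx'.1, hy'.1]) x' (lt_max_of_lt_left (els_lt hx')) y'
          (lt_max_of_lt_right (els_lt hy'))
    exact and_congr
      (forall₂_congr fun x' hx' => exists_congr fun y' => and_congr_right fun hy' =>
        k x' hx' y' hy')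
      (forall₂_congr fun y' hy' => exists_congr fun x' => and_congr_right fun hx' =>
        k x' hx' y' hy')

instance MD.valMem : MD fun A Λ v => val (B A Λ v) (s A Λ v) ∈ val (B A Λ v) (t A Λ v) := by
  exact MD.congr (P := fun A Λ v => ∃ d, d ∈ els (B A Λ v) (t A Λ v) ∧
    val (B A Λ v) d = val (B A Λ v) (s A Λ v)) fun _ _ _ _ _ => mem_val.symm

/-- Hint: `MD.recursion` with `b x y = lev x`; put `y ≤ lev x` into `Φ` (`rank_val_le`). -/
instance MD.valRank : MD fun A Λ v => (val (B A Λ v) (s A Λ v)).rank = t A Λ v := by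
  refine vala_two (fun A x y => (val A x).rank = y) ?_ B s t
  refine MD.recursion (fun A x y => (val A x).rank = y) (fun x _ => lev x)
    (fun A Q x y => y ≤ lev x ∧ (∀ x', x' ∈ els A x → ∃ y', y' < y ∧ Q x' y') ∧
      ∀ z, z < y → ∃ x', x' ∈ els A x ∧ ∃ y', y' < y ∧ z ≤ y' ∧ Q x' y')
    (fun x y => le_max_of_le_left (lev_le x)) (fun A x y => ?_) (fun A Q Q' x y h => ?_)
    (fun A l x y _ hx _ => by rw [vala_cut hx]) inferInstance
  · refine ⟨?_, fun ⟨_, h1, h2⟩ => le_antisymm (ZFSet.rank_le_iff.2 fun z hz => ?_)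
      (le_of_forall_lt fun z hz => ?_)⟩
    · rintro rfl
      refine ⟨rank_val_le A x, fun x' hx' => ⟨_, ZFSet.rank_lt_of_mem (vala_mem hx'), rfl⟩,
        fun z hz => ?_⟩
      obtain ⟨w, h1, h2⟩ := ZFSet.lt_rank_iff.1 hz
      obtain ⟨d, hd, rfl⟩ := mem_val.1 h1
      exact ⟨d, hd, _, ZFSet.rank_lt_of_mem h1, h2, rfl⟩
    · obtain ⟨d, hd, rfl⟩ := mem_val.1 hz
      obtain ⟨y', a1, a2⟩ := h1 d hd
      exact a2.trans_lt a1
    · obtain ⟨d, hd, y', _, a1, a2⟩ := h2 z hz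
      exact (a1.trans a2.ge).trans_lt (ZFSet.rank_lt_of_mem (vala_mem hd))
  · refine and_congr_right fun hy => ?_
    have k : ∀ x', x' ∈ els A x → ∀ y', y' < y → (Q x' y' ↔ Q' x' y') :=
      fun x' hx' y' hy' => h hx'.1 x' (els_lt hx') y' (hy'.trans_le hy)
    exact and_congr
      (forall₂_congr fun x' hx' => exists_congr fun y' => and_congr_right fun hy' =>
        k x' hx' y' hy')
      (forall₂_congr fun z _ => exists_congr fun x' => and_congr_right fun hx' =>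
        exists_congr fun y' => and_congr_right fun hy' => and_congr_right fun _ => k x' hx' y' hy')

instance MD.valRankLt : MD fun A Λ v => (val (B A Λ v) (s A Λ v)).rank < t A Λ v := by
  exact MD.congr (P := fun A Λ v => ∃ y, y < t A Λ v ∧ (val (B A Λ v) (s A Λ v)).rank = y)
    fun _ _ _ _ _ => ⟨fun ⟨_, h1, h2⟩ => h2.trans_lt h1, fun h => ⟨_, h, rfl⟩⟩

instance MD.valOrd : MD fun A Λ v => val (B A Λ v) (s A Λ v) = (t A Λ v).toZFSet := by
  refine vala_two (fun A x y => val A x = y.toZFSet) ?_ B s t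
  refine MD.recursion (fun A x y => val A x = y.toZFSet) (fun x _ => lev x)
    (fun A Q x y => y ≤ lev x ∧ (∀ x', x' ∈ els A x → ∃ y', y' < y ∧ Q x' y') ∧
      ∀ y', y' < y → ∃ x', x' ∈ els A x ∧ Q x' y')
    (fun x y => le_max_of_le_left (lev_le x)) (fun A x y => ?_) (fun A Q Q' x y h => ?_)
    (fun A l x y _ hx _ => by rw [vala_cut hx]) inferInstance
  · refine ⟨fun e => ⟨?_, fun x' hx' => ?_, fun y' hy' => ?_⟩,
      fun ⟨_, h1, h2⟩ => ZFSet.ext fun z => ?_⟩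
    · have h1 := rank_val_le A x
      rwa [e, rank_toZFSet] at h1
    · obtain ⟨a, h1, h2⟩ := mem_toZFSet_iff.1 (e ▸ vala_mem hx' : val A x' ∈ y.toZFSet)
      exact ⟨a, h1, h2.symm⟩
    · exact mem_val.1 (e.symm ▸ toZFSet_mem_toZFSet_iff.2 hy' : y'.toZFSet ∈ val A x)
    · rw [mem_val, mem_toZFSet_iff]
      constructor
      · rintro ⟨d, hd, rfl⟩
        obtain ⟨y', a1, a2⟩ := h1 d hd
        exact ⟨y', a1, a2.symm⟩
      · rintro ⟨y', hy', rfl⟩
        exact h2 y' hy'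
  · refine and_congr_right fun hy => ?_
    have k : ∀ x', x' ∈ els A x → ∀ y', y' < y → (Q x' y' ↔ Q' x' y') :=
      fun x' hx' y' hy' => h hx'.1 x' (els_lt hx') y' (hy'.trans_le hy)
    exact and_congr
      (forall₂_congr fun x' hx' => exists_congr fun y' => and_congr_right fun hy' =>
        k x' hx' y' hy')
      (forall₂_congr fun y' hy' => exists_congr fun x' => and_congr_right fun hx' =>
        k x' hx' y' hy')

theorem vala_pair {A : Set On} {c : On} {a b : ZFSet.{0}} :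
    ((∀ d, d ∈ els A c → val A d = a ∨ val A d = b) ∧ a ∈ val A c ∧ b ∈ val A c) ↔
      val A c = {a, b} := by
  refine ⟨fun ⟨h1, h2, h3⟩ => ZFSet.ext fun z => ?_, fun e => ⟨fun d hd => ?_, ?_, ?_⟩⟩
  · rw [ZFSet.mem_pair]
    refine ⟨fun hz => ?_, ?_⟩
    · obtain ⟨d, hd, rfl⟩ := mem_val.1 hz
      exact h1 d hd
    · rintro (rfl | rfl) <;> assumption
  · exact ZFSet.mem_pair.1 (e ▸ vala_mem hd)
  · exact e ▸ ZFSet.mem_pair.2 (Or.inl rfl)
  · exact e ▸ ZFSet.mem_pair.2 (Or.inr rfl)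

instance vala_upair : MD fun A Λ v => val (B A Λ v) (s A Λ v) =
    {val (B A Λ v) (t A Λ v), val (B A Λ v) (r A Λ v)} :=
  MD.congr (P := fun A Λ v => (∀ d, d ∈ els (B A Λ v) (s A Λ v) →
      val (B A Λ v) d = val (B A Λ v) (t A Λ v) ∨ val (B A Λ v) d = val (B A Λ v) (r A Λ v)) ∧
    val (B A Λ v) (t A Λ v) ∈ val (B A Λ v) (s A Λ v) ∧
    val (B A Λ v) (r A Λ v) ∈ val (B A Λ v) (s A Λ v)) fun _ _ _ _ _ => vala_pair

instance MD.valPair : MD fun A Λ v => val (B A Λ v) (s A Λ v) =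
    ZFSet.pair (val (B A Λ v) (t A Λ v)) (val (B A Λ v) (r A Λ v)) := by
  refine MD.congr (P := fun A Λ v => (∀ d, d ∈ els (B A Λ v) (s A Λ v) →
      val (B A Λ v) d = {val (B A Λ v) (t A Λ v), val (B A Λ v) (t A Λ v)} ∨
      val (B A Λ v) d = {val (B A Λ v) (t A Λ v), val (B A Λ v) (r A Λ v)}) ∧
    (∃ d, d ∈ els (B A Λ v) (s A Λ v) ∧
      val (B A Λ v) d = {val (B A Λ v) (t A Λ v), val (B A Λ v) (t A Λ v)}) ∧
    ∃ d, d ∈ els (B A Λ v) (s A Λ v) ∧
      val (B A Λ v) d = {val (B A Λ v) (t A Λ v), val (B A Λ v) (r A Λ v)})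
    fun A Λ v _ _ => ?_
  have e : ∀ a : ZFSet.{0}, ({a, a} : ZFSet.{0}) = {a} := fun a => ZFSet.ext fun z => by simp
  rw [← mem_val, ← mem_val, vala_pair, e, ZFSet.pair]

end

/-- Truth in the class of the sets named by a definable class of names. -/
theorem valb_sat (φ : Fml) (L : Fam (Set On))
    (hL : MD fun A Λ v => v 0 ∈ L A Λ fun n => v (n + 1))
    (hs : ∀ A Λ v, Nice Λ → (∀ i, v i ∈ Λ) → L A Λ v ⊆ Λ)
    (t : ℕ → Fam On) (ht : ∀ i, MT (t i)) :
    MD fun A Λ v => SatIn Mem (· ∈ val A '' L A Λ v) φ fun i => val A (t i A Λ v) := by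
  induction φ generalizing L t with
  | mem i j =>
    have := ht i
    have := ht j
    exact MD.valMem (fun A _ _ => A) (t i) (t j)
  | eq i j =>
    have := ht i
    have := ht j
    exact MD.valEq (fun A _ _ => A) (t i) (t j)
  | neg φ ih => exact MD.not _ (h := ih L hL hs t ht)
  | and φ ψ ih ih' => exact MD.and _ _ (h1 := ih L hL hs t ht) (h2 := ih' L hL hs t ht)
  | all j φ ih =>
    have h1 := ih (fun A Λ v => L A Λ fun n => v (n + 1))
      (MD.rename (fun A Λ v => v 0 ∈ L A Λ fun n => v (n + 1)) (up fun n => n + 1))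
      (fun A Λ v hΛ hv => hs A Λ _ hΛ fun _ => hv _)
      (fun i A Λ v => if i = j then v 0 else t i A Λ fun n => v (n + 1)) fun i => by
        by_cases e : i = j
        · exact MT.congr (h := MT.var 0) fun _ _ _ _ _ => (if_pos e).symm
        · exact MT.congr (h := MT.shift (t i) (h := ht i) fun n => n + 1) fun _ _ _ _ _ =>
            (if_neg e).symm
    have h2 : MD fun A Λ v => SatIn Mem (· ∈ val A '' L A Λ fun n => v (n + 1)) φ
        (Function.update (fun i => val A (t i A Λ fun n => v (n + 1))) j (val A (v 0))) := by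
      refine MD.congr (h := h1) fun A Λ v _ _ => iff_of_eq (congrArg _ (funext fun i => ?_))
      by_cases e : i = j
      · rw [if_pos e, e, Function.update_self]
      · rw [if_neg e, Function.update_of_ne e]
    refine MD.congr (h := MD.allL fun A Λ v a => a ∈ L A Λ v →
      SatIn Mem (· ∈ val A '' L A Λ v) φ
        (Function.update (fun i => val A (t i A Λ v)) j (val A a))) fun A Λ v hΛ hv => ?_
    exact ⟨fun h _ ⟨a, ha, e⟩ => e ▸ h a (hs A Λ v hΛ hv ha) ha, fun h a _ ha => h _ ⟨a, ha, rfl⟩⟩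

theorem md_satW (φ : Fml) :
    MD fun A Λ v => SatIn Mem (· ∈ W A Λ) φ fun i => val A (v i) :=
  valb_sat φ (fun _ Λ _ => Λ)
    (MD.congr (h := MD.tru) fun _ _ _ _ hv => iff_of_true trivial (hv 0))
    (fun _ _ _ _ _ => Subset.rfl) (fun i _ _ v => v i) MT.var

/-- Truth in the set named by `v 0`. -/
theorem md_satVal (φ : Fml) :
    MD fun A _ v => SatIn Mem (· ∈ val A (v 0)) φ fun i => val A (v (i + 1)) := by
  have h : MD fun A _ v => v 0 ∈ els A (v 1) := by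
    unfold els
    exact inferInstanceAs (MD fun A _ v => Nice (Iio (lev (v 1))) ∧ v 0 ∈ ext A (v 1))
  refine MD.congr (h := valb_sat φ (fun A _ v => els A (v 0)) h
    (fun A Λ v hΛ hv d hd => hΛ.lower ((els_lt hd).le.trans (lev_le _)) (hv 0))
    (fun i _ _ v => v (i + 1)) fun i => MT.var (i + 1)) fun A Λ v _ _ => ?_
  have e : (fun x => x ∈ val A '' els A (v 0)) = fun x => x ∈ val A (v 0) :=
    funext fun x => propext mem_val.symm
  rw [e]

theorem md_satE (φ : MP_ecfd11_lc.Fml) :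
    MD fun A Λ v => MP_ecfd11_lc.Sat (W A Λ) φ fun i => val A (v i) := by
  induction φ with
  | mem i j => exact MD.valMem (fun A _ _ => A) (fun _ _ v => v i) fun _ _ v => v j
  | eq i j => exact MD.valEq (fun A _ _ => A) (fun _ _ v => v i) fun _ _ v => v j
  | neg φ ih => exact MD.not _ (h := ih)
  | and φ ψ ih ih' => exact MD.and _ _ (h1 := ih) (h2 := ih')
  | all φ ih =>
    have h2 : MD fun A Λ v => MP_ecfd11_lc.Sat (W A Λ) φ
        (MP_ecfd11_lc.cons (val A (v 0)) fun i => val A (v (i + 1))) :=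
      MD.congr (h := ih) fun A Λ v _ _ => iff_of_eq (congrArg _ (funext fun i => by
        cases i <;> rfl))
    refine MD.congr (h := MD.allL fun A Λ v a => MP_ecfd11_lc.Sat (W A Λ) φ
      (MP_ecfd11_lc.cons (val A a) fun i => val A (v i))) fun A Λ v _ _ => ?_
    exact ⟨fun h _ ⟨a, ha, e⟩ => e ▸ h a ha, fun h a ha => h _ ⟨a, ha, rfl⟩⟩

/-- A definable family of names below a nice level names a set. -/
theorem exists_val (P : Set On → Set On → (ℕ → On) → Prop) [MD P] (A : Set On) {l : On}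
    (hl : Nice (Iio l)) (q : List On) (hq : ∀ a ∈ q, a < l) :
    ∃ s, lev s = l ∧ els A s = {d | d < l ∧ P A (Iio l) (lv (d :: q))} := by
  obtain ⟨s, h1, -, -, h2⟩ := MD.exists_ext P A hl q hq
  refine ⟨s, h1, ?_⟩
  rw [← h2]
  exact Set.ext fun d => and_iff_right (h1 ▸ hl)

/-- An elementary level above finitely many parameters. -/
theorem valb_level {A Λ : Set On} (h : ElUp A Λ) (q : List On) (hq : ∀ a ∈ q, a ∈ Λ) :
    ∃ l ∈ Λ, (∀ a ∈ q, a < l) ∧ TV A Λ (Iio l) := by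
  obtain ⟨x, hx, hb⟩ : ∃ x ∈ Λ, ∀ a ∈ q, a ≤ x := by
    induction q with
    | nil => exact ⟨0, h.1.zero_mem, fun _ m => absurd m List.not_mem_nil⟩
    | cons b q ih =>
      obtain ⟨x, h1, h2⟩ := ih fun a m => hq a (List.mem_cons_of_mem _ m)
      refine ⟨max b x, ?_, fun a m => (List.mem_cons.1 m).elim (fun e => e ▸ le_max_left _ _)
        fun m => (h2 a m).trans (le_max_right _ _)⟩
      rcases max_choice b x with e | e
      · exact mem_of_eq_of_mem e (hq b List.mem_cons_self)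
      · exact mem_of_eq_of_mem e h1
  obtain ⟨l, h1, h2, h3⟩ := h.2 x hx
  exact ⟨l, h1, fun a m => (hb a m).trans_lt h2, h3⟩

/-- The same for a predicate of `Λ`. -/
theorem ElUp.exists_val {A Λ : Set On} (h : ElUp A Λ) (P : Set On → Set On → (ℕ → On) → Prop)
    [MD P] (q : List On) (hq : ∀ a ∈ q, a ∈ Λ) {b : On} (hb : b ∈ Λ) :
    ∃ s ∈ Λ, els A s = {d | d < b ∧ P A Λ (lv (d :: q))} := by
  obtain ⟨l, h1, h2, h3⟩ := valb_level h (b :: q) fun a m =>
    (List.mem_cons.1 m).elim (fun e => e ▸ hb) (hq a)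
  have hP := MD.rename P (up fun n => n + 1)
  have hQ : MD fun A Λ v => v 0 < v 1 ∧ P A Λ fun n => v (up (fun n => n + 1) n) :=
    MD.and _ _ (h1 := MD.ltVar 0 1) (h2 := hP)
  obtain ⟨s, e1, e2⟩ := MP_fd3eaf_lc.exists_val
    (fun A Λ v => v 0 < v 1 ∧ P A Λ fun n => v (up (fun n => n + 1) n)) A
    (h3.nice h.1 (isLowerSet_Iio l)) (b :: q) h2
  refine ⟨s, h.1.lower (lt_nl s).le (by rw [← nl_lev, e1]; exact h.1.nl_mem h1), ?_⟩
  have hbl : b < l := h2 b List.mem_cons_self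
  have key : ∀ d < b, P A (Iio l) (lv (d :: q)) ↔ P A Λ (lv (d :: q)) := fun d hd => by
    have := (h3.elem_id h.1 (isLowerSet_Iio l)).mdl P (d :: q) fun a m =>
      (List.mem_cons.1 m).elim (fun e => e ▸ hd.trans hbl) fun m => h2 a (List.mem_cons_of_mem _ m)
    rwa [List.map_id] at this
  have e3 : ∀ d, (fun n => lv (d :: b :: q) (up (fun n => n + 1) n)) = lv (d :: q) := fun d =>
    funext fun n => by cases n <;> rfl
  rw [e2]
  refine Set.ext fun d => ?_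
  simp only [mem_setOf_eq, e3, lv_zero, lv_succ]
  exact ⟨fun k => ⟨k.2.1, (key d k.2.1).1 k.2.2⟩,
    fun k => ⟨k.1.trans hbl, k.1, (key d k.1).2 k.2⟩⟩

/-- Collection. -/
theorem ElUp.collect {A Λ : Set On} (h : ElUp A Λ) (P : Set On → Set On → (ℕ → On) → Prop)
    [MD P] (q : List On) (hq : ∀ a ∈ q, a ∈ Λ) {b : On} (hb : b ∈ Λ) :
    ∃ l ∈ Λ, ∀ d < b, ∀ x ∈ Λ, P A Λ (lv (x :: d :: q)) → ∃ x < l, P A Λ (lv (x :: d :: q)) := by
  obtain ⟨l, h1, h2, h3⟩ := valb_level h (b :: q) fun a m =>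
    (List.mem_cons.1 m).elim (fun e => e ▸ hb) (hq a)
  exact ⟨l, h1, fun d hd x hx hP => h3.md h.1 P (d :: q) (fun a m => (List.mem_cons.1 m).elim
    (fun e => e ▸ hd.trans (h2 b List.mem_cons_self)) fun m => h2 a (List.mem_cons_of_mem _ m))
    hx hP⟩

theorem ElUp.ord_mem {A Λ : Set On} (h : ElUp A Λ) {ξ : On} : ξ.toZFSet ∈ W A Λ ↔ ξ ∈ Λ := by
  constructor
  · rintro ⟨c, hc, e⟩
    have := rank_val_le A c
    rw [e, Ordinal.rank_toZFSet] at this
    exact h.1.lower (this.trans (lev_le c)) hc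
  · induction ξ using WellFoundedLT.induction with
    | ind ξ ih =>
      intro hξ
      obtain ⟨l, h1, h2⟩ := h.collect (fun A _ v => val A (v 0) = (v 1).toZFSet) []
        (fun _ m => absurd m List.not_mem_nil) hξ
      obtain ⟨s, h3, h4⟩ := h.exists_val (fun A _ v => ∃ d, d < v 1 ∧ val A (v 0) = d.toZFSet) [ξ]
        (fun a m => List.mem_singleton.1 m ▸ hξ) h1
      refine ⟨s, h3, ZFSet.ext fun z => ?_⟩
      rw [mem_val, h4, Ordinal.mem_toZFSet_iff]
      constructor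
      · rintro ⟨x, ⟨-, d, h5, h6⟩, rfl⟩
        exact ⟨d, h5, h6.symm⟩
      · rintro ⟨d, h5, rfl⟩
        obtain ⟨x, h6, h7⟩ := ih d h5 (h.1.lower h5.le hξ)
        obtain ⟨y, h8, h9⟩ := h2 d h5 x h6 h7
        exact ⟨y, ⟨h8, d, h5, h9⟩, h9⟩

end Pool.Agent.MP_fd3eaf_lc

end

-- part MP_fd3eaf_lc.WZfc
section

/-!
The model of the names satisfies ZFC.
-/

set_option autoImplicit false

namespace Pool.Agent.MP_fd3eaf_lc

open Set Ordinal Pool.Agent.Lib.Forcing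

/-- The hypotheses on the machine. -/
structure Mod (A Λ : Set On) (e : On) : Prop where
  down : Down A e
  el : ElUp A Λ
  mem : e ∈ Λ
  card : ∀ x ∈ Λ, ∃ θ ∈ Λ, x < θ ∧ Nice (Iio θ) ∧ Card A Λ θ

theorem wzfca_lt {A : Set On} {c d : On} (h : d ∈ els A c) : d < c :=
  (els_lt h).trans_le (lev_le c)

theorem wzfca_val {A : Set On} {c d : On} (h : d ∈ els A c) : val A d ∈ val A c :=
  mem_val.2 ⟨d, h, rfl⟩

theorem wzfca_set {A Λ : Set On} (h : ElUp A Λ) (P : Set On → Set On → (ℕ → On) → Prop)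
    [MD P] (q : List On) (hq : ∀ a ∈ q, a ∈ Λ) {b : On} (hb : b ∈ Λ) :
    ∃ y ∈ W A Λ, ∀ z, z ∈ y ↔ ∃ d < b, P A Λ (lv (d :: q)) ∧ val A d = z := by
  obtain ⟨s, hs, e⟩ := h.exists_val P q hq hb
  refine ⟨val A s, ⟨s, hs, rfl⟩, fun z => ?_⟩
  rw [mem_val, e]
  exact ⟨fun ⟨d, h1, h2⟩ => ⟨d, h1.1, h1.2, h2⟩, fun ⟨d, h1, h2, h3⟩ => ⟨d, ⟨h1, h2⟩, h3⟩⟩

theorem wzfca_names {A Λ : Set On} {v : ℕ → ZFSet.{0}} (hv : ∀ i, v i ∈ W A Λ) (k : ℕ) :
    ∃ (w : ℕ → On) (q : List On), (∀ i, w i ∈ Λ) ∧ (∀ i, val A (w i) = v i) ∧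
      (∀ a ∈ q, a ∈ Λ) ∧ ∀ i < k, lv q i = w i := by
  choose w h1 h2 using hv
  refine ⟨w, (List.range k).map w, h1, h2, fun a ha => ?_, fun i hi => ?_⟩
  · obtain ⟨i, -, rfl⟩ := List.mem_map.1 ha
    exact h1 i
  · simp [lv, hi]

theorem wzfca_cons (A : Set On) (d : On) (w : ℕ → On) {v : ℕ → ZFSet.{0}}
    (h : ∀ i, val A (w i) = v i) (i : ℕ) :
    val A (cons d w i) = MP_ecfd11_lc.cons (val A d) v i := by
  cases i with
  | zero => rfl
  | succ i => exact h i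

theorem mod_univ {A : Set On} {e : On} (h : Down A e) : Mod A univ e := by
  refine ⟨h, elUp_univ A, trivial, fun x _ => ?_⟩
  exact ⟨(Order.succ (max x.card Cardinal.aleph0)).ord, trivial,
    Cardinal.lt_ord.2 (Order.lt_succ_of_le (le_max_left _ _)),
    nice_ord (Order.lt_succ_of_le (le_max_right _ _)), card_ord A _⟩

namespace Mod
variable {A Λ : Set On} {e : On}

/-- A set of the model that is included in `W μ` has a name below the next cardinal.  Hint: rename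
it by `ElUp.exists_val` so that `els A s ⊆ Iio μ`, and apply `hull_lemma`. -/
theorem subset_mem (h : Mod A Λ e) {θ μ : On} (h1 : θ ∈ Λ) (h2 : Nice (Iio θ)) (h3 : Card A Λ θ)
    (h4 : e < θ) (h5 : μ < θ) {x : ZFSet.{0}} (hx : x ∈ W A Λ) (hs : ∀ z ∈ x, z ∈ W A (Iio μ)) :
    x ∈ W A (Iio θ) := by
  obtain ⟨c, hc, rfl⟩ := hx
  obtain ⟨s, a1, a2⟩ := h.el.exists_val (fun A _ v => val A (v 0) ∈ val A (v 1)) [c]
    (by simpa using hc) (h.el.1.lower h5.le h1)
  obtain ⟨l, l', s', f, b1, b2, b3, b4, b5, b6⟩ := cardc_hull h.down h.el h3 h2 h4 h5 a1 h1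
  have k1 : ∀ d < l', d ∈ els A s' ↔ f d ∈ els A s := fun d hd => by
    have := b4.mdl (fun A _ v => v 0 ∈ els A (v 1)) [d, s'] (by simpa using ⟨hd, b3⟩)
    simpa [b6] using this
  have k2 : ∀ d < l', d < μ ↔ f d < μ := fun d hd => by
    have := b4.mdl (fun _ _ v => v 0 < v 1) [d, μ] (by simpa using ⟨hd, b2⟩)
    simpa [b5 μ le_rfl] using this
  have k3 : ∀ d, d ∈ els A s ↔ d < μ ∧ val A d ∈ val A c := fun d => by rw [a2]; rfl
  refine ⟨s', b3.trans b1, ZFSet.ext fun z => ?_⟩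
  rw [mem_val]
  constructor
  · rintro ⟨d, hd, rfl⟩
    have c1 : d < l' := (wzfca_lt hd).trans b3
    have c2 := (k3 _).1 ((k1 d c1).1 hd)
    rw [← b5 d ((k2 d c1).2 c2.1).le]
    exact c2.2
  · intro hz
    obtain ⟨d, hd, rfl⟩ := hs z hz
    refine ⟨d, (k1 d (lt_trans hd b2)).2 ?_, rfl⟩
    rw [b5 d (le_of_lt hd)]
    exact (k3 d).2 ⟨hd, hz⟩

theorem pairing (h : Mod A Λ e) : ∀ x ∈ W A Λ, ∀ y ∈ W A Λ, ({x, y} : ZFSet.{0}) ∈ W A Λ := by
  rintro _ ⟨c, hc, rfl⟩ _ ⟨c', hc', rfl⟩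
  have hm : max c c' ∈ Λ := by
    rcases max_choice c c' with e | e <;> rw [e] <;> assumption
  obtain ⟨y, h1, h2⟩ := wzfca_set h.el (fun _ _ v => v 0 = v 1 ∨ v 0 = v 2) [c, c']
    (by simpa using ⟨hc, hc'⟩) (h.el.1.succ_mem hm)
  suffices e : y = {val A c, val A c'} from e ▸ h1
  refine ZFSet.ext fun z => ?_
  rw [h2, ZFSet.mem_pair]
  constructor
  · rintro ⟨d, -, e | e, rfl⟩
    · exact Or.inl (congrArg _ e)
    · exact Or.inr (congrArg _ e)
  · rintro (rfl | rfl)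
    · exact ⟨c, (le_max_left _ _).trans_lt (lt_add_one _), Or.inl rfl, rfl⟩
    · exact ⟨c', (le_max_right _ _).trans_lt (lt_add_one _), Or.inr rfl, rfl⟩

theorem union (h : Mod A Λ e) : ∀ x ∈ W A Λ, (ZFSet.sUnion x) ∈ W A Λ := by
  rintro _ ⟨c, hc, rfl⟩
  obtain ⟨y, h1, h2⟩ := wzfca_set h.el (fun A _ v => ∃ a, a ∈ els A (v 1) ∧ v 0 ∈ els A a) [c]
    (by simpa using hc) hc
  suffices e : y = ZFSet.sUnion (val A c) from e ▸ h1
  refine ZFSet.ext fun z => ?_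
  rw [h2, ZFSet.mem_sUnion]
  constructor
  · rintro ⟨d, -, ⟨a, a1, a2⟩, rfl⟩
    exact ⟨val A a, wzfca_val a1, wzfca_val a2⟩
  · rintro ⟨u, a1, a2⟩
    obtain ⟨a, b1, rfl⟩ := mem_val.1 a1
    obtain ⟨d, b2, rfl⟩ := mem_val.1 a2
    exact ⟨d, (wzfca_lt b2).trans (wzfca_lt b1), ⟨a, b1, b2⟩, rfl⟩

theorem power (h : Mod A Λ e) :
    ∀ x ∈ W A Λ, ∃ p ∈ W A Λ, ∀ z, z ∈ p ↔ z ∈ W A Λ ∧ z ⊆ x := by
  rintro _ ⟨c, hc, rfl⟩
  have hm : max c e ∈ Λ := by
    rcases max_choice c e with k | k <;> rw [k]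
    exacts [hc, h.mem]
  obtain ⟨θ, a1, a2, a3, a4⟩ := h.card _ hm
  obtain ⟨y, h1, h2⟩ := wzfca_set h.el
    (fun A _ v => ∀ a, a ∈ els A (v 0) → val A a ∈ val A (v 1)) [c] (by simpa using hc) a1
  refine ⟨y, h1, fun z => ?_⟩
  rw [h2]
  constructor
  · rintro ⟨d, b1, b2, rfl⟩
    refine ⟨⟨d, h.el.1.lower b1.le a1, rfl⟩, fun u hu => ?_⟩
    obtain ⟨a, b3, rfl⟩ := mem_val.1 hu
    exact b2 a b3
  · rintro ⟨b1, b2⟩
    obtain ⟨d, b3, rfl⟩ := h.subset_mem a1 a3 a4 ((le_max_right _ _).trans_lt a2)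
      ((le_max_left _ _).trans_lt a2) b1 fun u hu => by
        obtain ⟨a, b3, rfl⟩ := mem_val.1 (b2 hu)
        exact ⟨a, wzfca_lt b3, rfl⟩
    exact ⟨d, b3, fun a ha => b2 (wzfca_val ha), rfl⟩

/-- Hint: choose from `y ∈ x` the element with the least name. -/
theorem choice (h : Mod A Λ e) : ∀ x ∈ W A Λ, (∀ y ∈ x, ∃ z, z ∈ y) →
    (∀ y ∈ x, ∀ y' ∈ x, y ≠ y' → ∀ z ∈ y, z ∉ y') → ∃ c ∈ W A Λ, ∀ y ∈ x, ∃! z, z ∈ y ∧ z ∈ c := by
  rintro _ ⟨c, hc, rfl⟩ h1 h2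
  obtain ⟨C, a1, a2⟩ := wzfca_set h.el
    (fun A _ v => ∃ a, a ∈ els A (v 1) ∧ (val A (v 0) ∈ val A a ∧
      ∀ d, d < v 0 → ¬ val A d ∈ val A a)) [c] (by simpa using hc) hc
  refine ⟨C, a1, fun y hy => ?_⟩
  obtain ⟨a, b1, rfl⟩ := mem_val.1 hy
  obtain ⟨u, b2⟩ := h1 _ hy
  obtain ⟨d₀, b3, rfl⟩ := mem_val.1 b2
  obtain ⟨d, b4, b5⟩ := (wellFounded_lt (α := On)).has_min {d | val A d ∈ val A a} ⟨d₀, b2⟩
  have b6 : d < c := (not_lt.1 (b5 d₀ b2)).trans_lt ((wzfca_lt b3).trans (wzfca_lt b1))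
  refine ⟨val A d, ⟨b4, (a2 _).2 ⟨d, b6, ⟨a, b1, b4, fun d' hd' k => b5 d' k hd'⟩, rfl⟩⟩, ?_⟩
  rintro z ⟨c1, c2⟩
  obtain ⟨d', -, ⟨a', c3, c4, c5⟩, rfl⟩ := (a2 _).1 c2
  have c6 : val A a = val A a' := by
    by_contra k
    exact h2 _ hy _ (wzfca_val c3) k _ c1 c4
  exact congrArg (val A) (le_antisymm (not_lt.1 fun k => c5 d k (c6 ▸ b4)) (not_lt.1 (b5 d' c1)))

/-- Separation for a predicate that is definable on names. -/
theorem sep (h : Mod A Λ e) (Q : (ℕ → ZFSet.{0}) → Prop) (k : ℕ)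
    (hk : ∀ v, (∀ i, v i ∈ Λ) → (Sat A Λ k v ↔ Q fun i => val A (v i)))
    (v : ℕ → ZFSet.{0}) (hv : ∀ i, v i ∈ W A Λ) : ∀ x ∈ W A Λ, ∃ y ∈ W A Λ,
      ∀ z, z ∈ y ↔ z ∈ x ∧ Q (MP_ecfd11_lc.cons z v) := by
  rintro _ ⟨c, hc, rfl⟩
  obtain ⟨w, q, a1, a2, a3, a4⟩ := wzfca_names hv k
  have := MD.rename (fun A Λ v => Sat A Λ k v) (h := MD.sat k) (up fun n => n + 1)
  obtain ⟨y, b1, b2⟩ := wzfca_set h.el (fun A Λ v => v 0 ∈ els A (v 1) ∧
    Sat A Λ k fun n => v (up (fun n => n + 1) n)) (c :: q) (by simpa using ⟨hc, a3⟩) hc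
  have key : ∀ d ∈ Λ, (Sat A Λ k fun n => lv (d :: c :: q) (up (fun n => n + 1) n)) ↔
      Q (MP_ecfd11_lc.cons (val A d) v) := fun d hd => by
    rw [← funext (wzfca_cons A d w a2), ← hk _ (cons_mem hd a1)]
    refine sat_irrel fun i hi => ?_
    rcases i with _ | i
    · rfl
    · exact a4 i (by omega)
  refine ⟨y, b1, fun z => ?_⟩
  rw [b2]
  constructor
  · rintro ⟨d, c1, ⟨c2, c3⟩, rfl⟩
    exact ⟨wzfca_val c2, (key d (h.el.1.lower c1.le hc)).1 c3⟩
  · rintro ⟨c1, c2⟩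
    obtain ⟨d, c3, rfl⟩ := mem_val.1 c1
    exact ⟨d, wzfca_lt c3, ⟨c3, (key d (h.el.1.lower (wzfca_lt c3).le hc)).2 c2⟩, rfl⟩

/-- Replacement for a predicate that is definable on names. -/
theorem repl (h : Mod A Λ e) (Q : (ℕ → ZFSet.{0}) → Prop) (k : ℕ)
    (hk : ∀ v, (∀ i, v i ∈ Λ) → (Sat A Λ k v ↔ Q fun i => val A (v i)))
    (v : ℕ → ZFSet.{0}) (hv : ∀ i, v i ∈ W A Λ) : ∀ x ∈ W A Λ, ∃ y ∈ W A Λ,
      (∀ b ∈ y, ∃ a ∈ x, Q (MP_ecfd11_lc.cons b (MP_ecfd11_lc.cons a v))) ∧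
      ∀ a ∈ x, (∃! b, b ∈ W A Λ ∧ Q (MP_ecfd11_lc.cons b (MP_ecfd11_lc.cons a v))) →
        ∀ b ∈ W A Λ, Q (MP_ecfd11_lc.cons b (MP_ecfd11_lc.cons a v)) → b ∈ y := by
  rintro _ ⟨c, hc, rfl⟩
  obtain ⟨w, q, a1, a2, a3, a4⟩ := wzfca_names hv k
  have key : ∀ b ∈ Λ, ∀ d ∈ Λ, Sat A Λ k (lv (b :: d :: q)) ↔
      Q (MP_ecfd11_lc.cons (val A b) (MP_ecfd11_lc.cons (val A d) v)) := fun b hb d hd => by
    rw [← funext (wzfca_cons A b _ (wzfca_cons A d w a2)), ← hk _ (cons_mem hb (cons_mem hd a1))]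
    refine sat_irrel fun i hi => ?_
    rcases i with _ | _ | i
    · rfl
    · rfl
    · exact a4 i (by omega)
  have := MD.sat k
  obtain ⟨l, b1, b2⟩ := h.el.collect (fun A Λ v => Sat A Λ k v) q a3 hc
  have := MD.rename (fun A Λ v => Sat A Λ k v) fun n => n.casesOn 1 fun n =>
    n.casesOn 0 fun n => n + 3
  have : MD fun A Λ v => Sat A Λ k (cons (v 1) (cons (v 0) fun n => v (n + 3))) :=
    MD.congr (h := this) fun _ _ _ _ _ => sat_irrel fun i _ => by
      rcases i with _ | _ | i <;> rfl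
  obtain ⟨y, b3, b4⟩ := wzfca_set h.el (fun A Λ v => ∃ d, d ∈ els A (v 1) ∧
    Sat A Λ k (cons (v 0) (cons d fun n => v (n + 2)))) (c :: q) (by simpa using ⟨hc, a3⟩) b1
  have e : ∀ b d, (cons (lv (b :: c :: q) 0) (cons d fun n => lv (b :: c :: q) (n + 2))) =
      lv (b :: d :: q) := fun b d => funext fun i => by rcases i with _ | _ | i <;> rfl
  simp only [e] at b4
  have lo : ∀ d ∈ els A c, d ∈ Λ := fun d hd => h.el.1.lower (wzfca_lt hd).le hc
  refine ⟨y, b3, fun z hz => ?_, fun a ha hu z hz hQ => ?_⟩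
  · obtain ⟨b, c1, ⟨d, c2, c3⟩, rfl⟩ := (b4 z).1 hz
    exact ⟨val A d, wzfca_val c2, (key b (h.el.1.lower c1.le b1) d (lo d c2)).1 c3⟩
  · obtain ⟨d, c2, rfl⟩ := mem_val.1 ha
    obtain ⟨b, c1, rfl⟩ := hz
    obtain ⟨b', c3, c4⟩ := b2 d (wzfca_lt c2) b c1 ((key b c1 d (lo d c2)).2 hQ)
    have c5 : b' ∈ Λ := h.el.1.lower c3.le b1
    exact (b4 _).2 ⟨b', c3, ⟨d, c2, c4⟩,
      hu.unique ⟨⟨b', c5, rfl⟩, (key b' c5 d (lo d c2)).1 c4⟩ ⟨⟨b, c1, rfl⟩, hQ⟩⟩

theorem wzfcb_sat {M : Set ZFSet.{0}} (φ : Fml) (v : ℕ → M) :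
    Lib.Forcing.Sat (fun x y : M => x.1 ∈ y.1) φ v ↔ SatIn Mem (· ∈ M) φ fun i => (v i).1 := by
  induction φ generalizing v with
  | mem i j => exact Iff.rfl
  | eq i j => exact Subtype.ext_iff
  | neg φ ih => exact not_congr (ih v)
  | and φ ψ ih ih' => exact and_congr (ih v) (ih' v)
  | all j φ ih =>
    have e : ∀ a : M, (fun i => (Function.update v j a i).1) =
        Function.update (fun i => (v i).1) j a.1 := fun a => funext fun i => by
      by_cases k : i = j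
      · rw [k, Function.update_self, Function.update_self]
      · rw [Function.update_of_ne k, Function.update_of_ne k]
    exact ⟨fun k a ha => e ⟨a, ha⟩ ▸ (ih _).1 (k ⟨a, ha⟩), fun k a => (ih _).2 (e a ▸ k a.1 a.2)⟩

theorem wzfcb_ren (φ : Fml) (g : ℕ → ℕ) : ∃ k, ∀ (A Λ : Set On) (v : ℕ → On), Nice Λ →
    (∀ i, v i ∈ Λ) → (Sat A Λ k v ↔ SatIn Mem (· ∈ W A Λ) φ fun i => val A (v (g i))) :=
  (MD.rename _ (h := md_satW φ) g).ex

/-- The renaming of variables for replacement. -/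
def wzfcb_g : ℕ → ℕ
  | 0 => 1
  | 1 => 0
  | n + 2 => n + 4

/-- Hint: `Sat` on the subtype is `SatIn Mem (· ∈ W A Λ)`; use `md_satW` and `exists_ren`. -/
theorem zfc (h : Mod A Λ e) : ZFC fun x y : W A Λ => x.1 ∈ y.1 := by
  have tr := W_trans (A := A) h.el.1.lower
  refine ⟨fun x y k => ?_, fun x ⟨y, hy⟩ => ?_, fun x y => ?_, fun x => ?_, fun x => ?_, ?_,
    fun φ v x => ?_, fun φ v x hx => ?_, fun x h1 h2 => ?_⟩
  · exact Subtype.ext (ZFSet.ext fun z => ⟨fun a => (k ⟨z, tr _ x.2 _ a⟩).1 a,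
      fun a => (k ⟨z, tr _ y.2 _ a⟩).2 a⟩)
  · obtain ⟨u, a1, a2⟩ := ZFSet.mem_wf.has_min {u | u ∈ x.1} ⟨y.1, hy⟩
    exact ⟨⟨u, tr _ x.2 _ a1⟩, a1, fun z a b => a2 z.1 b a⟩
  · exact ⟨⟨_, h.pairing _ x.2 _ y.2⟩, fun z => by
      simp only [ZFSet.mem_pair, Subtype.ext_iff]⟩
  · exact ⟨⟨_, h.union _ x.2⟩, fun z => ZFSet.mem_sUnion.trans
      ⟨fun ⟨u, a, b⟩ => ⟨⟨u, tr _ x.2 _ a⟩, a, b⟩, fun ⟨u, a, b⟩ => ⟨u.1, a, b⟩⟩⟩
  · obtain ⟨p, a1, a2⟩ := h.power _ x.2
    exact ⟨⟨p, a1⟩, fun z => (a2 _).trans ⟨fun a t b => a.2 b,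
      fun a => ⟨z.2, fun t b => a ⟨t, tr _ z.2 _ b⟩ b⟩⟩⟩
  · have o : ∀ ξ : On, ξ < ω → ξ.toZFSet ∈ W A Λ := fun ξ a =>
      h.el.ord_mem.2 (h.el.1.lower a.le h.el.1.omega_mem)
    refine ⟨⟨_, h.el.ord_mem.2 h.el.1.omega_mem⟩, ⟨⟨_, o 0 omega0_pos⟩, fun z a => ?_,
      toZFSet_mem_toZFSet_iff.2 omega0_pos⟩, fun x a => ?_⟩
    · obtain ⟨u, b, -⟩ := mem_toZFSet_iff.1 a
      exact not_lt_zero b
    · obtain ⟨u, b, e⟩ := mem_toZFSet_iff.1 a
      have b' : u + 1 < ω := isSuccLimit_omega0.add_one_lt b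
      refine ⟨⟨_, o _ b'⟩, fun z => ?_, toZFSet_mem_toZFSet_iff.2 b'⟩
      show z.1 ∈ (u + 1).toZFSet ↔ z.1 ∈ x.1 ∨ z = x
      rw [toZFSet_add_one, ZFSet.mem_insert_iff, e, Subtype.ext_iff, or_comm]
  · obtain ⟨k, hk⟩ := wzfcb_ren φ (up fun n => n + 1)
    obtain ⟨y, a1, a2⟩ := h.sep
      (fun u => SatIn Mem (· ∈ W A Λ) φ fun i => u (up (fun n => n + 1) i)) k
      (fun w hw => hk A Λ w h.el.1 hw) (fun i => (v i).1) (fun i => (v i).2) _ x.2
    refine ⟨⟨y, a1⟩, fun z => (a2 _).trans (and_congr_right fun _ => ?_)⟩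
    rw [wzfcb_sat]
    refine iff_of_eq (congrArg _ (funext fun i => ?_))
    rcases i with _ | i <;> rfl
  · obtain ⟨k, hk⟩ := wzfcb_ren φ wzfcb_g
    have e : ∀ a b : W A Λ, Lib.Forcing.Sat (fun x y : W A Λ => x.1 ∈ y.1) φ
        (Function.update (Function.update v 0 a) 1 b) ↔ SatIn Mem (· ∈ W A Λ) φ fun i =>
          MP_ecfd11_lc.cons b.1 (MP_ecfd11_lc.cons a.1 fun i => (v i).1) (wzfcb_g i) := by
      intro a b
      rw [wzfcb_sat]
      refine iff_of_eq (congrArg _ (funext fun i => ?_))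
      rcases i with _ | _ | i <;> rfl
    obtain ⟨y, a1, a2, a3⟩ := h.repl
      (fun u => SatIn Mem (· ∈ W A Λ) φ fun i => u (wzfcb_g i)) k
      (fun w hw => hk A Λ w h.el.1 hw) (fun i => (v i).1) (fun i => (v i).2) _ x.2
    refine ⟨⟨y, a1⟩, fun b => ⟨fun hb => ?_, fun ⟨a, b1, b2⟩ => ?_⟩⟩
    · obtain ⟨a, b1, b2⟩ := a2 _ hb
      exact ⟨⟨a, tr _ x.2 _ b1⟩, b1, (e _ _).2 b2⟩
    · obtain ⟨b', c1, c2⟩ := hx a b1
      exact a3 _ b1 ⟨b'.1, ⟨b'.2, (e _ _).1 c1⟩, fun u hu =>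
        congrArg Subtype.val (c2 ⟨u, hu.1⟩ ((e _ _).2 hu.2))⟩ _ b.2 ((e _ _).1 b2)
  · obtain ⟨c, a1, a2⟩ := h.choice _ x.2
      (fun y hy => (h1 ⟨y, tr _ x.2 _ hy⟩ hy).elim fun z hz => ⟨z.1, hz⟩)
      fun y hy y' hy' k z hz hz' => h2 ⟨y, tr _ x.2 _ hy⟩ ⟨y', tr _ x.2 _ hy'⟩ hy hy'
        (fun a => k (congrArg Subtype.val a)) ⟨z, tr _ (tr _ x.2 _ hy) _ hz⟩ ⟨hz, hz'⟩
    refine ⟨⟨c, a1⟩, fun y hy => ?_⟩
    obtain ⟨z, b1, b2⟩ := a2 _ hy
    exact ⟨⟨z, tr _ a1 _ b1.2⟩, b1, fun u hu => Subtype.ext (b2 _ hu)⟩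

theorem innerModel (h : Mod A univ e) : MP_ecfd11_lc.InnerModel (W A univ) := by
  refine ⟨W_trans h.el.1.lower, fun x hx => ?_, h.pairing, h.union, h.power,
    fun φ v hv x hx => ?_, fun φ v hv x hx hu => ?_, h.choice⟩
  · rw [← hx.toZFSet_rank_eq]
    exact h.el.ord_mem.2 trivial
  · obtain ⟨k, hk⟩ := (md_satE φ).ex
    exact h.sep (MP_ecfd11_lc.Sat (W A univ) φ) k (fun w hw => hk A univ w h.el.1 hw) v hv x hx
  · obtain ⟨k, hk⟩ := (md_satE φ).ex
    obtain ⟨y, a1, a2, a3⟩ := h.repl (MP_ecfd11_lc.Sat (W A univ) φ) k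
      (fun w hw => hk A univ w h.el.1 hw) v hv x hx
    exact ⟨y, a1, fun b hb => ⟨a2 b, fun ⟨a, b1, b2⟩ => a3 a b1 (hu a b1) b hb b2⟩⟩

theorem wzfcb_bdd (h : Mod A Λ e) {θ μ : On} (h1 : θ ∈ Λ) (h3 : Rgl A Λ θ) (hc : μ < θ)
    (g : Set On → On → ZFSet.{0}) (hg : MD fun A _ v => val A (v 0) = g A (v 1)) {x : ZFSet.{0}}
    (hx : ∀ p ∈ x, ∃ d < μ, g A d = p) : Bdd (W A Λ) x θ := by
  rintro _ ⟨s, hs, rfl⟩ hf
  have hm : max s θ ∈ Λ := by
    rcases max_choice s θ with k | k <;> rw [k] <;> assumption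
  obtain ⟨a1, a2, -⟩ := nn_spec (max s θ)
  have hg' : MD fun A _ v => val A (v 0) = g A (v 4) :=
    MD.two (fun A _ x y => val A x = g A y) (fun _ _ v => v 0) fun _ _ v => v 4
  obtain ⟨b, b1, b2⟩ := h3.bdd h.el.1 (fun A _ v => sInf {ξ | ξ < v 2 ∧
    ∃ p, p ∈ els A (v 1) ∧ ∃ u, u < v 1 ∧ ∃ u', u' < v 1 ∧ (val A u' = g A (v 0) ∧
      val A u = ξ.toZFSet ∧ val A p = ZFSet.pair (val A u') (val A u))}) a1 (h.el.nn_mem hm)
    [s, θ] (by simpa using a2) hc (hc.le.trans ((le_max_right _ _).trans a2.le))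
  refine ⟨b, b1, fun p y hp => ?_⟩
  obtain ⟨c1, c2⟩ := ZFSet.pair_mem_prod.1 (hf.1 hp)
  obtain ⟨d, c3, rfl⟩ := hx p c1
  obtain ⟨ξ, c4, rfl⟩ := mem_toZFSet_iff.1 c2
  obtain ⟨p, c5, c6⟩ := mem_val.1 hp
  have tr := W_trans (A := A) (isLowerSet_Iio s)
  have c7 : ({g A d, ξ.toZFSet} : ZFSet.{0}) ∈ W A (Iio s) :=
    tr _ ⟨p, wzfca_lt c5, c6⟩ _ (by simp [ZFSet.pair])
  obtain ⟨u', d1, d2⟩ := tr _ c7 (g A d) (by simp)
  obtain ⟨u, d3, d4⟩ := tr _ c7 ξ.toZFSet (by simp)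
  have e : {ξ | ξ < θ ∧ ∃ p, p ∈ els A s ∧ ∃ u, u < s ∧ ∃ u', u' < s ∧ (val A u' = g A d ∧
      val A u = ξ.toZFSet ∧ val A p = ZFSet.pair (val A u') (val A u))} = {ξ} := by
    refine Set.ext fun ζ => ⟨?_, ?_⟩
    · rintro ⟨-, p', e1, w, -, w', -, e2, e3, e4⟩
      rw [e2, e3] at e4
      exact toZFSet_injective ((hf.2 _ c1).unique (e4 ▸ wzfca_val e1) hp)
    · rintro rfl
      exact ⟨c4, p, c5, u, d3, u', d1, d2, d4, by rw [c6, d2, d4]⟩
  have := b2 d c3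
  simp only [lv_zero, lv_succ, e, csInf_singleton] at this
  exact toZFSet_mem_toZFSet_iff.2 (this c4)

/-- Functions from a set with a small name into a regular ordinal are bounded.  Hint: `Rgl.bdd`
at an elementary level above the name of the function, with
`t d = sInf {ξ | ∃ p ∈ els A s, ∃ c, val c = ξ ∧ val p = pair (val d) (val c)}`. -/
theorem bdd_val (h : Mod A Λ e) {θ c : On} (h1 : θ ∈ Λ) (h3 : Rgl A Λ θ) (hc : c < θ) :
    Bdd (W A Λ) (val A c) θ := by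
  exact wzfcb_bdd h h1 h3 hc val inferInstance fun p hp =>
    (mem_val.1 hp).imp fun d k => ⟨wzfca_lt k.1, k.2⟩

theorem bdd_ord (h : Mod A Λ e) {θ a : On} (h1 : θ ∈ Λ) (h3 : Rgl A Λ θ) (ha : a < θ) :
    Bdd (W A Λ) a.toZFSet θ := by
  exact wzfcb_bdd h h1 h3 ha (fun _ d => d.toZFSet) inferInstance fun p hp =>
    mem_toZFSet_iff.1 hp

theorem reg (h : Mod A Λ e) {θ : On} (h1 : θ ∈ Λ) (h2 : Nice (Iio θ)) (h3 : Rgl A Λ θ) :
    Reg (W A Λ) θ := by
  exact ⟨h.el.ord_mem.2 h1, h2.omega_mem, fun a ha => h.bdd_ord h1 h3 ha⟩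

end Mod

end Pool.Agent.MP_fd3eaf_lc

end

-- part MP_fd3eaf_lc.WRef
section

/-!
A reflecting cardinal in the model of the names.
-/

set_option autoImplicit false

namespace Pool.Agent.MP_fd3eaf_lc

open Set Ordinal Pool.Agent.Lib.Forcing

section abs
variable {M N : Set ZFSet.{0}} {φ : Fml} {v : ℕ → ZFSet.{0}}

theorem wrefa_upd (hv : ∀ i, v i ∈ M) (i : ℕ) {a : ZFSet.{0}} (ha : a ∈ M) (j : ℕ) :
    Function.update v i a j ∈ M := by
  by_cases e : j = i
  · rwa [e, Function.update_self]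
  · rw [Function.update_of_ne e]
    exact hv j

theorem delta0_abs (hM : ∀ x ∈ M, ∀ y ∈ x, y ∈ M) (hN : ∀ x ∈ N, ∀ y ∈ x, y ∈ N) (h : M ⊆ N)
    (hφ : Delta0 φ) (hv : ∀ i, v i ∈ M) :
    SatIn Mem (· ∈ M) φ v ↔ SatIn Mem (· ∈ N) φ v := by
  induction hφ generalizing v with
  | mem i j => exact Iff.rfl
  | eq i j => exact Iff.rfl
  | neg _ ih => exact not_congr (ih hv)
  | and _ _ ih1 ih2 => exact and_congr (ih1 hv) (ih2 hv)
  | ball i j hij _ ih =>
    simp only [SatIn, Function.update_self, Function.update_of_ne hij.symm]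
    refine ⟨fun H a _ ⟨h1, h2⟩ => ?_, fun H a ha ⟨h1, h2⟩ => ?_⟩
    · have ha := hM _ (hv j) a h1
      exact H a ha ⟨h1, fun h3 => h2 ((ih (wrefa_upd hv i ha)).1 h3)⟩
    · exact H a (h ha) ⟨h1, fun h3 => h2 ((ih (wrefa_upd hv i ha)).2 h3)⟩

/-- If `Σ_n` formulas go down then `Σ_{n+1}` formulas go up. -/
theorem sig_up {n : ℕ} (h : M ⊆ N)
    (hd : ∀ φ v, Sig n φ → (∀ i, v i ∈ M) → SatIn Mem (· ∈ N) φ v → SatIn Mem (· ∈ M) φ v)
    (hφ : Sig (n + 1) φ) (hv : ∀ i, v i ∈ M) :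
    SatIn Mem (· ∈ M) φ v → SatIn Mem (· ∈ N) φ v := by
  generalize hm : n + 1 = m at hφ
  induction hφ generalizing v with
  | zero _ => exact absurd hm (Nat.succ_ne_zero n)
  | up h1 _ =>
    obtain rfl := Nat.succ_injective hm
    exact fun h2 h3 => h2 (hd _ v h1 hv h3)
  | ex i _ ih =>
    exact fun h2 h3 => h2 fun a ha h4 => h3 a (h ha) (ih (wrefa_upd hv i ha) hm h4)

end abs

/-- Reflection at `κ` in terms of the machine. -/
structure Ref (A Λ : Set On) (e κ : On) : Prop where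
  mem : κ ∈ Λ
  lt : e < κ
  rgl : Rgl A Λ κ
  el : ElUp A (Iio κ)
  refl : ∀ (k : ℕ) (a θ : On), a < κ → κ ≤ θ → θ ∈ Λ → Nice (Iio θ) → Card A Λ θ →
    Sat A (Iio θ) k (lv [a]) →
    ∃ θ' < κ, a < θ' ∧ Nice (Iio θ') ∧ Card A Λ θ' ∧ Sat A (Iio θ') k (lv [a])

variable {A Λ : Set On} {e κ : On}

/-- The values are replaced by the values of a list of names. -/
theorem wrefa_list {L : Set On} (hL : Nice L) (φ : Fml) {v : ℕ → ZFSet.{0}}
    (hv : ∀ i, v i ∈ W A L) : ∃ q : List On, (∀ a ∈ q, a ∈ L) ∧ ∀ L', Nice L' → L ⊆ L' →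
      (SatIn Mem (· ∈ W A L') φ v ↔ SatIn Mem (· ∈ W A L') φ fun i => val A (lv q i)) := by
  choose c h1 h2 using hv
  obtain rfl : (fun i => val A (c i)) = v := funext h2
  obtain ⟨k, hk⟩ := (md_satW φ).ex
  have h3 : ∀ a ∈ (List.range k).map c, a ∈ L := fun a ha => by
    obtain ⟨i, -, rfl⟩ := List.mem_map.1 ha
    exact h1 i
  exact ⟨_, h3, fun L' a1 a2 => (hk A L' c a1 fun i => a2 (h1 i)).symm.trans
    ((sat_list le_rfl c).trans (hk A L' _ a1 fun i => a2 (lv_mem hL.zero_mem h3 i)))⟩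

theorem wrefa_up1 {L L' : Set On} (h1 : IsLowerSet L) (h2 : IsLowerSet L') (h3 : L ⊆ L') {φ : Fml}
    (hφ : Sig 1 φ) {v : ℕ → ZFSet.{0}} (hv : ∀ i, v i ∈ W A L) :
    SatIn Mem (· ∈ W A L) φ v → SatIn Mem (· ∈ W A L') φ v := by
  refine sig_up (W_mono h3) (fun ψ u hψ hu => ?_) hφ hv
  cases hψ with
  | zero hψ => exact (delta0_abs (W_trans h1) (W_trans h2) (W_mono h3) hψ hu).2

/-- Nice cardinals are `Σ_1`-correct.  Hint: `md_satW`, an elementary level and `hull_lemma`. -/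
theorem Mod.sig1 (h : Mod A Λ e) {θ : On} (h1 : θ ∈ Λ) (h2 : Nice (Iio θ)) (h3 : Card A Λ θ)
    (h4 : e < θ) {φ : Fml} (hφ : Sig 1 φ) {v : ℕ → ZFSet.{0}} (hv : ∀ i, v i ∈ W A (Iio θ)) :
    SatIn Mem (· ∈ W A (Iio θ)) φ v ↔ SatIn Mem (· ∈ W A Λ) φ v := by
  have hθ : Iio θ ⊆ Λ := fun x hx => h.el.1.lower (le_of_lt hx) h1
  refine ⟨wrefa_up1 h2.lower h.el.1.lower hθ hφ hv, fun hs => ?_⟩
  obtain ⟨q, hq, hq'⟩ := wrefa_list h2 φ hv
  obtain ⟨w, a1, a2⟩ := carda_list h2.zero_mem (e :: q) fun a ha =>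
    (List.mem_cons.1 ha).elim (fun e' => e' ▸ h4) (hq a)
  have a3 : w + 1 < θ := h2.succ_mem a1
  have a4 : ∀ i, lv q i < w + 1 :=
    lv_mem (Λ := Iio (w + 1)) (zero_le.trans_lt (lt_add_one w)) fun a ha =>
      (a2 a (List.mem_cons_of_mem _ ha)).trans_lt (lt_add_one w)
  obtain ⟨l, b1, b2, b3⟩ := h.el.2 θ h1
  have b4 := b3.elem_id h.el.1 (isLowerSet_Iio l)
  obtain ⟨l', f, c1, c2, c3, c4, -⟩ := hull_lemma h.down h.el h3 h2
    ((a2 e List.mem_cons_self).trans (lt_add_one w).le) a3 b4.nice b1 (a3.trans b2).le []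
    fun _ m => absurd m List.not_mem_nil
  have := md_satW φ
  have d1 := b4.md (fun A Λ v => SatIn Mem (· ∈ W A Λ) φ fun i => val A (v i)) (v := lv q)
    fun i => (a4 i).trans (a3.trans b2)
  have d2 := c3.md (fun A Λ v => SatIn Mem (· ∈ W A Λ) φ fun i => val A (v i)) (v := lv q)
    fun i => (a4 i).trans_le c2
  rw [show f ∘ lv q = lv q from funext fun i => c4 _ (a4 i)] at d2
  exact (hq' _ h2 subset_rfl).2 (wrefa_up1 c3.nice.lower h2.lower (Iio_subset_Iio c1.le) hφ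
    (fun i => ⟨_, (a4 i).trans_le c2, rfl⟩) (d2.2 (d1.2 ((hq' Λ h.el.1 hθ).1 hs))))

/-- A true `Σ_2` formula holds at some nice cardinal.  Hint: induction on `Sig`, generalising
`θ` and `v`. -/
theorem Mod.sig2_down (h : Mod A Λ e) {θ : On} (h1 : θ ∈ Λ) {φ : Fml} (hφ : Sig 2 φ)
    {v : ℕ → ZFSet.{0}} (hv : ∀ i, v i ∈ W A (Iio θ)) (hs : SatIn Mem (· ∈ W A Λ) φ v) :
    ∃ θ' ∈ Λ, θ ≤ θ' ∧ Nice (Iio θ') ∧ Card A Λ θ' ∧ SatIn Mem (· ∈ W A (Iio θ')) φ v := by
  generalize hm : 2 = m at hφ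
  induction hφ generalizing θ v with
  | zero _ => exact absurd hm (by omega)
  | up hψ _ =>
    obtain rfl : 1 = _ := Nat.succ_injective hm
    obtain ⟨θ', a1, a2, a3, a4⟩ := h.card (max θ e)
      (by rcases max_choice θ e with e' | e' <;> rw [e']; exacts [h1, h.mem])
    have a5 := (max_lt_iff.1 a2).1.le
    exact ⟨θ', a1, a5, a3, a4, fun h2 => hs ((h.sig1 a1 a3 a4 (max_lt_iff.1 a2).2 hψ
      fun i => W_mono (Iio_subset_Iio a5) (hv i)).1 h2)⟩
  | ex i _ ih =>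
    obtain ⟨_, h2⟩ := not_forall.1 hs
    obtain ⟨⟨c, hc, rfl⟩, h3⟩ := Classical.not_imp.1 h2
    have a1 : val A c ∈ W A (Iio (max θ (c + 1))) := ⟨c, lt_max_of_lt_right (lt_add_one c), rfl⟩
    obtain ⟨θ', b1, b2, b3, b4, b5⟩ := ih (θ := max θ (c + 1))
      (by rcases max_choice θ (c + 1) with e' | e' <;> rw [e']; exacts [h1, h.el.1.succ_mem hc])
      (wrefa_upd (fun j => W_mono (Iio_subset_Iio (le_max_left _ _)) (hv j)) i a1)
      (not_not.1 h3) hm
    exact ⟨θ', b1, (le_max_left _ _).trans b2, b3, b4, fun h4 =>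
      h4 _ (W_mono (Iio_subset_Iio b2) a1) b5⟩

theorem Ref.card (h : Mod A Λ e) (hr : Ref A Λ e κ) :
    ∀ x < κ, ∃ θ < κ, x < θ ∧ Nice (Iio θ) ∧ Card A Λ θ := by
  have _ := h
  intro x hx
  obtain ⟨k, hk⟩ := MD.ex (P := fun _ _ _ => True)
  have h1 : Sat A (Iio κ) k (lv [x]) :=
    (hk A _ _ hr.el.1 (lv_mem hr.el.1.zero_mem fun a m => by
      rw [List.mem_singleton.1 m]; exact hx)).2 trivial
  obtain ⟨θ, a1, a2, a3, a4, -⟩ := hr.refl k x κ hx le_rfl hr.mem hr.el.1 hr.rgl.card h1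
  exact ⟨θ, a1, a2, a3, a4⟩

/-- The least bound for the names of the sets of rank `v 0`. -/
noncomputable def wrefb_t : Fam On := fun A Λ v => sInf {μ | μ ∈ Λ ∧
  ∀ s, s ∈ Λ → (val A s).rank = v 0 → ∃ s', s' < μ ∧ val A s' = val A s}

theorem wrefb_mt : MT wrefb_t := by
  unfold wrefb_t; infer_instance

theorem wrefb_names (h : Mod A Λ e) (hr : Ref A Λ e κ) (ρ : On) :
    ρ < κ → ∃ μ < κ, ∀ x ∈ W A Λ, x.rank = ρ → x ∈ W A (Iio μ) := by
  induction ρ using WellFoundedLT.induction with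
  | ind ρ ih =>
    intro hρ
    have hΛ := h.el.1
    have hs : ∀ x < κ, x ∈ Λ := fun x hx => hΛ.lower hx.le hr.mem
    obtain ⟨l, l1, l2, l3⟩ := h.el.2 κ hr.mem
    have he := l3.elem_id hΛ (isLowerSet_Iio l)
    have := wrefb_mt
    obtain ⟨b, b1, b2⟩ := hr.rgl.bdd hΛ wrefb_t he.nice l1 [] (fun _ m => absurd m List.not_mem_nil)
      hρ (hρ.trans l2).le
    have c1 : ∀ z ∈ W A Λ, z.rank < ρ → z ∈ W A (Iio b) := by
      rintro _ ⟨s, s1, rfl⟩ hz
      obtain ⟨μ, m1, m2⟩ := ih _ hz (hz.trans hρ)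
      have e1 : wrefb_t A (Iio l) (lv [(val A s).rank]) = wrefb_t A Λ (lv [(val A s).rank]) :=
        he.mtl wrefb_t [(val A s).rank] fun a m => by
          rw [List.mem_singleton.1 m]; exact (hz.trans hρ).trans l2
      have m3 : μ ∈ {μ | μ ∈ Λ ∧ ∀ s', s' ∈ Λ → (val A s').rank = lv [(val A s).rank] 0 →
          ∃ s'', s'' < μ ∧ val A s'' = val A s'} :=
        ⟨hs μ m1, fun s' a1 a2 => m2 _ ⟨s', a1, rfl⟩ a2⟩
      have b3 := b2 _ hz
      rw [e1] at b3
      obtain ⟨s', a1, a2⟩ := (csInf_mem ⟨μ, m3⟩).2 s s1 rfl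
      exact ⟨s', a1.trans (b3 ((csInf_le' m3).trans_lt m1)), a2⟩
    obtain ⟨θ, t1, t2, t3, t4⟩ := Ref.card h hr (max b e) (max_lt b1 hr.lt)
    refine ⟨θ, t1, fun x hx hx' => h.subset_mem (hs θ t1) t3 t4 (max_lt_iff.1 t2).2
      (max_lt_iff.1 t2).1 hx fun z hz => c1 z (W_trans hΛ.lower x hx z hz) ?_⟩
    exact hx' ▸ ZFSet.rank_lt_of_mem hz

/-- Hint: show by induction on `ρ < κ` that some `μ < κ` names all sets of rank `< ρ`; successor
steps by `Mod.subset_mem`, limit steps by `Rgl.bdd` at an elementary level above `κ`. -/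
theorem Ref.rank_lt (h : Mod A Λ e) (hr : Ref A Λ e κ) {x : ZFSet.{0}} :
    (x ∈ W A Λ ∧ x.rank < κ) ↔ x ∈ W A (Iio κ) := by
  constructor
  · rintro ⟨h1, h2⟩
    obtain ⟨μ, m1, m2⟩ := wrefb_names h hr _ h2
    exact W_mono (Iio_subset_Iio m1.le) (m2 x h1 rfl)
  · rintro ⟨c, hc, rfl⟩
    exact ⟨⟨c, h.el.1.lower (le_of_lt hc) hr.mem, rfl⟩,
      ((rank_val_le A c).trans (lev_le c)).trans_lt hc⟩

/-- Hint: code the names of the finitely many relevant values by one location `a < κ`. -/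
theorem Ref.sig2 (h : Mod A Λ e) (hr : Ref A Λ e κ) {φ : Fml} (hφ : Sig 2 φ)
    {v : ℕ → ZFSet.{0}} (hv : ∀ i, v i ∈ W A (Iio κ)) :
    SatIn Mem (· ∈ W A (Iio κ)) φ v ↔ SatIn Mem (· ∈ W A Λ) φ v := by
  have hκ : Iio κ ⊆ Λ := fun x hx => h.el.1.lower (le_of_lt hx) hr.mem
  have h1 := fun {ψ : Fml} {u : ℕ → ZFSet.{0}} =>
    h.sig1 hr.mem hr.el.1 hr.rgl.card hr.lt (φ := ψ) (v := u)
  refine ⟨sig_up (W_mono hκ) (fun ψ u a1 a2 => (h1 a1 a2).2) hφ hv, fun hs => ?_⟩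
  obtain ⟨θ, a1, a2, a3, a4, a5⟩ := h.sig2_down hr.mem hφ hv hs
  obtain ⟨q, hq, hq'⟩ := wrefa_list hr.el.1 φ hv
  obtain ⟨w, b1, b2⟩ := carda_list hr.el.1.zero_mem (e :: q) fun a ha =>
    (List.mem_cons.1 ha).elim (fun e' => e' ▸ hr.lt) (hq a)
  obtain ⟨l, c1, c2, c3⟩ := hr.el.1.up w b1
  have c4 : (Loc.mk l 0 0 q).Valid :=
    ⟨zero_le, fun a ha => (b2 a (List.mem_cons_of_mem _ ha)).trans_lt c3⟩
  obtain ⟨a, ha⟩ : ∃ a, a = code ⟨l, 0, 0, q⟩ := ⟨_, rfl⟩
  have c5 : a < κ := ha ▸ hr.el.1.code_mem (x := ⟨l, 0, 0, q⟩) c1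
  have c6 : par a = q := ha ▸ par_code (x := ⟨l, 0, 0, q⟩) c2 c4
  have c7 : l ≤ a := ha ▸ le_code (x := ⟨l, 0, 0, q⟩) c2 c4
  have := md_satW φ
  obtain ⟨k, hk⟩ := (MD.substAll (fun A Λ v => SatIn Mem (· ∈ W A Λ) φ fun i => val A (v i))
    (fun A _ _ => A) (fun i _ _ v => lv (par (v 0)) i) fun i => MT.lv_par _ i).ex
  have d1 : ∀ θ, Nice (Iio θ) → a < θ → (Sat A (Iio θ) k (lv [a]) ↔
      SatIn Mem (· ∈ W A (Iio θ)) φ fun i => val A (lv q i)) := fun θ hθ h2 => by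
    rw [hk A _ _ hθ (lv_mem hθ.zero_mem fun b hb => List.mem_singleton.1 hb ▸ h2), lv_zero, c6]
  obtain ⟨θ', e1, e2, e3, e4, e5⟩ := hr.refl k a θ c5 a2 a1 a3 a4
    ((d1 θ a3 (c5.trans_le a2)).2 ((hq' _ a3 (Iio_subset_Iio a2)).1 a5))
  have e6 : w < θ' := c3.trans (c7.trans_lt e2)
  have e7 := W_mono (A := A) (Iio_subset_Iio e1.le)
  refine (hq' _ hr.el.1 subset_rfl).2 (sig_up e7 (fun ψ u g1 g2 g3 => ?_) hφ
    (fun i => ⟨_, lv_mem e3.zero_mem (fun b hb =>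
      (b2 b (List.mem_cons_of_mem _ hb)).trans_lt e6) i, rfl⟩) ((d1 θ' e3 e2).1 e5))
  exact (h.sig1 (hκ e1) e3 e4 ((b2 e List.mem_cons_self).trans_lt e6) g1 g2).2
    ((h1 g1 fun i => e7 (g2 i)).1 g3)

theorem Ref.reflecting (h : Mod A Λ e) (hr : Ref A Λ e κ) : Reflecting (W A Λ) κ := by
  refine ⟨h.reg hr.mem hr.el.1 hr.rgl, fun a ha p hp hz => ?_, fun φ hφ v hv => ?_⟩
  · have h1 : p.rank ≤ a + 1 := ZFSet.rank_le_iff.2 fun {z} m => by
      have := ZFSet.rank_mono ((hz z).1 m).2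
      rw [Ordinal.rank_toZFSet] at this
      exact this.trans_lt (lt_add_one a)
    obtain ⟨c, hc, rfl⟩ := (Ref.rank_lt h hr).1 ⟨hp, h1.trans_lt (hr.el.1.succ_mem ha)⟩
    exact h.bdd_val hr.mem hr.rgl hc
  · have e1 : (fun x : ZFSet.{0} => x ∈ W A Λ ∧ x.rank < κ) = (· ∈ W A (Iio κ)) :=
      funext fun x => propext (Ref.rank_lt h hr)
    rw [e1]
    exact Ref.sig2 h hr hφ fun i => (Ref.rank_lt h hr).1 (hv i)

end Pool.Agent.MP_fd3eaf_lc

end
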